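import Mathlib

/-! Linear substitutions in polynomial rings, the invariant ideal, finiteness of the quotient. -/

namespace Pool.Agent.P.MP_97ea17_al

open MvPolynomial
open scoped Matrix

variable {σ : Type} [Fintype σ]

/-- The linear form with coefficient vector `l`. -/
noncomputable def lin : (σ → ℂ) →ₗ[ℂ] MvPolynomial σ ℂ where
  toFun l := ∑ j, l j • X j
  map_add' a b := by simp [add_smul, Finset.sum_add_distrib]
  map_smul' c a := by simp [Finset.smul_sum, smul_smul]

theorem lin_apply (l : σ → ℂ) : lin l = ∑ j, l j • (X j : MvPolynomial σ ℂ) := rfl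

theorem lin_single [DecidableEq σ] (i : σ) : lin (Pi.single i (1 : ℂ)) = X i := by
  rw [lin_apply, Finset.sum_eq_single i] <;> simp +contextual

theorem lin_hom (l : σ → ℂ) : (lin l).IsHomogeneous 1 := by
  rw [lin_apply]
  exact IsHomogeneous.sum _ _ _ fun j _ =>
    (homogeneousSubmodule σ ℂ 1).smul_mem _ (isHomogeneous_X ℂ j)

theorem eval_lin (x l : σ → ℂ) : eval x (lin l) = l ⬝ᵥ x := by
  simp [lin_apply, dotProduct, smul_eval]

/-- Pull-back of polynomial functions along the linear map `M`. -/
noncomputable def sub (M : Matrix σ σ ℂ) : MvPolynomial σ ℂ →ₐ[ℂ] MvPolynomial σ ℂ :=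
  aeval fun i => lin (M i)

theorem sub_X (M : Matrix σ σ ℂ) (i : σ) : sub M (X i) = lin (M i) := by simp [sub]

theorem eval_sub' (M : Matrix σ σ ℂ) (x : σ → ℂ) (p : MvPolynomial σ ℂ) :
    eval x (sub M p) = eval (M *ᵥ x) p := by
  induction p using MvPolynomial.induction_on with
  | C a => simp [sub]
  | add p q hp hq => simp [hp, hq]
  | mul_X p i hp => simp [hp, sub_X, eval_lin, Matrix.mulVec]

theorem sub_lin (M : Matrix σ σ ℂ) (l : σ → ℂ) : sub M (lin l) = lin (l ᵥ* M) := by
  apply MvPolynomial.funext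
  intro x
  rw [eval_sub', eval_lin, eval_lin, Matrix.dotProduct_mulVec]

theorem sub_mul (M N : Matrix σ σ ℂ) (p : MvPolynomial σ ℂ) :
    sub (M * N) p = sub N (sub M p) := by
  apply MvPolynomial.funext
  intro x
  simp [eval_sub', Matrix.mulVec_mulVec]

theorem sub_one [DecidableEq σ] (p : MvPolynomial σ ℂ) : sub (1 : Matrix σ σ ℂ) p = p := by
  apply MvPolynomial.funext
  intro x
  simp [eval_sub']

theorem sub_hom (M : Matrix σ σ ℂ) {p : MvPolynomial σ ℂ} {d : ℕ} (hp : p.IsHomogeneous d) :
    (sub M p).IsHomogeneous d := by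
  have := hp.aeval (fun i => lin (M i)) (n := 1) (fun i => lin_hom _)
  simpa [sub] using this

theorem eval_smul_hom {p : MvPolynomial σ ℂ} {d : ℕ} (hp : p.IsHomogeneous d) (c : ℂ)
    (x : σ → ℂ) : eval (c • x) p = c ^ d * eval x p := by
  classical
  rw [eval_eq', eval_eq', Finset.mul_sum]
  refine Finset.sum_congr rfl fun s hs => ?_
  have h1 : ∑ i, s i = d := by
    have := hp (mem_support_iff.1 hs)
    rw [← this, Finsupp.weight_apply, Finsupp.sum_fintype _ _ (by simp)]
    simp
  simp only [Pi.smul_apply, smul_eq_mul, mul_pow, Finset.prod_mul_distrib,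
    Finset.prod_pow_eq_pow_sum, h1]
  ring

theorem sub_smul (c : ℂ) (M : Matrix σ σ ℂ) {p : MvPolynomial σ ℂ} {d : ℕ}
    (hp : p.IsHomogeneous d) : sub (c • M) p = c ^ d • sub M p := by
  apply MvPolynomial.funext
  intro x
  rw [eval_sub', Matrix.smul_mulVec, eval_smul_hom hp, smul_eval, eval_sub']

variable [DecidableEq σ] {G : Type} [Group G]

/-- Invariant ideal of a matrix representation. -/
noncomputable def invI (c : G →* Matrix σ σ ℂ) : Ideal (MvPolynomial σ ℂ) :=
  Ideal.span {p | (∃ d, 0 < d ∧ p.IsHomogeneous d) ∧ ∀ g, sub (c g) p = p}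

theorem X_pow_mem [Fintype G] (c : G →* Matrix σ σ ℂ) (i : σ) :
    (X i : MvPolynomial σ ℂ) ^ Fintype.card G ∈ invI c := by
  classical
  set y : G → MvPolynomial σ ℂ := fun g => -sub (c g) (X i) with hy
  set F : Polynomial (MvPolynomial σ ℂ) := ∏ g, (Polynomial.X + Polynomial.C (y g)) with hF
  have h0 : F.eval (X i) = 0 := by
    rw [hF, Polynomial.eval_prod]
    exact Finset.prod_eq_zero (Finset.mem_univ 1) (by simp [hy, sub_one])
  have hm : F.Monic := Polynomial.monic_prod_of_monic _ _ fun g _ => Polynomial.monic_X_add_C _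
  have hd : F.natDegree = Fintype.card G := by
    rw [hF, Polynomial.natDegree_prod_of_monic _ _ fun g _ => Polynomial.monic_X_add_C _]
    simp
  have hinv : ∀ h k, sub (c h) (F.coeff k) = F.coeff k := by
    intro h k
    have : F.map (sub (c h)).toRingHom = F := by
      rw [hF, Polynomial.map_prod]
      refine Fintype.prod_equiv (Equiv.mulRight h) _ _ fun g => ?_
      simp [hy, sub_mul]
    conv_rhs => rw [← this]
    simp
  have hhom : ∀ k, k ≤ Fintype.card G → (F.coeff k).IsHomogeneous (Fintype.card G - k) := by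
    intro k hk
    rw [hF, Finset.prod_X_add_C_coeff _ _ (by simpa using hk)]
    refine IsHomogeneous.sum _ _ _ fun t ht => ?_
    have := IsHomogeneous.prod t y (fun _ => 1) fun g _ =>
      (sub_hom (c g) (isHomogeneous_X ℂ i)).neg
    simpa [(Finset.mem_powersetCard.1 ht).2] using this
  rw [Polynomial.eval_eq_sum_range, Finset.sum_range_succ, hd] at h0
  have h1 : F.coeff (Fintype.card G) = 1 := by rw [← hd]; exact hm
  rw [h1, one_mul, add_eq_zero_iff_neg_eq] at h0
  rw [← h0]
  refine neg_mem (Ideal.sum_mem _ fun k hk => Ideal.mul_mem_right _ _ (Ideal.subset_span ?_))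
  have := Finset.mem_range.1 hk
  exact ⟨⟨_, by omega, hhom k this.le⟩, fun g => hinv g k⟩

theorem finite_quot [Finite G] (c : G →* Matrix σ σ ℂ) :
    Module.Finite ℂ (MvPolynomial σ ℂ ⧸ invI c) := by
  classical
  have := Fintype.ofFinite G
  have : Algebra.IsIntegral ℂ (MvPolynomial σ ℂ ⧸ invI c) := by
    constructor
    intro a
    obtain ⟨p, rfl⟩ := Ideal.Quotient.mk_surjective a
    induction p using MvPolynomial.induction_on with
    | C a => exact isIntegral_algebraMap
    | add p q hp hq => rw [map_add]; exact hp.add hq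
    | mul_X p i hp =>
      rw [map_mul]
      refine hp.mul ⟨Polynomial.X ^ Fintype.card G, Polynomial.monic_X_pow _, ?_⟩
      rw [Polynomial.eval₂_X_pow, ← map_pow, Ideal.Quotient.eq_zero_iff_mem]
      exact X_pow_mem c i
  exact Algebra.IsIntegral.finite

/-- Degree `k` part of the invariant ideal. -/
theorem homComp_mem_invI (c : G →* Matrix σ σ ℂ) (k : ℕ)
    (U : Submodule ℂ (MvPolynomial σ ℂ))
    (hU : ∀ d e (p q : MvPolynomial σ ℂ), 0 < d → d + e = k → p.IsHomogeneous d →
      (∀ g, sub (c g) p = p) → q.IsHomogeneous e → q * p ∈ U)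
    {f : MvPolynomial σ ℂ} (hf : f ∈ invI c) : homogeneousComponent k f ∈ U := by
  classical
  have key : ∀ q, homogeneousComponent k (q * f) ∈ U := by
    induction hf using Submodule.span_induction with
    | mem p hp =>
      intro q
      obtain ⟨⟨d, hd, hp1⟩, hp2⟩ := hp
      rw [← sum_homogeneousComponent q, Finset.sum_mul, map_sum]
      refine U.sum_mem fun e _ => ?_
      have h1 := (homogeneousComponent_isHomogeneous e q).mul hp1
      rw [homogeneousComponent_of_mem h1]
      split_ifs with h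
      · exact hU d e p _ hd (by omega) hp1 hp2 (homogeneousComponent_isHomogeneous e q)
      · exact U.zero_mem
    | zero => intro q; simp
    | add a b _ _ ha hb => intro q; rw [mul_add, map_add]; exact U.add_mem (ha q) (hb q)
    | smul a b _ hb => intro q; rw [smul_eq_mul, ← mul_assoc]; exact hb _
  simpa using key 1

instance finite_hom (k : ℕ) : Module.Finite ℂ (homogeneousSubmodule σ ℂ k) :=
  Module.Finite.iff_fg.2 (homogeneousSubmodule_fg σ ℂ k)

/-- Graded lower bound: if the degree `k` part of the invariant ideal lies in `U k`. -/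
theorem sum_le_finrank [Finite G] (c : G →* Matrix σ σ ℂ) (K : ℕ)
    (U : ℕ → Submodule ℂ (MvPolynomial σ ℂ)) [∀ k, Module.Finite ℂ (U k)]
    (hU : ∀ k < K, ∀ f, f ∈ invI c → homogeneousComponent k f ∈ U k) :
    ∑ k ∈ Finset.range K, Module.finrank ℂ (homogeneousSubmodule σ ℂ k) ≤
      Module.finrank ℂ (MvPolynomial σ ℂ ⧸ invI c) +
        ∑ k ∈ Finset.range K, Module.finrank ℂ (U k) := by
  classical
  have := finite_quot c
  let Φ : ((k : Fin K) → homogeneousSubmodule σ ℂ k) →ₗ[ℂ] MvPolynomial σ ℂ :=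
    ∑ k : Fin K, (homogeneousSubmodule σ ℂ k).subtype ∘ₗ LinearMap.proj k
  have hΦ : ∀ x (k : Fin K), homogeneousComponent k (Φ x) = x k := by
    intro x k
    simp only [Φ, LinearMap.sum_apply, map_sum]
    rw [Finset.sum_eq_single k]
    · simp [homogeneousComponent_of_mem (x k).2]
    · intro j _ hj
      have : (k : ℕ) ≠ j := fun h => hj (Fin.ext h).symm
      simp [homogeneousComponent_of_mem (x j).2, this]
    · simp
  let Ψ := (Ideal.Quotient.mkₐ ℂ (invI c)).toLinearMap ∘ₗ Φ
  have h1 := Ψ.finrank_range_add_finrank_ker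
  have h2 : Module.finrank ℂ (LinearMap.range Ψ) ≤ _ := Submodule.finrank_le _
  let Θ : LinearMap.ker Ψ →ₗ[ℂ] ((k : Fin K) → U k) :=
    LinearMap.pi fun k => LinearMap.codRestrict (U k)
      ((homogeneousSubmodule σ ℂ k).subtype ∘ₗ LinearMap.proj k ∘ₗ (LinearMap.ker Ψ).subtype)
      (fun x => by
        have hx : Φ x ∈ invI c := Ideal.Quotient.eq_zero_iff_mem.1 x.2
        have := hU k k.2 _ hx
        rw [hΦ] at this
        exact this)
  have h3 : Module.finrank ℂ (LinearMap.ker Ψ) ≤ _ :=
    LinearMap.finrank_le_finrank_of_injective (f := Θ) (by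
      intro x y hxy
      ext k : 3
      have h4 := congrArg Subtype.val (congrFun hxy k)
      exact h4)
  rw [Module.finrank_pi_fintype] at h1 h3
  rw [Finset.sum_range, Finset.sum_range (fun k => Module.finrank ℂ (U k))]
  omega

end Pool.Agent.P.MP_97ea17_al
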