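import Pool.Agent.P.MP_97ea17_al.Defs

/-! Reflection groups given by explicit roots. -/

namespace Pool.Agent.P.MP_97ea17_al

open scoped Quaternion

/-- The list `[a, b, c, d, a', b', c', d']` (missing entries are zero) stands for the quaternion
`(a + a' √D) + (b + b' √D) i + (c + c' √D) j + (d + d' √D) k`. -/
noncomputable def quat (D : ℕ) (l : List ℤ) : ℍ[ℝ] :=
  ⟨l.getD 0 0 + l.getD 4 0 * √D, l.getD 1 0 + l.getD 5 0 * √D,
    l.getD 2 0 + l.getD 6 0 * √D, l.getD 3 0 + l.getD 7 0 * √D⟩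

/-- The unitary reflection `v ↦ v - a (1 - ξ) ⟨a, v⟩ / ⟨a, a⟩`, which sends `a` to `a ξ`. -/
noncomputable def reflMat {n : ℕ} (a : Fin n → ℍ[ℝ]) (ξ : ℍ[ℝ]) : Matrix (Fin n) (Fin n) ℍ[ℝ] :=
  1 - Matrix.of fun i j => (∑ k, Quaternion.normSq (a k))⁻¹ • (a i * (1 - ξ) * star (a j))

/-- The group generated by the reflections with roots `a` and values `ξ`, where the pairs
`(2 ξ, a)` are listed in `R`. -/
noncomputable def grp (n D : ℕ) (R : List (List ℤ × List (List ℤ))) :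
    Subgroup (GL (Fin n) ℍ[ℝ]) :=
  Subgroup.closure {g | ∃ r ∈ R,
    g.val = reflMat (fun i => quat D (r.2.getD i [])) ((2 : ℝ)⁻¹ • quat D r.1)}

/-- Generators of the imprimitive group `G(I, 1)` of order 240. -/
def rI1 : List (List ℤ × List (List ℤ)) :=
  [([-2], [[1], [-1]]),
   ([-2], [[0, 1], [-1]]),
   ([-2], [[1, 1, 1, 1], [-2]]),
   ([-2], [[0, 2, 1, 1, 0, 0, 1, -1], [-4]])]

/-- Generators of `W(O₁)`, order 120. -/
def rO1 : List (List ℤ × List (List ℤ)) :=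
  [([-1, 1, 1, 1], [[-1, 0, -1, 1, 1], [-1, 1, 0, -1, 0, 0, 0, -1]]),
   ([-1, 1, 1, 1], [[0, 0, 0, -3, 0, 0, 1], [-2, -2, -1, 0, 0, 0, 0, 1]])]

/-- Generators of `W(O₂)`, order 720. -/
def rO2 : List (List ℤ × List (List ℤ)) :=
  [([-1, 1, 1, 1], [[-1, 0, -1, 1, 1], [-1, 1, 0, -1, 0, 0, 0, -1]]),
   ([-1, 1, 1, 1], [[0, 0, 0, -3, 0, 0, 1], [-2, -2, -1, 0, 0, 0, 0, 1]]),
   ([-1, 1, 1, 1], [[0, 0, 0, -3, 0, 0, 1], [2, 2, 1, 0, 0, 0, 0, -1]])]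

/-- Generators of `W(O₃)`, order 1440. -/
def rO3 : List (List ℤ × List (List ℤ)) :=
  [([-1, 1, 1, 1], [[-1, 0, -1, 1, 1], [-1, 1, 0, -1, 0, 0, 0, -1]]),
   ([-1, 1, 1, 1], [[0, 0, 0, -3, 0, 0, 1], [-2, -2, -1, 0, 0, 0, 0, 1]]),
   ([-2], [[0], [-1]])]

/-- Generators of `W(P₁)`, order 320. -/
def rP1 : List (List ℤ × List (List ℤ)) :=
  [([0, 2], [[1], [0]]),
   ([0, 0, 2], [[1], [1]])]

/-- Generators of `W(P₂)`, order 1920. -/
def rP2 : List (List ℤ × List (List ℤ)) :=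
  [([0, 2], [[1], [0]]),
   ([0, 0, 2], [[1], [0]]),
   ([0, 2], [[1], [1]])]

/-- Generators of `W(P₃)`, order 3840. -/
def rP3 : List (List ℤ × List (List ℤ)) :=
  [([0, 2], [[1], [0]]),
   ([0, 0, 2], [[1], [0]]),
   ([0, 2], [[1], [1]]),
   ([-2], [[1, 0, 0, 0, -1], [1]])]

/-- Generators of `W(Q)`, order 12096. -/
def rQ : List (List ℤ × List (List ℤ)) :=
  [([-2], [[1], [0], [0]]),
   ([-2], [[1], [1], [0]]),
   ([-2], [[0], [1], [0, 1]]),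
   ([-2], [[1, 1, 0, -1, 0, 0, 1], [2], [-2]])]

/-- Generators of `W(R)`, order 1209600. -/
def rR : List (List ℤ × List (List ℤ)) :=
  [([-2], [[1], [0], [0]]),
   ([-2], [[1], [1], [0]]),
   ([-2], [[0], [1], [0, 1]]),
   ([-2], [[0], [1], [0, 0, 1]]),
   ([-2], [[1, 1, 1, 1, 1, 1, 1, 1], [4], [-1, 1, 1, 1, 1, -1, -1, -1]])]

/-- Generators of `W(S₁)`, order 6912. -/
def rS1 : List (List ℤ × List (List ℤ)) :=
  [([-2], [[0], [1], [0], [0]]),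
   ([-2], [[0], [0], [1], [0]]),
   ([-2], [[0], [0], [0], [1]]),
   ([-2], [[1], [1], [1], [1]]),
   ([-2], [[1], [0, 1], [0, 0, 1], [0, 0, 0, 1]])]

/-- Generators of `W(S₂)`, order 82944. -/
def rS2 : List (List ℤ × List (List ℤ)) :=
  [([-2], [[0], [1], [-1], [0]]),
   ([-2], [[0], [0], [1], [-1]]),
   ([-2], [[0], [0], [0], [1]]),
   ([-2], [[1], [-1], [-1], [-1]]),
   ([-2], [[1], [0, 1], [0, 0, 1], [0, 0, 0, 1]])]

/-- Generators of `W(S₃)`, order 3317760. -/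
def rS3 : List (List ℤ × List (List ℤ)) :=
  [([-2], [[0], [1], [-1], [0]]),
   ([-2], [[0], [0], [1], [-1]]),
   ([-2], [[0], [0], [0], [1]]),
   ([-2], [[1], [-1], [-1], [-1]]),
   ([-2], [[1], [0, 1], [0, 0, 1], [0, 0, 0, 1]]),
   ([-2], [[1], [0, 1], [0], [0]])]

/-- Generators of `W(T)`, order 2592000. -/
def rT : List (List ℤ × List (List ℤ)) :=
  [([-2], [[0], [1], [0], [0]]),
   ([-2], [[0], [0], [1], [0]]),
   ([-2], [[1], [1], [1], [1]]),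
   ([-2], [[1, 0, 0, 0, 1], [2], [-1, 0, 0, 0, 1], [0]]),
   ([-2], [[1], [0, 1], [0, 0, 1], [0, 0, 0, 1]])]

/-- Generators of `W(U)`, order 27371520. -/
def rU : List (List ℤ × List (List ℤ)) :=
  [([-2], [[0], [1], [0], [0], [0]]),
   ([-2], [[0], [0], [1], [0], [0]]),
   ([-2], [[0], [0], [0], [1], [0]]),
   ([-2], [[1], [1], [1], [1], [0]]),
   ([-2], [[1], [0, 1], [0, 0, 1], [0, 0, 0, 1], [0]]),
   ([-2], [[0], [2], [1, 1, 1, 1], [-1, 1, 1, 1], [2]])]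

/-- The exceptional groups: rank, radicand, order, generators. -/
def exc : List (ℕ × ℕ × ℕ × List (List ℤ × List (List ℤ))) :=
  [(2, 5, 240, rI1), (2, 3, 120, rO1), (2, 3, 720, rO2), (2, 3, 1440, rO3), (2, 2, 320, rP1),
   (2, 2, 1920, rP2), (2, 2, 3840, rP3), (3, 5, 12096, rQ), (3, 5, 1209600, rR), (4, 2, 6912, rS1),
   (4, 2, 82944, rS2), (4, 2, 3317760, rS3), (4, 5, 2592000, rT), (5, 2, 27371520, rU)]

end Pool.Agent.P.MP_97ea17_al
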