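import Pool.Agent.P.MP_97ea17_al.ChkB
import Pool.Agent.P.MP_97ea17_al.DefsE

/-! Values of the coded numbers. -/

namespace Pool.Agent.P.MP_97ea17_al.Ck

open scoped Quaternion

/-- Real value. -/
noncomputable def R4.val (D : ℕ) (x : R4) : ℝ := x.p0 - x.n0 + (x.p1 - x.n1) * √D

variable {D : ℕ}

theorem R4.val_mul (x y : R4) : (R4.mul D x y).val D = x.val D * y.val D := by
  obtain ⟨a, b, c, d⟩ := x
  obtain ⟨e, f, g, h⟩ := y
  have hs : √(D : ℝ) * √D = D := Real.mul_self_sqrt (Nat.cast_nonneg D)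
  simp only [R4.mul, R4.val, Nat.add_eq, Nat.mul_eq]
  push_cast
  linear_combination -((c : ℝ) - d) * (g - h) * hs

theorem R4.val_add (x y : R4) : (x.add y).val D = x.val D + y.val D := by
  obtain ⟨a, b, c, d⟩ := x
  obtain ⟨e, f, g, h⟩ := y
  simp only [R4.add, R4.val, Nat.add_eq]
  push_cast
  ring

theorem R4.val_neg (x : R4) : x.neg.val D = -x.val D := by
  obtain ⟨a, b, c, d⟩ := x
  simp only [R4.neg, R4.val]
  ring

theorem R4.val_sm (k : ℕ) (x : R4) : (x.sm k).val D = k * x.val D := by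
  obtain ⟨a, b, c, d⟩ := x
  simp only [R4.sm, R4.val, Nat.mul_eq]
  push_cast
  ring

theorem R4.beq_iff (x y : R4) :
    x.beq y = true ↔ x.p0 + y.n0 = x.n0 + y.p0 ∧ x.p1 + y.n1 = x.n1 + y.p1 := by
  obtain ⟨a, b, c, d⟩ := x
  obtain ⟨e, f, g, h⟩ := y
  simp [R4.beq]

theorem R4.val_beq {x y : R4} (h : x.beq y = true) : x.val D = y.val D := by
  obtain ⟨h1, h2⟩ := (R4.beq_iff x y).1 h
  have h3 : (x.p0 + y.n0 : ℝ) = x.n0 + y.p0 := by exact_mod_cast h1
  have h4 : (x.p1 + y.n1 : ℝ) = x.n1 + y.p1 := by exact_mod_cast h2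
  unfold R4.val
  linear_combination h3 + √D * h4

theorem R4.beq_val (hD : D.Prime) {x y : R4} (h : x.val D = y.val D) : x.beq y = true := by
  have hi := hD.irrational_sqrt
  have h1 : ((x.p1 + y.n1 - (x.n1 + y.p1) : ℤ) : ℝ) * √D = (x.n0 + y.p0 - (x.p0 + y.n0) : ℤ) := by
    unfold R4.val at h
    push_cast
    linear_combination h
  have h2 : (x.p1 + y.n1 - (x.n1 + y.p1) : ℤ) = 0 := by
    by_contra h0
    exact (hi.intCast_mul h0).ne_int _ h1
  rw [h2, Int.cast_zero, zero_mul] at h1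
  have h3 := Int.cast_eq_zero.1 h1.symm
  rw [R4.beq_iff]
  omega

theorem R4.frc_spec {x : R4} {k : R4 → Bool} (h : x.frc k = true) :
    ∃ y, (∀ D, y.val D = x.val D) ∧ k y = true := by
  obtain ⟨a, b, c, d⟩ := x
  refine ⟨⟨a - b, b - a, c - d, d - c⟩, fun D => R4.val_beq ((R4.beq_iff _ _).2 ?_), h⟩
  simp only
  omega

/-- Quaternion value. -/
noncomputable def Q4.val (D : ℕ) (x : Q4) : ℍ[ℝ] := ⟨x.a.val D, x.b.val D, x.c.val D, x.d.val D⟩

theorem Q4.val_mul (x y : Q4) : (Q4.mul D x y).val D = x.val D * y.val D := by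
  obtain ⟨a, b, c, d⟩ := x
  obtain ⟨e, f, g, h⟩ := y
  ext <;> simp [Q4.mul, Q4.val, R4.val_add, R4.val_mul, R4.val_neg] <;> ring

theorem Q4.val_add (x y : Q4) : (x.add y).val D = x.val D + y.val D := by
  obtain ⟨a, b, c, d⟩ := x
  obtain ⟨e, f, g, h⟩ := y
  ext <;> simp [Q4.add, Q4.val, R4.val_add]

theorem Q4.val_cnj (x : Q4) : x.cnj.val D = star (x.val D) := by
  obtain ⟨a, b, c, d⟩ := x
  ext <;> simp [Q4.cnj, Q4.val, R4.val_neg]

theorem Q4.val_sm (k : ℕ) (x : Q4) : (x.sm k).val D = (k : ℝ) • x.val D := by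
  obtain ⟨a, b, c, d⟩ := x
  ext <;> simp [Q4.sm, Q4.val, R4.val_sm]

theorem Q4.val_rm (r : R4) (x : Q4) : (Q4.rm D r x).val D = r.val D • x.val D := by
  obtain ⟨a, b, c, d⟩ := x
  ext <;> simp [Q4.rm, Q4.val, R4.val_mul]

theorem Q4.val_beq {x y : Q4} (h : x.beq y = true) : x.val D = y.val D := by
  obtain ⟨a, b, c, d⟩ := x
  obtain ⟨e, f, g, h⟩ := y
  simp only [Q4.beq, nd_iff] at h
  obtain ⟨h1, h2, h3, h4⟩ := h
  simp only [Q4.val, R4.val_beq h1, R4.val_beq h2, R4.val_beq h3, R4.val_beq h4]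

theorem Q4.frc_spec {x : Q4} {k : Q4 → Bool} (h : x.frc k = true) :
    ∃ y, (∀ D, y.val D = x.val D) ∧ k y = true := by
  obtain ⟨a, b, c, d⟩ := x
  simp only [Q4.frc] at h
  obtain ⟨a', ha, h⟩ := R4.frc_spec h
  obtain ⟨b', hb, h⟩ := R4.frc_spec h
  obtain ⟨c', hc, h⟩ := R4.frc_spec h
  obtain ⟨d', hd, h⟩ := R4.frc_spec h
  exact ⟨_, fun D => by simp only [Q4.val, ha, hb, hc, hd], h⟩

theorem Q4.val_zero : Q4.zero.val D = 0 := by
  ext <;> simp [Q4.zero, Q4.val, R4.val]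

theorem val_sumQ (n : ℕ) (f : ℕ → Q4) : (sumQ n f).val D = ∑ i ∈ Finset.range n, (f i).val D := by
  induction n with
  | zero => exact Q4.val_zero
  | succ n ih => rw [Finset.sum_range_succ_comm, ← ih, ← Q4.val_add]; rfl

theorem val_zR (x y : ℤ) : (zR x y).val D = x + y * √D := by
  have h : ∀ x : ℤ, ((x.toNat : ℝ) - (-x).toNat) = x := fun x => by
    exact_mod_cast Int.toNat_sub_toNat_neg x
  simp only [zR, R4.val, h]

theorem val_zQ (l : List ℤ) : (zQ l).val D = quat D l := by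
  simp only [zQ, Q4.val, quat, val_zR]

theorem frcQ_spec {l : List Q4} {k : List Q4 → Bool} (h : frcQ l k = true) :
    ∃ l', (∀ D, l'.map (Q4.val D) = l.map (Q4.val D)) ∧ k l' = true := by
  induction l generalizing k with
  | nil => exact ⟨[], fun _ => rfl, h⟩
  | cons x l ih =>
    obtain ⟨y, hy, h⟩ := Q4.frc_spec (x := x) (k := fun y => frcQ l fun ys => k (y :: ys)) h
    obtain ⟨l', hl, h⟩ := ih h
    exact ⟨y :: l', fun D => by simp only [List.map_cons, hy, hl], h⟩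

theorem frcR_spec {l : List R4} {k : List R4 → Bool} (h : frcR l k = true) :
    ∃ l', (∀ D, l'.map (R4.val D) = l.map (R4.val D)) ∧ k l' = true := by
  induction l generalizing k with
  | nil => exact ⟨[], fun _ => rfl, h⟩
  | cons x l ih =>
    obtain ⟨y, hy, h⟩ := R4.frc_spec (x := x) (k := fun y => frcR l fun ys => k (y :: ys)) h
    obtain ⟨l', hl, h⟩ := ih h
    exact ⟨y :: l', fun D => by simp only [List.map_cons, hy, hl], h⟩

theorem val_nth (l : List Q4) (i : ℕ) :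
    (nth Q4.zero l i).val D = (l.map (Q4.val D)).getD i 0 := by
  rw [nth_eq, ← Q4.val_zero (D := D), List.getD_map]

theorem dQ_inj (hD : D.Prime) {x y : ℕ} (hx : x < 18446744073709551616)
    (hy : y < 18446744073709551616) (h : (dQ x).val D = (dQ y).val D) : x = y := by
  have h1 := (R4.beq_iff _ _).1 (R4.beq_val hD (congrArg QuaternionAlgebra.re h))
  have h2 := (R4.beq_iff _ _).1 (R4.beq_val hD (congrArg QuaternionAlgebra.imI h))
  have h3 := (R4.beq_iff _ _).1 (R4.beq_val hD (congrArg QuaternionAlgebra.imJ h))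
  have h4 := (R4.beq_iff _ _).1 (R4.beq_val hD (congrArg QuaternionAlgebra.imK h))
  have e : ∀ z k, Nat.mod (Nat.shiftRight z k) (nat_lit 256) = z / 2 ^ k % 256 := fun z k => by
    rw [← Nat.shiftRight_eq_div_pow]; rfl
  simp only [dQ, dR, e, Nat.add_eq] at h1 h2 h3 h4
  norm_num at h1 h2 h3 h4
  omega

end Pool.Agent.P.MP_97ea17_al.Ck
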