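import Pool.Agent.P.MP_97ea17_al.Abs

/-! Operators attached to a pair of variables, and binary forms. -/

namespace Pool.Agent.P.MP_97ea17_al

open MvPolynomial
open scoped Matrix

/-- The symplectic form on `ℂ²`. -/
def om (l l' : Fin 2 → ℂ) : ℂ := l 0 * l' 1 - l 1 * l' 0

variable {σ : Type}

/-- Linear form in two variables. -/
noncomputable def ml (x y : σ) (l : Fin 2 → ℂ) : MvPolynomial σ ℂ := l 0 • X x + l 1 • X y

/-- Poisson bracket with a linear form in two variables. -/
noncomputable def dl (x y : σ) (l : Fin 2 → ℂ) :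
    Derivation ℂ (MvPolynomial σ ℂ) (MvPolynomial σ ℂ) := l 0 • pderiv y - l 1 • pderiv x

/-- Euler operator in two variables. -/
noncomputable def eu (x y : σ) : Derivation ℂ (MvPolynomial σ ℂ) (MvPolynomial σ ℂ) :=
  (X x : MvPolynomial σ ℂ) • pderiv x + (X y : MvPolynomial σ ℂ) • pderiv y

theorem dl_apply (x y : σ) (l : Fin 2 → ℂ) (f : MvPolynomial σ ℂ) :
    dl x y l f = l 0 • pderiv y f - l 1 • pderiv x f := rfl

theorem eu_apply (x y : σ) (f : MvPolynomial σ ℂ) :
    eu x y f = X x * pderiv x f + X y * pderiv y f := rfl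

theorem ml_add (x y : σ) (l l' : Fin 2 → ℂ) : ml x y (l + l') = ml x y l + ml x y l' := by
  simp only [ml, Pi.add_apply, add_smul]; abel

theorem ml_smul (x y : σ) (c : ℂ) (l : Fin 2 → ℂ) : ml x y (c • l) = c • ml x y l := by
  simp only [ml, Pi.smul_apply, smul_eq_mul, smul_add, smul_smul]

theorem dl_add (x y : σ) (l l' : Fin 2 → ℂ) (f : MvPolynomial σ ℂ) :
    dl x y (l + l') f = dl x y l f + dl x y l' f := by
  simp only [dl_apply, Pi.add_apply, add_smul]; abel

theorem dl_smul (x y : σ) (c : ℂ) (l : Fin 2 → ℂ) (f : MvPolynomial σ ℂ) :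
    dl x y (c • l) f = c • dl x y l f := by
  simp only [dl_apply, Pi.smul_apply, smul_eq_mul, smul_sub, smul_smul]

theorem pderiv_comm' (i j : σ) (f : MvPolynomial σ ℂ) :
    pderiv i (pderiv j f) = pderiv j (pderiv i f) := by
  classical
  have : ⁅(pderiv i : Derivation ℂ (MvPolynomial σ ℂ) _),
      (pderiv j : Derivation ℂ (MvPolynomial σ ℂ) _)⁆ = 0 := by
    refine derivation_ext fun k => ?_
    simp only [Derivation.commutator_apply, pderiv_X, Pi.single_apply]
    split_ifs <;> simp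
  have h := congrArg (fun D : Derivation ℂ (MvPolynomial σ ℂ) _ => D f) this
  simpa [Derivation.commutator_apply, sub_eq_zero] using h

theorem dl_comm (x y x' y' : σ) (l l' : Fin 2 → ℂ) (f : MvPolynomial σ ℂ) :
    dl x y l (dl x' y' l' f) = dl x' y' l' (dl x y l f) := by
  simp only [dl_apply, map_sub, Derivation.map_smul, smul_sub, smul_smul,
    pderiv_comm' y y', pderiv_comm' y x', pderiv_comm' x y', pderiv_comm' x x']
  module

theorem dl_mul_ml {x y : σ} (h : x ≠ y) (l l' : Fin 2 → ℂ) (f : MvPolynomial σ ℂ) :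
    dl x y l (ml x y l' * f) = ml x y l' * dl x y l f + om l l' • f := by
  rw [Derivation.leibniz]
  simp [dl_apply, ml, pderiv_X_of_ne h, pderiv_X_of_ne h.symm, om, smul_eq_C_mul]
  ring

theorem dl_mul_ml' {x y x' y' : σ} (h1 : x' ≠ x) (h2 : x' ≠ y) (h3 : y' ≠ x) (h4 : y' ≠ y)
    (l l' : Fin 2 → ℂ) (f : MvPolynomial σ ℂ) :
    dl x y l (ml x' y' l' * f) = ml x' y' l' * dl x y l f := by
  rw [Derivation.leibniz]
  simp [dl_apply, ml, pderiv_X_of_ne h1, pderiv_X_of_ne h2, pderiv_X_of_ne h3, pderiv_X_of_ne h4]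

theorem ml_dl_key (x y : σ) (l l' : Fin 2 → ℂ) (f : MvPolynomial σ ℂ) :
    ml x y l * dl x y l' f = ml x y l' * dl x y l f - om l l' • eu x y f := by
  simp only [ml, dl_apply, eu_apply, om, smul_eq_C_mul, map_sub, map_mul]
  ring

theorem eu_mul_ml {x y : σ} (h : x ≠ y) (l : Fin 2 → ℂ) (f : MvPolynomial σ ℂ) :
    eu x y (ml x y l * f) = ml x y l * eu x y f + ml x y l * f := by
  rw [Derivation.leibniz]
  simp [eu_apply, ml, pderiv_X_of_ne h, pderiv_X_of_ne h.symm, smul_eq_C_mul]
  ring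

theorem eu_mul_ml' {x y x' y' : σ} (h1 : x' ≠ x) (h2 : x' ≠ y) (h3 : y' ≠ x) (h4 : y' ≠ y)
    (l : Fin 2 → ℂ) (f : MvPolynomial σ ℂ) :
    eu x y (ml x' y' l * f) = ml x' y' l * eu x y f := by
  rw [Derivation.leibniz]
  simp [eu_apply, ml, pderiv_X_of_ne h1, pderiv_X_of_ne h2, pderiv_X_of_ne h3, pderiv_X_of_ne h4]

theorem eu_dl {x y : σ} (h : x ≠ y) (l : Fin 2 → ℂ) (f : MvPolynomial σ ℂ) :
    eu x y (dl x y l f) = dl x y l (eu x y f) - dl x y l f := by
  simp [eu_apply, dl_apply, pderiv_X_of_ne h, pderiv_X_of_ne h.symm, smul_eq_C_mul,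
    pderiv_comm' x y]
  ring

theorem eu_dl' {x y x' y' : σ} (h1 : x ≠ x') (h2 : x ≠ y') (h3 : y ≠ x') (h4 : y ≠ y')
    (l : Fin 2 → ℂ) (f : MvPolynomial σ ℂ) :
    eu x y (dl x' y' l f) = dl x' y' l (eu x y f) := by
  simp [eu_apply, dl_apply, pderiv_X_of_ne h1, pderiv_X_of_ne h2, pderiv_X_of_ne h3,
    pderiv_X_of_ne h4, smul_eq_C_mul, pderiv_comm' x y', pderiv_comm' x x', pderiv_comm' y y',
    pderiv_comm' y x']
  ring

theorem coeff_X_pderiv (x : σ) (f : MvPolynomial σ ℂ) (s : σ →₀ ℕ) :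
    coeff s (X x * pderiv x f) = s x * coeff s f := by
  classical
  induction f using MvPolynomial.induction_on' with
  | monomial t a =>
    rw [X_mul_pderiv_monomial, coeff_smul, coeff_monomial]
    split_ifs with h
    · subst h; simp
    · simp
  | add p q hp hq => simp [mul_add, hp, hq]

theorem coeff_eu (x y : σ) (f : MvPolynomial σ ℂ) (s : σ →₀ ℕ) :
    coeff s (eu x y f) = (s x + s y) * coeff s f := by
  rw [eu_apply, coeff_add, coeff_X_pderiv, coeff_X_pderiv]; ring

theorem deg_of_eu {x y : σ} {f : MvPolynomial σ ℂ} {c : ℂ} (h : eu x y f = c • f)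
    {s : σ →₀ ℕ} (hs : s ∈ f.support) : (s x + s y : ℂ) = c := by
  have := congrArg (coeff s) h
  rw [coeff_eu, coeff_smul, smul_eq_mul] at this
  exact mul_right_cancel₀ (mem_support_iff.1 hs) this

theorem eu_pow {x y : σ} (h : x ≠ y) (a b : ℕ) {g : MvPolynomial σ ℂ} (hx : pderiv x g = 0)
    (hy : pderiv y g = 0) :
    eu x y (X x ^ a * X y ^ b * g) = ((a : ℂ) + b) • (X x ^ a * X y ^ b * g) := by
  induction a with
  | zero =>
    induction b with
    | zero => simp [eu_apply, hx, hy]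
    | succ b ih =>
      have := eu_mul_ml h ![0, 1] (X x ^ 0 * X y ^ b * g)
      rw [ih] at this
      simp only [ml, Matrix.cons_val_zero, Matrix.cons_val_one, zero_smul, one_smul,
        zero_add] at this
      convert this using 1
      · congr 1; ring
      · simp only [smul_eq_C_mul]; push_cast; simp only [map_add, map_one]; ring
  | succ a ih =>
    have := eu_mul_ml h ![1, 0] (X x ^ a * X y ^ b * g)
    rw [ih] at this
    simp only [ml, Matrix.cons_val_zero, Matrix.cons_val_one, zero_smul, one_smul,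
      add_zero] at this
    convert this using 1
    · congr 1; ring
    · simp only [smul_eq_C_mul]; push_cast; simp only [map_add, map_one]; ring

theorem pderiv_mono_y {x y : σ} (h : x ≠ y) (a b : ℕ) {g : MvPolynomial σ ℂ}
    (hy : pderiv y g = 0) :
    pderiv y (X x ^ a * X y ^ (b + 1) * g) = ((b : ℂ) + 1) • (X x ^ a * X y ^ b * g) := by
  simp [pderiv_X_of_ne h, hy, smul_eq_C_mul]
  ring

theorem conn {x y : σ} (h : x ≠ y) (N : Submodule ℂ (MvPolynomial σ ℂ)) (e : ℕ)
    {g : MvPolynomial σ ℂ} (hx : pderiv x g = 0) (hy : pderiv y g = 0)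
    (hE : ∀ a b, a + b = e → X x ^ a * X y ^ b * g ∈ N →
      X x * pderiv y (X x ^ a * X y ^ b * g) ∈ N ∧ X y * pderiv x (X x ^ a * X y ^ b * g) ∈ N)
    {a b : ℕ} (hab : a + b = e) (h0 : X x ^ a * X y ^ b * g ∈ N) :
    ∀ a' b', a' + b' = e → X x ^ a' * X y ^ b' * g ∈ N := by
  have h1 : X x ^ e * X y ^ 0 * g ∈ N := by
    induction b generalizing a with
    | zero => rwa [← hab]
    | succ b ih =>
      refine ih (a := a + 1) (by omega) ?_
      have := (hE _ _ hab h0).1
      rw [pderiv_mono_y h a b hy, mul_smul_comm,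
        Submodule.smul_mem_iff _ (Nat.cast_add_one_ne_zero b)] at this
      convert this using 1
      ring
  intro a' b'
  induction b' generalizing a' with
  | zero => intro h2; rwa [show a' = e by omega]
  | succ b' ih =>
    intro h2
    have := (hE _ _ (show a' + 1 + b' = e by omega) (ih _ (by omega))).2
    rw [mul_comm (X x ^ _), pderiv_mono_y h.symm b' a' hx, mul_smul_comm,
      Submodule.smul_mem_iff _ (Nat.cast_add_one_ne_zero a')] at this
    convert this using 1
    ring

theorem exists_monomial {ι : Type} (N : Submodule ℂ (MvPolynomial σ ℂ))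
    (D : ι → MvPolynomial σ ℂ → MvPolynomial σ ℂ) (lam : ι → (σ →₀ ℕ) → ℂ)
    (hD : ∀ j f s, coeff s (D j f) = lam j s * coeff s f) (hN : ∀ j, ∀ f ∈ N, D j f ∈ N)
    (k : ℕ) : ∀ f ∈ N, f ≠ 0 → f.support.card ≤ k →
      (∀ s ∈ f.support, ∀ t ∈ f.support, (∀ j, lam j s = lam j t) → s = t) →
      ∃ s ∈ f.support, monomial s (1 : ℂ) ∈ N := by
  classical
  induction k with
  | zero => intro f _ h0 hk; simp_all
  | succ k ih =>
    intro f hf h0 hk hsep
    obtain ⟨s, hs⟩ := support_nonempty.2 h0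
    by_cases h1 : ∀ t ∈ f.support, t = s
    · refine ⟨s, hs, ?_⟩
      have h2 : f = coeff s f • monomial s 1 := by
        conv_lhs => rw [f.as_sum, Finset.sum_eq_single_of_mem s hs fun t ht hts =>
          absurd (h1 t ht) hts]
        simp [smul_monomial]
      rw [h2] at hf
      exact (Submodule.smul_mem_iff _ (mem_support_iff.1 hs)).1 hf
    · push Not at h1
      obtain ⟨t, ht, hts⟩ := h1
      obtain ⟨j, hj⟩ : ∃ j, lam j s ≠ lam j t := by
        by_contra h
        push Not at h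
        exact hts (hsep s hs t ht h).symm
      have hc : ∀ u, coeff u (D j f - lam j t • f) = (lam j u - lam j t) * coeff u f := by
        intro u; rw [coeff_sub, hD, coeff_smul, smul_eq_mul]; ring
      have hsub : (D j f - lam j t • f).support ⊆ f.support.erase t := by
        intro u hu
        rw [mem_support_iff, hc] at hu
        rw [Finset.mem_erase, mem_support_iff]
        exact ⟨fun h => hu (by simp [h]), right_ne_zero_of_mul hu⟩
      have hsub' := hsub.trans (Finset.erase_subset _ _)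
      obtain ⟨u, hu, hu'⟩ := ih _ (sub_mem (hN j f hf) (N.smul_mem (lam j t) hf))
        (fun h => by
          have := hc s
          rw [h, coeff_zero] at this
          exact mul_ne_zero (sub_ne_zero.2 hj) (mem_support_iff.1 hs) this.symm)
        (by
          have := Finset.card_le_card hsub
          rw [Finset.card_erase_of_mem ht] at this
          omega)
        fun a ha b hb => hsep a (hsub' ha) b (hsub' hb)
      exact ⟨u, hsub' hu, hu'⟩

theorem EF_comm (x y : σ) (f : MvPolynomial σ ℂ) :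
    X x * pderiv y (X y * pderiv x f) - X y * pderiv x (X x * pderiv y f) =
      X x * pderiv x f - X y * pderiv y f := by
  simp [pderiv_comm' x y]
  ring

theorem finrank_span_single {κ ι : Type} [Fintype ι] [DecidableEq κ] (k : ι → κ)
    (s : ι → σ →₀ ℕ) (hinj : ∀ i j, k i = k j → s i = s j → i = j) :
    Module.finrank ℂ (Submodule.span ℂ (Set.range fun i =>
      (Pi.single (k i) (monomial (s i) (1 : ℂ)) : κ → MvPolynomial σ ℂ))) = Fintype.card ι := by
  classical
  refine finrank_span_eq_card (Fintype.linearIndependent_iff.2 fun g hg i => ?_)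
  have := congrArg (coeff (s i)) (congrFun hg (k i))
  rw [Finset.sum_apply, coeff_sum, Finset.sum_eq_single i] at this
  · simpa using this
  · intro j _ hj
    simp only [Pi.smul_apply, Pi.single_apply, coeff_smul]
    split_ifs with h1
    · rw [coeff_monomial, if_neg fun h2 => hj (hinj j i h1.symm h2), smul_zero]
    · simp
  · simp

theorem der_sub {τ : Type} (φ : MvPolynomial σ ℂ →ₐ[ℂ] MvPolynomial τ ℂ)
    (D : Derivation ℂ (MvPolynomial σ ℂ) (MvPolynomial σ ℂ))
    (D' : Derivation ℂ (MvPolynomial τ ℂ) (MvPolynomial τ ℂ))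
    (h : ∀ i, D' (φ (X i)) = φ (D (X i))) (f : MvPolynomial σ ℂ) : D' (φ f) = φ (D f) := by
  induction f using MvPolynomial.induction_on with
  | C a => simp [← algebraMap_eq]
  | add p q hp hq => simp [hp, hq]
  | mul_X p i hp => simp [hp, h]

/-! ### Binary forms -/

/-- Polynomials in two variables. -/
abbrev P2 := MvPolynomial (Fin 2) ℂ

theorem ml_eq_lin (l : Fin 2 → ℂ) : ml (0 : Fin 2) 1 l = lin l := by
  simp [ml, lin_apply]

/-- The linear form vanishing at `y`. -/
noncomputable def ell (y : Fin 2 → ℂ) : P2 := lin ![-y 1, y 0]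

theorem eval_ell (y x : Fin 2 → ℂ) : eval x (ell y) = om y x := by
  simp [ell, eval_lin, om, dotProduct]; ring

theorem om_self (y : Fin 2 → ℂ) : om y y = 0 := by simp [om, mul_comm]

theorem om_mulVec (M : Matrix (Fin 2) (Fin 2) ℂ) (x y : Fin 2 → ℂ) :
    om (M *ᵥ x) (M *ᵥ y) = M.det * om x y := by
  simp [om, Matrix.mulVec, dotProduct, Matrix.det_fin_two]; ring

theorem exists_om_ne {y : Fin 2 → ℂ} (hy : y ≠ 0) : ∃ x, om y x = 1 := by
  by_cases h : y 0 = 0
  · have : y 1 ≠ 0 := fun h1 => hy (by ext i; fin_cases i <;> simp [h, h1])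
    exact ⟨![-(y 1)⁻¹, 0], by simp [om, this]⟩
  · exact ⟨![0, (y 0)⁻¹], by simp [om, h]⟩

theorem ell_ne_zero {y : Fin 2 → ℂ} (hy : y ≠ 0) : ell y ≠ 0 := by
  obtain ⟨x, hx⟩ := exists_om_ne hy
  intro h
  rw [← eval_ell, h] at hx
  simp at hx

theorem ell_prime {y : Fin 2 → ℂ} (hy : y ≠ 0) : Prime (ell y) := by
  refine (irreducible_of_totalDegree_eq_one ((lin_hom _).totalDegree (ell_ne_zero hy))
    fun c hc => ?_).prime
  obtain ⟨s, hs⟩ := support_nonempty.2 (ell_ne_zero hy)
  refine isUnit_iff_ne_zero.2 ?_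
  rintro rfl
  exact mem_support_iff.1 hs (zero_dvd_iff.1 (hc s))

theorem hom_of_eu {f : P2} {e : ℕ} (h : eu 0 1 f = (e : ℂ) • f) : f.IsHomogeneous e := by
  intro s hs
  have := deg_of_eu h (mem_support_iff.2 hs)
  rw [Finsupp.weight_apply, Finsupp.sum_fintype _ _ (by simp)]
  simp only [Fin.sum_univ_two, Pi.one_apply, smul_eq_mul, mul_one]
  exact_mod_cast this

theorem eu_of_hom {f : P2} {e : ℕ} (h : f.IsHomogeneous e) : eu 0 1 f = (e : ℂ) • f := by
  rw [Nat.cast_smul_eq_nsmul, ← h.sum_X_mul_pderiv, Fin.sum_univ_two, eu_apply]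

theorem exists_hom {f : P2} {c : ℂ} (h : eu 0 1 f = c • f) (h0 : f ≠ 0) :
    ∃ e : ℕ, c = e ∧ f.IsHomogeneous e := by
  obtain ⟨s, hs⟩ := support_nonempty.2 h0
  have h1 : c = (s 0 + s 1 : ℕ) := by rw [← deg_of_eu h hs]; simp
  exact ⟨_, h1, hom_of_eu (h1 ▸ h)⟩

theorem eu_of_mul {p f : P2} {c : ℂ} {d : ℕ} (hp : p.IsHomogeneous d) (h0 : p ≠ 0)
    (h : eu 0 1 (p * f) = c • (p * f)) : eu 0 1 f = (c - d) • f := by
  rw [Derivation.leibniz, eu_of_hom hp] at h
  refine mul_left_cancel₀ h0 ?_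
  simp only [smul_eq_mul, smul_eq_C_mul, map_sub] at h ⊢
  linear_combination h

theorem ell_dvd {y : Fin 2 → ℂ} (hy : y ≠ 0) {f : P2} {c : ℂ} (h : eu 0 1 f = c • f)
    (h0 : eval y f = 0) : ell y ∣ f := by
  by_cases hf : f = 0
  · simp [hf]
  obtain ⟨e, -, he⟩ := exists_hom h hf
  obtain ⟨b, hb⟩ := exists_om_ne hy
  set M : Matrix (Fin 2) (Fin 2) ℂ := Matrix.of fun i j => y i * ![b 1, -b 0] j with hM
  have h1 : ∀ x, M *ᵥ x = om x b • y := by
    intro x; ext i; simp [hM, Matrix.mulVec, dotProduct, om]; ring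
  have h2 : sub M f = 0 := by
    apply MvPolynomial.funext
    intro x
    rw [eval_sub', h1, eval_smul_hom he, h0]
    simp
  have h3 : ∀ i, (X i : P2) - sub M (X i) = ell y * C (b i) := by
    intro i
    apply MvPolynomial.funext
    intro x
    rw [map_sub, eval_sub', h1, map_mul, eval_ell]
    simp only [om] at hb
    fin_cases i <;> simp [om]
    · linear_combination (-x 0) * hb
    · linear_combination (-x 1) * hb
  have h4 : ∀ p : P2, ell y ∣ p - sub M p := by
    intro p
    induction p using MvPolynomial.induction_on with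
    | C a => simp [sub]
    | add p q hp hq => convert dvd_add hp hq using 1; rw [map_add]; ring
    | mul_X p i hp =>
      convert dvd_add (hp.mul_right (X i)) (Dvd.intro _ (h3 i).symm |>.mul_left (sub M p)) using 1
      rw [map_mul]; ring
  simpa [h2] using h4 f

theorem ell_eq_of_om {y z : Fin 2 → ℂ} (hy : y ≠ 0) (h : om y z = 0) :
    ∃ c : ℂ, z = c • y ∧ ell z = C c * ell y := by
  obtain ⟨b, hb⟩ := exists_om_ne hy
  have h1 : z = om z b • y := by
    simp only [om] at hb h ⊢
    ext i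
    fin_cases i <;> simp
    · linear_combination (-z 0) * hb + (b 0) * h
    · linear_combination (-z 1) * hb + (b 1) * h
  refine ⟨om z b, h1, ?_⟩
  generalize om z b = c at h1
  subst h1
  apply MvPolynomial.funext
  intro x
  simp [eval_ell, om]; ring

theorem prod_ell_dvd {ι : Type} (y : ι → Fin 2 → ℂ) (s : Finset ι) (hy : ∀ i ∈ s, y i ≠ 0) :
    ∀ f : P2, (∀ i ∈ s, ell (y i) ^ (s.filter fun j => om (y i) (y j) = 0).card ∣ f) →
      ∏ i ∈ s, ell (y i) ∣ f := by
  classical
  induction s using Finset.induction_on with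
  | empty => simp
  | insert a s ha ih =>
    intro f hf
    have ha0 := hy a (Finset.mem_insert_self _ _)
    obtain ⟨g, rfl⟩ : ell (y a) ∣ f := by
      refine (dvd_pow_self _ (Finset.card_ne_zero.2 ⟨a, ?_⟩)).trans
        (hf a (Finset.mem_insert_self _ _))
      simp [om_self]
    rw [Finset.prod_insert ha]
    refine mul_dvd_mul_left _ (ih (fun i hi => hy i (Finset.mem_insert_of_mem hi)) g
      fun i hi => ?_)
    have hi0 := hy i (Finset.mem_insert_of_mem hi)
    have h1 := hf i (Finset.mem_insert_of_mem hi)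
    rw [Finset.filter_insert] at h1
    split_ifs at h1 with h2
    · obtain ⟨c, hc1, hc⟩ := ell_eq_of_om hi0 h2
      have hc0 : c ≠ 0 := by rintro rfl; exact ha0 (by simpa using hc1)
      rw [Finset.card_insert_of_notMem (by simp [ha]), pow_succ', hc, mul_assoc,
        (isUnit_iff_ne_zero.2 hc0 |>.map C).dvd_mul_left] at h1
      exact (mul_dvd_mul_iff_left (ell_ne_zero hi0)).1 h1
    · refine (ell_prime hi0).pow_dvd_of_dvd_mul_left _ (fun h3 => h2 ?_) h1
      obtain ⟨q, hq⟩ := h3
      have := congrArg (eval (y i)) hq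
      rw [map_mul, eval_ell, eval_ell, om_self, zero_mul] at this
      simp only [om] at this ⊢
      linear_combination -this

theorem sub_dl (M : Matrix (Fin 2) (Fin 2) ℂ) (hM : M.det = 1) (l : Fin 2 → ℂ) (f : P2) :
    dl 0 1 (l ᵥ* M) (sub M f) = sub M (dl 0 1 l f) := by
  refine der_sub _ _ _ (fun i => ?_) f
  rw [Matrix.det_fin_two] at hM
  rw [sub_X, ← ml_eq_lin, ← mul_one (ml _ _ _), dl_mul_ml (by decide)]
  have hC := congrArg (C : ℂ → P2) hM
  simp only [map_sub, map_mul, map_one] at hC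
  fin_cases i <;> simp [dl_apply, om, Matrix.vecMul, dotProduct, smul_eq_C_mul, sub]
  · linear_combination (-C (l 1)) * hC
  · linear_combination (C (l 0)) * hC

theorem sub_eu (M : Matrix (Fin 2) (Fin 2) ℂ) (f : P2) :
    eu 0 1 (sub M f) = sub M (eu 0 1 f) := by
  refine der_sub _ _ _ (fun i => ?_) f
  rw [eu_of_hom (sub_hom M (isHomogeneous_X ℂ i)), eu_of_hom (isHomogeneous_X ℂ i), map_smul]

end Pool.Agent.P.MP_97ea17_al
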