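import Pool.Agent.P.MP_97ea17_al.Abs

/-! An almost commutative module generated by its unique semi-invariant line bounds the
dimension of the zero-fiber ring from below. -/

namespace Pool.Agent.P.MP_97ea17_al

open MvPolynomial
open scoped Matrix

variable {σ : Type}

theorem hom_mono_ind {d : ℕ} {P : MvPolynomial σ ℂ → Prop} (h0 : P 0)
    (ha : ∀ p q, P p → P q → P (p + q))
    (hm : ∀ (s : σ →₀ ℕ) (a : ℂ), s.degree = d → P (monomial s a))
    {p : MvPolynomial σ ℂ} (hp : p.IsHomogeneous d) : P p := by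
  rw [p.as_sum]
  refine Finset.sum_induction _ P ha h0 fun s hs => hm s _ ?_
  by_contra h
  exact mem_support_iff.1 hs (hp.coeff_eq_zero h)

theorem hom_ind {P : ℕ → MvPolynomial σ ℂ → Prop} (h0 : ∀ d, P d 0)
    (ha : ∀ d p q, P d p → P d q → P d (p + q)) (hC : ∀ a, P 0 (C a))
    (hX : ∀ d i q, q.IsHomogeneous d → P d q → P (d + 1) (X i * q))
    (d : ℕ) : ∀ p : MvPolynomial σ ℂ, p.IsHomogeneous d → P d p := by
  classical
  induction d with
  | zero =>
    intro p hp
    refine hom_mono_ind (h0 0) (ha 0) (fun s a hs => ?_) hp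
    rw [Finsupp.degree_eq_zero_iff] at hs
    subst hs
    exact hC a
  | succ d ih =>
    intro p hp
    refine hom_mono_ind (h0 _) (ha _) (fun s a hs => ?_) hp
    have : s ≠ 0 := by rintro rfl; simp at hs
    obtain ⟨i, hi⟩ := Finsupp.ne_iff.1 this
    obtain ⟨t, rfl⟩ : ∃ t, s = Finsupp.single i 1 + t :=
      ⟨s - Finsupp.single i 1, by
        rw [add_tsub_cancel_of_le]
        rw [Finsupp.single_le_iff]
        simp at hi
        omega⟩
    have ht : t.degree = d := by
      rw [map_add, Finsupp.degree_single] at hs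
      omega
    have : monomial (Finsupp.single i 1 + t) a = X i * monomial t a := by
      rw [X, monomial_mul, one_mul]
    rw [this]
    exact hX d i _ (isHomogeneous_monomial a ht) (ih _ (isHomogeneous_monomial a ht))

variable [Fintype σ] [DecidableEq σ] {G : Type} [Group G]
variable {L : Type} [AddCommGroup L] [Module ℂ L]

/-- Filtration by word length. -/
noncomputable def fil (Xh : (σ → ℂ) →ₗ[ℂ] Module.End ℂ L) (v : L) : ℕ → Submodule ℂ L
  | 0 => ⊥
  | d + 1 => Submodule.span ℂ {v} ⊔ ⨆ l, (fil Xh v d).map (Xh l)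

section
variable {Xh : (σ → ℂ) →ₗ[ℂ] Module.End ℂ L} {v : L}

omit [Fintype σ] [DecidableEq σ] in
theorem fil_X {d : ℕ} {y : L} (hy : y ∈ fil Xh v d) (l : σ → ℂ) : Xh l y ∈ fil Xh v (d + 1) :=
  Submodule.mem_sup_right (Submodule.mem_iSup_of_mem l (Submodule.mem_map_of_mem hy))

omit [Fintype σ] [DecidableEq σ] in
theorem fil_v (d : ℕ) : v ∈ fil Xh v (d + 1) :=
  Submodule.mem_sup_left (Submodule.mem_span_singleton_self v)

omit [Fintype σ] [DecidableEq σ] in
theorem fil_le {d : ℕ} {N : Submodule ℂ L} (hv : v ∈ N)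
    (hX : ∀ l y, y ∈ fil Xh v d → Xh l y ∈ N) : fil Xh v (d + 1) ≤ N := by
  refine sup_le ((Submodule.span_singleton_le_iff_mem _ _).2 hv) (iSup_le fun l => ?_)
  rintro _ ⟨y, hy, rfl⟩
  exact hX l y hy

omit [Fintype σ] [DecidableEq σ] in
theorem fil_mono : Monotone (fil Xh v) := by
  refine monotone_nat_of_le_succ fun d => ?_
  induction d with
  | zero => exact bot_le
  | succ d ih => exact fil_le (fil_v _) fun l y hy => fil_X (ih hy) l

/-- Ordered words. -/
noncomputable def wrd (Xh : (σ → ℂ) →ₗ[ℂ] Module.End ℂ L) (v : L) (l : List σ) : L :=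
  l.foldr (fun i y => Xh (Pi.single i 1) y) v

omit [Fintype σ] in
theorem wrd_mem (l : List σ) : wrd Xh v l ∈ fil Xh v (l.length + 1) := by
  induction l with
  | nil => exact fil_v 0
  | cons i l ih => exact fil_X ih _

/-- Symbol map. -/
noncomputable def symb (Xh : (σ → ℂ) →ₗ[ℂ] Module.End ℂ L) (v : L) :
    MvPolynomial σ ℂ →ₗ[ℂ] L :=
  (basisMonomials σ ℂ).constr ℂ fun s => wrd Xh v s.toMultiset.toList

omit [Fintype σ] in
theorem symb_monomial (s : σ →₀ ℕ) (a : ℂ) :
    symb Xh v (monomial s a) = a • wrd Xh v s.toMultiset.toList := by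
  have : monomial s a = a • basisMonomials σ ℂ s := by
    simp [smul_monomial]
  rw [this, map_smul, symb, Module.Basis.constr_basis]

omit [Fintype σ] [DecidableEq σ] in
theorem length_toList (s : σ →₀ ℕ) : s.toMultiset.toList.length = s.degree := by
  rw [Multiset.length_toList, Finsupp.card_toMultiset]
  rfl

omit [Fintype σ] in
theorem symb_mem {d : ℕ} {p : MvPolynomial σ ℂ} (hp : p.IsHomogeneous d) :
    symb Xh v p ∈ fil Xh v (d + 1) := by
  refine hom_mono_ind (P := fun p => symb Xh v p ∈ fil Xh v (d + 1)) (by simp)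
    (fun p q h1 h2 => by rw [map_add]; exact add_mem h1 h2) (fun s a hs => ?_) hp
  rw [symb_monomial, ← hs, ← length_toList]
  exact Submodule.smul_mem _ _ (wrd_mem _)

variable (hc : ∀ d l l' y, y ∈ fil Xh v d → Xh l (Xh l' y) - Xh l' (Xh l y) ∈ fil Xh v d)
include hc

omit [Fintype σ] in
theorem wrd_perm {l₁ l₂ : List σ} (h : l₁.Perm l₂) :
    wrd Xh v l₁ - wrd Xh v l₂ ∈ fil Xh v l₁.length := by
  induction h with
  | nil => simp
  | cons i _ ih =>
    have := fil_X ih (Pi.single i 1)
    rw [map_sub] at this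
    exact this
  | swap a b l => exact fil_mono (by simp) (hc _ _ _ _ (wrd_mem l))
  | trans h1 _ ih1 ih2 =>
    rw [← h1.length_eq] at ih2
    simpa using add_mem ih1 ih2

theorem symb_lin_mul {d : ℕ} {p : MvPolynomial σ ℂ} (hp : p.IsHomogeneous d) (l : σ → ℂ) :
    symb Xh v (lin l * p) - Xh l (symb Xh v p) ∈ fil Xh v (d + 1) := by
  have h1 : ∀ i, symb Xh v (X i * p) - Xh (Pi.single i 1) (symb Xh v p) ∈ fil Xh v (d + 1) := by
    intro i
    refine hom_mono_ind (P := fun p => symb Xh v (X i * p) - Xh (Pi.single i 1) (symb Xh v p) ∈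
      fil Xh v (d + 1)) (by simp) (fun p q h1 h2 => ?_) (fun s a hs => ?_) hp
    · have := add_mem h1 h2
      simp only [mul_add, map_add]
      convert this using 1
      abel
    · rw [X, monomial_mul, one_mul, symb_monomial, symb_monomial, map_smul, ← smul_sub]
      refine Submodule.smul_mem _ _ ?_
      have hp : (Finsupp.single i 1 + s).toMultiset.toList.Perm (i :: s.toMultiset.toList) := by
        rw [← Multiset.coe_eq_coe, Multiset.coe_toList, ← Multiset.cons_coe, Multiset.coe_toList,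
          Finsupp.toMultiset_add, Finsupp.toMultiset_single]
        simp
      have := wrd_perm hc hp
      rw [hp.length_eq, List.length_cons, length_toList, hs] at this
      exact this
  have h2 : l = ∑ i, l i • Pi.single i (1 : ℂ) := by
    ext j; simp [Finset.sum_apply, Pi.single_apply]
  rw [lin_apply]
  conv => enter [2, 2, 1, 2]; rw [h2]
  rw [Finset.sum_mul, map_sum, map_sum, LinearMap.sum_apply, ← Finset.sum_sub_distrib]
  refine Submodule.sum_mem _ fun i _ => ?_
  rw [smul_mul_assoc, map_smul, map_smul, LinearMap.smul_apply, ← smul_sub]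
  exact Submodule.smul_mem _ _ (h1 i)

theorem fil_succ_le (k : ℕ) :
    fil Xh v (k + 1) ≤ (homogeneousSubmodule σ ℂ k).map (symb Xh v) ⊔ fil Xh v k := by
  induction k with
  | zero =>
    refine fil_le (Submodule.mem_sup_left ⟨1, isHomogeneous_one σ ℂ, ?_⟩) fun l y hy => ?_
    · have := symb_monomial (Xh := Xh) (v := v) (0 : σ →₀ ℕ) 1
      simpa [wrd] using this
    · have : y = 0 := hy
      simp [this]
  | succ k ih =>
    refine fil_le (Submodule.mem_sup_right (fil_v _)) fun l y hy => ?_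
    obtain ⟨_, ⟨p, hp, rfl⟩, z, hz, rfl⟩ := Submodule.mem_sup.1 (ih hy)
    have h1 := symb_lin_mul hc hp l
    have h2 : Xh l (symb Xh v p + z) = symb Xh v (lin l * p) +
        (Xh l z - (symb Xh v (lin l * p) - Xh l (symb Xh v p))) := by
      rw [map_add]; abel
    rw [h2]
    refine add_mem (Submodule.mem_sup_left ⟨_, ?_, rfl⟩)
      (Submodule.mem_sup_right (sub_mem (fil_X hz l) h1))
    have := (lin_hom l).mul hp
    rwa [add_comm] at this

theorem finrank_fil (K : ℕ) : Module.Finite ℂ (fil Xh v K) ∧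
    Module.finrank ℂ (fil Xh v K) + ∑ k ∈ Finset.range K, Module.finrank ℂ
      ↥(homogeneousSubmodule σ ℂ k ⊓ (fil Xh v k).comap (symb Xh v)) ≤
      ∑ k ∈ Finset.range K, Module.finrank ℂ (homogeneousSubmodule σ ℂ k) := by
  induction K with
  | zero =>
    have h0 : fil Xh v 0 = ⊥ := rfl
    rw [h0]
    exact ⟨inferInstance, by simp [finrank_bot]⟩
  | succ K ih =>
    obtain ⟨hf, ih⟩ := ih
    set S := homogeneousSubmodule σ ℂ K
    set U := S ⊓ (fil Xh v K).comap (symb Xh v)
    obtain ⟨D, hD⟩ := Submodule.exists_isCompl (U.comap S.subtype)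
    have h1 := Submodule.finrank_add_eq_of_isCompl hD
    have h2 : Module.finrank ℂ (U.comap S.subtype) = Module.finrank ℂ U :=
      (Submodule.comapSubtypeEquivOfLe inf_le_left).finrank_eq
    have h3 : fil Xh v (K + 1) ≤ D.map (symb Xh v ∘ₗ S.subtype) ⊔ fil Xh v K := by
      refine (fil_succ_le hc K).trans (sup_le ?_ le_sup_right)
      rintro _ ⟨p, hp, rfl⟩
      have : (⟨p, hp⟩ : S) ∈ U.comap S.subtype ⊔ D := by rw [hD.sup_eq_top]; trivial
      obtain ⟨a, ha, b, hb, hab⟩ := Submodule.mem_sup.1 this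
      have hp' : p = b + a := by rw [add_comm]; exact (congrArg Subtype.val hab).symm
      rw [hp', map_add]
      exact add_mem (Submodule.mem_sup_left ⟨b, hb, rfl⟩) (Submodule.mem_sup_right ha.2)
    have h4 := Submodule.finrank_add_le_finrank_add_finrank (D.map (symb Xh v ∘ₗ S.subtype))
      (fil Xh v K)
    have h5 := Submodule.finrank_map_le (symb Xh v ∘ₗ S.subtype) D
    have h6 := Submodule.finrank_mono h3
    refine ⟨Submodule.finiteDimensional_of_le h3, ?_⟩
    rw [Finset.sum_range_succ, Finset.sum_range_succ]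
    change _ + (_ + Module.finrank ℂ U) ≤ _ + Module.finrank ℂ S
    omega

end

theorem filt_bound [Finite G] (c : G →* Matrix σ σ ℂ) (L0 : Submodule ℂ L) {ι : Type}
    (γ : ι → G) (hγ : Function.Surjective γ)
    (Xh : (σ → ℂ) →ₗ[ℂ] Module.End ℂ L) (T : ι → Module.End ℂ L) (ψ : ι → ℂ) (v : L)
    (hv : v ∈ L0) (hX : ∀ l y, y ∈ L0 → Xh l y ∈ L0)
    (hT : ∀ g l y, y ∈ L0 → T g (Xh l y) = Xh (l ᵥ* c (γ g)) (T g y))
    (hTv : ∀ g, T g v = ψ g • v) (hψ : ∀ g, ψ g ≠ 0)
    (hcomm : ∀ l l' y, y ∈ L0 →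
      Xh l (Xh l' y) - Xh l' (Xh l y) ∈ Submodule.span ℂ (insert y (Set.range fun g => T g y)))
    (huniq : ∀ y ∈ L0, (∀ g, T g y = ψ g • y) → y ∈ Submodule.span ℂ {v})
    (M : Submodule ℂ L) [Module.Finite ℂ M]
    (hgen : ∀ N : Submodule ℂ L, N ≤ L0 → v ∈ N → (∀ l y, y ∈ N → Xh l y ∈ N) →
      (∀ g y, y ∈ N → T g y ∈ N) → M ≤ N) :
    Module.finrank ℂ M ≤ Module.finrank ℂ (MvPolynomial σ ℂ ⧸ invI c) := by
  classical
  have := Fintype.ofFinite G
  have hL : ∀ d, fil Xh v d ≤ L0 := by
    intro d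
    induction d with
    | zero => exact bot_le
    | succ d ih => exact fil_le hv fun l y hy => hX l y (ih hy)
  have hTF : ∀ g d y, y ∈ fil Xh v d → T g y ∈ fil Xh v d := by
    intro g d
    induction d with
    | zero => intro y hy; have : y = 0 := hy; simp [this]
    | succ d ih =>
      refine fil_le (N := (fil Xh v (d + 1)).comap (T g)) ?_ fun l y hy => ?_
      · rw [Submodule.mem_comap, hTv]; exact Submodule.smul_mem _ _ (fil_v _)
      · rw [Submodule.mem_comap, hT g l y (hL d hy)]; exact fil_X (ih y hy) _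
  have hc : ∀ d l l' y, y ∈ fil Xh v d → Xh l (Xh l' y) - Xh l' (Xh l y) ∈ fil Xh v d := by
    intro d l l' y hy
    refine Submodule.span_le.2 ?_ (hcomm l l' y (hL d hy))
    rintro _ (rfl | ⟨g, rfl⟩)
    · exact hy
    · exact hTF g d y hy
  set T' : ι → Module.End ℂ L := fun g => (ψ g)⁻¹ • T g with hT'
  have hT'v : ∀ g, T' g v = v := fun g => by simp [hT', hTv, smul_smul, hψ]
  have hT'X : ∀ g l y, y ∈ L0 → T' g (Xh l y) = Xh (l ᵥ* c (γ g)) (T' g y) := fun g l y hy => by
    simp [hT', hT g l y hy]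
  have hT'F : ∀ g d y, y ∈ fil Xh v d → T' g y ∈ fil Xh v d := fun g d y hy =>
    Submodule.smul_mem _ _ (hTF g d y hy)
  have hmul : ∀ g h k, γ k = γ g * γ h → ∀ d y, y ∈ fil Xh v d → T' h (T' g y) = T' k y := by
    intro g h k hk d
    induction d with
    | zero => intro y hy; have : y = 0 := hy; simp [this]
    | succ d ih =>
      intro y hy
      have := fil_le (N := LinearMap.ker (T' h ∘ₗ T' g - T' k)) (by simp [hT'v])
        (fun l y hy => by
          simp [hT'X _ l y (hL d hy), hT'X h _ _ (hL d (hT'F g d y hy)), ih y hy, hk]) hy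
      simpa [sub_eq_zero] using this
  have hK2 : ∀ g d (p : MvPolynomial σ ℂ), p.IsHomogeneous d →
      T' g (symb Xh v p) - symb Xh v (sub (c (γ g)) p) ∈ fil Xh v d := by
    intro g
    refine hom_ind (by simp) (fun d p q h1 h2 => ?_) (fun a => ?_) (fun d i q hq ih => ?_)
    · have := add_mem h1 h2
      simp only [map_add]
      convert this using 1
      abel
    · have h1 : sub (c (γ g)) (C a) = C a := by simp [sub]
      have h2 : symb Xh v (C a) = a • v := symb_monomial (0 : σ →₀ ℕ) a |>.trans (by simp [wrd])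
      rw [h1, h2, map_smul, hT'v, sub_self]
      exact zero_mem _
    · have h1 := hT'F g _ _ (symb_lin_mul hc hq (Pi.single i 1))
      have h2 := symb_lin_mul hc (sub_hom (c (γ g)) hq) (Pi.single i 1 ᵥ* c (γ g))
      have h3 := fil_X ih (Pi.single i 1 ᵥ* c (γ g))
      rw [map_sub, hT'X g _ _ (hL _ (symb_mem hq)), lin_single] at h1
      rw [← sub_lin, lin_single, ← map_mul] at h2
      rw [map_sub] at h3
      convert sub_mem (add_mem h1 h3) h2 using 1
      abel
  have hK3 : ∀ d (p : MvPolynomial σ ℂ), 0 < d → p.IsHomogeneous d → (∀ g, sub (c g) p = p) →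
      symb Xh v p ∈ fil Xh v d := by
    intro d p hd hp hinv
    choose s hsγ using hγ
    have hs := symb_mem (Xh := Xh) (v := v) hp
    have h1 : ∑ g, T' (s g) (symb Xh v p) ∈ Submodule.span ℂ {v} := by
      refine huniq _ (L0.sum_mem fun g _ => hL _ (hT'F _ _ _ hs)) fun h => ?_
      have : T' h (∑ g, T' (s g) (symb Xh v p)) = ∑ g, T' (s g) (symb Xh v p) := by
        rw [map_sum]
        exact Fintype.sum_equiv (Equiv.mulRight (γ h)) _ _ fun g =>
          hmul _ h _ (by simp [hsγ]) _ _ hs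
      generalize ∑ g, T' (s g) (symb Xh v p) = z at this
      conv_rhs => rw [← this]
      simp [hT', smul_smul, hψ]
    have h2 : ∑ g, T' (s g) (symb Xh v p) ∈ fil Xh v d :=
      fil_mono (show 0 + 1 ≤ d from hd) ((Submodule.span_singleton_le_iff_mem _ _).2 (fil_v 0) h1)
    have h3 : ∑ g, (T' (s g) (symb Xh v p) - symb Xh v p) ∈ fil Xh v d :=
      Submodule.sum_mem _ fun g _ => by simpa [hinv] using hK2 (s g) d p hp
    have h4 := sub_mem h2 h3
    rw [Finset.sum_sub_distrib, sub_sub_cancel, Finset.sum_const, ← Nat.cast_smul_eq_nsmul ℂ] at h4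
    exact (Submodule.smul_mem_iff _ (by simp)).1 h4
  have hK4 : ∀ d (p : MvPolynomial σ ℂ), 0 < d → p.IsHomogeneous d → (∀ g, sub (c g) p = p) →
      ∀ e (q : MvPolynomial σ ℂ), q.IsHomogeneous e → (q * p).IsHomogeneous (d + e) ∧
        symb Xh v (q * p) ∈ fil Xh v (d + e) := by
    intro d p hd hp hinv
    refine hom_ind (fun e => ⟨by simpa using isHomogeneous_zero _ _ _, by simp⟩)
      (fun e q r h1 h2 => ?_) (fun a => ?_) (fun e i q hq ih => ?_)
    · rw [add_mul, map_add]; exact ⟨h1.1.add h2.1, add_mem h1.2 h2.2⟩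
    · refine ⟨hp.C_mul a, ?_⟩
      rw [C_mul', map_smul]
      exact Submodule.smul_mem _ _ (hK3 d p hd hp hinv)
    · have h1 := symb_lin_mul hc ih.1 (Pi.single i 1)
      rw [lin_single] at h1
      rw [mul_assoc, ← add_assoc]
      refine ⟨?_, by simpa using add_mem h1 (fil_X ih.2 (Pi.single i 1))⟩
      have := (isHomogeneous_X ℂ i).mul ih.1
      rwa [add_comm] at this
  have hbd : ∀ K, Module.finrank ℂ (fil Xh v K) ≤
      Module.finrank ℂ (MvPolynomial σ ℂ ⧸ invI c) := by
    intro K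
    have h1 := (finrank_fil hc K).2
    have : ∀ k, Module.Finite ℂ ↥(homogeneousSubmodule σ ℂ k ⊓
        (fil Xh v k).comap (symb Xh v)) := fun k => Submodule.finiteDimensional_of_le inf_le_left
    have h2 := sum_le_finrank c K
      (fun k => homogeneousSubmodule σ ℂ k ⊓ (fil Xh v k).comap (symb Xh v))
      (fun k _ f hf => homComp_mem_invI c k _ (fun d e p q hd hde hp hinv hq => by
        subst hde; exact hK4 d p hd hp hinv e q hq) hf)
    omega
  have hdir : Directed (· ≤ ·) (fil Xh v) := fil_mono.directed_le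
  have hM : M ≤ ⨆ K, fil Xh v K := by
    refine hgen _ (iSup_le hL) (Submodule.mem_iSup_of_mem 1 (fil_v 0)) (fun l y hy => ?_)
      (fun g y hy => ?_)
    · obtain ⟨K, hK⟩ := (Submodule.mem_iSup_of_directed _ hdir).1 hy
      exact Submodule.mem_iSup_of_mem _ (fil_X hK l)
    · obtain ⟨K, hK⟩ := (Submodule.mem_iSup_of_directed _ hdir).1 hy
      exact Submodule.mem_iSup_of_mem _ (hTF g K y hK)
  obtain ⟨s, hs⟩ := Module.Finite.iff_fg.1 (inferInstance : Module.Finite ℂ M)
  have h1 : ∀ x ∈ s, ∃ K, x ∈ fil Xh v K := fun x hx =>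
    (Submodule.mem_iSup_of_directed _ hdir).1 (hM (hs ▸ Submodule.subset_span hx))
  choose! k hk using h1
  have h2 : M ≤ fil Xh v (s.sup k) := by
    rw [← hs, Submodule.span_le]
    exact fun x hx => fil_mono (Finset.le_sup hx) (hk x hx)
  have := (finrank_fil hc (s.sup k)).1
  exact (Submodule.finrank_mono h2).trans (hbd _)

end Pool.Agent.P.MP_97ea17_al
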