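import Pool.Agent.P.MP_97ea17_al.Bin

/-! The Jacobian semi-invariant of a finite subgroup of `GL₂(ℂ)`. -/

namespace Pool.Agent.P.MP_97ea17_al

open MvPolynomial
open scoped Matrix

theorem decomp_om {y b : Fin 2 → ℂ} (h : om y b = 1) (x : Fin 2 → ℂ) :
    x = om x b • y + om y x • b := by
  simp only [om] at h ⊢
  ext i
  fin_cases i <;> simp
  · linear_combination (-x 0) * h
  · linear_combination (-x 1) * h

theorem eq_one_of_fix {M : Matrix (Fin 2) (Fin 2) ℂ} {y z : Fin 2 → ℂ} (hy : M *ᵥ y = y)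
    (hz : M *ᵥ z = z) (h : om y z ≠ 0) : M = 1 := by
  have h1 : om y ((om y z)⁻¹ • z) = 1 := by
    rw [← inv_mul_cancel₀ h]; simp [om]; ring
  refine Matrix.ext_of_mulVec_single fun i => ?_
  rw [decomp_om h1 (Pi.single i 1)]
  simp [Matrix.mulVec_add, Matrix.mulVec_smul, hy, hz]

theorem eq_one_of_det {M : Matrix (Fin 2) (Fin 2) ℂ} {y : Fin 2 → ℂ} (h0 : y ≠ 0)
    (hy : M *ᵥ y = y) (hdet : M.det = 1) {k : ℕ} (hk : 0 < k) (hM : M ^ k = 1) : M = 1 := by
  obtain ⟨b, hb⟩ := exists_om_ne h0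
  have h1 := om_mulVec M y b
  rw [hy, hdet, hb, one_mul] at h1
  have h2 := decomp_om hb (M *ᵥ b)
  rw [h1, one_smul] at h2
  set t := om (M *ᵥ b) b
  have h3 : ∀ j : ℕ, (M ^ j) *ᵥ b = ((j : ℂ) * t) • y + b := by
    intro j
    induction j with
    | zero => simp
    | succ j ih =>
      rw [pow_succ', ← Matrix.mulVec_mulVec, ih, Matrix.mulVec_add, Matrix.mulVec_smul, hy, h2]
      push_cast
      module
  have h4 := h3 k
  rw [hM, Matrix.one_mulVec, right_eq_add, smul_eq_zero, mul_eq_zero] at h4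
  have h5 : t = 0 := (h4.resolve_right h0).resolve_left (by exact_mod_cast hk.ne')
  rw [h5, zero_smul, zero_add] at h2
  exact eq_one_of_fix hy h2 (by simp [hb])

theorem sub_ell {M : Matrix (Fin 2) (Fin 2) ℂ} (y : Fin 2 → ℂ) :
    sub M (ell (M *ᵥ y)) = C M.det * ell y := by
  apply MvPolynomial.funext
  intro x
  rw [eval_sub', eval_ell, om_mulVec, map_mul, eval_ell, eval_C]

theorem eig_of_factor {M : Matrix (Fin 2) (Fin 2) ℂ} {y : Fin 2 → ℂ} (h0 : y ≠ 0)
    (hy : M *ᵥ y = y) {k : ℕ} {f : P2} (hf : eval y f ≠ 0) {χ : ℂ}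
    (h : sub M (ell y ^ k * f) = χ • (ell y ^ k * f)) : M.det ^ k = χ := by
  have h1 := sub_ell (M := M) y
  rw [hy] at h1
  rw [map_mul, map_pow, h1, mul_pow, smul_eq_C_mul, mul_comm (C _ ^ k), mul_assoc,
    mul_left_comm (C χ)] at h
  have h2 := congrArg (eval y) (mul_left_cancel₀ (pow_ne_zero k (ell_ne_zero h0)) h)
  rw [map_mul, map_mul, eval_sub', hy, map_pow, eval_C, eval_C] at h2
  exact mul_right_cancel₀ hf h2

theorem jac {H : Type} [Group H] [Finite H] (a : H →* Matrix (Fin 2) (Fin 2) ℂ)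
    (ha : Function.Injective a) :
    ∃ J : P2, J ≠ 0 ∧ J.IsHomogeneous (Nat.card {h // h ≠ 1 ∧ ∃ y ≠ 0, a h *ᵥ y = y}) ∧
      (∀ h, ∃ χ : ℂ, χ ≠ 0 ∧ sub (a h) J = χ • J) ∧
      ∀ (f : P2) (c : ℂ), eu 0 1 f = c • f →
        (∀ h (χ : ℂ), sub (a h) J = χ • J → sub (a h) f = χ • f) → J ∣ f := by
  classical
  have := Fintype.ofFinite H
  set R := Finset.univ.filter fun h : H => h ≠ 1 ∧ ∃ y ≠ 0, a h *ᵥ y = y with hR
  have hex : ∀ h ∈ R, ∃ y ≠ 0, a h *ᵥ y = y := fun h hh => (Finset.mem_filter.1 hh).2.2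
  choose! y hy0 hy using hex
  have hpar : ∀ h ∈ R, ∀ z, a h *ᵥ z = z → om (y h) z = 0 := fun h hh z hz => by
    by_contra h1
    exact (Finset.mem_filter.1 hh).2.1 (ha ((eq_one_of_fix (hy h hh) hz h1).trans (map_one a).symm))
  have hdet : ∀ g, (a g).det ≠ 0 := fun g h => by
    have := congrArg Matrix.det (map_mul a g g⁻¹)
    simp [h] at this
  have hinv : ∀ g z, a g *ᵥ (a g⁻¹ *ᵥ z) = z := fun g z => by
    rw [Matrix.mulVec_mulVec, ← map_mul]; simp
  have hsemi : ∀ g, ∃ χ : ℂ, χ ≠ 0 ∧ sub (a g) (∏ h ∈ R, ell (y h)) = χ • ∏ h ∈ R, ell (y h) := by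
    intro g
    have h1 : ∀ h ∈ R, g⁻¹ * h * g ∈ R ∧
        ∃ c : ℂ, c ≠ 0 ∧ sub (a g) (ell (y h)) = C c * ell (y (g⁻¹ * h * g)) := by
      intro h hh
      have h2 : a (g⁻¹ * h * g) *ᵥ (a g⁻¹ *ᵥ y h) = a g⁻¹ *ᵥ y h := by
        rw [map_mul, map_mul, ← Matrix.mulVec_mulVec, ← Matrix.mulVec_mulVec, hinv, hy h hh]
      have h3 : a g⁻¹ *ᵥ y h ≠ 0 := fun e => hy0 h hh (by rw [← hinv g (y h), e]; simp)
      have h4 : g⁻¹ * h * g ∈ R := Finset.mem_filter.2 ⟨Finset.mem_univ _, fun e =>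
        (Finset.mem_filter.1 hh).2.1 (by simpa [mul_assoc] using congrArg (g * · * g⁻¹) e), _, h3,
        h2⟩
      obtain ⟨c, hc1, hc2⟩ := ell_eq_of_om (hy0 _ h4) (hpar _ h4 _ h2)
      refine ⟨h4, (a g).det * c, mul_ne_zero (hdet g) (by rintro rfl; simp_all), ?_⟩
      rw [← hinv g (y h), sub_ell, hc2, map_mul]
      ring
    choose! c hc0 hc using fun h hh => (h1 h hh).2
    refine ⟨∏ h ∈ R, c h, Finset.prod_ne_zero_iff.2 hc0, ?_⟩
    rw [map_prod, Finset.prod_congr rfl hc, Finset.prod_mul_distrib, smul_eq_C_mul, map_prod]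
    congr 1
    refine Finset.prod_bij (fun h _ => g⁻¹ * h * g) (fun h hh => (h1 h hh).1)
      (fun _ _ _ _ e => by simpa using e) ?_ fun _ _ => rfl
    intro h hh
    exact Finset.surj_on_of_inj_on_of_card_le (fun h _ => g⁻¹ * h * g) (fun h hh => (h1 h hh).1)
      (fun _ _ _ _ e => by simpa using e) le_rfl h hh |>.imp fun _ => .imp fun _ => Eq.symm
  refine ⟨∏ h ∈ R, ell (y h), Finset.prod_ne_zero_iff.2 fun h hh => ell_ne_zero (hy0 h hh), ?_,
    hsemi, fun f c hf hχ => ?_⟩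
  · have := IsHomogeneous.prod R (fun h => ell (y h)) (fun _ => 1) fun h _ => lin_hom _
    rw [Nat.card_eq_fintype_card, Fintype.card_subtype]
    simp only [Finset.sum_const, smul_eq_mul, mul_one] at this
    convert this
  by_cases hf0 : f = 0
  · simp [hf0]
  refine prod_ell_dvd y R hy0 f fun h hh => ?_
  set z := y h
  have hz : z ≠ 0 := hy0 h hh
  obtain ⟨k, f1, hf1, rfl⟩ := WfDvdMonoid.max_power_factor hf0 (ell_prime hz).irreducible
  refine (pow_dvd_pow _ ?_).mul_right _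
  have hf2 : eval z f1 ≠ 0 := fun e => hf1 (ell_dvd hz
    (eu_of_mul ((lin_hom _).pow k) (pow_ne_zero k (ell_ne_zero hz)) hf) e)
  set S := R.filter fun j => om z (y j) = 0 with hS
  let Cz : Subgroup H :=
    { carrier := {g | a g *ᵥ z = z}
      mul_mem' := fun {g g'} h1 h2 => by
        change a (g * g') *ᵥ z = z
        rw [map_mul, ← Matrix.mulVec_mulVec, h2, h1]
      one_mem' := by change a 1 *ᵥ z = z; rw [map_one, Matrix.one_mulVec]
      inv_mem' := fun {g} h1 => by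
        change a g⁻¹ *ᵥ z = z
        conv_lhs => rw [← show a g *ᵥ z = z from h1]
        simpa using hinv g⁻¹ z }
  have hcard : Fintype.card Cz = S.card + 1 := by
    rw [← Finset.card_insert_of_notMem (a := 1) (by simp [hS, hR]), Fintype.card_subtype]
    congr 1
    ext g
    simp only [Finset.mem_filter, Finset.mem_univ, true_and, Finset.mem_insert, hS]
    constructor
    · intro hg
      by_cases h1 : g = 1
      · exact Or.inl h1
      · have h2 : g ∈ R := Finset.mem_filter.2 ⟨Finset.mem_univ _, h1, z, hz, hg⟩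
        refine Or.inr ⟨h2, ?_⟩
        have := hpar g h2 z hg
        simp only [om] at this ⊢
        linear_combination -this
    · rintro (rfl | ⟨h1, h2⟩)
      · exact Cz.one_mem
      · obtain ⟨c, hc, -⟩ := ell_eq_of_om hz h2
        have h3 := hy g h1
        have hc0 : c ≠ 0 := by rintro rfl; exact hy0 g h1 (by simpa using hc)
        rw [hc, Matrix.mulVec_smul] at h3
        exact smul_right_injective _ hc0 h3
  obtain ⟨J1, hJ1, hJ2⟩ : ∃ J1, eval z J1 ≠ 0 ∧ ∏ h ∈ R, ell (y h) = ell z ^ S.card * J1 := by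
    have h1 : ∀ j ∈ S, ∃ c : ℂ, c ≠ 0 ∧ ell (y j) = C c * ell z := fun j hj => by
      obtain ⟨h1, h2⟩ := Finset.mem_filter.1 hj
      obtain ⟨c, hc, hc'⟩ := ell_eq_of_om hz h2
      exact ⟨c, by rintro rfl; exact hy0 j h1 (by simpa using hc), hc'⟩
    choose! c hc0 hc using h1
    refine ⟨(∏ j ∈ S, C (c j)) * ∏ j ∈ R.filter fun j => ¬ om z (y j) = 0, ell (y j), ?_, ?_⟩
    · rw [map_mul, map_prod, map_prod]
      refine mul_ne_zero (Finset.prod_ne_zero_iff.2 fun j hj => by simpa using hc0 j hj)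
        (Finset.prod_ne_zero_iff.2 fun j hj e => (Finset.mem_filter.1 hj).2 ?_)
      rw [eval_ell] at e
      simp only [om] at e ⊢
      linear_combination -e
    · rw [← Finset.prod_filter_mul_prod_filter_not R fun j => om z (y j) = 0, ← hS,
        Finset.prod_congr rfl hc, Finset.prod_mul_distrib, Finset.prod_const]
      ring
  have hpow : ∀ g : Cz, (a g).det ^ (k + 1) = 1 := by
    intro g
    obtain ⟨χ, -, h1⟩ := hsemi g
    have h2 := eig_of_factor hz g.2 hf2 (hχ g χ h1)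
    rw [hJ2] at h1
    rw [pow_succ, h2, ← eig_of_factor hz g.2 hJ1 h1, ← pow_succ, ← hcard, ← Matrix.det_pow,
      ← map_pow, ← Subgroup.coe_pow, pow_card_eq_one]
    simp
  have hle : Fintype.card Cz ≤ k + 1 := by
    refine le_trans ?_ ((Multiset.toFinset_card_le _).trans
      (Polynomial.card_nthRoots (k + 1) (1 : ℂ)))
    refine Finset.card_le_card_of_injOn (fun g : Cz => (a g).det) (fun g _ => ?_) fun g _ g' _ e => ?_
    · simpa [Polynomial.mem_nthRoots] using hpow g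
    · have h1 : (a (g * g'⁻¹ : Cz)).det = 1 := by
        have h2 := congrArg Matrix.det (map_mul a (g' : H) (g' : H)⁻¹)
        simp only [mul_inv_cancel, map_one, Matrix.det_one, Matrix.det_mul] at h2
        rw [Subgroup.coe_mul, map_mul, Matrix.det_mul, show (a g).det = (a g').det from e, h2]
        rfl
      have h2 := eq_one_of_det hz (g * g'⁻¹).2 h1 (Fintype.card_pos (α := H))
        (by rw [← map_pow, pow_card_eq_one, map_one])
      have h3 := ha (h2.trans (map_one a).symm)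
      exact mul_inv_eq_one.1 (Subtype.ext h3)
  omega

end Pool.Agent.P.MP_97ea17_al
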