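import Pool.Agent.P.MP_97ea17_al.Molien
import Pool.Agent.P.MP_97ea17_al.Jac

/-! A finite subgroup of `SL₂(ℂ)` of even order `M` has one invariant of degree `M - 2`. -/

namespace Pool.Agent.P.MP_97ea17_al

open MvPolynomial
open scoped Matrix

theorem trace_pow_two (M : Matrix (Fin 2) (Fin 2) ℂ) {α β : ℂ} (h1 : M.trace = α + β)
    (h2 : M.det = α * β) (k : ℕ) : (M ^ k).trace = α ^ k + β ^ k := by
  have h3 : M * M = M.trace • M - M.det • (1 : Matrix (Fin 2) (Fin 2) ℂ) := by
    ext i j
    fin_cases i <;> fin_cases j <;>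
      simp [Matrix.mul_apply, Matrix.trace_fin_two, Matrix.det_fin_two] <;> ring
  induction k using Nat.twoStepInduction with
  | zero => simp; norm_num
  | one => simpa using h1
  | more k ih1 ih2 =>
    rw [pow_succ, pow_succ, mul_assoc, h3, mul_sub, Matrix.mul_smul, Matrix.mul_smul, mul_one,
      ← pow_succ, Matrix.trace_sub, Matrix.trace_smul, Matrix.trace_smul, ih1, ih2, h1, h2]
    simp only [smul_eq_mul]
    ring

theorem trH_two (M : Matrix (Fin 2) (Fin 2) ℂ) {α β : ℂ} (h1 : M.trace = α + β)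
    (h2 : M.det = α * β) (d : ℕ) : (α - β) * trH M d = α ^ (d + 1) - β ^ (d + 1) := by
  induction d using Nat.strong_induction_on with
  | _ d ih =>
    rcases Nat.eq_zero_or_pos d with rfl | hd
    · simp [trH_zero]
    refine mul_left_cancel₀ (show (d : ℂ) ≠ 0 by exact_mod_cast hd.ne') ?_
    rw [mul_left_comm, trH_newton, Finset.mul_sum]
    have h3 : ∀ k ∈ Finset.range d, (α - β) * ((M ^ (k + 1)).trace * trH M (d - 1 - k)) =
        (α ^ (d + 1) - β ^ (d + 1)) + (β ^ (k + 1) * α ^ (d - 1 - k + 1) -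
          α ^ (k + 1) * β ^ (d - 1 - k + 1)) := by
      intro k hk
      have hk' := Finset.mem_range.1 hk
      rw [mul_left_comm, ih _ (by omega), trace_pow_two M h1 h2,
        show d + 1 = (k + 1) + (d - 1 - k + 1) by omega]
      ring
    rw [Finset.sum_congr rfl h3, Finset.sum_add_distrib, Finset.sum_const, Finset.sum_sub_distrib,
      ← Finset.sum_range_reflect (fun k => α ^ (k + 1) * β ^ (d - 1 - k + 1))]
    rw [Finset.sum_congr rfl (g := fun k => α ^ (d - 1 - k + 1) * β ^ (d - 1 - (d - 1 - k) + 1))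
      fun k hk => by
        have hk' := Finset.mem_range.1 hk
        rw [show d - 1 - (d - 1 - k) = k by omega, mul_comm]]
    simp

theorem trH_id_two (d : ℕ) : trH (1 : Matrix (Fin 2) (Fin 2) ℂ) d = d + 1 := by
  induction d using Nat.strong_induction_on with
  | _ d ih =>
    rcases Nat.eq_zero_or_pos d with rfl | hd
    · simp [trH_zero]
    refine mul_left_cancel₀ (show (d : ℂ) ≠ 0 by exact_mod_cast hd.ne') ?_
    rw [trH_newton, Finset.sum_congr rfl (g := fun k => 2 * (((d - 1 - k : ℕ) : ℂ) + 1))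
      fun k hk => by
        have hk' := Finset.mem_range.1 hk
        rw [ih _ (by omega)]
        simp,
      Finset.sum_range_reflect (fun k => 2 * ((k : ℂ) + 1))]
    clear ih hd
    induction d with
    | zero => simp
    | succ d ih => rw [Finset.sum_range_succ, ih]; push_cast; ring

theorem trH_fin_order {M : Matrix (Fin 2) (Fin 2) ℂ} (hdet : M.det = 1) {k : ℕ}
    (hM : M ^ (k + 2) = 1) (h1 : M ≠ 1) (h2 : M ≠ -1) : trH M k = -1 := by
  obtain ⟨z, hz⟩ := IsAlgClosed.exists_pow_nat_eq (M.trace ^ 2 - 4) two_pos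
  have e1 : M.trace = (M.trace + z) / 2 + (M.trace - z) / 2 := by ring
  have e2 : M.det = (M.trace + z) / 2 * ((M.trace - z) / 2) := by
    rw [hdet]; linear_combination hz / 4
  generalize (M.trace + z) / 2 = α at e1 e2
  generalize (M.trace - z) / 2 = β at e1 e2
  have h3 := trace_pow_two M e1 e2 (k + 2)
  rw [hM, Matrix.trace_one, Fintype.card_fin] at h3
  have h4 : α * β = 1 := e2.symm.trans hdet
  have h5 : α ^ (k + 2) * β ^ (k + 2) = 1 := by rw [← mul_pow, h4, one_pow]
  have h6 : α ^ (k + 2) = 1 := by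
    have : (α ^ (k + 2) - 1) ^ 2 = 0 := by
      push_cast at h3
      linear_combination (-α ^ (k + 2)) * h3 - h5
    exact sub_eq_zero.1 (pow_eq_zero_iff two_ne_zero |>.1 this)
  have h7 : β ^ (k + 2) = 1 := by rwa [h6, one_mul] at h5
  have h8 : ∀ N : Matrix (Fin 2) (Fin 2) ℂ, N.det = 1 → N ^ (2 * (k + 2)) = 1 → N.trace = 2 →
      N = 1 := by
    intro N a1 a2 a3
    obtain ⟨y, hy0, hy⟩ := Matrix.exists_mulVec_eq_zero_iff.2 (show (N - 1).det = 0 by
      rw [Matrix.det_fin_two] at a1 ⊢
      rw [Matrix.trace_fin_two] at a3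
      simp
      linear_combination a1 - a3)
    rw [Matrix.sub_mulVec, Matrix.one_mulVec, sub_eq_zero] at hy
    exact eq_one_of_det hy0 hy a1 (by omega) a2
  have h9 : M ^ (2 * (k + 2)) = 1 := by rw [mul_comm, pow_mul, hM, one_pow]
  have h10 : α - β ≠ 0 := by
    intro h
    have : (α - 1) * (α + 1) = 0 := by linear_combination h4 + α * h
    rcases mul_eq_zero.1 this with h' | h'
    · exact h1 (h8 M hdet h9 (by linear_combination e1 + 2 * h' - h))
    · refine h2 (neg_eq_iff_eq_neg.1 (h8 (-M) (by simp [Matrix.det_neg, hdet])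
        (by rw [Even.neg_pow (by simp), h9]) ?_))
      rw [Matrix.trace_neg]
      linear_combination -e1 - 2 * h' + h
  refine mul_left_cancel₀ h10 ?_
  rw [trH_two M e1 e2]
  linear_combination (β ^ (k + 1) - α ^ (k + 1)) * h4 + β * h6 - α * h7

theorem klein {H : Type} [Group H] [Finite H] (a : H →* Matrix (Fin 2) (Fin 2) ℂ)
    (ha : Function.Injective a) (hdet : ∀ h, (a h).det = 1) (z : H) (hz : a z = -1) :
    ∃ k, Nat.card H = 2 * k + 2 ∧ Module.finrank ℂ (invH a (2 * k)) = 1 := by
  classical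
  have := Fintype.ofFinite H
  have hz1 : z ≠ 1 := by
    rintro rfl
    have := congrFun (congrFun ((map_one a).symm.trans hz) 0) 0
    norm_num at this
  have hz2 : orderOf z = 2 := orderOf_eq_prime (ha (by simp [hz])) hz1
  obtain ⟨k, hk⟩ : ∃ k, Fintype.card H = 2 * k + 2 := by
    obtain ⟨j, hj⟩ := hz2 ▸ orderOf_dvd_card (x := z)
    have := Fintype.card_pos (α := H)
    exact ⟨j - 1, by omega⟩
  refine ⟨k, by rw [Nat.card_eq_fintype_card, hk], ?_⟩
  have h1 := molien a (2 * k)
  have h2 : ∀ h, trH (a h) (2 * k) = -1 + ((if h = 1 then (2 * k + 2 : ℂ) else 0) +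
      if h = z then (2 * k + 2 : ℂ) else 0) := by
    intro h
    by_cases e1 : h = 1
    · rw [if_pos e1, if_neg (e1 ▸ hz1.symm), e1, map_one, trH_id_two]; push_cast; ring
    by_cases e2 : h = z
    · rw [if_neg e1, if_pos e2, e2, hz, ← neg_one_smul ℂ, trH_smul, trH_id_two,
        Even.neg_one_pow (by simp)]
      push_cast; ring
    · rw [if_neg e1, if_neg e2, trH_fin_order (hdet h) (by rw [← map_pow, ← hk]; simp)
        (fun e => e1 (ha (by simp [e]))) fun e => e2 (ha (by rw [e, hz]))]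
      simp
  simp only [h2, Finset.sum_add_distrib, Finset.sum_const, Finset.card_univ, hk,
    Finset.sum_ite_eq', Finset.mem_univ, if_true] at h1
  have h3 : ((2 * k + 2 : ℕ) : ℂ) ≠ 0 := by exact_mod_cast (show 2 * k + 2 ≠ 0 by omega)
  have h4 : (Module.finrank ℂ (invH a (2 * k)) : ℂ) = 1 := by
    refine mul_left_cancel₀ h3 ?_
    rw [h1]
    simp
    ring
  exact_mod_cast h4

end Pool.Agent.P.MP_97ea17_al
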