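import Pool.Agent.P.MP_97ea17_al.ModA
import Pool.Agent.P.MP_97ea17_al.Klein
import Pool.Agent.P.MP_97ea17_al.Filt

/-! The bound for monomial groups of rank two containing `diag(-1, 1)`, in abstract form. -/

namespace Pool.Agent.P.MP_97ea17_al

open MvPolynomial
open scoped Matrix

theorem dense_zero {σ : Type} {q f : MvPolynomial σ ℂ} (hq : q ≠ 0)
    (h : ∀ x, eval x q ≠ 0 → eval x f = 0) : f = 0 := by
  refine (mul_eq_zero.1 (MvPolynomial.funext fun x => ?_)).resolve_left hq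
  by_cases h1 : eval x q = 0
  · simp [h1]
  · simp [h x h1]

theorem exists_eval_ne {σ : Type} {q : MvPolynomial σ ℂ} (hq : q ≠ 0) : ∃ x, eval x q ≠ 0 := by
  by_contra h
  push Not at h
  exact hq (MvPolynomial.funext fun x => by simp [h x])

/-- A point with given blocks. -/
def pt (u u' : Fin 2 → ℂ) : Fin 2 × Fin 2 → ℂ := fun p => ![u, u'] p.1 p.2

theorem bl_pt0 (u u' : Fin 2 → ℂ) : bl 0 (pt u u') = u := rfl

theorem bl_pt1 (u u' : Fin 2 → ℂ) : bl 1 (pt u u') = u' := rfl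

theorem pt_bl (x : Fin 2 × Fin 2 → ℂ) : pt (bl 0 x) (bl 1 x) = x := by
  ext ⟨i, α⟩
  fin_cases i <;> rfl

theorem mon_pt (π : Equiv.Perm (Fin 2)) (a : Fin 2 → SL2) (x : Fin 2 × Fin 2 → ℂ) :
    mon π a *ᵥ x = pt ((a 0).1 *ᵥ bl (π 0) x) ((a 1).1 *ᵥ bl (π 1) x) := by
  rw [← pt_bl (mon π a *ᵥ x), mon_mulVec, mon_mulVec]

/-- The form `ω(u, l u')`. -/
noncomputable def phi (l : SL2) : P4 := X (0, 0) * mlb 1 (l.1 1) - X (0, 1) * mlb 1 (l.1 0)

theorem eval_phi (l : SL2) (x : Fin 2 × Fin 2 → ℂ) :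
    eval x (phi l) = om (bl 0 x) (l.1 *ᵥ bl 1 x) := by
  simp only [phi, map_sub, map_mul, eval_mlb, eval_X]
  rfl

theorem eub_phi (i : Fin 2) (l : SL2) : eub i (phi l) = (1 : ℂ) • phi l := by
  fin_cases i <;> simp [phi, ml, eu_apply, pderiv_X, smul_eq_C_mul] <;> ring

theorem phi_neg (l : SL2) : phi (-l) = -phi l := by
  apply MvPolynomial.funext
  intro x
  simp [eval_phi, om, Matrix.neg_mulVec]
  ring

theorem sl_inv (a : SL2) (x : Fin 2 → ℂ) : a.1 *ᵥ ((a⁻¹).1 *ᵥ x) = x := by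
  rw [Matrix.mulVec_mulVec, ← Matrix.SpecialLinearGroup.coe_mul]; simp

theorem om_sl (a : SL2) (x y : Fin 2 → ℂ) : om (a.1 *ᵥ x) y = om x ((a⁻¹).1 *ᵥ y) := by
  conv_lhs => rw [← sl_inv a y, om_mulVec]
  simp

theorem phi_ne (l : SL2) : phi l ≠ 0 := by
  intro h
  have := congrArg (eval (pt ![1, 0] ((l⁻¹).1 *ᵥ ![0, 1]))) h
  rw [eval_phi, bl_pt0, bl_pt1, sl_inv] at this
  simp [om] at this

/-- A binary form placed on a block. -/
noncomputable def onb (i : Fin 2) : P2 →ₐ[ℂ] P4 := rename fun α => (i, α)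

theorem eval_onb (i : Fin 2) (J : P2) (x : Fin 2 × Fin 2 → ℂ) :
    eval x (onb i J) = eval (bl i x) J := eval_rename ..

theorem onb_ne (i : Fin 2) {J : P2} (h : J ≠ 0) : onb i J ≠ 0 := fun e =>
  h (rename_injective _ (Prod.mk_right_injective i) (e.trans (map_zero _).symm))

theorem eub_onb (i j : Fin 2) {J : P2} {d : ℕ} (h : J.IsHomogeneous d) :
    eub i (onb j J) = (if i = j then (d : ℂ) else 0) • onb j J := by
  split_ifs with e
  · subst e
    rw [der_sub (onb i) (eu 0 1) (eub i), eu_of_hom h, map_smul]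
    intro α
    fin_cases α <;> simp [onb, eu_apply, pderiv_X]
  · rw [der_sub (onb j) 0 (eub i)]
    · simp
    · intro α
      simp [onb, eu_apply, pderiv_X, Ne.symm e]

theorem eub_mul {i : Fin 2} {f g : P4} {c c' : ℂ} (hf : eub i f = c • f) (hg : eub i g = c' • g) :
    eub i (f * g) = (c + c') • (f * g) := by
  rw [Derivation.leibniz, hf, hg]
  simp only [smul_eq_C_mul, smul_eq_mul, map_add]
  ring

theorem eub_prod (i : Fin 2) (S : Finset SL2) :
    eub i (∏ l ∈ S, phi l) = (S.card : ℂ) • ∏ l ∈ S, phi l := by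
  classical
  induction S using Finset.induction_on with
  | empty => simp
  | insert a s ha ih =>
    rw [Finset.prod_insert ha, eub_mul (eub_phi i a) ih, Finset.card_insert_of_notMem ha, add_comm]
    simp

/-- Restriction to a fixed second block. -/
noncomputable def res (u' : Fin 2 → ℂ) : P4 →ₐ[ℂ] P2 :=
  aeval fun p => if p.1 = 0 then X p.2 else C (u' p.2)

theorem eval_res (u u' : Fin 2 → ℂ) (f : P4) : eval u (res u' f) = eval (pt u u') f := by
  induction f using MvPolynomial.induction_on with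
  | C a => simp [res]
  | add p q hp hq => simp [hp, hq]
  | mul_X p i hp =>
    obtain ⟨i, α⟩ := i
    rw [map_mul, map_mul, map_mul, hp]
    fin_cases i <;> simp [res, pt]

theorem eu_res (u' : Fin 2 → ℂ) (f : P4) : eu 0 1 (res u' f) = res u' (eub 0 f) := by
  refine der_sub _ _ _ (fun ⟨i, α⟩ => ?_) f
  fin_cases i <;> fin_cases α <;> simp [res, eu_apply, pderiv_X]

/-- The form `ω(A u, B u)`. -/
noncomputable def omP (A B : SL2) : P2 := lin (A.1 0) * lin (B.1 1) - lin (A.1 1) * lin (B.1 0)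

theorem eval_omP (A B : SL2) (u : Fin 2 → ℂ) : eval u (omP A B) = om (A.1 *ᵥ u) (B.1 *ᵥ u) := by
  simp only [omP, map_sub, map_mul, eval_lin]
  rfl

theorem omP_ne {A B : SL2} (h1 : B ≠ A) (h2 : B ≠ -A) : omP A B ≠ 0 := by
  intro h
  have h3 : ∀ w, om w ((B * A⁻¹).1 *ᵥ w) = 0 := fun w => by
    have := congrArg (eval ((A⁻¹).1 *ᵥ w)) h
    rwa [eval_omP, sl_inv, Matrix.mulVec_mulVec, map_zero] at this
  have h4 := (B * A⁻¹).det_coe
  have h5 : B * A⁻¹ ≠ 1 := fun e => h1 (mul_inv_eq_one.1 e)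
  have h6 : B * A⁻¹ ≠ -1 := fun e => h2 (by rw [mul_inv_eq_iff_eq_mul.1 e]; simp)
  generalize B * A⁻¹ = N at h3 h4 h5 h6
  have a1 := h3 ![1, 0]
  have a2 := h3 ![0, 1]
  have a3 := h3 ![1, 1]
  simp [om, Matrix.mulVec, dotProduct] at a1 a2 a3
  rw [Matrix.det_fin_two] at h4
  have a4 : (N.1 0 0 - 1) * (N.1 0 0 + 1) = 0 := by
    linear_combination h4 - N.1 0 0 * a3 + N.1 0 0 * a1 + (N.1 1 0 - N.1 0 0) * a2
  rcases mul_eq_zero.1 a4 with e | e
  · refine h5 (Subtype.ext ?_)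
    ext i j
    fin_cases i <;> fin_cases j <;> simp [a1, a2]
    · linear_combination e
    · linear_combination e + a3 - a1 + a2
  · refine h6 (Subtype.ext ?_)
    ext i j
    fin_cases i <;> fin_cases j <;> simp [a1, a2]
    · linear_combination e
    · linear_combination e + a3 - a1 + a2

theorem exists_half (L : Finset SL2) (hL : ∀ l ∈ L, -l ∈ L) :
    ∃ S ⊆ L, (∀ l ∈ L, l ∈ S ∨ -l ∈ S) ∧ ∀ l ∈ S, -l ∉ S := by
  classical
  refine ⟨L.filter fun l => WellOrderingRel l (-l), Finset.filter_subset _ _, fun l hl => ?_,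
    fun l hl h => ?_⟩
  · rcases trichotomous_of WellOrderingRel l (-l) with h | h | h
    · exact Or.inl (Finset.mem_filter.2 ⟨hl, h⟩)
    · have h1 : l.1 = 0 := by
        have := congrArg Subtype.val h
        rwa [Matrix.SpecialLinearGroup.coe_neg, eq_neg_iff_add_eq_zero, ← two_smul ℂ,
          smul_eq_zero, or_iff_right two_ne_zero] at this
      have := l.det_coe
      simp [h1] at this
    · exact Or.inr (Finset.mem_filter.2 ⟨hL l hl, by rwa [neg_neg]⟩)
  · have h1 := (Finset.mem_filter.1 h).2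
    rw [neg_neg] at h1
    exact asymm_of WellOrderingRel (Finset.mem_filter.1 hl).2 h1

theorem prod_phi_semi {L S : Finset SL2} (h1 : S ⊆ L) (h2 : ∀ l ∈ L, l ∈ S ∨ -l ∈ S)
    (h3 : ∀ l ∈ S, -l ∉ S) (τ : SL2 → SL2) (hτ : Function.Injective τ)
    (hn : ∀ l, τ (-l) = -τ l) (hL : ∀ l ∈ L, τ l ∈ L) (φ : P4 →ₐ[ℂ] P4)
    (hφ : ∀ l, φ (phi l) = phi (τ l)) :
    ∃ χ : ℂ, χ ≠ 0 ∧ φ (∏ l ∈ S, phi l) = χ • ∏ l ∈ S, phi l := by
  classical
  set ρ : SL2 → SL2 := fun l => if τ l ∈ S then τ l else -τ l with hρ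
  have hm : ∀ l ∈ S, ρ l ∈ S := fun l hl => by
    simp only [hρ]
    split_ifs with h
    · exact h
    · exact (h2 _ (hL l (h1 hl))).resolve_left h
  have hi : ∀ a ∈ S, ∀ b ∈ S, ρ a = ρ b → a = b := by
    intro a ha b hb
    simp only [hρ]
    split_ifs with e1 e2 e2 <;> intro e
    · exact hτ e
    · exact absurd (hτ (e.trans (hn b).symm) ▸ ha) (h3 b hb)
    · exact absurd (hτ ((hn a).trans e) ▸ hb) (h3 a ha)
    · exact hτ (neg_injective e)
  refine ⟨∏ l ∈ S, if τ l ∈ S then 1 else -1, Finset.prod_ne_zero_iff.2 fun l _ => by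
    split_ifs <;> simp, ?_⟩
  rw [map_prod, smul_eq_C_mul, map_prod, ← Finset.prod_bij (fun l _ => ρ l) hm hi
    (fun b hb => (Finset.surj_on_of_inj_on_of_card_le (fun l _ => ρ l) hm
      (fun a b ha hb => hi a ha b hb) le_rfl b hb).imp fun _ => .imp fun _ => Eq.symm)
    (f := fun l => phi (ρ l)) (g := phi) (fun _ _ => rfl), ← Finset.prod_mul_distrib]
  refine Finset.prod_congr rfl fun l _ => ?_
  simp only [hφ, hρ]
  split_ifs <;> simp [phi_neg]

theorem perm_two (π : Equiv.Perm (Fin 2)) : π = 1 ∨ π = Equiv.swap 0 1 := by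
  revert π; decide

end Pool.Agent.P.MP_97ea17_al
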