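import Pool.Agent.P.MP_97ea17_al.CaseA

/-! The bound for monomial groups of rank two containing `diag(-1, 1)`. -/

namespace Pool.Agent.P.MP_97ea17_al

open MvPolynomial
open scoped Matrix

theorem sub_onb (π : Equiv.Perm (Fin 2)) (a : Fin 2 → SL2) (i : Fin 2) (J : P2) :
    sub (mon π a) (onb i J) = onb (π i) (sub (a i).1 J) := by
  apply MvPolynomial.funext
  intro x
  rw [eval_sub', eval_onb, eval_onb, eval_sub', mon_mulVec]

theorem sub_res (h : SL2) (u' : Fin 2 → ℂ) (f : P4) :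
    sub h.1 (res u' f) = res u' (sub (mon 1 (Pi.mulSingle 0 h)) f) := by
  apply MvPolynomial.funext
  intro x
  rw [eval_sub', eval_res, eval_res, eval_sub', mon_pt]
  simp [bl_pt0, bl_pt1]

theorem sub_neg_block {f : P4} {i : Fin 2} {d : ℕ} (h : eub i f = (d : ℂ) • f) :
    sub (mon 1 (Pi.mulSingle i (-1))) f = (-1 : ℂ) ^ d • f := by
  apply MvPolynomial.funext
  intro x
  rw [eval_sub', smul_eval, ← eval_scale h, mon_pt]
  congr 2
  ext ⟨j, α⟩
  fin_cases i <;> fin_cases j <;> simp [pt, bl_apply, Matrix.neg_mulVec]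

theorem semiA (D : Subgroup (Fin 2 → SL2)) (hsw : ∀ a ∈ D, a ∘ Equiv.swap 0 1 ∈ D)
    {L S : Finset SL2} (hL : ∀ l, l ∈ L ↔ ![l, l⁻¹] ∈ D) (hLn : ∀ l ∈ L, -l ∈ L)
    (h1 : S ⊆ L) (h2 : ∀ l ∈ L, l ∈ S ∨ -l ∈ S) (h3 : ∀ l ∈ S, -l ∉ S)
    (π : Equiv.Perm (Fin 2)) {a : Fin 2 → SL2} (ha : a ∈ D) :
    ∃ χ : ℂ, χ ≠ 0 ∧ sub (mon π a) (∏ l ∈ S, phi l) = χ • ∏ l ∈ S, phi l := by
  have h4 : ∀ l ∈ L, (a 0)⁻¹ * l * a 1 ∈ L := fun l hl => by
    have := D.mul_mem (D.mul_mem (D.inv_mem ha) ((hL l).1 hl)) (hsw a ha)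
    rw [hL]
    convert this using 1
    ext1 i
    fin_cases i <;> simp [mul_assoc]
  have h5 : ∀ l ∈ L, l⁻¹ ∈ L := fun l hl => by
    have := hsw _ ((hL l).1 hl)
    rw [hL]
    convert this using 1
    ext1 i
    fin_cases i <;> simp
  rcases perm_two π with rfl | rfl
  · refine prod_phi_semi h1 h2 h3 (fun l => (a 0)⁻¹ * l * a 1) (fun x y e => by simpa using e)
      (by simp) h4 _ fun l => MvPolynomial.funext fun x => ?_
    rw [eval_sub', eval_phi, eval_phi, mon_mulVec, mon_mulVec, om_sl]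
    simp only [Matrix.mulVec_mulVec, Matrix.SpecialLinearGroup.coe_mul, mul_assoc]
    rfl
  · refine prod_phi_semi h1 h2 h3 (fun l => -((a 0)⁻¹ * l * a 1)⁻¹)
      (fun x y e => by simpa using e) (by simp) (fun l hl => hLn _ (h5 _ (h4 l hl))) _
      fun l => MvPolynomial.funext fun x => ?_
    rw [eval_sub', eval_phi, eval_phi, mon_mulVec, mon_mulVec, om_sl,
      Matrix.SpecialLinearGroup.coe_neg, Matrix.neg_mulVec]
    have := om_sl ((a 0)⁻¹ * l * a 1) (bl 0 x) (bl 1 x)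
    simp only [Matrix.mulVec_mulVec, Matrix.SpecialLinearGroup.coe_mul, mul_assoc,
      Equiv.swap_apply_left, Equiv.swap_apply_right] at this ⊢
    simp only [om, Pi.neg_apply] at this ⊢
    linear_combination -this

theorem uniqA (D : Subgroup (Fin 2 → SL2)) {L S : Finset SL2} (hL : ∀ l ∈ L, ![l, l⁻¹] ∈ D)
    (h1 : S ⊆ L) (h3 : ∀ l ∈ S, -l ∉ S) {k : ℕ} {J : P2} (hJ0 : J ≠ 0)
    (hJi : ∀ h, Pi.mulSingle 0 h ∈ D → sub (h : SL2).1 J = J)
    (hJu : ∀ g : P2, g.IsHomogeneous k → (∀ h, Pi.mulSingle 0 h ∈ D → sub (h : SL2).1 g = g) →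
      ∃ c : ℂ, c • J = g)
    {v : P4} (hv : v = (∏ l ∈ S, phi l) * (onb 0 J * onb 1 J))
    (hs : ∀ π, ∀ a ∈ D, ∃ χ : ℂ, χ ≠ 0 ∧ sub (mon π a) v = χ • v) {f : P4}
    (hf : eub 0 f = ((S.card + k : ℕ) : ℂ) • f) (hv' : eub 0 v = ((S.card + k : ℕ) : ℂ) • v)
    (hfs : ∀ π, ∀ a ∈ D, ∀ χ : ℂ, sub (mon π a) v = χ • v → sub (mon π a) f = χ • f) :
    ∃ c : ℂ, c • v = f := by
  classical
  have hv0 : v ≠ 0 := hv ▸ mul_ne_zero (Finset.prod_ne_zero_iff.2 fun l _ => phi_ne l)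
    (mul_ne_zero (onb_ne _ hJ0) (onb_ne _ hJ0))
  set q : P2 := X 0 * J * ∏ l ∈ S, sub l.1 J * ∏ l' ∈ S.erase l, omP l l' with hq
  have hq0 : q ≠ 0 := by
    refine mul_ne_zero (mul_ne_zero (X_ne_zero _) hJ0) (Finset.prod_ne_zero_iff.2 fun l hl =>
      mul_ne_zero (fun e => hJ0 ?_) (Finset.prod_ne_zero_iff.2 fun l' hl' => omP_ne
        (Finset.mem_erase.1 hl').1 fun e => h3 l hl (e ▸ (Finset.mem_erase.1 hl').2)))
    rw [← sub_one J, ← Matrix.SpecialLinearGroup.coe_one, ← mul_inv_cancel l,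
      Matrix.SpecialLinearGroup.coe_mul, sub_mul, e, map_zero]
  have hgen : ∀ u, eval u q ≠ 0 → u ≠ 0 ∧ eval u J ≠ 0 ∧ ∀ l ∈ S, eval (l.1 *ᵥ u) J ≠ 0 ∧
      ∀ l' ∈ S, l' ≠ l → om (l.1 *ᵥ u) (l'.1 *ᵥ u) ≠ 0 := by
    intro u hu
    simp only [hq, map_mul, map_prod, mul_ne_zero_iff, Finset.prod_ne_zero_iff, eval_sub',
      eval_omP, eval_X, Finset.mem_erase] at hu
    exact ⟨fun e => hu.1.1 (by simp [e]), hu.1.2, fun l hl => ⟨(hu.2 l hl).1,
      fun l' h h' => (hu.2 l hl).2 l' ⟨h', h⟩⟩⟩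
  have hfix : ∀ (l : SL2) u, mon (Equiv.swap 0 1) ![l, l⁻¹] *ᵥ pt (l.1 *ᵥ u) u = pt (l.1 *ᵥ u) u := by
    intro l u
    have := sl_inv l⁻¹ u
    rw [inv_inv] at this
    rw [mon_pt]
    simp only [Equiv.swap_apply_left, Equiv.swap_apply_right, bl_pt0, bl_pt1,
      Matrix.cons_val_zero, Matrix.cons_val_one, this]
  have hanti : ∀ l ∈ S, sub (mon (Equiv.swap 0 1) ![l, l⁻¹]) v = (-1 : ℂ) • v := by
    intro l hl
    obtain ⟨χ, -, hχ⟩ := hs (Equiv.swap 0 1) _ (hL l (h1 hl))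
    obtain ⟨u, hu⟩ := exists_eval_ne hq0
    obtain ⟨-, a1, a2⟩ := hgen u hu
    have a3 : sub (mon (Equiv.swap 0 1) ![l, l⁻¹]) (phi l) = -phi l := by
      apply MvPolynomial.funext
      intro x
      rw [eval_sub', map_neg, eval_phi, eval_phi, mon_mulVec, mon_mulVec]
      simp only [Equiv.swap_apply_left, Equiv.swap_apply_right, Matrix.cons_val_zero,
        Matrix.cons_val_one, sl_inv, om]
      ring
    have a4 := hχ
    rw [hv, ← Finset.mul_prod_erase S _ hl, mul_assoc, map_mul, a3, smul_eq_C_mul,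
      mul_left_comm (C χ), neg_mul, ← mul_neg] at a4
    have a5 := congrArg (eval (pt (l.1 *ᵥ u) u)) (mul_left_cancel₀ (phi_ne l) a4)
    rw [map_neg, eval_sub', hfix, map_mul (eval _) (C χ), eval_C, ← neg_one_mul] at a5
    rw [hχ, ← mul_right_cancel₀ ?_ a5]
    simp only [map_mul, map_prod, eval_phi, eval_onb, bl_pt0, bl_pt1]
    exact mul_ne_zero (Finset.prod_ne_zero_iff.2 fun l' hl' => (a2 l hl).2 l'
      (Finset.mem_erase.1 hl').2 (Finset.mem_erase.1 hl').1) (mul_ne_zero (a2 l hl).1 a1)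
  have key : ∀ f : P4, eub 0 f = ((S.card + k : ℕ) : ℂ) • f →
      (∀ π, ∀ a ∈ D, ∀ χ : ℂ, sub (mon π a) v = χ • v → sub (mon π a) f = χ • f) →
      ∀ u, eval u q ≠ 0 → ∃ c : ℂ, res u f = c • res u v := by
    intro f hf hfs u hu
    obtain ⟨a0, a1, a2⟩ := hgen u hu
    have b0 : ∀ l ∈ S, l.1 *ᵥ u ≠ 0 := fun l _ e => a0 (by
      have := sl_inv l⁻¹ u
      rw [inv_inv, e, Matrix.mulVec_zero] at this
      exact this.symm)
    have b1 : eu 0 1 (res u f) = ((S.card + k : ℕ) : ℂ) • res u f := by rw [eu_res, hf, map_smul]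
    obtain ⟨g, hg⟩ := prod_ell_dvd (fun l : SL2 => l.1 *ᵥ u) S b0 (res u f) fun l hl => by
      have : S.filter (fun j : SL2 => om (l.1 *ᵥ u) (j.1 *ᵥ u) = 0) = {l} := by
        ext j
        simp only [Finset.mem_filter, Finset.mem_singleton]
        exact ⟨fun h => by_contra fun e => (a2 l hl).2 j h.1 e h.2,
          fun e => by rw [e]; exact ⟨hl, om_self _⟩⟩
      rw [this, Finset.card_singleton, pow_one]
      refine ell_dvd (b0 l hl) b1 ?_
      have := congrArg (eval (pt (l.1 *ᵥ u) u)) (hfs _ _ (hL l (h1 hl)) _ (hanti l hl))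
      rw [eval_sub', hfix, smul_eval] at this
      rw [eval_res]
      linear_combination this / 2
    set Φ := ∏ l ∈ S, ell (l.1 *ᵥ u) with hΦ
    have b2 : Φ ≠ 0 := Finset.prod_ne_zero_iff.2 fun l hl => ell_ne_zero (b0 l hl)
    have b3 : Φ.IsHomogeneous S.card := by
      have := IsHomogeneous.prod S (fun l : SL2 => ell (l.1 *ᵥ u)) (fun _ => 1) fun h _ => lin_hom _
      simpa only [Finset.sum_const, smul_eq_mul, mul_one] using this
    have b4 : res u v = ((-1) ^ S.card * eval u J) • (Φ * J) := by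
      apply MvPolynomial.funext
      intro x
      simp only [eval_res, hv, hΦ, map_mul, map_prod, eval_phi, eval_onb, bl_pt0, bl_pt1,
        smul_eval, eval_ell]
      rw [Finset.prod_congr rfl (g := fun l : SL2 => -om (l.1 *ᵥ u) x) fun l _ => by
        simp only [om]; ring, Finset.prod_neg]
      ring
    have b5 : (-1 : ℂ) ^ S.card * eval u J ≠ 0 := by simp [a1]
    rw [hg] at b1
    obtain ⟨c, hc⟩ := hJu g (hom_of_eu (by simpa using eu_of_mul b3 b2 b1)) fun h hh => by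
      obtain ⟨χ, hχ0, hχ⟩ := hs 1 _ hh
      have c1 := sub_res h u v
      have c2 := sub_res h u f
      rw [hχ, map_smul, b4, map_smul, smul_comm χ, map_mul, hJi h hh,
        ← smul_mul_assoc χ] at c1
      have c3 : sub h.1 Φ = χ • Φ := mul_right_cancel₀ hJ0 (smul_right_injective _ b5 c1)
      rw [hfs _ _ hh _ hχ, map_smul, hg, map_mul, c3, ← smul_mul_assoc χ] at c2
      exact mul_left_cancel₀ (smul_ne_zero hχ0 b2) c2
    exact ⟨c * ((-1) ^ S.card * eval u J)⁻¹, by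
      rw [b4, smul_smul, mul_assoc, inv_mul_cancel₀ b5, mul_one, hg, ← hc, mul_smul_comm]⟩
  obtain ⟨x, hx⟩ := exists_eval_ne (mul_ne_zero hv0 (onb_ne 1 hq0))
  rw [map_mul, mul_ne_zero_iff, eval_onb] at hx
  refine ⟨eval x f / eval x v, (sub_eq_zero.1 ?_).symm⟩
  set f' := f - (eval x f / eval x v) • v with hf'
  have c1 : eval x f' = 0 := by
    rw [hf', map_sub, smul_eval, div_mul_cancel₀ _ hx.1, sub_self]
  have c2 : ∀ π, ∀ a ∈ D, ∀ χ : ℂ, sub (mon π a) v = χ • v → sub (mon π a) f' = χ • f' :=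
    fun π a ha χ h => by rw [hf', map_sub, map_smul, h, hfs π a ha χ h, smul_sub, smul_comm]
  have c3 := key f' (by rw [hf', map_sub, Derivation.map_smul, hf, hv', smul_sub, smul_comm]) c2
  have c4 : ∀ u u', eval u' q ≠ 0 → eval (pt u u') v ≠ 0 → eval (pt u u') f' = 0 →
      ∀ w, eval (pt w u') f' = 0 := by
    intro u u' a1 a2 a3 w
    obtain ⟨c, hc⟩ := c3 u' a1
    have a4 := congrArg (eval u) hc
    rw [smul_eval, eval_res, eval_res, a3] at a4
    rw [← eval_res, hc, (mul_eq_zero.1 a4.symm).resolve_right a2]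
    simp
  obtain ⟨χ, hχ0, hχ⟩ := hs (Equiv.swap 0 1) 1 D.one_mem
  have c5 : ∀ (F : P4) u w, sub (mon (Equiv.swap 0 1) 1) F = χ • F →
      eval (pt w u) F = χ * eval (pt u w) F := fun F u w h => by
    have := congrArg (eval (pt u w)) h
    rw [eval_sub', mon_pt, smul_eval] at this
    simpa [bl_pt0, bl_pt1] using this
  have c6 : res (bl 1 x) v ≠ 0 := fun e => hx.1 (by rw [← pt_bl x, ← eval_res, e, map_zero])
  refine dense_zero (onb_ne 1 (mul_ne_zero hq0 c6)) fun y hy => ?_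
  rw [eval_onb, map_mul, mul_ne_zero_iff, eval_res] at hy
  rw [← pt_bl y]
  refine c4 (bl 1 x) _ hy.1 (by rw [c5 v _ _ hχ]; exact mul_ne_zero hχ0 hy.2) ?_ _
  rw [c5 f' _ _ (c2 _ _ D.one_mem _ hχ), c4 (bl 0 x) _ hx.2 (by rw [pt_bl]; exact hx.1)
    (by rw [pt_bl]; exact c1), mul_zero]

end Pool.Agent.P.MP_97ea17_al
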