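import Pool.Agent.P.MP_97ea17_al.CaseA2

/-! The bound for monomial groups of rank two containing `diag(-1, 1)`. -/

namespace Pool.Agent.P.MP_97ea17_al

open MvPolynomial
open scoped Matrix

theorem mlb_ne (i : Fin 2) : mlb i ![1, 0] ≠ 0 := by simp [ml]

theorem genA {e : ℕ} (N : Submodule ℂ ((Fin 2 → Bool) → P4)) (hN : N ≤ LA e) {v : P4}
    (hv0 : v ≠ 0) (hv : Pi.single (fun _ => false) v ∈ N)
    (hX : ∀ i l, ∀ y ∈ N, xa i l y ∈ N) (t : Fin 2 → Bool) (s : Fin 2 × Fin 2 →₀ ℕ)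
    (hs : ∀ i, s (i, 0) + s (i, 1) = e + if t i then 1 else 0) :
    Pi.single t (monomial s (1 : ℂ)) ∈ N := by
  have h1 : ∀ i (t : Fin 2 → Bool), t i = false → (∃ p : P4, p ≠ 0 ∧ Pi.single t p ∈ N) →
      ∃ p : P4, p ≠ 0 ∧ Pi.single (fl i t) p ∈ N := by
    rintro i t ht ⟨p, hp, h⟩
    refine ⟨_, mul_ne_zero (mlb_ne i) hp, ?_⟩
    convert hX i ![1, 0] _ h using 1
    ext1 t'
    rw [xa_apply]
    by_cases e : t' = fl i t
    · subst e
      simp [fl_self, fl_fl, ht]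
    · have : fl i t' ≠ t := fun e' => e (by rw [← e', fl_fl])
      simp [e, this]
  obtain ⟨p, hp, h⟩ : ∃ p : P4, p ≠ 0 ∧ Pi.single t p ∈ N := by
    have h0 : ∃ p : P4, p ≠ 0 ∧ Pi.single (fun _ => false) p ∈ N := ⟨v, hv0, hv⟩
    have : t = (fun _ => false) ∨ t = fl 0 (fun _ => false) ∨ t = fl 1 (fun _ => false) ∨
      t = fl 0 (fl 1 (fun _ => false)) := by clear hs; revert t; decide
    rcases this with rfl | rfl | rfl | rfl
    exacts [h0, h1 _ _ rfl h0, h1 _ _ rfl h0, h1 _ _ rfl (h1 _ _ rfl h0)]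
  refine all_monomials4 (N.comap (LinearMap.single ℂ (fun _ => P4) t)) (fun i l f hf => ?_) h hp
    (e := fun i => e + if t i then 1 else 0) (fun i => ?_) s hs
  · change Pi.single t _ ∈ N
    convert hX i l _ (hX i l _ hf) using 1
    ext1 t'
    rw [xa_self]
    by_cases e : t' = t <;> simp [e]
  · have := hN h t i
    rw [Pi.single_eq_same] at this
    rw [this]
    split_ifs <;> simp

theorem caseA {G : Type} [Group G] [Finite G]
    (c : G →* Matrix (Fin 2 × Fin 2) (Fin 2 × Fin 2) ℂ) (D : Subgroup (Fin 2 → SL2)) [Finite D]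
    (hsw : ∀ a ∈ D, a ∘ Equiv.swap 0 1 ∈ D) (hneg : Pi.mulSingle 0 (-1) ∈ D)
    (h1 : ∀ g, ∃ π, ∃ a ∈ D, c g = mon π a) (h2 : ∀ π, ∀ a ∈ D, ∃ g, c g = mon π a) (N : ℕ)
    (hN : N + 2 ≤ 2 * Nat.card {h // Pi.mulSingle 0 h ∈ D} + Nat.card {l // ![l, l⁻¹] ∈ D}) :
    (N + 1) ^ 2 ≤ Module.finrank ℂ (P4 ⧸ invI c) := by
  classical
  have hneg' : ∀ i, Pi.mulSingle i (-1) ∈ D := fun i => by
    fin_cases i
    · exact hneg
    · convert hsw _ hneg using 1
      ext1 j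
      fin_cases j <;> simp
  let H : Subgroup SL2 := D.comap (MonoidHom.mulSingle (fun _ => SL2) 0)
  have hHf : Finite H := Finite.of_injective (fun h : H => (⟨_, h.2⟩ : D)) fun a b e =>
    Subtype.ext (Pi.mulSingle_injective (M := fun _ => SL2) 0 (congrArg Subtype.val e))
  let aH : H →* Matrix (Fin 2) (Fin 2) ℂ :=
    (Units.coeHom _).comp (Matrix.SpecialLinearGroup.toGL.comp H.subtype)
  obtain ⟨k, hk, hk1⟩ := klein aH (fun a b e => Subtype.ext (Subtype.ext e))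
    (fun h => h.1.det_coe) ⟨-1, hneg⟩ rfl
  obtain ⟨⟨J, hJ⟩, hJ0, hJu⟩ := finrank_eq_one_iff'.1 hk1
  replace hJ0 : J ≠ 0 := fun e => hJ0 (Subtype.ext e)
  obtain ⟨hJh, hJi⟩ := mem_invH.1 hJ
  replace hJi : ∀ h, Pi.mulSingle 0 h ∈ D → sub (h : SL2).1 J = J := fun h hh => hJi ⟨h, hh⟩
  replace hJu : ∀ g : P2, g.IsHomogeneous (2 * k) →
      (∀ h, Pi.mulSingle 0 h ∈ D → sub (h : SL2).1 g = g) → ∃ c : ℂ, c • J = g := fun g a b =>
    (hJu ⟨g, mem_invH.2 ⟨a, fun h => b h.1 h.2⟩⟩).imp fun _ e => congrArg Subtype.val e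
  have hJs : ∀ a ∈ D, ∀ i, ∃ χ : ℂ, χ ≠ 0 ∧ sub (a i).1 J = χ • J := by
    have h3 : ∀ a ∈ D, ∃ χ : ℂ, χ ≠ 0 ∧ sub (a 0).1 J = χ • J := by
      intro a ha
      obtain ⟨χ, hχ⟩ := hJu _ (sub_hom (a 0).1 hJh) fun h hh => by
        have : Pi.mulSingle 0 (a 0 * h * (a 0)⁻¹) ∈ D := by
          convert D.mul_mem (D.mul_mem ha hh) (D.inv_mem ha) using 1
          ext1 j
          fin_cases j <;> simp
        conv_rhs => rw [← hJi _ this]
        rw [← sub_mul, ← sub_mul, ← Matrix.SpecialLinearGroup.coe_mul,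
          ← Matrix.SpecialLinearGroup.coe_mul, inv_mul_cancel_right]
      refine ⟨χ, ?_, hχ.symm⟩
      rintro rfl
      apply hJ0
      rw [← sub_one J, ← Matrix.SpecialLinearGroup.coe_one, ← mul_inv_cancel (a 0),
        Matrix.SpecialLinearGroup.coe_mul, sub_mul, ← hχ, zero_smul, map_zero]
    intro a ha i
    have h4 := h3 _ (hsw a ha)
    rw [Function.comp_apply, Equiv.swap_apply_left] at h4
    revert i
    exact Fin.forall_fin_two.2 ⟨h3 a ha, h4⟩
  have hLf : Finite {l : SL2 // ![l, l⁻¹] ∈ D} :=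
    Finite.of_injective (fun l => (⟨_, l.2⟩ : D)) fun a b e =>
      Subtype.ext (congrFun (congrArg Subtype.val e) 0)
  obtain ⟨L, hL⟩ : ∃ L : Finset SL2, ∀ l, l ∈ L ↔ ![l, l⁻¹] ∈ D :=
    ⟨(show Set.Finite {l : SL2 | ![l, l⁻¹] ∈ D} from hLf).toFinset, by simp⟩
  have hLn : ∀ l ∈ L, -l ∈ L := fun l hl => by
    rw [hL]
    convert D.mul_mem ((hL l).1 hl) (D.mul_mem (hneg' 0) (hneg' 1)) using 1
    ext1 j
    fin_cases j <;> simp
  obtain ⟨S, hS1, hS2, hS3⟩ := exists_half L hLn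
  obtain ⟨e, he⟩ : ∃ e, e = S.card + 2 * k := ⟨_, rfl⟩
  have hNe : N + 1 ≤ 2 * e + 3 := by
    have a1 : Nat.card {l // ![l, l⁻¹] ∈ D} = L.card := Nat.subtype_card L hL
    have a2 : L.card ≤ S.card + S.card := by
      refine (Finset.card_le_card (show L ⊆ S ∪ S.image Neg.neg from fun l hl => ?_)).trans
        ((Finset.card_union_le _ _).trans (Nat.add_le_add_left Finset.card_image_le _))
      rcases hS2 l hl with h | h
      · exact Finset.mem_union_left _ h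
      · exact Finset.mem_union_right _ (Finset.mem_image.2 ⟨_, h, neg_neg l⟩)
    have a3 : Nat.card {h // Pi.mulSingle 0 h ∈ D} = 2 * k + 2 := hk
    omega
  refine (Nat.pow_le_pow_left hNe 2).trans ?_
  set v0 : P4 := (∏ l ∈ S, phi l) * (onb 0 J * onb 1 J) with hv0
  have hv00 : v0 ≠ 0 := mul_ne_zero (Finset.prod_ne_zero_iff.2 fun l _ => phi_ne l)
    (mul_ne_zero (onb_ne _ hJ0) (onb_ne _ hJ0))
  have hve : ∀ i, eub i v0 = (e : ℂ) • v0 := fun i => by
    rw [hv0, eub_mul (eub_prod i S) (eub_mul (eub_onb i 0 hJh) (eub_onb i 1 hJh)), he]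
    fin_cases i <;> simp
  have hs : ∀ π, ∀ a ∈ D, ∃ χ : ℂ, χ ≠ 0 ∧ sub (mon π a) v0 = χ • v0 := by
    intro π a ha
    obtain ⟨χ, a1, a2⟩ := semiA D hsw hL hLn hS1 hS2 hS3 π ha
    obtain ⟨χ0, a3, a4⟩ := hJs a ha 0
    obtain ⟨χ1, a5, a6⟩ := hJs a ha 1
    refine ⟨χ * (χ0 * χ1), by simp [a1, a3, a5], ?_⟩
    rw [hv0, map_mul, map_mul, a2, sub_onb, sub_onb, a4, a6, map_smul, map_smul]
    rcases perm_two π with rfl | rfl <;> simp [smul_eq_C_mul] <;> ring
  let ι := {q : G × Equiv.Perm (Fin 2) × (Fin 2 → SL2) // q.2.2 ∈ D ∧ c q.1 = mon q.2.1 q.2.2}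
  choose! ψ hψ0 hψ using hs
  set lo : Fin 2 → Bool := fun _ => false with hlo
  let tg : Fin (2 * e + 3) → Bool := fun a => decide (e < a.val)
  let ex : Fin (2 * e + 3) → Fin 2 → ℕ := fun a =>
    if e < a.val then ![a.val - (e + 1), 2 * e + 2 - a.val] else ![a.val, e - a.val]
  let fam : (Fin 2 → Fin (2 * e + 3)) → (Fin 2 → Bool) → P4 := fun a => Pi.single (tg ∘ a)
    (monomial (Finsupp.equivFunOnFinite.symm fun p => ex (a p.1) p.2) (1 : ℂ))
  have hdim : Module.finrank ℂ (Submodule.span ℂ (Set.range fam)) = (2 * e + 3) ^ 2 := by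
    rw [finrank_span_single]
    · simp
    · intro a b a1 a2
      ext i
      have a3 := congrFun a1 i
      have a4 := DFunLike.congr_fun a2 (i, 0)
      simp only [tg, ex, Function.comp_apply, decide_eq_decide,
        Finsupp.equivFunOnFinite_symm_apply_apply] at a3 a4
      split_ifs at a4 <;> simp at a4 <;> omega
  rw [← hdim]
  have : Module.Finite ℂ (Submodule.span ℂ (Set.range fam)) :=
    Module.Finite.span_of_finite _ (Set.finite_range _)
  have hTn : ∀ i, ∀ y ∈ LA e, ∀ t, tA 1 (Pi.mulSingle i (-1)) y t =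
      ((-1 : ℂ) ^ e * if t i then -1 else 1) • y t := fun i y hy t => by
    have := hy t i
    rw [tA_apply, Equiv.Perm.coe_one, Function.comp_id,
      sub_neg_block (d := e + if t i then 1 else 0) (by rw [this]; split_ifs <;> simp), pow_add]
    split_ifs <;> simp
  have hsq : (-1 : ℂ) ^ e * (-1) ^ e = 1 := by rw [← mul_pow]; simp
  refine filt_bound c (LA e) (fun q : ι => q.1.1) (fun g => ?_)
    (xa 0 ∘ₗ bl 0 + xa 1 ∘ₗ bl 1) (fun q => tA q.1.2.1 q.1.2.2) (fun q => ψ q.1.2.1 q.1.2.2)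
    (Pi.single lo v0) (fun t i => ?_)
    (fun l y hy => add_mem (xa_mem _ _ hy) (xa_mem _ _ hy)) ?_ ?_ (fun q => hψ0 _ _ q.2.1)
    (fun l l' y hy => ?_) (fun y hy hT => ?_) _ (fun N hN hvN hX _ => ?_)
  · obtain ⟨π, a, h⟩ := h1 g
    exact ⟨⟨⟨g, π, a⟩, h⟩, rfl⟩
  · by_cases h : t = lo
    · simp [h, hlo, hve]
    · simp [h]
  · rintro ⟨⟨g, π, a⟩, ha, hg⟩ l y -
    simp only [LinearMap.add_apply, LinearMap.comp_apply, map_add, tA_xa, hg, ← vecMul_mon π a]
    rcases perm_two π with rfl | rfl <;> simp [add_comm]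
  · rintro ⟨⟨g, π, a⟩, ha, hg⟩
    ext1 t
    rw [tA_apply, Pi.smul_apply]
    by_cases h : t = lo
    · rw [h, show lo ∘ π = lo from rfl, Pi.single_eq_same, hψ π a ha]
    · rw [Pi.single_eq_of_ne h, Pi.single_eq_of_ne fun e' => h (funext fun i => by
        simpa using congrFun e' (π.symm i))]
      simp
  · set U := Submodule.span ℂ (insert y (Set.range fun q : ι => tA q.1.2.1 q.1.2.2 y))
    have h3 : ∀ i l l', xa i l (xa i l' y) - xa i l' (xa i l y) ∈ U := by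
      intro i l l'
      obtain ⟨g, hg⟩ := h2 1 _ (hneg' i)
      have a1 : y ∈ U := Submodule.subset_span (Or.inl rfl)
      have a2 : tA 1 (Pi.mulSingle i (-1)) y ∈ U :=
        Submodule.subset_span (Or.inr ⟨⟨⟨g, 1, _⟩, hneg' i, hg⟩, rfl⟩)
      convert add_mem (U.smul_mem (om l l' / 2) a1)
        (U.smul_mem (om l l' * (2 * e + 3) / 2 * (-1) ^ e) a2) using 1
      ext1 t
      rw [xa_brk i l l' hy, Pi.add_apply, Pi.smul_apply, Pi.smul_apply, hTn i y hy, smul_smul,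
        ← add_smul, mul_assoc, ← mul_assoc ((-1) ^ e), hsq]
      congr 1
      split_ifs <;> ring
    convert add_mem (h3 0 (bl 0 l) (bl 0 l')) (h3 1 (bl 1 l) (bl 1 l')) using 1
    simp only [LinearMap.add_apply, LinearMap.comp_apply, map_add,
      xa_comm (show (1 : Fin 2) ≠ 0 by decide)]
    abel
  · have h3 : ∀ π, ∀ a ∈ D, ∀ χ : ℂ, sub (mon π a) v0 = χ • v0 → tA π a y = χ • y := by
      intro π a ha χ h
      obtain ⟨g, hg⟩ := h2 π a ha
      rw [hT ⟨⟨g, π, a⟩, ha, hg⟩, smul_left_injective ℂ hv00 ((hψ π a ha).symm.trans h)]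
    obtain ⟨χ, hχ⟩ := uniqA D (fun l => (hL l).1) hS1 hS3 hJ0 hJi hJu hv0
      (fun π a ha => ⟨_, hψ0 π a ha, hψ π a ha⟩) (f := y lo) (by simpa [he, hlo] using hy lo 0)
      (he ▸ hve 0) fun π a ha χ h => congrFun (h3 π a ha χ h) lo
    refine Submodule.mem_span_singleton.2 ⟨χ, funext fun t => ?_⟩
    by_cases h : t = lo
    · simp [h, hχ]
    · obtain ⟨i, hi⟩ : ∃ i, t i = true := by
        by_contra h'
        exact h (funext fun i => by simpa using fun e => h' ⟨i, e⟩)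
      have a1 := congrFun (h3 1 _ (hneg' i) _ (sub_neg_block (hve i))) t
      rw [hTn i y hy, Pi.smul_apply, if_pos hi, ← sub_eq_zero, ← _root_.sub_smul,
        smul_eq_zero] at a1
      rw [Pi.smul_apply, Pi.single_eq_of_ne h, smul_zero, a1.resolve_left fun e' => ?_]
      have : (-1 : ℂ) ^ e = 0 := by linear_combination -e' / 2
      simp at this
  · rw [Submodule.span_le]
    rintro _ ⟨a, rfl⟩
    refine genA N hN hv00 hvN (fun i l y hy => ?_) _ _ fun i => ?_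
    · fin_cases i
      · simpa [bl_pt0, bl_pt1] using hX (pt l 0) y hy
      · simpa [bl_pt0, bl_pt1] using hX (pt 0 l) y hy
    · have := (a i).2
      simp only [tg, ex, Function.comp_apply, decide_eq_true_eq,
        Finsupp.equivFunOnFinite_symm_apply_apply]
      split_ifs <;> simp <;> omega

end Pool.Agent.P.MP_97ea17_al
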