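import Pool.Agent.P.MP_97ea17_al.ModB
import Pool.Agent.P.MP_97ea17_al.Filt

/-! The bound for groups normalising a real dihedral group, in abstract form. -/

namespace Pool.Agent.P.MP_97ea17_al

open MvPolynomial
open scoped Matrix

theorem mono2 (s : Fin 2 →₀ ℕ) : (monomial s (1 : ℂ) : P2) = X 0 ^ s 0 * X 1 ^ s 1 * 1 := by
  rw [monomial_eq, Finsupp.prod_fintype _ _ (by simp), Fin.prod_univ_two]
  simp

theorem E_eq (f : P2) : ml 0 1 ![1, 0] * dl 0 1 ![1, 0] f = X 0 * pderiv 1 f := by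
  simp [ml, dl_apply]

theorem F_eq (f : P2) : ml 0 1 ![0, 1] * dl 0 1 ![0, 1] f = -(X 1 * pderiv 0 f) := by
  simp [ml, dl_apply]

theorem all_monomials (N : Submodule ℂ P2) (hE : ∀ f ∈ N, X 0 * pderiv 1 f ∈ N)
    (hF : ∀ f ∈ N, X 1 * pderiv 0 f ∈ N) {f : P2} (hf : f ∈ N) (h0 : f ≠ 0) {e : ℕ}
    (he : eu 0 1 f = (e : ℂ) • f) : ∀ a b, a + b = e → X 0 ^ a * X 1 ^ b ∈ N := by
  have hdeg : ∀ s ∈ f.support, s 0 + s 1 = e := fun s hs => by
    exact_mod_cast deg_of_eu he hs
  obtain ⟨s, hs, h1⟩ := exists_monomial N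
    (fun (_ : Unit) f => X 0 * pderiv 0 f - X 1 * pderiv 1 f) (fun _ s => (s 0 : ℂ) - s 1)
    (fun _ f s => by rw [coeff_sub, coeff_X_pderiv, coeff_X_pderiv]; ring)
    (fun _ f hf => by rw [← EF_comm]; exact sub_mem (hE _ (hF _ hf)) (hF _ (hE _ hf)))
    _ f hf h0 le_rfl (fun s hs t ht h => by
      have h1 := hdeg s hs
      have h2 := hdeg t ht
      have h3 : (s 0 : ℤ) - s 1 = t 0 - t 1 := by exact_mod_cast h ()
      ext i
      fin_cases i <;> simp <;> omega)
  rw [mono2] at h1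
  simpa using conn h01 N e (g := 1) (by simp) (by simp) (fun a b _ h => ⟨hE _ h, hF _ h⟩)
    (hdeg s hs) h1

theorem genB {d e : ℕ} (hd : 2 ≤ d) (N : Submodule ℂ (ℤ → P2)) {J : P2} (hJ0 : J ≠ 0)
    (hJ : J.IsHomogeneous e) (hv : Pi.single (d : ℤ) J - Pi.single (-d : ℤ) J ∈ N)
    (hp : ∀ l, ∀ y ∈ N, xp d (d + e + 1) l y ∈ N) (hm : ∀ l, ∀ y ∈ N, xm d (d + e + 1) l y ∈ N)
    (hs : ∀ y ∈ N, sw y ∈ N) (k : ℕ) : ∀ a b, a + b + k = d + e →
      (Pi.single (k : ℤ) (X 0 ^ a * X 1 ^ b) : ℤ → P2) ∈ N ∧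
      (Pi.single (-k : ℤ) (X 0 ^ a * X 1 ^ b) : ℤ → P2) ∈ N := by
  set m := d + e + 1 with hmdef
  have hall : ∀ ι : P2 →ₗ[ℂ] (ℤ → P2), (∀ (l : Fin 2 → ℂ) f, ι (ml 0 1 l * dl 0 1 l f) =
      fun j => ml 0 1 l * dl 0 1 l (ι f j)) → ∀ f, ι f ∈ N → f ≠ 0 → ∀ e : ℕ,
      eu 0 1 f = (e : ℂ) • f → ∀ a b, a + b = e → ι (X 0 ^ a * X 1 ^ b) ∈ N := by
    intro ι hι f hf h0 e he
    have h1 : ∀ l f, ι f ∈ N → ι (ml 0 1 l * dl 0 1 l f) ∈ N := fun l f hf => by
      rw [hι, ← xp_xm_self hd m]; exact hp _ _ (hm _ _ hf)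
    exact all_monomials (N.comap ι) (fun f hf => E_eq f ▸ h1 _ f hf)
      (fun f hf => by
        have := h1 ![0, 1] f hf
        rwa [F_eq, map_neg, neg_mem_iff] at this) hf h0 he
  have hsing : ∀ (k : ℤ) (l : Fin 2 → ℂ) (f : P2),
      (Pi.single k (ml 0 1 l * dl 0 1 l f) : ℤ → P2) =
        fun j => ml 0 1 l * dl 0 1 l ((Pi.single k f : ℤ → P2) j) := by
    intro k l f
    ext1 j
    simp only [Pi.single_apply]
    split_ifs <;> simp
  have hx : ml (0 : Fin 2) 1 ![1, 0] = X 0 := by simp [ml]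
  have hy : ml (0 : Fin 2) 1 ![0, 1] = X 1 := by simp [ml]
  have hX : ∀ e : ℕ, eu 0 1 (X 0 ^ e : P2) = (e : ℂ) • X 0 ^ e := fun e =>
    eu_of_hom (isHomogeneous_X_pow 0 e)
  have hone : ∀ (k : ℤ) (e : ℕ), (Pi.single k (X 0 ^ e) : ℤ → P2) ∈ N → ∀ a b, a + b = e →
      (Pi.single k (X 0 ^ a * X 1 ^ b) : ℤ → P2) ∈ N := fun k e h =>
    hall (LinearMap.single ℂ (fun _ => P2) k) (hsing k) _ h (pow_ne_zero _ (X_ne_zero _)) e (hX e)
  have hsw : ∀ (k : ℤ) (f : P2), sw (Pi.single k f) = Pi.single (-k) f := by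
    intro k f
    ext1 j
    simp only [sw_apply, Pi.single_apply, neg_eq_iff_eq_neg]
  have h1 : (Pi.single (d : ℤ) (X 0 ^ e) - Pi.single (-d : ℤ) (X 0 ^ e) : ℤ → P2) ∈ N := by
    have := hall (LinearMap.single ℂ (fun _ => P2) (d : ℤ) -
      LinearMap.single ℂ (fun _ => P2) (-d : ℤ)) (fun l f => by
        ext1 j
        simp only [LinearMap.sub_apply, LinearMap.coe_single, hsing, Pi.sub_apply, map_sub,
          mul_sub]) J hv hJ0 e (eu_of_hom hJ) e 0 rfl
    simpa using this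
  have h2 : (Pi.single (1 - d : ℤ) (X 0 ^ (e + 1)) : ℤ → P2) ∈ N := by
    have h3 := hp ![1, 0] _ h1
    have h4 : xp d m ![1, 0] (Pi.single (d : ℤ) (X 0 ^ e) - Pi.single (-d : ℤ) (X 0 ^ e)) =
        (-(1 + cA d m d)) • (Pi.single (1 - d : ℤ) (X 0 ^ (e + 1)) : ℤ → P2) := by
      ext1 j
      rcases le_or_gt 1 j with h | h
      · rw [xp_pos _ _ _ _ h]
        simp only [Pi.sub_apply, Pi.smul_apply, Pi.single_apply]
        rw [if_neg (show ¬ j - 1 = -d by omega), if_neg (show ¬ -j - 1 = d by omega),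
          if_neg (show ¬ j = 1 - d by omega)]
        have h5 : cA d m j • (ml 0 1 ![1, 0] * (0 - if -j - 1 = -d then (X 0 ^ e : P2) else 0))
            = 0 := by
          split_ifs with h6
          · rw [cA_of_not_dvd m fun h7 => by
              have := Int.le_of_dvd (by omega) h7
              omega, zero_smul]
          · simp
        rw [h5]
        split_ifs <;> simp [dl_apply]
      · rw [xp_neg _ _ _ _ (by omega)]
        simp only [Pi.sub_apply, Pi.smul_apply, Pi.single_apply]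
        rw [if_neg (show ¬ j - 1 = d by omega), if_neg (show ¬ 1 - j = -d by omega), hx]
        by_cases h6 : j = 1 - d
        · rw [if_pos (by omega), if_pos (by omega), if_pos h6, show 1 - j = d by omega]
          simp only [smul_eq_C_mul, map_neg, map_add, map_one]
          ring
        · rw [if_neg (by omega), if_neg (by omega), if_neg h6]
          simp
    rw [h4, Submodule.smul_mem_iff] at h3
    · exact h3
    · have : cA d m d = ((m / (e + 1) : ℝ) : ℂ) := by
        rw [cA, if_pos ⟨by omega, dvd_rfl⟩, hmdef]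
        push_cast
        congr 1
        ring
      rw [this, neg_ne_zero]
      have : (0 : ℝ) < 1 + m / (e + 1) := by positivity
      exact_mod_cast this.ne'
  have h3 : ∀ i : ℕ, i + 1 ≤ d →
      (Pi.single (1 - d + i : ℤ) (X 0 ^ (e + 1 + i)) : ℤ → P2) ∈ N := by
    intro i
    induction i with
    | zero => intro _; simpa using h2
    | succ i ih =>
      intro hi
      convert hp ![1, 0] _ (ih (by omega)) using 1
      ext1 j
      rcases le_or_gt 1 j with h | h
      · rw [xp_pos _ _ _ _ h]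
        simp only [Pi.single_apply]
        rw [if_neg (by omega), if_neg (by omega)]
        split_ifs with h6
        · rw [cA_of_not_dvd m fun h7 => by
            have := Int.le_of_dvd (by omega) h7
            omega]
          simp
        · simp
      · rw [xp_neg _ _ _ _ (by omega), hx]
        simp only [Pi.single_apply]
        rw [if_neg (show ¬ 1 - j = 1 - d + i by omega)]
        by_cases h6 : j - 1 = 1 - d + i
        · rw [if_pos h6, if_pos (by push_cast; omega)]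
          simp only [mul_zero, smul_zero, sub_zero]
          ring
        · rw [if_neg h6, if_neg (by push_cast; omega)]
          simp
  induction k using Nat.strong_induction_on with
  | _ k ih =>
    intro a b hab
    suffices h : (Pi.single (k : ℤ) (X 0 ^ (a + b)) : ℤ → P2) ∈ N from
      ⟨hone _ _ h a b rfl, hsw _ _ ▸ hs _ (hone _ _ h a b rfl)⟩
    cases k with
    | zero =>
      have := h3 (d - 1) (by omega)
      rwa [show (1 - d + (d - 1 : ℕ) : ℤ) = (0 : ℕ) by omega,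
        show e + 1 + (d - 1) = a + b by omega] at this
    | succ k =>
      have h4 := hp ![0, 1] _ (ih k (by omega) (a + b + 1) 0 (by omega)).1
      have h5 : xp d m ![0, 1] (Pi.single (k : ℤ) (X 0 ^ (a + b + 1) * X 1 ^ 0)) =
          (-((a + b : ℕ) + 1 : ℂ)) • (Pi.single ((k + 1 : ℕ) : ℤ) (X 0 ^ (a + b)) : ℤ → P2) -
          cA d m k • (Pi.single (1 - k : ℤ) (X 0 ^ (a + b + 1) * X 1 ^ 1) : ℤ → P2) := by
        ext1 j
        rcases le_or_gt 1 j with h | h
        · rw [xp_pos _ _ _ _ h]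
          simp only [Pi.single_apply, Pi.sub_apply, Pi.smul_apply]
          rw [if_neg (show ¬ -j - 1 = k by omega)]
          have h7 : cA d m k • (if j = 1 - k then (X 0 ^ (a + b + 1) * X 1 ^ 1 : P2) else 0)
              = 0 := by
            split_ifs with h8
            · rw [cA_nonpos _ _ (by omega), zero_smul]
            · simp
          rw [h7]
          by_cases h6 : j - 1 = k
          · rw [if_pos h6, if_pos (by push_cast; omega)]
            simp [dl_apply, smul_eq_C_mul]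
            ring
          · rw [if_neg h6, if_neg (by push_cast; omega)]
            simp
        · rw [xp_neg _ _ _ _ (by omega), hy]
          simp only [Pi.single_apply, Pi.sub_apply, Pi.smul_apply]
          rw [if_neg (show ¬ j - 1 = k by omega),
            if_neg (show ¬ j = ((k + 1 : ℕ) : ℤ) by push_cast; omega)]
          by_cases h6 : 1 - j = k
          · rw [if_pos h6, if_pos (by omega), h6]
            simp only [smul_eq_C_mul]
            ring
          · rw [if_neg h6, if_neg (by omega)]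
            simp
      have h6 : cA d m k • (Pi.single (1 - k : ℤ) (X 0 ^ (a + b + 1) * X 1 ^ 1) : ℤ → P2) ∈ N := by
        cases k with
        | zero => rw [cA_nonpos _ _ (by simp), zero_smul]; exact zero_mem _
        | succ k =>
          refine N.smul_mem _ ?_
          have := (ih k (by omega) (a + b + 1) 1 (by omega)).2
          rwa [show (-k : ℤ) = 1 - (k + 1 : ℕ) by push_cast; ring] at this
      have h7 := add_mem h4 h6
      rw [h5, sub_add_cancel] at h7
      exact (Submodule.smul_mem_iff _ (neg_ne_zero.2 (Nat.cast_add_one_ne_zero _))).1 h7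

theorem sg_mem {d : ℕ} (hd : 2 ≤ d) (a : ℤ) (y : ℤ → P2) (U : Submodule ℂ (ℤ → P2))
    (hU : ∀ z : ℂ, z ^ d = 1 → sw (tB z 1 y) ∈ U) : sg d a y ∈ U := by
  have hz := Complex.isPrimitiveRoot_exp d (by omega)
  set z := Complex.exp (2 * Real.pi * Complex.I / d)
  have hz0 : z ≠ 0 := hz.ne_zero (by omega)
  have : sg d a y = (d : ℂ)⁻¹ • ∑ i ∈ Finset.range d, (z ^ a) ^ i • sw (tB (z ^ i) 1 y) := by
    ext1 k
    simp only [sg, Pi.smul_apply, Finset.sum_apply, sw_apply, tB_apply, sub_one, smul_smul]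
    rw [← Finset.sum_smul, smul_smul]
    have h1 : ∀ i : ℕ, (z ^ a) ^ i * (z ^ i) ^ (-k) = (z ^ (a - k)) ^ i := fun i => by
      rw [← zpow_natCast, ← zpow_natCast, ← zpow_natCast, ← zpow_mul, ← zpow_mul, ← zpow_mul,
        ← zpow_add₀ hz0]
      congr 1
      ring
    simp only [h1]
    split_ifs with h
    · rw [(hz.zpow_eq_one_iff_dvd _).2 (dvd_sub_comm.1 h)]
      have : (d : ℂ) ≠ 0 := by exact_mod_cast (show d ≠ 0 by omega)
      simp [this]
    · have h2 : z ^ (a - k) ≠ 1 := fun h3 => h (dvd_sub_comm.1 ((hz.zpow_eq_one_iff_dvd _).1 h3))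
      have h3 := geom_sum_mul (z ^ (a - k)) d
      rw [← zpow_natCast, ← zpow_mul, mul_comm (a - k), zpow_mul, zpow_natCast, hz.pow_eq_one,
        one_zpow, sub_self] at h3
      rw [(mul_eq_zero.1 h3).resolve_right (sub_ne_zero.2 h2)]
      simp
  rw [this]
  refine U.smul_mem _ (U.sum_mem fun i _ => U.smul_mem _ (hU _ ?_))
  rw [← pow_mul, mul_comm, pow_mul, hz.pow_eq_one, one_pow]

theorem caseB {σ G : Type} [Fintype σ] [DecidableEq σ] [Group G] [Finite G]
    (c : G →* Matrix σ σ ℂ) (pp pm : (σ → ℂ) →ₗ[ℂ] (Fin 2 → ℂ))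
    (hsurj : ∀ a b, ∃ l, pp l = a ∧ pm l = b) (d e : ℕ) (hd : 2 ≤ d) (hde : ¬ d ∣ e + 1)
    (Dec : G → Bool → ℂ → Matrix (Fin 2) (Fin 2) ℂ → Prop)
    (hex : ∀ g, ∃ ε z u, Dec g ε z u)
    (hD : ∀ g ε z u, Dec g ε z u → u.det = 1 ∧ z ^ (2 * d) = 1)
    (hD0 : ∀ g z u, Dec g false z u → ∀ l, pp (l ᵥ* c g) = z • (pp l ᵥ* u) ∧
      pm (l ᵥ* c g) = z⁻¹ • (pm l ᵥ* u))
    (hD1 : ∀ g z u, Dec g true z u → ∀ l, pm (l ᵥ* c g) = z • (pp l ᵥ* u) ∧
      pp (l ᵥ* c g) = z⁻¹ • (pm l ᵥ* u))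
    (hZ : ∀ z : ℂ, z ^ d = 1 → ∃ g, Dec g true z 1)
    (J : P2) (hJ0 : J ≠ 0) (hJ : J.IsHomogeneous e)
    (hJs : ∀ g ε z u, Dec g ε z u → ∃ χ : ℂ, χ ≠ 0 ∧ sub (z • u) J = χ • J)
    (hJu : ∀ (f : P2) (a : ℂ), eu 0 1 f = a • f → (∀ g z u (χ : ℂ), Dec g false z u →
      sub (z • u) J = χ • J → sub (z • u) f = χ • f) → J ∣ f) :
    (d + e + 1) ^ 2 ≤ Module.finrank ℂ (MvPolynomial σ ℂ ⧸ invI c) := by
  classical
  set m := d + e + 1 with hmdef
  have hdm : ¬ d ∣ m := fun h => hde ((Nat.dvd_add_right dvd_rfl).1 (by rwa [← add_assoc]))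
  let ι := {q : G × Bool × ℂ × Matrix (Fin 2) (Fin 2) ℂ // Dec q.1 q.2.1 q.2.2.1 q.2.2.2}
  let T : ι → Module.End ℂ (ℤ → P2) := fun q =>
    if q.1.2.1 then sw * tB q.1.2.2.1 q.1.2.2.2 else tB q.1.2.2.1 q.1.2.2.2
  set v : ℤ → P2 := Pi.single (d : ℤ) J - Pi.single (-d : ℤ) J with hv
  have hvd : v d = J := by
    simp only [hv, Pi.sub_apply, Pi.single_apply]
    rw [if_pos trivial, if_neg (by omega), sub_zero]
  have hswv : sw v = -v := by
    ext1 k
    simp only [hv, sw_apply, Pi.sub_apply, Pi.neg_apply, Pi.single_apply, neg_eq_iff_eq_neg,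
      neg_neg, neg_sub]
  have hz0 : ∀ {z : ℂ}, z ^ (2 * d) = 1 → z ≠ 0 := by
    rintro z hz rfl
    rw [zero_pow (by omega)] at hz
    exact zero_ne_one hz
  have htv : ∀ (z : ℂ) u (χ : ℂ), z ^ (2 * d) = 1 → sub (z • u) J = χ • J →
      tB z u v = (z ^ d * (z ^ e)⁻¹ * χ) • v := by
    intro z u χ hz hχ
    have h0 := hz0 hz
    have h1 : sub u J = ((z ^ e)⁻¹ * χ) • J := by
      rw [sub_smul _ _ hJ] at hχ
      rw [mul_smul, ← hχ, smul_smul, inv_mul_cancel₀ (pow_ne_zero _ h0), one_smul]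
    have h2 : z ^ (-d : ℤ) = z ^ d := by
      rw [zpow_neg, zpow_natCast]
      refine inv_eq_of_mul_eq_one_right ?_
      rw [← pow_add, ← two_mul, hz]
    ext1 k
    simp only [hv, tB_apply, Pi.sub_apply, Pi.smul_apply, Pi.single_apply]
    split_ifs with h3 h4 h4
    · omega
    · simp [h3, h1, smul_smul, mul_assoc]
    · rw [h4, h2]; simp [h1, smul_smul, mul_assoc]
    · simp
  have hψ : ∀ q : ι, ∃ ψ : ℂ, ψ ≠ 0 ∧ T q v = ψ • v := by
    rintro ⟨⟨g, ε, z, u⟩, hq⟩
    obtain ⟨χ, h1, h2⟩ := hJs g ε z u hq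
    have h3 := (hD g ε z u hq).2
    have h4 : z ^ d * (z ^ e)⁻¹ * χ ≠ 0 := by simp [hz0 h3, h1]
    cases ε
    · exact ⟨_, h4, htv z u χ h3 h2⟩
    · refine ⟨_, neg_ne_zero.2 h4, ?_⟩
      simp [T, htv z u χ h3 h2, hswv]
  choose ψ hψ0 hψ using hψ
  have hψu : ∀ q (a : ℂ), T q v = a • v → ψ q = a := fun q a h => by
    have := congrFun ((hψ q).symm.trans h) d
    simp only [Pi.smul_apply, hvd] at this
    exact smul_left_injective ℂ hJ0 this
  let fam : Fin m × Fin m → ℤ → P2 := fun p => Pi.single ((p.1 : ℤ) - p.2)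
    (monomial (Finsupp.single 0 (min p.1.val p.2.val) +
      Finsupp.single 1 (m - 1 - max p.1.val p.2.val)) (1 : ℂ))
  have hdim : Module.finrank ℂ (Submodule.span ℂ (Set.range fam)) = m ^ 2 := by
    rw [finrank_span_single]
    · simp [sq]
    · rintro ⟨a, b⟩ ⟨a', b'⟩ h1 h2
      have h3 := DFunLike.congr_fun h2 0
      simp at h3 h1
      ext <;> simp <;> omega
  rw [← hdim]
  have : Module.Finite ℂ (Submodule.span ℂ (Set.range fam)) :=
    Module.Finite.span_of_finite _ (Set.finite_range _)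
  refine filt_bound c (LB m) (fun q : ι => q.1.1) (fun g => ?_) (xp d m ∘ₗ pp + xm d m ∘ₗ pm) T ψ v
    (fun k => ?_) (fun l y hy => add_mem (xp_mem d _ hy) (xm_mem d _ hy)) ?_ hψ hψ0
    (fun l l' y hy => ?_) (fun y hy hT => ?_) _ (fun N _ hvN hX hT => ?_)
  · obtain ⟨ε, z, u, h⟩ := hex g
    exact ⟨⟨⟨g, ε, z, u⟩, h⟩, rfl⟩
  · simp only [hv, Pi.sub_apply, Pi.single_apply]
    split_ifs with h3 h4 h4
    · omega
    · rw [sub_zero, eu_of_hom hJ, h3, hmdef]
      congr 1
      simp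
    · rw [zero_sub, map_neg, eu_of_hom hJ, h4, hmdef, smul_neg]
      congr 2
      simp
    · simp
  · rintro ⟨⟨g, ε, z, u⟩, hq⟩ l y -
    obtain ⟨h1, h2⟩ := hD g ε z u hq
    cases ε
    · simp [T, tB_xp m h2 (hz0 h2) h1, tB_xm m h2 (hz0 h2) h1, hD0 g z u hq l]
    · simp only [T, if_true, Module.End.mul_apply, LinearMap.add_apply, LinearMap.comp_apply,
        map_add, tB_xp m h2 (hz0 h2) h1, tB_xm m h2 (hz0 h2) h1, hD1 g z u hq l]
      simp only [xm_eq, sw_sw]
      rw [add_comm]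
  · set U := Submodule.span ℂ (insert y (Set.range fun q => T q y))
    have hU : ∀ a, sg d a y ∈ U := fun a => sg_mem hd a y U fun z hz => by
      obtain ⟨g, hg⟩ := hZ z hz
      exact Submodule.subset_span (Or.inr ⟨⟨⟨g, true, z, 1⟩, hg⟩, rfl⟩)
    have hy' : y ∈ U := Submodule.subset_span (Or.inl rfl)
    have h1 := U.smul_mem (m * om (pp l) (pp l')) (hU 1)
    have h2 := U.smul_mem (m * om (pm l) (pm l')) (hU (-1))
    have h3 := sub_mem (U.smul_mem (om (pp l) (pm l')) hy')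
      (U.smul_mem (m * om (pp l) (pm l')) (hU 0))
    have h4 := sub_mem (U.smul_mem (om (pp l') (pm l)) hy')
      (U.smul_mem (m * om (pp l') (pm l)) (hU 0))
    rw [← comm_pp hd hdm _ _ hy] at h1
    rw [← comm_mm hd hdm _ _ hy] at h2
    rw [← comm_pm hd hdm _ _ hy] at h3 h4
    convert sub_mem (add_mem (add_mem h1 h2) h3) h4 using 1
    simp only [LinearMap.add_apply, LinearMap.comp_apply, map_add]
    abel
  · have h1 : ∀ z : ℂ, z ^ d = 1 → ∀ k : ℤ, z ^ (-k) • y (-k) = -y k := by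
      intro z hz k
      obtain ⟨g, hg⟩ := hZ z hz
      have h2 : ψ ⟨⟨g, true, z, 1⟩, hg⟩ = -1 := hψu _ _ (by
        have := htv z 1 (z ^ e) (hD _ _ _ _ hg).2 (by rw [sub_smul _ _ hJ, sub_one])
        rw [hz, one_mul, inv_mul_cancel₀ (pow_ne_zero _ (hz0 (hD _ _ _ _ hg).2)),
          one_smul] at this
        simp [T, this, hswv])
      have := congrFun (hT ⟨⟨g, true, z, 1⟩, hg⟩) k
      simpa [T, h2, sw_apply, tB_apply, sub_one] using this
    have h2 : ∀ k, y (-k) = -y k := fun k => by simpa using h1 1 (one_pow _) k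
    have h3 : ∀ k : ℤ, ¬ (d : ℤ) ∣ k → y k = 0 := by
      intro k hk
      have hz := Complex.isPrimitiveRoot_exp d (by omega)
      have h4 := h1 _ hz.pow_eq_one k
      rw [← h2] at h4
      by_contra h5
      have h6 : y (-k) ≠ 0 := by rw [h2]; exact neg_ne_zero.2 h5
      have h7 := smul_left_injective ℂ h6 (h4.trans (one_smul _ _).symm)
      exact hk (dvd_neg.1 ((hz.zpow_eq_one_iff_dvd _).1 h7))
    have h4 : ∀ k : ℤ, 0 < k → (d : ℤ) ∣ k → ∃ q, y k = J * q ∧ eu 0 1 q = (d - k : ℂ) • q := by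
      intro k hk hdk
      have h5 := LB_pos hy hk.le
      obtain ⟨q, hq⟩ := hJu _ _ h5 fun g z u χ hg hχ => by
        by_cases h6 : y k = 0
        · simp [h6]
        obtain ⟨e', h7, h8⟩ := exists_hom h5 h6
        have h9 := (hD _ _ _ _ hg).2
        have h10 := congrFun (hT ⟨⟨g, false, z, u⟩, hg⟩) k
        rw [hψu ⟨⟨g, false, z, u⟩, hg⟩ _ (htv z u χ h9 hχ)] at h10
        replace h10 : z ^ k • sub u (y k) = (z ^ d * (z ^ e)⁻¹ * χ) • y k := h10
        have h0 := hz0 h9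
        have h11 : (e' : ℤ) = d + e - k := by
          have : ((d + e - k : ℤ) : ℂ) = (e' : ℤ) := by
            push_cast; rw [← h7, hmdef]; push_cast; ring
          exact_mod_cast this.symm
        obtain ⟨j, hj⟩ := hdk
        rw [sub_smul _ _ h8, (eq_inv_smul_iff₀ (zpow_ne_zero k h0)).2 h10, smul_smul, smul_smul]
        congr 1
        have h12 : z ^ e' * (z ^ k)⁻¹ * (z ^ d * (z ^ e)⁻¹) = (z ^ (2 * d)) ^ (1 - j) := by
          simp only [← zpow_natCast, ← zpow_neg, ← zpow_add₀ h0, ← zpow_mul]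
          congr 1
          rw [h11, hj]
          push_cast
          ring
        rw [← mul_assoc, h12, h9, one_zpow, one_mul]
      refine ⟨q, hq, ?_⟩
      rw [hq] at h5
      rw [eu_of_mul hJ hJ0 h5, hmdef]
      congr 1
      push_cast
      ring
    have h5 : ∀ k : ℤ, 0 ≤ k → k ≠ d → y k = 0 := by
      intro k hk hkd
      by_cases h6 : (d : ℤ) ∣ k
      · rcases hk.eq_or_lt with rfl | hk
        · have := h2 0
          rw [neg_zero, eq_neg_iff_add_eq_zero, ← two_smul ℂ] at this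
          exact (smul_eq_zero.1 this).resolve_left two_ne_zero
        · obtain ⟨q, hq, h7⟩ := h4 k hk h6
          by_contra h8
          obtain ⟨e', h9, -⟩ := exists_hom h7 (by rintro rfl; simp_all)
          have : (d : ℤ) - k = e' := by exact_mod_cast h9
          have := Int.le_of_dvd hk h6
          omega
      · exact h3 k h6
    obtain ⟨q, hq, h7⟩ := h4 d (by omega) dvd_rfl
    have h8 : q.IsHomogeneous 0 := hom_of_eu (by simpa using h7)
    rw [totalDegree_eq_zero_iff_eq_C.1 ((totalDegree_zero_iff_isHomogeneous _).2 h8)] at hq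
    refine Submodule.mem_span_singleton.2 ⟨coeff 0 q, ?_⟩
    ext1 k
    simp only [hv, Pi.sub_apply, Pi.smul_apply, Pi.single_apply]
    split_ifs with h9 h10 h10
    · omega
    · rw [h9, hq, sub_zero, smul_eq_C_mul, mul_comm]
    · rw [h10, h2, hq, zero_sub, smul_neg, smul_eq_C_mul, mul_comm]
    · rcases le_total 0 k with h | h
      · simp [h5 k h h9]
      · rw [← neg_neg k, h2, h5 (-k) (by omega) (by omega)]; simp
  · obtain ⟨g, hg⟩ := hZ 1 (one_pow _)
    have h1 := genB hd N hJ0 hJ hvN (fun l y hy => by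
        obtain ⟨l', h1, h2⟩ := hsurj l 0
        simpa [h1, h2] using hX l' y hy)
      (fun l y hy => by
        obtain ⟨l', h1, h2⟩ := hsurj 0 l
        simpa [h1, h2] using hX l' y hy)
      (fun y hy => by
        have h2 : tB 1 1 y = y := by ext1 k; simp [tB_apply, sub_one]
        simpa [T, h2] using hT ⟨⟨g, true, 1, 1⟩, hg⟩ y hy)
    rw [Submodule.span_le]
    rintro _ ⟨⟨a, b⟩, rfl⟩
    have ha := a.2
    have hb := b.2
    simp only [fam, mono2, mul_one]
    simp only [Finsupp.coe_add, Pi.add_apply, Finsupp.single_eq_same, ne_eq, one_ne_zero,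
      not_false_eq_true, Finsupp.single_eq_of_ne, zero_ne_one, add_zero, zero_add,
      SetLike.mem_coe]
    rcases le_total a.val b.val with h | h
    · have := (h1 (b - a) (min a.val b.val) (m - 1 - max a.val b.val) (by omega)).2
      rwa [show (-(b.val - a.val : ℕ) : ℤ) = a - b by omega] at this
    · have := (h1 (a - b) (min a.val b.val) (m - 1 - max a.val b.val) (by omega)).1
      rwa [show ((a.val - b.val : ℕ) : ℤ) = a - b by omega] at this

end Pool.Agent.P.MP_97ea17_al
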