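import Pool.Agent.P.MP_97ea17_al.Env

/-! Soundness of the certificate for the distribution of traces. -/

namespace Pool.Agent.P.MP_97ea17_al.Ck

theorem orb_spec {K : List (ℕ → ℕ)} (Q : ℕ → Prop) (hQ : ∀ κ ∈ K, ∀ p, Q p → Q (κ p)) {f : ℕ}
    {st : List ℕ} {s : ℕ} {k : ℕ → Bool} (h : orb K f st s k = true) (hst : ∀ p ∈ st, Q p) :
    ∃ (N : List ℕ) (s' : ℕ), k s' = true ∧ N.Nodup ∧ N.length + st.length = f ∧
      (∀ p ∈ N, Q p ∧ s.testBit p = false ∧ s'.testBit p = true) ∧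
      ∀ p, s.testBit p = true → s'.testBit p = true := by
  induction f generalizing st s with
  | zero =>
    cases st with
    | nil => exact ⟨[], s, h, by simp⟩
    | cons p st => exact absurd h (by simp [orb])
  | succ f ih =>
    cases st with
    | nil => exact absurd h (by simp [orb])
    | cons p st =>
      have hp := hst p List.mem_cons_self
      have key : ∀ K' : List (ℕ → ℕ), (∀ κ ∈ K', Q (κ p)) → ∀ (st : List ℕ) (s : ℕ),
          (∀ p ∈ st, Q p) →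
          List.rec (motive := fun _ => List ℕ → ℕ → Bool) (fun st s => orb K f st s k)
            (fun g _ ih2 st s => Bool.rec (ih2 (g p :: st) (Nat.lor s (Nat.shiftLeft 1 (g p))))
              (ih2 st s) (Nat.ble 1 (Nat.land s (Nat.shiftLeft 1 (g p))))) K' st s = true →
          ∃ (N : List ℕ) (s' : ℕ), k s' = true ∧ N.Nodup ∧ N.length + st.length = f ∧
            (∀ p ∈ N, Q p ∧ s.testBit p = false ∧ s'.testBit p = true) ∧
            ∀ p, s.testBit p = true → s'.testBit p = true := by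
        intro K' hK'
        induction K' with
        | nil => exact fun st s hst h => ih h hst
        | cons g K' ih2 =>
          intro st s hst h
          have hg := hK' g List.mem_cons_self
          have ih3 := ih2 fun κ hκ => hK' κ (List.mem_cons_of_mem _ hκ)
          cases hb : Nat.ble 1 (Nat.land s (Nat.shiftLeft 1 (g p))) <;> simp only [hb] at h
          · have hb' : s.testBit (g p) = false := by
              rw [← Bool.not_eq_true, Nat.ble_eq] at hb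
              have h0 : s &&& 1 <<< g p = 0 := by
                change Nat.land s (Nat.shiftLeft 1 (g p)) = 0
                omega
              have := congrArg (·.testBit (g p)) h0
              simpa [Nat.one_shiftLeft] using this
            obtain ⟨N, s', h1, h2, h3, h4, h5⟩ :=
              ih3 _ _ (List.forall_mem_cons.2 ⟨hg, hst⟩) h
            simp only [bit_or, Bool.or_eq_false_iff, decide_eq_false_iff_not, Bool.or_eq_true,
              decide_eq_true_eq] at h4 h5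
            refine ⟨g p :: N, s', h1, List.nodup_cons.2 ⟨fun hm => (h4 _ hm).2.1.2 rfl, h2⟩,
              by simp only [List.length_cons] at h3 ⊢; omega, List.forall_mem_cons.2
                ⟨⟨hg, hb', h5 _ (Or.inr rfl)⟩, fun q hq => ⟨(h4 q hq).1, (h4 q hq).2.1.1,
                  (h4 q hq).2.2⟩⟩, fun q hq => h5 q (Or.inl hq)⟩
          · exact ih3 _ _ hst h
      obtain ⟨N, s', h1, h2, h3, h4⟩ := key K (fun κ hκ => hQ κ hκ p hp) st s
        (fun q hq => hst q (List.mem_cons_of_mem _ hq)) h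
      exact ⟨N, s', h1, h2, by simp only [List.length_cons]; omega, h4⟩

variable {G X : Type} [Group G] [MulAction G X] (E : Env G X)

/-- The constraints `C` hold for `g`. -/
def Env.Sat (C : List (ℕ × ℕ)) (g : G) : Prop := ∀ e ∈ C, g • E.vec e.1 = E.vec e.2

/-- Maps intertwining the action with a conjugate and fixing the marked point. -/
def Env.Tw (W : Subgroup G) (C : List (ℕ × ℕ)) (a : ℕ) (φ : X → X) : Prop :=
  ∃ k ∈ W, (∀ (g : G) x, φ (g • x) = (k * g * k⁻¹) • φ x) ∧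
    (∀ g : G, E.Sat C g → E.Sat C (k * g * k⁻¹)) ∧ φ (E.vec a) = E.vec a

/-- Numerical versions of such maps. -/
def Env.TwN (W : Subgroup G) (C : List (ℕ × ℕ)) (a : ℕ) (κ : ℕ → ℕ) : Prop :=
  ∃ φ, E.Tw W C a φ ∧ ∀ b < E.M, κ b < E.M ∧ φ (E.vec b) = E.vec (κ b)

theorem Env.cmpr_word {W : Subgroup G} {c : ℕ} {w : List ℕ} {k : List ℕ → Bool}
    (hw : ∀ T ∈ w, E.Good W T) (h : cmpr E.ap E.tb c w k = true) :
    ∃ w', (∀ T ∈ w', E.Good W T) ∧ k w' = true := by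
  rcases cmpr_spec h with h | h
  · exact ⟨w, hw, h⟩
  · exact ⟨_, List.forall_mem_singleton.2 (E.good_tb hw), h⟩

theorem dcK_cons (ap : ℕ → ℕ → ℕ) (mk : (ℕ → ℕ) → ℕ) (rm : ℕ → ℕ → ℕ) (iv : ℕ → ℕ)
    (m d : ℕ) (gs : List ℕ) (C : List (ℕ × ℕ)) (a c y : ℕ) (ks : List ℕ)
    (k : List (ℕ → ℕ) → Bool) : dcK ap mk rm iv m d gs C a c (y :: ks) k =
    dcd d gs y [] fun w0 => cmpr ap mk c w0 fun w =>
      nd (allL C fun e => nd (Nat.blt (iv (apW ap w e.1)) m)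
        (nd (Nat.beq (rm (apW ap w e.1) (iv (apW ap w e.1))) e.1)
          (Nat.beq (rm (apW ap w e.2) (iv (apW ap w e.1))) e.2)))
      (nd (Nat.blt (iv (apW ap w a)) m) (nd (Nat.beq (rm (apW ap w a) (iv (apW ap w a))) a)
        (dcK ap mk rm iv m d gs C a c ks fun K =>
          k ((fun b => rm (apW ap w b) (iv (apW ap w a))) :: K)))) := by
  unfold dcK
  simp only [frc_eq, frcN_eq]

theorem Env.dcK_spec {W : Subgroup G} {iv : ℕ → ℕ} {gs : List ℕ} (hg : ∀ T ∈ gs, E.Good W T)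
    {C : List (ℕ × ℕ)} (hC : ∀ e ∈ C, e.1 < E.M ∧ e.2 < E.M) {a c : ℕ} (ha : a < E.M)
    {ks : List ℕ} {k : List (ℕ → ℕ) → Bool}
    (h : dcK E.ap E.tb E.rm iv E.m E.d gs C a c ks k = true) :
    ∃ K, (∀ κ ∈ K, E.TwN W C a κ) ∧ k K = true := by
  induction ks generalizing k with
  | nil => exact ⟨[], by simp, h⟩
  | cons y ks ih =>
    rw [dcK_cons] at h
    have h0 := dcd_spec h
    rw [List.append_nil] at h0
    obtain ⟨w, hw, h1⟩ := E.cmpr_word (E.good_dec hg _ _) h0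
    obtain ⟨g, hgW, hg'⟩ := E.word hw
    simp only [nd_iff, allL_iff, Nat.blt_eq, Nat.beq_eq] at h1
    obtain ⟨h2, h3, h4, h5⟩ := h1
    obtain ⟨K, hK, hK'⟩ := ih h5
    refine ⟨_, List.forall_mem_cons.2 ⟨?_, hK⟩, hK'⟩
    have key : ∀ u < E.m, ∀ b < E.M, E.rm (apW E.ap w b) u < E.M ∧
        E.R u (g • E.vec b) = E.vec (E.rm (apW E.ap w b) u) := fun u hu b hb => by
      obtain ⟨e1, e2⟩ := hg' b hb
      obtain ⟨e3, e4⟩ := E.rm_vec _ e1 u hu
      exact ⟨e3, by rw [e2, e4]⟩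
    have k2 : ∀ u (x : G) v, E.R u (g • x • v) = (g * x * g⁻¹) • E.R u (g • v) := fun u x v => by
      simp only [E.R_comm, mul_smul, inv_smul_smul]
    refine ⟨fun v => E.R (iv (apW E.ap w a)) (g • v), ⟨g, hgW, k2 _, fun x hx e he => ?_, ?_⟩,
      key _ h3⟩
    · obtain ⟨e1, e2, e3⟩ := h2 e he
      have e4 := (key _ e1 _ (hC e he).1).2
      have e5 := (key _ e1 _ (hC e he).2).2
      rw [e2] at e4
      rw [e3] at e5
      rw [← e4, ← k2, hx e he, e5]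
    · beta_reduce
      rw [(key _ h3 _ ha).2, h4]

theorem Env.Tw.comp {E : Env G X} {W : Subgroup G} {C : List (ℕ × ℕ)} {a : ℕ} {φ ψ : X → X}
    (h : E.Tw W C a φ) (h' : E.Tw W C a ψ) : E.Tw W C a fun x => φ (ψ x) := by
  obtain ⟨k, hk, h1, h2, h3⟩ := h
  obtain ⟨l, hl, h4, h5, h6⟩ := h'
  have e : ∀ g : G, k * l * g * (k * l)⁻¹ = k * (l * g * l⁻¹) * k⁻¹ := fun g => by group
  exact ⟨k * l, W.mul_mem hk hl, fun g x => by simp only [e, h4, h1],
    fun g hg => e g ▸ h2 _ (h5 g hg), by simp only [h6, h3]⟩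

theorem Env.spread {W : Subgroup G} {P : G → ℕ → Prop}
    (hP : ∀ g i k, P g i → P (k * g * k⁻¹) i) {C : List (ℕ × ℕ)} {a b : ℕ} {l : List (G × ℕ)}
    (hl : l.Pairwise fun z z' => z.1 ≠ z'.1)
    (hl' : ∀ z ∈ l, z.1 ∈ W ∧ E.Sat ((a, b) :: C) z.1 ∧ P z.1 z.2) (O : List ℕ) (hO : O.Nodup)
    (hO' : ∀ p ∈ O, p < E.M ∧ ∃ φ, E.Tw W C a φ ∧ φ (E.vec b) = E.vec p) (ψ : ℕ → ℕ) :
    ∃ l' : List (G × ℕ), (l'.Pairwise fun z z' => z.1 ≠ z'.1) ∧
      (∀ z ∈ l', z.1 ∈ W ∧ E.Sat C z.1 ∧ P z.1 z.2 ∧ ∃ p ∈ O, z.1 • E.vec a = E.vec p) ∧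
      (l'.map fun z => ψ z.2).sum = O.length * (l.map fun z => ψ z.2).sum := by
  induction O with
  | nil => exact ⟨[], by simp⟩
  | cons p O ih =>
    obtain ⟨h1, h2⟩ := List.nodup_cons.1 hO
    obtain ⟨l', i1, i2, i3⟩ := ih h2 fun q hq => hO' q (List.mem_cons_of_mem _ hq)
    obtain ⟨hp, φ, ⟨k, hk, k1, k2, k3⟩, k4⟩ := hO' p List.mem_cons_self
    have key : ∀ z ∈ l.map fun z => (k * z.1 * k⁻¹, z.2),
        z.1 ∈ W ∧ E.Sat C z.1 ∧ P z.1 z.2 ∧ z.1 • E.vec a = E.vec p := by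
      intro z0 hz0
      obtain ⟨z, hz, rfl⟩ := List.mem_map.1 hz0
      obtain ⟨z1, z2, z3⟩ := hl' z hz
      refine ⟨W.mul_mem (W.mul_mem hk z1) (W.inv_mem hk),
        k2 _ fun e he => z2 e (List.mem_cons_of_mem _ he), hP _ _ _ z3, ?_⟩
      have := z2 _ List.mem_cons_self
      simp only at this ⊢
      rw [← k3, ← k1, this, k4]
    refine ⟨(l.map fun z => (k * z.1 * k⁻¹, z.2)) ++ l', List.pairwise_append.2 ⟨?_, i1, ?_⟩,
      List.forall_mem_append.2 ⟨fun z hz => ?_, fun z hz => ?_⟩, ?_⟩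
    · rw [List.pairwise_map]
      exact hl.imp fun h e => h (by simpa using e)
    · intro z hz z' hz' e
      obtain ⟨-, -, -, q, hq, e'⟩ := i2 z' hz'
      rw [← e, (key z hz).2.2.2] at e'
      exact h1 (E.inj _ hp _ (hO' q (List.mem_cons_of_mem _ hq)).1 e' ▸ hq)
    · obtain ⟨z1, z2, z3, z4⟩ := key z hz
      exact ⟨z1, z2, z3, p, List.mem_cons_self, z4⟩
    · obtain ⟨z1, z2, z3, q, hq, z4⟩ := i2 z hz
      exact ⟨z1, z2, z3, q, List.mem_cons_of_mem _ hq, z4⟩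
    · rw [List.map_append, List.sum_append, i3, List.map_map, List.length_cons, add_mul, one_mul,
        add_comm]
      rfl

/-- The test made at a leaf. -/
noncomputable def lfc (tr : ℕ → ℕ → ℕ) (f : ℕ → ℕ) (bs : List ℕ) (σ : List (ℕ × ℕ)) : Bool :=
  List.rec (motive := fun _ => Bool) false (fun c σ _ => sigc tr f bs (c :: σ) bs) σ

section
variable (ap : ℕ → ℕ → ℕ) (mk : (ℕ → ℕ) → ℕ) (rm : ℕ → ℕ → ℕ) (iv : ℕ → ℕ)
    (tr : ℕ → ℕ → ℕ) (m M d : ℕ) (gs bs : List ℕ) (sg : List (List (ℕ × ℕ)))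
    (C : List (ℕ × ℕ)) (x : List ℕ) (a : ℕ) (K : List (ℕ → ℕ)) (s : ℕ)

theorem chk_leaf (i : ℕ) : chk ap mk rm iv tr m M d gs bs sg (.leaf i) C x a K s =
    nd (Nat.beq s 0) (nd (allL C fun e => Nat.beq (apW ap x e.1) e.2)
      (lfc tr (apW ap x) bs (nth [] sg i))) := by
  unfold chk lfc
  simp only

theorem chk_node (a' c : ℕ) (ks : List ℕ) (ch : Cert) :
    chk ap mk rm iv tr m M d gs bs sg (.node a' c ks ch) C x a K s =
    nd (Nat.beq s 0) (nd (Nat.blt a' M) (dcK ap mk rm iv m d gs C a' c ks fun K =>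
      chk ap mk rm iv tr m M d gs bs sg ch C x a' K (Nat.shiftLeft 1 M))) := by
  unfold chk
  simp only

theorem chk_br (e : ℕ) (c1 c2 : Cert) :
    chk ap mk rm iv tr m M d gs bs sg (.br e c1 c2) C x a K s =
    nd (Nat.blt (Nat.mod e 65536) M)
      (nd (Nat.beq (Nat.mod (Nat.shiftRight s (Nat.mod e 65536)) 2) 0)
        (orb K (ent e 16 65536 1) [Nat.mod e 65536]
          (Nat.lor s (Nat.shiftLeft 1 (Nat.mod e 65536))) fun s' =>
          nd (dcd d gs (Nat.shiftRight e 33) x fun x0 => cmpr ap mk (ent e 1 2 32) x0 fun x' =>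
            chk ap mk rm iv tr m M d gs bs sg c1 ((a, Nat.mod e 65536) :: C) x' 0 [] 0)
            (chk ap mk rm iv tr m M d gs bs sg c2 C x a K s'))) := by
  unfold chk
  simp only [frc_eq]

end

theorem Env.chk_spec {W : Subgroup G} {P : G → ℕ → Prop}
    (hP : ∀ g i k, P g i → P (k * g * k⁻¹) i) {iv : ℕ → ℕ} {tr : ℕ → ℕ → ℕ} {gs : List ℕ}
    {sg : List (List (ℕ × ℕ))} (hg : ∀ T ∈ gs, E.Good W T)
    (hl : ∀ f g i, Act E.M E.vec f g → lfc tr f E.bs (nth [] sg i) = true → P g i) (c : Cert)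
    {C : List (ℕ × ℕ)} {x : List ℕ} {a : ℕ} {K : List (ℕ → ℕ)} {s : ℕ}
    (hC : ∀ e ∈ C, e.1 < E.M ∧ e.2 < E.M) (hx : ∀ T ∈ x, E.Good W T) (ha : a < E.M)
    (hK : ∀ κ ∈ K, E.TwN W C a κ)
    (h : chk E.ap E.tb E.rm iv tr E.m E.M E.d gs E.bs sg c C x a K s = true) :
    ∃ l : List (G × ℕ), (l.Pairwise fun z z' => z.1 ≠ z'.1) ∧
      (∀ z ∈ l, z.1 ∈ W ∧ E.Sat C z.1 ∧ P z.1 z.2 ∧
        (s ≠ 0 → ∃ p < E.M, s.testBit p = false ∧ z.1 • E.vec a = E.vec p)) ∧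
      (l.map fun z => 4294967296 ^ z.2).sum = hist c := by
  induction c generalizing C x a K s with
  | nil => exact ⟨[], by simp, by simp, rfl⟩
  | leaf i =>
    rw [chk_leaf] at h
    simp only [nd_iff, allL_iff, Nat.beq_eq] at h
    obtain ⟨h1, h2, h3⟩ := h
    obtain ⟨g, g1, g2⟩ := E.word hx
    refine ⟨[(g, i)], by simp, List.forall_mem_singleton.2 ⟨g1, fun e he => ?_, hl _ _ _ g2 h3,
      fun h => absurd h1 h⟩, ?_⟩
    · rw [(g2 _ (hC e he).1).2, h2 e he]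
    · change _ = 1 <<< (32 * i)
      rw [Nat.one_shiftLeft, pow_mul]
      simp
  | node a' c ks ch ih =>
    rw [chk_node] at h
    simp only [nd_iff, Nat.beq_eq, Nat.blt_eq] at h
    obtain ⟨h1, h2, h3⟩ := h
    obtain ⟨K', k1, k2⟩ := E.dcK_spec hg hC h2 h3
    obtain ⟨l, l1, l2, l3⟩ := ih hC hx h2 k1 k2
    exact ⟨l, l1, fun z hz => ⟨(l2 z hz).1, (l2 z hz).2.1, (l2 z hz).2.2.1,
      fun h => absurd h1 h⟩, l3⟩
  | br e c1 c2 ih1 ih2 =>
    rw [chk_br] at h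
    simp only [nd_iff, Nat.blt_eq] at h
    obtain ⟨h1, h2, h3⟩ := h
    generalize Nat.mod e 65536 = b at h1 h2 h3
    have h2' := bit_zero h2
    obtain ⟨N, s', n1, n2, n3, n4, n5⟩ := orb_spec
      (fun p => p < E.M ∧ ∃ φ, E.Tw W C a φ ∧ φ (E.vec b) = E.vec p) (fun κ hκ p hp => by
        obtain ⟨φ, f1, f2⟩ := hK κ hκ
        obtain ⟨p1, ψ, p2, p3⟩ := hp
        exact ⟨(f2 p p1).1, _, f1.comp p2, by rw [p3, (f2 p p1).2]⟩) h3
      (List.forall_mem_singleton.2 ⟨h1, id, ⟨1, W.one_mem, by simp, by simp, rfl⟩, rfl⟩)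
    simp only [bit_or, Bool.or_eq_false_iff, decide_eq_false_iff_not, Bool.or_eq_true,
      decide_eq_true_eq] at n4 n5
    obtain ⟨h4, h5⟩ := (nd_iff _ _).1 n1
    obtain ⟨x', x1, x2⟩ := E.cmpr_word
      (List.forall_mem_append.2 ⟨E.good_dec hg _ _, hx⟩) (dcd_spec h4)
    obtain ⟨l, l1, l2, l3⟩ := ih1 (List.forall_mem_cons.2 ⟨⟨ha, h1⟩, hC⟩) x1 E.pos (by simp) x2
    obtain ⟨r, r1, r2, r3⟩ := ih2 hC hx ha hK h5
    have hO : ∀ p ∈ b :: N, (p < E.M ∧ ∃ φ, E.Tw W C a φ ∧ φ (E.vec b) = E.vec p) ∧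
        s.testBit p = false ∧ s'.testBit p = true := List.forall_mem_cons.2
      ⟨⟨⟨h1, id, ⟨1, W.one_mem, by simp, by simp, rfl⟩, rfl⟩, h2', n5 _ (Or.inr rfl)⟩,
        fun p hp => ⟨(n4 p hp).1, (n4 p hp).2.1.1, (n4 p hp).2.2⟩⟩
    obtain ⟨t, t1, t2, t3⟩ := E.spread hP l1
      (fun z hz => ⟨(l2 z hz).1, (l2 z hz).2.1, (l2 z hz).2.2.1⟩) (b :: N)
      (List.nodup_cons.2 ⟨fun hb => (n4 b hb).2.1.2 rfl, n2⟩) (fun p hp => (hO p hp).1)
      (4294967296 ^ ·)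
    have hs' : s' ≠ 0 := fun h0 => by simpa [h0] using n5 _ (Or.inr rfl)
    refine ⟨t ++ r, List.pairwise_append.2 ⟨t1, r1, fun z hz z' hz' e => ?_⟩,
      List.forall_mem_append.2 ⟨fun z hz => ?_, fun z hz => ?_⟩, ?_⟩
    · obtain ⟨-, -, -, p, p1, p2⟩ := t2 z hz
      obtain ⟨q, q1, q2, q3⟩ := (r2 z' hz').2.2.2 hs'
      rw [← e, p2] at q3
      rw [← E.inj _ (hO p p1).1.1 _ q1 q3, (hO p p1).2.2] at q2
      exact absurd q2 (by simp)
    · obtain ⟨z1, z2, z3, p, p1, p2⟩ := t2 z hz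
      exact ⟨z1, z2, z3, fun _ => ⟨p, (hO p p1).1.1, (hO p p1).2.1, p2⟩⟩
    · obtain ⟨z1, z2, z3, z4⟩ := r2 z hz
      obtain ⟨q, q1, q2, q3⟩ := z4 hs'
      refine ⟨z1, z2, z3, fun _ => ⟨q, q1, ?_, q3⟩⟩
      rw [← Bool.not_eq_true] at q2 ⊢
      exact fun h => q2 (n5 q (Or.inl h))
    · rw [List.map_append, List.sum_append, t3, l3, r3, List.length_cons]
      change _ = ent e 16 65536 1 * hist c1 + hist c2
      rw [← n3]
      rfl

theorem enumerate {W : Subgroup G} [Fintype W] {P : G → ℕ → Prop} {l : List (G × ℕ)}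
    (l1 : l.Pairwise fun z z' => z.1 ≠ z'.1) (l2 : ∀ z ∈ l, z.1 ∈ W ∧ P z.1 z.2) {cs : List ℕ}
    {B o : ℕ} (l3 : (l.map fun z => B ^ z.2).sum =
      cs.foldr (fun c a => Nat.add c (Nat.mul B a)) 0)
    (h1 : Nat.card W ≤ o) (h2 : o < B) (h3 : wsum cs (fun _ => 1) = o) :
    Fintype.card W = o ∧ ∃ ι : W → ℕ, (∀ g : W, P g (ι g)) ∧
      ∀ (β : Type) [AddCommMonoid β] (ψ : ℕ → β), ∑ g, ψ (ι g) = wsum cs ψ := by
  classical
  set l' : List (W × ℕ) := l.pmap (fun z h => (⟨z.1, h⟩, z.2)) fun z hz => (l2 z hz).1 with hl'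
  have m1 : (l'.map Prod.fst).Nodup := by
    rw [List.Nodup, List.pairwise_map, hl', List.pairwise_pmap]
    exact l1.imp fun h _ _ e => h (congrArg Subtype.val e)
  have m2 : l'.map Prod.snd = l.map Prod.snd := by
    rw [hl', List.map_pmap, List.pmap_eq_map]
  have m3 : ∀ z ∈ l', P z.1 z.2 := by
    intro z hz
    obtain ⟨y, hy, rfl⟩ := List.mem_pmap.1 hz
    exact (l2 y hy).2
  have m4 : l'.length ≤ Fintype.card W := by simpa using m1.length_le_card
  rw [Nat.card_eq_fintype_card] at h1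
  have m5 := @digits B cs (fun c hc => ((le_wsum_one cs c hc).trans h3.le).trans_lt h2)
    (l'.map Prod.snd) (by rw [List.length_map]; omega) (by rw [m2, List.map_map]; exact l3)
  have m6 := m5 fun _ => (1 : ℕ)
  rw [h3] at m6
  simp only [List.map_const', List.sum_replicate, List.length_map, smul_eq_mul, mul_one] at m6
  have m7 : (l'.map Prod.fst).toFinset = Finset.univ :=
    Finset.eq_univ_of_card _ (by rw [List.toFinset_card_of_nodup m1, List.length_map]; omega)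
  have m8 : ∀ g : W, ∃ i, (g, i) ∈ l' := fun g => by
    have : g ∈ (l'.map Prod.fst).toFinset := m7 ▸ Finset.mem_univ g
    simpa using this
  choose ι hι using m8
  refine ⟨by omega, ι, fun g => m3 _ (hι g), fun β _ ψ => ?_⟩
  rw [← m5, ← m7, List.sum_toFinset _ m1, List.map_map, List.map_map]
  congr 1
  refine List.map_congr_left fun z hz => ?_
  have := List.inj_on_of_nodup_map m1 (hι z.1) hz rfl
  exact congrArg (fun z => ψ z.2) this

end Pool.Agent.P.MP_97ea17_al.Ck
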