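import Mathlib.Data.Nat.Basic
import Mathlib.Data.Int.Basic

/-! Boolean checkers, written with recursors so that the kernel evaluates them quickly. -/

namespace Pool.Agent.P.MP_97ea17_al.Ck

/-- Evaluate `n`, then continue. -/
noncomputable def frc (n : ℕ) (k : ℕ → Bool) : Bool :=
  Nat.rec (motive := fun _ => Bool) true (fun m _ => k m) (Nat.succ n)

/-- Evaluate `n`, then continue, with a numerical result. -/
noncomputable def frcN (n : ℕ) (k : ℕ → ℕ) : ℕ :=
  Nat.rec (motive := fun _ => ℕ) (nat_lit 0) (fun m _ => k m) (Nat.succ n)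

/-- Check `f` on all numbers below `n`. -/
noncomputable def allN (n : ℕ) (f : ℕ → Bool) : Bool :=
  Nat.rec (motive := fun _ => Bool) true (fun k ih => Bool.rec false ih (f k)) n

/-- Check `f` on all members of a list. -/
noncomputable def allL {α : Type} (l : List α) (f : α → Bool) : Bool :=
  List.rec (motive := fun _ => Bool) true (fun x _ ih => Bool.rec false ih (f x)) l

theorem allL_cons {α : Type} {x : α} {l : List α} {f : α → Bool} (h1 : f x = true)
    (h2 : allL l f = true) : allL (x :: l) f = true := by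
  change Bool.rec false (allL l f) (f x) = true
  rw [h1]
  exact h2

/-- Conjunction. -/
noncomputable def nd (a b : Bool) : Bool := Bool.rec false b a

/-- Entry `i` of width `w` bits, where `b = 2 ^ w`. -/
def ent (T w b i : ℕ) : ℕ := Nat.mod (Nat.shiftRight T (Nat.mul w i)) b

/-- The number `2 ^ 1024`. -/
def big : ℕ := nat_lit 0x10000000000000000000000000000000000000000000000000000000000000000000000000000000000000000000000000000000000000000000000000000000000000000000000000000000000000000000000000000000000000000000000000000000000000000000000000000000000000000000000000000000000000000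

/-- Entry of a list with a default. -/
noncomputable def nth {α : Type} (d : α) (l : List α) : ℕ → α :=
  List.rec (motive := fun _ => ℕ → α) (fun _ => d)
    (fun x _ ih i => Nat.rec (motive := fun _ => α) x (fun j _ => ih j) i) l

/-- Map with evaluation, in continuation style. -/
noncomputable def mapK (f : ℕ → ℕ) (l : List ℕ) : (List ℕ → Bool) → Bool :=
  List.rec (motive := fun _ => (List ℕ → Bool) → Bool) (fun k => k [])
    (fun x _ ih k => Nat.rec (motive := fun _ => Bool) true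
      (fun y _ => ih fun ys => k (y :: ys)) (Nat.succ (f x))) l

/-- Equality of lists. -/
noncomputable def eqL (l : List ℕ) : List ℕ → Bool :=
  List.rec (motive := fun _ => List ℕ → Bool)
    (fun l' => List.rec (motive := fun _ => Bool) true (fun _ _ _ => false) l')
    (fun x _ ih l' => List.rec (motive := fun _ => Bool) false
      (fun y ys _ => nd (Nat.beq x y) (ih ys)) l') l

/-- Right multiplication of a point by a unit. -/
def rmu (m Mt j w : ℕ) : ℕ :=
  Nat.add (Nat.sub j (Nat.mod j m)) (Nat.mod (Nat.shiftRight (Nat.mod (Nat.shiftRight Mt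
    (Nat.mul (nat_lit 1024) (Nat.mod j m))) big) (Nat.mul (nat_lit 8) w)) (nat_lit 256))

/-- Image of a point under a table. -/
noncomputable def app (m Mt T p : ℕ) : ℕ :=
  Nat.rec (motive := fun _ => ℕ) (nat_lit 0) (fun j _ =>
    Nat.add (Nat.sub j (Nat.mod j m)) (Nat.mod (Nat.shiftRight (Nat.mod (Nat.shiftRight Mt
      (Nat.mul (nat_lit 1024) (Nat.mod j m))) big) (Nat.mul (nat_lit 8) (Nat.mod p m)))
      (nat_lit 256)))
    (Nat.succ (Nat.mod (Nat.shiftRight T (Nat.mul (nat_lit 16) (Nat.div p m))) (nat_lit 65536)))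

/-- Table of a function. -/
noncomputable def mkT (m L : ℕ) (f : ℕ → ℕ) : ℕ :=
  Nat.rec (motive := fun _ => ℕ → ℕ) (fun a => a)
    (fun l ih a => frcN (Nat.add (Nat.mul a (nat_lit 65536)) (f (Nat.mul l m))) ih) L (nat_lit 0)

/-- Image of a point under a word. -/
noncomputable def apW (ap : ℕ → ℕ → ℕ) (w : List ℕ) : ℕ → ℕ :=
  List.rec (motive := fun _ => ℕ → ℕ) (fun p => p) (fun T _ ih p =>
    Nat.rec (motive := fun _ => ℕ) (nat_lit 0) (fun q _ => ih q) (Nat.succ (ap T p))) w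

/-- Decoding of a word written in base 64. -/
noncomputable def dcd (d : ℕ) (gs : List ℕ) (w : ℕ) (tl : List ℕ) (k : List ℕ → Bool) : Bool :=
  Nat.rec (motive := fun _ => ℕ → (List ℕ → Bool) → Bool) (fun _ _ => false)
    (fun _ ih w k => Bool.rec
      (frc (nth d gs (Nat.mod w 64)) fun T => frc (Nat.div w 64) fun w' => ih w' fun l => k (T :: l))
      (k tl) (Nat.beq w 1)) 40 w k

/-- Optional compression of a word. -/
noncomputable def cmpr (ap : ℕ → ℕ → ℕ) (mk : (ℕ → ℕ) → ℕ) (c : ℕ) (w : List ℕ)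
    (k : List ℕ → Bool) : Bool :=
  Bool.rec (frc (mk (apW ap w)) fun T => k [T]) (k w) (Nat.beq c 0)

/-- Tables defined by words in earlier tables. -/
noncomputable def slp (ap : ℕ → ℕ → ℕ) (mk : (ℕ → ℕ) → ℕ) (d : ℕ) (ws : List (ℕ × ℕ)) :
    List ℕ → Bool :=
  List.rec (motive := fun _ => List ℕ → Bool) (fun _ => true)
    (fun x _ ih gs => nd (dcd d gs x.2 [] fun w => Nat.beq (mk (apW ap w)) x.1) (ih (x.1 :: gs))) ws

/-- One level of a chain of subgroups. -/
structure Lev where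
  /-- position in the tuple -/
  i : ℕ
  /-- divisor giving the key -/
  dv : ℕ
  /-- key to position -/
  ix : ℕ
  /-- number of positions -/
  sz : ℕ
  /-- descending words -/
  dw : ℕ
  /-- ascending words -/
  uw : ℕ
  /-- generators -/
  gs : List ℕ

/-- One stage of sifting. -/
noncomputable def stage (ap : ℕ → ℕ → ℕ) (d : ℕ) (v : Lev) (t : List ℕ) (k : List ℕ → Bool) :
    Bool :=
  frc (ent v.ix 16 65536 (Nat.div (nth 0 t v.i) v.dv)) fun p => nd (Nat.blt p v.sz)
    (dcd d v.gs (ent v.dw 128 340282366920938463463374607431768211456 p) [] fun w =>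
      mapK (apW ap w) t k)

/-- Sifting. -/
noncomputable def sift (ap : ℕ → ℕ → ℕ) (d : ℕ) (bs : List ℕ) (ls : List Lev) : List ℕ → Bool :=
  List.rec (motive := fun _ => List ℕ → Bool) (fun t => eqL t bs)
    (fun v _ ih t => stage ap d v t ih) ls

/-- The cosets listed in a level are permuted by `S`. -/
noncomputable def cover (ap : ℕ → ℕ → ℕ) (d : ℕ) (bs S : List ℕ) (v : Lev) (ls : List Lev) :
    Bool :=
  nd (stage ap d v bs (sift ap d bs ls)) (allN v.sz fun p =>
    dcd d v.gs (ent v.uw 128 340282366920938463463374607431768211456 p) [] fun u =>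
      mapK (apW ap u) bs fun t =>
        nd (dcd d v.gs (ent v.dw 128 340282366920938463463374607431768211456 p) [] fun w =>
          mapK (apW ap w) t (sift ap d bs ls))
        (allL S fun s => mapK (ap s) t fun t' => stage ap d v t' (sift ap d bs ls)))

/-- Generators of the top group of a chain. -/
noncomputable def topG (ls : List Lev) : List ℕ :=
  List.rec (motive := fun _ => List ℕ) [] (fun v _ _ => v.gs) ls

/-- Inclusion of lists. -/
noncomputable def subL (A B : List ℕ) : Bool :=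
  allL A fun T => Bool.rec true false (allL B fun T' => Bool.rec true false (Nat.beq T T'))

/-- Verification of a chain. -/
noncomputable def chain (ap : ℕ → ℕ → ℕ) (d : ℕ) (bs : List ℕ) (ls : List Lev) : Bool :=
  List.rec (motive := fun _ => Bool) true (fun v ls ih =>
    nd (subL (topG ls) v.gs) (nd (cover ap d bs v.gs v ls) ih)) ls

/-- Certificate for the distribution of traces. -/
inductive Cert where
  | nil : Cert
  | leaf : ℕ → Cert
  | node : ℕ → ℕ → List ℕ → Cert → Cert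
  | br : ℕ → Cert → Cert → Cert

/-- Exploration of an orbit. -/
noncomputable def orb (K : List (ℕ → ℕ)) (f : ℕ) : List ℕ → ℕ → (ℕ → Bool) → Bool :=
  Nat.rec (motive := fun _ => List ℕ → ℕ → (ℕ → Bool) → Bool)
    (fun st s k => List.rec (motive := fun _ => Bool) (k s) (fun _ _ _ => false) st)
    (fun _ ih st s k => List.rec (motive := fun _ => Bool) false (fun p st _ =>
      List.rec (motive := fun _ => List ℕ → ℕ → Bool) (fun st s => ih st s k)
        (fun g _ ih2 st s => Nat.rec (motive := fun _ => Bool) true (fun q _ =>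
          Bool.rec (Nat.rec (motive := fun _ => Bool) true (fun s' _ => ih2 (q :: st) s')
              (Nat.succ (Nat.lor s (Nat.shiftLeft (nat_lit 1) q)))) (ih2 st s)
            (Nat.ble (nat_lit 1) (Nat.land s (Nat.shiftLeft (nat_lit 1) q)))) (Nat.succ (g p)))
        K st s) st) f

/-- Sums of the diagonal real parts. -/
noncomputable def trs (tr : ℕ → ℕ → ℕ) (t : List ℕ) : ℕ → ℕ → ℕ → ℕ × ℕ → Bool :=
  List.rec (motive := fun _ => ℕ → ℕ → ℕ → ℕ × ℕ → Bool)
    (fun _ a b c => nd (Nat.beq a c.1) (Nat.beq b c.2))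
    (fun p _ ih i a b c => Nat.rec (motive := fun _ => Bool) true (fun e _ =>
      ih (Nat.succ i) (Nat.add a (Nat.mod e (nat_lit 256))) (Nat.add b (Nat.div e (nat_lit 256))) c)
      (Nat.succ (tr i p))) t

/-- Traces of all powers. -/
noncomputable def sigc (tr : ℕ → ℕ → ℕ) (f : ℕ → ℕ) (bs : List ℕ) (σ : List (ℕ × ℕ)) :
    List ℕ → Bool :=
  List.rec (motive := fun _ => List ℕ → Bool) (fun t => eqL t bs)
    (fun c _ ih t => mapK f t fun t' => nd (trs tr t' (nat_lit 0) (nat_lit 0) (nat_lit 0) c) (ih t')) σ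

/-- Decoding of the conjugating elements of a node. -/
noncomputable def dcK (ap : ℕ → ℕ → ℕ) (mk : (ℕ → ℕ) → ℕ) (rm : ℕ → ℕ → ℕ) (iv : ℕ → ℕ)
    (m d : ℕ) (gs : List ℕ) (C : List (ℕ × ℕ)) (a c : ℕ) (ks : List ℕ) :
    (List (ℕ → ℕ) → Bool) → Bool :=
  List.rec (motive := fun _ => (List (ℕ → ℕ) → Bool) → Bool) (fun k => k [])
    (fun y _ ih k => dcd d gs y [] fun w0 => cmpr ap mk c w0 fun w =>
      nd (allL C fun e => frc (apW ap w e.1) fun a' => frc (iv a') fun u =>
        nd (Nat.blt u m) (nd (Nat.beq (rm a' u) e.1) (Nat.beq (rm (apW ap w e.2) u) e.2)))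
      (frc (apW ap w a) fun a' => frc (iv a') fun u => nd (Nat.blt u m) (nd (Nat.beq (rm a' u) a)
        (ih fun K => k ((fun b => frcN (apW ap w b) fun b' => rm b' u) :: K))))) ks

/-- Verification of a certificate. -/
noncomputable def chk (ap : ℕ → ℕ → ℕ) (mk : (ℕ → ℕ) → ℕ) (rm : ℕ → ℕ → ℕ) (iv : ℕ → ℕ)
    (tr : ℕ → ℕ → ℕ) (m M d : ℕ) (gs bs : List ℕ) (sg : List (List (ℕ × ℕ))) (c : Cert) :
    List (ℕ × ℕ) → List ℕ → ℕ → List (ℕ → ℕ) → ℕ → Bool :=
  Cert.rec (motive := fun _ => List (ℕ × ℕ) → List ℕ → ℕ → List (ℕ → ℕ) → ℕ → Bool)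
    (fun _ _ _ _ _ => true)
    (fun i C x _ _ s => nd (Nat.beq s 0) (nd (allL C fun e => Nat.beq (apW ap x e.1) e.2)
      (List.rec (motive := fun _ => Bool) false (fun c σ _ => sigc tr (apW ap x) bs (c :: σ) bs)
        (nth [] sg i))))
    (fun a c ks _ ih C x _ _ s => nd (Nat.beq s 0) (nd (Nat.blt a M)
      (dcK ap mk rm iv m d gs C a c ks fun K => ih C x a K (Nat.shiftLeft 1 M))))
    (fun e _ _ ih1 ih2 C x a K s => frc (Nat.mod e 65536) fun b => nd (Nat.blt b M)
      (nd (Nat.beq (Nat.mod (Nat.shiftRight s b) 2) 0)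
        (orb K (ent e 16 65536 1) [b] (Nat.lor s (Nat.shiftLeft 1 b)) fun s' =>
          nd (dcd d gs (Nat.shiftRight e 33) x fun x0 => cmpr ap mk (ent e 1 2 32) x0 fun x' =>
            ih1 ((a, b) :: C) x' 0 [] 0) (ih2 C x a K s')))) c

/-- Weighted histogram of the classes, in base `2 ^ 32`. -/
noncomputable def hist (c : Cert) : ℕ :=
  Cert.rec (motive := fun _ => ℕ) 0 (fun i => Nat.shiftLeft 1 (Nat.mul 32 i))
    (fun _ _ _ _ ih => ih)
    (fun e _ _ ih1 ih2 => Nat.add (Nat.mul (ent e 16 65536 1) ih1) ih2) c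

/-- The values of `h` below `n` are distinct. -/
noncomputable def dis (n : ℕ) (h : ℕ → ℕ) : ℕ → Bool :=
  Nat.rec (motive := fun _ => ℕ → Bool) (fun _ => true)
    (fun k ih s => frc (h k) fun q => nd (Nat.beq (Nat.mod (Nat.shiftRight s q) 2) 0)
      (frc (Nat.lor s (Nat.shiftLeft 1 q)) ih)) n

/-- The number `p0 - n0 + (p1 - n1) √D`. -/
structure R4 where
  /-- positive rational part -/
  p0 : ℕ
  /-- negative rational part -/
  n0 : ℕ
  /-- positive irrational part -/
  p1 : ℕ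
  /-- negative irrational part -/
  n1 : ℕ

/-- Product. -/
noncomputable def R4.mul (D : ℕ) (x y : R4) : R4 :=
  R4.rec (fun a b c d => R4.rec (fun e f g h =>
  ⟨Nat.add (Nat.add (Nat.mul a e) (Nat.mul b f)) (Nat.mul D (Nat.add (Nat.mul c g) (Nat.mul d h))),
   Nat.add (Nat.add (Nat.mul a f) (Nat.mul b e)) (Nat.mul D (Nat.add (Nat.mul c h) (Nat.mul d g))),
   Nat.add (Nat.add (Nat.mul a g) (Nat.mul b h)) (Nat.add (Nat.mul c e) (Nat.mul d f)),
   Nat.add (Nat.add (Nat.mul a h) (Nat.mul b g)) (Nat.add (Nat.mul c f) (Nat.mul d e))⟩) y) x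

/-- Sum. -/
noncomputable def R4.add (x y : R4) : R4 :=
  R4.rec (fun a b c d => R4.rec (fun e f g h =>
    ⟨Nat.add a e, Nat.add b f, Nat.add c g, Nat.add d h⟩) y) x

/-- Negative. -/
noncomputable def R4.neg (x : R4) : R4 := R4.rec (fun a b c d => ⟨b, a, d, c⟩) x

/-- Multiple. -/
noncomputable def R4.sm (k : ℕ) (x : R4) : R4 :=
  R4.rec (fun a b c d => ⟨Nat.mul k a, Nat.mul k b, Nat.mul k c, Nat.mul k d⟩) x

/-- Equality test. -/
noncomputable def R4.beq (x y : R4) : Bool :=
  R4.rec (fun a b c d => R4.rec (fun e f g h =>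
    nd (Nat.beq (Nat.add a f) (Nat.add b e)) (Nat.beq (Nat.add c h) (Nat.add d g))) y) x

/-- Normalisation and evaluation. -/
noncomputable def R4.frc (x : R4) (k : R4 → Bool) : Bool :=
  R4.rec (fun a b c d => Ck.frc (Nat.sub a b) fun a' => Ck.frc (Nat.sub b a)
    fun b' => Ck.frc (Nat.sub c d) fun c' => Ck.frc (Nat.sub d c) fun d' =>
      k ⟨a', b', c', d'⟩) x

/-- Quaternions over `R4`. -/
structure Q4 where
  /-- real part -/
  a : R4
  /-- `i` part -/
  b : R4
  /-- `j` part -/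
  c : R4
  /-- `k` part -/
  d : R4

/-- Product. -/
noncomputable def Q4.mul (D : ℕ) (x y : Q4) : Q4 :=
  Q4.rec (fun a b c d => Q4.rec (fun e f g h =>
  ⟨(R4.mul D a e).add (((R4.mul D b f).add (R4.mul D c g)).add (R4.mul D d h)).neg,
   (((R4.mul D a f).add (R4.mul D b e)).add (R4.mul D c h)).add (R4.mul D d g).neg,
   (((R4.mul D a g).add (R4.mul D c e)).add (R4.mul D d f)).add (R4.mul D b h).neg,
   (((R4.mul D a h).add (R4.mul D d e)).add (R4.mul D b g)).add (R4.mul D c f).neg⟩) y) x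

/-- Sum. -/
noncomputable def Q4.add (x y : Q4) : Q4 :=
  Q4.rec (fun a b c d => Q4.rec (fun e f g h => ⟨a.add e, b.add f, c.add g, d.add h⟩) y) x

/-- Conjugate. -/
noncomputable def Q4.cnj (x : Q4) : Q4 := Q4.rec (fun a b c d => ⟨a, b.neg, c.neg, d.neg⟩) x

/-- Multiple. -/
noncomputable def Q4.sm (k : ℕ) (x : Q4) : Q4 :=
  Q4.rec (fun a b c d => ⟨a.sm k, b.sm k, c.sm k, d.sm k⟩) x

/-- Real multiple. -/
noncomputable def Q4.rm (D : ℕ) (r : R4) (x : Q4) : Q4 :=
  Q4.rec (fun a b c d => ⟨R4.mul D r a, R4.mul D r b, R4.mul D r c, R4.mul D r d⟩) x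

/-- Equality test. -/
noncomputable def Q4.beq (x y : Q4) : Bool :=
  Q4.rec (fun a b c d => Q4.rec (fun e f g h =>
    nd (a.beq e) (nd (b.beq f) (nd (c.beq g) (d.beq h)))) y) x

/-- Normalisation and evaluation. -/
noncomputable def Q4.frc (x : Q4) (k : Q4 → Bool) : Bool :=
  Q4.rec (fun a b c d => a.frc fun a' => b.frc fun b' => c.frc fun c' => d.frc fun d' =>
    k ⟨a', b', c', d'⟩) x

/-- Zero. -/
def Q4.zero : Q4 := ⟨⟨0, 0, 0, 0⟩, ⟨0, 0, 0, 0⟩, ⟨0, 0, 0, 0⟩, ⟨0, 0, 0, 0⟩⟩

/-- Decoding of one component. -/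
def dR (x k : ℕ) : R4 :=
  ⟨Nat.mod (Nat.shiftRight x k) (nat_lit 256), nat_lit 128,
    Nat.mod (Nat.shiftRight x (Nat.add k (nat_lit 8))) (nat_lit 256), nat_lit 128⟩

/-- Decoding of a quaternion. -/
def dQ (x : ℕ) : Q4 := ⟨dR x (nat_lit 0), dR x (nat_lit 16), dR x (nat_lit 32), dR x (nat_lit 48)⟩

/-- A pair of integers. -/
def zR (x y : ℤ) : R4 := ⟨x.toNat, (-x).toNat, y.toNat, (-y).toNat⟩

/-- A quaternion given by integers. -/
def zQ (l : List ℤ) : Q4 := ⟨zR (l.getD 0 0) (l.getD 4 0), zR (l.getD 1 0) (l.getD 5 0),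
  zR (l.getD 2 0) (l.getD 6 0), zR (l.getD 3 0) (l.getD 7 0)⟩

/-- Sum over the numbers below `n`. -/
noncomputable def sumQ (n : ℕ) (f : ℕ → Q4) : Q4 :=
  Nat.rec (motive := fun _ => Q4) Q4.zero (fun k ih => (f k).add ih) n

/-- A finite system of vectors. -/
structure Sys where
  /-- rank -/
  n : ℕ
  /-- radicand -/
  D : ℕ
  /-- number of units -/
  m : ℕ
  /-- number of lines -/
  L : ℕ
  /-- number of orbits of coordinates -/
  S : ℕ
  /-- multiplication table of units -/
  Mt : ℕ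
  /-- coordinates -/
  EQ : ℕ
  /-- lines -/
  LT : ℕ
  /-- tree of units -/
  Pt : ℕ
  /-- generating units -/
  ug : List ℕ
  /-- first modulus -/
  P1 : ℕ
  /-- second modulus -/
  P2 : ℕ

/-- Code of a coordinate. -/
noncomputable def Sys.code (y : Sys) (j : ℕ) : ℕ :=
  Nat.rec (motive := fun _ => ℕ) (nat_lit 0) (fun j _ => Nat.mod (Nat.shiftRight (Nat.mod
    (Nat.shiftRight y.EQ (Nat.mul (nat_lit 1024) (Nat.div j (nat_lit 16)))) big)
    (Nat.mul (nat_lit 64) (Nat.mod j (nat_lit 16)))) (nat_lit 18446744073709551616)) (Nat.succ j)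

/-- Product of units. -/
def Sys.mu (y : Sys) (u w : ℕ) : ℕ := ent (ent y.Mt 1024 big u) 8 256 w

/-- Index of a coordinate of a line. -/
def Sys.cix (y : Sys) (l i : ℕ) : ℕ := 
  Nat.mod (Nat.shiftRight y.LT (Nat.mul (nat_lit 16) (Nat.add (Nat.mul l y.n) i))) (nat_lit 65536)

/-- Index of a coordinate of a point. -/
noncomputable def Sys.cd (y : Sys) (i p : ℕ) : ℕ :=
  rmu y.m y.Mt (y.cix (Nat.div p y.m) i) (Nat.mod p y.m)

/-- Real part of a coordinate of a point. -/
noncomputable def Sys.tr (y : Sys) (i p : ℕ) : ℕ := Nat.mod (y.code (y.cd i p)) (nat_lit 65536)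

/-- The first nonzero coordinate is a representative. -/
noncomputable def Sys.can (y : Sys) (l : ℕ) : Bool :=
  Nat.rec (motive := fun _ => Bool) false
    (fun i ih => Bool.rec (Nat.beq (Nat.mod (y.cix l i) y.m) 0) ih (Nat.blt (y.cix l i) y.m)) y.n

/-- Code of a line. -/
noncomputable def Sys.lc (y : Sys) (l : ℕ) : ℕ :=
  Nat.rec (motive := fun _ => ℕ) 0
    (fun i ih => Nat.add (Nat.mul ih 65536) (max (y.cix l i) (Nat.pred y.m))) y.n

/-- Verification of a system; the common denominator is eight. -/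
noncomputable def Sys.ok (y : Sys) : Bool :=
  nd (Nat.blt 0 y.m) <| nd (Nat.blt 1 y.S) <| nd (Nat.ble y.n y.L) <|
  nd (Nat.ble (Nat.mul y.L y.m) 65536) <|
  nd (Nat.beq (y.code 0) 0x8080808080808080) <| nd (Nat.beq (y.code y.m) 0x8080808080808088) <|
  nd (allN y.m fun b => Nat.beq (y.mu 0 b) b) <|
  nd (allL y.ug fun g => nd (Nat.blt g y.m) <| frc (y.code (Nat.add y.m g)) fun x =>
    allN y.m fun b => nd (Nat.blt (y.mu g b) y.m) <| frc (y.code (Nat.add y.m b)) fun z =>
      frc (y.code (Nat.add y.m (y.mu g b))) fun w =>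
        ((dQ w).sm 8).beq (Q4.mul y.D (dQ x) (dQ z))) <|
  nd (allN (Nat.pred y.m) fun a => frc (ent y.Pt 8 256 (Nat.mul 2 a)) fun a' =>
    frc (nth 0 y.ug (ent y.Pt 8 256 (Nat.add (Nat.mul 2 a) 1))) fun g =>
      nd (Nat.ble a' a) <| nd (Nat.beq (y.mu g a') (Nat.add a 1)) <|
        allN y.m fun b => Nat.beq (y.mu (Nat.add a 1) b) (y.mu g (y.mu a' b))) <|
  nd (allN y.S fun s => frc (y.code (Nat.mul s y.m)) fun x =>
    allN y.m fun b => frc (y.code (Nat.add y.m b)) fun z =>
      frc (y.code (Nat.add (Nat.mul s y.m) b)) fun w =>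
        ((dQ w).sm 8).beq (Q4.mul y.D (dQ x) (dQ z))) <|
  nd (dis (Nat.add (Nat.mul (Nat.pred y.S) y.m) 1)
    (fun k => Nat.mod (y.code (Nat.add k (Nat.pred y.m))) y.P1) 0) <|
  nd (allN y.n fun i => allN y.n fun k =>
    Nat.beq (y.cix i k) (Bool.rec 0 y.m (Nat.beq i k))) <|
  nd (allN y.L fun l => nd (y.can l)
    (allN y.n fun i => Nat.blt (y.cix l i) (Nat.mul y.S y.m))) <|
  dis y.L (fun l => Nat.mod (y.lc l) y.P2) 0

/-- Evaluation of a list of quaternions. -/
noncomputable def frcQ (l : List Q4) : (List Q4 → Bool) → Bool :=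
  List.rec (motive := fun _ => (List Q4 → Bool) → Bool) (fun k => k [])
    (fun x _ ih k => x.frc fun y => ih fun ys => k (y :: ys)) l

/-- The table `T` describes the reflection with root `a` and value `x / 2`. -/
noncomputable def Sys.rok (y : Sys) (x : List ℤ) (a : List (List ℤ)) (T : ℕ) : Bool :=
  frcQ ((List.range y.n).map fun i => zQ (a.getD i [])) fun A =>
  frcQ (A.map fun z => Q4.mul y.D ((zQ [-2]).add (zQ x)) z.cnj) fun B =>
  (sumQ y.n fun i => Q4.mul y.D (nth Q4.zero A i).cnj (nth Q4.zero A i)).a.frc fun N =>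
  nd (Bool.rec true false (N.beq ⟨0, 0, 0, 0⟩)) <|
  nd ((Q4.mul y.D (zQ x).cnj (zQ x)).a.beq ⟨4, 0, 0, 0⟩) <|
  allN y.L fun l => frc (ent T 16 65536 l) fun e => nd (Nat.blt e (Nat.mul y.L y.m)) <|
    (sumQ y.n fun i => Q4.mul y.D (nth Q4.zero B i) (dQ (y.code (y.cix l i)))).frc fun κ =>
      allN y.n fun i => (Q4.rm y.D (N.sm 2) (dQ (y.code (y.cd i e)))).beq
        ((Q4.rm y.D (N.sm 2) (dQ (y.code (y.cix l i)))).add (Q4.mul y.D (nth Q4.zero A i) κ))

/-- Image of a point. -/
noncomputable def Sys.ap (y : Sys) : ℕ → ℕ → ℕ := app y.m y.Mt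

/-- The standard basis. -/
def Sys.bs (y : Sys) : List ℕ := (List.range y.n).map fun i => Nat.mul i y.m

/-- Evaluation of a list. -/
noncomputable def frcR (l : List R4) : (List R4 → Bool) → Bool :=
  List.rec (motive := fun _ => (List R4 → Bool) → Bool) (fun k => k [])
    (fun x _ ih k => x.frc fun y => ih fun ys => k (y :: ys)) l

/-- Dot product. -/
noncomputable def dot (D : ℕ) (G : List R4) : List R4 → R4 :=
  List.rec (motive := fun _ => List R4 → R4) (fun _ => ⟨0, 0, 0, 0⟩)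
    (fun g _ ih A => List.rec (motive := fun _ => R4) ⟨0, 0, 0, 0⟩
      (fun a A' _ => (R4.mul D a g).add (ih A')) A) G

/-- Division of all components. -/
noncomputable def R4.dv (k : ℕ) (x : R4) : R4 :=
  R4.rec (fun a b c d => ⟨Nat.div a k, Nat.div b k, Nat.div c k, Nat.div d k⟩) x

/-- Newton recursion. -/
noncomputable def newt (D : ℕ) (A : List R4) (k : List R4 → Bool) (K : ℕ) : ℕ → List R4 → Bool :=
  Nat.rec (motive := fun _ => ℕ → List R4 → Bool) (fun _ G => k G)
    (fun _ ih d G => (dot D G A).frc fun z => (z.dv d).frc fun w =>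
      nd ((w.sm d).beq z) (frc (Nat.add d 4) fun d' => ih d' (w :: G))) K

/-- A power sum, multiplied by four. -/
noncomputable def psum (n : ℕ) (σ : List (ℕ × ℕ)) (k : ℕ) : R4 :=
  Prod.rec (fun a b => ⟨a, Nat.mul 128 n, b, Nat.mul 128 n⟩) (nth (0, 0) σ (Nat.mod k σ.length))

/-- Linear combination of lists. -/
noncomputable def axp (c : ℕ) (G : List R4) : List R4 → List R4 :=
  List.rec (motive := fun _ => List R4 → List R4) (fun _ => [])
    (fun g _ ih A => List.rec (motive := fun _ => List R4) []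
      (fun a A' _ => (a.add (g.sm c)) :: ih A') A) G

/-- Equality of lists. -/
noncomputable def eqR (G : List R4) : List R4 → Bool :=
  List.rec (motive := fun _ => List R4 → Bool)
    (fun A => List.rec (motive := fun _ => Bool) true (fun _ _ _ => false) A)
    (fun g _ ih A => List.rec (motive := fun _ => Bool) false
      (fun a A' _ => nd (g.beq a) (ih A')) A) G

/-- The list `[F (K - 1), ..., F 0]`. -/
noncomputable def dn {α : Type} (F : ℕ → α) (K : ℕ) : List α :=
  Nat.rec (motive := fun _ => List α) [] (fun k ih => F k :: ih) K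

/-- Weighted sums of the complete symmetric functions of degree at most `K`. -/
noncomputable def molc (D n K : ℕ) (R : List R4) (cs : List ℕ) :
    List (List (ℕ × ℕ)) → List R4 → Bool :=
  List.rec (motive := fun _ => List (List (ℕ × ℕ)) → List R4 → Bool) (fun _ A => eqR A R)
    (fun c _ ih sg A => List.rec (motive := fun _ => Bool) false (fun σ sg' _ =>
      frcR ((List.range K).map (psum n σ)) fun P =>
        newt D P (fun G => frcR (axp c G A) (ih sg')) K 4 [⟨2, 0, 0, 0⟩]) sg) cs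

/-- Verification of the first terms of a Molien series. -/
noncomputable def molk (D n K o : ℕ) (rs cs : List ℕ) (sg : List (List (ℕ × ℕ))) : Bool :=
  molc D n K (dn (fun d => ⟨Nat.mul (Nat.mul 2 o) (nth 0 rs d), 0, 0, 0⟩) (Nat.succ K)) cs sg
    (dn (fun _ => ⟨0, 0, 0, 0⟩) (Nat.succ K))

/-- Necessary condition for a reflection. -/
noncomputable def flg (D n : ℕ) (σ : List (ℕ × ℕ)) : ℕ :=
  Bool.rec (Bool.rec 0 1
    ((R4.mul D ((psum n σ 0).add ⟨8, Nat.mul 8 n, 0, 0⟩) ((psum n σ 0).add ⟨8, Nat.mul 8 n, 0, 0⟩)).beq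
      (((psum n σ 1).sm 4).add ⟨64, Nat.mul 32 n, 0, 0⟩))) 0 (Nat.beq σ.length 1)

/-- Weighted sum. -/
noncomputable def wsN (cs : List ℕ) : (ℕ → ℕ) → ℕ :=
  List.rec (motive := fun _ => (ℕ → ℕ) → ℕ) (fun _ => 0)
    (fun c _ ih ψ => Nat.add (Nat.mul c (ψ 0)) (ih fun i => ψ (Nat.succ i))) cs

/-- Sum over the numbers below `n`. -/
noncomputable def sumN (n : ℕ) (f : ℕ → ℕ) : ℕ :=
  Nat.rec (motive := fun _ => ℕ) 0 (fun k ih => Nat.add ih (f k)) n

/-- Difference with a shifted copy. -/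
noncomputable def dlt (d : ℕ) (l : List ℕ) (k : ℕ) : ℕ :=
  Nat.sub (nth 0 l k) (Bool.rec 0 (nth 0 l (Nat.sub k d)) (Nat.ble d k))

/-- All data of a group. -/
structure Dat where
  /-- system -/
  y : Sys
  /-- roots with tables -/
  rt : List ((List ℤ × List (List ℤ)) × ℕ)
  /-- identity table -/
  t0 : ℕ
  /-- further tables -/
  sl : List (ℕ × ℕ)
  /-- top level -/
  v0 : Lev
  /-- other levels -/
  ls : List Lev
  /-- inverses of units -/
  iv : ℕ
  /-- signatures -/
  sg : List (List (ℕ × ℕ))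
  /-- certificate -/
  ce : Cert
  /-- class sizes -/
  cs : List ℕ
  /-- order -/
  o : ℕ
  /-- degree bound -/
  K : ℕ
  /-- Molien series -/
  rs : List ℕ
  /-- Hilbert series of the polynomial ring -/
  ss : List ℕ
  /-- the number `g` -/
  g : ℕ

/-- Tables of the generators. -/
def Dat.og (z : Dat) : List ℕ := (z.rt.map Prod.snd).reverse

/-- Small checks. -/
noncomputable def Dat.c0 (z : Dat) : Bool :=
  nd (Nat.beq z.t0 (mkT z.y.m z.y.L fun p => p)) <|
  nd (subL z.v0.gs (z.sl.map Prod.fst ++ z.og)) <| nd (subL (topG z.ls) z.v0.gs) <|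
  nd (Nat.beq (z.ls.foldr (fun v a => Nat.mul v.sz a) z.v0.sz) z.o) <|
  nd (Nat.blt z.o 4294967296) <| nd (Nat.beq (wsN z.cs fun _ => 1) z.o) <|
  nd (Nat.beq (hist z.ce) (z.cs.foldr (fun c a => Nat.add c (Nat.mul 4294967296 a)) 0)) <|
  nd (Nat.ble (Nat.mul 2 (wsN z.cs fun i => flg z.y.D z.y.n (nth [] z.sg i))) (Nat.mul z.y.n z.g)) <|
  nd (Nat.blt 0 z.y.n) <|
  molk z.y.D z.y.n z.K 1 z.ss [1] [[(Nat.mul 136 z.y.n, Nat.mul 128 z.y.n)]]

/-- Check of the extra tables. -/
noncomputable def Dat.c2 (z : Dat) : Bool := slp z.y.ap (mkT z.y.m z.y.L) z.t0 z.sl z.og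

/-- Check of the chain. -/
noncomputable def Dat.c3 (z : Dat) : Bool := chain z.y.ap z.t0 z.y.bs z.ls

/-- Check of the top level. -/
noncomputable def Dat.c4 (z : Dat) : Bool := cover z.y.ap z.t0 z.y.bs z.og z.v0 z.ls

/-- Check of the certificate. -/
noncomputable def Dat.c5 (z : Dat) : Bool :=
  chk z.y.ap (mkT z.y.m z.y.L) (rmu z.y.m z.y.Mt) (fun p => ent z.iv 8 256 (Nat.mod p z.y.m))
    z.y.tr z.y.m (Nat.mul z.y.L z.y.m) z.t0 z.v0.gs z.y.bs z.sg z.ce [] [] 0 [] 0

/-- Check of the Molien series. -/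
noncomputable def Dat.c6 (z : Dat) : Bool := molk z.y.D z.y.n z.K z.o z.rs z.cs z.sg

/-- The final inequality. -/
noncomputable def Dat.c7 (z : Dat) (d : ℕ) : Bool :=
  nd (Nat.ble d z.K) <| nd (Nat.blt 0 (nth 0 z.rs d)) <|
  Nat.ble (Nat.add (Nat.pow (Nat.succ z.g) z.y.n) (sumN (Nat.succ z.K) fun k => sumN k fun i =>
    Nat.mul (dlt d z.rs (Nat.sub k i)) (dlt d z.ss i))) (sumN (Nat.succ z.K) (dlt d z.ss))

end Pool.Agent.P.MP_97ea17_al.Ck
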