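import Mathlib
import Pool.Agent.P.MP_97ea17_al.Chk

/-! Basic properties of the checkers. -/

namespace Pool.Agent.P.MP_97ea17_al.Ck

@[simp] theorem frc_eq (n : ℕ) (k : ℕ → Bool) : frc n k = k n := by rfl

@[simp] theorem frcN_eq (n : ℕ) (k : ℕ → ℕ) : frcN n k = k n := by rfl

@[simp] theorem nd_iff (a b : Bool) : nd a b = true ↔ a = true ∧ b = true := by
  cases a <;> simp [nd]

theorem rec_iff (a b : Bool) :
    (Bool.rec false b a : Bool) = true ↔ a = true ∧ b = true := nd_iff a b

theorem not_iff (a : Bool) : (Bool.rec true false a : Bool) = true ↔ a = false := by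
  cases a <;> simp

@[simp] theorem allN_iff (n : ℕ) (f : ℕ → Bool) : allN n f = true ↔ ∀ i < n, f i = true := by
  induction n with
  | zero => simp [allN]
  | succ n ih =>
    change nd (f n) (allN n f) = true ↔ _
    rw [nd_iff, ih, Nat.forall_lt_succ_right, and_comm]

@[simp] theorem allL_iff {α : Type} (l : List α) (f : α → Bool) :
    allL l f = true ↔ ∀ x ∈ l, f x = true := by
  induction l with
  | nil => simp [allL]
  | cons x l ih =>
    change nd (f x) (allL l f) = true ↔ _
    rw [nd_iff, ih, List.forall_mem_cons]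

theorem nth_eq {α : Type} (d : α) (l : List α) (i : ℕ) : nth d l i = l.getD i d := by
  induction l generalizing i with
  | nil => rfl
  | cons x l ih =>
    cases i with
    | zero => rfl
    | succ i => exact ih i

theorem nth_mem {α : Type} (d : α) (l : List α) (i : ℕ) : nth d l i ∈ d :: l := by
  induction l generalizing i with
  | nil => exact List.mem_cons_self
  | cons x l ih =>
    cases i with
    | zero => exact List.mem_cons_of_mem _ List.mem_cons_self
    | succ i =>
      rcases List.mem_cons.1 (ih i) with h | h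
      · exact List.mem_cons.2 (Or.inl h)
      · exact List.mem_cons_of_mem _ (List.mem_cons_of_mem _ h)

@[simp] theorem mapK_eq (f : ℕ → ℕ) (l : List ℕ) (k : List ℕ → Bool) :
    mapK f l k = k (l.map f) := by
  induction l generalizing k with
  | nil => rfl
  | cons x l ih => exact ih fun ys => k (f x :: ys)

@[simp] theorem eqL_iff (l l' : List ℕ) : eqL l l' = true ↔ l = l' := by
  induction l generalizing l' with
  | nil => cases l' <;> simp [eqL]
  | cons x l ih =>
    cases l' with
    | nil => simp [eqL]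
    | cons y l' =>
      change nd (Nat.beq x y) (eqL l l') = true ↔ _
      simp [ih]

theorem subL_iff {A B : List ℕ} (h : subL A B = true) : A ⊆ B := by
  intro T hT
  by_contra hB
  have := (not_iff _).1 ((allL_iff _ _).1 h T hT)
  rw [← Bool.not_eq_true, allL_iff] at this
  refine this fun T' hT' => (not_iff _).2 ?_
  rw [← Bool.not_eq_true, Nat.beq_eq]
  rintro rfl
  exact hB hT'

theorem apW_nil (ap : ℕ → ℕ → ℕ) : apW ap [] = fun p => p := rfl

theorem apW_cons (ap : ℕ → ℕ → ℕ) (T : ℕ) (w : List ℕ) :
    apW ap (T :: w) = fun p => apW ap w (ap T p) := rfl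

theorem apW_append (ap : ℕ → ℕ → ℕ) (w w' : List ℕ) (p : ℕ) :
    apW ap (w ++ w') p = apW ap w' (apW ap w p) := by
  induction w generalizing p with
  | nil => rfl
  | cons T w ih => exact ih _

/-- The decoded word. -/
noncomputable def dec (d : ℕ) (gs : List ℕ) : ℕ → ℕ → List ℕ
  | 0, _ => []
  | f + 1, w => if w = 1 then [] else nth d gs (w % 64) :: dec d gs f (w / 64)

theorem dec_sub (d : ℕ) (gs : List ℕ) (f w : ℕ) : dec d gs f w ⊆ d :: gs := by
  induction f generalizing w with
  | zero => simp [dec]
  | succ f ih =>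
    rw [dec]
    split_ifs
    · simp
    · exact List.cons_subset.2 ⟨nth_mem _ _ _, ih _⟩

theorem dcd_spec {d : ℕ} {gs : List ℕ} {w : ℕ} {tl : List ℕ} {k : List ℕ → Bool}
    (h : dcd d gs w tl k = true) : k (dec d gs 40 w ++ tl) = true := by
  unfold dcd at h
  generalize 40 = f at h ⊢
  induction f generalizing w k with
  | zero => exact absurd h (by simp)
  | succ f ih =>
    rw [dec]
    by_cases hw : w = 1
    · subst hw
      exact h
    · have : Nat.beq w 1 = false := by rw [← Bool.not_eq_true, Nat.beq_eq]; exact hw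
      simp only [this] at h
      rw [if_neg hw]
      exact ih h

theorem cmpr_spec {ap : ℕ → ℕ → ℕ} {mk : (ℕ → ℕ) → ℕ} {c : ℕ} {w : List ℕ}
    {k : List ℕ → Bool} (h : cmpr ap mk c w k = true) :
    k w = true ∨ k [mk (apW ap w)] = true := by
  unfold cmpr at h
  cases hc : Nat.beq c 0 <;> rw [hc] at h
  · exact Or.inr h
  · exact Or.inl h

theorem bit_zero {s b : ℕ} (h : Nat.beq (Nat.mod (Nat.shiftRight s b) 2) 0 = true) :
    s.testBit b = false := by
  rw [Nat.beq_eq] at h
  rw [Nat.testBit_eq_decide_div_mod_eq, ← Nat.shiftRight_eq_div_pow]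
  have : s >>> b % 2 = 0 := h
  simp [this]

theorem bit_or (s q p : ℕ) :
    (Nat.lor s (Nat.shiftLeft 1 q)).testBit p = (s.testBit p || decide (q = p)) := by
  change (s ||| 1 <<< q).testBit p = _
  rw [Nat.testBit_or, Nat.one_shiftLeft, Nat.testBit_two_pow]

theorem dis_spec {n : ℕ} {h : ℕ → ℕ} {s : ℕ} (H : dis n h s = true) :
    (∀ i < n, s.testBit (h i) = false) ∧ ∀ i < n, ∀ j < n, h i = h j → i = j := by
  induction n generalizing s with
  | zero => simp
  | succ n ih =>
    obtain ⟨h1, h2⟩ := (nd_iff _ _).1 H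
    obtain ⟨h3, h4⟩ := ih h2
    have h5 := bit_zero h1
    simp only [bit_or, Bool.or_eq_false_iff, decide_eq_false_iff_not] at h3
    refine ⟨fun i hi => ?_, fun i hi j hj e => ?_⟩
    · rcases Nat.lt_succ_iff_lt_or_eq.1 hi with hi | rfl
      · exact (h3 i hi).1
      · exact h5
    · rcases Nat.lt_succ_iff_lt_or_eq.1 hi with hi | rfl <;>
        rcases Nat.lt_succ_iff_lt_or_eq.1 hj with hj | rfl
      · exact h4 i hi j hj e
      · exact absurd e.symm (h3 i hi).2
      · exact absurd e (h3 j hj).2
      · rfl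

theorem ent_mkT (m L : ℕ) (f : ℕ → ℕ) (hf : ∀ l < L, f (l * m) < 65536) :
    ∀ l < L, ent (mkT m L f) 16 65536 l = f (l * m) := by
  have key : ∀ a, (∀ l < L, (Nat.rec (motive := fun _ => ℕ → ℕ) (fun a => a)
      (fun l ih a => frcN (Nat.add (Nat.mul a (nat_lit 65536)) (f (Nat.mul l m))) ih) L a) /
        65536 ^ l % 65536 = f (l * m)) ∧
      (Nat.rec (motive := fun _ => ℕ → ℕ) (fun a => a)
      (fun l ih a => frcN (Nat.add (Nat.mul a (nat_lit 65536)) (f (Nat.mul l m))) ih) L a) /
        65536 ^ L = a := by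
    induction L with
    | zero => simp
    | succ L ih =>
      intro a
      obtain ⟨h1, h2⟩ := ih (fun l hl => hf l (by omega)) (a * 65536 + f (L * m))
      have h3 := hf L (by omega)
      refine ⟨fun l hl => ?_, ?_⟩
      · rcases Nat.lt_succ_iff_lt_or_eq.1 hl with hl | rfl
        · exact h1 l hl
        · refine (congrArg (· % 65536) h2).trans ?_
          omega
      · rw [pow_succ, ← Nat.div_div_eq_div_mul]
        refine (congrArg (· / 65536) h2).trans ?_
        omega
  intro l hl
  rw [← (key 0).1 l hl]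
  change (mkT m L f >>> (16 * l)) % 65536 = _
  rw [Nat.shiftRight_eq_div_pow, pow_mul]
  rfl

theorem app_eq (m Mt T p : ℕ) : app m Mt T p = rmu m Mt (ent T 16 65536 (p / m)) (p % m) := rfl

/-- Weighted sum. -/
def wsum {β : Type} [AddCommMonoid β] : List ℕ → (ℕ → β) → β
  | [], _ => 0
  | c :: cs, ψ => c • ψ 0 + wsum cs fun i => ψ (i + 1)

theorem wsN_eq (cs : List ℕ) (ψ : ℕ → ℕ) : wsN cs ψ = wsum cs ψ := by
  induction cs generalizing ψ with
  | nil => rfl
  | cons c cs ih => exact congrArg (c * ψ 0 + ·) (ih _)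

theorem sumN_eq (n : ℕ) (f : ℕ → ℕ) : sumN n f = ∑ i ∈ Finset.range n, f i := by
  induction n with
  | zero => rfl
  | succ n ih => rw [Finset.sum_range_succ, ← ih]; rfl

theorem split_zero {β : Type} [AddCommMonoid β] (I : List ℕ) (ψ : ℕ → β) :
    (I.map ψ).sum = I.count 0 • ψ 0 +
      ((I.filterMap Nat.ppred).map fun i => ψ (i + 1)).sum := by
  induction I with
  | nil => simp
  | cons i I ih =>
    cases i with
    | zero => simp [ih, add_smul, add_assoc, add_left_comm]
    | succ i => simp [ih, add_left_comm]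

theorem le_wsum_one (cs : List ℕ) : ∀ c ∈ cs, c ≤ wsum cs fun _ => 1 := by
  induction cs with
  | nil => simp
  | cons a cs ih =>
    intro c hc
    rw [wsum]
    rcases List.mem_cons.1 hc with rfl | hc
    · simp
    · exact (ih c hc).trans (Nat.le_add_left _ _)

theorem digits (B : ℕ) (cs : List ℕ) (hcs : ∀ c ∈ cs, c < B) (I : List ℕ) (hI : I.length < B)
    (h : (I.map (B ^ ·)).sum = cs.foldr (fun c a => Nat.add c (Nat.mul B a)) 0)
    {β : Type} [AddCommMonoid β] (ψ : ℕ → β) : (I.map ψ).sum = wsum cs ψ := by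
  induction cs generalizing I ψ with
  | nil =>
    cases I with
    | nil => rfl
    | cons i I =>
      have : 0 < B ^ i := pow_pos (by omega) _
      simp only [List.map_cons, List.sum_cons, List.foldr_nil] at h
      omega
  | cons c cs ih =>
    rw [split_zero] at h ⊢
    have h1 : I.count 0 < B := List.count_le_length.trans_lt hI
    have h2 := hcs c List.mem_cons_self
    simp only [pow_succ', List.sum_map_mul_left, pow_zero, smul_eq_mul, mul_one,
      List.foldr_cons, Nat.add_eq, Nat.mul_eq] at h
    have h3 : I.count 0 = c := by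
      have := congrArg (· % B) h
      simpa [Nat.mod_eq_of_lt h1, Nat.mod_eq_of_lt h2] using this
    rw [h3] at h ⊢
    rw [wsum, ih (fun c hc => hcs c (List.mem_cons_of_mem _ hc)) _
      ((List.length_filterMap_le _ _).trans_lt hI)
      (Nat.eq_of_mul_eq_mul_left (by omega) (Nat.add_left_cancel h))]

end Pool.Agent.P.MP_97ea17_al.Ck
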