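import Pool.Agent.P.MP_97ea17_al.Chk

/-! Data and kernel checks for one group. -/

namespace Pool.Agent.P.MP_97ea17_al.Ck.DS2

open Cert
set_option maxRecDepth 100000
set_option exponentiation.threshold 100000
set_option linter.all false

def Mt : ℕ := nat_lit 0x3010c0207000f150a0d050b100608141611040e12091317000000000000000000000000000000000000000000000000000000000000000000000000000000000000000000000000000000000000000000000000000000000000000000000000000000000000000000000000000000000000000000000000000000000000000007030f050001100a0b140811060c0e0412150902130d171600000000000000000000000000000000000000000000000000000000000000000000000000000000000000000000000000000000000000000000000000000000000000000000000000000000000000000000000000000000000000000000000000000000000000000f0a14001106080e0407120509020313100d01170b160c15000000000000000000000000000000000000000000000000000000000000000000000000000000000000000000000000000000000000000000000000000000000000000000000000000000000000000000000000000000000000000000000000000000000000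000004020015080d13071710060103160b110e120c0f090a051400000000000000000000000000000000000000000000000000000000000000000000000000000000000000000000000000000000000000000000000000000000000000000000000000000000000000000000000000000000000000000000000000000000000000000100060e03070c111509020a0f10050d170b1408160412130000000000000000000000000000000000000000000000000000000000000000000000000000000000000000000000000000000000000000000000000000000000000000000000000000000000000000000000000000000000000000000000000000000000000000000710080103060b11040e150c0f0209130a0d051714161200000000000000000000000000000000000000000000000000000000000000000000000000000000000000000000000000000000000000000000000000000000000000000000000000000000000000000000000000000000000000000000000000000000000000000c150d070b10050814031602040e01120f0900130a170611000000000000000000000000000000000000000000000000000000000000000000000000000000000000000000000000000000000000000000000000000000000000000000000000000000000000000000000000000000000000000000000000000000000000000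0110f0812060a09040513030d021417010b0e16000c07151000000000000000000000000000000000000000000000000000000000000000000000000000000000000000000000000000000000000000000000000000000000000000000000000000000000000000000000000000000000000000000000000000000000000000000b0c051610150414021201090e0d13000a0817070603110f0000000000000000000000000000000000000000000000000000000000000000000000000000000000000000000000000000000000000000000000000000000000000000000000000000000000000000000000000000000000000000000000000000000000000000080413060d02031701110b1216000f0c09070a150510140e0000000000000000000000000000000000000000000000000000000000000000000000000000000000000000000000000000000000000000000000000000000000000000000000000000000000000000000000000000000000000000000000000000000000000000140e071105091203130f100001170a0b0816060c0415020d00000000000000000000000000000000000000000000000000000000000000000000000000000000000000000000000000000000000000000000000000000000000000000000000000000000000000000000000000000000000000000000000000000000000000000a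0602170f11140d0e160004080912071505130310010b0c0000000000000000000000000000000000000000000000000000000000000000000000000000000000000000000000000000000000000000000000000000000000000000000000000000000000000000000000000000000000000000000000000000000000000000061109030a0f02050d01170e140800160c0407121513100b0000000000000000000000000000000000000000000000000000000000000000000000000000000000000000000000000000000000000000000000000000000000000000000000000000000000000000000000000000000000000000000000000000000000000000100b0401150c0e02090013080d0507170614031611120f0a00000000000000000000000000000000000000000000000000000000000000000000000000000000000000000000000000000000000000000000000000000000000000000000000000000000000000000000000000000000000000000000000000000000000000000d08030b02041601120c0f070013150a0517100614110e09000000000000000000000000000000000000000000000000000000000000000000000000000000000000000000000000000000000000000000000000000000000000000000000000000000000000000000000000000000000000000000000000000000000000000005141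210090e0113000b0a1617070c0604031511020f0d0800000000000000000000000000000000000000000000000000000000000000000000000000000000000000000000000000000000000000000000000000000000000000000000000000000000000000000000000000000000000000000000000000000000000000001317110d12160b0f0c0809060a15040503100214010e0007000000000000000000000000000000000000000000000000000000000000000000000000000000000000000000000000000000000000000000000000000000000000000000000000000000000000000000000000000000000000000000000000000000000000000015100e130c0b0d090817071405041603110212010f000a060000000000000000000000000000000000000000000000000000000000000000000000000000000000000000000000000000000000000000000000000000000000000000000000000000000000000000000000000000000000000000000000000000000000000000020d160f04080012070a1517130306101401110b0e0c090500000000000000000000000000000000000000000000000000000000000000000000000000000000000000000000000000000000000000000000000000000000000000000000000000000000000000000000000000000000000000000000000000000000000000000905010a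0e14170016060c030712111502130f100d0b0804000000000000000000000000000000000000000000000000000000000000000000000000000000000000000000000000000000000000000000000000000000000000000000000000000000000000000000000000000000000000000000000000000000000000000012130b0916170a0c0605041015111402010f0e0d0008070300000000000000000000000000000000000000000000000000000000000000000000000000000000000000000000000000000000000000000000000000000000000000000000000000000000000000000000000000000000000000000000000000000000000000000e09170c14050716031511131201100f0d000b0a08060402000000000000000000000000000000000000000000000000000000000000000000000000000000000000000000000000000000000000000000000000000000000000000000000000000000000000000000000000000000000000000000000000000000000000000016120a04171315061002140f110b0d0e000c080907050301000000000000000000000000000000000000000000000000000000000000000000000000000000000000000000000000000000000000000000000000000000000000000000000000000000000000000000000000000000000000000000000000000000000000000017161514131211100f0e0d0c0b0a09080706050403020100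
def EQ : ℕ := nat_lit 0x807c8080808080848084808080808084808080848080807c8080808080848084807c80808080807c808480808080807c8084808080848080807c8080808480808080807c8080807c8084807c80808080807c807c8080808080848080807c80808080807c80808084807c8080807c808080808080807c807c80808080807c808480808084807c80808080808480808084807c80848080808080848084808080808080808480848080808080808084807c8080807c808480808080807c807c8080808080848080808080808080808480808082807e807e807e807e80828082807e80808080807c80808080807c80808080807e807e8082807e807e8082807e807e807e807e807e8082807e807e80828082807e8082807e80828082807e80828082807e80828082808280828082807e80828082807e807e808280828082808280828084808080808080808280828082807e80828082807e807e8082807e8082807e808080808080807c807e807e807e807e807c8080808080808080808080808084808080888080808080808080808880808084807c807c807c807c80848084807c80808080807880808080807880808080807c807c8084807c807c8084807c807c807c807c807c8084807c807c80848084807c8084807c80848084807c80848084807c80848084808480848084807c80848084807c80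7c808480848084808480848088808080808080808480848084807c80848084807c807c8084807c8084807c8080808080808078807c807c807c807c80788080808080808080808080808088808080808080808080808080808080808080808080808080808080808080808080808080808080808080808080808080808080808080808080808080808080808080808080808080808080808080808080808080808080808080808080808080808080808080808080808080808080808080808080808080808080808080808080808080808080808080808080808080808080808080808080808080808080808080808080808080808080808080808080808080808080808080808080808080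
def LT : ℕ := nat_lit 0x480000004800480048000000000048004b0000000000480000004800000048000000000048000000480000004b004800000000004b000000000048004b00000048004b0000000000000048004800480000004b00000000004800480000003000370047004600300037004300420030003100420043003000460037004700300046003100420030003100420046003000370046004700300031004700460030003700430047003000420043003700300031004700430030004700460037003000310043004700300037004700430030003100430042003000430031004700300047004300310030004300370042003000310046004700300037004200430030004200460031003000310046004200300037004200460030003700460042003000470037004600300043004700310030004300310042003000420046003700300042003100430030003000300033003000420031004600300043004200370030004300370047003000470046003100300047003100460030003000330030003000470031004300300046004700370030004600370042003000420043003100300047003700430030003300300030003000420037004300300046004200310030004600310047003000470043003700300042003700460030003300330033003000460042003700300033003300300030004600470031003000330030003300300043004200310030003000330033003000430047003700300030003000300018000000000000000000180000000000000000001800000000000000000018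
def Pt : ℕ := nat_lit 0x130110010e000d010c010b000b0109010800080107000601050104000401030003010200020101000101000000
def Iv : ℕ := nat_lit 0x1213141516170504080a0c0d090e0b0f0102111003060700
def sy : Sys := ⟨nat_lit 4, nat_lit 2, nat_lit 24, nat_lit 72, nat_lit 4, Mt, EQ, LT, Pt, [nat_lit 1, nat_lit 2], nat_lit 175, nat_lit 649⟩
def t0 : ℕ := nat_lit 0x6a8069006780660064806300618060005e805d005b805a005880570055805400528051004f804e004c804b0049804800468045004380420040803f003d803c003a8039003780360034803300318030002e802d002b802a002880270025802400228021001f801e001c801b0019801800168015001380120010800f000d800c000a80090007800600048003000180000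
def t1 : ℕ := nat_lit 0x5d0066005b80690064806000618063005eb06a8067805a0034803f002e804f8039002b805400258028802a002280210042001c803180468033005700168019801800528013801f80588040804380108055802d0051004b004c800d804e001b004980480036000a80450024003c003a803d8007803780120030000f00270009001e000c0015000600048001800300000
def t2 : ℕ := nat_lit 0x6480690067b05a006a806180630060005b805d005e80660046f051704c902b603460571049f0361055f023a04f902cf0589043f0451019301af022303790397035a03c103df04e703bf053b011b01da028202d00492055300eb02ff01f7024004c7040600be026a03170123041a0436008e014f016201b3032e00c3029e00f3020b0090017b00600030004800180000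
def t3 : ℕ := nat_lit 0x6a8067b069305bb061b0630064b060005e805d0066305a0055b03db058b031b028b0453043b03c303930273037b01e30363051304fb01fb0303016b057304e3015304cb049b046b02eb010b0543040b034b00f301cb00db052b04b3019b00c3013b00ab0423048302bb0093025b007b03f303ab022b0063033302d302a30243021301b301830123004b003000180000
def t4 : ℕ := nat_lit 0x6a80603067806330648066305a3069305e805d005b8061b030e02f603fa04ed038102780265054c021b020001e9029101d0042f018c045801760566033a015d03250141053302af011603e603b40592057a02d300e00368048b051f0504024000b104d104bf04a3047701b000850445041203cc039b01200352004802c700330233001b01a4000000f000c300930060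
def t5 : ℕ := nat_lit 0x58d05550537051904c3049c0492042c040b03fa03c203af06b90352055806a40680066b02c304620248065e0640062f023404f701b9060d05eb05de02de05be05a101a70378012d057e0333029b030000fa03e2050102a0032e01e100cf04d70475021001f80277009b04430398018001680150006c036c004802f600460260002a01d100070145010800eb00bf0079
def t6 : ℕ := nat_lit 0x61505b505fd06a5064505e506bd065d05c3062d0683067504ee01dc058d0295016c045502f1051e035c028405660309026c04a6023c01fc0164032501a1037d01e9014103c502c100b503e6054404b901840062010c04cd042d03b1021400f800dc044603fd049402ad009200850365052c041c033d00c804fd01b80476024205750128039e02d20032001a004a0008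
def t7 : ℕ := nat_lit 0x611067105c90689062905e10659063a05b106b206a105f2046d04b50365018502a504fd040d03dd01e502bd0395034d03ad043d03050335019d021502750575022d048504cd01550545049d007d025d031d01b50425058d00dd01cd028d02d503f50515010d02ed01fd0125052d03c500ad013d016d0245037d0095055d00f50455006504e500c5004d001d003e000e
def t8 : ℕ := nat_lit 0x633067806900660064806ab0618060005a305d005b805eb04e0043803c002880318037803d80588046801500450030004c804980570016801e001f804f805580270036005100390013800d805280480022800c002580108054003a802b800f002e8007803f004080198006001c800a8042004b00348009002a00240033002d001800120021001b00048003300180000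
def t9 : ℕ := nat_lit 0x6a80690067805b806480630061805d305a00603066005e8037803600498016801f804e004c8051004f803000558015003d803c003900288027003180468045001e0043805880570025800a803f004b00198009001380078042004080348006001c80108052803a8022800f002e800d80540048002b800c0021001b001800120033002d002a0024000480030001b0000
def og : List ℕ := [t5, t4, t3, t2, t1]
def sl : List (ℕ × ℕ) := [(t6, nat_lit 0x40103001), (t7, nat_lit 0x410c20440c2), (t8, nat_lit 0x45105), (t9, nat_lit 0x47185187)]
def v0 : Lev := ⟨nat_lit 0, nat_lit 24, nat_lit 0x34003b0043003d003c0047004000450044003f00420046001200380035001600210018002f0005001300170041001c0033001e001900250024001b001d001f00260006002e0014002b002c003100320022000e002a00030037003a0020000b002d0004003900360023000c000700080009000a000f0010001100270015000d001a00280001000200300029003e0000, nat_lit 72, nat_lit 0x4404210200000000000000000000000001106204000000000000000000000000011061c40000000000000000000000000110308400000000000000000000000001100084000000000000000000000000011032040000000000000000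00000000011031020000000000000000000000000110120400000000000000000000000001101084000000000000000000000000000450850000000000000000000000004400710300000000000000000000000001100204000000000000000000000000011001c40000000000000000000000000110018800000000000000000000000001100042000000000000000000000000011001400000000000000000000000000004408400000000000000000000000001101188000000000000000000000000011001420000000000000000000000004400810700000000000000000000000001100146000000000000000000000000011000480000000000000000000000000000110200000000000000000000000001100044000000000000000000000000011001c800000000000000000000000000045108000000000000000000000000000451060000000000000000000000000110004600000000000000000000000000045101000000000000000000000000000451000000000000000000000000000110018400000000000000000000000000001142000000000000000000000000000450010000000000000000000000000004418800000000000000000000000000044187000000000000000000000000000440c200000000000000000000000000044003000000000000000000000000000440c00000000000000000000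000000004400200000000000000000000000000044043000000000000000000000000000440c8000000000000000000000000011000c8000000000000000000000000000440c300000000000000000000000000044048000000000000000000000000000440420000000000000000000000000004404600000000000000000000000000044185000000000000000000000000011440080000000000000000000000000004400800000000000000000000000000044007000000000000000000000000000440060000000000000000000000000004400500000000000000000000000000044045000000000000000000000000011440480000000000000000000000000004400100000000000000000000000000001146000000000000000000000000000011440000000000000000000000000000114300000000000000000000000000045003000000000000000000000000000011410000000000000000000000000000114000000000000000000000000000001108000000000000000000000000000011070000000000000000000000000000110600000000000000000000000000001103000000000000000000000000000440c4000000000000000000000000011001470000000000000000000000000000110100000000000000000000000000001100000000000000000000000000000000450000000000000000000000000000004400000000000000000000000000000001,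 nat_lit 0x41102004000000000000000000000000011081840000000000000000000000000110718400000000000000000000000001107144000000000000000000000000011080c40000000000000000000000000110608400000000000000000000000001044084000000000000000000000000011080440000000000000000000000000110704400000000000000000000000001106044000000000000000000000000011020440000000000000000000000000110800400000000000000000000000001107004000000000000000000000000012060040000000000000000000000000120500400000000000000000000000001005004000000000000000000000000012030040000000000000000000000000108300400000000000000000000000001182004000000000000000000000000011020040000000000000000000000000108200400000000000000000000000001201004000000000000000000000000011c100400000000000000000000000001101004000000000000000000000000010c1004000000000000000000000000000481050000000000000000000000000004610500000000000000000000000000043105000000000000000000000000000411050000000000000000000000000004010500000000000000000000000000045085000000000000000000000000000430450000000000000000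00000000000410050000000000000000000000000004818400000000000000000000000000047184000000000000000000000000000471440000000000000000000000000004114400000000000000000000000000040144000000000000000000000000000480c4000000000000000000000000000480840000000000000000000000000004608400000000000000000000000000044084000000000000000000000000000420840000000000000000000000000004804400000000000000000000000000047044000000000000000000000000000460440000000000000000000000000004304400000000000000000000000000042044000000000000000000000000000480040000000000000000000000000004700400000000000000000000000000046004000000000000000000000000000450040000000000000000000000000004300400000000000000000000000000042004000000000000000000000000000410040000000000000000000000000000118500000000000000000000000000001105000000000000000000000000000010c500000000000000000000000000001085000000000000000000000000000010450000000000000000000000000000100500000000000000000000000000001204000000000000000000000000000011c40000000000000000000000000000118400000000000000000000000000001144000000000000000000000000000010c4000000000000000000000000000010840000000000000000000000000000104400000000000000000000000000001004000000000000000000000000000000450000000000000000000000000000004400000000000000000000000000000001,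 [t9, t8, t7, t6, t5, t4, t3, t2, t1]⟩
def v1 : Lev := ⟨nat_lit 0, nat_lit 1, nat_lit 0xa00090014000f0017000b0003001500160001001000050004001300120002000c0006000d00110007000e00080000, nat_lit 24, nat_lit 0x400400000000000000000000000000000004100000000000000000000000001000040000000000000000000000000010010000000000000000000000000000000004000000000000000000000000000001040000000000000000000000000400000010000000000000000000000000000100100000000000000000000000040000040000000000000000000000000000010410000000000000000000000000000100000000000000000000000000000041000000000000000000000000000000410400000000000000000000000000004000100000000000000000000001000000040000000000000000000000000000400410000000000000000000000000004000000000000000000000000000001000001000000000000000000000000010410000000000000000000000000000100004100000000000000000000000001000000000000000000000000000000400000410000000000000000000000004000000000000000000000000000000000000001, nat_lit 0x100100000000000000000000000000000041040000000000000000000000000000400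40000000000000000000000000000410000000000000000000000000000004000000000000000000000000000000001000041000000000000000000000000010000400000000000000000000000000104100000000000000000000000000001001000000000000000000000000000010400000000000000000000000000000100000000000000000000000000000000040041000000000000000000000000000400010000000000000000000000000004104000000000000000000000000000040040000000000000000000000000000410000000000000000000000000000004000000000000000000000000000000001041000000000000000000000000000010010000000000000000000000000000104000000000000000000000000000001000000000000000000000000000000000410000000000000000000000000000004000000000000000000000000000000001, [t7, t6, t1, t9, t2, t8, t3]⟩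
def v2 : Lev := ⟨nat_lit 1, nat_lit 24, nat_lit 0x2000100000000, nat_lit 3, nat_lit 0x10020000000000000000000000000000004000000000000000000000000000000001, nat_lit 0x10800000000000000000000000000000004000000000000000000000000000000001, [t1, t9, t2, t8, t3]⟩
def v3 : Lev := ⟨nat_lit 1, nat_lit 1, nat_lit 0x1000000000000000000000000000000000000000000000000000000000000000000000000000000000000000000000000000000000000, nat_lit 2, nat_lit 0x4000000000000000000000000000000001, nat_lit 0x4000000000000000000000000000000001, [t9, t2, t8, t3]⟩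
def v4 : Lev := ⟨nat_lit 2, nat_lit 24, nat_lit 0x1000000000000, nat_lit 2, nat_lit 0x4000000000000000000000000000000001, nat_lit 0x4000000000000000000000000000000001, [t2, t8, t3]⟩
def v5 : Lev := ⟨nat_lit 2, nat_lit 1, nat_lit 0x1000000000000000000000000000000000000000000000000000000000000000000000000000000000000000000000000000000000000000000000000000000000000000000000000000000000000000000000000000000000000000000000000000000000000, nat_lit 2, nat_lit 0x4000000000000000000000000000000001, nat_lit 0x4000000000000000000000000000000001, [t8, t3]⟩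
def v6 : Lev := ⟨nat_lit 3, nat_lit 1, nat_lit 0x1000000000000000000000000000000000000000000000000000000000000000000000000000000000000000000000000000000000000000000000000000000000000000000000000000000000000000000000000000000000000000000000000000000000000000000000000000000000000000000000000000000000000000000000000000000000000000000000000000000000000, nat_lit 2, nat_lit 0x4000000000000000000000000000000001, nat_lit 0x4000000000000000000000000000000001, [t3]⟩
def ls : List Lev := [v1, v2, v3, v4, v5, v6]
def sg : List (List (ℕ × ℕ)) := [[(nat_lit 544, nat_lit 512)],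
[(nat_lit 528, nat_lit 512), (nat_lit 544, nat_lit 512)],
[(nat_lit 512, nat_lit 512), (nat_lit 544, nat_lit 512)],
[(nat_lit 528, nat_lit 512), (nat_lit 512, nat_lit 512), (nat_lit 528, nat_lit 512), (nat_lit 544, nat_lit 512)],
[(nat_lit 496, nat_lit 512), (nat_lit 544, nat_lit 512)],
[(nat_lit 512, nat_lit 512), (nat_lit 512, nat_lit 512), (nat_lit 512, nat_lit 512), (nat_lit 544, nat_lit 512)],
[(nat_lit 520, nat_lit 512), (nat_lit 520, nat_lit 512), (nat_lit 544, nat_lit 512)],
[(nat_lit 520, nat_lit 512), (nat_lit 520, nat_lit 512), (nat_lit 496, nat_lit 512), (nat_lit 520, nat_lit 512), (nat_lit 520, nat_lit 512), (nat_lit 544, nat_lit 512)],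
[(nat_lit 516, nat_lit 512), (nat_lit 508, nat_lit 512), (nat_lit 528, nat_lit 512), (nat_lit 508, nat_lit 512), (nat_lit 516, nat_lit 512), (nat_lit 544, nat_lit 512)],
[(nat_lit 516, nat_lit 512), (nat_lit 508, nat_lit 512), (nat_lit 480, nat_lit 512), (nat_lit 508, nat_lit 512), (nat_lit 516, nat_lit 512), (nat_lit 544, nat_lit 512)],
[(nat_lit 512, nat_lit 512), (nat_lit 496, nat_lit 512), (nat_lit 512, nat_lit 512), (nat_lit 496, nat_lit 512), (nat_lit 512, nat_lit 512), (nat_lit 544, nat_lit 512)],
[(nat_lit 512, nat_lit 512), (nat_lit 512, nat_lit 512), (nat_lit 512, nat_lit 512), (nat_lit 496, nat_lit 512), (nat_lit 512, nat_lit 512), (nat_lit 512, nat_lit 512), (nat_lit 512, nat_lit 512), (nat_lit 496, nat_lit 512), (nat_lit 512, nat_lit 512), (nat_lit 512, nat_lit 512), (nat_lit 512, nat_lit 512), (nat_lit 544, nat_lit 512)],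
[(nat_lit 520, nat_lit 512), (nat_lit 496, nat_lit 512), (nat_lit 496, nat_lit 512), (nat_lit 496, nat_lit 512), (nat_lit 520, nat_lit 512), (nat_lit 544, nat_lit 512)],
[(nat_lit 520, nat_lit 512), (nat_lit 512, nat_lit 512), (nat_lit 496, nat_lit 512), (nat_lit 496, nat_lit 512), (nat_lit 520, nat_lit 512), (nat_lit 512, nat_lit 512), (nat_lit 520, nat_lit 512), (nat_lit 496, nat_lit 512), (nat_lit 496, nat_lit 512), (nat_lit 512, nat_lit 512), (nat_lit 520, nat_lit 512), (nat_lit 544, nat_lit 512)],
[(nat_lit 504, nat_lit 512), (nat_lit 496, nat_lit 512), (nat_lit 528, nat_lit 512), (nat_lit 496, nat_lit 512), (nat_lit 504, nat_lit 512), (nat_lit 544, nat_lit 512)],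
[(nat_lit 528, nat_lit 512), (nat_lit 496, nat_lit 512), (nat_lit 480, nat_lit 512), (nat_lit 496, nat_lit 512), (nat_lit 528, nat_lit 512), (nat_lit 544, nat_lit 512)],
[(nat_lit 520, nat_lit 512), (nat_lit 512, nat_lit 512), (nat_lit 520, nat_lit 512), (nat_lit 512, nat_lit 512), (nat_lit 520, nat_lit 512), (nat_lit 512, nat_lit 512), (nat_lit 520, nat_lit 512), (nat_lit 544, nat_lit 512)],
[(nat_lit 504, nat_lit 512), (nat_lit 520, nat_lit 512), (nat_lit 480, nat_lit 512), (nat_lit 520, nat_lit 512), (nat_lit 504, nat_lit 512), (nat_lit 544, nat_lit 512)],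
[(nat_lit 512, nat_lit 512), (nat_lit 504, nat_lit 512), (nat_lit 512, nat_lit 512), (nat_lit 520, nat_lit 512), (nat_lit 512, nat_lit 512), (nat_lit 480, nat_lit 512), (nat_lit 512, nat_lit 512), (nat_lit 520, nat_lit 512), (nat_lit 512, nat_lit 512), (nat_lit 504, nat_lit 512), (nat_lit 512, nat_lit 512), (nat_lit 544, nat_lit 512)],
[(nat_lit 516, nat_lit 512), (nat_lit 508, nat_lit 512), (nat_lit 516, nat_lit 512), (nat_lit 508, nat_lit 512), (nat_lit 516, nat_lit 512), (nat_lit 508, nat_lit 512), (nat_lit 516, nat_lit 512), (nat_lit 508, nat_lit 512), (nat_lit 480, nat_lit 512), (nat_lit 508, nat_lit 512), (nat_lit 516, nat_lit 512), (nat_lit 508, nat_lit 512), (nat_lit 516, nat_lit 512), (nat_lit 508, nat_lit 512), (nat_lit 516, nat_lit 512), (nat_lit 508, nat_lit 512), (nat_lit 516, nat_lit 512), (nat_lit 544, nat_lit 512)],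
[(nat_lit 504, nat_lit 512), (nat_lit 520, nat_lit 512), (nat_lit 528, nat_lit 512), (nat_lit 520, nat_lit 512), (nat_lit 504, nat_lit 512), (nat_lit 544, nat_lit 512)],
[(nat_lit 512, nat_lit 512), (nat_lit 512, nat_lit 512), (nat_lit 512, nat_lit 512), (nat_lit 480, nat_lit 512), (nat_lit 512, nat_lit 512), (nat_lit 512, nat_lit 512), (nat_lit 512, nat_lit 512), (nat_lit 544, nat_lit 512)],
[(nat_lit 512, nat_lit 512), (nat_lit 528, nat_lit 512), (nat_lit 512, nat_lit 512), (nat_lit 496, nat_lit 512), (nat_lit 512, nat_lit 512), (nat_lit 480, nat_lit 512), (nat_lit 512, nat_lit 512), (nat_lit 496, nat_lit 512), (nat_lit 512, nat_lit 512), (nat_lit 528, nat_lit 512), (nat_lit 512, nat_lit 512), (nat_lit 544, nat_lit 512)],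
[(nat_lit 508, nat_lit 512), (nat_lit 508, nat_lit 512), (nat_lit 544, nat_lit 512)],
[(nat_lit 508, nat_lit 512), (nat_lit 508, nat_lit 512), (nat_lit 496, nat_lit 512), (nat_lit 508, nat_lit 512), (nat_lit 508, nat_lit 512), (nat_lit 544, nat_lit 512)],
[(nat_lit 504, nat_lit 512), (nat_lit 512, nat_lit 512), (nat_lit 528, nat_lit 512), (nat_lit 496, nat_lit 512), (nat_lit 504, nat_lit 512), (nat_lit 512, nat_lit 512), (nat_lit 504, nat_lit 512), (nat_lit 496, nat_lit 512), (nat_lit 528, nat_lit 512), (nat_lit 512, nat_lit 512), (nat_lit 504, nat_lit 512), (nat_lit 544, nat_lit 512)],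
[(nat_lit 496, nat_lit 512), (nat_lit 496, nat_lit 512), (nat_lit 544, nat_lit 512)],
[(nat_lit 508, nat_lit 512), (nat_lit 508, nat_lit 512), (nat_lit 508, nat_lit 512), (nat_lit 508, nat_lit 512), (nat_lit 508, nat_lit 512), (nat_lit 508, nat_lit 512), (nat_lit 508, nat_lit 512), (nat_lit 508, nat_lit 512), (nat_lit 544, nat_lit 512)],
[(nat_lit 512, nat_lit 512), (nat_lit 496, nat_lit 512), (nat_lit 512, nat_lit 512), (nat_lit 512, nat_lit 512), (nat_lit 512, nat_lit 512), (nat_lit 496, nat_lit 512), (nat_lit 512, nat_lit 512), (nat_lit 544, nat_lit 512)],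
[(nat_lit 512, nat_lit 512), (nat_lit 512, nat_lit 512), (nat_lit 512, nat_lit 512), (nat_lit 528, nat_lit 512), (nat_lit 512, nat_lit 512), (nat_lit 512, nat_lit 512), (nat_lit 512, nat_lit 512), (nat_lit 496, nat_lit 512), (nat_lit 512, nat_lit 512), (nat_lit 512, nat_lit 512), (nat_lit 512, nat_lit 512), (nat_lit 480, nat_lit 512), (nat_lit 512, nat_lit 512), (nat_lit 512, nat_lit 512), (nat_lit 512, nat_lit 512), (nat_lit 496, nat_lit 512), (nat_lit 512, nat_lit 512), (nat_lit 512, nat_lit 512), (nat_lit 512, nat_lit 512), (nat_lit 528, nat_lit 512), (nat_lit 512, nat_lit 512), (nat_lit 512, nat_lit 512), (nat_lit 512, nat_lit 512), (nat_lit 544, nat_lit 512)],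
[(nat_lit 512, nat_lit 512), (nat_lit 480, nat_lit 512), (nat_lit 512, nat_lit 512), (nat_lit 544, nat_lit 512)],
[(nat_lit 496, nat_lit 512), (nat_lit 512, nat_lit 512), (nat_lit 496, nat_lit 512), (nat_lit 544, nat_lit 512)],
[(nat_lit 480, nat_lit 512), (nat_lit 544, nat_lit 512)],
[(nat_lit 504, nat_lit 512), (nat_lit 512, nat_lit 512), (nat_lit 504, nat_lit 512), (nat_lit 512, nat_lit 512), (nat_lit 504, nat_lit 512), (nat_lit 512, nat_lit 512), (nat_lit 504, nat_lit 512), (nat_lit 544, nat_lit 512)]]
def cs : List ℕ := [nat_lit 1, nat_lit 72, nat_lit 270, nat_lit 108, nat_lit 72, nat_lit 7560, nat_lit 1344, nat_lit 576, nat_lit 4608, nat_lit 512, nat_lit 2160, nat_lit 3456, nat_lit 576, nat_lit 864, nat_lit 576, nat_lit 24, nat_lit 2592, nat_lit 1344, nat_lit 11520, nat_lit 9216, nat_lit 576, nat_lit 6912, nat_lit 288, nat_lit 512, nat_lit 4608, nat_lit 864, nat_lit 24, nat_lit 9216, nat_lit 5184, nat_lit 3456, nat_lit 1152, nat_lit 108, nat_lit 1, nat_lit 2592]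
def c0 : Cert := node (nat_lit 48) (nat_lit 0) [nat_lit 0x41] <|
br (nat_lit 0x200010030) (node (nat_lit 72) (nat_lit 0) [] <|
br (nat_lit 0x200010048) (leaf (nat_lit 0)) <|
br (nat_lit 0x8c0001004b) (leaf (nat_lit 1)) nil) <|
br (nat_lit 0x8200010033) (node (nat_lit 72) (nat_lit 0) [] <|
br (nat_lit 0x200010048) (leaf (nat_lit 1)) <|
br (nat_lit 0x8c0001004b) (leaf (nat_lit 2)) nil) <|
br (nat_lit 0x8e00020048) (node (nat_lit 72) (nat_lit 0) [] <|
br (nat_lit 0x200010030) (leaf (nat_lit 1)) <|
br (nat_lit 0x8c00010033) (leaf (nat_lit 3)) nil) nil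
def c1 : Cert := node (nat_lit 48) (nat_lit 0) [nat_lit 0x41] <|
br (nat_lit 0x200010030) (node (nat_lit 72) (nat_lit 0) [] <|
br (nat_lit 0x200010048) (leaf (nat_lit 1)) <|
br (nat_lit 0x8c0001004b) (leaf (nat_lit 2)) nil) <|
br (nat_lit 0x8200010033) (node (nat_lit 72) (nat_lit 0) [] <|
br (nat_lit 0x200010048) (leaf (nat_lit 2)) <|
br (nat_lit 0x8c0001004b) (leaf (nat_lit 4)) nil) <|
br (nat_lit 0x8e00020048) (node (nat_lit 72) (nat_lit 0) [] <|
br (nat_lit 0x200010030) (leaf (nat_lit 2)) <|
br (nat_lit 0x8c00010033) (leaf (nat_lit 5)) nil) nil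
def c2 : Cert := node (nat_lit 48) (nat_lit 0) [nat_lit 0x46] <|
br (nat_lit 0x200010018) (node (nat_lit 72) (nat_lit 0) [] <|
br (nat_lit 0x200010048) (leaf (nat_lit 1)) <|
br (nat_lit 0x8c0001004b) (leaf (nat_lit 2)) nil) <|
br (nat_lit 0x820001001b) (node (nat_lit 72) (nat_lit 0) [] <|
br (nat_lit 0x200010048) (leaf (nat_lit 3)) <|
br (nat_lit 0x8c0001004b) (leaf (nat_lit 5)) nil) <|
br (nat_lit 0x8e00020048) (node (nat_lit 72) (nat_lit 0) [] <|
br (nat_lit 0x200010018) (leaf (nat_lit 6)) <|
br (nat_lit 0x8c0001001b) (leaf (nat_lit 7)) nil) nil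
def c3 : Cert := node (nat_lit 48) (nat_lit 0) [nat_lit 0x41] <|
br (nat_lit 0x20002001a) (node (nat_lit 72) (nat_lit 0) [] <|
br (nat_lit 0x200010032) (leaf (nat_lit 8)) <|
br (nat_lit 0x8c00010038) (leaf (nat_lit 9)) nil) <|
br (nat_lit 0x8e00010032) (node (nat_lit 72) (nat_lit 0) [] <|
br (nat_lit 0x20001001a) (leaf (nat_lit 10)) <|
br (nat_lit 0x8c00010020) (leaf (nat_lit 11)) nil) <|
br (nat_lit 0x238200010038) (node (nat_lit 72) (nat_lit 0) [] <|
br (nat_lit 0x20001001a) (leaf (nat_lit 12)) <|
br (nat_lit 0x8c00010020) (leaf (nat_lit 13)) nil) nil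
def c4 : Cert := node (nat_lit 48) (nat_lit 0) [nat_lit 0x41] <|
br (nat_lit 0x20002004a) (node (nat_lit 72) (nat_lit 0) [] <|
br (nat_lit 0x200010032) (leaf (nat_lit 10)) <|
br (nat_lit 0x8c00010038) (leaf (nat_lit 11)) nil) <|
br (nat_lit 0x8e00010032) (node (nat_lit 72) (nat_lit 0) [] <|
br (nat_lit 0x20001004a) (leaf (nat_lit 14)) <|
br (nat_lit 0x8c00010050) (leaf (nat_lit 10)) nil) <|
br (nat_lit 0x238200010038) (node (nat_lit 72) (nat_lit 0) [] <|
br (nat_lit 0x20001004a) (leaf (nat_lit 10)) <|
br (nat_lit 0x8c00010050) (leaf (nat_lit 12)) nil) nil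
def c5 : Cert := node (nat_lit 48) (nat_lit 0) [nat_lit 0x41] <|
br (nat_lit 0x20002004a) (node (nat_lit 72) (nat_lit 0) [] <|
br (nat_lit 0x200010032) (leaf (nat_lit 12)) <|
br (nat_lit 0x8c00010038) (leaf (nat_lit 13)) nil) <|
br (nat_lit 0x8e00010032) (node (nat_lit 72) (nat_lit 0) [] <|
br (nat_lit 0x20001004a) (leaf (nat_lit 10)) <|
br (nat_lit 0x8c00010050) (leaf (nat_lit 12)) nil) <|
br (nat_lit 0x238200010038) (node (nat_lit 72) (nat_lit 0) [] <|
br (nat_lit 0x20001004a) (leaf (nat_lit 12)) <|
br (nat_lit 0x8c00010050) (leaf (nat_lit 15)) nil) nil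
def c6 : Cert := node (nat_lit 120) (nat_lit 0) [nat_lit 0x1087040, nat_lit 0x10880c1] <|
br (nat_lit 0x200010007) (leaf (nat_lit 1)) <|
br (nat_lit 0x80000302a0) (leaf (nat_lit 6)) <|
br (nat_lit 0x8e0006017b) (leaf (nat_lit 6)) <|
br (nat_lit 0x208000030048) (leaf (nat_lit 5)) <|
br (nat_lit 0x238000060698) (leaf (nat_lit 5)) <|
br (nat_lit 0x24000006065e) (leaf (nat_lit 16)) <|
br (nat_lit 0x240e000402dd) (leaf (nat_lit 8)) <|
br (nat_lit 0x23900004006a) (leaf (nat_lit 8)) <|
br (nat_lit 0x8c08000010330) (leaf (nat_lit 17)) <|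
br (nat_lit 0x8e08000060288) (leaf (nat_lit 18)) <|
br (nat_lit 0x90380000402c2) (leaf (nat_lit 19)) <|
br (nat_lit 0x8e40000040471) (leaf (nat_lit 19)) nil
def c7 : Cert := node (nat_lit 96) (nat_lit 0) [nat_lit 0x47] <|
br (nat_lit 0x200010000) (node (nat_lit 1656) (nat_lit 0) [] <|
br (nat_lit 0x200010678) (leaf (nat_lit 1)) <|
br (nat_lit 0x8e0001067b) (leaf (nat_lit 2)) nil) <|
br (nat_lit 0x82000201b0) (node (nat_lit 48) (nat_lit 0) [] <|
br (nat_lit 0x2000100c0) (leaf (nat_lit 6)) <|
br (nat_lit 0x8e000100f0) (leaf (nat_lit 7)) nil) <|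
br (nat_lit 0x230200010018) (node (nat_lit 1656) (nat_lit 0) [] <|
br (nat_lit 0x20001067b) (leaf (nat_lit 5)) <|
br (nat_lit 0x8e00010678) (leaf (nat_lit 3)) nil) nil
def c8 : Cert := node (nat_lit 96) (nat_lit 0) [nat_lit 0x47] <|
br (nat_lit 0x200010240) (node (nat_lit 1656) (nat_lit 0) [] <|
br (nat_lit 0x200010678) (leaf (nat_lit 6)) <|
br (nat_lit 0x8e0001067b) (leaf (nat_lit 20)) nil) <|
br (nat_lit 0x8200020048) (node (nat_lit 48) (nat_lit 0) [] <|
br (nat_lit 0x2000100c0) (leaf (nat_lit 5)) <|
br (nat_lit 0x8e000100f0) (leaf (nat_lit 21)) nil) <|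
br (nat_lit 0x2302000102d0) (node (nat_lit 1656) (nat_lit 0) [] <|
br (nat_lit 0x20001067b) (leaf (nat_lit 17)) <|
br (nat_lit 0x8e00010678) (leaf (nat_lit 7)) nil) nil
def c9 : Cert := node (nat_lit 48) (nat_lit 0) [] <|
br (nat_lit 0x200010093) (node (nat_lit 72) (nat_lit 0) [] <|
br (nat_lit 0x2000100f0) (leaf (nat_lit 2)) <|
br (nat_lit 0x8c000100f3) (leaf (nat_lit 20)) nil) <|
br (nat_lit 0x8200010090) (node (nat_lit 72) (nat_lit 0) [] <|
br (nat_lit 0x2000100f0) (leaf (nat_lit 7)) <|
br (nat_lit 0x8c000100f3) (leaf (nat_lit 21)) nil) <|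
br (nat_lit 0x8e000100f0) (node (nat_lit 72) (nat_lit 0) [] <|
br (nat_lit 0x200010093) (leaf (nat_lit 20)) <|
br (nat_lit 0x8c00010090) (leaf (nat_lit 22)) nil) <|
br (nat_lit 0x2382000100f3) (node (nat_lit 72) (nat_lit 0) [] <|
br (nat_lit 0x200010093) (leaf (nat_lit 22)) <|
br (nat_lit 0x8c00010090) (leaf (nat_lit 7)) nil) nil
def c10 : Cert := node (nat_lit 48) (nat_lit 0) [] <|
br (nat_lit 0x200010093) (node (nat_lit 72) (nat_lit 0) [] <|
br (nat_lit 0x2000100f0) (leaf (nat_lit 7)) <|
br (nat_lit 0x8c000100f3) (leaf (nat_lit 21)) nil) <|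
br (nat_lit 0x8200010090) (node (nat_lit 72) (nat_lit 0) [] <|
br (nat_lit 0x2000100f0) (leaf (nat_lit 3)) <|
br (nat_lit 0x8c000100f3) (leaf (nat_lit 7)) nil) <|
br (nat_lit 0x8e000100f0) (node (nat_lit 72) (nat_lit 0) [] <|
br (nat_lit 0x200010093) (leaf (nat_lit 22)) <|
br (nat_lit 0x8c00010090) (leaf (nat_lit 7)) nil) <|
br (nat_lit 0x2382000100f3) (node (nat_lit 72) (nat_lit 0) [] <|
br (nat_lit 0x200010093) (leaf (nat_lit 7)) <|
br (nat_lit 0x8c00010090) (leaf (nat_lit 15)) nil) nil
def c11 : Cert := node (nat_lit 48) (nat_lit 0) [nat_lit 0x46] <|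
br (nat_lit 0x20002004e) (node (nat_lit 72) (nat_lit 0) [] <|
br (nat_lit 0x20001001e) (leaf (nat_lit 23)) <|
br (nat_lit 0x8c00010027) (leaf (nat_lit 24)) nil) <|
br (nat_lit 0x8e0001001e) (node (nat_lit 72) (nat_lit 0) [] <|
br (nat_lit 0x20001004e) (leaf (nat_lit 14)) <|
br (nat_lit 0x8c00010057) (leaf (nat_lit 10)) nil) <|
br (nat_lit 0x238200010027) (node (nat_lit 72) (nat_lit 0) [] <|
br (nat_lit 0x20001004e) (leaf (nat_lit 25)) <|
br (nat_lit 0x8c00010057) (leaf (nat_lit 11)) nil) nil
def c12 : Cert := node (nat_lit 48) (nat_lit 0) [nat_lit 0x41] <|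
br (nat_lit 0x200010036) (node (nat_lit 72) (nat_lit 0) [] <|
br (nat_lit 0x20001004e) (leaf (nat_lit 26)) <|
br (nat_lit 0x8c00010057) (leaf (nat_lit 14)) nil) <|
br (nat_lit 0x820001003f) (node (nat_lit 72) (nat_lit 0) [] <|
br (nat_lit 0x20001004e) (leaf (nat_lit 14)) <|
br (nat_lit 0x8c00010057) (leaf (nat_lit 10)) nil) <|
br (nat_lit 0x8e0002004e) (node (nat_lit 72) (nat_lit 0) [] <|
br (nat_lit 0x200010036) (leaf (nat_lit 14)) <|
br (nat_lit 0x8c0001003f) (leaf (nat_lit 25)) nil) nil
def c13 : Cert := node (nat_lit 48) (nat_lit 0) [nat_lit 0x41] <|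
br (nat_lit 0x200010036) (node (nat_lit 72) (nat_lit 0) [] <|
br (nat_lit 0x20001004e) (leaf (nat_lit 14)) <|
br (nat_lit 0x8c00010057) (leaf (nat_lit 10)) nil) <|
br (nat_lit 0x820001003f) (node (nat_lit 72) (nat_lit 0) [] <|
br (nat_lit 0x20001004e) (leaf (nat_lit 10)) <|
br (nat_lit 0x8c00010057) (leaf (nat_lit 12)) nil) <|
br (nat_lit 0x8e0002004e) (node (nat_lit 72) (nat_lit 0) [] <|
br (nat_lit 0x200010036) (leaf (nat_lit 10)) <|
br (nat_lit 0x8c0001003f) (leaf (nat_lit 11)) nil) nil
def c14 : Cert := node (nat_lit 48) (nat_lit 0) [nat_lit 0x41] <|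
br (nat_lit 0x200020053) (node (nat_lit 72) (nat_lit 0) [] <|
br (nat_lit 0x20001003b) (leaf (nat_lit 10)) <|
br (nat_lit 0x8c00010045) (leaf (nat_lit 11)) nil) <|
br (nat_lit 0x8e0001003b) (node (nat_lit 72) (nat_lit 0) [] <|
br (nat_lit 0x200010053) (leaf (nat_lit 12)) <|
br (nat_lit 0x8c0001005d) (leaf (nat_lit 10)) nil) <|
br (nat_lit 0x238200010045) (node (nat_lit 72) (nat_lit 0) [] <|
br (nat_lit 0x200010053) (leaf (nat_lit 10)) <|
br (nat_lit 0x8c0001005d) (leaf (nat_lit 14)) nil) nil
def c15 : Cert := node (nat_lit 48) (nat_lit 0) [nat_lit 0x41] <|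
br (nat_lit 0x200020053) (node (nat_lit 72) (nat_lit 0) [] <|
br (nat_lit 0x20001003b) (leaf (nat_lit 12)) <|
br (nat_lit 0x8c00010045) (leaf (nat_lit 13)) nil) <|
br (nat_lit 0x8e0001003b) (node (nat_lit 72) (nat_lit 0) [] <|
br (nat_lit 0x200010053) (leaf (nat_lit 15)) <|
br (nat_lit 0x8c0001005d) (leaf (nat_lit 12)) nil) <|
br (nat_lit 0x238200010045) (node (nat_lit 72) (nat_lit 0) [] <|
br (nat_lit 0x200010053) (leaf (nat_lit 12)) <|
br (nat_lit 0x8c0001005d) (leaf (nat_lit 10)) nil) nil
def c16 : Cert := node (nat_lit 48) (nat_lit 0) [nat_lit 0x41] <|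
br (nat_lit 0x20002002d) (node (nat_lit 72) (nat_lit 0) [] <|
br (nat_lit 0x20001003b) (leaf (nat_lit 8)) <|
br (nat_lit 0x8c00010045) (leaf (nat_lit 9)) nil) <|
br (nat_lit 0x8e0001003b) (node (nat_lit 72) (nat_lit 0) [] <|
br (nat_lit 0x20001002d) (leaf (nat_lit 13)) <|
br (nat_lit 0x8c00010023) (leaf (nat_lit 12)) nil) <|
br (nat_lit 0x238200010045) (node (nat_lit 72) (nat_lit 0) [] <|
br (nat_lit 0x20001002d) (leaf (nat_lit 11)) <|
br (nat_lit 0x8c00010023) (leaf (nat_lit 10)) nil) nil
def c17 : Cert := node (nat_lit 96) (nat_lit 0) [nat_lit 0x12070c3] <|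
br (nat_lit 0x2000103ea) (node (nat_lit 120) (nat_lit 0) [nat_lit 0x12070c3] <|
br (nat_lit 0x2000101aa) (leaf (nat_lit 27)) <|
br (nat_lit 0x8e00030683) (leaf (nat_lit 5)) <|
br (nat_lit 0x240e0001039f) (leaf (nat_lit 27)) <|
br (nat_lit 0x239000010339) (leaf (nat_lit 6)) nil) <|
br (nat_lit 0x81000302f4) (node (nat_lit 120) (nat_lit 0) [] <|
br (nat_lit 0x200010255) (leaf (nat_lit 11)) <|
br (nat_lit 0x8e00010321) (leaf (nat_lit 19)) <|
br (nat_lit 0x9000010309) (leaf (nat_lit 27)) <|
br (nat_lit 0x240e000100c0) (leaf (nat_lit 18)) <|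
br (nat_lit 0x239000010051) (leaf (nat_lit 8)) <|
br (nat_lit 0x8e40e00010459) (leaf (nat_lit 19)) nil) <|
br (nat_lit 0x20810003044e) (node (nat_lit 120) (nat_lit 0) [] <|
br (nat_lit 0x2000102bf) (leaf (nat_lit 19)) <|
br (nat_lit 0x8e00010606) (leaf (nat_lit 28)) <|
br (nat_lit 0x9000010656) (leaf (nat_lit 21)) <|
br (nat_lit 0x240e0001057c) (leaf (nat_lit 19)) <|
br (nat_lit 0x239000010219) (leaf (nat_lit 18)) <|
br (nat_lit 0x8e40e00010676) (leaf (nat_lit 16)) nil) <|
br (nat_lit 0x8c08100010143) (node (nat_lit 120) (nat_lit 0) [nat_lit 0x12070c3] <|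
br (nat_lit 0x2000102da) (leaf (nat_lit 12)) <|
br (nat_lit 0x8e0003016d) (leaf (nat_lit 19)) <|
br (nat_lit 0x240e00010067) (leaf (nat_lit 7)) <|
br (nat_lit 0x239000010004) (leaf (nat_lit 24)) nil) nil
def c18 : Cert := node (nat_lit 96) (nat_lit 0) [nat_lit 0x10c3] <|
br (nat_lit 0x2000102d8) (node (nat_lit 24) (nat_lit 0) [nat_lit 0x47] <|
br (nat_lit 0x2000200f2) (node (nat_lit 48) (nat_lit 0) [] <|
br (nat_lit 0x200010098) (leaf (nat_lit 6)) <|
br (nat_lit 0x8e000100c8) (leaf (nat_lit 8)) nil) <|
br (nat_lit 0x9000010098) (node (nat_lit 1656) (nat_lit 0) [] <|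
br (nat_lit 0x200010683) (leaf (nat_lit 8)) <|
br (nat_lit 0x8e0001068d) (leaf (nat_lit 23)) nil) nil) <|
br (nat_lit 0x8100030050) (node (nat_lit 72) (nat_lit 0) [nat_lit 0x48] <|
br (nat_lit 0x2000200c8) (node (nat_lit 24) (nat_lit 0) [] <|
br (nat_lit 0x2000100f8) (leaf (nat_lit 8)) <|
br (nat_lit 0x9000010098) (leaf (nat_lit 29)) nil) <|
br (nat_lit 0x240e000100f8) (node (nat_lit 1512) (nat_lit 0) [] <|
br (nat_lit 0x2000105fd) (leaf (nat_lit 11)) <|
br (nat_lit 0x90000105f3) (leaf (nat_lit 13)) nil) nil) <|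
br (nat_lit 0x2080000301b8) (node (nat_lit 48) (nat_lit 0) [nat_lit 0x470c3] <|
br (nat_lit 0x200020092) (node (nat_lit 24) (nat_lit 0) [] <|
br (nat_lit 0x2000100f8) (leaf (nat_lit 18)) <|
br (nat_lit 0x8e40e000100c8) (leaf (nat_lit 8)) nil) <|
br (nat_lit 0x8e000100c8) (node (nat_lit 1464) (nat_lit 0) [] <|
br (nat_lit 0x2000105cd) (leaf (nat_lit 24)) <|
br (nat_lit 0x8e40e000105c3) (leaf (nat_lit 9)) nil) nil) <|
br (nat_lit 0x8c08000010008) (node (nat_lit 24) (nat_lit 0) [nat_lit 0x47] <|
br (nat_lit 0x2000200f8) (node (nat_lit 48) (nat_lit 0) [] <|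
br (nat_lit 0x200010092) (leaf (nat_lit 24)) <|
br (nat_lit 0x8e000100c2) (leaf (nat_lit 10)) nil) <|
br (nat_lit 0x9000010092) (node (nat_lit 1656) (nat_lit 0) [] <|
br (nat_lit 0x20001068d) (leaf (nat_lit 10)) <|
br (nat_lit 0x8e00010683) (leaf (nat_lit 12)) nil) nil) nil
def c19 : Cert := node (nat_lit 96) (nat_lit 0) [nat_lit 0x12070c3] <|
br (nat_lit 0x2000103a7) (node (nat_lit 120) (nat_lit 0) [nat_lit 0x12070c3] <|
br (nat_lit 0x200010067) (leaf (nat_lit 6)) <|
br (nat_lit 0x8e0003041d) (leaf (nat_lit 5)) <|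
br (nat_lit 0x240e000102d4) (leaf (nat_lit 27)) <|
br (nat_lit 0x23900001000a) (leaf (nat_lit 27)) nil) <|
br (nat_lit 0x810003021d) (node (nat_lit 120) (nat_lit 0) [] <|
br (nat_lit 0x200010368) (leaf (nat_lit 8)) <|
br (nat_lit 0x8e00010602) (leaf (nat_lit 27)) <|
br (nat_lit 0x90000105b2) (leaf (nat_lit 19)) <|
br (nat_lit 0x240e000100ba) (leaf (nat_lit 18)) <|
br (nat_lit 0x239000010268) (leaf (nat_lit 11)) <|
br (nat_lit 0x8e40e000106b4) (leaf (nat_lit 19)) nil) <|
br (nat_lit 0x208100030570) (node (nat_lit 120) (nat_lit 0) [] <|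
br (nat_lit 0x2000100f0) (leaf (nat_lit 18)) <|
br (nat_lit 0x8e000103b4) (leaf (nat_lit 28)) <|
br (nat_lit 0x9000010592) (leaf (nat_lit 16)) <|
br (nat_lit 0x240e00010249) (leaf (nat_lit 19)) <|
br (nat_lit 0x239000010045) (leaf (nat_lit 19)) <|
br (nat_lit 0x8e40e0001042f) (leaf (nat_lit 21)) nil) <|
br (nat_lit 0x8c0810001033e) (node (nat_lit 120) (nat_lit 0) [nat_lit 0x12070c3] <|
br (nat_lit 0x2000103e6) (leaf (nat_lit 24)) <|
br (nat_lit 0x8e0003068c) (leaf (nat_lit 19)) <|
br (nat_lit 0x240e00010078) (leaf (nat_lit 7)) <|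
br (nat_lit 0x239000010144) (leaf (nat_lit 12)) nil) nil
def c20 : Cert := node (nat_lit 48) (nat_lit 0) [nat_lit 0x41] <|
br (nat_lit 0x200020019) (node (nat_lit 72) (nat_lit 0) [] <|
br (nat_lit 0x200010037) (leaf (nat_lit 18)) <|
br (nat_lit 0x8c00010031) (leaf (nat_lit 18)) nil) <|
br (nat_lit 0x8e00010037) (node (nat_lit 72) (nat_lit 0) [] <|
br (nat_lit 0x200010019) (leaf (nat_lit 30)) <|
br (nat_lit 0x8c0001001f) (leaf (nat_lit 5)) nil) <|
br (nat_lit 0x238200010031) (node (nat_lit 72) (nat_lit 0) [] <|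
br (nat_lit 0x200010019) (leaf (nat_lit 30)) <|
br (nat_lit 0x8c0001001f) (leaf (nat_lit 5)) nil) nil
def c21 : Cert := node (nat_lit 48) (nat_lit 0) [nat_lit 0x41] <|
br (nat_lit 0x200020049) (node (nat_lit 72) (nat_lit 0) [] <|
br (nat_lit 0x200010037) (leaf (nat_lit 5)) <|
br (nat_lit 0x8c00010031) (leaf (nat_lit 30)) nil) <|
br (nat_lit 0x8e00010037) (node (nat_lit 72) (nat_lit 0) [] <|
br (nat_lit 0x200010049) (leaf (nat_lit 30)) <|
br (nat_lit 0x8c0001004f) (leaf (nat_lit 30)) nil) <|
br (nat_lit 0x238200010031) (node (nat_lit 72) (nat_lit 0) [] <|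
br (nat_lit 0x200010049) (leaf (nat_lit 30)) <|
br (nat_lit 0x8c0001004f) (leaf (nat_lit 30)) nil) nil
def c22 : Cert := node (nat_lit 48) (nat_lit 0) [nat_lit 0x41] <|
br (nat_lit 0x200020049) (node (nat_lit 72) (nat_lit 0) [] <|
br (nat_lit 0x200010037) (leaf (nat_lit 5)) <|
br (nat_lit 0x8c00010031) (leaf (nat_lit 30)) nil) <|
br (nat_lit 0x8e00010037) (node (nat_lit 72) (nat_lit 0) [] <|
br (nat_lit 0x200010049) (leaf (nat_lit 30)) <|
br (nat_lit 0x8c0001004f) (leaf (nat_lit 30)) nil) <|
br (nat_lit 0x238200010031) (node (nat_lit 72) (nat_lit 0) [] <|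
br (nat_lit 0x200010049) (leaf (nat_lit 30)) <|
br (nat_lit 0x8c0001004f) (leaf (nat_lit 30)) nil) nil
def c23 : Cert := node (nat_lit 48) (nat_lit 0) [nat_lit 0x46] <|
br (nat_lit 0x20001001b) (node (nat_lit 72) (nat_lit 0) [] <|
br (nat_lit 0x200010048) (leaf (nat_lit 5)) <|
br (nat_lit 0x8c0001004b) (leaf (nat_lit 31)) nil) <|
br (nat_lit 0x8200010018) (node (nat_lit 72) (nat_lit 0) [] <|
br (nat_lit 0x200010048) (leaf (nat_lit 2)) <|
br (nat_lit 0x8c0001004b) (leaf (nat_lit 4)) nil) <|
br (nat_lit 0x8e00020048) (node (nat_lit 72) (nat_lit 0) [] <|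
br (nat_lit 0x20001001b) (leaf (nat_lit 17)) <|
br (nat_lit 0x8c00010018) (leaf (nat_lit 20)) nil) nil
def c24 : Cert := node (nat_lit 48) (nat_lit 0) [nat_lit 0x41] <|
br (nat_lit 0x200010030) (node (nat_lit 72) (nat_lit 0) [] <|
br (nat_lit 0x200010048) (leaf (nat_lit 2)) <|
br (nat_lit 0x8c0001004b) (leaf (nat_lit 4)) nil) <|
br (nat_lit 0x8200010033) (node (nat_lit 72) (nat_lit 0) [] <|
br (nat_lit 0x200010048) (leaf (nat_lit 4)) <|
br (nat_lit 0x8c0001004b) (leaf (nat_lit 32)) nil) <|
br (nat_lit 0x8e00020048) (node (nat_lit 72) (nat_lit 0) [] <|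
br (nat_lit 0x200010030) (leaf (nat_lit 4)) <|
br (nat_lit 0x8c00010033) (leaf (nat_lit 31)) nil) nil
def c25 : Cert := node (nat_lit 48) (nat_lit 0) [nat_lit 0x41] <|
br (nat_lit 0x200010030) (node (nat_lit 72) (nat_lit 0) [] <|
br (nat_lit 0x200010048) (leaf (nat_lit 1)) <|
br (nat_lit 0x8c0001004b) (leaf (nat_lit 2)) nil) <|
br (nat_lit 0x8200010033) (node (nat_lit 72) (nat_lit 0) [] <|
br (nat_lit 0x200010048) (leaf (nat_lit 2)) <|
br (nat_lit 0x8c0001004b) (leaf (nat_lit 4)) nil) <|
br (nat_lit 0x8e00020048) (node (nat_lit 72) (nat_lit 0) [] <|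
br (nat_lit 0x200010030) (leaf (nat_lit 2)) <|
br (nat_lit 0x8c00010033) (leaf (nat_lit 5)) nil) nil
def c26 : Cert := node (nat_lit 96) (nat_lit 0) [nat_lit 0x12070c3] <|
br (nat_lit 0x20001014e) (node (nat_lit 120) (nat_lit 0) [nat_lit 0x12070c3] <|
br (nat_lit 0x200010064) (leaf (nat_lit 14)) <|
br (nat_lit 0x8e0003016e) (leaf (nat_lit 27)) <|
br (nat_lit 0x240e00010011) (leaf (nat_lit 8)) <|
br (nat_lit 0x2390000102d7) (leaf (nat_lit 20)) nil) <|
br (nat_lit 0x810003043c) (node (nat_lit 120) (nat_lit 0) [] <|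
br (nat_lit 0x200010582) (leaf (nat_lit 27)) <|
br (nat_lit 0x8e00010616) (leaf (nat_lit 21)) <|
br (nat_lit 0x9000010657) (leaf (nat_lit 28)) <|
br (nat_lit 0x240e00010225) (leaf (nat_lit 18)) <|
br (nat_lit 0x2390000102bc) (leaf (nat_lit 27)) <|
br (nat_lit 0x8e40e0001066e) (leaf (nat_lit 33)) nil) <|
br (nat_lit 0x2081000301da) (node (nat_lit 120) (nat_lit 0) [] <|
br (nat_lit 0x2000100f2) (leaf (nat_lit 11)) <|
br (nat_lit 0x8e00010207) (leaf (nat_lit 19)) <|
br (nat_lit 0x90000101f1) (leaf (nat_lit 27)) <|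
br (nat_lit 0x240e00010024) (leaf (nat_lit 24)) <|
br (nat_lit 0x2390000101c2) (leaf (nat_lit 18)) <|
br (nat_lit 0x8e40e000104f5) (leaf (nat_lit 27)) nil) <|
br (nat_lit 0x8c081000103e1) (node (nat_lit 120) (nat_lit 0) [nat_lit 0x12070c3] <|
br (nat_lit 0x2000103a3) (leaf (nat_lit 19)) <|
br (nat_lit 0x8e00030678) (leaf (nat_lit 5)) <|
br (nat_lit 0x240e00010345) (leaf (nat_lit 17)) <|
br (nat_lit 0x23900001019a) (leaf (nat_lit 19)) nil) nil
def c27 : Cert := node (nat_lit 96) (nat_lit 0) [nat_lit 0x10c3] <|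
br (nat_lit 0x200010006) (node (nat_lit 24) (nat_lit 0) [nat_lit 0x47] <|
br (nat_lit 0x2000200cf) (node (nat_lit 48) (nat_lit 0) [] <|
br (nat_lit 0x2000100f6) (leaf (nat_lit 8)) <|
br (nat_lit 0x8e0001009f) (leaf (nat_lit 10)) nil) <|
br (nat_lit 0x23900001009f) (node (nat_lit 1656) (nat_lit 0) [] <|
br (nat_lit 0x20001068c) (leaf (nat_lit 14)) <|
br (nat_lit 0x8e00010681) (leaf (nat_lit 10)) nil) nil) <|
br (nat_lit 0x80000301b6) (node (nat_lit 48) (nat_lit 0) [nat_lit 0x470c3] <|
br (nat_lit 0x2000200f6) (node (nat_lit 24) (nat_lit 0) [] <|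
br (nat_lit 0x2000100c6) (leaf (nat_lit 18)) <|
br (nat_lit 0x8e40e0001009f) (leaf (nat_lit 24)) nil) <|
br (nat_lit 0x90000100c6) (node (nat_lit 1464) (nat_lit 0) [] <|
br (nat_lit 0x2000105c1) (leaf (nat_lit 8)) <|
br (nat_lit 0x8e40e000105cc) (leaf (nat_lit 23)) nil) nil) <|
br (nat_lit 0x20810003001e) (node (nat_lit 24) (nat_lit 0) [nat_lit 0x47] <|
br (nat_lit 0x2000200c6) (node (nat_lit 48) (nat_lit 0) [] <|
br (nat_lit 0x2000100ff) (leaf (nat_lit 24)) <|
br (nat_lit 0x8e0001009f) (leaf (nat_lit 29)) nil) <|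
br (nat_lit 0x23900001009f) (node (nat_lit 1656) (nat_lit 0) [] <|
br (nat_lit 0x200010681) (leaf (nat_lit 11)) <|
br (nat_lit 0x8e0001068c) (leaf (nat_lit 25)) nil) nil) <|
br (nat_lit 0x8c080000102d6) (node (nat_lit 24) (nat_lit 0) [nat_lit 0x47] <|
br (nat_lit 0x2000200c6) (node (nat_lit 48) (nat_lit 0) [] <|
br (nat_lit 0x2000100ff) (leaf (nat_lit 17)) <|
br (nat_lit 0x8e00010096) (leaf (nat_lit 24)) nil) <|
br (nat_lit 0x239000010096) (node (nat_lit 1656) (nat_lit 0) [] <|
br (nat_lit 0x200010681) (leaf (nat_lit 9)) <|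
br (nat_lit 0x8e0001068c) (leaf (nat_lit 24)) nil) nil) nil
def c28 : Cert := node (nat_lit 96) (nat_lit 0) [nat_lit 0x1207] <|
br (nat_lit 0x20003024b) (node (nat_lit 24) (nat_lit 0) [nat_lit 0x47] <|
br (nat_lit 0x20001009b) (node (nat_lit 1656) (nat_lit 0) [] <|
br (nat_lit 0x20001067a) (leaf (nat_lit 24)) <|
br (nat_lit 0x8e00010680) (leaf (nat_lit 9)) nil) <|
br (nat_lit 0x90000200fb) (node (nat_lit 48) (nat_lit 0) [] <|
br (nat_lit 0x20001009b) (leaf (nat_lit 18)) <|
br (nat_lit 0x8e000100d5) (leaf (nat_lit 8)) nil) nil) <|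
br (nat_lit 0x800001000b) (node (nat_lit 24) (nat_lit 0) [nat_lit 0x47] <|
br (nat_lit 0x2000100a5) (node (nat_lit 1656) (nat_lit 0) [] <|
br (nat_lit 0x20001067a) (leaf (nat_lit 10)) <|
br (nat_lit 0x8e00010680) (leaf (nat_lit 12)) nil) <|
br (nat_lit 0x90000200fb) (node (nat_lit 48) (nat_lit 0) [] <|
br (nat_lit 0x2000100a5) (leaf (nat_lit 24)) <|
br (nat_lit 0x8e000100d5) (leaf (nat_lit 10)) nil) nil) <|
br (nat_lit 0x830003003b) (node (nat_lit 48) (nat_lit 0) [nat_lit 0x47207] <|
br (nat_lit 0x200020105) (node (nat_lit 24) (nat_lit 0) [] <|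
br (nat_lit 0x20001009b) (leaf (nat_lit 29)) <|
br (nat_lit 0x8e40e000100d5) (leaf (nat_lit 8)) nil) <|
br (nat_lit 0x8e000100d5) (node (nat_lit 1464) (nat_lit 0) [] <|
br (nat_lit 0x2000105ba) (leaf (nat_lit 11)) <|
br (nat_lit 0x8e40e000105c0) (leaf (nat_lit 13)) nil) nil) <|
br (nat_lit 0x2302000102db) (node (nat_lit 24) (nat_lit 0) [nat_lit 0x47] <|
br (nat_lit 0x20001009b) (node (nat_lit 1656) (nat_lit 0) [] <|
br (nat_lit 0x200010680) (leaf (nat_lit 8)) <|
br (nat_lit 0x8e0001067a) (leaf (nat_lit 23)) nil) <|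
br (nat_lit 0x9000020105) (node (nat_lit 48) (nat_lit 0) [] <|
br (nat_lit 0x20001009b) (leaf (nat_lit 6)) <|
br (nat_lit 0x8e000100cb) (leaf (nat_lit 8)) nil) nil) nil
def c29 : Cert := node (nat_lit 48) (nat_lit 0) [] <|
br (nat_lit 0x20001023a) (node (nat_lit 72) (nat_lit 0) [] <|
br (nat_lit 0x20001034b) (leaf (nat_lit 5)) <|
br (nat_lit 0x8c00010348) (leaf (nat_lit 6)) nil) <|
br (nat_lit 0x820001023f) (node (nat_lit 72) (nat_lit 0) [] <|
br (nat_lit 0x20001034b) (leaf (nat_lit 17)) <|
br (nat_lit 0x8c00010348) (leaf (nat_lit 5)) nil) <|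
br (nat_lit 0x8e0001034b) (node (nat_lit 72) (nat_lit 0) [] <|
br (nat_lit 0x20001023a) (leaf (nat_lit 18)) <|
br (nat_lit 0x8c0001023f) (leaf (nat_lit 5)) nil) <|
br (nat_lit 0x238200010348) (node (nat_lit 72) (nat_lit 0) [] <|
br (nat_lit 0x20001023a) (leaf (nat_lit 5)) <|
br (nat_lit 0x8c0001023f) (leaf (nat_lit 18)) nil) nil
def c30 : Cert := node (nat_lit 48) (nat_lit 0) [] <|
br (nat_lit 0x20001023a) (node (nat_lit 72) (nat_lit 0) [] <|
br (nat_lit 0x20001034b) (leaf (nat_lit 18)) <|
br (nat_lit 0x8c00010348) (leaf (nat_lit 16)) nil) <|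
br (nat_lit 0x820001023f) (node (nat_lit 72) (nat_lit 0) [] <|
br (nat_lit 0x20001034b) (leaf (nat_lit 33)) <|
br (nat_lit 0x8c00010348) (leaf (nat_lit 18)) nil) <|
br (nat_lit 0x8e0001034b) (node (nat_lit 72) (nat_lit 0) [] <|
br (nat_lit 0x20001023a) (leaf (nat_lit 5)) <|
br (nat_lit 0x8c0001023f) (leaf (nat_lit 18)) nil) <|
br (nat_lit 0x238200010348) (node (nat_lit 72) (nat_lit 0) [] <|
br (nat_lit 0x20001023a) (leaf (nat_lit 18)) <|
br (nat_lit 0x8c0001023f) (leaf (nat_lit 30)) nil) nil
def c31 : Cert := node (nat_lit 120) (nat_lit 0) [] <|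
br (nat_lit 0x200010013) (leaf (nat_lit 27)) <|
br (nat_lit 0x82000102e8) (leaf (nat_lit 24)) <|
br (nat_lit 0x8c000101c8) (leaf (nat_lit 8)) <|
br (nat_lit 0x8e00010498) (leaf (nat_lit 21)) <|
br (nat_lit 0x230200010048) (leaf (nat_lit 19)) <|
br (nat_lit 0x238200010650) (leaf (nat_lit 18)) <|
br (nat_lit 0x238c0001062c) (leaf (nat_lit 18)) <|
br (nat_lit 0x8e302000103c0) (leaf (nat_lit 28)) nil
def c32 : Cert := node (nat_lit 120) (nat_lit 0) [] <|
br (nat_lit 0x20001041a) (leaf (nat_lit 21)) <|
br (nat_lit 0x820001069b) (leaf (nat_lit 18)) <|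
br (nat_lit 0x8c00010611) (leaf (nat_lit 18)) <|
br (nat_lit 0x8e0001024f) (leaf (nat_lit 19)) <|
br (nat_lit 0x2302000103a8) (leaf (nat_lit 28)) <|
br (nat_lit 0x2382000100e1) (leaf (nat_lit 24)) <|
br (nat_lit 0x238c000100b6) (leaf (nat_lit 8)) <|
br (nat_lit 0x8e302000102dc) (leaf (nat_lit 27)) nil
def c33 : Cert := node (nat_lit 240) (nat_lit 0) [nat_lit 0x11c2043] <|
br (nat_lit 0x200030298) (node (nat_lit 120) (nat_lit 0) [] <|
br (nat_lit 0x200010085) (leaf (nat_lit 11)) <|
br (nat_lit 0x9000010073) (leaf (nat_lit 27)) <|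
br (nat_lit 0x8e30200010055) (leaf (nat_lit 19)) <|
br (nat_lit 0x2390300000101d5) (leaf (nat_lit 18)) <|
br (nat_lit 0x240e302000104d5) (leaf (nat_lit 24)) <|
br (nat_lit 0x8e40e3000001012b) (leaf (nat_lit 27)) nil) <|
br (nat_lit 0x8100030313) (node (nat_lit 120) (nat_lit 0) [] <|
br (nat_lit 0x2000106a8) (leaf (nat_lit 27)) <|
br (nat_lit 0x90000104ba) (leaf (nat_lit 33)) <|
br (nat_lit 0x8e302000103cd) (leaf (nat_lit 28)) <|
br (nat_lit 0x23903000001061e) (leaf (nat_lit 27)) <|
br (nat_lit 0x240e30200010698) (leaf (nat_lit 18)) <|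
br (nat_lit 0x8e40e300000103f0) (leaf (nat_lit 21)) nil) <|
br (nat_lit 0x8d000101e1) (node (nat_lit 360) (nat_lit 0) [nat_lit 0x11c2043] <|
br (nat_lit 0x200010596) (leaf (nat_lit 19)) <|
br (nat_lit 0x90000306a4) (leaf (nat_lit 5)) <|
br (nat_lit 0x239030000010528) (leaf (nat_lit 19)) <|
br (nat_lit 0x240e302000104bb) (leaf (nat_lit 17)) nil) <|
br (nat_lit 0x20800001017d) (node (nat_lit 360) (nat_lit 0) [nat_lit 0x11c2043] <|
br (nat_lit 0x200010009) (leaf (nat_lit 14)) <|
br (nat_lit 0x90000303da) (leaf (nat_lit 27)) <|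
br (nat_lit 0x239030000010131) (leaf (nat_lit 20)) <|
br (nat_lit 0x240e30200010102) (leaf (nat_lit 8)) nil) nil
def c34 : Cert := node (nat_lit 24) (nat_lit 0) [nat_lit 0x40] <|
br (nat_lit 0x20002000e) (node (nat_lit 72) (nat_lit 0) [] <|
br (nat_lit 0x200010026) (leaf (nat_lit 11)) <|
br (nat_lit 0x8c0001001d) (leaf (nat_lit 29)) nil) <|
br (nat_lit 0x8e40e00010026) (node (nat_lit 72) (nat_lit 0) [] <|
br (nat_lit 0x20001000e) (leaf (nat_lit 9)) <|
br (nat_lit 0x8c00010005) (leaf (nat_lit 8)) nil) <|
br (nat_lit 0x23903800001001d) (node (nat_lit 72) (nat_lit 0) [] <|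
br (nat_lit 0x20001000e) (leaf (nat_lit 24)) <|
br (nat_lit 0x8c00010005) (leaf (nat_lit 23)) nil) nil
def c35 : Cert := node (nat_lit 24) (nat_lit 0) [nat_lit 0x40] <|
br (nat_lit 0x200020056) (node (nat_lit 72) (nat_lit 0) [] <|
br (nat_lit 0x200010026) (leaf (nat_lit 10)) <|
br (nat_lit 0x8c0001001d) (leaf (nat_lit 11)) nil) <|
br (nat_lit 0x8e40e00010026) (node (nat_lit 72) (nat_lit 0) [] <|
br (nat_lit 0x200010056) (leaf (nat_lit 12)) <|
br (nat_lit 0x8c0001004d) (leaf (nat_lit 10)) nil) <|
br (nat_lit 0x23903800001001d) (node (nat_lit 72) (nat_lit 0) [] <|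
br (nat_lit 0x200010056) (leaf (nat_lit 10)) <|
br (nat_lit 0x8c0001004d) (leaf (nat_lit 14)) nil) nil
def c36 : Cert := node (nat_lit 24) (nat_lit 0) [nat_lit 0x40] <|
br (nat_lit 0x200020056) (node (nat_lit 72) (nat_lit 0) [] <|
br (nat_lit 0x200010026) (leaf (nat_lit 11)) <|
br (nat_lit 0x8c0001001d) (leaf (nat_lit 22)) nil) <|
br (nat_lit 0x8e40e00010026) (node (nat_lit 72) (nat_lit 0) [] <|
br (nat_lit 0x200010056) (leaf (nat_lit 13)) <|
br (nat_lit 0x8c0001004d) (leaf (nat_lit 11)) nil) <|
br (nat_lit 0x23903800001001d) (node (nat_lit 72) (nat_lit 0) [] <|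
br (nat_lit 0x200010056) (leaf (nat_lit 11)) <|
br (nat_lit 0x8c0001004d) (leaf (nat_lit 25)) nil) nil
def c37 : Cert := node (nat_lit 48) (nat_lit 0) [nat_lit 0x41] <|
br (nat_lit 0x200020050) (node (nat_lit 72) (nat_lit 0) [] <|
br (nat_lit 0x200010032) (leaf (nat_lit 25)) <|
br (nat_lit 0x8c00010038) (leaf (nat_lit 14)) nil) <|
br (nat_lit 0x8e00010032) (node (nat_lit 72) (nat_lit 0) [] <|
br (nat_lit 0x200010050) (leaf (nat_lit 14)) <|
br (nat_lit 0x8c0001004a) (leaf (nat_lit 26)) nil) <|
br (nat_lit 0x238200010038) (node (nat_lit 72) (nat_lit 0) [] <|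
br (nat_lit 0x200010050) (leaf (nat_lit 10)) <|
br (nat_lit 0x8c0001004a) (leaf (nat_lit 14)) nil) nil
def c38 : Cert := node (nat_lit 48) (nat_lit 0) [nat_lit 0x41] <|
br (nat_lit 0x200020050) (node (nat_lit 72) (nat_lit 0) [] <|
br (nat_lit 0x200010032) (leaf (nat_lit 11)) <|
br (nat_lit 0x8c00010038) (leaf (nat_lit 10)) nil) <|
br (nat_lit 0x8e00010032) (node (nat_lit 72) (nat_lit 0) [] <|
br (nat_lit 0x200010050) (leaf (nat_lit 10)) <|
br (nat_lit 0x8c0001004a) (leaf (nat_lit 14)) nil) <|
br (nat_lit 0x238200010038) (node (nat_lit 72) (nat_lit 0) [] <|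
br (nat_lit 0x200010050) (leaf (nat_lit 12)) <|
br (nat_lit 0x8c0001004a) (leaf (nat_lit 10)) nil) nil
def c39 : Cert := node (nat_lit 48) (nat_lit 0) [nat_lit 0x41] <|
br (nat_lit 0x20002001a) (node (nat_lit 72) (nat_lit 0) [] <|
br (nat_lit 0x200010032) (leaf (nat_lit 24)) <|
br (nat_lit 0x8c00010038) (leaf (nat_lit 23)) nil) <|
br (nat_lit 0x8e00010032) (node (nat_lit 72) (nat_lit 0) [] <|
br (nat_lit 0x20001001a) (leaf (nat_lit 25)) <|
br (nat_lit 0x8c00010020) (leaf (nat_lit 14)) nil) <|
br (nat_lit 0x238200010038) (node (nat_lit 72) (nat_lit 0) [] <|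
br (nat_lit 0x20001001a) (leaf (nat_lit 11)) <|
br (nat_lit 0x8c00010020) (leaf (nat_lit 10)) nil) nil
def c40 : Cert := node (nat_lit 120) (nat_lit 0) [nat_lit 0x1087040, nat_lit 0x10880c1] <|
br (nat_lit 0x2000601e1) (leaf (nat_lit 18)) <|
br (nat_lit 0x80000605a1) (leaf (nat_lit 5)) <|
br (nat_lit 0x8c0006065b) (leaf (nat_lit 33)) <|
br (nat_lit 0x8e000401b2) (leaf (nat_lit 24)) <|
br (nat_lit 0x900003002a) (leaf (nat_lit 5)) <|
br (nat_lit 0x230000060153) (leaf (nat_lit 17)) <|
br (nat_lit 0x23800004035d) (leaf (nat_lit 27)) <|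
br (nat_lit 0x240000010333) (leaf (nat_lit 6)) <|
br (nat_lit 0x240200030180) (leaf (nat_lit 17)) <|
br (nat_lit 0x9030200010001) (leaf (nat_lit 4)) <|
br (nat_lit 0x8e40e00040100) (leaf (nat_lit 24)) <|
br (nat_lit 0x239038000040572) (leaf (nat_lit 27)) nil
def c41 : Cert := node (nat_lit 96) (nat_lit 0) [nat_lit 0x1207] <|
br (nat_lit 0x2000301b1) (node (nat_lit 48) (nat_lit 0) [nat_lit 0x47207] <|
br (nat_lit 0x200020097) (node (nat_lit 24) (nat_lit 0) [] <|
br (nat_lit 0x2000100f1) (leaf (nat_lit 10)) <|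
br (nat_lit 0x8e40e000100c1) (leaf (nat_lit 18)) nil) <|
br (nat_lit 0x8e000100c1) (node (nat_lit 1464) (nat_lit 0) [] <|
br (nat_lit 0x2000105b9) (leaf (nat_lit 18)) <|
br (nat_lit 0x8e40e000105bf) (leaf (nat_lit 18)) nil) nil) <|
br (nat_lit 0x8000030019) (node (nat_lit 24) (nat_lit 0) [nat_lit 0x47] <|
br (nat_lit 0x2000200f7) (node (nat_lit 48) (nat_lit 0) [] <|
br (nat_lit 0x200010097) (leaf (nat_lit 18)) <|
br (nat_lit 0x8e000100c1) (leaf (nat_lit 21)) nil) <|
br (nat_lit 0x9000010097) (node (nat_lit 1656) (nat_lit 0) [] <|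
br (nat_lit 0x20001067f) (leaf (nat_lit 5)) <|
br (nat_lit 0x8e00010679) (leaf (nat_lit 5)) nil) nil) <|
br (nat_lit 0x8c00010001) (node (nat_lit 24) (nat_lit 0) [nat_lit 0x47] <|
br (nat_lit 0x2000200f1) (node (nat_lit 48) (nat_lit 0) [] <|
br (nat_lit 0x200010097) (leaf (nat_lit 18)) <|
br (nat_lit 0x8e000100c7) (leaf (nat_lit 30)) nil) <|
br (nat_lit 0x9000010097) (node (nat_lit 1656) (nat_lit 0) [] <|
br (nat_lit 0x200010679) (leaf (nat_lit 30)) <|
br (nat_lit 0x8e0001067f) (leaf (nat_lit 30)) nil) nil) <|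
br (nat_lit 0x2081000102d1) (node (nat_lit 24) (nat_lit 0) [nat_lit 0x47] <|
br (nat_lit 0x2000200f7) (node (nat_lit 48) (nat_lit 0) [] <|
br (nat_lit 0x200010091) (leaf (nat_lit 22)) <|
br (nat_lit 0x8e000100c1) (leaf (nat_lit 18)) nil) <|
br (nat_lit 0x9000010091) (node (nat_lit 1656) (nat_lit 0) [] <|
br (nat_lit 0x20001067f) (leaf (nat_lit 18)) <|
br (nat_lit 0x8e00010679) (leaf (nat_lit 18)) nil) nil) nil
def c42 : Cert := node (nat_lit 48) (nat_lit 0) [] <|
br (nat_lit 0x200010090) (node (nat_lit 72) (nat_lit 0) [] <|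
br (nat_lit 0x2000100f0) (leaf (nat_lit 21)) <|
br (nat_lit 0x8c000100f3) (leaf (nat_lit 20)) nil) <|
br (nat_lit 0x8200010093) (node (nat_lit 72) (nat_lit 0) [] <|
br (nat_lit 0x2000100f0) (leaf (nat_lit 20)) <|
br (nat_lit 0x8c000100f3) (leaf (nat_lit 31)) nil) <|
br (nat_lit 0x8e000100f0) (node (nat_lit 72) (nat_lit 0) [] <|
br (nat_lit 0x200010090) (leaf (nat_lit 20)) <|
br (nat_lit 0x8c00010093) (leaf (nat_lit 26)) nil) <|
br (nat_lit 0x2382000100f3) (node (nat_lit 72) (nat_lit 0) [] <|
br (nat_lit 0x200010090) (leaf (nat_lit 22)) <|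
br (nat_lit 0x8c00010093) (leaf (nat_lit 20)) nil) nil
def c43 : Cert := node (nat_lit 48) (nat_lit 0) [] <|
br (nat_lit 0x200010090) (node (nat_lit 72) (nat_lit 0) [] <|
br (nat_lit 0x2000100f0) (leaf (nat_lit 7)) <|
br (nat_lit 0x8c000100f3) (leaf (nat_lit 2)) nil) <|
br (nat_lit 0x8200010093) (node (nat_lit 72) (nat_lit 0) [] <|
br (nat_lit 0x2000100f0) (leaf (nat_lit 21)) <|
br (nat_lit 0x8c000100f3) (leaf (nat_lit 20)) nil) <|
br (nat_lit 0x8e000100f0) (node (nat_lit 72) (nat_lit 0) [] <|
br (nat_lit 0x200010090) (leaf (nat_lit 22)) <|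
br (nat_lit 0x8c00010093) (leaf (nat_lit 20)) nil) <|
br (nat_lit 0x2382000100f3) (node (nat_lit 72) (nat_lit 0) [] <|
br (nat_lit 0x200010090) (leaf (nat_lit 7)) <|
br (nat_lit 0x8c00010093) (leaf (nat_lit 22)) nil) nil
def c44 : Cert := node (nat_lit 96) (nat_lit 0) [nat_lit 0x47] <|
br (nat_lit 0x20001001b) (node (nat_lit 1656) (nat_lit 0) [] <|
br (nat_lit 0x200010678) (leaf (nat_lit 5)) <|
br (nat_lit 0x8e0001067b) (leaf (nat_lit 31)) nil) <|
br (nat_lit 0x8200020120) (node (nat_lit 48) (nat_lit 0) [] <|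
br (nat_lit 0x2000100c0) (leaf (nat_lit 17)) <|
br (nat_lit 0x8e000100f0) (leaf (nat_lit 20)) nil) <|
br (nat_lit 0x230200010003) (node (nat_lit 1656) (nat_lit 0) [] <|
br (nat_lit 0x20001067b) (leaf (nat_lit 4)) <|
br (nat_lit 0x8e00010678) (leaf (nat_lit 2)) nil) nil
def c45 : Cert := node (nat_lit 96) (nat_lit 0) [nat_lit 0x47] <|
br (nat_lit 0x2000102d3) (node (nat_lit 1656) (nat_lit 0) [] <|
br (nat_lit 0x200010678) (leaf (nat_lit 6)) <|
br (nat_lit 0x8e0001067b) (leaf (nat_lit 20)) nil) <|
br (nat_lit 0x8200020033) (node (nat_lit 48) (nat_lit 0) [] <|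
br (nat_lit 0x2000100c0) (leaf (nat_lit 5)) <|
br (nat_lit 0x8e000100f0) (leaf (nat_lit 21)) nil) <|
br (nat_lit 0x230200010243) (node (nat_lit 1656) (nat_lit 0) [] <|
br (nat_lit 0x20001067b) (leaf (nat_lit 17)) <|
br (nat_lit 0x8e00010678) (leaf (nat_lit 7)) nil) nil
def c46 : Cert := node (nat_lit 24) (nat_lit 0) [nat_lit 0x40] <|
br (nat_lit 0x200010028) (node (nat_lit 72) (nat_lit 0) [] <|
br (nat_lit 0x200010058) (leaf (nat_lit 25)) <|
br (nat_lit 0x8c00010054) (leaf (nat_lit 11)) nil) <|
br (nat_lit 0x8000010024) (node (nat_lit 72) (nat_lit 0) [] <|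
br (nat_lit 0x200010058) (leaf (nat_lit 11)) <|
br (nat_lit 0x8c00010054) (leaf (nat_lit 13)) nil) <|
br (nat_lit 0x8e40e00020058) (node (nat_lit 72) (nat_lit 0) [] <|
br (nat_lit 0x200010028) (leaf (nat_lit 11)) <|
br (nat_lit 0x8c00010024) (leaf (nat_lit 22)) nil) nil
def c47 : Cert := node (nat_lit 24) (nat_lit 0) [nat_lit 0x40] <|
br (nat_lit 0x200010028) (node (nat_lit 72) (nat_lit 0) [] <|
br (nat_lit 0x200010058) (leaf (nat_lit 14)) <|
br (nat_lit 0x8c00010054) (leaf (nat_lit 10)) nil) <|
br (nat_lit 0x8000010024) (node (nat_lit 72) (nat_lit 0) [] <|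
br (nat_lit 0x200010058) (leaf (nat_lit 10)) <|
br (nat_lit 0x8c00010054) (leaf (nat_lit 12)) nil) <|
br (nat_lit 0x8e40e00020058) (node (nat_lit 72) (nat_lit 0) [] <|
br (nat_lit 0x200010028) (leaf (nat_lit 10)) <|
br (nat_lit 0x8c00010024) (leaf (nat_lit 11)) nil) nil
def c48 : Cert := node (nat_lit 24) (nat_lit 0) [nat_lit 0x40] <|
br (nat_lit 0x200010028) (node (nat_lit 72) (nat_lit 0) [] <|
br (nat_lit 0x200010010) (leaf (nat_lit 24)) <|
br (nat_lit 0x8c0001000c) (leaf (nat_lit 23)) nil) <|
br (nat_lit 0x8000010024) (node (nat_lit 72) (nat_lit 0) [] <|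
br (nat_lit 0x200010010) (leaf (nat_lit 9)) <|
br (nat_lit 0x8c0001000c) (leaf (nat_lit 8)) nil) <|
br (nat_lit 0x8e40f00020010) (node (nat_lit 72) (nat_lit 0) [] <|
br (nat_lit 0x200010028) (leaf (nat_lit 29)) <|
br (nat_lit 0x8c00010024) (leaf (nat_lit 11)) nil) nil
def c49 : Cert := node (nat_lit 72) (nat_lit 0) [nat_lit 0x1200] <|
br (nat_lit 0x200010007) (node (nat_lit 24) (nat_lit 0) [nat_lit 0x40, nat_lit 0x10c80c2] <|
br (nat_lit 0x200020037) (node (nat_lit 48) (nat_lit 0) [] <|
br (nat_lit 0x200010019) (leaf (nat_lit 2)) <|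
br (nat_lit 0x820001001f) (leaf (nat_lit 5)) nil) <|
br (nat_lit 0x9000020019) (node (nat_lit 48) (nat_lit 0) [] <|
br (nat_lit 0x200010037) (leaf (nat_lit 5)) <|
br (nat_lit 0x8200010031) (leaf (nat_lit 5)) nil) nil) <|
br (nat_lit 0x8c00010001) (node (nat_lit 24) (nat_lit 0) [nat_lit 0x40, nat_lit 0x10c80c2] <|
br (nat_lit 0x200020037) (node (nat_lit 48) (nat_lit 0) [] <|
br (nat_lit 0x200010019) (leaf (nat_lit 5)) <|
br (nat_lit 0x820001001f) (leaf (nat_lit 30)) nil) <|
br (nat_lit 0x9000020019) (node (nat_lit 48) (nat_lit 0) [] <|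
br (nat_lit 0x200010037) (leaf (nat_lit 30)) <|
br (nat_lit 0x8200010031) (leaf (nat_lit 30)) nil) nil) <|
br (nat_lit 0x8e00040019) (node (nat_lit 24) (nat_lit 0) [nat_lit 0x41, nat_lit 0x10c80c2] <|
br (nat_lit 0x200020037) (node (nat_lit 48) (nat_lit 0) [] <|
br (nat_lit 0x200010007) (leaf (nat_lit 5)) <|
br (nat_lit 0x8200010001) (leaf (nat_lit 21)) nil) <|
br (nat_lit 0x9000020007) (node (nat_lit 48) (nat_lit 0) [] <|
br (nat_lit 0x200010037) (leaf (nat_lit 18)) <|
br (nat_lit 0x8200010031) (leaf (nat_lit 18)) nil) nil) nil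
def c50 : Cert := node (nat_lit 48) (nat_lit 0) [nat_lit 0x40, nat_lit 0x46] <|
br (nat_lit 0x2000405b9) (node (nat_lit 144) (nat_lit 0) [nat_lit 0x47207180] <|
br (nat_lit 0x2000205d7) (node (nat_lit 24) (nat_lit 0) [] <|
br (nat_lit 0x200010637) (leaf (nat_lit 10)) <|
br (nat_lit 0x8e40e30000010661) (leaf (nat_lit 28)) nil) <|
br (nat_lit 0x80000205a7) (node (nat_lit 24) (nat_lit 0) [] <|
br (nat_lit 0x200010631) (leaf (nat_lit 5)) <|
br (nat_lit 0x8e40e30000010661) (leaf (nat_lit 29)) nil) nil) <|
br (nat_lit 0x9000010637) (node (nat_lit 24) (nat_lit 0) [nat_lit 0x40] <|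
br (nat_lit 0x2000205b9) (node (nat_lit 72) (nat_lit 0) [] <|
br (nat_lit 0x200010667) (leaf (nat_lit 28)) <|
br (nat_lit 0x8c00010661) (leaf (nat_lit 30)) nil) <|
br (nat_lit 0x80000205bf) (node (nat_lit 72) (nat_lit 0) [] <|
br (nat_lit 0x200010667) (leaf (nat_lit 30)) <|
br (nat_lit 0x8c00010661) (leaf (nat_lit 28)) nil) nil) <|
br (nat_lit 0x240300010631) (node (nat_lit 24) (nat_lit 0) [nat_lit 0x40] <|
br (nat_lit 0x2000205b9) (node (nat_lit 72) (nat_lit 0) [] <|
br (nat_lit 0x200010667) (leaf (nat_lit 21)) <|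
br (nat_lit 0x8c00010661) (leaf (nat_lit 28)) nil) <|
br (nat_lit 0x80000205bf) (node (nat_lit 72) (nat_lit 0) [] <|
br (nat_lit 0x200010667) (leaf (nat_lit 28)) <|
br (nat_lit 0x8c00010661) (leaf (nat_lit 21)) nil) nil) nil
def c51 : Cert := node (nat_lit 1656) (nat_lit 0) [nat_lit 0x11c0] <|
br (nat_lit 0x200010024) (node (nat_lit 1680) (nat_lit 0) [] <|
br (nat_lit 0x20001000c) (leaf (nat_lit 2)) <|
br (nat_lit 0x8e30200010010) (leaf (nat_lit 5)) nil) <|
br (nat_lit 0x820002000c) (node (nat_lit 48) (nat_lit 0) [] <|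
br (nat_lit 0x200010604) (leaf (nat_lit 5)) <|
br (nat_lit 0x8e302000105dd) (leaf (nat_lit 21)) nil) <|
br (nat_lit 0x8e00010028) (node (nat_lit 1680) (nat_lit 0) [] <|
br (nat_lit 0x20001000c) (leaf (nat_lit 5)) <|
br (nat_lit 0x8e30200010010) (leaf (nat_lit 30)) nil) nil
def c52 : Cert := node (nat_lit 24) (nat_lit 0) [nat_lit 0x40, nat_lit 0x12020c2] <|
br (nat_lit 0x200020685) c51 <|
br (nat_lit 0x900004060d) (node (nat_lit 96) (nat_lit 0) [nat_lit 0x47] <|
br (nat_lit 0x200020625) (node (nat_lit 48) (nat_lit 0) [] <|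
br (nat_lit 0x200010685) (leaf (nat_lit 5)) <|
br (nat_lit 0x8e000105d4) (leaf (nat_lit 29)) nil) <|
br (nat_lit 0x8c0002066d) (node (nat_lit 48) (nat_lit 0) [] <|
br (nat_lit 0x200010685) (leaf (nat_lit 10)) <|
br (nat_lit 0x8e000105dd) (leaf (nat_lit 28)) nil) nil) nil
def c53 : Cert := node (nat_lit 72) (nat_lit 0) [nat_lit 0x1200] <|
br (nat_lit 0x20001062f) (node (nat_lit 24) (nat_lit 0) [nat_lit 0x40] <|
br (nat_lit 0x2000205fa) (node (nat_lit 48) (nat_lit 0) [] <|
br (nat_lit 0x2000105b7) (leaf (nat_lit 3)) <|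
br (nat_lit 0x82000105b2) (leaf (nat_lit 16)) nil) <|
br (nat_lit 0x80000205ff) (node (nat_lit 48) (nat_lit 0) [] <|
br (nat_lit 0x2000105b7) (leaf (nat_lit 16)) <|
br (nat_lit 0x82000105b2) (leaf (nat_lit 5)) nil) nil) <|
br (nat_lit 0x8c0001062a) (node (nat_lit 24) (nat_lit 0) [nat_lit 0x40] <|
br (nat_lit 0x2000205fa) (node (nat_lit 48) (nat_lit 0) [] <|
br (nat_lit 0x2000105b7) (leaf (nat_lit 16)) <|
br (nat_lit 0x82000105b2) (leaf (nat_lit 21)) nil) <|
br (nat_lit 0x80000205ff) (node (nat_lit 48) (nat_lit 0) [] <|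
br (nat_lit 0x2000105b7) (leaf (nat_lit 21)) <|
br (nat_lit 0x82000105b2) (leaf (nat_lit 33)) nil) nil) <|
br (nat_lit 0x8f000405b7) (node (nat_lit 96) (nat_lit 0) [nat_lit 0x48] <|
br (nat_lit 0x200020677) (node (nat_lit 24) (nat_lit 0) [] <|
br (nat_lit 0x2000105fa) (leaf (nat_lit 16)) <|
br (nat_lit 0x900001062f) (leaf (nat_lit 29)) nil) <|
br (nat_lit 0x82000205e7) (node (nat_lit 24) (nat_lit 0) [] <|
br (nat_lit 0x2000105fa) (leaf (nat_lit 13)) <|
br (nat_lit 0x900001062a) (leaf (nat_lit 21)) nil) nil) nil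
def c54 : Cert := node (nat_lit 1464) (nat_lit 0) [nat_lit 0x10c80c3] <|
br (nat_lit 0x200020047) (node (nat_lit 24) (nat_lit 0) [] <|
br (nat_lit 0x2000106be) (leaf (nat_lit 21)) <|
br (nat_lit 0x8e40e30000010646) (leaf (nat_lit 5)) nil) <|
br (nat_lit 0x8000010012) (node (nat_lit 1632) (nat_lit 0) [] <|
br (nat_lit 0x200010047) (leaf (nat_lit 21)) <|
br (nat_lit 0x8e40e30000010042) (leaf (nat_lit 21)) nil) <|
br (nat_lit 0x8c00010017) (node (nat_lit 1632) (nat_lit 0) [] <|
br (nat_lit 0x200010042) (leaf (nat_lit 21)) <|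
br (nat_lit 0x8e40e30000010047) (leaf (nat_lit 21)) nil) nil
def c55 : Cert := node (nat_lit 48) (nat_lit 0) [nat_lit 0x41] <|
br (nat_lit 0x2000206be) (node (nat_lit 144) (nat_lit 0) [nat_lit 0x480c2080] <|
br (nat_lit 0x200020613) (node (nat_lit 24) (nat_lit 0) [] <|
br (nat_lit 0x200010676) (leaf (nat_lit 13)) <|
br (nat_lit 0x8e40e30000010646) (leaf (nat_lit 21)) nil) <|
br (nat_lit 0x8c000205fe) (node (nat_lit 24) (nat_lit 0) [] <|
br (nat_lit 0x200010676) (leaf (nat_lit 16)) <|
br (nat_lit 0x8e40e30000010643) (leaf (nat_lit 29)) nil) nil) <|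
br (nat_lit 0x83000206bb) (node (nat_lit 144) (nat_lit 0) [nat_lit 0x480c2080] <|
br (nat_lit 0x2000205b3) (node (nat_lit 24) (nat_lit 0) [] <|
br (nat_lit 0x200010676) (leaf (nat_lit 21)) <|
br (nat_lit 0x8e40e30000010646) (leaf (nat_lit 25)) nil) <|
br (nat_lit 0x8c000205e3) (node (nat_lit 24) (nat_lit 0) [] <|
br (nat_lit 0x200010676) (leaf (nat_lit 29)) <|
br (nat_lit 0x8e40e30000010643) (leaf (nat_lit 33)) nil) nil) <|
br (nat_lit 0x9100020676) c54 nil
def c56 : Cert := node (nat_lit 96) (nat_lit 0) [nat_lit 0x10c3] <|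
br (nat_lit 0x200030128) (node (nat_lit 72) (nat_lit 0) [nat_lit 0x48] <|
br (nat_lit 0x2000200c8) (node (nat_lit 24) (nat_lit 0) [] <|
br (nat_lit 0x200010098) (leaf (nat_lit 24)) <|
br (nat_lit 0x90000100f8) (leaf (nat_lit 18)) nil) <|
br (nat_lit 0x8e000100f8) (node (nat_lit 1512) (nat_lit 0) [] <|
br (nat_lit 0x2000105fd) (leaf (nat_lit 23)) <|
br (nat_lit 0x90000105f3) (leaf (nat_lit 8)) nil) nil) <|
br (nat_lit 0x8100030032) (node (nat_lit 48) (nat_lit 0) [nat_lit 0x470c3] <|
br (nat_lit 0x2000200f8) (node (nat_lit 24) (nat_lit 0) [] <|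
br (nat_lit 0x200010092) (leaf (nat_lit 29)) <|
br (nat_lit 0x8e40e000100c8) (leaf (nat_lit 24)) nil) <|
br (nat_lit 0x8e000100c8) (node (nat_lit 1464) (nat_lit 0) [] <|
br (nat_lit 0x2000105c3) (leaf (nat_lit 11)) <|
br (nat_lit 0x8e40e000105cd) (leaf (nat_lit 25)) nil) nil) <|
br (nat_lit 0x8200010002) (node (nat_lit 24) (nat_lit 0) [nat_lit 0x47] <|
br (nat_lit 0x200010098) (node (nat_lit 1656) (nat_lit 0) [] <|
br (nat_lit 0x200010683) (leaf (nat_lit 10)) <|
br (nat_lit 0x8e0001068d) (leaf (nat_lit 14)) nil) <|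
br (nat_lit 0x90000200f2) (node (nat_lit 48) (nat_lit 0) [] <|
br (nat_lit 0x200010098) (leaf (nat_lit 8)) <|
br (nat_lit 0x8e000100c8) (leaf (nat_lit 10)) nil) nil) <|
br (nat_lit 0x2300000102d2) (node (nat_lit 24) (nat_lit 0) [nat_lit 0x47] <|
br (nat_lit 0x200010092) (node (nat_lit 1656) (nat_lit 0) [] <|
br (nat_lit 0x20001068d) (leaf (nat_lit 24)) <|
br (nat_lit 0x8e00010683) (leaf (nat_lit 9)) nil) <|
br (nat_lit 0x90000200f8) (node (nat_lit 48) (nat_lit 0) [] <|
br (nat_lit 0x200010092) (leaf (nat_lit 17)) <|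
br (nat_lit 0x8e000100c2) (leaf (nat_lit 24)) nil) nil) nil
def c57 : Cert := node (nat_lit 24) (nat_lit 0) [nat_lit 0x40] <|
br (nat_lit 0x200020000) (node (nat_lit 72) (nat_lit 0) [] <|
br (nat_lit 0x20001001b) (leaf (nat_lit 5)) <|
br (nat_lit 0x8c00010018) (leaf (nat_lit 21)) nil) <|
br (nat_lit 0x8e40e0001001b) (node (nat_lit 72) (nat_lit 0) [] <|
br (nat_lit 0x200010000) (leaf (nat_lit 17)) <|
br (nat_lit 0x8c00010003) (leaf (nat_lit 20)) nil) <|
br (nat_lit 0x239038000010018) (node (nat_lit 72) (nat_lit 0) [] <|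
br (nat_lit 0x200010000) (leaf (nat_lit 7)) <|
br (nat_lit 0x8c00010003) (leaf (nat_lit 6)) nil) nil
def c58 : Cert := node (nat_lit 24) (nat_lit 0) [nat_lit 0x40] <|
br (nat_lit 0x200020048) (node (nat_lit 72) (nat_lit 0) [] <|
br (nat_lit 0x20001001b) (leaf (nat_lit 30)) <|
br (nat_lit 0x8c00010018) (leaf (nat_lit 5)) nil) <|
br (nat_lit 0x8e40e0001001b) (node (nat_lit 72) (nat_lit 0) [] <|
br (nat_lit 0x200010048) (leaf (nat_lit 5)) <|
br (nat_lit 0x8c0001004b) (leaf (nat_lit 31)) nil) <|
br (nat_lit 0x239038000010018) (node (nat_lit 72) (nat_lit 0) [] <|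
br (nat_lit 0x200010048) (leaf (nat_lit 3)) <|
br (nat_lit 0x8c0001004b) (leaf (nat_lit 5)) nil) nil
def c59 : Cert := node (nat_lit 24) (nat_lit 0) [nat_lit 0x40] <|
br (nat_lit 0x200020048) (node (nat_lit 72) (nat_lit 0) [] <|
br (nat_lit 0x20001001b) (leaf (nat_lit 5)) <|
br (nat_lit 0x8c00010018) (leaf (nat_lit 2)) nil) <|
br (nat_lit 0x8e40e0001001b) (node (nat_lit 72) (nat_lit 0) [] <|
br (nat_lit 0x200010048) (leaf (nat_lit 2)) <|
br (nat_lit 0x8c0001004b) (leaf (nat_lit 4)) nil) <|
br (nat_lit 0x239038000010018) (node (nat_lit 72) (nat_lit 0) [] <|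
br (nat_lit 0x200010048) (leaf (nat_lit 1)) <|
br (nat_lit 0x8c0001004b) (leaf (nat_lit 2)) nil) nil
def c60 : Cert := node (nat_lit 48) (nat_lit 0) [nat_lit 0x40, nat_lit 0x46] <|
br (nat_lit 0x200010632) (node (nat_lit 24) (nat_lit 0) [nat_lit 0x40] <|
br (nat_lit 0x2000205ba) (node (nat_lit 72) (nat_lit 0) [] <|
br (nat_lit 0x200010662) (leaf (nat_lit 33)) <|
br (nat_lit 0x8c00010668) (leaf (nat_lit 5)) nil) <|
br (nat_lit 0x80000205c0) (node (nat_lit 72) (nat_lit 0) [] <|
br (nat_lit 0x200010662) (leaf (nat_lit 31)) <|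
br (nat_lit 0x8c00010668) (leaf (nat_lit 33)) nil) nil) <|
br (nat_lit 0x8200010638) (node (nat_lit 24) (nat_lit 0) [nat_lit 0x40] <|
br (nat_lit 0x2000205ba) (node (nat_lit 72) (nat_lit 0) [] <|
br (nat_lit 0x200010662) (leaf (nat_lit 21)) <|
br (nat_lit 0x8c00010668) (leaf (nat_lit 16)) nil) <|
br (nat_lit 0x80000205c0) (node (nat_lit 72) (nat_lit 0) [] <|
br (nat_lit 0x200010662) (leaf (nat_lit 33)) <|
br (nat_lit 0x8c00010668) (leaf (nat_lit 21)) nil) nil) <|
br (nat_lit 0x8f00040662) (node (nat_lit 96) (nat_lit 0) [nat_lit 0x47207] <|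
br (nat_lit 0x200020692) (node (nat_lit 24) (nat_lit 0) [] <|
br (nat_lit 0x2000105ba) (leaf (nat_lit 29)) <|
br (nat_lit 0x8e40e00010632) (leaf (nat_lit 33)) nil) <|
br (nat_lit 0x8c0002064a) (node (nat_lit 24) (nat_lit 0) [] <|
br (nat_lit 0x2000105ba) (leaf (nat_lit 21)) <|
br (nat_lit 0x8e40e00010638) (leaf (nat_lit 25)) nil) nil) nil
def c61 : Cert := node (nat_lit 0) (nat_lit 0) [nat_lit 0x42, nat_lit 0x43] <|
br (nat_lit 0x200010000) (node (nat_lit 24) (nat_lit 0) [nat_lit 0x11c1] <|
br (nat_lit 0x200010018) c0 <|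
br (nat_lit 0x800001001b) c1 <|
br (nat_lit 0x9000040030) c2 nil) <|
br (nat_lit 0x8600040008) (node (nat_lit 24) (nat_lit 0) [nat_lit 0x11c1] <|
br (nat_lit 0x20004004a) c3 <|
br (nat_lit 0x910001001a) c4 <|
br (nat_lit 0x240100010020) c5 nil) <|
br (nat_lit 0x8800300079) c6 <|
br (nat_lit 0x8a00080060) (node (nat_lit 24) (nat_lit 0) [nat_lit 0x47] <|
br (nat_lit 0x200010093) c7 <|
br (nat_lit 0x8000010090) c8 <|
br (nat_lit 0x91000200c3) c9 <|
br (nat_lit 0x2401000200c0) c10 nil) <|
br (nat_lit 0x218700040006) (node (nat_lit 24) (nat_lit 0) [nat_lit 0x11c1] <|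
br (nat_lit 0x200040036) c11 <|
br (nat_lit 0x23910001001e) c12 <|
br (nat_lit 0x8e40100010027) c13 nil) <|
br (nat_lit 0x21850004000b) (node (nat_lit 24) (nat_lit 0) [nat_lit 0x11c1] <|
br (nat_lit 0x20001002d) c14 <|
br (nat_lit 0x8100010023) c15 <|
br (nat_lit 0x9100040053) c16 nil) <|
br (nat_lit 0x220700c00086) c17 <|
br (nat_lit 0x228700200068) c18 <|
br (nat_lit 0x228900c001a3) c19 <|
br (nat_lit 0x8610500060001) (node (nat_lit 24) (nat_lit 0) [nat_lit 0x11c1] <|
br (nat_lit 0x200040049) c20 <|
br (nat_lit 0x9000010019) c21 <|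
br (nat_lit 0x24000001001f) c22 nil) <|
br (nat_lit 0x8410500010003) (node (nat_lit 24) (nat_lit 0) [nat_lit 0x11c1] <|
br (nat_lit 0x200040030) c23 <|
br (nat_lit 0x900001001b) c24 <|
br (nat_lit 0x240000010018) c25 nil) <|
br (nat_lit 0x8818700c00084) c26 <|
br (nat_lit 0x8a18700200066) c27 <|
br (nat_lit 0x8a1850020006b) c28 <|
br (nat_lit 0x8a20501200199) (node (nat_lit 24) (nat_lit 0) [nat_lit 0x10c80c2] <|
br (nat_lit 0x2000102cb) c29 <|
br (nat_lit 0x81000102ce) c30 <|
br (nat_lit 0x910002023a) c31 <|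
br (nat_lit 0x23910002034b) c32 nil) <|
br (nat_lit 0x8810900c00452) c33 <|
br (nat_lit 0x8a10b0018003e) (node (nat_lit 48) (nat_lit 0) [nat_lit 0x1180, nat_lit 0x47207] <|
br (nat_lit 0x200040056) c34 <|
br (nat_lit 0x910001000e) c35 <|
br (nat_lit 0x240300010005) c36 nil) <|
br (nat_lit 0x218410500040002) (node (nat_lit 24) (nat_lit 0) [nat_lit 0x11c1] <|
br (nat_lit 0x20001001a) c37 <|
br (nat_lit 0x8100010020) c38 <|
br (nat_lit 0x9100040050) c39 nil) <|
br (nat_lit 0x22041050030007f) c40 <|
br (nat_lit 0x228610500300061) c41 <|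
br (nat_lit 0x228410500080063) (node (nat_lit 24) (nat_lit 0) [nat_lit 0x47] <|
br (nat_lit 0x2000200c3) c42 <|
br (nat_lit 0x81000200c0) c43 <|
br (nat_lit 0x9000010090) c44 <|
br (nat_lit 0x240100010093) c45 nil) <|
br (nat_lit 0x22842870018003c) (node (nat_lit 48) (nat_lit 0) [nat_lit 0x1180, nat_lit 0x420c1] <|
br (nat_lit 0x200010010) c46 <|
br (nat_lit 0x830001000c) c47 <|
br (nat_lit 0x8f00040058) c48 nil) <|
br (nat_lit 0x220200900120049) c49 <|
br (nat_lit 0x2204009004806a9) c50 <|
br (nat_lit 0x220e0090048069d) c52 <|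
br (nat_lit 0x22100090024065f) c53 <|
br (nat_lit 0x220c109004805cb) c55 <|
br (nat_lit 0x8a18410500200062) c56 <|
br (nat_lit 0x8a10a10500060033) (node (nat_lit 48) (nat_lit 0) [nat_lit 0x1180, nat_lit 0x420c1] <|
br (nat_lit 0x200040048) c57 <|
br (nat_lit 0x9000010000) c58 <|
br (nat_lit 0x240200010003) c59 nil) <|
br (nat_lit 0x88100205002406aa) c60 nil
def ce : Cert := c61
def rt : List ((List ℤ × List (List ℤ)) × ℕ) := [(([-2], [[0], [1], [-1], [0]]), t1),
  (([-2], [[0], [0], [1], [-1]]), t2),
  (([-2], [[0], [0], [0], [1]]), t3),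
  (([-2], [[1], [-1], [-1], [-1]]), t4),
  (([-2], [[1], [0, 1], [0, 0, 1], [0, 0, 0, 1]]), t5)]
def z : Dat := ⟨sy, rt, t0, sl, v0, ls, Iv, sg, ce, cs, nat_lit 82944, nat_lit 21, [nat_lit 1, nat_lit 0, nat_lit 0, nat_lit 0, nat_lit 1, nat_lit 0, nat_lit 1, nat_lit 0, nat_lit 4, nat_lit 0, nat_lit 3, nat_lit 0, nat_lit 11, nat_lit 0, nat_lit 12, nat_lit 0, nat_lit 27, nat_lit 0, nat_lit 36, nat_lit 0, nat_lit 66, nat_lit 0], [nat_lit 1, nat_lit 8, nat_lit 36, nat_lit 120, nat_lit 330, nat_lit 792, nat_lit 1716, nat_lit 3432, nat_lit 6435, nat_lit 11440, nat_lit 19448, nat_lit 31824, nat_lit 50388, nat_lit 77520, nat_lit 116280, nat_lit 170544, nat_lit 245157, nat_lit 346104, nat_lit 480700, nat_lit 657800, nat_lit 888030, nat_lit 1184040], nat_lit 36⟩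

theorem h0 : z.c0 = true := by decide +kernel
theorem h1 : z.y.ok = true := by decide +kernel
theorem r0 : sy.rok [-2] [[0], [1], [-1], [0]] t1 = true := by decide +kernel
theorem r1 : sy.rok [-2] [[0], [0], [1], [-1]] t2 = true := by decide +kernel
theorem r2 : sy.rok [-2] [[0], [0], [0], [1]] t3 = true := by decide +kernel
theorem r3 : sy.rok [-2] [[1], [-1], [-1], [-1]] t4 = true := by decide +kernel
theorem r4 : sy.rok [-2] [[1], [0, 1], [0, 0, 1], [0, 0, 0, 1]] t5 = true := by decide +kernel
theorem hr : allL z.rt (fun e => z.y.rok e.1.1 e.1.2 e.2) = true :=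
  allL_cons r0 (allL_cons r1 (allL_cons r2 (allL_cons r3 (allL_cons r4 (Eq.refl true)))))
theorem h2 : z.c2 = true := by decide +kernel
theorem h3 : z.c3 = true := by decide +kernel
theorem h4 : z.c4 = true := by decide +kernel
theorem h5 : z.c5 = true := by decide +kernel
theorem h6 : z.c6 = true := by decide +kernel
theorem h7 : z.c7 4 = true := by decide +kernel

end Pool.Agent.P.MP_97ea17_al.Ck.DS2
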