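import Pool.Agent.P.MP_97ea17_al.DR

/-! Data and kernel checks for one group. -/

namespace Pool.Agent.P.MP_97ea17_al.Ck.DU

open Cert
set_option maxRecDepth 100000
set_option exponentiation.threshold 100000
set_option linter.all false

def Mt : ℕ := nat_lit 0x3010c0207000f150a0d050b100608141611040e12091317000000000000000000000000000000000000000000000000000000000000000000000000000000000000000000000000000000000000000000000000000000000000000000000000000000000000000000000000000000000000000000000000000000000000000007030f050001100a0b140811060c0e0412150902130d171600000000000000000000000000000000000000000000000000000000000000000000000000000000000000000000000000000000000000000000000000000000000000000000000000000000000000000000000000000000000000000000000000000000000000000f0a14001106080e0407120509020313100d01170b160c1500000000000000000000000000000000000000000000000000000000000000000000000000000000000000000000000000000000000000000000000000000000000000000000000000000000000000000000000000000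0000000000000000000000000000000000004020015080d13071710060103160b110e120c0f090a051400000000000000000000000000000000000000000000000000000000000000000000000000000000000000000000000000000000000000000000000000000000000000000000000000000000000000000000000000000000000000000000000000000000000000000100060e03070c111509020a0f10050d170b1408160412130000000000000000000000000000000000000000000000000000000000000000000000000000000000000000000000000000000000000000000000000000000000000000000000000000000000000000000000000000000000000000000000000000000000000000000710080103060b11040e150c0f0209130a0d051714161200000000000000000000000000000000000000000000000000000000000000000000000000000000000000000000000000000000000000000000000000000000000000000000000000000000000000000000000000000000000000000000000000000000000000000c150d070b10050814031602040e01120f0900130a17061100000000000000000000000000000000000000000000000000000000000000000000000000000000000000000000000000000000000000000000000000000000000000000000000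00000000000000000000000000000000000000000000000000000000000000000110f0812060a09040513030d021417010b0e16000c07151000000000000000000000000000000000000000000000000000000000000000000000000000000000000000000000000000000000000000000000000000000000000000000000000000000000000000000000000000000000000000000000000000000000000000000b0c051610150414021201090e0d13000a0817070603110f0000000000000000000000000000000000000000000000000000000000000000000000000000000000000000000000000000000000000000000000000000000000000000000000000000000000000000000000000000000000000000000000000000000000000000080413060d02031701110b1216000f0c09070a150510140e0000000000000000000000000000000000000000000000000000000000000000000000000000000000000000000000000000000000000000000000000000000000000000000000000000000000000000000000000000000000000000000000000000000000000000140e071105091203130f100001170a0b0816060c0415020d00000000000000000000000000000000000000000000000000000000000000000000000000000000000000000000000000000000000000000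000000000000000000000000000000000000000000000000000000000000000000000000000000000000000000000000a0602170f11140d0e160004080912071505130310010b0c0000000000000000000000000000000000000000000000000000000000000000000000000000000000000000000000000000000000000000000000000000000000000000000000000000000000000000000000000000000000000000000000000000000000000000061109030a0f02050d01170e140800160c0407121513100b0000000000000000000000000000000000000000000000000000000000000000000000000000000000000000000000000000000000000000000000000000000000000000000000000000000000000000000000000000000000000000000000000000000000000000100b0401150c0e02090013080d0507170614031611120f0a00000000000000000000000000000000000000000000000000000000000000000000000000000000000000000000000000000000000000000000000000000000000000000000000000000000000000000000000000000000000000000000000000000000000000000d08030b02041601120c0f070013150a0517100614110e0900000000000000000000000000000000000000000000000000000000000000000000000000000000000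0000000000000000000000000000000000000000000000000000000000000000000000000000000000000000000000000000000000000000000000000000005141210090e0113000b0a1617070c0604031511020f0d0800000000000000000000000000000000000000000000000000000000000000000000000000000000000000000000000000000000000000000000000000000000000000000000000000000000000000000000000000000000000000000000000000000000000000001317110d12160b0f0c0809060a15040503100214010e0007000000000000000000000000000000000000000000000000000000000000000000000000000000000000000000000000000000000000000000000000000000000000000000000000000000000000000000000000000000000000000000000000000000000000000015100e130c0b0d090817071405041603110212010f000a060000000000000000000000000000000000000000000000000000000000000000000000000000000000000000000000000000000000000000000000000000000000000000000000000000000000000000000000000000000000000000000000000000000000000000020d160f04080012070a1517130306101401110b0e0c090500000000000000000000000000000000000000000000000000000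000000000000000000000000000000000000000000000000000000000000000000000000000000000000000000000000000000000000000000000000000000000000000000000000000000000000905010a0e14170016060c030712111502130f100d0b0804000000000000000000000000000000000000000000000000000000000000000000000000000000000000000000000000000000000000000000000000000000000000000000000000000000000000000000000000000000000000000000000000000000000000000012130b0916170a0c0605041015111402010f0e0d0008070300000000000000000000000000000000000000000000000000000000000000000000000000000000000000000000000000000000000000000000000000000000000000000000000000000000000000000000000000000000000000000000000000000000000000000e09170c14050716031511131201100f0d000b0a08060402000000000000000000000000000000000000000000000000000000000000000000000000000000000000000000000000000000000000000000000000000000000000000000000000000000000000000000000000000000000000000000000000000000000000000016120a04171315061002140f110b0d0e000c080907050301000000000000000000000000000000000000000000000000000000000000000000000000000000000000000000000000000000000000000000000000000000000000000000000000000000000000000000000000000000000000000000000000000000000000000017161514131211100f0e0d0c0b0a09080706050403020100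
def EQ : ℕ := nat_lit 0x8080807c8080808080808080807c8080807e8082808280828082807e807e80828080808080848080808080848080808080828082807e80828082807e80828082808280828082807e80828082807e807e8082807e8082807e807e8082807e807e8082807e807e807e807e807e8082807e807e80828082807e807e807e807e807e807c808080808080807e807e807e8082807e807e80828082807e8082807e8082808080808080808480828082808280828084808080808080808080808080807c808080888080808080808080808880808084807c807c807c807c80848084807c80808080807880808080807880808080807c807c8084807c807c8084807c807c807c807c807c8084807c807c80848084807c8084807c80848084807c80848084807c80848084808480848084807c80848084807c807c808480848084808480848088808080808080808480848084807c80848084807c807c8084807c8084807c8080808080808078807c807c807c807c80788080808080808080808080808088808080808080808080808080808080808080808080808080808080808080808080808080808080808080808080808080808080808080808080808080808080808080808080808080808080808080808080808080808080808080808080808080808080808080808080808080808080808080808080808080808080808080808080808080808080808080808080808080808080808080808080808080808080808080808080808080808080808080808080808080808080808080808080808080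
def LT : ℕ := nat_lit 0x3000310000003c003e0030003700000040003e0030003c003e00310000003000000043003400450030003c0035003700000030003c0035003100000030003b003d004600000030003900410000004700300045003400460000003000310000003c0035003000370000004000350030003b0034004600000030003100000040003e0030003a004400470000003000000046003400450030004100390042000000300039003a000000470030000000420044003a003000310000004000350030003e00400000003700300039003a00000042003000000042004400410030004500340043000000300045003d004600000030003b003d00430000003000410044004200000030003a0044004200000030003e0040000000310030000000460034003b0030000000420039003a0030003a00390042000000300042000000410044003000000042003900410030003c003e0037000000300040003500370000003000300000003600320030003a00390047000000300040003e003100000030003500400000003700300035004000000031003000370000003c003e0030003900410000004200300044003a000000420030000000310035003c003000410044004700000030003d004500000043003000000043003d0045003000430000003b003400300046000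0004500340030003d003b00000043003000400035003100000030000000370035003c003000000046003d003b0030000000430034003b003000000033003200360030004100390047000000300032003f0000003000300044004100000047003000430000003b003d0030004600000045003d003000370000003c00350030003b00340043000000300032003600000030003000000046003d004500300044003a00000047003000000030003200360030000000470044003a0030003e003c00000037003000430000004500340030003d0045000000460030000000470044004100300032003f00000033003000420000003a004400300045003d00430000003000340045000000460030000000470039003a003000300000003f003200300038003f0000003300000030004700310043003000000031003e003c0030000000330038003600300035003c0000003100300000004700390041000000300047003700460030003e003c00000031003000000031003500400030004300000045003d0030000000330032003f0030003400450000004300300038003f0000003000300047000000410044003000000031003e0040003000470000003a004400300040003e00370000003000330000003600320030000000330038003f00300035003c000000370000003000420031004600300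0330000003f00320000003000420037004600300044004100000042003000420000003a003900300047000000410039003000460000003b003400300034003b00000043003000000037003e003c003000000043003d003b003000300000003f003800300033000000360038003000460000003b003d00000030004200370043003000380036000000300000003000420031004300000030004700310046003000000030003800360000003000470037004300300042000000410039003000300000003600380030003d003b000000460030003200360000003300300034003b000000460000003000310043004700300038003600000033000000300037004600420030003f0032003000000000003000370043004200000030003100430042003000000037003500400030000000300032003f0030003f0038003300000030003600320033000000300036003800300000003000000037003e004000000030003700460047000000300043004700310030000000300038003f0000003000370043004700000030003000300030003000470000003a003900000030003100460042000000300046004200310000003000460047003700000030004300420037003000330000003f0038000000300031004600470000003000330033003000000030003300300033000000300030003300330030003f0032003300000030003f003800300000000000300046004200370000003000330033003300300036003200300000000000300046004700310000003000330030003000300036003800330000000000300043004200310000003000300033003000000030004300470037000000300030003000330018000000000000000000000018000000000000000000000018000000000000000000000018000000000000000000000018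
def Pt : ℕ := nat_lit 0x130110010e000d010c010b000b0109010800080107000601050104000401030003010200020101000101000000
def Iv : ℕ := nat_lit 0x1213141516170504080a0c0d090e0b0f0102111003060700
def sy : Sys := ⟨nat_lit 5, nat_lit 2, nat_lit 24, nat_lit 165, nat_lit 3, Mt, EQ, LT, Pt, [nat_lit 1, nat_lit 2], nat_lit 115, nat_lit 2749⟩
def t0 : ℕ := nat_lit 0xf600f480f300f180f000ee80ed00eb80ea00e880e700e580e400e280e100df80de00dc80db00d980d800d680d500d380d200d080cf00cd80cc00ca80c900c780c600c480c300c180c000be80bd00bb80ba00b880b700b580b400b280b100af80ae00ac80ab00a980a800a680a500a380a200a0809f009d809c009a8099009780960094809300918090008e808d008b808a008880870085808400828081007f807e007c807b0079807800768075007380720070806f006d806c006a8069006780660064806300618060005e805d005b805a005880570055805400528051004f804e004c804b0049804800468045004380420040803f003d803c003a8039003780360034803300318030002e802d002b802a002880270025802400228021001f801e001c801b0019801800168015001380120010800f000d800c000a80090007800600048003000180000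
def t1 : ℕ := nat_lit 0xe400ba00c480b100ee80f000d200eb80d500db009c009a80f600cf009780a380de00ca80e880d980d800c600ea008880ed00b400e280cd80a800dc80c0008a00d680f300ab008400c9006a80bd00bb80f480b880b7007f80d080b280f18090005b80ac80c3005880cc0057007e00df80a200a08075005280e700e5809900e10096004b0085809180af808e807b008b80c780d38087009300c18082804980b580a5007c808d004c8078006d809f006780720070806c0076806f00be80630073806600618069006480600048002700ae005a00a980a68046801f809d804e004f8051007980948081005e8055804500438042001e003f003a8018003d80258030002b80168012000d8037802a000c0036002e800a805d003900108015000900540040800f00138007803c00348022801b00330024001c8031802d0028802100198006000480030001b0000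
def t2 : ℕ := nat_lit 0xf600f480ee80e100c480f300e580de00d380e880e700ed00e400c000f180d080eb809300db009180b8808d008880ea009a80df80c9007800a6808580cf00c7807b00f0006a80c180e280ab0066007c80ba00d8006000a980a380ac809780af80ae00b280be80b5805700cc009480b400990096009f009d809c00d200a200b100a080a500dc80d98090004500d68043808a00d5004200ca8084003f004e0058804b00bb80c6006180cd803780750036005a004f806f0030006c00c30069002b80bd004c8063007980b7005e805d005b8072007f80a80055805400528049807080810064807e005100480046808e808b8087002a0082802580168039003a807680738018000d8012006d801e001080678040800f0027003d800c00090015001f802e800a800780138034803c002100198031802d002880330024001c8022801b000600048003300180000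
def t3 : ℕ := nat_lit 0xba00e400be80f180c300ab00d380a080e5809c00db00ea00f480b400e100c9009600dc80e700bd00b700d6809a80ed008880cf00d080bb80cc00ca80df806f00c6006a80f0006900a380f300d980cd80f6006000d800b580e2807200b1005b8090005a00ee80a980a800a680a500c0007080eb8052807500e880d5004f809780de00948093006600ae0087008d0082806c00d2008e80858063008b8061b07f807e0078007b004e307c8076809d807380b280a200c7806d808a00c480c1806780918049b084008130b88027004800af80ac80588057001f8046809f004cb0990079b051304b0064b05d00540042003f0045003db0438040b012001e302eb0378036000d80180016803000393015302b8025b013b05e802a3009300c3010b055803ab007b00ab00f30330031802d3028b03c00213019b0348022b01b3024301cb0060004b003000180000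
def t4 : ℕ := nat_lit 0xc300f480e700ed00cd80ee80f180eb809f00e880f300b280a980b880ac809600c780dc809180d9808d00c000a800d380ae008580cf00f0007500a0806f00de006c007680f600c180d68066007f80ba00bb80e280b700b5805e80e5805b80af80d200e1005880e400d500a6805580a3805400ca80ea009d806d809a8099009780df8094804800db0045008e80d8004b008a0042005700d0803f0082803e40bd003c007c807b0039f03780c480cc004f8052803300c9009c00c6006a802b806780be802aa031802dd02700b4005d00b1005a00ab008700a500a20072001eb07380230021908b8024e09300180090001680888015c0840081d07e0011307a0078000d8034807080630030000cf062406900656028b0600009a04a204ef04d301f8051901c801b00198046804380415004b012003b10030036002f00018026600000060013b00f000a80078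
def t5 : ℕ := nat_lit 0xf600d500eb80f180ae00a500e880f300d680ed00e700e58099009780c180a6809480dc809300d9809000ea00f4808b808580cd808400d08078007080c900c780ba00c480b700e10066009f00b1006300c600b880c3005e80b4005d00bd00af80f000ac80ab00a980a800df80ee805400a2005280be809d8082804f80e400e2809600de00db004680d80058804380d380420088808700d200cf009c0041503c005b807c807b003b60cc005a00360073803300ca8030006d8031802b8069006000c0002f10bb8029406780b580b2807e0076808e801f805580a380a08026009a801d201bf04b001a301800918016808d008a0081c03f0014507f807a200f900d807500348072006c006f0065302d306a800b006250270051f0240022802100570008604ee04d004a104800450004b03e401200043039b0378002f02af000101ea00600153011e00d20097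
def t6 : ℕ := nat_lit 0xd8d0ccc0b480f180cfe0e640a420eb80c9f0ded0e1c0ef50e4009b10e7d0abb0e940dc80db00d980f6c0d680bf60c510c3808950f0a0cd80f550bdb0ea80c780bc30d430d2f0c1806b40d5a0cb10c6906210b8808110b580f3f0b28060c092108db05f20e0105de06570a680a500ede0a20057d0789093b05190e33056704ef04c9054809e10b03090008e80ae908b8045e0d1408060417044007e80b77087a083703bb039f079809fb07680750073806e606800382072a02dd0c0d036f071702b30a88028a0bab0b1d0ad60aa202660252021f0a140998095701ee09cb01c80980096701a704980480046808aa084f01620860013803d803c007de07b806fe069803480330031b00cf02e806cc00b706760636009d05c205b702280590007a053204f801b004b80063004e043703f00038010800f00018030802c0027c01fe0183016a012f00d80000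
def t7 : ℕ := nat_lit 0xb5805880ee808b80be80ab00180052801200768030003300a980e580828088809f0072003780db00af80870031803c003480d200ed00e40070805a00d38057004200f3006a80d680ea00f000e880f6007f805b80900091809a80690043807e009480c180c30066004f80a2009600d5005e809d80678036006d800d8027003f007500de00b280e7004b0054008e808a00a80016801f80ac808d00c78081d0d980a080ba0045006550f48078002b80b70063004800a680cd80cc00c480c60060009c0051407b0049c0ae009780f180a5008400bd0099009300ca80738079c05d0061c04d50eb804ed0b100dc8046806c0055802f606f002a50b40040d03e607c80d800c000df80cf00bb803ad02120b88039501d10e10026602d802300242085801ee01c4029c01a10a380e28009801040d080110008c0c90015200b100c201410060002c005100440009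
def t8 : ℕ := nat_lit 0x8d00c600c9005a00d080df80d3805580d2009300ca80ed00d6803c00ac800d801f807080dc804800630082809a808880ea0034801680c78045004f80318094803f00cf00b4006d801200c0005e808a007b0084006900b880180052807200b100e1009f00a38060008e80420091803300f48046805700cc008580e580e400b28054006600a2005d0097805b808b80e700a500d500ae00990030009c0079a0d800d9806c00438051206f00eb80a80078009d80ba004b00de007e00e2807680cd802700650037804d00c18073802b80f1807500b70087005880b580a6808180f6004e8049a0bd0061a036007f80af80db0090002f10e8802b40ee8041c03e10a0807c80be80c480c30096003bc022c0bb803a4019d06780261024d021d02d40a9801e9029601be01cd0f300ab0015d00860f0000cd00fe06a80094013d010c00ad00600026004d0035000e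
def t9 : ℕ := nat_lit 0xe730e8b0c330a830beb06ab0d530b730d230f4b0f63088b09c30dfb05730e2b060307b30ba307cb0a0b085b0ed309ab0ea30c030a3b06630b1308d30b43027309330ab30f3301fb0d0b0f030783091b0db309630ebb03030c9304230cc309db09f308730c4b06db0f1b097b02bb0cf303f30d830ae30afb0e430d3b082b0a6b0b8b067b0c630bbb052b05a30cab04fb05d30e5b0acb0d6b054309930810037b03630d9b0dcb07980bd3058b05bb04b30453043b05eb0a9b04830eeb055b094b0cdb0648046b06180de306f308a3075308eb076b0e13069308430903051008bb04e004c8073b049806c306330723070b0b2b04080a2303d800db03a8039007fb07e30123016b01830b5b02e802d00a5302a002880c7b02580240022802100c1b01e001c801b00198031b033301500138034b010800f003c300c000a80090007800630048003000180000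
def t10 : ℕ := nat_lit 0x743095d0c4c01430bec06ac0e6008ca0d220a5b03750ea806830c09029d0e3c083a04d807eb0b9e071a08200ed2088a09b00b540c990ece008d07a80e01080904a80f340f0d0c6c0a410abd09730b8304c50a32044f02460d1c0b2801bb0f270cc607200ef5009f01ad01d302aa0d040d99050f0a770e1602cd0d580bd100bd09a70269051c06160b1f08e806240cd90b690d3a05a304ec0d7406670c24010e02f20d93065405640a1e0156057f03b2042307cf0382022e030a0c3d094003e20df3054c08680204040707790aa20a860453021f00fb0dd408e0097e063c0787069c047403a1084c06e90cb408700bb90acb0e7c091f0f6c012e0e4c0f5402df01f1018e016d00dd00cf0e9406cc04190dbc053405920bac0c8405f405dc07c009cc075c0b040aec033e03ce048c090c034d08ac09fc031d06fc09e4027c05c40045006c005900260000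
def t11 : ℕ := nat_lit 0xfe00b60c36084e0c570f3f0e640a370d6001be01a6089801d60b4a05450e3904020b0c01460d98050a0a040eb00edc09b40e020d120cd8069509140c1104d607640ab60f0f024e0ca106ae09180780029608cf071a0f680a420eb90c2603e6039e0b770ef70e720635056608ad0d010b3e09a702f6041600860d48043301fd083a05d409e107cb03b60b890ae908fe07a60d2c0d8105310116046607410e480c850bd305c107e906630e9002ae05f50de10ade06560db806260bee00ce048d0bbb02cc02de0374044f04a604ee0266060709c204760236021e01ee095c088304c40a5902740681081e015e096705b30a0f086007330caa01730dca07b80f4a06f40135018b00ed0ba20c620cce06c40d6a037c051e08d80f1d05750986009e09380b6506e5058c035303450a6d077503cb0b150805032d0a8e03040e1e0a9c00560044006400230000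
def t12 : ℕ := nat_lit 0xf6002d80e340f180a420339006301e0002b0e8800980e5805060f3d0b00012c077109ce03fe0d980b610bae0d530d380d200ab8018a0cd809f8021b06b107ec00cb03c803550c1800e703260955036d0d7202580b700d8b017309e705af0e1f08f00ac80d1703e302930a6804d30f0e086605630ccf0b300dd2005d0151008309600bdc0930027c01a50aef08d007be07a6003401060a2a06090828074107f80c8504f708c208aa06cc0deb00b5081b01c6070806f006d8078d0c9b030b048d065f067202b40618084b04a605d005b80b180549042f0a110593052805100e4a07da0a5904b005f20684046804500241057804080dba0aa10c57020d039002f30bc40c3c0ef30bf2069903810f5702b806450a8909250b88043f02280cb103bc0eb801c80733090c0cfe0b49099701380e05010808830c080c69075c0e7f09810ed309bc08980eb60000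
def og : List ℕ := [t6, t5, t4, t3, t2, t1]
def sl : List (ℕ × ℕ) := [(t7, nat_lit 0x1084042141), (t8, nat_lit 0x10c4083142), (t9, nat_lit 0x421461c21461c2), (t10, nat_lit 0x410820c20c1043), (t11, nat_lit 0x440c2102083103), (t12, nat_lit 0x44104104144)]
def v0 : Lev := ⟨nat_lit 0, nat_lit 24, nat_lit 0x170090001a0024009b006f00820058009300720003009600490046000400950088006a001b008300610081009200a3009c009f009a008a008b0018006e00280032006d00650023009700710067005f003a0038007d004a00700044002d001d004e00210086000d00330043004c007500760069007e004f001c0099007c000c006b0074005900250052008500390080002e008d007b00560073002200840087004d006000550066009e0051004b0064005d006800340047008c009d006200290048009100780079002a002b002c000e003f002700200057001e005a0026005c00410042005e004000890077007f003e007a005b0045003c00980030003d006c001600a200a000a10019003700310050003b001f000500080009000a000b0011001200130014001500a4009400350010008f0006005300630007000f00010002008e0054002f00360000, nat_lit 165, nat_lit 0x11c020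4000000000000000000000000011c010700000000000000000000000047003200000000000000000000000000012021470000000000000000000000000120a0070000000000000000000000004700818200000000000000000000000000048087000000000000000000000000012001c40000000000000000000000000120208800000000000000000000000001202087000000000000000000000000012001cb000000000000000000000000011c51c000000000000000000000000047008080000000000000000000000000011c610700000000000000000000000047008046000000000000000000000000012000c7000000000000000000000000011c9008000000000000000000000000011c41c00000000000000000000000000120b088000000000000000000000000011c61000000000000000000000000000004808600000000000000000000000001205206000000000000000000000000011c51c1000000000000000000000000011c51880000000000000000000000000004808500000000000000000000000000001202000000000000000000000000011c60c4000000000000000000000000011c624b00000000000000000000000000047044000000000000000000000000011c4102000000000000000000000000011cb088000000000000000000000000011c80440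00000000000000000000000011c0087000000000000000000000000011c024500000000000000000000000001204088000000000000000000000000011c400b00000000000000000000000000047004000000000000000000000000011c114200000000000000000000000000048080000000000000000000000000011c620a00000000000000000000000000047185000000000000000000000000000470450000000000000000000000000004714600000000000000000000000000047042000000000000000000000000011c42c100000000000000000000000000047141000000000000000000000000011c6245000000000000000000000000011cb04700000000000000000000000000047202000000000000000000000000011c620000000000000000000000000000048281000000000000000000000000011c0209000000000000000000000000011c0206000000000000000000000000011c020100000000000000000000000047008183000000000000000000000000011c0202000000000000000000000000011c408b000000000000000000000000011c614200000000000000000000000000048040000000000000000000000000011c6141000000000000000000000000011c9003000000000000000000000000011c0141000000000000000000000000011c81c4000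000000000000000000000011c00c8000000000000000000000000011c6241000000000000000000000000011c41c600000000000000000000000000047101000000000000000000000000011c00c6000000000000000000000000011ca200000000000000000000000000011c00c50000000000000000000000000004718100000000000000000000000000048280000000000000000000000000000482460000000000000000000000000004700200000000000000000000000000048002000000000000000000000000011c0247000000000000000000000000000481c000000000000000000000000000047281000000000000000000000000011c0086000000000000000000000000011c010000000000000000000000000000047147000000000000000000000000000012050000000000000000000000000004800400000000000000000000000000047142000000000000000000000000011c00820000000000000000000000000004808400000000000000000000000000048082000000000000000000000000011c60c0000000000000000000000000011c0144000000000000000000000000000480880000000000000000000000000004724200000000000000000000000000047085000000000000000000000000000471840000000000000000000000000004728200000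00000000000000000000004800700000000000000000000000000048106000000000000000000000000011c62c700000000000000000000000000048003000000000000000000000000000472c8000000000000000000000000000472880000000000000000000000000004724800000000000000000000000000047246000000000000000000000000000472400000000000000000000000000004720b0000000000000000000000000004720a00000000000000000000000000047209000000000000000000000000011c00c9000000000000000000000000011c0104000000000000000000000000000472000000000000000000000000000004710800000000000000000000000000047107000000000000000000000000000011c5000000000000000000000000011c60c9000000000000000000000000000482c2000000000000000000000000000471000000000000000000000000000004710b0000000000000000000000000004704000000000000000000000000000048148000000000000000000000000011c60cb0000000000000000000000000004800a0000000000000000000000000004718b0000000000000000000000000004718900000000000000000000000000047188000000000000000000000000011c6205000000000000000000000000000471830000000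00000000000000000000472c20000000000000000000000000004720700000000000000000000000000047005000000000000000000000000000481020000000000000000000000000004724100000000000000000000000000048044000000000000000000000000011c01880000000000000000000000000004704700000000000000000000000000048109000000000000000000000000000472c1000000000000000000000000011c018000000000000000000000000000001201000000000000000000000000000470090000000000000000000000000004700800000000000000000000000000047102000000000000000000000000000472c000000000000000000000000000047003000000000000000000000000000481c20000000000000000000000000000120b0000000000000000000000000000120a0000000000000000000000000000120900000000000000000000000000001207000000000000000000000000000011c1000000000000000000000000000012040000000000000000000000000004810400000000000000000000000000047201000000000000000000000000000011c200000000000000000000000000001200000000000000000000000000000011cb000000000000000000000000000011ca000000000000000000000000000011c9000000000000000000000000000011c8000000000000000000000000000011c400000000000000000000000000047104000000000000000000000000000011c600000000000000000000000000047006000000000000000000000000000011c0000000000000000000000000000000480000000000000000000000000000004700000000000000000000000000000001,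 nat_lit 0x44188007000000000000000000000000460880070000000000000000000000004920200700000000000000000000000041202007000000000000000000000000011c02880000000000000000000000000120518800000000000000000000000001141148000000000000000000000000011c61080000000000000000000000000120b088000000000000000000000000011cb088000000000000000000000000012c700800000000000000000000000001187008000000000000000000000000011070080000000000000000000000000108700800000000000000000000000001204008000000000000000000000000011c3008000000000000000000000000012002470000000000000000000000000100714700000000000000000000000001201147000000000000000000000000011811470000000000000000000000000100a10700000000000000000000000001187107000000000000000000000000010471070000000000000000000000000100710700000000000000000000000001242107000000000000000000000000010c11070000000000000000000000000110408700000000000000000000000001004087000000000000000000000000012030870000000000000000000000000128208700000000000000000000000001202087000000000000000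000000000011c208700000000000000000000000001101087000000000000000000000000012800870000000000000000000000000120a0470000000000000000000000000114704700000000000000000000000001245047000000000000000000000000010450470000000000000000000000000110404700000000000000000000000001044047000000000000000000000000011430470000000000000000000000000110304700000000000000000000000001003047000000000000000000000000011c2047000000000000000000000000011820470000000000000000000000000124104700000000000000000000000001201047000000000000000000000000011c104700000000000000000000000001181047000000000000000000000000010c1047000000000000000000000000012c90070000000000000000000000000124800700000000000000000000000001188007000000000000000000000000011480070000000000000000000000000110800700000000000000000000000001088007000000000000000000000000012c500700000000000000000000000001105007000000000000000000000000012c400700000000000000000000000001204007000000000000000000000000011c40070000000000000000000000000118400700000000000000000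00000000108400700000000000000000000000001203007000000000000000000000000012820070000000000000000000000000120200700000000000000000000000001182007000000000000000000000000011420070000000000000000000000000110200700000000000000000000000001002007000000000000000000000000000462c800000000000000000000000000040288000000000000000000000000000462480000000000000000000000000004b1c8000000000000000000000000000461c8000000000000000000000000000411c8000000000000000000000000000401c80000000000000000000000000004918800000000000000000000000000045188000000000000000000000000000421880000000000000000000000000004814800000000000000000000000000045148000000000000000000000000000421480000000000000000000000000004114800000000000000000000000000046108000000000000000000000000000421080000000000000000000000000004b0880000000000000000000000000004708800000000000000000000000000045088000000000000000000000000000430880000000000000000000000000004a04800000000000000000000000000048048000000000000000000000000000450480000000000000000000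000000004304800000000000000000000000000047008000000000000000000000000000450080000000000000000000000000004400800000000000000000000000000043008000000000000000000000000000482c7000000000000000000000000000482870000000000000000000000000004824700000000000000000000000000046247000000000000000000000000000402470000000000000000000000000004b2070000000000000000000000000004a207000000000000000000000000000492070000000000000000000000000004220700000000000000000000000000041207000000000000000000000000000402070000000000000000000000000004814700000000000000000000000000047147000000000000000000000000000451470000000000000000000000000004214700000000000000000000000000041147000000000000000000000000000401470000000000000000000000000004a107000000000000000000000000000481070000000000000000000000000004710700000000000000000000000000042107000000000000000000000000000411070000000000000000000000000004b087000000000000000000000000000490870000000000000000000000000004808700000000000000000000000000044087000000000000000000000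000000430870000000000000000000000000004208700000000000000000000000000041087000000000000000000000000000400870000000000000000000000000004a047000000000000000000000000000470470000000000000000000000000004504700000000000000000000000000044047000000000000000000000000000430470000000000000000000000000004204700000000000000000000000000041047000000000000000000000000000400470000000000000000000000000004b007000000000000000000000000000490070000000000000000000000000004800700000000000000000000000000045007000000000000000000000000000440070000000000000000000000000004300700000000000000000000000000042007000000000000000000000000000012c80000000000000000000000000000128800000000000000000000000000001248000000000000000000000000000011c8000000000000000000000000000011880000000000000000000000000000114800000000000000000000000000001108000000000000000000000000000010880000000000000000000000000000104800000000000000000000000000001008000000000000000000000000000012c70000000000000000000000000000128700000000000000000000000000001247000000000000000000000000000012070000000000000000000000000000114700000000000000000000000000001107000000000000000000000000000010870000000000000000000000000000104700000000000000000000000000001007000000000000000000000000000000480000000000000000000000000000004700000000000000000000000000000001,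 [t12, t11, t10, t9, t8, t7, t6, t5, t4, t3, t2, t1]⟩
def v1 : Lev := ⟨nat_lit 0, nat_lit 1, nat_lit 0x1700080006000e000c00090003001400050001001200040016001300020010000a0015000d000f00070011000b0000, nat_lit 24, nat_lit 0x400400000000000000000000000000000004100000000000000000000000001000040000000000000000000000000010010000000000000000000000000000000004000000000000000000000000000001040000000000000000000000000400000010000000000000000000000000000100100000000000000000000000040000040000000000000000000000000000010410000000000000000000000000000100000000000000000000000000000041000000000000000000000000000000410400000000000000000000000000004000100000000000000000000001000000040000000000000000000000000000400410000000000000000000000000004000000000000000000000000000001000001000000000000000000000000010410000000000000000000000000000100004100000000000000000000000001000000000000000000000000000000400000410000000000000000000000004000000000000000000000000000000000000001, nat_lit 0x10010000000000000000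000000000000004104000000000000000000000000000040040000000000000000000000000000410000000000000000000000000000004000000000000000000000000000000001000041000000000000000000000000010000400000000000000000000000000104100000000000000000000000000001001000000000000000000000000000010400000000000000000000000000000100000000000000000000000000000000040041000000000000000000000000000400010000000000000000000000000004104000000000000000000000000000040040000000000000000000000000000410000000000000000000000000000004000000000000000000000000000000001041000000000000000000000000000010010000000000000000000000000000104000000000000000000000000000001000000000000000000000000000000000410000000000000000000000000000004000000000000000000000000000000001, [t8, t7, t12, t6, t11, t10, t2, t3, t9]⟩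
def v2 : Lev := ⟨nat_lit 1, nat_lit 24, nat_lit 0x200000001f0017001200000001000000000007000000190000000e000000000000000000000000000400060005001a000f00000000000000030000000000160015000000080011000000000000000000000000001000000000000000000000001e000000000000000000180000000000000000000000140000000000000000000000000000000000000000000000130000000000000000000000000000000000000000000000000000000000000000000000000000000d000000000000000000000000000000000000000000000000000000000000000000000000000000000000000000000000000000000000000000000000000c0000000000000000000b000a00090000000000000000000000000000000000000000000000000000000000000000001d001c00000000001b000000000002000000000000000000210023002200000000, nat_lit 36, nat_lit 0x10020c0000000000000000000000000010021000000000000000000000000000100218000000000000000000000000001001181000000000000000000000000010010c100000000000000000000000001001141000000000000000000000000000410860000000000000000000000000004108500000000000000000000000000041084000000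000000000000000000000410060000000000000000000000000004100300000000000000000000000000041005000000000000000000000000000400c10000000000000000000000000004010100000000000000000000000000040181000000000000000000000000000400830000000000000000000000000004008400000000000000000000000000040086000000000000000000000000000400810000000000000000000000000004004600000000000000000000000000040043000000000000000000000000000400450000000000000000000000000004004000000000000000000000000000001046000000000000000000000000000010450000000000000000000000000000104400000000000000000000000000001042000000000000000000000000000010400000000000000000000000000000100300000000000000000000000000001004000000000000000000000000000010060000000000000000000000000000100200000000000000000000000000001001000000000000000000000000000000410000000000000000000000000000004000000000000000000000000000000001, nat_lit 0x1005080000000000000000000000000010040800000000000000000000000000100308000000000000000000000000001046040000000000000000000000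00001044040000000000000000000000000010430400000000000000000000000000004608100000000000000000000000000045081000000000000000000000000000440810000000000000000000000000004600100000000000000000000000000044001000000000000000000000000000430010000000000000000000000000004114000000000000000000000000000041100000000000000000000000000000410c0000000000000000000000000000450800000000000000000000000000004408000000000000000000000000000043080000000000000000000000000000410800000000000000000000000000004604000000000000000000000000000044040000000000000000000000000000430400000000000000000000000000004004000000000000000000000000000001181000000000000000000000000000011410000000000000000000000000000110100000000000000000000000000001081000000000000000000000000000010010000000000000000000000000000114000000000000000000000000000001100000000000000000000000000000010c00000000000000000000000000000108000000000000000000000000000001040000000000000000000000000000000410000000000000000000000000000004000000000000000000000000000000001,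 [t12, t6, t11, t10, t2, t3, t9]⟩
def v3 : Lev := ⟨nat_lit 1, nat_lit 1, nat_lit 0x100004000c00030011000f0006000a00150002001700140001001300120016000e0008000d00090007000b00050000000000000000000000000000000000000000000000000000000000000000000000000000000000000000000000000000, nat_lit 24, nat_lit 0x400410000000000000000000000000004000104000000000000000000000000041040001000000000000000000000000410000410000000000000000000000000000004100000000000000000000000000000040000000000000000000000000000010400000000000000000000000000100104000000000000000000000000001040001000000000000000000000000000010010000000000000000000000000000104100000000000000000000000000001000000000000000000000000000000410000000000000000000000000000004104000000000000000000000000000040001000000000000000000000000000400410000000000000000000000000004000000000000000000000000000001000001000000000000000000000000010410000000000000000000000000000100004100000000000000000000000001000000000000000000000000000000400000410000000000000000000000004000000000000000000000000000000000000001,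 nat_lit 0x410000410000000000000000000000004104000100000000000000000000000040001040000000000000000000000000400410000000000000000000000000004104000000000000000000000000000040000000000000000000000000000000010000410000000000000000000000000104000100000000000000000000000001001040000000000000000000000000010410000000000000000000000000000104000000000000000000000000000001000000000000000000000000000000000400410000000000000000000000000004000100000000000000000000000000041040000000000000000000000000000410000000000000000000000000000004000000000000000000000000000000001041000000000000000000000000000010010000000000000000000000000000104000000000000000000000000000001000000000000000000000000000000000410000000000000000000000000000004000000000000000000000000000000001, [t11, t10, t2, t3, t9]⟩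
def v4 : Lev := ⟨nat_lit 2, nat_lit 1, nat_lit 0x1000000000000000000000000000000000000000000000000000000000000000000000000000000000000000000000000000000000000000000000000000000000000000000000000000000000000000000000000000000000000000000000000000000000000, nat_lit 2, nat_lit 0x4000000000000000000000000000000001, nat_lit 0x4000000000000000000000000000000001, [t2, t3, t9]⟩
def v5 : Lev := ⟨nat_lit 3, nat_lit 1, nat_lit 0x1000000000000000000000000000000000000000000000000000000000000000000000000000000000000000000000000000000000000000000000000000000000000000000000000000000000000000000000000000000000000000000000000000000000000000000000000000000000000000000000000000000000000000000000000000000000000000000000000000000000000, nat_lit 2, nat_lit 0x4000000000000000000000000000000001, nat_lit 0x4000000000000000000000000000000001, [t3, t9]⟩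
def v6 : Lev := ⟨nat_lit 4, nat_lit 1, nat_lit 0x1000000000000000000000000000000000000000000000000000000000000000000000000000000000000000000000000000000000000000000000000000000000000000000000000000000000000000000000000000000000000000000000000000000000000000000000000000000000000000000000000000000000000000000000000000000000000000000000000000000000000000000000000000000000000000000000000000000000000000000000000000000000000000000000000000000000000, nat_lit 2, nat_lit 0x4000000000000000000000000000000001, nat_lit 0x4000000000000000000000000000000001, [t9]⟩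
def ls : List Lev := [v1, v2, v3, v4, v5, v6]
def sg : List (List (ℕ × ℕ)) := [[(nat_lit 680, nat_lit 640)],
[(nat_lit 664, nat_lit 640), (nat_lit 680, nat_lit 640)],
[(nat_lit 648, nat_lit 640), (nat_lit 680, nat_lit 640)],
[(nat_lit 632, nat_lit 640), (nat_lit 680, nat_lit 640)],
[(nat_lit 656, nat_lit 640), (nat_lit 656, nat_lit 640), (nat_lit 680, nat_lit 640)],
[(nat_lit 648, nat_lit 640), (nat_lit 648, nat_lit 640), (nat_lit 648, nat_lit 640), (nat_lit 680, nat_lit 640)],
[(nat_lit 640, nat_lit 640), (nat_lit 656, nat_lit 640), (nat_lit 616, nat_lit 640), (nat_lit 656, nat_lit 640), (nat_lit 640, nat_lit 640), (nat_lit 680, nat_lit 640)],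
[(nat_lit 652, nat_lit 640), (nat_lit 644, nat_lit 640), (nat_lit 664, nat_lit 640), (nat_lit 644, nat_lit 640), (nat_lit 652, nat_lit 640), (nat_lit 680, nat_lit 640)],
[(nat_lit 652, nat_lit 640), (nat_lit 644, nat_lit 640), (nat_lit 616, nat_lit 640), (nat_lit 644, nat_lit 640), (nat_lit 652, nat_lit 640), (nat_lit 680, nat_lit 640)],
[(nat_lit 616, nat_lit 640), (nat_lit 680, nat_lit 640)],
[(nat_lit 648, nat_lit 640), (nat_lit 640, nat_lit 640), (nat_lit 648, nat_lit 640), (nat_lit 656, nat_lit 640), (nat_lit 648, nat_lit 640), (nat_lit 616, nat_lit 640), (nat_lit 648, nat_lit 640), (nat_lit 656, nat_lit 640), (nat_lit 648, nat_lit 640), (nat_lit 640, nat_lit 640), (nat_lit 648, nat_lit 640), (nat_lit 680, nat_lit 640)],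
[(nat_lit 644, nat_lit 640), (nat_lit 644, nat_lit 640), (nat_lit 632, nat_lit 640), (nat_lit 644, nat_lit 640), (nat_lit 644, nat_lit 640), (nat_lit 680, nat_lit 640)],
[(nat_lit 644, nat_lit 640), (nat_lit 644, nat_lit 640), (nat_lit 680, nat_lit 640)],
[(nat_lit 648, nat_lit 640), (nat_lit 616, nat_lit 640), (nat_lit 648, nat_lit 640), (nat_lit 680, nat_lit 640)],
[(nat_lit 636, nat_lit 640), (nat_lit 644, nat_lit 640), (nat_lit 600, nat_lit 640), (nat_lit 644, nat_lit 640), (nat_lit 636, nat_lit 640), (nat_lit 680, nat_lit 640)],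
[(nat_lit 636, nat_lit 640), (nat_lit 644, nat_lit 640), (nat_lit 648, nat_lit 640), (nat_lit 644, nat_lit 640), (nat_lit 636, nat_lit 640), (nat_lit 680, nat_lit 640)],
[(nat_lit 648, nat_lit 640), (nat_lit 632, nat_lit 640), (nat_lit 636, nat_lit 640), (nat_lit 632, nat_lit 640), (nat_lit 648, nat_lit 640), (nat_lit 644, nat_lit 640), (nat_lit 648, nat_lit 640), (nat_lit 632, nat_lit 640), (nat_lit 600, nat_lit 640), (nat_lit 632, nat_lit 640), (nat_lit 648, nat_lit 640), (nat_lit 644, nat_lit 640), (nat_lit 648, nat_lit 640), (nat_lit 632, nat_lit 640), (nat_lit 636, nat_lit 640), (nat_lit 632, nat_lit 640), (nat_lit 648, nat_lit 640), (nat_lit 680, nat_lit 640)],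
[(nat_lit 640, nat_lit 640), (nat_lit 632, nat_lit 640), (nat_lit 616, nat_lit 640), (nat_lit 632, nat_lit 640), (nat_lit 640, nat_lit 640), (nat_lit 680, nat_lit 640)],
[(nat_lit 648, nat_lit 640), (nat_lit 632, nat_lit 640), (nat_lit 648, nat_lit 640), (nat_lit 632, nat_lit 640), (nat_lit 648, nat_lit 640), (nat_lit 680, nat_lit 640)],
[(nat_lit 640, nat_lit 640), (nat_lit 632, nat_lit 640), (nat_lit 628, nat_lit 640), (nat_lit 632, nat_lit 640), (nat_lit 640, nat_lit 640), (nat_lit 644, nat_lit 640), (nat_lit 640, nat_lit 640), (nat_lit 632, nat_lit 640), (nat_lit 664, nat_lit 640), (nat_lit 632, nat_lit 640), (nat_lit 640, nat_lit 640), (nat_lit 644, nat_lit 640), (nat_lit 640, nat_lit 640), (nat_lit 632, nat_lit 640), (nat_lit 628, nat_lit 640), (nat_lit 632, nat_lit 640), (nat_lit 640, nat_lit 640), (nat_lit 680, nat_lit 640)],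
[(nat_lit 648, nat_lit 640), (nat_lit 632, nat_lit 640), (nat_lit 600, nat_lit 640), (nat_lit 632, nat_lit 640), (nat_lit 648, nat_lit 640), (nat_lit 680, nat_lit 640)],
[(nat_lit 640, nat_lit 640), (nat_lit 632, nat_lit 640), (nat_lit 664, nat_lit 640), (nat_lit 632, nat_lit 640), (nat_lit 640, nat_lit 640), (nat_lit 680, nat_lit 640)],
[(nat_lit 644, nat_lit 640), (nat_lit 620, nat_lit 640), (nat_lit 632, nat_lit 640), (nat_lit 620, nat_lit 640), (nat_lit 644, nat_lit 640), (nat_lit 680, nat_lit 640)],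
[(nat_lit 644, nat_lit 640), (nat_lit 636, nat_lit 640), (nat_lit 632, nat_lit 640), (nat_lit 620, nat_lit 640), (nat_lit 644, nat_lit 640), (nat_lit 648, nat_lit 640), (nat_lit 644, nat_lit 640), (nat_lit 620, nat_lit 640), (nat_lit 632, nat_lit 640), (nat_lit 636, nat_lit 640), (nat_lit 644, nat_lit 640), (nat_lit 680, nat_lit 640)],
[(nat_lit 644, nat_lit 640), (nat_lit 652, nat_lit 640), (nat_lit 632, nat_lit 640), (nat_lit 620, nat_lit 640), (nat_lit 644, nat_lit 640), (nat_lit 616, nat_lit 640), (nat_lit 644, nat_lit 640), (nat_lit 620, nat_lit 640), (nat_lit 632, nat_lit 640), (nat_lit 652, nat_lit 640), (nat_lit 644, nat_lit 640), (nat_lit 680, nat_lit 640)],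
[(nat_lit 636, nat_lit 640), (nat_lit 620, nat_lit 640), (nat_lit 648, nat_lit 640), (nat_lit 620, nat_lit 640), (nat_lit 636, nat_lit 640), (nat_lit 680, nat_lit 640)],
[(nat_lit 644, nat_lit 640), (nat_lit 628, nat_lit 640), (nat_lit 632, nat_lit 640), (nat_lit 644, nat_lit 640), (nat_lit 644, nat_lit 640), (nat_lit 616, nat_lit 640), (nat_lit 644, nat_lit 640), (nat_lit 644, nat_lit 640), (nat_lit 632, nat_lit 640), (nat_lit 628, nat_lit 640), (nat_lit 644, nat_lit 640), (nat_lit 680, nat_lit 640)],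
[(nat_lit 652, nat_lit 640), (nat_lit 620, nat_lit 640), (nat_lit 616, nat_lit 640), (nat_lit 620, nat_lit 640), (nat_lit 652, nat_lit 640), (nat_lit 680, nat_lit 640)],
[(nat_lit 628, nat_lit 640), (nat_lit 620, nat_lit 640), (nat_lit 664, nat_lit 640), (nat_lit 620, nat_lit 640), (nat_lit 628, nat_lit 640), (nat_lit 680, nat_lit 640)],
[(nat_lit 660, nat_lit 640), (nat_lit 620, nat_lit 640), (nat_lit 600, nat_lit 640), (nat_lit 620, nat_lit 640), (nat_lit 660, nat_lit 640), (nat_lit 680, nat_lit 640)],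
[(nat_lit 640, nat_lit 640), (nat_lit 656, nat_lit 640), (nat_lit 664, nat_lit 640), (nat_lit 656, nat_lit 640), (nat_lit 640, nat_lit 640), (nat_lit 680, nat_lit 640)],
[(nat_lit 628, nat_lit 640), (nat_lit 644, nat_lit 640), (nat_lit 664, nat_lit 640), (nat_lit 644, nat_lit 640), (nat_lit 628, nat_lit 640), (nat_lit 680, nat_lit 640)],
[(nat_lit 640, nat_lit 640), (nat_lit 640, nat_lit 640), (nat_lit 640, nat_lit 640), (nat_lit 640, nat_lit 640), (nat_lit 680, nat_lit 640)],
[(nat_lit 644, nat_lit 640), (nat_lit 644, nat_lit 640), (nat_lit 644, nat_lit 640), (nat_lit 644, nat_lit 640), (nat_lit 644, nat_lit 640), (nat_lit 644, nat_lit 640), (nat_lit 644, nat_lit 640), (nat_lit 644, nat_lit 640), (nat_lit 680, nat_lit 640)],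
[(nat_lit 640, nat_lit 640), (nat_lit 640, nat_lit 640), (nat_lit 640, nat_lit 640), (nat_lit 640, nat_lit 640), (nat_lit 660, nat_lit 640), (nat_lit 640, nat_lit 640), (nat_lit 640, nat_lit 640), (nat_lit 640, nat_lit 640), (nat_lit 640, nat_lit 640), (nat_lit 620, nat_lit 640), (nat_lit 640, nat_lit 640), (nat_lit 640, nat_lit 640), (nat_lit 640, nat_lit 640), (nat_lit 640, nat_lit 640), (nat_lit 600, nat_lit 640), (nat_lit 640, nat_lit 640), (nat_lit 640, nat_lit 640), (nat_lit 640, nat_lit 640), (nat_lit 640, nat_lit 640), (nat_lit 620, nat_lit 640), (nat_lit 640, nat_lit 640), (nat_lit 640, nat_lit 640), (nat_lit 640, nat_lit 640), (nat_lit 640, nat_lit 640), (nat_lit 660, nat_lit 640), (nat_lit 640, nat_lit 640), (nat_lit 640, nat_lit 640), (nat_lit 640, nat_lit 640), (nat_lit 640, nat_lit 640), (nat_lit 680, nat_lit 640)],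
[(nat_lit 636, nat_lit 640), (nat_lit 652, nat_lit 640), (nat_lit 648, nat_lit 640), (nat_lit 620, nat_lit 640), (nat_lit 636, nat_lit 640), (nat_lit 616, nat_lit 640), (nat_lit 636, nat_lit 640), (nat_lit 620, nat_lit 640), (nat_lit 648, nat_lit 640), (nat_lit 652, nat_lit 640), (nat_lit 636, nat_lit 640), (nat_lit 680, nat_lit 640)],
[(nat_lit 644, nat_lit 640), (nat_lit 636, nat_lit 640), (nat_lit 644, nat_lit 640), (nat_lit 636, nat_lit 640), (nat_lit 644, nat_lit 640), (nat_lit 636, nat_lit 640), (nat_lit 644, nat_lit 640), (nat_lit 636, nat_lit 640), (nat_lit 644, nat_lit 640), (nat_lit 636, nat_lit 640), (nat_lit 600, nat_lit 640), (nat_lit 636, nat_lit 640), (nat_lit 644, nat_lit 640), (nat_lit 636, nat_lit 640), (nat_lit 644, nat_lit 640), (nat_lit 636, nat_lit 640), (nat_lit 644, nat_lit 640), (nat_lit 636, nat_lit 640), (nat_lit 644, nat_lit 640), (nat_lit 636, nat_lit 640), (nat_lit 644, nat_lit 640), (nat_lit 680, nat_lit 640)],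
[(nat_lit 640, nat_lit 640), (nat_lit 640, nat_lit 640), (nat_lit 640, nat_lit 640), (nat_lit 640, nat_lit 640), (nat_lit 620, nat_lit 640), (nat_lit 640, nat_lit 640), (nat_lit 640, nat_lit 640), (nat_lit 640, nat_lit 640), (nat_lit 640, nat_lit 640), (nat_lit 620, nat_lit 640), (nat_lit 640, nat_lit 640), (nat_lit 640, nat_lit 640), (nat_lit 640, nat_lit 640), (nat_lit 640, nat_lit 640), (nat_lit 680, nat_lit 640)],
[(nat_lit 640, nat_lit 640), (nat_lit 632, nat_lit 640), (nat_lit 652, nat_lit 640), (nat_lit 632, nat_lit 640), (nat_lit 640, nat_lit 640), (nat_lit 644, nat_lit 640), (nat_lit 640, nat_lit 640), (nat_lit 632, nat_lit 640), (nat_lit 616, nat_lit 640), (nat_lit 632, nat_lit 640), (nat_lit 640, nat_lit 640), (nat_lit 644, nat_lit 640), (nat_lit 640, nat_lit 640), (nat_lit 632, nat_lit 640), (nat_lit 652, nat_lit 640), (nat_lit 632, nat_lit 640), (nat_lit 640, nat_lit 640), (nat_lit 680, nat_lit 640)],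
[(nat_lit 636, nat_lit 640), (nat_lit 644, nat_lit 640), (nat_lit 636, nat_lit 640), (nat_lit 644, nat_lit 640), (nat_lit 636, nat_lit 640), (nat_lit 644, nat_lit 640), (nat_lit 636, nat_lit 640), (nat_lit 644, nat_lit 640), (nat_lit 600, nat_lit 640), (nat_lit 644, nat_lit 640), (nat_lit 636, nat_lit 640), (nat_lit 644, nat_lit 640), (nat_lit 636, nat_lit 640), (nat_lit 644, nat_lit 640), (nat_lit 636, nat_lit 640), (nat_lit 644, nat_lit 640), (nat_lit 636, nat_lit 640), (nat_lit 680, nat_lit 640)],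
[(nat_lit 640, nat_lit 640), (nat_lit 640, nat_lit 640), (nat_lit 640, nat_lit 640), (nat_lit 640, nat_lit 640), (nat_lit 600, nat_lit 640), (nat_lit 640, nat_lit 640), (nat_lit 640, nat_lit 640), (nat_lit 640, nat_lit 640), (nat_lit 640, nat_lit 640), (nat_lit 680, nat_lit 640)],
[(nat_lit 632, nat_lit 640), (nat_lit 648, nat_lit 640), (nat_lit 632, nat_lit 640), (nat_lit 680, nat_lit 640)],
[(nat_lit 624, nat_lit 640), (nat_lit 656, nat_lit 640), (nat_lit 600, nat_lit 640), (nat_lit 656, nat_lit 640), (nat_lit 624, nat_lit 640), (nat_lit 680, nat_lit 640)],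
[(nat_lit 628, nat_lit 640), (nat_lit 644, nat_lit 640), (nat_lit 616, nat_lit 640), (nat_lit 644, nat_lit 640), (nat_lit 628, nat_lit 640), (nat_lit 680, nat_lit 640)],
[(nat_lit 636, nat_lit 640), (nat_lit 636, nat_lit 640), (nat_lit 648, nat_lit 640), (nat_lit 620, nat_lit 640), (nat_lit 636, nat_lit 640), (nat_lit 648, nat_lit 640), (nat_lit 636, nat_lit 640), (nat_lit 620, nat_lit 640), (nat_lit 648, nat_lit 640), (nat_lit 636, nat_lit 640), (nat_lit 636, nat_lit 640), (nat_lit 680, nat_lit 640)],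
[(nat_lit 632, nat_lit 640), (nat_lit 632, nat_lit 640), (nat_lit 680, nat_lit 640)],
[(nat_lit 632, nat_lit 640), (nat_lit 632, nat_lit 640), (nat_lit 632, nat_lit 640), (nat_lit 632, nat_lit 640), (nat_lit 632, nat_lit 640), (nat_lit 680, nat_lit 640)],
[(nat_lit 632, nat_lit 640), (nat_lit 632, nat_lit 640), (nat_lit 644, nat_lit 640), (nat_lit 632, nat_lit 640), (nat_lit 632, nat_lit 640), (nat_lit 644, nat_lit 640), (nat_lit 632, nat_lit 640), (nat_lit 632, nat_lit 640), (nat_lit 680, nat_lit 640)],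
[(nat_lit 636, nat_lit 640), (nat_lit 628, nat_lit 640), (nat_lit 648, nat_lit 640), (nat_lit 644, nat_lit 640), (nat_lit 636, nat_lit 640), (nat_lit 616, nat_lit 640), (nat_lit 636, nat_lit 640), (nat_lit 644, nat_lit 640), (nat_lit 648, nat_lit 640), (nat_lit 628, nat_lit 640), (nat_lit 636, nat_lit 640), (nat_lit 680, nat_lit 640)],
[(nat_lit 620, nat_lit 640), (nat_lit 620, nat_lit 640), (nat_lit 680, nat_lit 640)],
[(nat_lit 640, nat_lit 640), (nat_lit 632, nat_lit 640), (nat_lit 640, nat_lit 640), (nat_lit 616, nat_lit 640), (nat_lit 640, nat_lit 640), (nat_lit 632, nat_lit 640), (nat_lit 640, nat_lit 640), (nat_lit 680, nat_lit 640)],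
[(nat_lit 636, nat_lit 640), (nat_lit 636, nat_lit 640), (nat_lit 636, nat_lit 640), (nat_lit 636, nat_lit 640), (nat_lit 636, nat_lit 640), (nat_lit 636, nat_lit 640), (nat_lit 636, nat_lit 640), (nat_lit 636, nat_lit 640), (nat_lit 636, nat_lit 640), (nat_lit 636, nat_lit 640), (nat_lit 680, nat_lit 640)],
[(nat_lit 632, nat_lit 640), (nat_lit 640, nat_lit 640), (nat_lit 632, nat_lit 640), (nat_lit 656, nat_lit 640), (nat_lit 632, nat_lit 640), (nat_lit 616, nat_lit 640), (nat_lit 632, nat_lit 640), (nat_lit 656, nat_lit 640), (nat_lit 632, nat_lit 640), (nat_lit 640, nat_lit 640), (nat_lit 632, nat_lit 640), (nat_lit 680, nat_lit 640)],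
[(nat_lit 632, nat_lit 640), (nat_lit 616, nat_lit 640), (nat_lit 632, nat_lit 640), (nat_lit 680, nat_lit 640)],
[(nat_lit 600, nat_lit 640), (nat_lit 680, nat_lit 640)]]
def cs : List ℕ := [nat_lit 1, nat_lit 165, nat_lit 2970, nat_lit 2970, nat_lit 7040, nat_lit 142560, nat_lit 63360, nat_lit 63360, nat_lit 21120, nat_lit 165, nat_lit 380160, nat_lit 190080, nat_lit 7040, nat_lit 47520, nat_lit 7040, nat_lit 190080, nat_lit 506880, nat_lit 253440, nat_lit 380160, nat_lit 1520640, nat_lit 42240, nat_lit 253440, nat_lit 95040, nat_lit 1140480, nat_lit 190080, nat_lit 95040, nat_lit 1520640, nat_lit 15840, nat_lit 15840, nat_lit 352, nat_lit 63360, nat_lit 21120, nat_lit 912384, nat_lit 1013760, nat_lit 1824768, nat_lit 190080, nat_lit 2488320, nat_lit 1824768, nat_lit 1520640, nat_lit 1013760, nat_lit 912384, nat_lit 142560, nat_lit 7040, nat_lit 63360, nat_lit 1140480, nat_lit 42240, nat_lit 380160, nat_lit 506880, nat_lit 1520640, nat_lit 352, nat_lit 1710720, nat_lit 2488320,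 nat_lit 380160, nat_lit 47520, nat_lit 1]
def c0 : Cert := node (nat_lit 48) (nat_lit 0) [] <|
br (nat_lit 0x200010030) (node (nat_lit 72) (nat_lit 0) [] <|
br (nat_lit 0x200010048) (node (nat_lit 96) (nat_lit 0) [] <|
br (nat_lit 0x200010060) (leaf (nat_lit 0)) <|
br (nat_lit 0x8600010063) (leaf (nat_lit 1)) nil) <|
br (nat_lit 0x920001004b) (node (nat_lit 96) (nat_lit 0) [] <|
br (nat_lit 0x200010060) (leaf (nat_lit 1)) <|
br (nat_lit 0x8600010063) (leaf (nat_lit 2)) nil) nil) <|
br (nat_lit 0x9400010033) (node (nat_lit 72) (nat_lit 0) [] <|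
br (nat_lit 0x200010048) (node (nat_lit 96) (nat_lit 0) [] <|
br (nat_lit 0x200010060) (leaf (nat_lit 1)) <|
br (nat_lit 0x8600010063) (leaf (nat_lit 2)) nil) <|
br (nat_lit 0x920001004b) (node (nat_lit 96) (nat_lit 0) [] <|
br (nat_lit 0x200010060) (leaf (nat_lit 2)) <|
br (nat_lit 0x8600010063) (leaf (nat_lit 3)) nil) nil) nil
def c1 : Cert := node (nat_lit 48) (nat_lit 0) [] <|
br (nat_lit 0x200010898) (node (nat_lit 72) (nat_lit 0) [] <|
br (nat_lit 0x2000109bc) (node (nat_lit 96) (nat_lit 0) [] <|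
br (nat_lit 0x200010ed3) (leaf (nat_lit 1)) <|
br (nat_lit 0x8600010ed0) (leaf (nat_lit 4)) nil) <|
br (nat_lit 0x92000109b1) (node (nat_lit 96) (nat_lit 0) [] <|
br (nat_lit 0x200010ed3) (leaf (nat_lit 4)) <|
br (nat_lit 0x8600010ed0) (leaf (nat_lit 5)) nil) nil) <|
br (nat_lit 0x9400010894) (node (nat_lit 72) (nat_lit 0) [] <|
br (nat_lit 0x2000109bc) (node (nat_lit 96) (nat_lit 0) [] <|
br (nat_lit 0x200010ed3) (leaf (nat_lit 4)) <|
br (nat_lit 0x8600010ed0) (leaf (nat_lit 5)) nil) <|
br (nat_lit 0x92000109b1) (node (nat_lit 96) (nat_lit 0) [] <|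
br (nat_lit 0x200010ed3) (leaf (nat_lit 5)) <|
br (nat_lit 0x8600010ed0) (leaf (nat_lit 6)) nil) nil) nil
def c2 : Cert := node (nat_lit 48) (nat_lit 0) [] <|
br (nat_lit 0x200010030) (node (nat_lit 72) (nat_lit 0) [] <|
br (nat_lit 0x200010048) (node (nat_lit 96) (nat_lit 0) [] <|
br (nat_lit 0x200010060) (leaf (nat_lit 1)) <|
br (nat_lit 0x8600010063) (leaf (nat_lit 2)) nil) <|
br (nat_lit 0x920001004b) (node (nat_lit 96) (nat_lit 0) [] <|
br (nat_lit 0x200010060) (leaf (nat_lit 2)) <|
br (nat_lit 0x8600010063) (leaf (nat_lit 3)) nil) nil) <|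
br (nat_lit 0x9400010033) (node (nat_lit 72) (nat_lit 0) [] <|
br (nat_lit 0x200010048) (node (nat_lit 96) (nat_lit 0) [] <|
br (nat_lit 0x200010060) (leaf (nat_lit 2)) <|
br (nat_lit 0x8600010063) (leaf (nat_lit 3)) nil) <|
br (nat_lit 0x920001004b) (node (nat_lit 96) (nat_lit 0) [] <|
br (nat_lit 0x200010060) (leaf (nat_lit 3)) <|
br (nat_lit 0x8600010063) (leaf (nat_lit 9)) nil) nil) nil
def c3 : Cert := node (nat_lit 48) (nat_lit 0) [] <|
br (nat_lit 0x200010d2d) (node (nat_lit 72) (nat_lit 0) [] <|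
br (nat_lit 0x200010d4a) (node (nat_lit 96) (nat_lit 0) [] <|
br (nat_lit 0x200010e68) (leaf (nat_lit 4)) <|
br (nat_lit 0x8600010e64) (leaf (nat_lit 7)) nil) <|
br (nat_lit 0x9200010d4f) (node (nat_lit 96) (nat_lit 0) [] <|
br (nat_lit 0x200010e68) (leaf (nat_lit 7)) <|
br (nat_lit 0x8600010e64) (leaf (nat_lit 10)) nil) nil) <|
br (nat_lit 0x9400010d24) (node (nat_lit 72) (nat_lit 0) [] <|
br (nat_lit 0x200010d4a) (node (nat_lit 96) (nat_lit 0) [] <|
br (nat_lit 0x200010e68) (leaf (nat_lit 7)) <|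
br (nat_lit 0x8600010e64) (leaf (nat_lit 10)) nil) <|
br (nat_lit 0x9200010d4f) (node (nat_lit 96) (nat_lit 0) [] <|
br (nat_lit 0x200010e68) (leaf (nat_lit 10)) <|
br (nat_lit 0x8600010e64) (leaf (nat_lit 11)) nil) nil) nil
def c4 : Cert := node (nat_lit 48) (nat_lit 0) [] <|
br (nat_lit 0x200010d4e) (node (nat_lit 72) (nat_lit 0) [] <|
br (nat_lit 0x200010d60) (node (nat_lit 96) (nat_lit 0) [] <|
br (nat_lit 0x200010e5a) (leaf (nat_lit 10)) <|
br (nat_lit 0x8600010e60) (leaf (nat_lit 11)) nil) <|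
br (nat_lit 0x9200010d5c) (node (nat_lit 96) (nat_lit 0) [] <|
br (nat_lit 0x200010e5a) (leaf (nat_lit 7)) <|
br (nat_lit 0x8600010e60) (leaf (nat_lit 10)) nil) nil) <|
br (nat_lit 0x9400010d4b) (node (nat_lit 72) (nat_lit 0) [] <|
br (nat_lit 0x200010d60) (node (nat_lit 96) (nat_lit 0) [] <|
br (nat_lit 0x200010e5a) (leaf (nat_lit 7)) <|
br (nat_lit 0x8600010e60) (leaf (nat_lit 10)) nil) <|
br (nat_lit 0x9200010d5c) (node (nat_lit 96) (nat_lit 0) [] <|
br (nat_lit 0x200010e5a) (leaf (nat_lit 4)) <|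
br (nat_lit 0x8600010e60) (leaf (nat_lit 7)) nil) nil) nil
def c5 : Cert := node (nat_lit 48) (nat_lit 0) [] <|
br (nat_lit 0x200010d48) (node (nat_lit 72) (nat_lit 0) [] <|
br (nat_lit 0x200010e6c) (node (nat_lit 96) (nat_lit 0) [] <|
br (nat_lit 0x200010d23) (leaf (nat_lit 4)) <|
br (nat_lit 0x8600010d20) (leaf (nat_lit 5)) nil) <|
br (nat_lit 0x9200010e61) (node (nat_lit 96) (nat_lit 0) [] <|
br (nat_lit 0x200010d23) (leaf (nat_lit 5)) <|
br (nat_lit 0x8600010d20) (leaf (nat_lit 6)) nil) nil) <|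
br (nat_lit 0x9400010d44) (node (nat_lit 72) (nat_lit 0) [] <|
br (nat_lit 0x200010e6c) (node (nat_lit 96) (nat_lit 0) [] <|
br (nat_lit 0x200010d23) (leaf (nat_lit 5)) <|
br (nat_lit 0x8600010d20) (leaf (nat_lit 6)) nil) <|
br (nat_lit 0x9200010e61) (node (nat_lit 96) (nat_lit 0) [] <|
br (nat_lit 0x200010d23) (leaf (nat_lit 6)) <|
br (nat_lit 0x8600010d20) (leaf (nat_lit 3)) nil) nil) nil
def c6 : Cert := node (nat_lit 48) (nat_lit 0) [] <|
br (nat_lit 0x200010d2d) (node (nat_lit 72) (nat_lit 0) [] <|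
br (nat_lit 0x200010d4a) (node (nat_lit 96) (nat_lit 0) [] <|
br (nat_lit 0x200010e68) (leaf (nat_lit 7)) <|
br (nat_lit 0x8600010e64) (leaf (nat_lit 10)) nil) <|
br (nat_lit 0x9200010d4f) (node (nat_lit 96) (nat_lit 0) [] <|
br (nat_lit 0x200010e68) (leaf (nat_lit 10)) <|
br (nat_lit 0x8600010e64) (leaf (nat_lit 11)) nil) nil) <|
br (nat_lit 0x9400010d24) (node (nat_lit 72) (nat_lit 0) [] <|
br (nat_lit 0x200010d4a) (node (nat_lit 96) (nat_lit 0) [] <|
br (nat_lit 0x200010e68) (leaf (nat_lit 10)) <|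
br (nat_lit 0x8600010e64) (leaf (nat_lit 11)) nil) <|
br (nat_lit 0x9200010d4f) (node (nat_lit 96) (nat_lit 0) [] <|
br (nat_lit 0x200010e68) (leaf (nat_lit 11)) <|
br (nat_lit 0x8600010e64) (leaf (nat_lit 6)) nil) nil) nil
def c7 : Cert := node (nat_lit 48) (nat_lit 0) [] <|
br (nat_lit 0x2000109a8) (node (nat_lit 72) (nat_lit 0) [] <|
br (nat_lit 0x200010ee1) (node (nat_lit 96) (nat_lit 0) [] <|
br (nat_lit 0x20001088c) (leaf (nat_lit 7)) <|
br (nat_lit 0x8600010895) (leaf (nat_lit 10)) nil) <|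
br (nat_lit 0x9200010eda) (node (nat_lit 96) (nat_lit 0) [] <|
br (nat_lit 0x20001088c) (leaf (nat_lit 10)) <|
br (nat_lit 0x8600010895) (leaf (nat_lit 11)) nil) nil) <|
br (nat_lit 0x94000109ab) (node (nat_lit 72) (nat_lit 0) [] <|
br (nat_lit 0x200010ee1) (node (nat_lit 96) (nat_lit 0) [] <|
br (nat_lit 0x20001088c) (leaf (nat_lit 10)) <|
br (nat_lit 0x8600010895) (leaf (nat_lit 11)) nil) <|
br (nat_lit 0x9200010eda) (node (nat_lit 96) (nat_lit 0) [] <|
br (nat_lit 0x20001088c) (leaf (nat_lit 11)) <|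
br (nat_lit 0x8600010895) (leaf (nat_lit 6)) nil) nil) nil
def c8 : Cert := node (nat_lit 48) (nat_lit 0) [] <|
br (nat_lit 0x2000109b2) (node (nat_lit 72) (nat_lit 0) [] <|
br (nat_lit 0x20001088d) (node (nat_lit 96) (nat_lit 0) [] <|
br (nat_lit 0x200010eb3) (leaf (nat_lit 5)) <|
br (nat_lit 0x8600010eb6) (leaf (nat_lit 10)) nil) <|
br (nat_lit 0x9200010896) (node (nat_lit 96) (nat_lit 0) [] <|
br (nat_lit 0x200010eb3) (leaf (nat_lit 10)) <|
br (nat_lit 0x8600010eb6) (leaf (nat_lit 5)) nil) nil) <|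
br (nat_lit 0x94000109b9) (node (nat_lit 72) (nat_lit 0) [] <|
br (nat_lit 0x20001088d) (node (nat_lit 96) (nat_lit 0) [] <|
br (nat_lit 0x200010eb3) (leaf (nat_lit 10)) <|
br (nat_lit 0x8600010eb6) (leaf (nat_lit 5)) nil) <|
br (nat_lit 0x9200010896) (node (nat_lit 96) (nat_lit 0) [] <|
br (nat_lit 0x200010eb3) (leaf (nat_lit 13)) <|
br (nat_lit 0x8600010eb6) (leaf (nat_lit 10)) nil) nil) nil
def c9 : Cert := node (nat_lit 48) (nat_lit 0) [nat_lit 0x49] <|
br (nat_lit 0x20002004a) (node (nat_lit 72) (nat_lit 0) [] <|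
br (nat_lit 0x20001003f) (node (nat_lit 96) (nat_lit 0) [] <|
br (nat_lit 0x20001001b) (leaf (nat_lit 13)) <|
br (nat_lit 0x8600010018) (leaf (nat_lit 5)) nil) <|
br (nat_lit 0x9200010036) (node (nat_lit 96) (nat_lit 0) [] <|
br (nat_lit 0x20001001b) (leaf (nat_lit 5)) <|
br (nat_lit 0x8600010018) (leaf (nat_lit 2)) nil) nil) nil
def c10 : Cert := node (nat_lit 48) (nat_lit 0) [nat_lit 0x4a] <|
br (nat_lit 0x200020020) (node (nat_lit 72) (nat_lit 0) [] <|
br (nat_lit 0x200010057) (node (nat_lit 96) (nat_lit 0) [] <|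
br (nat_lit 0x200010033) (leaf (nat_lit 8)) <|
br (nat_lit 0x8600010030) (leaf (nat_lit 7)) nil) <|
br (nat_lit 0x920001004e) (node (nat_lit 96) (nat_lit 0) [] <|
br (nat_lit 0x200010033) (leaf (nat_lit 11)) <|
br (nat_lit 0x8600010030) (leaf (nat_lit 12)) nil) nil) nil
def c11 : Cert := node (nat_lit 48) (nat_lit 0) [nat_lit 0x43] <|
br (nat_lit 0x200020073) (node (nat_lit 72) (nat_lit 0) [] <|
br (nat_lit 0x200010056) (node (nat_lit 96) (nat_lit 0) [] <|
br (nat_lit 0x20001001c) (leaf (nat_lit 8)) <|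
br (nat_lit 0x8600010025) (leaf (nat_lit 7)) nil) <|
br (nat_lit 0x920001004d) (node (nat_lit 96) (nat_lit 0) [] <|
br (nat_lit 0x20001001c) (leaf (nat_lit 11)) <|
br (nat_lit 0x8600010025) (leaf (nat_lit 12)) nil) nil) nil
def c12 : Cert := node (nat_lit 24) (nat_lit 1) [nat_lit 0x41, nat_lit 0x42, nat_lit 0x43, nat_lit 0x44084, nat_lit 0x45084] <|
br (nat_lit 0x200010018) c0 <|
br (nat_lit 0x8000200eb6) c1 <|
br (nat_lit 0x8200040023) (node (nat_lit 48) (nat_lit 0) [nat_lit 0x43] <|
br (nat_lit 0x200020064) (node (nat_lit 72) (nat_lit 0) [nat_lit 0x49] <|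
br (nat_lit 0x200020044) (node (nat_lit 96) (nat_lit 0) [] <|
br (nat_lit 0x200010056) (leaf (nat_lit 7)) <|
br (nat_lit 0x860001004d) (leaf (nat_lit 8)) nil) nil) nil) <|
br (nat_lit 0x8400040026) (node (nat_lit 48) (nat_lit 0) [nat_lit 0x49] <|
br (nat_lit 0x200020059) (node (nat_lit 72) (nat_lit 0) [nat_lit 0x43] <|
br (nat_lit 0x20002006c) (node (nat_lit 96) (nat_lit 0) [] <|
br (nat_lit 0x200010045) (leaf (nat_lit 7)) <|
br (nat_lit 0x860001003b) (leaf (nat_lit 8)) nil) nil) nil) <|
br (nat_lit 0x960001001b) c2 <|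
br (nat_lit 0x208000800d5f) c3 <|
br (nat_lit 0x210000800d29) c4 <|
br (nat_lit 0x258000200d66) c5 <|
br (nat_lit 0x20820004002c) (node (nat_lit 48) (nat_lit 0) [nat_lit 0x49] <|
br (nat_lit 0x20002005d) (node (nat_lit 72) (nat_lit 0) [nat_lit 0x43] <|
br (nat_lit 0x20002006a) (node (nat_lit 96) (nat_lit 0) [] <|
br (nat_lit 0x200010040) (leaf (nat_lit 12)) <|
br (nat_lit 0x860001003c) (leaf (nat_lit 11)) nil) nil) nil) <|
br (nat_lit 0x21020006002e) (node (nat_lit 48) (nat_lit 0) [nat_lit 0x45104] <|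
br (nat_lit 0x200020047) (node (nat_lit 72) (nat_lit 0) [nat_lit 0x42145101] <|
br (nat_lit 0x20002004f) (node (nat_lit 96) (nat_lit 0) [] <|
br (nat_lit 0x200010076) (leaf (nat_lit 13)) <|
br (nat_lit 0x8600010073) (leaf (nat_lit 13)) nil) nil) nil) <|
br (nat_lit 0x25820004002d) (node (nat_lit 48) (nat_lit 0) [nat_lit 0x43] <|
br (nat_lit 0x200020064) (node (nat_lit 72) (nat_lit 0) [nat_lit 0x49] <|
br (nat_lit 0x200020044) (node (nat_lit 96) (nat_lit 0) [] <|
br (nat_lit 0x200010056) (leaf (nat_lit 12)) <|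
br (nat_lit 0x860001004d) (leaf (nat_lit 11)) nil) nil) nil) <|
br (nat_lit 0x8008100800d56) c6 <|
br (nat_lit 0x8208100800ea5) c7 <|
br (nat_lit 0x8408100c00ed3) c8 <|
br (nat_lit 0x200408000180060) c9 <|
br (nat_lit 0x20060800018006f) c10 <|
br (nat_lit 0x201210000180041) c11 nil
def c13 : Cert := node (nat_lit 48) (nat_lit 0) [nat_lit 0x49] <|
br (nat_lit 0x200020051) (node (nat_lit 72) (nat_lit 0) [] <|
br (nat_lit 0x20001002c) (node (nat_lit 96) (nat_lit 0) [] <|
br (nat_lit 0x200010060) (leaf (nat_lit 8)) <|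
br (nat_lit 0x8600010063) (leaf (nat_lit 14)) nil) <|
br (nat_lit 0x9200010021) (node (nat_lit 96) (nat_lit 0) [] <|
br (nat_lit 0x200010060) (leaf (nat_lit 7)) <|
br (nat_lit 0x8600010063) (leaf (nat_lit 15)) nil) nil) nil
def c14 : Cert := node (nat_lit 48) (nat_lit 0) [nat_lit 0x1081] <|
br (nat_lit 0x200020178) (node (nat_lit 72) (nat_lit 0) [] <|
br (nat_lit 0x2000100ec) (node (nat_lit 96) (nat_lit 0) [] <|
br (nat_lit 0x200010183) (leaf (nat_lit 16)) <|
br (nat_lit 0x8600010180) (leaf (nat_lit 17)) nil) <|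
br (nat_lit 0x92000100e1) (node (nat_lit 96) (nat_lit 0) [] <|
br (nat_lit 0x200010183) (leaf (nat_lit 18)) <|
br (nat_lit 0x8600010180) (leaf (nat_lit 19)) nil) nil) nil
def c15 : Cert := node (nat_lit 48) (nat_lit 0) [nat_lit 0x43] <|
br (nat_lit 0x200020064) (node (nat_lit 72) (nat_lit 0) [] <|
br (nat_lit 0x200010053) (node (nat_lit 96) (nat_lit 0) [] <|
br (nat_lit 0x200010028) (leaf (nat_lit 20)) <|
br (nat_lit 0x8600010024) (leaf (nat_lit 18)) nil) <|
br (nat_lit 0x920001005d) (node (nat_lit 96) (nat_lit 0) [] <|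
br (nat_lit 0x200010028) (leaf (nat_lit 17)) <|
br (nat_lit 0x8600010024) (leaf (nat_lit 21)) nil) nil) nil
def c16 : Cert := node (nat_lit 72) (nat_lit 0) [nat_lit 0x43] <|
br (nat_lit 0x20002006c) (node (nat_lit 48) (nat_lit 0) [] <|
br (nat_lit 0x20001002b) (node (nat_lit 96) (nat_lit 0) [] <|
br (nat_lit 0x20001004b) (leaf (nat_lit 22)) <|
br (nat_lit 0x8600010048) (leaf (nat_lit 23)) nil) <|
br (nat_lit 0x940001002e) (node (nat_lit 96) (nat_lit 0) [] <|
br (nat_lit 0x20001004b) (leaf (nat_lit 23)) <|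
br (nat_lit 0x8600010048) (leaf (nat_lit 24)) nil) nil) nil
def c17 : Cert := node (nat_lit 48) (nat_lit 0) [] <|
br (nat_lit 0x2000106b2) (node (nat_lit 72) (nat_lit 0) [] <|
br (nat_lit 0x200010f34) (node (nat_lit 96) (nat_lit 0) [] <|
br (nat_lit 0x200010ab3) (leaf (nat_lit 24)) <|
br (nat_lit 0x8600010ab0) (leaf (nat_lit 15)) nil) <|
br (nat_lit 0x9200010f3d) (node (nat_lit 96) (nat_lit 0) [] <|
br (nat_lit 0x200010ab3) (leaf (nat_lit 15)) <|
br (nat_lit 0x8600010ab0) (leaf (nat_lit 28)) nil) nil) <|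
br (nat_lit 0x94000106b9) (node (nat_lit 72) (nat_lit 0) [] <|
br (nat_lit 0x200010f34) (node (nat_lit 96) (nat_lit 0) [] <|
br (nat_lit 0x200010ab3) (leaf (nat_lit 8)) <|
br (nat_lit 0x8600010ab0) (leaf (nat_lit 24)) nil) <|
br (nat_lit 0x9200010f3d) (node (nat_lit 96) (nat_lit 0) [] <|
br (nat_lit 0x200010ab3) (leaf (nat_lit 24)) <|
br (nat_lit 0x8600010ab0) (leaf (nat_lit 15)) nil) nil) nil
def c18 : Cert := node (nat_lit 48) (nat_lit 0) [] <|
br (nat_lit 0x200010f38) (node (nat_lit 72) (nat_lit 0) [] <|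
br (nat_lit 0x200010f17) (node (nat_lit 96) (nat_lit 0) [] <|
br (nat_lit 0x200010ac5) (leaf (nat_lit 26)) <|
br (nat_lit 0x8600010abb) (leaf (nat_lit 17)) nil) <|
br (nat_lit 0x9200010f12) (node (nat_lit 96) (nat_lit 0) [] <|
br (nat_lit 0x200010ac5) (leaf (nat_lit 18)) <|
br (nat_lit 0x8600010abb) (leaf (nat_lit 26)) nil) nil) <|
br (nat_lit 0x9400010f32) (node (nat_lit 72) (nat_lit 0) [] <|
br (nat_lit 0x200010f17) (node (nat_lit 96) (nat_lit 0) [] <|
br (nat_lit 0x200010ac5) (leaf (nat_lit 18)) <|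
br (nat_lit 0x8600010abb) (leaf (nat_lit 26)) nil) <|
br (nat_lit 0x9200010f12) (node (nat_lit 96) (nat_lit 0) [] <|
br (nat_lit 0x200010ac5) (leaf (nat_lit 7)) <|
br (nat_lit 0x8600010abb) (leaf (nat_lit 18)) nil) nil) nil
def c19 : Cert := node (nat_lit 48) (nat_lit 0) [] <|
br (nat_lit 0x200010ab0) (node (nat_lit 72) (nat_lit 0) [] <|
br (nat_lit 0x200010f45) (node (nat_lit 96) (nat_lit 0) [] <|
br (nat_lit 0x200010f0e) (leaf (nat_lit 20)) <|
br (nat_lit 0x8600010f05) (leaf (nat_lit 27)) nil) <|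
br (nat_lit 0x9200010f3b) (node (nat_lit 96) (nat_lit 0) [] <|
br (nat_lit 0x200010f0e) (leaf (nat_lit 23)) <|
br (nat_lit 0x8600010f05) (leaf (nat_lit 20)) nil) nil) <|
br (nat_lit 0x9400010ab3) (node (nat_lit 72) (nat_lit 0) [] <|
br (nat_lit 0x200010f45) (node (nat_lit 96) (nat_lit 0) [] <|
br (nat_lit 0x200010f0e) (leaf (nat_lit 23)) <|
br (nat_lit 0x8600010f05) (leaf (nat_lit 20)) nil) <|
br (nat_lit 0x9200010f3b) (node (nat_lit 96) (nat_lit 0) [] <|
br (nat_lit 0x200010f0e) (leaf (nat_lit 21)) <|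
br (nat_lit 0x8600010f05) (leaf (nat_lit 23)) nil) nil) nil
def c20 : Cert := node (nat_lit 48) (nat_lit 0) [] <|
br (nat_lit 0x200010c3a) (node (nat_lit 72) (nat_lit 0) [] <|
br (nat_lit 0x200010eec) (node (nat_lit 96) (nat_lit 0) [] <|
br (nat_lit 0x200010beb) (leaf (nat_lit 29)) <|
br (nat_lit 0x8600010be8) (leaf (nat_lit 8)) nil) <|
br (nat_lit 0x9200010ef5) (node (nat_lit 96) (nat_lit 0) [] <|
br (nat_lit 0x200010beb) (leaf (nat_lit 8)) <|
br (nat_lit 0x8600010be8) (leaf (nat_lit 24)) nil) nil) <|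
br (nat_lit 0x9400010c41) (node (nat_lit 72) (nat_lit 0) [] <|
br (nat_lit 0x200010eec) (node (nat_lit 96) (nat_lit 0) [] <|
br (nat_lit 0x200010beb) (leaf (nat_lit 8)) <|
br (nat_lit 0x8600010be8) (leaf (nat_lit 24)) nil) <|
br (nat_lit 0x9200010ef5) (node (nat_lit 96) (nat_lit 0) [] <|
br (nat_lit 0x200010beb) (leaf (nat_lit 24)) <|
br (nat_lit 0x8600010be8) (leaf (nat_lit 15)) nil) nil) nil
def c21 : Cert := node (nat_lit 48) (nat_lit 0) [] <|
br (nat_lit 0x200010f17) (node (nat_lit 72) (nat_lit 0) [] <|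
br (nat_lit 0x2000106b8) (node (nat_lit 96) (nat_lit 0) [] <|
br (nat_lit 0x200010ab4) (leaf (nat_lit 20)) <|
br (nat_lit 0x8600010abd) (leaf (nat_lit 23)) nil) <|
br (nat_lit 0x92000106b4) (node (nat_lit 96) (nat_lit 0) [] <|
br (nat_lit 0x200010ab4) (leaf (nat_lit 23)) <|
br (nat_lit 0x8600010abd) (leaf (nat_lit 21)) nil) nil) <|
br (nat_lit 0x9400010f12) (node (nat_lit 72) (nat_lit 0) [] <|
br (nat_lit 0x2000106b8) (node (nat_lit 96) (nat_lit 0) [] <|
br (nat_lit 0x200010ab4) (leaf (nat_lit 23)) <|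
br (nat_lit 0x8600010abd) (leaf (nat_lit 21)) nil) <|
br (nat_lit 0x92000106b4) (node (nat_lit 96) (nat_lit 0) [] <|
br (nat_lit 0x200010ab4) (leaf (nat_lit 21)) <|
br (nat_lit 0x8600010abd) (leaf (nat_lit 25)) nil) nil) nil
def c22 : Cert := node (nat_lit 48) (nat_lit 0) [] <|
br (nat_lit 0x2000106bd) (node (nat_lit 72) (nat_lit 0) [] <|
br (nat_lit 0x200010f44) (node (nat_lit 96) (nat_lit 0) [] <|
br (nat_lit 0x200010ab7) (leaf (nat_lit 22)) <|
br (nat_lit 0x8600010ab1) (leaf (nat_lit 26)) nil) <|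
br (nat_lit 0x9200010f39) (node (nat_lit 96) (nat_lit 0) [] <|
br (nat_lit 0x200010ab7) (leaf (nat_lit 26)) <|
br (nat_lit 0x8600010ab1) (leaf (nat_lit 22)) nil) nil) <|
br (nat_lit 0x94000106b3) (node (nat_lit 72) (nat_lit 0) [] <|
br (nat_lit 0x200010f44) (node (nat_lit 96) (nat_lit 0) [] <|
br (nat_lit 0x200010ab7) (leaf (nat_lit 26)) <|
br (nat_lit 0x8600010ab1) (leaf (nat_lit 24)) nil) <|
br (nat_lit 0x9200010f39) (node (nat_lit 96) (nat_lit 0) [] <|
br (nat_lit 0x200010ab7) (leaf (nat_lit 22)) <|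
br (nat_lit 0x8600010ab1) (leaf (nat_lit 26)) nil) nil) nil
def c23 : Cert := node (nat_lit 48) (nat_lit 0) [] <|
br (nat_lit 0x2000106ad) (node (nat_lit 72) (nat_lit 0) [] <|
br (nat_lit 0x200010ac6) (node (nat_lit 96) (nat_lit 0) [] <|
br (nat_lit 0x200010f0a) (leaf (nat_lit 14)) <|
br (nat_lit 0x8600010f11) (leaf (nat_lit 17)) nil) <|
br (nat_lit 0x9200010ac3) (node (nat_lit 96) (nat_lit 0) [] <|
br (nat_lit 0x200010f0a) (leaf (nat_lit 17)) <|
br (nat_lit 0x8600010f11) (leaf (nat_lit 26)) nil) nil) <|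
br (nat_lit 0x94000106b6) (node (nat_lit 72) (nat_lit 0) [] <|
br (nat_lit 0x200010ac6) (node (nat_lit 96) (nat_lit 0) [] <|
br (nat_lit 0x200010f0a) (leaf (nat_lit 17)) <|
br (nat_lit 0x8600010f11) (leaf (nat_lit 26)) nil) <|
br (nat_lit 0x9200010ac3) (node (nat_lit 96) (nat_lit 0) [] <|
br (nat_lit 0x200010f0a) (leaf (nat_lit 26)) <|
br (nat_lit 0x8600010f11) (leaf (nat_lit 18)) nil) nil) nil
def c24 : Cert := node (nat_lit 48) (nat_lit 0) [] <|
br (nat_lit 0x200010044) (node (nat_lit 72) (nat_lit 0) [] <|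
br (nat_lit 0x200010051) (node (nat_lit 96) (nat_lit 0) [] <|
br (nat_lit 0x200010068) (leaf (nat_lit 27)) <|
br (nat_lit 0x8600010062) (leaf (nat_lit 22)) nil) <|
br (nat_lit 0x920001005c) (node (nat_lit 96) (nat_lit 0) [] <|
br (nat_lit 0x200010068) (leaf (nat_lit 22)) <|
br (nat_lit 0x8600010062) (leaf (nat_lit 25)) nil) nil) <|
br (nat_lit 0x9400010039) (node (nat_lit 72) (nat_lit 0) [] <|
br (nat_lit 0x200010051) (node (nat_lit 96) (nat_lit 0) [] <|
br (nat_lit 0x200010068) (leaf (nat_lit 29)) <|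
br (nat_lit 0x8600010062) (leaf (nat_lit 27)) nil) <|
br (nat_lit 0x920001005c) (node (nat_lit 96) (nat_lit 0) [] <|
br (nat_lit 0x200010068) (leaf (nat_lit 27)) <|
br (nat_lit 0x8600010062) (leaf (nat_lit 22)) nil) nil) nil
def c25 : Cert := node (nat_lit 48) (nat_lit 0) [] <|
br (nat_lit 0x200010032) (node (nat_lit 72) (nat_lit 0) [] <|
br (nat_lit 0x200010055) (node (nat_lit 96) (nat_lit 0) [] <|
br (nat_lit 0x20001006d) (leaf (nat_lit 22)) <|
br (nat_lit 0x8600010064) (leaf (nat_lit 25)) nil) <|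
br (nat_lit 0x920001004c) (node (nat_lit 96) (nat_lit 0) [] <|
br (nat_lit 0x20001006d) (leaf (nat_lit 25)) <|
br (nat_lit 0x8600010064) (leaf (nat_lit 28)) nil) nil) <|
br (nat_lit 0x9400010038) (node (nat_lit 72) (nat_lit 0) [] <|
br (nat_lit 0x200010055) (node (nat_lit 96) (nat_lit 0) [] <|
br (nat_lit 0x20001006d) (leaf (nat_lit 27)) <|
br (nat_lit 0x8600010064) (leaf (nat_lit 22)) nil) <|
br (nat_lit 0x920001004c) (node (nat_lit 96) (nat_lit 0) [] <|
br (nat_lit 0x20001006d) (leaf (nat_lit 22)) <|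
br (nat_lit 0x8600010064) (leaf (nat_lit 25)) nil) nil) nil
def c26 : Cert := br (nat_lit 0x21005000800001001b) (node (nat_lit 48) (nat_lit 0) [nat_lit 0x43] <|
br (nat_lit 0x200020071) (node (nat_lit 72) (nat_lit 0) [nat_lit 0x49] <|
br (nat_lit 0x20002003b) (node (nat_lit 96) (nat_lit 0) [] <|
br (nat_lit 0x200010058) (leaf (nat_lit 15)) <|
br (nat_lit 0x8600010054) (leaf (nat_lit 14)) nil) nil) nil) nil
def c27 : Cert := node (nat_lit 24) (nat_lit 1) [nat_lit 0x41, nat_lit 0x42, nat_lit 0x43, nat_lit 0x45085] <|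
br (nat_lit 0x200060044) c13 <|
br (nat_lit 0x8000900136) c14 <|
br (nat_lit 0x8200180033) c15 <|
br (nat_lit 0x8400180040) c16 <|
br (nat_lit 0x208000600327) (node (nat_lit 216) (nat_lit 0) [nat_lit 0x12c2041] <|
br (nat_lit 0x200030d4a) (leaf (nat_lit 23)) <|
br (nat_lit 0x8600030c32) (leaf (nat_lit 19)) <|
br (nat_lit 0x9400010ef6) (leaf (nat_lit 16)) <|
br (nat_lit 0x248600010e6b) (leaf (nat_lit 25)) nil) <|
br (nat_lit 0x210000600351) (node (nat_lit 360) (nat_lit 0) [nat_lit 0x10c1] <|
br (nat_lit 0x200030d2b) (leaf (nat_lit 26)) <|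
br (nat_lit 0x8600010c49) (leaf (nat_lit 19)) <|
br (nat_lit 0x9200030c47) (leaf (nat_lit 16)) <|
br (nat_lit 0x251200010e5e) (leaf (nat_lit 8)) nil) <|
br (nat_lit 0x230000600d44) (node (nat_lit 216) (nat_lit 0) [nat_lit 0x1082] <|
br (nat_lit 0x200010c4f) (leaf (nat_lit 27)) <|
br (nat_lit 0x86000303c4) (leaf (nat_lit 16)) <|
br (nat_lit 0x248600030c42) (leaf (nat_lit 23)) <|
br (nat_lit 0x9448600010326) (leaf (nat_lit 19)) nil) <|
br (nat_lit 0x210200120032) (node (nat_lit 48) (nat_lit 0) [nat_lit 0x49] <|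
br (nat_lit 0x200020055) (node (nat_lit 72) (nat_lit 0) [nat_lit 0x49042] <|
br (nat_lit 0x200020026) (node (nat_lit 96) (nat_lit 0) [] <|
br (nat_lit 0x200010076) (leaf (nat_lit 26)) <|
br (nat_lit 0x8600010073) (leaf (nat_lit 26)) nil) nil) nil) <|
br (nat_lit 0x210c00600cf5) (node (nat_lit 384) (nat_lit 0) [nat_lit 0x1242081] <|
br (nat_lit 0x200030048) (leaf (nat_lit 26)) <|
br (nat_lit 0x8600030c95) (leaf (nat_lit 19)) <|
br (nat_lit 0x9200010e2d) (leaf (nat_lit 16)) <|
br (nat_lit 0x25060001001c) (leaf (nat_lit 15)) nil) <|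
br (nat_lit 0x8408000180183) (node (nat_lit 48) (nat_lit 0) [nat_lit 0x1081] <|
br (nat_lit 0x2000200e2) (node (nat_lit 72) (nat_lit 0) [nat_lit 0x1042081] <|
br (nat_lit 0x20002016d) (node (nat_lit 96) (nat_lit 0) [] <|
br (nat_lit 0x200010133) (leaf (nat_lit 19)) <|
br (nat_lit 0x8600010136) (leaf (nat_lit 17)) nil) nil) nil) <|
br (nat_lit 0x8c08100080f01) c17 <|
br (nat_lit 0x8c101002006b4) c18 <|
br (nat_lit 0x8c181002006b1) c19 <|
br (nat_lit 0x8030100080c4f) c20 <|
br (nat_lit 0x8c50100200f38) c21 <|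
br (nat_lit 0x8400200180348) (node (nat_lit 48) (nat_lit 0) [nat_lit 0x1081] <|
br (nat_lit 0x20002033a) (node (nat_lit 72) (nat_lit 0) [nat_lit 0x1042081] <|
br (nat_lit 0x2000203c5) (node (nat_lit 96) (nat_lit 0) [] <|
br (nat_lit 0x20001032b) (leaf (nat_lit 16)) <|
br (nat_lit 0x860001032e) (leaf (nat_lit 18)) nil) nil) nil) <|
br (nat_lit 0x8010d00300f03) c22 <|
br (nat_lit 0x8018d00200f36) c23 <|
br (nat_lit 0x201208000040027) (node (nat_lit 48) (nat_lit 0) [nat_lit 0x49] <|
br (nat_lit 0x20002004f) (node (nat_lit 72) (nat_lit 0) [nat_lit 0x43] <|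
br (nat_lit 0x200020077) (node (nat_lit 96) (nat_lit 0) [] <|
br (nat_lit 0x200010043) (leaf (nat_lit 18)) <|
br (nat_lit 0x8600010046) (leaf (nat_lit 20)) nil) nil) nil) <|
br (nat_lit 0x20021000006002a) (node (nat_lit 48) (nat_lit 0) [nat_lit 0x43] <|
br (nat_lit 0x20002006f) (node (nat_lit 72) (nat_lit 0) [nat_lit 0x49] <|
br (nat_lit 0x200020041) (node (nat_lit 96) (nat_lit 0) [] <|
br (nat_lit 0x200010059) (leaf (nat_lit 26)) <|
br (nat_lit 0x8600010052) (leaf (nat_lit 26)) nil) nil) nil) <|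
br (nat_lit 0x201410100040021) c24 <|
br (nat_lit 0x231208c00040028) (node (nat_lit 48) (nat_lit 0) [nat_lit 0x49] <|
br (nat_lit 0x20002005b) (node (nat_lit 72) (nat_lit 0) [nat_lit 0x43] <|
br (nat_lit 0x200020073) (node (nat_lit 96) (nat_lit 0) [] <|
br (nat_lit 0x200010030) (leaf (nat_lit 17)) <|
br (nat_lit 0x8600010033) (leaf (nat_lit 21)) nil) nil) nil) <|
br (nat_lit 0x820060810004001d) c25 <|
br (nat_lit 0x8401408000010018) (node (nat_lit 48) (nat_lit 0) [nat_lit 0x43] <|
br (nat_lit 0x200020071) (node (nat_lit 72) (nat_lit 0) [nat_lit 0x49] <|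
br (nat_lit 0x20002003b) (node (nat_lit 96) (nat_lit 0) [] <|
br (nat_lit 0x200010058) (leaf (nat_lit 7)) <|
br (nat_lit 0x8600010054) (leaf (nat_lit 8)) nil) nil) nil) c26
def c28 : Cert := node (nat_lit 24) (nat_lit 0) [nat_lit 0x43, nat_lit 0x1005006, nat_lit 0x4b285104] <|
br (nat_lit 0x2000100d2) (node (nat_lit 96) (nat_lit 0) [] <|
br (nat_lit 0x200010060) (leaf (nat_lit 1)) <|
br (nat_lit 0x8600010063) (leaf (nat_lit 2)) nil) <|
br (nat_lit 0x230400080386) (node (nat_lit 96) (nat_lit 0) [] <|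
br (nat_lit 0x200010125) (leaf (nat_lit 30)) <|
br (nat_lit 0x860001012e) (leaf (nat_lit 15)) nil) <|
br (nat_lit 0x80500000808ce) (node (nat_lit 96) (nat_lit 0) [] <|
br (nat_lit 0x200010e5b) (leaf (nat_lit 2)) <|
br (nat_lit 0x8600010e58) (leaf (nat_lit 30)) nil) <|
br (nat_lit 0x258c104000806d1) (node (nat_lit 96) (nat_lit 0) [] <|
br (nat_lit 0x200010359) (leaf (nat_lit 30)) <|
br (nat_lit 0x8600010352) (leaf (nat_lit 15)) nil) <|
br (nat_lit 0x8c5043040001011a) (node (nat_lit 96) (nat_lit 0) [] <|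
br (nat_lit 0x20001006a) (leaf (nat_lit 15)) <|
br (nat_lit 0x8600010071) (leaf (nat_lit 31)) nil) <|
br (nat_lit 0x9631210c00010167) (node (nat_lit 96) (nat_lit 0) [] <|
br (nat_lit 0x20001006e) (leaf (nat_lit 15)) <|
br (nat_lit 0x8600010065) (leaf (nat_lit 31)) nil) nil
def c29 : Cert := node (nat_lit 1968) (nat_lit 0) [nat_lit 0x43005002, nat_lit 0x46102141] <|
br (nat_lit 0x200010d42) (node (nat_lit 3672) (nat_lit 0) [] <|
br (nat_lit 0x200010e58) (leaf (nat_lit 4)) <|
br (nat_lit 0x8410058400010e5b) (leaf (nat_lit 30)) nil) <|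
br (nat_lit 0x860008082d) (node (nat_lit 24) (nat_lit 0) [] <|
br (nat_lit 0x200010d7e) (leaf (nat_lit 5)) <|
br (nat_lit 0x84100584000108ce) (leaf (nat_lit 32)) nil) <|
br (nat_lit 0x23040008062a) (node (nat_lit 120) (nat_lit 0) [] <|
br (nat_lit 0x200010b9a) (leaf (nat_lit 33)) <|
br (nat_lit 0x8410058400010f0c) (leaf (nat_lit 34)) nil) <|
br (nat_lit 0x8630400080f2b) (node (nat_lit 216) (nat_lit 0) [] <|
br (nat_lit 0x20001084a) (leaf (nat_lit 34)) <|
br (nat_lit 0x841005840001086f) (leaf (nat_lit 33)) nil) <|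
br (nat_lit 0x9610208000010d23) (node (nat_lit 3672) (nat_lit 0) [] <|
br (nat_lit 0x200010e62) (leaf (nat_lit 24)) <|
br (nat_lit 0x8410058400010e69) (leaf (nat_lit 35)) nil) <|
br (nat_lit 0x960801040001000a) (node (nat_lit 3672) (nat_lit 0) [] <|
br (nat_lit 0x200010e66) (leaf (nat_lit 24)) <|
br (nat_lit 0x8410058400010e5d) (leaf (nat_lit 35)) nil) nil
def c30 : Cert := node (nat_lit 1128) (nat_lit 0) [nat_lit 0x128600a, nat_lit 0x40280] <|
br (nat_lit 0x20006004d) (node (nat_lit 24) (nat_lit 0) [nat_lit 0x44102085141] <|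
br (nat_lit 0x2000100cc) (leaf (nat_lit 10)) <|
br (nat_lit 0x8050000030e8e) (leaf (nat_lit 36)) <|
br (nat_lit 0x250c01400010ce0) (leaf (nat_lit 37)) <|
br (nat_lit 0x250031400010b57) (leaf (nat_lit 33)) nil) <|
br (nat_lit 0x86000102de) (node (nat_lit 288) (nat_lit 0) [nat_lit 0x46286] <|
br (nat_lit 0x20001012b) (leaf (nat_lit 16)) <|
br (nat_lit 0x8050000020abd) (leaf (nat_lit 38)) <|
br (nat_lit 0x8c50c00010135) (leaf (nat_lit 38)) <|
br (nat_lit 0x250c0140002089b) (leaf (nat_lit 39)) nil) <|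
br (nat_lit 0x230400010476) (node (nat_lit 288) (nat_lit 0) [nat_lit 0x46286] <|
br (nat_lit 0x200010121) (leaf (nat_lit 26)) <|
br (nat_lit 0x805000002089c) (leaf (nat_lit 24)) <|
br (nat_lit 0x8c50c00010127) (leaf (nat_lit 26)) <|
br (nat_lit 0x250c01400020ab6) (leaf (nat_lit 26)) nil) <|
br (nat_lit 0x8030200010918) (node (nat_lit 288) (nat_lit 0) [nat_lit 0x46286] <|
br (nat_lit 0x200020ac7) (leaf (nat_lit 7)) <|
br (nat_lit 0x8050000020898) (leaf (nat_lit 18)) <|
br (nat_lit 0x250c01400010122) (leaf (nat_lit 21)) <|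
br (nat_lit 0x9400c01400010128) (leaf (nat_lit 18)) nil) nil
def c31 : Cert := node (nat_lit 168) (nat_lit 0) [nat_lit 0x43, nat_lit 0x40280] <|
br (nat_lit 0x2000100b6) (node (nat_lit 96) (nat_lit 0) [nat_lit 0x43] <|
br (nat_lit 0x200020e68) (leaf (nat_lit 7)) <|
br (nat_lit 0x8600020e64) (leaf (nat_lit 18)) <|
br (nat_lit 0x218050000010070) (leaf (nat_lit 21)) <|
br (nat_lit 0x841005840001006c) (leaf (nat_lit 18)) nil) <|
br (nat_lit 0x2304000609e4) (node (nat_lit 624) (nat_lit 0) [nat_lit 0x12c0100] <|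
br (nat_lit 0x200030d97) (leaf (nat_lit 36)) <|
br (nat_lit 0x86000103ca) (leaf (nat_lit 10)) <|
br (nat_lit 0x805000001043e) (leaf (nat_lit 33)) <|
br (nat_lit 0x84100584000104c0) (leaf (nat_lit 37)) nil) <|
br (nat_lit 0x96102081000101a9) (node (nat_lit 96) (nat_lit 0) [nat_lit 0x43] <|
br (nat_lit 0x200010074) (leaf (nat_lit 38)) <|
br (nat_lit 0x8600010069) (leaf (nat_lit 16)) <|
br (nat_lit 0x8050000020891) (leaf (nat_lit 39)) <|
br (nat_lit 0x218050000020e6c) (leaf (nat_lit 38)) nil) <|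
br (nat_lit 0x9608010400010003) (node (nat_lit 96) (nat_lit 0) [nat_lit 0x43] <|
br (nat_lit 0x200010073) (leaf (nat_lit 26)) <|
br (nat_lit 0x8600010076) (leaf (nat_lit 26)) <|
br (nat_lit 0x805000002089e) (leaf (nat_lit 24)) <|
br (nat_lit 0x218050000020e6b) (leaf (nat_lit 26)) nil) nil
def c32 : Cert := node (nat_lit 1344) (nat_lit 0) [nat_lit 0x1102140, nat_lit 0x128200a140] <|
br (nat_lit 0x200010e39) (node (nat_lit 3216) (nat_lit 0) [] <|
br (nat_lit 0x200010c95) (leaf (nat_lit 11)) <|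
br (nat_lit 0x8030200010c9e) (leaf (nat_lit 8)) nil) <|
br (nat_lit 0x8600080be1) (node (nat_lit 24) (nat_lit 0) [] <|
br (nat_lit 0x2000100c8) (leaf (nat_lit 23)) <|
br (nat_lit 0x803020001097a) (leaf (nat_lit 16)) nil) <|
br (nat_lit 0x2304000807c0) (node (nat_lit 120) (nat_lit 0) [] <|
br (nat_lit 0x200010f0c) (leaf (nat_lit 40)) <|
br (nat_lit 0x80302000104b8) (leaf (nat_lit 18)) nil) <|
br (nat_lit 0x8630400080bb0) (node (nat_lit 168) (nat_lit 0) [] <|
br (nat_lit 0x2000100b6) (leaf (nat_lit 23)) <|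
br (nat_lit 0x803020001018b) (leaf (nat_lit 16)) nil) <|
br (nat_lit 0x8430058400010d0d) (node (nat_lit 3216) (nat_lit 0) [] <|
br (nat_lit 0x200010c9a) (leaf (nat_lit 8)) <|
br (nat_lit 0x8030200010ca1) (leaf (nat_lit 11)) nil) <|
br (nat_lit 0x9430050600010002) (node (nat_lit 3216) (nat_lit 0) [] <|
br (nat_lit 0x200010c93) (leaf (nat_lit 41)) <|
br (nat_lit 0x8030200010c90) (leaf (nat_lit 5)) nil) nil
def c33 : Cert := node (nat_lit 24) (nat_lit 0) [nat_lit 0x43, nat_lit 0x1005006, nat_lit 0x4b285104] <|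
br (nat_lit 0x2000100d7) (node (nat_lit 96) (nat_lit 0) [] <|
br (nat_lit 0x200010060) (leaf (nat_lit 6)) <|
br (nat_lit 0x8600010063) (leaf (nat_lit 42)) nil) <|
br (nat_lit 0x230400080806) (node (nat_lit 96) (nat_lit 0) [] <|
br (nat_lit 0x20001034d) (leaf (nat_lit 27)) <|
br (nat_lit 0x8600010356) (leaf (nat_lit 20)) nil) <|
br (nat_lit 0x805000008050e) (node (nat_lit 96) (nat_lit 0) [] <|
br (nat_lit 0x20001088b) (leaf (nat_lit 20)) <|
br (nat_lit 0x8600010888) (leaf (nat_lit 6)) nil) <|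
br (nat_lit 0x258c10400080491) (node (nat_lit 96) (nat_lit 0) [] <|
br (nat_lit 0x200010131) (leaf (nat_lit 27)) <|
br (nat_lit 0x860001012a) (leaf (nat_lit 20)) nil) <|
br (nat_lit 0x8c5043040001011f) (node (nat_lit 96) (nat_lit 0) [] <|
br (nat_lit 0x20001006a) (leaf (nat_lit 29)) <|
br (nat_lit 0x8600010071) (leaf (nat_lit 27)) nil) <|
br (nat_lit 0x9631210c00010162) (node (nat_lit 96) (nat_lit 0) [] <|
br (nat_lit 0x20001006e) (leaf (nat_lit 29)) <|
br (nat_lit 0x8600010065) (leaf (nat_lit 27)) nil) nil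
def c34 : Cert := node (nat_lit 48) (nat_lit 0) [nat_lit 0x4a] <|
br (nat_lit 0x200020024) (node (nat_lit 72) (nat_lit 0) [] <|
br (nat_lit 0x200010040) (node (nat_lit 96) (nat_lit 0) [] <|
br (nat_lit 0x200010060) (leaf (nat_lit 8)) <|
br (nat_lit 0x8600010063) (leaf (nat_lit 14)) nil) <|
br (nat_lit 0x920001003c) (node (nat_lit 96) (nat_lit 0) [] <|
br (nat_lit 0x200010060) (leaf (nat_lit 7)) <|
br (nat_lit 0x8600010063) (leaf (nat_lit 15)) nil) nil) nil
def c35 : Cert := node (nat_lit 48) (nat_lit 0) [nat_lit 0x1081] <|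
br (nat_lit 0x200020328) (node (nat_lit 72) (nat_lit 0) [] <|
br (nat_lit 0x200010344) (node (nat_lit 96) (nat_lit 0) [] <|
br (nat_lit 0x2000103c3) (leaf (nat_lit 16)) <|
br (nat_lit 0x86000103c0) (leaf (nat_lit 17)) nil) <|
br (nat_lit 0x9200010339) (node (nat_lit 96) (nat_lit 0) [] <|
br (nat_lit 0x2000103c3) (leaf (nat_lit 18)) <|
br (nat_lit 0x86000103c0) (leaf (nat_lit 19)) nil) nil) nil
def c36 : Cert := node (nat_lit 48) (nat_lit 0) [nat_lit 0x43] <|
br (nat_lit 0x200020064) (node (nat_lit 72) (nat_lit 0) [] <|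
br (nat_lit 0x20001002f) (node (nat_lit 96) (nat_lit 0) [] <|
br (nat_lit 0x200010043) (leaf (nat_lit 24)) <|
br (nat_lit 0x8600010046) (leaf (nat_lit 23)) nil) <|
br (nat_lit 0x920001002a) (node (nat_lit 96) (nat_lit 0) [] <|
br (nat_lit 0x200010043) (leaf (nat_lit 23)) <|
br (nat_lit 0x8600010046) (leaf (nat_lit 22)) nil) nil) nil
def c37 : Cert := node (nat_lit 72) (nat_lit 0) [nat_lit 0x43] <|
br (nat_lit 0x20002006c) (node (nat_lit 48) (nat_lit 0) [] <|
br (nat_lit 0x200010039) (node (nat_lit 96) (nat_lit 0) [] <|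
br (nat_lit 0x20001001a) (leaf (nat_lit 20)) <|
br (nat_lit 0x8600010020) (leaf (nat_lit 18)) nil) <|
br (nat_lit 0x9400010044) (node (nat_lit 96) (nat_lit 0) [] <|
br (nat_lit 0x20001001a) (leaf (nat_lit 17)) <|
br (nat_lit 0x8600010020) (leaf (nat_lit 21)) nil) nil) nil
def c38 : Cert := node (nat_lit 48) (nat_lit 0) [] <|
br (nat_lit 0x200010c0d) (node (nat_lit 72) (nat_lit 0) [] <|
br (nat_lit 0x200010b43) (node (nat_lit 96) (nat_lit 0) [] <|
br (nat_lit 0x200010e09) (leaf (nat_lit 23)) <|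
br (nat_lit 0x8600010e02) (leaf (nat_lit 21)) nil) <|
br (nat_lit 0x9200010b40) (node (nat_lit 96) (nat_lit 0) [] <|
br (nat_lit 0x200010e09) (leaf (nat_lit 20)) <|
br (nat_lit 0x8600010e02) (leaf (nat_lit 23)) nil) nil) <|
br (nat_lit 0x9400010c04) (node (nat_lit 72) (nat_lit 0) [] <|
br (nat_lit 0x200010b43) (node (nat_lit 96) (nat_lit 0) [] <|
br (nat_lit 0x200010e09) (leaf (nat_lit 20)) <|
br (nat_lit 0x8600010e02) (leaf (nat_lit 23)) nil) <|
br (nat_lit 0x9200010b40) (node (nat_lit 96) (nat_lit 0) [] <|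
br (nat_lit 0x200010e09) (leaf (nat_lit 27)) <|
br (nat_lit 0x8600010e02) (leaf (nat_lit 20)) nil) nil) nil
def c39 : Cert := node (nat_lit 48) (nat_lit 0) [] <|
br (nat_lit 0x200010ca3) (node (nat_lit 72) (nat_lit 0) [] <|
br (nat_lit 0x200010a49) (node (nat_lit 96) (nat_lit 0) [] <|
br (nat_lit 0x200010e2d) (leaf (nat_lit 18)) <|
br (nat_lit 0x8600010e36) (leaf (nat_lit 26)) nil) <|
br (nat_lit 0x9200010a42) (node (nat_lit 96) (nat_lit 0) [] <|
br (nat_lit 0x200010e2d) (leaf (nat_lit 26)) <|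
br (nat_lit 0x8600010e36) (leaf (nat_lit 17)) nil) nil) <|
br (nat_lit 0x9400010ca6) (node (nat_lit 72) (nat_lit 0) [] <|
br (nat_lit 0x200010a49) (node (nat_lit 96) (nat_lit 0) [] <|
br (nat_lit 0x200010e2d) (leaf (nat_lit 26)) <|
br (nat_lit 0x8600010e36) (leaf (nat_lit 17)) nil) <|
br (nat_lit 0x9200010a42) (node (nat_lit 96) (nat_lit 0) [] <|
br (nat_lit 0x200010e2d) (leaf (nat_lit 17)) <|
br (nat_lit 0x8600010e36) (leaf (nat_lit 14)) nil) nil) nil
def c40 : Cert := node (nat_lit 48) (nat_lit 0) [] <|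
br (nat_lit 0x200010ca3) (node (nat_lit 72) (nat_lit 0) [] <|
br (nat_lit 0x200010a49) (node (nat_lit 96) (nat_lit 0) [] <|
br (nat_lit 0x200010e2d) (leaf (nat_lit 7)) <|
br (nat_lit 0x8600010e36) (leaf (nat_lit 18)) nil) <|
br (nat_lit 0x9200010a42) (node (nat_lit 96) (nat_lit 0) [] <|
br (nat_lit 0x200010e2d) (leaf (nat_lit 18)) <|
br (nat_lit 0x8600010e36) (leaf (nat_lit 26)) nil) nil) <|
br (nat_lit 0x9400010ca6) (node (nat_lit 72) (nat_lit 0) [] <|
br (nat_lit 0x200010a49) (node (nat_lit 96) (nat_lit 0) [] <|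
br (nat_lit 0x200010e2d) (leaf (nat_lit 18)) <|
br (nat_lit 0x8600010e36) (leaf (nat_lit 26)) nil) <|
br (nat_lit 0x9200010a42) (node (nat_lit 96) (nat_lit 0) [] <|
br (nat_lit 0x200010e2d) (leaf (nat_lit 26)) <|
br (nat_lit 0x8600010e36) (leaf (nat_lit 17)) nil) nil) nil
def c41 : Cert := node (nat_lit 48) (nat_lit 0) [] <|
br (nat_lit 0x200010a3e) (node (nat_lit 72) (nat_lit 0) [] <|
br (nat_lit 0x200010d1c) (node (nat_lit 96) (nat_lit 0) [] <|
br (nat_lit 0x200010e3b) (leaf (nat_lit 22)) <|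
br (nat_lit 0x8600010e3e) (leaf (nat_lit 26)) nil) <|
br (nat_lit 0x9200010d11) (node (nat_lit 96) (nat_lit 0) [] <|
br (nat_lit 0x200010e3b) (leaf (nat_lit 26)) <|
br (nat_lit 0x8600010e3e) (leaf (nat_lit 24)) nil) nil) <|
br (nat_lit 0x9400010a47) (node (nat_lit 72) (nat_lit 0) [] <|
br (nat_lit 0x200010d1c) (node (nat_lit 96) (nat_lit 0) [] <|
br (nat_lit 0x200010e3b) (leaf (nat_lit 26)) <|
br (nat_lit 0x8600010e3e) (leaf (nat_lit 22)) nil) <|
br (nat_lit 0x9200010d11) (node (nat_lit 96) (nat_lit 0) [] <|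
br (nat_lit 0x200010e3b) (leaf (nat_lit 22)) <|
br (nat_lit 0x8600010e3e) (leaf (nat_lit 26)) nil) nil) nil
def c42 : Cert := node (nat_lit 48) (nat_lit 0) [] <|
br (nat_lit 0x200010c9d) (node (nat_lit 72) (nat_lit 0) [] <|
br (nat_lit 0x200010d0b) (node (nat_lit 96) (nat_lit 0) [] <|
br (nat_lit 0x200010a49) (leaf (nat_lit 21)) <|
br (nat_lit 0x8600010a42) (leaf (nat_lit 25)) nil) <|
br (nat_lit 0x9200010d08) (node (nat_lit 96) (nat_lit 0) [] <|
br (nat_lit 0x200010a49) (leaf (nat_lit 23)) <|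
br (nat_lit 0x8600010a42) (leaf (nat_lit 21)) nil) nil) <|
br (nat_lit 0x9400010c94) (node (nat_lit 72) (nat_lit 0) [] <|
br (nat_lit 0x200010d0b) (node (nat_lit 96) (nat_lit 0) [] <|
br (nat_lit 0x200010a49) (leaf (nat_lit 23)) <|
br (nat_lit 0x8600010a42) (leaf (nat_lit 21)) nil) <|
br (nat_lit 0x9200010d08) (node (nat_lit 96) (nat_lit 0) [] <|
br (nat_lit 0x200010a49) (leaf (nat_lit 20)) <|
br (nat_lit 0x8600010a42) (leaf (nat_lit 23)) nil) nil) nil
def c43 : Cert := node (nat_lit 48) (nat_lit 0) [] <|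
br (nat_lit 0x200010e33) (node (nat_lit 72) (nat_lit 0) [] <|
br (nat_lit 0x200010c9e) (node (nat_lit 96) (nat_lit 0) [] <|
br (nat_lit 0x200010a3b) (leaf (nat_lit 24)) <|
br (nat_lit 0x8600010a38) (leaf (nat_lit 15)) nil) <|
br (nat_lit 0x9200010c95) (node (nat_lit 96) (nat_lit 0) [] <|
br (nat_lit 0x200010a3b) (leaf (nat_lit 8)) <|
br (nat_lit 0x8600010a38) (leaf (nat_lit 24)) nil) nil) <|
br (nat_lit 0x9400010e3d) (node (nat_lit 72) (nat_lit 0) [] <|
br (nat_lit 0x200010c9e) (node (nat_lit 96) (nat_lit 0) [] <|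
br (nat_lit 0x200010a3b) (leaf (nat_lit 15)) <|
br (nat_lit 0x8600010a38) (leaf (nat_lit 28)) nil) <|
br (nat_lit 0x9200010c95) (node (nat_lit 96) (nat_lit 0) [] <|
br (nat_lit 0x200010a3b) (leaf (nat_lit 24)) <|
br (nat_lit 0x8600010a38) (leaf (nat_lit 15)) nil) nil) nil
def c44 : Cert := node (nat_lit 48) (nat_lit 0) [] <|
br (nat_lit 0x200010b4b) (node (nat_lit 72) (nat_lit 0) [] <|
br (nat_lit 0x200010e06) (node (nat_lit 96) (nat_lit 0) [] <|
br (nat_lit 0x200010c03) (leaf (nat_lit 29)) <|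
br (nat_lit 0x8600010c00) (leaf (nat_lit 8)) nil) <|
br (nat_lit 0x9200010dfd) (node (nat_lit 96) (nat_lit 0) [] <|
br (nat_lit 0x200010c03) (leaf (nat_lit 8)) <|
br (nat_lit 0x8600010c00) (leaf (nat_lit 24)) nil) nil) <|
br (nat_lit 0x9400010b55) (node (nat_lit 72) (nat_lit 0) [] <|
br (nat_lit 0x200010e06) (node (nat_lit 96) (nat_lit 0) [] <|
br (nat_lit 0x200010c03) (leaf (nat_lit 8)) <|
br (nat_lit 0x8600010c00) (leaf (nat_lit 24)) nil) <|
br (nat_lit 0x9200010dfd) (node (nat_lit 96) (nat_lit 0) [] <|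
br (nat_lit 0x200010c03) (leaf (nat_lit 24)) <|
br (nat_lit 0x8600010c00) (leaf (nat_lit 15)) nil) nil) nil
def c45 : Cert := node (nat_lit 48) (nat_lit 0) [] <|
br (nat_lit 0x20001003a) (node (nat_lit 72) (nat_lit 0) [] <|
br (nat_lit 0x200010053) (node (nat_lit 96) (nat_lit 0) [] <|
br (nat_lit 0x20001006c) (leaf (nat_lit 27)) <|
br (nat_lit 0x8600010070) (leaf (nat_lit 22)) nil) <|
br (nat_lit 0x920001005d) (node (nat_lit 96) (nat_lit 0) [] <|
br (nat_lit 0x20001006c) (leaf (nat_lit 22)) <|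
br (nat_lit 0x8600010070) (leaf (nat_lit 25)) nil) nil) <|
br (nat_lit 0x9400010041) (node (nat_lit 72) (nat_lit 0) [] <|
br (nat_lit 0x200010053) (node (nat_lit 96) (nat_lit 0) [] <|
br (nat_lit 0x20001006c) (leaf (nat_lit 22)) <|
br (nat_lit 0x8600010070) (leaf (nat_lit 25)) nil) <|
br (nat_lit 0x920001005d) (node (nat_lit 96) (nat_lit 0) [] <|
br (nat_lit 0x20001006c) (leaf (nat_lit 25)) <|
br (nat_lit 0x8600010070) (leaf (nat_lit 28)) nil) nil) nil
def c46 : Cert := node (nat_lit 48) (nat_lit 0) [] <|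
br (nat_lit 0x20001003a) (node (nat_lit 72) (nat_lit 0) [] <|
br (nat_lit 0x200010053) (node (nat_lit 96) (nat_lit 0) [] <|
br (nat_lit 0x20001006c) (leaf (nat_lit 29)) <|
br (nat_lit 0x8600010070) (leaf (nat_lit 27)) nil) <|
br (nat_lit 0x920001005d) (node (nat_lit 96) (nat_lit 0) [] <|
br (nat_lit 0x20001006c) (leaf (nat_lit 27)) <|
br (nat_lit 0x8600010070) (leaf (nat_lit 22)) nil) nil) <|
br (nat_lit 0x9400010041) (node (nat_lit 72) (nat_lit 0) [] <|
br (nat_lit 0x200010053) (node (nat_lit 96) (nat_lit 0) [] <|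
br (nat_lit 0x20001006c) (leaf (nat_lit 27)) <|
br (nat_lit 0x8600010070) (leaf (nat_lit 22)) nil) <|
br (nat_lit 0x920001005d) (node (nat_lit 96) (nat_lit 0) [] <|
br (nat_lit 0x20001006c) (leaf (nat_lit 22)) <|
br (nat_lit 0x8600010070) (leaf (nat_lit 25)) nil) nil) nil
def c47 : Cert := br (nat_lit 0x8231210c00010018) (node (nat_lit 48) (nat_lit 0) [nat_lit 0x49] <|
br (nat_lit 0x200020055) (node (nat_lit 72) (nat_lit 0) [nat_lit 0x43] <|
br (nat_lit 0x20002006e) (node (nat_lit 96) (nat_lit 0) [] <|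
br (nat_lit 0x200010039) (leaf (nat_lit 7)) <|
br (nat_lit 0x8600010044) (leaf (nat_lit 8)) nil) nil) nil) nil
def c48 : Cert := node (nat_lit 24) (nat_lit 1) [nat_lit 0x41, nat_lit 0x42, nat_lit 0x43, nat_lit 0x45084] <|
br (nat_lit 0x200060058) c34 <|
br (nat_lit 0x800090035e) c35 <|
br (nat_lit 0x820018004a) c36 <|
br (nat_lit 0x840018005b) c37 <|
br (nat_lit 0x2080006000e7) (node (nat_lit 216) (nat_lit 0) [nat_lit 0x12c2041] <|
br (nat_lit 0x200010d02) (leaf (nat_lit 8)) <|
br (nat_lit 0x8600030d52) (leaf (nat_lit 16)) <|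
br (nat_lit 0x248600030b53) (leaf (nat_lit 26)) <|
br (nat_lit 0x9448600010e65) (leaf (nat_lit 19)) nil) <|
br (nat_lit 0x210000600129) (node (nat_lit 288) (nat_lit 0) [nat_lit 0x1241] <|
br (nat_lit 0x200030b46) (leaf (nat_lit 23)) <|
br (nat_lit 0x8600030d23) (leaf (nat_lit 19)) <|
br (nat_lit 0x9200010d4e) (leaf (nat_lit 16)) <|
br (nat_lit 0x250600010d00) (leaf (nat_lit 25)) nil) <|
br (nat_lit 0x230100200cfc) c38 <|
br (nat_lit 0x20020060034e) (node (nat_lit 360) (nat_lit 0) [nat_lit 0x10c2041] <|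
br (nat_lit 0x200030891) (leaf (nat_lit 26)) <|
br (nat_lit 0x8600030e3b) (leaf (nat_lit 19)) <|
br (nat_lit 0x9200010d1a) (leaf (nat_lit 16)) <|
br (nat_lit 0x250600010ead) (leaf (nat_lit 15)) nil) <|
br (nat_lit 0x210200120057) (node (nat_lit 48) (nat_lit 0) [nat_lit 0x4a] <|
br (nat_lit 0x200020022) (node (nat_lit 72) (nat_lit 0) [nat_lit 0x4a042] <|
br (nat_lit 0x20002003b) (node (nat_lit 96) (nat_lit 0) [] <|
br (nat_lit 0x200010076) (leaf (nat_lit 26)) <|
br (nat_lit 0x8600010073) (leaf (nat_lit 26)) nil) nil) nil) <|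
br (nat_lit 0x200d00200d10) c39 <|
br (nat_lit 0x210c006006ad) (node (nat_lit 384) (nat_lit 0) [nat_lit 0x1282041] <|
br (nat_lit 0x200010020) (leaf (nat_lit 27)) <|
br (nat_lit 0x8600030c4d) (leaf (nat_lit 16)) <|
br (nat_lit 0x24860003006e) (leaf (nat_lit 23)) <|
br (nat_lit 0x9448600010bed) (leaf (nat_lit 19)) nil) <|
br (nat_lit 0x84080001803c3) (node (nat_lit 48) (nat_lit 0) [nat_lit 0x1081] <|
br (nat_lit 0x20002033a) (node (nat_lit 72) (nat_lit 0) [nat_lit 0x1042081] <|
br (nat_lit 0x20002031d) (node (nat_lit 96) (nat_lit 0) [] <|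
br (nat_lit 0x20001035b) (leaf (nat_lit 16)) <|
br (nat_lit 0x860001035e) (leaf (nat_lit 18)) nil) nil) nil) <|
br (nat_lit 0x8230100200d0a) c40 <|
br (nat_lit 0x8430100300c97) c41 <|
br (nat_lit 0x9430100200e34) c42 <|
br (nat_lit 0x8400200180120) (node (nat_lit 48) (nat_lit 0) [nat_lit 0x1081] <|
br (nat_lit 0x20002018a) (node (nat_lit 72) (nat_lit 0) [nat_lit 0x1042081] <|
br (nat_lit 0x20002016d) (node (nat_lit 96) (nat_lit 0) [] <|
br (nat_lit 0x2000100eb) (leaf (nat_lit 19)) <|
br (nat_lit 0x86000100ee) (leaf (nat_lit 17)) nil) nil) nil) <|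
br (nat_lit 0x8030300080d1f) c43 <|
br (nat_lit 0x8200d00080d02) c44 <|
br (nat_lit 0x20140810004001e) c45 <|
br (nat_lit 0x20121000004002c) (node (nat_lit 48) (nat_lit 0) [nat_lit 0x43] <|
br (nat_lit 0x200020073) (node (nat_lit 72) (nat_lit 0) [nat_lit 0x49] <|
br (nat_lit 0x200020043) (node (nat_lit 96) (nat_lit 0) [] <|
br (nat_lit 0x200010048) (leaf (nat_lit 17)) <|
br (nat_lit 0x860001004b) (leaf (nat_lit 21)) nil) nil) nil) <|
br (nat_lit 0x20121800006002e) (node (nat_lit 48) (nat_lit 0) [nat_lit 0x49] <|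
br (nat_lit 0x20002005c) (node (nat_lit 72) (nat_lit 0) [nat_lit 0x43] <|
br (nat_lit 0x200020074) (node (nat_lit 96) (nat_lit 0) [] <|
br (nat_lit 0x200010038) (leaf (nat_lit 26)) <|
br (nat_lit 0x8600010032) (leaf (nat_lit 26)) nil) nil) nil) <|
br (nat_lit 0x8050008100040027) c46 <|
br (nat_lit 0x840060800001001b) (node (nat_lit 48) (nat_lit 0) [nat_lit 0x49] <|
br (nat_lit 0x200020055) (node (nat_lit 72) (nat_lit 0) [nat_lit 0x43] <|
br (nat_lit 0x20002006e) (node (nat_lit 96) (nat_lit 0) [] <|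
br (nat_lit 0x200010044) (leaf (nat_lit 14)) <|
br (nat_lit 0x8600010039) (leaf (nat_lit 15)) nil) nil) nil) <|
br (nat_lit 0x8201208000040026) (node (nat_lit 48) (nat_lit 0) [nat_lit 0x43] <|
br (nat_lit 0x200020063) (node (nat_lit 72) (nat_lit 0) [nat_lit 0x49] <|
br (nat_lit 0x200020031) (node (nat_lit 96) (nat_lit 0) [] <|
br (nat_lit 0x20001004f) (leaf (nat_lit 20)) <|
br (nat_lit 0x8600010049) (leaf (nat_lit 18)) nil) nil) nil) c47
def c49 : Cert := node (nat_lit 48) (nat_lit 0) [nat_lit 0x4a] <|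
br (nat_lit 0x200020022) (node (nat_lit 72) (nat_lit 0) [] <|
br (nat_lit 0x20001003a) (node (nat_lit 96) (nat_lit 0) [] <|
br (nat_lit 0x200010060) (leaf (nat_lit 12)) <|
br (nat_lit 0x8600010063) (leaf (nat_lit 31)) nil) <|
br (nat_lit 0x9200010041) (node (nat_lit 96) (nat_lit 0) [] <|
br (nat_lit 0x200010060) (leaf (nat_lit 11)) <|
br (nat_lit 0x8600010063) (leaf (nat_lit 43)) nil) nil) nil
def c50 : Cert := node (nat_lit 48) (nat_lit 0) [] <|
br (nat_lit 0x2000109b8) (node (nat_lit 72) (nat_lit 0) [] <|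
br (nat_lit 0x200010ee4) (node (nat_lit 96) (nat_lit 0) [] <|
br (nat_lit 0x20001088b) (leaf (nat_lit 11)) <|
br (nat_lit 0x8600010888) (leaf (nat_lit 35)) nil) <|
br (nat_lit 0x9200010ed9) (node (nat_lit 96) (nat_lit 0) [] <|
br (nat_lit 0x20001088b) (leaf (nat_lit 35)) <|
br (nat_lit 0x8600010888) (leaf (nat_lit 31)) nil) nil) <|
br (nat_lit 0x94000109b4) (node (nat_lit 72) (nat_lit 0) [] <|
br (nat_lit 0x200010ee4) (node (nat_lit 96) (nat_lit 0) [] <|
br (nat_lit 0x20001088b) (leaf (nat_lit 27)) <|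
br (nat_lit 0x8600010888) (leaf (nat_lit 11)) nil) <|
br (nat_lit 0x9200010ed9) (node (nat_lit 96) (nat_lit 0) [] <|
br (nat_lit 0x20001088b) (leaf (nat_lit 11)) <|
br (nat_lit 0x8600010888) (leaf (nat_lit 35)) nil) nil) nil
def c51 : Cert := node (nat_lit 48) (nat_lit 0) [nat_lit 0x43] <|
br (nat_lit 0x200020064) (node (nat_lit 72) (nat_lit 0) [] <|
br (nat_lit 0x200010019) (node (nat_lit 96) (nat_lit 0) [] <|
br (nat_lit 0x200010030) (leaf (nat_lit 44)) <|
br (nat_lit 0x8600010033) (leaf (nat_lit 35)) nil) <|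
br (nat_lit 0x920001001f) (node (nat_lit 96) (nat_lit 0) [] <|
br (nat_lit 0x200010030) (leaf (nat_lit 25)) <|
br (nat_lit 0x8600010033) (leaf (nat_lit 44)) nil) nil) nil
def c52 : Cert := node (nat_lit 72) (nat_lit 0) [nat_lit 0x43] <|
br (nat_lit 0x20002006c) (node (nat_lit 48) (nat_lit 0) [] <|
br (nat_lit 0x20001003e) (node (nat_lit 96) (nat_lit 0) [] <|
br (nat_lit 0x20001001c) (leaf (nat_lit 21)) <|
br (nat_lit 0x8600010025) (leaf (nat_lit 17)) nil) <|
br (nat_lit 0x9400010035) (node (nat_lit 96) (nat_lit 0) [] <|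
br (nat_lit 0x20001001c) (leaf (nat_lit 45)) <|
br (nat_lit 0x8600010025) (leaf (nat_lit 46)) nil) nil) nil
def c53 : Cert := node (nat_lit 48) (nat_lit 0) [nat_lit 0x10c1042041] <|
br (nat_lit 0x200020d17) (node (nat_lit 72) (nat_lit 0) [] <|
br (nat_lit 0x200010a3a) (node (nat_lit 96) (nat_lit 0) [] <|
br (nat_lit 0x200010c93) (leaf (nat_lit 21)) <|
br (nat_lit 0x8600010c90) (leaf (nat_lit 47)) nil) <|
br (nat_lit 0x9200010a40) (node (nat_lit 96) (nat_lit 0) [] <|
br (nat_lit 0x200010c93) (leaf (nat_lit 38)) <|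
br (nat_lit 0x8600010c90) (leaf (nat_lit 46)) nil) nil) nil
def c54 : Cert := node (nat_lit 48) (nat_lit 0) [] <|
br (nat_lit 0x200010d2d) (node (nat_lit 72) (nat_lit 0) [] <|
br (nat_lit 0x200010d62) (node (nat_lit 96) (nat_lit 0) [] <|
br (nat_lit 0x200010d48) (leaf (nat_lit 17)) <|
br (nat_lit 0x8600010d44) (leaf (nat_lit 44)) nil) <|
br (nat_lit 0x9200010d67) (node (nat_lit 96) (nat_lit 0) [] <|
br (nat_lit 0x200010d48) (leaf (nat_lit 44)) <|
br (nat_lit 0x8600010d44) (leaf (nat_lit 45)) nil) nil) <|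
br (nat_lit 0x9400010d24) (node (nat_lit 72) (nat_lit 0) [] <|
br (nat_lit 0x200010d62) (node (nat_lit 96) (nat_lit 0) [] <|
br (nat_lit 0x200010d48) (leaf (nat_lit 44)) <|
br (nat_lit 0x8600010d44) (leaf (nat_lit 45)) nil) <|
br (nat_lit 0x9200010d67) (node (nat_lit 96) (nat_lit 0) [] <|
br (nat_lit 0x200010d48) (leaf (nat_lit 45)) <|
br (nat_lit 0x8600010d44) (leaf (nat_lit 28)) nil) nil) nil
def c55 : Cert := node (nat_lit 48) (nat_lit 0) [] <|
br (nat_lit 0x200010d66) (node (nat_lit 72) (nat_lit 0) [] <|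
br (nat_lit 0x200010e68) (node (nat_lit 96) (nat_lit 0) [] <|
br (nat_lit 0x200010d3a) (leaf (nat_lit 12)) <|
br (nat_lit 0x8600010d40) (leaf (nat_lit 21)) nil) <|
br (nat_lit 0x9200010e64) (node (nat_lit 96) (nat_lit 0) [] <|
br (nat_lit 0x200010d3a) (leaf (nat_lit 21)) <|
br (nat_lit 0x8600010d40) (leaf (nat_lit 48)) nil) nil) <|
br (nat_lit 0x9400010d63) (node (nat_lit 72) (nat_lit 0) [] <|
br (nat_lit 0x200010e68) (node (nat_lit 96) (nat_lit 0) [] <|
br (nat_lit 0x200010d3a) (leaf (nat_lit 21)) <|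
br (nat_lit 0x8600010d40) (leaf (nat_lit 48)) nil) <|
br (nat_lit 0x9200010e64) (node (nat_lit 96) (nat_lit 0) [] <|
br (nat_lit 0x200010d3a) (leaf (nat_lit 48)) <|
br (nat_lit 0x8600010d40) (leaf (nat_lit 46)) nil) nil) nil
def c56 : Cert := node (nat_lit 48) (nat_lit 0) [] <|
br (nat_lit 0x200010e68) (node (nat_lit 72) (nat_lit 0) [] <|
br (nat_lit 0x200010d34) (node (nat_lit 96) (nat_lit 0) [] <|
br (nat_lit 0x200010d3b) (leaf (nat_lit 35)) <|
br (nat_lit 0x8600010d38) (leaf (nat_lit 31)) nil) <|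
br (nat_lit 0x9200010d29) (node (nat_lit 96) (nat_lit 0) [] <|
br (nat_lit 0x200010d3b) (leaf (nat_lit 31)) <|
br (nat_lit 0x8600010d38) (leaf (nat_lit 49)) nil) nil) <|
br (nat_lit 0x9400010e64) (node (nat_lit 72) (nat_lit 0) [] <|
br (nat_lit 0x200010d34) (node (nat_lit 96) (nat_lit 0) [] <|
br (nat_lit 0x200010d3b) (leaf (nat_lit 11)) <|
br (nat_lit 0x8600010d38) (leaf (nat_lit 35)) nil) <|
br (nat_lit 0x9200010d29) (node (nat_lit 96) (nat_lit 0) [] <|
br (nat_lit 0x200010d3b) (leaf (nat_lit 35)) <|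
br (nat_lit 0x8600010d38) (leaf (nat_lit 31)) nil) nil) nil
def c57 : Cert := node (nat_lit 48) (nat_lit 0) [] <|
br (nat_lit 0x200010895) (node (nat_lit 72) (nat_lit 0) [] <|
br (nat_lit 0x2000109ba) (node (nat_lit 96) (nat_lit 0) [] <|
br (nat_lit 0x200010ee0) (leaf (nat_lit 17)) <|
br (nat_lit 0x8600010edc) (leaf (nat_lit 44)) nil) <|
br (nat_lit 0x92000109bf) (node (nat_lit 96) (nat_lit 0) [] <|
br (nat_lit 0x200010ee0) (leaf (nat_lit 22)) <|
br (nat_lit 0x8600010edc) (leaf (nat_lit 17)) nil) nil) <|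
br (nat_lit 0x940001088c) (node (nat_lit 72) (nat_lit 0) [] <|
br (nat_lit 0x2000109ba) (node (nat_lit 96) (nat_lit 0) [] <|
br (nat_lit 0x200010ee0) (leaf (nat_lit 44)) <|
br (nat_lit 0x8600010edc) (leaf (nat_lit 45)) nil) <|
br (nat_lit 0x92000109bf) (node (nat_lit 96) (nat_lit 0) [] <|
br (nat_lit 0x200010ee0) (leaf (nat_lit 17)) <|
br (nat_lit 0x8600010edc) (leaf (nat_lit 44)) nil) nil) nil
def c58 : Cert := node (nat_lit 48) (nat_lit 0) [] <|
br (nat_lit 0x200010ed0) (node (nat_lit 72) (nat_lit 0) [] <|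
br (nat_lit 0x200010899) (node (nat_lit 96) (nat_lit 0) [] <|
br (nat_lit 0x2000109ac) (leaf (nat_lit 46)) <|
br (nat_lit 0x86000109b5) (leaf (nat_lit 43)) nil) <|
br (nat_lit 0x9200010892) (node (nat_lit 96) (nat_lit 0) [] <|
br (nat_lit 0x2000109ac) (leaf (nat_lit 48)) <|
br (nat_lit 0x86000109b5) (leaf (nat_lit 46)) nil) nil) <|
br (nat_lit 0x9400010ed3) (node (nat_lit 72) (nat_lit 0) [] <|
br (nat_lit 0x200010899) (node (nat_lit 96) (nat_lit 0) [] <|
br (nat_lit 0x2000109ac) (leaf (nat_lit 48)) <|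
br (nat_lit 0x86000109b5) (leaf (nat_lit 46)) nil) <|
br (nat_lit 0x9200010892) (node (nat_lit 96) (nat_lit 0) [] <|
br (nat_lit 0x2000109ac) (leaf (nat_lit 21)) <|
br (nat_lit 0x86000109b5) (leaf (nat_lit 48)) nil) nil) nil
def c59 : Cert := node (nat_lit 48) (nat_lit 0) [] <|
br (nat_lit 0x200010eda) (node (nat_lit 72) (nat_lit 0) [] <|
br (nat_lit 0x2000109ad) (node (nat_lit 96) (nat_lit 0) [] <|
br (nat_lit 0x200010eb3) (leaf (nat_lit 48)) <|
br (nat_lit 0x8600010eb6) (leaf (nat_lit 25)) nil) <|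
br (nat_lit 0x92000109b6) (node (nat_lit 96) (nat_lit 0) [] <|
br (nat_lit 0x200010eb3) (leaf (nat_lit 25)) <|
br (nat_lit 0x8600010eb6) (leaf (nat_lit 48)) nil) nil) <|
br (nat_lit 0x9400010ee1) (node (nat_lit 72) (nat_lit 0) [] <|
br (nat_lit 0x2000109ad) (node (nat_lit 96) (nat_lit 0) [] <|
br (nat_lit 0x200010eb3) (leaf (nat_lit 25)) <|
br (nat_lit 0x8600010eb6) (leaf (nat_lit 48)) nil) <|
br (nat_lit 0x92000109b6) (node (nat_lit 96) (nat_lit 0) [] <|
br (nat_lit 0x200010eb3) (leaf (nat_lit 48)) <|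
br (nat_lit 0x8600010eb6) (leaf (nat_lit 35)) nil) nil) nil
def c60 : Cert := node (nat_lit 48) (nat_lit 0) [] <|
br (nat_lit 0x20001003c) (node (nat_lit 72) (nat_lit 0) [] <|
br (nat_lit 0x200010057) (node (nat_lit 96) (nat_lit 0) [] <|
br (nat_lit 0x20001006c) (leaf (nat_lit 27)) <|
br (nat_lit 0x8600010070) (leaf (nat_lit 22)) nil) <|
br (nat_lit 0x920001004e) (node (nat_lit 96) (nat_lit 0) [] <|
br (nat_lit 0x20001006c) (leaf (nat_lit 22)) <|
br (nat_lit 0x8600010070) (leaf (nat_lit 25)) nil) nil) <|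
br (nat_lit 0x9400010040) (node (nat_lit 72) (nat_lit 0) [] <|
br (nat_lit 0x200010057) (node (nat_lit 96) (nat_lit 0) [] <|
br (nat_lit 0x20001006c) (leaf (nat_lit 22)) <|
br (nat_lit 0x8600010070) (leaf (nat_lit 25)) nil) <|
br (nat_lit 0x920001004e) (node (nat_lit 96) (nat_lit 0) [] <|
br (nat_lit 0x20001006c) (leaf (nat_lit 25)) <|
br (nat_lit 0x8600010070) (leaf (nat_lit 28)) nil) nil) nil
def c61 : Cert := node (nat_lit 48) (nat_lit 0) [] <|
br (nat_lit 0x20001003c) (node (nat_lit 72) (nat_lit 0) [] <|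
br (nat_lit 0x200010057) (node (nat_lit 96) (nat_lit 0) [] <|
br (nat_lit 0x20001006c) (leaf (nat_lit 22)) <|
br (nat_lit 0x8600010070) (leaf (nat_lit 25)) nil) <|
br (nat_lit 0x920001004e) (node (nat_lit 96) (nat_lit 0) [] <|
br (nat_lit 0x20001006c) (leaf (nat_lit 25)) <|
br (nat_lit 0x8600010070) (leaf (nat_lit 28)) nil) nil) <|
br (nat_lit 0x9400010040) (node (nat_lit 72) (nat_lit 0) [] <|
br (nat_lit 0x200010057) (node (nat_lit 96) (nat_lit 0) [] <|
br (nat_lit 0x20001006c) (leaf (nat_lit 25)) <|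
br (nat_lit 0x8600010070) (leaf (nat_lit 28)) nil) <|
br (nat_lit 0x920001004e) (node (nat_lit 96) (nat_lit 0) [] <|
br (nat_lit 0x20001006c) (leaf (nat_lit 28)) <|
br (nat_lit 0x8600010070) (leaf (nat_lit 49)) nil) nil) nil
def c62 : Cert := br (nat_lit 0x231218c0006002a) (node (nat_lit 48) (nat_lit 0) [nat_lit 0x49] <|
br (nat_lit 0x200020051) (node (nat_lit 72) (nat_lit 0) [nat_lit 0x43] <|
br (nat_lit 0x200020062) (node (nat_lit 96) (nat_lit 0) [] <|
br (nat_lit 0x200010044) (leaf (nat_lit 48)) <|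
br (nat_lit 0x8600010039) (leaf (nat_lit 48)) nil) nil) nil) <|
br (nat_lit 0x805000810004002d) c61 nil
def c63 : Cert := node (nat_lit 24) (nat_lit 1) [nat_lit 0x41, nat_lit 0x42, nat_lit 0x43, nat_lit 0x44084] <|
br (nat_lit 0x200060059) c49 <|
br (nat_lit 0x8000080eb6) c50 <|
br (nat_lit 0x820018004c) c51 <|
br (nat_lit 0x840018004b) c52 <|
br (nat_lit 0x8c00900e28) c53 <|
br (nat_lit 0x208100200e67) c54 <|
br (nat_lit 0x210100200d29) c55 <|
br (nat_lit 0x230000600c3c) (node (nat_lit 360) (nat_lit 0) [nat_lit 0x10c2041] <|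
br (nat_lit 0x20003032b) (leaf (nat_lit 38)) <|
br (nat_lit 0x8600030d3a) (leaf (nat_lit 48)) <|
br (nat_lit 0x9400010d5d) (leaf (nat_lit 11)) <|
br (nat_lit 0x24860001034b) (leaf (nat_lit 47)) nil) <|
br (nat_lit 0x250100080d66) c56 <|
br (nat_lit 0x200300200ea6) c57 <|
br (nat_lit 0x21020012005d) (node (nat_lit 48) (nat_lit 0) [nat_lit 0x4a] <|
br (nat_lit 0x200020028) (node (nat_lit 72) (nat_lit 0) [nat_lit 0x49042] <|
br (nat_lit 0x200020036) (node (nat_lit 96) (nat_lit 0) [] <|
br (nat_lit 0x200010076) (leaf (nat_lit 48)) <|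
br (nat_lit 0x8600010073) (leaf (nat_lit 48)) nil) nil) nil) <|
br (nat_lit 0x230400600e36) (node (nat_lit 384) (nat_lit 0) [nat_lit 0x1242081] <|
br (nat_lit 0x200010cfe) (leaf (nat_lit 38)) <|
br (nat_lit 0x860003004b) (leaf (nat_lit 44)) <|
br (nat_lit 0x248600030dfd) (leaf (nat_lit 47)) <|
br (nat_lit 0x944860001001c) (leaf (nat_lit 28)) nil) <|
br (nat_lit 0x200c00600f08) (node (nat_lit 288) (nat_lit 0) [nat_lit 0x10c2] <|
br (nat_lit 0x2000309a9) (leaf (nat_lit 38)) <|
br (nat_lit 0x8600030190) (leaf (nat_lit 44)) <|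
br (nat_lit 0x9400010131) (leaf (nat_lit 22)) <|
br (nat_lit 0x248600010eb3) (leaf (nat_lit 47)) nil) <|
br (nat_lit 0x208c00600b55) (node (nat_lit 288) (nat_lit 0) [nat_lit 0x10c2081] <|
br (nat_lit 0x200030075) (leaf (nat_lit 47)) <|
br (nat_lit 0x8600010d13) (leaf (nat_lit 31)) <|
br (nat_lit 0x9200030a43) (leaf (nat_lit 48)) <|
br (nat_lit 0x251200010024) (leaf (nat_lit 38)) nil) <|
br (nat_lit 0x8208100200ea5) c58 <|
br (nat_lit 0x840810030088b) c59 <|
br (nat_lit 0x84300001806af) (node (nat_lit 48) (nat_lit 0) [nat_lit 0x1243081] <|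
br (nat_lit 0x200020f36) (node (nat_lit 72) (nat_lit 0) [nat_lit 0x1241042041] <|
br (nat_lit 0x200020f14) (node (nat_lit 96) (nat_lit 0) [] <|
br (nat_lit 0x200010ac3) (leaf (nat_lit 21)) <|
br (nat_lit 0x8600010ac6) (leaf (nat_lit 38)) nil) nil) nil) <|
br (nat_lit 0x201408100040023) c60 <|
br (nat_lit 0x201210000040026) (node (nat_lit 48) (nat_lit 0) [nat_lit 0x43] <|
br (nat_lit 0x200020073) (node (nat_lit 72) (nat_lit 0) [nat_lit 0x49] <|
br (nat_lit 0x200020030) (node (nat_lit 96) (nat_lit 0) [] <|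
br (nat_lit 0x20001005b) (leaf (nat_lit 17)) <|
br (nat_lit 0x860001005e) (leaf (nat_lit 21)) nil) nil) nil) <|
br (nat_lit 0x201218000010018) (node (nat_lit 48) (nat_lit 0) [nat_lit 0x49] <|
br (nat_lit 0x200020056) (node (nat_lit 72) (nat_lit 0) [nat_lit 0x43] <|
br (nat_lit 0x200020074) (node (nat_lit 96) (nat_lit 0) [] <|
br (nat_lit 0x200010034) (leaf (nat_lit 12)) <|
br (nat_lit 0x860001003d) (leaf (nat_lit 11)) nil) nil) nil) <|
br (nat_lit 0x250430000180bef) (node (nat_lit 48) (nat_lit 0) [nat_lit 0x1243081] <|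
br (nat_lit 0x200020c4e) (node (nat_lit 72) (nat_lit 0) [nat_lit 0x1241042041] <|
br (nat_lit 0x200020efc) (node (nat_lit 96) (nat_lit 0) [] <|
br (nat_lit 0x200010c43) (leaf (nat_lit 47)) <|
br (nat_lit 0x8600010c46) (leaf (nat_lit 46)) nil) nil) nil) <|
br (nat_lit 0x20165000001001b) (node (nat_lit 48) (nat_lit 0) [nat_lit 0x49] <|
br (nat_lit 0x20002004d) (node (nat_lit 72) (nat_lit 0) [nat_lit 0x43] <|
br (nat_lit 0x200020069) (node (nat_lit 96) (nat_lit 0) [] <|
br (nat_lit 0x20001003d) (leaf (nat_lit 43)) <|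
br (nat_lit 0x8600010034) (leaf (nat_lit 31)) nil) nil) nil) <|
br (nat_lit 0x231410c0004001c) (node (nat_lit 48) (nat_lit 0) [nat_lit 0x43] <|
br (nat_lit 0x200020061) (node (nat_lit 72) (nat_lit 0) [nat_lit 0x49] <|
br (nat_lit 0x200020037) (node (nat_lit 96) (nat_lit 0) [] <|
br (nat_lit 0x200010048) (leaf (nat_lit 45)) <|
br (nat_lit 0x860001004b) (leaf (nat_lit 46)) nil) nil) nil) c62
def c64 : Cert := node (nat_lit 24) (nat_lit 0) [nat_lit 0x43, nat_lit 0x1005006] <|
br (nat_lit 0x20001010d) (node (nat_lit 96) (nat_lit 0) [] <|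
br (nat_lit 0x200010060) (leaf (nat_lit 7)) <|
br (nat_lit 0x8600010063) (leaf (nat_lit 15)) nil) <|
br (nat_lit 0x230400060c9e) (node (nat_lit 96) (nat_lit 0) [] <|
br (nat_lit 0x200010cdd) (leaf (nat_lit 36)) <|
br (nat_lit 0x8600010ce6) (leaf (nat_lit 32)) nil) <|
br (nat_lit 0x805000006080e) (node (nat_lit 96) (nat_lit 0) [] <|
br (nat_lit 0x200010723) (leaf (nat_lit 10)) <|
br (nat_lit 0x8600010720) (leaf (nat_lit 34)) nil) <|
br (nat_lit 0x201430200020ac4) (node (nat_lit 96) (nat_lit 0) [] <|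
br (nat_lit 0x200010ebd) (leaf (nat_lit 11)) <|
br (nat_lit 0x8600010ec6) (leaf (nat_lit 37)) nil) <|
br (nat_lit 0x258c10400060851) (node (nat_lit 96) (nat_lit 0) [] <|
br (nat_lit 0x200010671) (leaf (nat_lit 36)) <|
br (nat_lit 0x860001066a) (leaf (nat_lit 38)) nil) <|
br (nat_lit 0x8c01600400020aef) (node (nat_lit 96) (nat_lit 0) [] <|
br (nat_lit 0x200010ec2) (leaf (nat_lit 33)) <|
br (nat_lit 0x8600010ec9) (leaf (nat_lit 5)) nil) <|
br (nat_lit 0x8050030400020a51) (node (nat_lit 96) (nat_lit 0) [] <|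
br (nat_lit 0x200010b73) (leaf (nat_lit 33)) <|
br (nat_lit 0x8600010b70) (leaf (nat_lit 44)) nil) <|
br (nat_lit 0x8c5043040001015e) (node (nat_lit 96) (nat_lit 0) [] <|
br (nat_lit 0x20001006a) (leaf (nat_lit 18)) <|
br (nat_lit 0x8600010071) (leaf (nat_lit 21)) nil) <|
br (nat_lit 0x9631210c000100ce) (node (nat_lit 96) (nat_lit 0) [] <|
br (nat_lit 0x20001006e) (leaf (nat_lit 23)) <|
br (nat_lit 0x8600010065) (leaf (nat_lit 44)) nil) nil
def c65 : Cert := node (nat_lit 240) (nat_lit 0) [nat_lit 0x40189180] <|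
br (nat_lit 0x200020583) (node (nat_lit 24) (nat_lit 0) [] <|
br (nat_lit 0x200010136) (leaf (nat_lit 18)) <|
br (nat_lit 0x8031230000010b7e) (leaf (nat_lit 36)) nil) <|
br (nat_lit 0x805000001056b) (node (nat_lit 2880) (nat_lit 0) [] <|
br (nat_lit 0x200010b4b) (leaf (nat_lit 16)) <|
br (nat_lit 0x8031230000010b55) (leaf (nat_lit 38)) nil) nil
def c66 : Cert := node (nat_lit 312) (nat_lit 0) [nat_lit 0x40280182] <|
br (nat_lit 0x2000207d5) (node (nat_lit 24) (nat_lit 0) [] <|
br (nat_lit 0x200010a73) (leaf (nat_lit 37)) <|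
br (nat_lit 0x8050030400010385) (leaf (nat_lit 36)) nil) <|
br (nat_lit 0x258c10400010447) (node (nat_lit 3144) (nat_lit 0) [] <|
br (nat_lit 0x200010c51) (leaf (nat_lit 26)) <|
br (nat_lit 0x8050030400010c5c) (leaf (nat_lit 48)) nil) nil
def c67 : Cert := node (nat_lit 768) (nat_lit 0) [nat_lit 0x1182] <|
br (nat_lit 0x200030ba9) c65 <|
br (nat_lit 0x8600030b0d) (node (nat_lit 312) (nat_lit 0) [nat_lit 0x40280182] <|
br (nat_lit 0x200020393) (node (nat_lit 24) (nat_lit 0) [] <|
br (nat_lit 0x200010136) (leaf (nat_lit 19)) <|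
br (nat_lit 0x8050030400010668) (leaf (nat_lit 50)) nil) <|
br (nat_lit 0x230400010748) (node (nat_lit 3144) (nat_lit 0) [] <|
br (nat_lit 0x200010c5b) (leaf (nat_lit 26)) <|
br (nat_lit 0x8050030400010c5e) (leaf (nat_lit 26)) nil) nil) <|
br (nat_lit 0x2014303000302ec) c66 nil
def c68 : Cert := node (nat_lit 312) (nat_lit 0) [nat_lit 0x4a00600a] <|
br (nat_lit 0x200010ccd) (node (nat_lit 2736) (nat_lit 0) [] <|
br (nat_lit 0x200010abf) (leaf (nat_lit 23)) <|
br (nat_lit 0x9400c01400010ab6) (leaf (nat_lit 44)) nil) <|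
br (nat_lit 0x8031230000020318) (node (nat_lit 24) (nat_lit 0) [] <|
br (nat_lit 0x200010894) (leaf (nat_lit 40)) <|
br (nat_lit 0x9400c014000106c0) (leaf (nat_lit 51)) nil) nil
def c69 : Cert := node (nat_lit 240) (nat_lit 0) [nat_lit 0x40189180] <|
br (nat_lit 0x200020da5) (node (nat_lit 24) (nat_lit 0) [] <|
br (nat_lit 0x20001011b) (leaf (nat_lit 36)) <|
br (nat_lit 0x80312300000108c4) (leaf (nat_lit 23)) nil) <|
br (nat_lit 0x9400c01400010829) (node (nat_lit 2880) (nat_lit 0) [] <|
br (nat_lit 0x200010b47) (leaf (nat_lit 50)) <|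
br (nat_lit 0x8031230000010b41) (leaf (nat_lit 50)) nil) nil
def c70 : Cert := node (nat_lit 120) (nat_lit 0) [nat_lit 0x4318a183] <|
br (nat_lit 0x20001029e) (node (nat_lit 840) (nat_lit 0) [] <|
br (nat_lit 0x200010351) (leaf (nat_lit 16)) <|
br (nat_lit 0x863143060001035c) (leaf (nat_lit 38)) nil) <|
br (nat_lit 0x80312300000202f4) (node (nat_lit 24) (nat_lit 0) [] <|
br (nat_lit 0x200010894) (leaf (nat_lit 33)) <|
br (nat_lit 0x8631430600010af6) (leaf (nat_lit 34)) nil) nil
def c71 : Cert := node (nat_lit 312) (nat_lit 0) [nat_lit 0x43, nat_lit 0x4a245] <|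
br (nat_lit 0x2000104e6) (node (nat_lit 96) (nat_lit 0) [nat_lit 0x43] <|
br (nat_lit 0x200010060) (leaf (nat_lit 4)) <|
br (nat_lit 0x8600010063) (leaf (nat_lit 30)) <|
br (nat_lit 0x8050030400020ab3) (leaf (nat_lit 30)) <|
br (nat_lit 0x200c50400200020ab0) (leaf (nat_lit 45)) nil) <|
br (nat_lit 0x230400060dec) (node (nat_lit 624) (nat_lit 0) [nat_lit 0x128200a140] <|
br (nat_lit 0x20003003c) (leaf (nat_lit 33)) <|
br (nat_lit 0x8600010a3d) (leaf (nat_lit 30)) <|
br (nat_lit 0x8050030400010edd) (leaf (nat_lit 7)) <|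
br (nat_lit 0x9400c0140001032c) (leaf (nat_lit 21)) nil) <|
br (nat_lit 0x20143020001014d) (node (nat_lit 96) (nat_lit 0) [nat_lit 0x43] <|
br (nat_lit 0x200020c4d) (leaf (nat_lit 12)) <|
br (nat_lit 0x8600020c56) (leaf (nat_lit 21)) <|
br (nat_lit 0x805003040001006e) (leaf (nat_lit 21)) <|
br (nat_lit 0x200c50400200010065) (leaf (nat_lit 45)) nil) <|
br (nat_lit 0x8c016004000102f4) (node (nat_lit 96) (nat_lit 0) [nat_lit 0x43] <|
br (nat_lit 0x200020c52) (leaf (nat_lit 7)) <|
br (nat_lit 0x8600020c59) (leaf (nat_lit 4)) <|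
br (nat_lit 0x9400c01400010071) (leaf (nat_lit 12)) <|
br (nat_lit 0x21805003040001006a) (leaf (nat_lit 7)) nil) nil
def c72 : Cert := node (nat_lit 24) (nat_lit 0) [nat_lit 0x43, nat_lit 0x1005006] <|
br (nat_lit 0x20001010d) (node (nat_lit 96) (nat_lit 0) [] <|
br (nat_lit 0x200010060) (leaf (nat_lit 10)) <|
br (nat_lit 0x8600010063) (leaf (nat_lit 52)) nil) <|
br (nat_lit 0x230400060a76) (node (nat_lit 96) (nat_lit 0) [] <|
br (nat_lit 0x200010845) (leaf (nat_lit 23)) <|
br (nat_lit 0x860001084e) (leaf (nat_lit 19)) nil) <|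
br (nat_lit 0x8050000060136) (node (nat_lit 96) (nat_lit 0) [] <|
br (nat_lit 0x200010483) (leaf (nat_lit 36)) <|
br (nat_lit 0x8600010480) (leaf (nat_lit 51)) nil) <|
br (nat_lit 0x201430200020a64) (node (nat_lit 96) (nat_lit 0) [] <|
br (nat_lit 0x2000109f5) (leaf (nat_lit 23)) <|
br (nat_lit 0x86000109fe) (leaf (nat_lit 34)) nil) <|
br (nat_lit 0x258c10400060ce9) (node (nat_lit 96) (nat_lit 0) [] <|
br (nat_lit 0x200010551) (leaf (nat_lit 26)) <|
br (nat_lit 0x860001054a) (leaf (nat_lit 50)) nil) <|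
br (nat_lit 0x8c01600400020b7f) (node (nat_lit 96) (nat_lit 0) [] <|
br (nat_lit 0x2000109fa) (leaf (nat_lit 39)) <|
br (nat_lit 0x8600010a01) (leaf (nat_lit 32)) nil) <|
br (nat_lit 0x8050030400020ab1) (node (nat_lit 96) (nat_lit 0) [] <|
br (nat_lit 0x200010ae3) (leaf (nat_lit 16)) <|
br (nat_lit 0x8600010ae0) (leaf (nat_lit 37)) nil) <|
br (nat_lit 0x8c50430400010155) (node (nat_lit 96) (nat_lit 0) [] <|
br (nat_lit 0x20001006a) (leaf (nat_lit 26)) <|
br (nat_lit 0x8600010071) (leaf (nat_lit 48)) nil) <|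
br (nat_lit 0x9631210c000100ce) (node (nat_lit 96) (nat_lit 0) [] <|
br (nat_lit 0x20001006e) (leaf (nat_lit 20)) <|
br (nat_lit 0x8600010065) (leaf (nat_lit 17)) nil) nil
def c73 : Cert := node (nat_lit 864) (nat_lit 0) [nat_lit 0x46286, nat_lit 0x1005006] <|
br (nat_lit 0x200010d8a) (node (nat_lit 288) (nat_lit 0) [nat_lit 0x46286] <|
br (nat_lit 0x200020e5e) (leaf (nat_lit 13)) <|
br (nat_lit 0x8c50c00020e67) (leaf (nat_lit 10)) <|
br (nat_lit 0x8031230000010127) (leaf (nat_lit 13)) <|
br (nat_lit 0x251208c10000010121) (leaf (nat_lit 13)) nil) <|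
br (nat_lit 0x8600060dab) (node (nat_lit 312) (nat_lit 0) [nat_lit 0x128200a140] <|
br (nat_lit 0x2000304bc) (leaf (nat_lit 26)) <|
br (nat_lit 0x8c50c00010d92) (leaf (nat_lit 16)) <|
br (nat_lit 0x8031230000010009) (leaf (nat_lit 26)) <|
br (nat_lit 0x8410058400010dec) (leaf (nat_lit 34)) nil) <|
br (nat_lit 0x8630400010de5) (node (nat_lit 288) (nat_lit 0) [nat_lit 0x46286] <|
br (nat_lit 0x200020e6f) (leaf (nat_lit 33)) <|
br (nat_lit 0x8c50c00020e6a) (leaf (nat_lit 19)) <|
br (nat_lit 0x8410058400010128) (leaf (nat_lit 19)) <|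
br (nat_lit 0x231410050000010122) (leaf (nat_lit 47)) nil) <|
br (nat_lit 0x201430200010017) (node (nat_lit 288) (nat_lit 0) [nat_lit 0x46286] <|
br (nat_lit 0x200020b56) (leaf (nat_lit 22)) <|
br (nat_lit 0x8c50c00020b53) (leaf (nat_lit 17)) <|
br (nat_lit 0x841005840001012b) (leaf (nat_lit 27)) <|
br (nat_lit 0x231410050000010135) (leaf (nat_lit 22)) nil) nil
def c74 : Cert := node (nat_lit 1320) (nat_lit 0) [nat_lit 0x100a181, nat_lit 0x40280] <|
br (nat_lit 0x200010a16) (node (nat_lit 840) (nat_lit 0) [nat_lit 0x40146001] <|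
br (nat_lit 0x20002088f) (leaf (nat_lit 11)) <|
br (nat_lit 0x8050000020c96) (leaf (nat_lit 6)) <|
br (nat_lit 0x8030200010351) (leaf (nat_lit 8)) <|
br (nat_lit 0x20143020001035c) (leaf (nat_lit 11)) nil) <|
br (nat_lit 0x8600060d21) (node (nat_lit 216) (nat_lit 0) [nat_lit 0x11462c00c1] <|
br (nat_lit 0x2000304fb) (leaf (nat_lit 37)) <|
br (nat_lit 0x8050000010f4b) (leaf (nat_lit 39)) <|
br (nat_lit 0x8030200010b44) (leaf (nat_lit 24)) <|
br (nat_lit 0x8631430600010461) (leaf (nat_lit 40)) nil) <|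
br (nat_lit 0x8c504000102e0) (node (nat_lit 840) (nat_lit 0) [nat_lit 0x40146001] <|
br (nat_lit 0x200020890) (leaf (nat_lit 33)) <|
br (nat_lit 0x8050000010354) (leaf (nat_lit 19)) <|
br (nat_lit 0x8030200020ca7) (leaf (nat_lit 19)) <|
br (nat_lit 0x258c48208000010358) (leaf (nat_lit 47)) nil) <|
br (nat_lit 0x9618c10400010539) (node (nat_lit 840) (nat_lit 0) [nat_lit 0x40146001] <|
br (nat_lit 0x20002089d) (leaf (nat_lit 35)) <|
br (nat_lit 0x805000001035b) (leaf (nat_lit 48)) <|
br (nat_lit 0x8030200020c94) (leaf (nat_lit 48)) <|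
br (nat_lit 0x258c4820800001035e) (leaf (nat_lit 48)) nil) nil
def c75 : Cert := node (nat_lit 312) (nat_lit 0) [nat_lit 0x43, nat_lit 0x4a245] <|
br (nat_lit 0x2000103ea) (node (nat_lit 96) (nat_lit 0) [nat_lit 0x43] <|
br (nat_lit 0x200010060) (leaf (nat_lit 11)) <|
br (nat_lit 0x8600010063) (leaf (nat_lit 43)) <|
br (nat_lit 0x8050030400020c4b) (leaf (nat_lit 27)) <|
br (nat_lit 0x200c50400200020c48) (leaf (nat_lit 11)) nil) <|
br (nat_lit 0x2304000605c4) (node (nat_lit 216) (nat_lit 0) [nat_lit 0x11462c00c1] <|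
br (nat_lit 0x200010a76) (leaf (nat_lit 11)) <|
br (nat_lit 0x8600030153) (leaf (nat_lit 38)) <|
br (nat_lit 0x200c5040020001086c) (leaf (nat_lit 46)) <|
br (nat_lit 0x218050030400010380) (leaf (nat_lit 22)) nil) <|
br (nat_lit 0x20143020001065e) (node (nat_lit 96) (nat_lit 0) [nat_lit 0x43] <|
br (nat_lit 0x200020ab5) (leaf (nat_lit 22)) <|
br (nat_lit 0x8600020abe) (leaf (nat_lit 17)) <|
br (nat_lit 0x805003040001006e) (leaf (nat_lit 27)) <|
br (nat_lit 0x200c50400200010065) (leaf (nat_lit 22)) nil) <|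
br (nat_lit 0x8c016004000101cb) (node (nat_lit 96) (nat_lit 0) [nat_lit 0x43] <|
br (nat_lit 0x200020aba) (leaf (nat_lit 43)) <|
br (nat_lit 0x8600020ac1) (leaf (nat_lit 46)) <|
br (nat_lit 0x9400c01400010071) (leaf (nat_lit 46)) <|
br (nat_lit 0x21805003040001006a) (leaf (nat_lit 17)) nil) nil
def c76 : Cert := node (nat_lit 144) (nat_lit 0) [nat_lit 0x1182, nat_lit 0x43, nat_lit 0x4a245] <|
br (nat_lit 0x2001b0021) c64 <|
br (nat_lit 0x81001b06ff) c67 <|
br (nat_lit 0x83001b09ce) (node (nat_lit 1800) (nat_lit 0) [nat_lit 0x12c3081040] <|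
br (nat_lit 0x200030e26) c68 <|
br (nat_lit 0x8600030d06) c69 <|
br (nat_lit 0x8030300030680) c70 nil) <|
br (nat_lit 0x93000102d8) c71 <|
br (nat_lit 0x95001b0230) c72 <|
br (nat_lit 0x210100090904) c73 <|
br (nat_lit 0x2003000905c3) c74 <|
br (nat_lit 0x25950001000e) c75 nil
def c77 : Cert := node (nat_lit 1632) (nat_lit 0) [nat_lit 0x1101140] <|
br (nat_lit 0x2000109f0) (node (nat_lit 3336) (nat_lit 0) [nat_lit 0x1101140] <|
br (nat_lit 0x200020d20) (leaf (nat_lit 4)) <|
br (nat_lit 0x218230600010d1c) (leaf (nat_lit 12)) <|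
br (nat_lit 0x9610010400010d11) (leaf (nat_lit 7)) <|
br (nat_lit 0x8050c48400020f0b) (leaf (nat_lit 7)) nil) <|
br (nat_lit 0x8600060ae3) (node (nat_lit 24) (nat_lit 0) [nat_lit 0x44085041] <|
br (nat_lit 0x2000102af) (leaf (nat_lit 30)) <|
br (nat_lit 0x218230600010bcd) (leaf (nat_lit 21)) <|
br (nat_lit 0x9610010400030a93) (leaf (nat_lit 33)) <|
br (nat_lit 0x218c59408200010759) (leaf (nat_lit 7)) nil) <|
br (nat_lit 0x208c00010674) (node (nat_lit 3336) (nat_lit 0) [nat_lit 0x1101140] <|
br (nat_lit 0x200020f00) (leaf (nat_lit 12)) <|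
br (nat_lit 0x9610010400020d29) (leaf (nat_lit 21)) <|
br (nat_lit 0x8050c48400010d13) (leaf (nat_lit 21)) <|
br (nat_lit 0x218c59408200010d1d) (leaf (nat_lit 45)) nil) <|
br (nat_lit 0x201630000010d7d) (node (nat_lit 3336) (nat_lit 0) [nat_lit 0x1101140] <|
br (nat_lit 0x200010d08) (leaf (nat_lit 4)) <|
br (nat_lit 0x218230600020f14) (leaf (nat_lit 45)) <|
br (nat_lit 0x9610010400020f09) (leaf (nat_lit 30)) <|
br (nat_lit 0x8608030600010d0b) (leaf (nat_lit 30)) nil) nil
def c78 : Cert := node (nat_lit 1488) (nat_lit 0) [nat_lit 0x110600a140] <|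
br (nat_lit 0x200020b28) (node (nat_lit 120) (nat_lit 0) [] <|
br (nat_lit 0x200010e31) (leaf (nat_lit 5)) <|
br (nat_lit 0x8050c48400010d9f) (leaf (nat_lit 33)) nil) <|
br (nat_lit 0x86000600fd) (node (nat_lit 24) (nat_lit 0) [] <|
br (nat_lit 0x200010bfe) (leaf (nat_lit 32)) <|
br (nat_lit 0x8050c4840001030c) (leaf (nat_lit 36)) nil) <|
br (nat_lit 0x208c0002051e) (node (nat_lit 120) (nat_lit 0) [] <|
br (nat_lit 0x200010ec2) (leaf (nat_lit 11)) <|
br (nat_lit 0x8050c48400010d9f) (leaf (nat_lit 37)) nil) <|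
br (nat_lit 0x803000006099a) (node (nat_lit 24) (nat_lit 0) [] <|
br (nat_lit 0x20001030c) (leaf (nat_lit 10)) <|
br (nat_lit 0x8050c48400010cb6) (leaf (nat_lit 34)) nil) <|
br (nat_lit 0x8230600060a6a) (node (nat_lit 24) (nat_lit 0) [] <|
br (nat_lit 0x200010c04) (leaf (nat_lit 38)) <|
br (nat_lit 0x8050c484000102bc) (leaf (nat_lit 36)) nil) <|
br (nat_lit 0x201630000010aba) (node (nat_lit 3840) (nat_lit 0) [] <|
br (nat_lit 0x200010f00) (leaf (nat_lit 7)) <|
br (nat_lit 0x8050c48400010f03) (leaf (nat_lit 15)) nil) <|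
br (nat_lit 0x218230600010016) (node (nat_lit 3840) (nat_lit 0) [] <|
br (nat_lit 0x200010f14) (leaf (nat_lit 21)) <|
br (nat_lit 0x8050c48400010f09) (leaf (nat_lit 18)) nil) <|
br (nat_lit 0x23143060002086f) (node (nat_lit 120) (nat_lit 0) [] <|
br (nat_lit 0x200010e31) (leaf (nat_lit 44)) <|
br (nat_lit 0x8050c484000104b0) (leaf (nat_lit 33)) nil) <|
br (nat_lit 0x218c50c000106be) (node (nat_lit 3840) (nat_lit 0) [] <|
br (nat_lit 0x200010f15) (leaf (nat_lit 44)) <|
br (nat_lit 0x8050c48400010f0b) (leaf (nat_lit 23)) nil) nil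
def c79 : Cert := node (nat_lit 168) (nat_lit 0) [nat_lit 0x40286242] <|
br (nat_lit 0x2000106f4) (node (nat_lit 3840) (nat_lit 0) [] <|
br (nat_lit 0x200010f10) (leaf (nat_lit 38)) <|
br (nat_lit 0x8050c48400010f0c) (leaf (nat_lit 16)) nil) <|
br (nat_lit 0x8200c00020e16) (node (nat_lit 24) (nat_lit 0) [] <|
br (nat_lit 0x200010d0e) (leaf (nat_lit 34)) <|
br (nat_lit 0x8050c484000105a6) (leaf (nat_lit 33)) nil) nil
def c80 : Cert := node (nat_lit 504) (nat_lit 0) [nat_lit 0x41006, nat_lit 0x40286242] <|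
br (nat_lit 0x2000307c0) (node (nat_lit 192) (nat_lit 0) [nat_lit 0x41006] <|
br (nat_lit 0x200020c9c) (node (nat_lit 24) (nat_lit 0) [] <|
br (nat_lit 0x2000102b2) (leaf (nat_lit 36)) <|
br (nat_lit 0x8200c00010964) (leaf (nat_lit 23)) nil) <|
br (nat_lit 0x863143060001020a) (node (nat_lit 3072) (nat_lit 0) [] <|
br (nat_lit 0x200010c07) (leaf (nat_lit 50)) <|
br (nat_lit 0x8200c00010c01) (leaf (nat_lit 50)) nil) nil) <|
br (nat_lit 0x8600030328) (node (nat_lit 120) (nat_lit 0) [nat_lit 0x4318a183] <|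
br (nat_lit 0x200010bdc) (node (nat_lit 840) (nat_lit 0) [] <|
br (nat_lit 0x200010356) (leaf (nat_lit 23)) <|
br (nat_lit 0x863143060001034d) (leaf (nat_lit 44)) nil) <|
br (nat_lit 0x8200c000200bf) (node (nat_lit 24) (nat_lit 0) [] <|
br (nat_lit 0x200010d24) (leaf (nat_lit 40)) <|
br (nat_lit 0x8631430600010a87) (leaf (nat_lit 51)) nil) nil) <|
br (nat_lit 0x823070003095b) c79 nil
def c81 : Cert := node (nat_lit 696) (nat_lit 0) [nat_lit 0x104418b141] <|
br (nat_lit 0x200060051) (node (nat_lit 24) (nat_lit 0) [] <|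
br (nat_lit 0x200010f09) (leaf (nat_lit 23)) <|
br (nat_lit 0x86080306000105bf) (leaf (nat_lit 19)) nil) <|
br (nat_lit 0x8600060482) (node (nat_lit 24) (nat_lit 0) [] <|
br (nat_lit 0x200010f09) (leaf (nat_lit 50)) <|
br (nat_lit 0x8608030600010f6c) (leaf (nat_lit 26)) nil) <|
br (nat_lit 0x80300000209e6) (node (nat_lit 120) (nat_lit 0) [] <|
br (nat_lit 0x2000106b7) (leaf (nat_lit 39)) <|
br (nat_lit 0x8608030600010ae1) (leaf (nat_lit 32)) nil) <|
br (nat_lit 0x805800001026c) (node (nat_lit 3336) (nat_lit 0) [] <|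
br (nat_lit 0x200010d13) (leaf (nat_lit 20)) <|
br (nat_lit 0x8608030600010d1d) (leaf (nat_lit 17)) nil) <|
br (nat_lit 0x8200c00020cd9) (node (nat_lit 120) (nat_lit 0) [] <|
br (nat_lit 0x200010692) (leaf (nat_lit 16)) <|
br (nat_lit 0x8608030600010ae1) (leaf (nat_lit 37)) nil) <|
br (nat_lit 0x8c50c00060600) (node (nat_lit 24) (nat_lit 0) [] <|
br (nat_lit 0x2000102bf) (leaf (nat_lit 36)) <|
br (nat_lit 0x8608030600010bee) (leaf (nat_lit 51)) nil) <|
br (nat_lit 0x218030000010f5a) (node (nat_lit 3336) (nat_lit 0) [] <|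
br (nat_lit 0x200010d1c) (leaf (nat_lit 48)) <|
br (nat_lit 0x8608030600010d11) (leaf (nat_lit 26)) nil) <|
br (nat_lit 0x218058000020ac3) (node (nat_lit 120) (nat_lit 0) [] <|
br (nat_lit 0x200010e6b) (leaf (nat_lit 23)) <|
br (nat_lit 0x8608030600010692) (leaf (nat_lit 34)) nil) <|
br (nat_lit 0x8c01430600010b35) (node (nat_lit 3336) (nat_lit 0) [] <|
br (nat_lit 0x200010d0b) (leaf (nat_lit 52)) <|
br (nat_lit 0x8608030600010d08) (leaf (nat_lit 10)) nil) nil
def c82 : Cert := node (nat_lit 192) (nat_lit 0) [nat_lit 0x43040183] <|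
br (nat_lit 0x200020321) (node (nat_lit 24) (nat_lit 0) [] <|
br (nat_lit 0x2000105e6) (leaf (nat_lit 18)) <|
br (nat_lit 0x8608030600010bbe) (leaf (nat_lit 36)) nil) <|
br (nat_lit 0x8058000010669) (node (nat_lit 3336) (nat_lit 0) [] <|
br (nat_lit 0x200010d10) (leaf (nat_lit 16)) <|
br (nat_lit 0x8608030600010d0a) (leaf (nat_lit 38)) nil) nil
def c83 : Cert := node (nat_lit 120) (nat_lit 0) [nat_lit 0x4318a183] <|
br (nat_lit 0x200020472) (node (nat_lit 24) (nat_lit 0) [] <|
br (nat_lit 0x200010e74) (leaf (nat_lit 37)) <|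
br (nat_lit 0x8631430600010f11) (leaf (nat_lit 36)) nil) <|
br (nat_lit 0x86080306000109c0) (node (nat_lit 840) (nat_lit 0) [] <|
br (nat_lit 0x20001034e) (leaf (nat_lit 48)) <|
br (nat_lit 0x8631430600010357) (leaf (nat_lit 26)) nil) nil
def c84 : Cert := node (nat_lit 624) (nat_lit 0) [nat_lit 0x402c0, nat_lit 0x43040183] <|
br (nat_lit 0x2000309fd) c82 <|
br (nat_lit 0x8600030808) (node (nat_lit 120) (nat_lit 0) [nat_lit 0x4318a183] <|
br (nat_lit 0x200020e31) (node (nat_lit 24) (nat_lit 0) [] <|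
br (nat_lit 0x2000105e6) (leaf (nat_lit 19)) <|
br (nat_lit 0x86314306000108f3) (leaf (nat_lit 50)) nil) <|
br (nat_lit 0x8058000010a1b) (node (nat_lit 840) (nat_lit 0) [] <|
br (nat_lit 0x20001035e) (leaf (nat_lit 26)) <|
br (nat_lit 0x863143060001035b) (leaf (nat_lit 26)) nil) nil) <|
br (nat_lit 0x208d00030be7) c83 nil
def c85 : Cert := node (nat_lit 1968) (nat_lit 0) [nat_lit 0x1046, nat_lit 0x40180] <|
br (nat_lit 0x20001000d) (node (nat_lit 3048) (nat_lit 0) [nat_lit 0x40180] <|
br (nat_lit 0x200020c02) (leaf (nat_lit 6)) <|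
br (nat_lit 0x208c00010bf2) (leaf (nat_lit 8)) <|
br (nat_lit 0x8030000020c08) (leaf (nat_lit 11)) <|
br (nat_lit 0x8200c00010bf9) (leaf (nat_lit 11)) nil) <|
br (nat_lit 0x860006040d) (node (nat_lit 24) (nat_lit 0) [nat_lit 0x44085041] <|
br (nat_lit 0x2000102b6) (leaf (nat_lit 40)) <|
br (nat_lit 0x208c00010120) (leaf (nat_lit 24)) <|
br (nat_lit 0x8030000030f6d) (leaf (nat_lit 37)) <|
br (nat_lit 0x201630000010cb3) (leaf (nat_lit 39)) nil) <|
br (nat_lit 0x218230600010cdb) (node (nat_lit 3048) (nat_lit 0) [nat_lit 0x40180] <|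
br (nat_lit 0x200020ea5) (leaf (nat_lit 35)) <|
br (nat_lit 0x8030000020eae) (leaf (nat_lit 48)) <|
br (nat_lit 0x8058000010bef) (leaf (nat_lit 48)) <|
br (nat_lit 0x201630000010be9) (leaf (nat_lit 48)) nil) <|
br (nat_lit 0x218c50d00010dad) (node (nat_lit 3048) (nat_lit 0) [nat_lit 0x40180] <|
br (nat_lit 0x200020eaf) (leaf (nat_lit 33)) <|
br (nat_lit 0x8030000020ea6) (leaf (nat_lit 19)) <|
br (nat_lit 0x8058000010bf5) (leaf (nat_lit 19)) <|
br (nat_lit 0x201630000010bec) (leaf (nat_lit 47)) nil) nil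
def c86 : Cert := node (nat_lit 1968) (nat_lit 0) [nat_lit 0x1046, nat_lit 0x40180] <|
br (nat_lit 0x200010861) (node (nat_lit 3048) (nat_lit 0) [nat_lit 0x40180] <|
br (nat_lit 0x200020c06) (leaf (nat_lit 10)) <|
br (nat_lit 0x208c00010bfa) (leaf (nat_lit 13)) <|
br (nat_lit 0x8030000020c0f) (leaf (nat_lit 13)) <|
br (nat_lit 0x8200c00010bff) (leaf (nat_lit 13)) nil) <|
br (nat_lit 0x8600060171) (node (nat_lit 24) (nat_lit 0) [nat_lit 0x44085041] <|
br (nat_lit 0x2000102a5) (leaf (nat_lit 16)) <|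
br (nat_lit 0x208c000108e4) (leaf (nat_lit 26)) <|
br (nat_lit 0x80300000305b1) (leaf (nat_lit 26)) <|
br (nat_lit 0x20163000001034b) (leaf (nat_lit 34)) nil) <|
br (nat_lit 0x21823060001025d) (node (nat_lit 3048) (nat_lit 0) [nat_lit 0x40180] <|
br (nat_lit 0x200020eb1) (leaf (nat_lit 17)) <|
br (nat_lit 0x8030000020eaa) (leaf (nat_lit 22)) <|
br (nat_lit 0x8058000010bea) (leaf (nat_lit 22)) <|
br (nat_lit 0x201630000010bf0) (leaf (nat_lit 27)) nil) <|
br (nat_lit 0x218c50d00010dad) (node (nat_lit 3048) (nat_lit 0) [nat_lit 0x40180] <|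
br (nat_lit 0x200020ea7) (leaf (nat_lit 33)) <|
br (nat_lit 0x8030000020ea1) (leaf (nat_lit 19)) <|
br (nat_lit 0x8058000010bf4) (leaf (nat_lit 19)) <|
br (nat_lit 0x201630000010bf8) (leaf (nat_lit 47)) nil) nil
def c87 : Cert := node (nat_lit 1632) (nat_lit 0) [nat_lit 0x1101140] <|
br (nat_lit 0x200060d98) (node (nat_lit 24) (nat_lit 0) [nat_lit 0x44085041] <|
br (nat_lit 0x2000102a6) (leaf (nat_lit 11)) <|
br (nat_lit 0x218230600010bc3) (leaf (nat_lit 22)) <|
br (nat_lit 0x9610010400030a96) (leaf (nat_lit 38)) <|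
br (nat_lit 0x218c59408200010764) (leaf (nat_lit 46)) nil) <|
br (nat_lit 0x86000107cb) (node (nat_lit 3336) (nat_lit 0) [nat_lit 0x1101140] <|
br (nat_lit 0x200020d23) (leaf (nat_lit 43)) <|
br (nat_lit 0x218230600010d11) (leaf (nat_lit 17)) <|
br (nat_lit 0x9610010400010d1c) (leaf (nat_lit 46)) <|
br (nat_lit 0x8050c48400020f15) (leaf (nat_lit 46)) nil) <|
br (nat_lit 0x8608c00010dd1) (node (nat_lit 3336) (nat_lit 0) [nat_lit 0x1101140] <|
br (nat_lit 0x200020f03) (leaf (nat_lit 17)) <|
br (nat_lit 0x9610010400020d34) (leaf (nat_lit 22)) <|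
br (nat_lit 0x8050c48400010d1d) (leaf (nat_lit 22)) <|
br (nat_lit 0x218c59408200010d13) (leaf (nat_lit 27)) nil) <|
br (nat_lit 0x8601630000010b03) (node (nat_lit 3336) (nat_lit 0) [nat_lit 0x1101140] <|
br (nat_lit 0x200010d0b) (leaf (nat_lit 43)) <|
br (nat_lit 0x218230600020f09) (leaf (nat_lit 27)) <|
br (nat_lit 0x9610010400020f14) (leaf (nat_lit 11)) <|
br (nat_lit 0x8608030600010d08) (leaf (nat_lit 11)) nil) nil
def c88 : Cert := node (nat_lit 48) (nat_lit 0) [nat_lit 0x1042] <|
br (nat_lit 0x200020037) (node (nat_lit 72) (nat_lit 0) [] <|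
br (nat_lit 0x20001004f) (node (nat_lit 96) (nat_lit 0) [] <|
br (nat_lit 0x200010060) (leaf (nat_lit 13)) <|
br (nat_lit 0x8600010063) (leaf (nat_lit 53)) nil) <|
br (nat_lit 0x9200010049) (node (nat_lit 96) (nat_lit 0) [] <|
br (nat_lit 0x200010060) (leaf (nat_lit 13)) <|
br (nat_lit 0x8600010063) (leaf (nat_lit 53)) nil) nil) nil
def c89 : Cert := node (nat_lit 48) (nat_lit 0) [nat_lit 0x1243042] <|
br (nat_lit 0x200020a48) (node (nat_lit 72) (nat_lit 0) [] <|
br (nat_lit 0x200010e3c) (node (nat_lit 96) (nat_lit 0) [] <|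
br (nat_lit 0x200010c93) (leaf (nat_lit 26)) <|
br (nat_lit 0x8600010c90) (leaf (nat_lit 48)) nil) <|
br (nat_lit 0x9200010e31) (node (nat_lit 96) (nat_lit 0) [] <|
br (nat_lit 0x200010c93) (leaf (nat_lit 26)) <|
br (nat_lit 0x8600010c90) (leaf (nat_lit 48)) nil) nil) nil
def c90 : Cert := node (nat_lit 48) (nat_lit 0) [nat_lit 0x12c3042] <|
br (nat_lit 0x200020bf7) (node (nat_lit 72) (nat_lit 0) [] <|
br (nat_lit 0x200010eea) (node (nat_lit 96) (nat_lit 0) [] <|
br (nat_lit 0x200010c4b) (leaf (nat_lit 26)) <|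
br (nat_lit 0x8600010c48) (leaf (nat_lit 48)) nil) <|
br (nat_lit 0x9200010ef0) (node (nat_lit 96) (nat_lit 0) [] <|
br (nat_lit 0x200010c4b) (leaf (nat_lit 26)) <|
br (nat_lit 0x8600010c48) (leaf (nat_lit 48)) nil) nil) nil
def c91 : Cert := node (nat_lit 48) (nat_lit 0) [nat_lit 0x4a] <|
br (nat_lit 0x200020026) (node (nat_lit 72) (nat_lit 0) [] <|
br (nat_lit 0x200010054) (node (nat_lit 96) (nat_lit 0) [] <|
br (nat_lit 0x200010031) (leaf (nat_lit 26)) <|
br (nat_lit 0x8600010037) (leaf (nat_lit 26)) nil) <|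
br (nat_lit 0x9200010058) (node (nat_lit 96) (nat_lit 0) [] <|
br (nat_lit 0x200010031) (leaf (nat_lit 48)) <|
br (nat_lit 0x8600010037) (leaf (nat_lit 48)) nil) nil) nil
def c92 : Cert := node (nat_lit 48) (nat_lit 0) [nat_lit 0x43] <|
br (nat_lit 0x200020073) (node (nat_lit 72) (nat_lit 0) [] <|
br (nat_lit 0x200010050) (node (nat_lit 96) (nat_lit 0) [] <|
br (nat_lit 0x200010021) (leaf (nat_lit 26)) <|
br (nat_lit 0x860001002c) (leaf (nat_lit 26)) nil) <|
br (nat_lit 0x920001004a) (node (nat_lit 96) (nat_lit 0) [] <|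
br (nat_lit 0x200010021) (leaf (nat_lit 48)) <|
br (nat_lit 0x860001002c) (leaf (nat_lit 48)) nil) nil) nil
def c93 : Cert := br (nat_lit 0x8c4800040033e) (node (nat_lit 288) (nat_lit 0) [nat_lit 0x10c2] <|
br (nat_lit 0x200030d12) (leaf (nat_lit 26)) <|
br (nat_lit 0x860003089f) (leaf (nat_lit 50)) <|
br (nat_lit 0x9200010eb3) (leaf (nat_lit 13)) <|
br (nat_lit 0x250600010a3e) (leaf (nat_lit 48)) nil) <|
br (nat_lit 0x9630200400abb) (node (nat_lit 384) (nat_lit 0) [nat_lit 0x1242] <|
br (nat_lit 0x200030ef3) (leaf (nat_lit 50)) <|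
br (nat_lit 0x8600010022) (leaf (nat_lit 48)) <|
br (nat_lit 0x9200030075) (leaf (nat_lit 26)) <|
br (nat_lit 0x251200010c3b) (leaf (nat_lit 13)) nil) <|
br (nat_lit 0x8c08400100c31) (node (nat_lit 48) (nat_lit 0) [nat_lit 0x12c3042] <|
br (nat_lit 0x200020bf8) (node (nat_lit 72) (nat_lit 0) [nat_lit 0x1243081] <|
br (nat_lit 0x200020eed) (node (nat_lit 96) (nat_lit 0) [] <|
br (nat_lit 0x200010c4f) (leaf (nat_lit 48)) <|
br (nat_lit 0x8600010c49) (leaf (nat_lit 48)) nil) nil) nil) <|
br (nat_lit 0x9608400010018) (node (nat_lit 48) (nat_lit 0) [nat_lit 0x1042] <|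
br (nat_lit 0x200020042) (node (nat_lit 72) (nat_lit 0) [nat_lit 0x1081] <|
br (nat_lit 0x20002005e) (node (nat_lit 96) (nat_lit 0) [] <|
br (nat_lit 0x200010061) (leaf (nat_lit 13)) <|
br (nat_lit 0x8600010067) (leaf (nat_lit 13)) nil) nil) nil) <|
br (nat_lit 0x2004080000c0060) (node (nat_lit 48) (nat_lit 0) [nat_lit 0x49] <|
br (nat_lit 0x200020056) (node (nat_lit 72) (nat_lit 0) [nat_lit 0x1081] <|
br (nat_lit 0x20002003c) (node (nat_lit 96) (nat_lit 0) [] <|
br (nat_lit 0x20001001f) (leaf (nat_lit 50)) <|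
br (nat_lit 0x8600010019) (leaf (nat_lit 50)) nil) nil) nil) <|
br (nat_lit 0x20060800018006f) c91 <|
br (nat_lit 0x2002100000c0058) (node (nat_lit 48) (nat_lit 0) [nat_lit 0x43] <|
br (nat_lit 0x20002006f) (node (nat_lit 72) (nat_lit 0) [nat_lit 0x1081] <|
br (nat_lit 0x200020026) (node (nat_lit 96) (nat_lit 0) [] <|
br (nat_lit 0x20001003e) (leaf (nat_lit 50)) <|
br (nat_lit 0x8600010035) (leaf (nat_lit 50)) nil) nil) nil) <|
br (nat_lit 0x258210000100d02) (node (nat_lit 48) (nat_lit 0) [nat_lit 0x1243042] <|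
br (nat_lit 0x200020c06) (node (nat_lit 72) (nat_lit 0) [nat_lit 0x1283081] <|
br (nat_lit 0x200020b44) (node (nat_lit 96) (nat_lit 0) [] <|
br (nat_lit 0x200010dff) (leaf (nat_lit 26)) <|
br (nat_lit 0x8600010df9) (leaf (nat_lit 26)) nil) nil) nil) <|
br (nat_lit 0x20121000018003b) c92 <|
br (nat_lit 0x258c08400100ab1) (node (nat_lit 48) (nat_lit 0) [nat_lit 0x12c3042] <|
br (nat_lit 0x2000206b8) (node (nat_lit 72) (nat_lit 0) [nat_lit 0x1243081] <|
br (nat_lit 0x200020f05) (node (nat_lit 96) (nat_lit 0) [] <|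
br (nat_lit 0x200010f37) (leaf (nat_lit 26)) <|
br (nat_lit 0x8600010f31) (leaf (nat_lit 26)) nil) nil) nil) nil
def c94 : Cert := node (nat_lit 24) (nat_lit 1) [nat_lit 0x41, nat_lit 0x42, nat_lit 0x43, nat_lit 0x45144] <|
br (nat_lit 0x200060019) c88 <|
br (nat_lit 0x8000600d1e) c89 <|
br (nat_lit 0x8200040029) (node (nat_lit 48) (nat_lit 0) [nat_lit 0x43] <|
br (nat_lit 0x200020064) (node (nat_lit 72) (nat_lit 0) [nat_lit 0x49] <|
br (nat_lit 0x20002003d) (node (nat_lit 96) (nat_lit 0) [] <|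
br (nat_lit 0x200010050) (leaf (nat_lit 48)) <|
br (nat_lit 0x860001004a) (leaf (nat_lit 48)) nil) nil) nil) <|
br (nat_lit 0x840004001a) (node (nat_lit 48) (nat_lit 0) [nat_lit 0x49] <|
br (nat_lit 0x200020053) (node (nat_lit 72) (nat_lit 0) [nat_lit 0x43] <|
br (nat_lit 0x20002006c) (node (nat_lit 96) (nat_lit 0) [] <|
br (nat_lit 0x200010041) (leaf (nat_lit 48)) <|
br (nat_lit 0x860001003a) (leaf (nat_lit 48)) nil) nil) nil) <|
br (nat_lit 0x8c00600c30) c90 <|
br (nat_lit 0x208000400b4f) (node (nat_lit 216) (nat_lit 0) [nat_lit 0x1082] <|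
br (nat_lit 0x200030d62) (leaf (nat_lit 50)) <|
br (nat_lit 0x8600030182) (leaf (nat_lit 48)) <|
br (nat_lit 0x94000100e6) (leaf (nat_lit 26)) <|
br (nat_lit 0x248600010d4b) (leaf (nat_lit 53)) nil) <|
br (nat_lit 0x210000400c09) (node (nat_lit 288) (nat_lit 0) [nat_lit 0x1242041] <|
br (nat_lit 0x200030d3e) (leaf (nat_lit 48)) <|
br (nat_lit 0x8600010123) (leaf (nat_lit 53)) <|
br (nat_lit 0x92000300ee) (leaf (nat_lit 50)) <|
br (nat_lit 0x251200010d2b) (leaf (nat_lit 26)) nil) <|
br (nat_lit 0x230200400c3b) (node (nat_lit 384) (nat_lit 0) [nat_lit 0x1242] <|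
br (nat_lit 0x200030f0b) (leaf (nat_lit 48)) <|
br (nat_lit 0x8600010029) (leaf (nat_lit 53)) <|
br (nat_lit 0x9200030075) (leaf (nat_lit 50)) <|
br (nat_lit 0x251200010abb) (leaf (nat_lit 26)) nil) <|
br (nat_lit 0x258200040022) (node (nat_lit 48) (nat_lit 0) [nat_lit 0x43] <|
br (nat_lit 0x200020064) (node (nat_lit 72) (nat_lit 0) [nat_lit 0x49] <|
br (nat_lit 0x20002003d) (node (nat_lit 96) (nat_lit 0) [] <|
br (nat_lit 0x200010050) (leaf (nat_lit 26)) <|
br (nat_lit 0x860001004a) (leaf (nat_lit 26)) nil) nil) nil) <|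
br (nat_lit 0x20840001001b) (node (nat_lit 48) (nat_lit 0) [nat_lit 0x1042] <|
br (nat_lit 0x200020042) (node (nat_lit 72) (nat_lit 0) [nat_lit 0x1081] <|
br (nat_lit 0x20002005e) (node (nat_lit 96) (nat_lit 0) [] <|
br (nat_lit 0x200010061) (leaf (nat_lit 53)) <|
br (nat_lit 0x8600010067) (leaf (nat_lit 53)) nil) nil) nil) <|
br (nat_lit 0x230400400c3e) (node (nat_lit 360) (nat_lit 0) [nat_lit 0x10c2041] <|
br (nat_lit 0x200030f3e) (leaf (nat_lit 50)) <|
br (nat_lit 0x860003005b) (leaf (nat_lit 48)) <|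
br (nat_lit 0x9200010020) (leaf (nat_lit 26)) <|
br (nat_lit 0x250600010ab5) (leaf (nat_lit 53)) nil) <|
br (nat_lit 0x258400040020) (node (nat_lit 48) (nat_lit 0) [nat_lit 0x49] <|
br (nat_lit 0x200020053) (node (nat_lit 72) (nat_lit 0) [nat_lit 0x43] <|
br (nat_lit 0x20002006c) (node (nat_lit 96) (nat_lit 0) [] <|
br (nat_lit 0x200010041) (leaf (nat_lit 26)) <|
br (nat_lit 0x860001003a) (leaf (nat_lit 26)) nil) nil) nil) <|
br (nat_lit 0x200c00400ea8) (node (nat_lit 384) (nat_lit 0) [nat_lit 0x1242081] <|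
br (nat_lit 0x200030c90) (leaf (nat_lit 26)) <|
br (nat_lit 0x8600030352) (leaf (nat_lit 50)) <|
br (nat_lit 0x94000103cc) (leaf (nat_lit 13)) <|
br (nat_lit 0x248600010e3f) (leaf (nat_lit 48)) nil) <|
br (nat_lit 0x8008000400b46) (node (nat_lit 216) (nat_lit 0) [nat_lit 0x1082] <|
br (nat_lit 0x20003016c) (leaf (nat_lit 26)) <|
br (nat_lit 0x8600030d23) (leaf (nat_lit 50)) <|
br (nat_lit 0x9400010d4e) (leaf (nat_lit 13)) <|
br (nat_lit 0x2486000100dd) (leaf (nat_lit 48)) nil) <|
br (nat_lit 0x8210000100e3a) (node (nat_lit 48) (nat_lit 0) [nat_lit 0x1243042] <|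
br (nat_lit 0x200020c96) (node (nat_lit 72) (nat_lit 0) [nat_lit 0x1283081] <|
br (nat_lit 0x200020d0c) (node (nat_lit 96) (nat_lit 0) [] <|
br (nat_lit 0x200010a3f) (leaf (nat_lit 48)) <|
br (nat_lit 0x8600010a39) (leaf (nat_lit 48)) nil) nil) nil) c93
def c95 : Cert := node (nat_lit 48) (nat_lit 0) [] <|
br (nat_lit 0x200010033) (node (nat_lit 72) (nat_lit 0) [] <|
br (nat_lit 0x20001004b) (node (nat_lit 96) (nat_lit 0) [] <|
br (nat_lit 0x200010060) (leaf (nat_lit 9)) <|
br (nat_lit 0x8600010063) (leaf (nat_lit 54)) nil) <|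
br (nat_lit 0x9200010048) (node (nat_lit 96) (nat_lit 0) [] <|
br (nat_lit 0x200010060) (leaf (nat_lit 3)) <|
br (nat_lit 0x8600010063) (leaf (nat_lit 9)) nil) nil) <|
br (nat_lit 0x9400010030) (node (nat_lit 72) (nat_lit 0) [] <|
br (nat_lit 0x20001004b) (node (nat_lit 96) (nat_lit 0) [] <|
br (nat_lit 0x200010060) (leaf (nat_lit 3)) <|
br (nat_lit 0x8600010063) (leaf (nat_lit 9)) nil) <|
br (nat_lit 0x9200010048) (node (nat_lit 96) (nat_lit 0) [] <|
br (nat_lit 0x200010060) (leaf (nat_lit 2)) <|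
br (nat_lit 0x8600010063) (leaf (nat_lit 3)) nil) nil) nil
def c96 : Cert := node (nat_lit 48) (nat_lit 0) [] <|
br (nat_lit 0x200010e68) (node (nat_lit 72) (nat_lit 0) [] <|
br (nat_lit 0x200010d4c) (node (nat_lit 96) (nat_lit 0) [] <|
br (nat_lit 0x200010d53) (leaf (nat_lit 42)) <|
br (nat_lit 0x8600010d50) (leaf (nat_lit 9)) nil) <|
br (nat_lit 0x9200010d41) (node (nat_lit 96) (nat_lit 0) [] <|
br (nat_lit 0x200010d53) (leaf (nat_lit 41)) <|
br (nat_lit 0x8600010d50) (leaf (nat_lit 42)) nil) nil) <|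
br (nat_lit 0x9400010e64) (node (nat_lit 72) (nat_lit 0) [] <|
br (nat_lit 0x200010d4c) (node (nat_lit 96) (nat_lit 0) [] <|
br (nat_lit 0x200010d53) (leaf (nat_lit 41)) <|
br (nat_lit 0x8600010d50) (leaf (nat_lit 42)) nil) <|
br (nat_lit 0x9200010d41) (node (nat_lit 96) (nat_lit 0) [] <|
br (nat_lit 0x200010d53) (leaf (nat_lit 30)) <|
br (nat_lit 0x8600010d50) (leaf (nat_lit 41)) nil) nil) nil
def c97 : Cert := node (nat_lit 48) (nat_lit 0) [] <|
br (nat_lit 0x200010033) (node (nat_lit 72) (nat_lit 0) [] <|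
br (nat_lit 0x20001004b) (node (nat_lit 96) (nat_lit 0) [] <|
br (nat_lit 0x200010060) (leaf (nat_lit 3)) <|
br (nat_lit 0x8600010063) (leaf (nat_lit 9)) nil) <|
br (nat_lit 0x9200010048) (node (nat_lit 96) (nat_lit 0) [] <|
br (nat_lit 0x200010060) (leaf (nat_lit 2)) <|
br (nat_lit 0x8600010063) (leaf (nat_lit 3)) nil) nil) <|
br (nat_lit 0x9400010030) (node (nat_lit 72) (nat_lit 0) [] <|
br (nat_lit 0x20001004b) (node (nat_lit 96) (nat_lit 0) [] <|
br (nat_lit 0x200010060) (leaf (nat_lit 2)) <|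
br (nat_lit 0x8600010063) (leaf (nat_lit 3)) nil) <|
br (nat_lit 0x9200010048) (node (nat_lit 96) (nat_lit 0) [] <|
br (nat_lit 0x200010060) (leaf (nat_lit 1)) <|
br (nat_lit 0x8600010063) (leaf (nat_lit 2)) nil) nil) nil
def c98 : Cert := node (nat_lit 48) (nat_lit 0) [] <|
br (nat_lit 0x200010ead) (node (nat_lit 72) (nat_lit 0) [] <|
br (nat_lit 0x2000109ba) (node (nat_lit 96) (nat_lit 0) [] <|
br (nat_lit 0x200010898) (leaf (nat_lit 43)) <|
br (nat_lit 0x8600010894) (leaf (nat_lit 42)) nil) <|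
br (nat_lit 0x92000109bf) (node (nat_lit 96) (nat_lit 0) [] <|
br (nat_lit 0x200010898) (leaf (nat_lit 52)) <|
br (nat_lit 0x8600010894) (leaf (nat_lit 43)) nil) nil) <|
br (nat_lit 0x9400010ea4) (node (nat_lit 72) (nat_lit 0) [] <|
br (nat_lit 0x2000109ba) (node (nat_lit 96) (nat_lit 0) [] <|
br (nat_lit 0x200010898) (leaf (nat_lit 52)) <|
br (nat_lit 0x8600010894) (leaf (nat_lit 43)) nil) <|
br (nat_lit 0x92000109bf) (node (nat_lit 96) (nat_lit 0) [] <|
br (nat_lit 0x200010898) (leaf (nat_lit 15)) <|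
br (nat_lit 0x8600010894) (leaf (nat_lit 52)) nil) nil) nil
def c99 : Cert := node (nat_lit 48) (nat_lit 0) [] <|
br (nat_lit 0x2000109be) (node (nat_lit 72) (nat_lit 0) [] <|
br (nat_lit 0x200010ee0) (node (nat_lit 96) (nat_lit 0) [] <|
br (nat_lit 0x20001088a) (leaf (nat_lit 15)) <|
br (nat_lit 0x8600010890) (leaf (nat_lit 52)) nil) <|
br (nat_lit 0x9200010edc) (node (nat_lit 96) (nat_lit 0) [] <|
br (nat_lit 0x20001088a) (leaf (nat_lit 52)) <|
br (nat_lit 0x8600010890) (leaf (nat_lit 43)) nil) nil) <|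
br (nat_lit 0x94000109bb) (node (nat_lit 72) (nat_lit 0) [] <|
br (nat_lit 0x200010ee0) (node (nat_lit 96) (nat_lit 0) [] <|
br (nat_lit 0x20001088a) (leaf (nat_lit 52)) <|
br (nat_lit 0x8600010890) (leaf (nat_lit 43)) nil) <|
br (nat_lit 0x9200010edc) (node (nat_lit 96) (nat_lit 0) [] <|
br (nat_lit 0x20001088a) (leaf (nat_lit 43)) <|
br (nat_lit 0x8600010890) (leaf (nat_lit 42)) nil) nil) nil
def c100 : Cert := node (nat_lit 48) (nat_lit 0) [] <|
br (nat_lit 0x2000109b8) (node (nat_lit 72) (nat_lit 0) [] <|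
br (nat_lit 0x20001089c) (node (nat_lit 96) (nat_lit 0) [] <|
br (nat_lit 0x200010ea3) (leaf (nat_lit 41)) <|
br (nat_lit 0x8600010ea0) (leaf (nat_lit 42)) nil) <|
br (nat_lit 0x9200010891) (node (nat_lit 96) (nat_lit 0) [] <|
br (nat_lit 0x200010ea3) (leaf (nat_lit 30)) <|
br (nat_lit 0x8600010ea0) (leaf (nat_lit 41)) nil) nil) <|
br (nat_lit 0x94000109b4) (node (nat_lit 72) (nat_lit 0) [] <|
br (nat_lit 0x20001089c) (node (nat_lit 96) (nat_lit 0) [] <|
br (nat_lit 0x200010ea3) (leaf (nat_lit 30)) <|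
br (nat_lit 0x8600010ea0) (leaf (nat_lit 41)) nil) <|
br (nat_lit 0x9200010891) (node (nat_lit 96) (nat_lit 0) [] <|
br (nat_lit 0x200010ea3) (leaf (nat_lit 2)) <|
br (nat_lit 0x8600010ea0) (leaf (nat_lit 30)) nil) nil) nil
def c101 : Cert := node (nat_lit 48) (nat_lit 0) [] <|
br (nat_lit 0x200010ead) (node (nat_lit 72) (nat_lit 0) [] <|
br (nat_lit 0x2000109ba) (node (nat_lit 96) (nat_lit 0) [] <|
br (nat_lit 0x200010898) (leaf (nat_lit 52)) <|
br (nat_lit 0x8600010894) (leaf (nat_lit 43)) nil) <|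
br (nat_lit 0x92000109bf) (node (nat_lit 96) (nat_lit 0) [] <|
br (nat_lit 0x200010898) (leaf (nat_lit 15)) <|
br (nat_lit 0x8600010894) (leaf (nat_lit 52)) nil) nil) <|
br (nat_lit 0x9400010ea4) (node (nat_lit 72) (nat_lit 0) [] <|
br (nat_lit 0x2000109ba) (node (nat_lit 96) (nat_lit 0) [] <|
br (nat_lit 0x200010898) (leaf (nat_lit 15)) <|
br (nat_lit 0x8600010894) (leaf (nat_lit 52)) nil) <|
br (nat_lit 0x92000109bf) (node (nat_lit 96) (nat_lit 0) [] <|
br (nat_lit 0x200010898) (leaf (nat_lit 30)) <|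
br (nat_lit 0x8600010894) (leaf (nat_lit 15)) nil) nil) nil
def c102 : Cert := node (nat_lit 48) (nat_lit 0) [] <|
br (nat_lit 0x200010d38) (node (nat_lit 72) (nat_lit 0) [] <|
br (nat_lit 0x200010d61) (node (nat_lit 96) (nat_lit 0) [] <|
br (nat_lit 0x200010e5c) (leaf (nat_lit 52)) <|
br (nat_lit 0x8600010e65) (leaf (nat_lit 43)) nil) <|
br (nat_lit 0x9200010d5a) (node (nat_lit 96) (nat_lit 0) [] <|
br (nat_lit 0x200010e5c) (leaf (nat_lit 15)) <|
br (nat_lit 0x8600010e65) (leaf (nat_lit 52)) nil) nil) <|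
br (nat_lit 0x9400010d3b) (node (nat_lit 72) (nat_lit 0) [] <|
br (nat_lit 0x200010d61) (node (nat_lit 96) (nat_lit 0) [] <|
br (nat_lit 0x200010e5c) (leaf (nat_lit 15)) <|
br (nat_lit 0x8600010e65) (leaf (nat_lit 52)) nil) <|
br (nat_lit 0x9200010d5a) (node (nat_lit 96) (nat_lit 0) [] <|
br (nat_lit 0x200010e5c) (leaf (nat_lit 30)) <|
br (nat_lit 0x8600010e65) (leaf (nat_lit 15)) nil) nil) nil
def c103 : Cert := node (nat_lit 48) (nat_lit 0) [] <|
br (nat_lit 0x200010d42) (node (nat_lit 72) (nat_lit 0) [] <|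
br (nat_lit 0x200010e5d) (node (nat_lit 96) (nat_lit 0) [] <|
br (nat_lit 0x200010d33) (leaf (nat_lit 52)) <|
br (nat_lit 0x8600010d36) (leaf (nat_lit 41)) nil) <|
br (nat_lit 0x9200010e66) (node (nat_lit 96) (nat_lit 0) [] <|
br (nat_lit 0x200010d33) (leaf (nat_lit 41)) <|
br (nat_lit 0x8600010d36) (leaf (nat_lit 52)) nil) nil) <|
br (nat_lit 0x9400010d49) (node (nat_lit 72) (nat_lit 0) [] <|
br (nat_lit 0x200010e5d) (node (nat_lit 96) (nat_lit 0) [] <|
br (nat_lit 0x200010d33) (leaf (nat_lit 41)) <|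
br (nat_lit 0x8600010d36) (leaf (nat_lit 52)) nil) <|
br (nat_lit 0x9200010e66) (node (nat_lit 96) (nat_lit 0) [] <|
br (nat_lit 0x200010d33) (leaf (nat_lit 52)) <|
br (nat_lit 0x8600010d36) (leaf (nat_lit 53)) nil) nil) nil
def c104 : Cert := node (nat_lit 48) (nat_lit 0) [nat_lit 0x49] <|
br (nat_lit 0x200020050) (node (nat_lit 72) (nat_lit 0) [] <|
br (nat_lit 0x200010036) (node (nat_lit 96) (nat_lit 0) [] <|
br (nat_lit 0x200010018) (leaf (nat_lit 41)) <|
br (nat_lit 0x860001001b) (leaf (nat_lit 53)) nil) <|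
br (nat_lit 0x920001003f) (node (nat_lit 96) (nat_lit 0) [] <|
br (nat_lit 0x200010018) (leaf (nat_lit 3)) <|
br (nat_lit 0x860001001b) (leaf (nat_lit 41)) nil) nil) nil
def c105 : Cert := node (nat_lit 48) (nat_lit 0) [nat_lit 0x4a] <|
br (nat_lit 0x20002001a) (node (nat_lit 72) (nat_lit 0) [] <|
br (nat_lit 0x20001004e) (node (nat_lit 96) (nat_lit 0) [] <|
br (nat_lit 0x200010030) (leaf (nat_lit 43)) <|
br (nat_lit 0x8600010033) (leaf (nat_lit 31)) nil) <|
br (nat_lit 0x9200010057) (node (nat_lit 96) (nat_lit 0) [] <|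
br (nat_lit 0x200010030) (leaf (nat_lit 14)) <|
br (nat_lit 0x8600010033) (leaf (nat_lit 15)) nil) nil) nil
def c106 : Cert := node (nat_lit 48) (nat_lit 0) [nat_lit 0x43] <|
br (nat_lit 0x200020073) (node (nat_lit 72) (nat_lit 0) [] <|
br (nat_lit 0x20001004d) (node (nat_lit 96) (nat_lit 0) [] <|
br (nat_lit 0x200010025) (leaf (nat_lit 43)) <|
br (nat_lit 0x860001001c) (leaf (nat_lit 31)) nil) <|
br (nat_lit 0x9200010056) (node (nat_lit 96) (nat_lit 0) [] <|
br (nat_lit 0x200010025) (leaf (nat_lit 14)) <|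
br (nat_lit 0x860001001c) (leaf (nat_lit 15)) nil) nil) nil
def c107 : Cert := node (nat_lit 24) (nat_lit 1) [nat_lit 0x41, nat_lit 0x42, nat_lit 0x43, nat_lit 0x44084, nat_lit 0x45084] <|
br (nat_lit 0x20001001b) c95 <|
br (nat_lit 0x8000200d36) c96 <|
br (nat_lit 0x820004002d) (node (nat_lit 48) (nat_lit 0) [nat_lit 0x43] <|
br (nat_lit 0x200020064) (node (nat_lit 72) (nat_lit 0) [nat_lit 0x49] <|
br (nat_lit 0x200020039) (node (nat_lit 96) (nat_lit 0) [] <|
br (nat_lit 0x20001004d) (leaf (nat_lit 31)) <|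
br (nat_lit 0x8600010056) (leaf (nat_lit 43)) nil) nil) nil) <|
br (nat_lit 0x840004001d) (node (nat_lit 48) (nat_lit 0) [nat_lit 0x49] <|
br (nat_lit 0x200020052) (node (nat_lit 72) (nat_lit 0) [nat_lit 0x43] <|
br (nat_lit 0x20002006c) (node (nat_lit 96) (nat_lit 0) [] <|
br (nat_lit 0x20001003b) (leaf (nat_lit 31)) <|
br (nat_lit 0x8600010045) (leaf (nat_lit 43)) nil) nil) nil) <|
br (nat_lit 0x9600010018) c97 <|
br (nat_lit 0x208100800edf) c98 <|
br (nat_lit 0x210100800ea9) c99 <|
br (nat_lit 0x258000200ee6) c100 <|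
br (nat_lit 0x208200040021) (node (nat_lit 48) (nat_lit 0) [nat_lit 0x49] <|
br (nat_lit 0x200020053) (node (nat_lit 72) (nat_lit 0) [nat_lit 0x43] <|
br (nat_lit 0x20002006a) (node (nat_lit 96) (nat_lit 0) [] <|
br (nat_lit 0x20001003c) (leaf (nat_lit 15)) <|
br (nat_lit 0x8600010040) (leaf (nat_lit 14)) nil) nil) nil) <|
br (nat_lit 0x21020006002b) (node (nat_lit 48) (nat_lit 0) [nat_lit 0x45104] <|
br (nat_lit 0x200020042) (node (nat_lit 72) (nat_lit 0) [nat_lit 0x42145101] <|
br (nat_lit 0x200020049) (node (nat_lit 96) (nat_lit 0) [] <|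
br (nat_lit 0x200010076) (leaf (nat_lit 53)) <|
br (nat_lit 0x8600010073) (leaf (nat_lit 53)) nil) nil) nil) <|
br (nat_lit 0x258200040023) (node (nat_lit 48) (nat_lit 0) [nat_lit 0x43] <|
br (nat_lit 0x200020064) (node (nat_lit 72) (nat_lit 0) [nat_lit 0x49] <|
br (nat_lit 0x200020039) (node (nat_lit 96) (nat_lit 0) [] <|
br (nat_lit 0x20001004d) (leaf (nat_lit 15)) <|
br (nat_lit 0x8600010056) (leaf (nat_lit 14)) nil) nil) nil) <|
br (nat_lit 0x8008100800ed6) c101 <|
br (nat_lit 0x8208100800d25) c102 <|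
br (nat_lit 0x8408100c00d53) c103 <|
br (nat_lit 0x200408000180060) c104 <|
br (nat_lit 0x20060800018006f) c105 <|
br (nat_lit 0x20121000018003a) c106 nil
def c108 : Cert := node (nat_lit 24) (nat_lit 0) [nat_lit 0x43, nat_lit 0x118b106001] <|
br (nat_lit 0x20001015a) (node (nat_lit 96) (nat_lit 0) [] <|
br (nat_lit 0x200010060) (leaf (nat_lit 11)) <|
br (nat_lit 0x8600010063) (leaf (nat_lit 43)) nil) <|
br (nat_lit 0x230400060986) (node (nat_lit 96) (nat_lit 0) [] <|
br (nat_lit 0x200010cdd) (leaf (nat_lit 19)) <|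
br (nat_lit 0x8600010ce6) (leaf (nat_lit 51)) nil) <|
br (nat_lit 0x8050000020f5e) (node (nat_lit 96) (nat_lit 0) [] <|
br (nat_lit 0x2000108bb) (leaf (nat_lit 23)) <|
br (nat_lit 0x86000108b8) (leaf (nat_lit 39)) nil) <|
br (nat_lit 0x8030200060af7) (node (nat_lit 96) (nat_lit 0) [] <|
br (nat_lit 0x200010ebb) (leaf (nat_lit 37)) <|
br (nat_lit 0x8600010eb8) (leaf (nat_lit 52)) nil) <|
br (nat_lit 0x258c10400060b51) (node (nat_lit 96) (nat_lit 0) [] <|
br (nat_lit 0x200010671) (leaf (nat_lit 40)) <|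
br (nat_lit 0x860001066a) (leaf (nat_lit 51)) nil) <|
br (nat_lit 0x9610208000020893) (node (nat_lit 96) (nat_lit 0) [] <|
br (nat_lit 0x200010502) (leaf (nat_lit 15)) <|
br (nat_lit 0x8600010509) (leaf (nat_lit 34)) nil) <|
br (nat_lit 0x9608010400020d6c) (node (nat_lit 96) (nat_lit 0) [] <|
br (nat_lit 0x200010506) (leaf (nat_lit 41)) <|
br (nat_lit 0x86000104fd) (leaf (nat_lit 39)) nil) <|
br (nat_lit 0x8c504304000100ca) (node (nat_lit 96) (nat_lit 0) [] <|
br (nat_lit 0x20001006a) (leaf (nat_lit 23)) <|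
br (nat_lit 0x8600010071) (leaf (nat_lit 44)) nil) <|
br (nat_lit 0x9631210c00010119) (node (nat_lit 96) (nat_lit 0) [] <|
br (nat_lit 0x20001006e) (leaf (nat_lit 17)) <|
br (nat_lit 0x8600010065) (leaf (nat_lit 46)) nil) nil
def c109 : Cert := node (nat_lit 24) (nat_lit 0) [nat_lit 0x43, nat_lit 0x118b106001] <|
br (nat_lit 0x20001015a) (node (nat_lit 96) (nat_lit 0) [] <|
br (nat_lit 0x200010060) (leaf (nat_lit 10)) <|
br (nat_lit 0x8600010063) (leaf (nat_lit 52)) nil) <|
br (nat_lit 0x23040006066e) (node (nat_lit 96) (nat_lit 0) [] <|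
br (nat_lit 0x200010a6d) (leaf (nat_lit 50)) <|
br (nat_lit 0x8600010a76) (leaf (nat_lit 48)) nil) <|
br (nat_lit 0x805000002089e) (node (nat_lit 96) (nat_lit 0) [] <|
br (nat_lit 0x200010d6b) (leaf (nat_lit 34)) <|
br (nat_lit 0x8600010d68) (leaf (nat_lit 47)) nil) <|
br (nat_lit 0x8030200060c5f) (node (nat_lit 96) (nat_lit 0) [] <|
br (nat_lit 0x200010a53) (leaf (nat_lit 36)) <|
br (nat_lit 0x8600010a50) (leaf (nat_lit 51)) nil) <|
br (nat_lit 0x258c10400060551) (node (nat_lit 96) (nat_lit 0) [] <|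
br (nat_lit 0x200010989) (leaf (nat_lit 38)) <|
br (nat_lit 0x8600010982) (leaf (nat_lit 44)) nil) <|
br (nat_lit 0x9610208000020f53) (node (nat_lit 96) (nat_lit 0) [] <|
br (nat_lit 0x200010862) (leaf (nat_lit 44)) <|
br (nat_lit 0x8600010869) (leaf (nat_lit 37)) nil) <|
br (nat_lit 0x96080104000208bc) (node (nat_lit 96) (nat_lit 0) [] <|
br (nat_lit 0x200010866) (leaf (nat_lit 40)) <|
br (nat_lit 0x860001085d) (leaf (nat_lit 33)) nil) <|
br (nat_lit 0x8c504304000100ca) (node (nat_lit 96) (nat_lit 0) [] <|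
br (nat_lit 0x20001006a) (leaf (nat_lit 21)) <|
br (nat_lit 0x8600010071) (leaf (nat_lit 45)) nil) <|
br (nat_lit 0x9631210c00010112) (node (nat_lit 96) (nat_lit 0) [] <|
br (nat_lit 0x20001006e) (leaf (nat_lit 26)) <|
br (nat_lit 0x8600010065) (leaf (nat_lit 48)) nil) nil
def c110 : Cert := node (nat_lit 168) (nat_lit 0) [nat_lit 0x43, nat_lit 0x40280] <|
br (nat_lit 0x2000104ab) (node (nat_lit 96) (nat_lit 0) [nat_lit 0x43] <|
br (nat_lit 0x200010060) (leaf (nat_lit 6)) <|
br (nat_lit 0x8600010063) (leaf (nat_lit 42)) <|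
br (nat_lit 0x805000002088b) (leaf (nat_lit 20)) <|
br (nat_lit 0x218050000020e58) (leaf (nat_lit 6)) nil) <|
br (nat_lit 0x230400060c6e) (node (nat_lit 216) (nat_lit 0) [nat_lit 0x1082004002] <|
br (nat_lit 0x200010ce6) (leaf (nat_lit 17)) <|
br (nat_lit 0x86000300ce) (leaf (nat_lit 39)) <|
br (nat_lit 0x218050000010b79) (leaf (nat_lit 6)) <|
br (nat_lit 0x201400600010454) (leaf (nat_lit 43)) nil) <|
br (nat_lit 0x96102080000103ba) (node (nat_lit 96) (nat_lit 0) [nat_lit 0x43] <|
br (nat_lit 0x200020e62) (leaf (nat_lit 14)) <|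
br (nat_lit 0x8600020e69) (leaf (nat_lit 17)) <|
br (nat_lit 0x21805000001006a) (leaf (nat_lit 20)) <|
br (nat_lit 0x8410058400010071) (leaf (nat_lit 17)) nil) <|
br (nat_lit 0x96080104000100ab) (node (nat_lit 96) (nat_lit 0) [nat_lit 0x43] <|
br (nat_lit 0x200020e66) (leaf (nat_lit 42)) <|
br (nat_lit 0x8600020e5d) (leaf (nat_lit 43)) <|
br (nat_lit 0x21805000001006e) (leaf (nat_lit 14)) <|
br (nat_lit 0x8410058400010065) (leaf (nat_lit 43)) nil) nil
def c111 : Cert := node (nat_lit 120) (nat_lit 0) [nat_lit 0x43, nat_lit 0x46286] <|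
br (nat_lit 0x20003067e) (node (nat_lit 504) (nat_lit 0) [nat_lit 0x4318a183] <|
br (nat_lit 0x200010c6c) (node (nat_lit 840) (nat_lit 0) [] <|
br (nat_lit 0x200010351) (leaf (nat_lit 19)) <|
br (nat_lit 0x863143060001035c) (leaf (nat_lit 47)) nil) <|
br (nat_lit 0x8600020256) (node (nat_lit 24) (nat_lit 0) [] <|
br (nat_lit 0x200010e67) (leaf (nat_lit 51)) <|
br (nat_lit 0x86314306000106ce) (leaf (nat_lit 46)) nil) nil) <|
br (nat_lit 0x230500030708) (node (nat_lit 504) (nat_lit 0) [nat_lit 0x4318a183] <|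
br (nat_lit 0x200020940) (node (nat_lit 24) (nat_lit 0) [] <|
br (nat_lit 0x200010b74) (leaf (nat_lit 34)) <|
br (nat_lit 0x8631430600010735) (leaf (nat_lit 51)) nil) <|
br (nat_lit 0x8600010b23) (node (nat_lit 840) (nat_lit 0) [] <|
br (nat_lit 0x200010354) (leaf (nat_lit 26)) <|
br (nat_lit 0x8631430600010358) (leaf (nat_lit 48)) nil) nil) <|
br (nat_lit 0x218030300030188) (node (nat_lit 216) (nat_lit 0) [nat_lit 0x46286] <|
br (nat_lit 0x200020ac5) (node (nat_lit 24) (nat_lit 0) [] <|
br (nat_lit 0x20001038a) (leaf (nat_lit 50)) <|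
br (nat_lit 0x8c50c00010d6a) (leaf (nat_lit 38)) nil) <|
br (nat_lit 0x231430600010483) (node (nat_lit 288) (nat_lit 0) [] <|
br (nat_lit 0x200010136) (leaf (nat_lit 48)) <|
br (nat_lit 0x8c50c00010133) (leaf (nat_lit 48)) nil) nil) nil
def c112 : Cert := node (nat_lit 1800) (nat_lit 0) [nat_lit 0x44046080] <|
br (nat_lit 0x200010ba0) (node (nat_lit 840) (nat_lit 0) [nat_lit 0x44046080] <|
br (nat_lit 0x200010354) (leaf (nat_lit 16)) <|
br (nat_lit 0x8031230000020ac2) (leaf (nat_lit 38)) <|
br (nat_lit 0x8631430600010358) (leaf (nat_lit 38)) <|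
br (nat_lit 0x258610208000020ac7) (leaf (nat_lit 39)) nil) <|
br (nat_lit 0x8600060028) (node (nat_lit 24) (nat_lit 0) [nat_lit 0x118b106001] <|
br (nat_lit 0x2000108ce) (leaf (nat_lit 37)) <|
br (nat_lit 0x803123000003066b) (leaf (nat_lit 48)) <|
br (nat_lit 0x258610208000010075) (leaf (nat_lit 47)) <|
br (nat_lit 0x208048410000010505) (leaf (nat_lit 48)) nil) <|
br (nat_lit 0x8c504000102e5) (node (nat_lit 840) (nat_lit 0) [nat_lit 0x44046080] <|
br (nat_lit 0x20001035e) (leaf (nat_lit 53)) <|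
br (nat_lit 0x8031230000020b4b) (leaf (nat_lit 52)) <|
br (nat_lit 0x863143060001035b) (leaf (nat_lit 53)) <|
br (nat_lit 0x258610208000020b55) (leaf (nat_lit 53)) nil) <|
br (nat_lit 0x218050000010c6e) (node (nat_lit 840) (nat_lit 0) [nat_lit 0x44046080] <|
br (nat_lit 0x200020b47) (leaf (nat_lit 21)) <|
br (nat_lit 0x8031230000010351) (leaf (nat_lit 25)) <|
br (nat_lit 0x8631430600020b41) (leaf (nat_lit 25)) <|
br (nat_lit 0x25861020800001035c) (leaf (nat_lit 28)) nil) nil
def c113 : Cert := node (nat_lit 1080) (nat_lit 0) [nat_lit 0x40181, nat_lit 0x46286] <|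
br (nat_lit 0x200010011) (node (nat_lit 288) (nat_lit 0) [nat_lit 0x46286] <|
br (nat_lit 0x200020c55) (leaf (nat_lit 24)) <|
br (nat_lit 0x8030200020c9b) (leaf (nat_lit 26)) <|
br (nat_lit 0x8050030400010133) (leaf (nat_lit 26)) <|
br (nat_lit 0x231408c08000010136) (leaf (nat_lit 26)) nil) <|
br (nat_lit 0x86000607b3) (node (nat_lit 24) (nat_lit 0) [nat_lit 0x118b106001] <|
br (nat_lit 0x200010e6e) (leaf (nat_lit 35)) <|
br (nat_lit 0x803020003048e) (leaf (nat_lit 34)) <|
br (nat_lit 0x231408c08000010162) (leaf (nat_lit 32)) <|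
br (nat_lit 0x258401408200010d73) (leaf (nat_lit 33)) nil) <|
br (nat_lit 0x8630500010995) (node (nat_lit 288) (nat_lit 0) [nat_lit 0x46286] <|
br (nat_lit 0x200020c57) (leaf (nat_lit 38)) <|
br (nat_lit 0x8030200010129) (leaf (nat_lit 16)) <|
br (nat_lit 0x8c50c00020c4e) (leaf (nat_lit 39)) <|
br (nat_lit 0x258401408200010134) (leaf (nat_lit 38)) nil) <|
br (nat_lit 0x20140060001043b) (node (nat_lit 288) (nat_lit 0) [nat_lit 0x46286] <|
br (nat_lit 0x200010130) (leaf (nat_lit 31)) <|
br (nat_lit 0x8030200020c5f) (leaf (nat_lit 15)) <|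
br (nat_lit 0x8c50c0001012c) (leaf (nat_lit 15)) <|
br (nat_lit 0x231408c08000020c98) (leaf (nat_lit 30)) nil) nil
def c114 : Cert := node (nat_lit 1320) (nat_lit 0) [nat_lit 0x100a181] <|
br (nat_lit 0x2000307a7) (node (nat_lit 168) (nat_lit 0) [nat_lit 0x40280] <|
br (nat_lit 0x20001091c) (node (nat_lit 2184) (nat_lit 0) [] <|
br (nat_lit 0x200010894) (leaf (nat_lit 19)) <|
br (nat_lit 0x8050000010898) (leaf (nat_lit 47)) nil) <|
br (nat_lit 0x803020002087c) (node (nat_lit 24) (nat_lit 0) [] <|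
br (nat_lit 0x200010aec) (leaf (nat_lit 37)) <|
br (nat_lit 0x80500000106c8) (leaf (nat_lit 39)) nil) nil) <|
br (nat_lit 0x86000300fe) (node (nat_lit 240) (nat_lit 0) [nat_lit 0x40181] <|
br (nat_lit 0x200020cfd) (node (nat_lit 24) (nat_lit 0) [] <|
br (nat_lit 0x200010154) (leaf (nat_lit 32)) <|
br (nat_lit 0x8030200010c54) (leaf (nat_lit 36)) nil) <|
br (nat_lit 0x8050000010687) (node (nat_lit 3216) (nat_lit 0) [] <|
br (nat_lit 0x200010c92) (leaf (nat_lit 44)) <|
br (nat_lit 0x8030200010c98) (leaf (nat_lit 23)) nil) nil) <|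
br (nat_lit 0x230400030281) (node (nat_lit 120) (nat_lit 0) [nat_lit 0x4318a183] <|
br (nat_lit 0x20002093e) (node (nat_lit 24) (nat_lit 0) [] <|
br (nat_lit 0x20001097f) (leaf (nat_lit 44)) <|
br (nat_lit 0x8631430600010667) (leaf (nat_lit 51)) nil) <|
br (nat_lit 0x8050000010295) (node (nat_lit 840) (nat_lit 0) [] <|
br (nat_lit 0x20001035a) (leaf (nat_lit 50)) <|
br (nat_lit 0x863143060001035f) (leaf (nat_lit 50)) nil) nil) nil
def c115 : Cert := node (nat_lit 168) (nat_lit 0) [nat_lit 0x43, nat_lit 0x40280] <|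
br (nat_lit 0x2000102a4) (node (nat_lit 96) (nat_lit 0) [nat_lit 0x43] <|
br (nat_lit 0x200010060) (leaf (nat_lit 7)) <|
br (nat_lit 0x8600010063) (leaf (nat_lit 15)) <|
br (nat_lit 0x8050000020e5b) (leaf (nat_lit 15)) <|
br (nat_lit 0x218050000020888) (leaf (nat_lit 28)) nil) <|
br (nat_lit 0x23040006099e) (node (nat_lit 624) (nat_lit 0) [nat_lit 0x12c0100] <|
br (nat_lit 0x200030240) (leaf (nat_lit 19)) <|
br (nat_lit 0x8600010f1d) (leaf (nat_lit 25)) <|
br (nat_lit 0x80500000106e0) (leaf (nat_lit 18)) <|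
br (nat_lit 0x84100584000104b4) (leaf (nat_lit 15)) nil) <|
br (nat_lit 0x961020800001019d) (node (nat_lit 96) (nat_lit 0) [nat_lit 0x43] <|
br (nat_lit 0x200020892) (leaf (nat_lit 25)) <|
br (nat_lit 0x8600020899) (leaf (nat_lit 21)) <|
br (nat_lit 0x21805000001006a) (leaf (nat_lit 25)) <|
br (nat_lit 0x8410058400010071) (leaf (nat_lit 28)) nil) <|
br (nat_lit 0x96080104000107a1) (node (nat_lit 96) (nat_lit 0) [nat_lit 0x43] <|
br (nat_lit 0x200020896) (leaf (nat_lit 18)) <|
br (nat_lit 0x860002088d) (leaf (nat_lit 7)) <|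
br (nat_lit 0x21805000001006e) (leaf (nat_lit 18)) <|
br (nat_lit 0x8410058400010065) (leaf (nat_lit 21)) nil) nil
def c116 : Cert := node (nat_lit 120) (nat_lit 0) [nat_lit 0x43, nat_lit 0x46286] <|
br (nat_lit 0x200030159) (node (nat_lit 24) (nat_lit 0) [nat_lit 0x43] <|
br (nat_lit 0x200010393) (node (nat_lit 96) (nat_lit 0) [] <|
br (nat_lit 0x200010060) (leaf (nat_lit 10)) <|
br (nat_lit 0x8600010063) (leaf (nat_lit 52)) nil) <|
br (nat_lit 0x8c50c00020960) (node (nat_lit 96) (nat_lit 0) [] <|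
br (nat_lit 0x200010ea3) (leaf (nat_lit 24)) <|
br (nat_lit 0x8600010ea0) (leaf (nat_lit 35)) nil) nil) <|
br (nat_lit 0x208c00030650) (node (nat_lit 24) (nat_lit 0) [nat_lit 0x43] <|
br (nat_lit 0x200020855) (node (nat_lit 96) (nat_lit 0) [] <|
br (nat_lit 0x200010eb5) (leaf (nat_lit 10)) <|
br (nat_lit 0x8600010eab) (leaf (nat_lit 24)) nil) <|
br (nat_lit 0x218c50c000103db) (node (nat_lit 96) (nat_lit 0) [] <|
br (nat_lit 0x200010075) (leaf (nat_lit 35)) <|
br (nat_lit 0x860001006b) (leaf (nat_lit 24)) nil) nil) <|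
br (nat_lit 0x8030000030631) (node (nat_lit 504) (nat_lit 0) [nat_lit 0x4318a183] <|
br (nat_lit 0x2000102d0) (node (nat_lit 840) (nat_lit 0) [] <|
br (nat_lit 0x200010351) (leaf (nat_lit 24)) <|
br (nat_lit 0x863143060001035c) (leaf (nat_lit 35)) nil) <|
br (nat_lit 0x8600020663) (node (nat_lit 24) (nat_lit 0) [] <|
br (nat_lit 0x2000105a7) (leaf (nat_lit 35)) <|
br (nat_lit 0x8631430600010cb0) (leaf (nat_lit 52)) nil) nil) nil
def c117 : Cert := node (nat_lit 792) (nat_lit 0) [nat_lit 0x1105045180] <|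
br (nat_lit 0x200040d12) (node (nat_lit 24) (nat_lit 0) [] <|
br (nat_lit 0x200010136) (leaf (nat_lit 36)) <|
br (nat_lit 0x863143060001050c) (leaf (nat_lit 37)) nil) <|
br (nat_lit 0x8600040f1d) (node (nat_lit 24) (nat_lit 0) [] <|
br (nat_lit 0x200010136) (leaf (nat_lit 51)) <|
br (nat_lit 0x86314306000108f3) (leaf (nat_lit 34)) nil) <|
br (nat_lit 0x8030000010bbd) (node (nat_lit 840) (nat_lit 0) [] <|
br (nat_lit 0x200010351) (leaf (nat_lit 26)) <|
br (nat_lit 0x863143060001035c) (leaf (nat_lit 48)) nil) <|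
br (nat_lit 0x80580000405aa) (node (nat_lit 24) (nat_lit 0) [] <|
br (nat_lit 0x200010bce) (leaf (nat_lit 33)) <|
br (nat_lit 0x8631430600010f14) (leaf (nat_lit 39)) nil) <|
br (nat_lit 0x8230600040760) (node (nat_lit 24) (nat_lit 0) [] <|
br (nat_lit 0x200010d0c) (leaf (nat_lit 37)) <|
br (nat_lit 0x8631430600010f2e) (leaf (nat_lit 36)) nil) <|
br (nat_lit 0x8608c00040e75) (node (nat_lit 24) (nat_lit 0) [] <|
br (nat_lit 0x200010f2e) (leaf (nat_lit 33)) <|
br (nat_lit 0x86314306000108e1) (leaf (nat_lit 39)) nil) <|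
br (nat_lit 0x21803000004006e) (node (nat_lit 24) (nat_lit 0) [] <|
br (nat_lit 0x20001096e) (leaf (nat_lit 34)) <|
br (nat_lit 0x8631430600010d2e) (leaf (nat_lit 51)) nil) <|
br (nat_lit 0x208030600010cb8) (node (nat_lit 840) (nat_lit 0) [] <|
br (nat_lit 0x20001035d) (leaf (nat_lit 48)) <|
br (nat_lit 0x8631430600010353) (leaf (nat_lit 26)) nil) <|
br (nat_lit 0x2504312100000105bf) (node (nat_lit 840) (nat_lit 0) [] <|
br (nat_lit 0x200010348) (leaf (nat_lit 5)) <|
br (nat_lit 0x863143060001034b) (leaf (nat_lit 41)) nil) nil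
def c118 : Cert := node (nat_lit 120) (nat_lit 0) [nat_lit 0x4318a183] <|
br (nat_lit 0x200020564) (node (nat_lit 24) (nat_lit 0) [] <|
br (nat_lit 0x200010395) (leaf (nat_lit 34)) <|
br (nat_lit 0x8631430600010b5d) (leaf (nat_lit 32)) nil) <|
br (nat_lit 0x8608030600010081) (node (nat_lit 840) (nat_lit 0) [] <|
br (nat_lit 0x20001035a) (leaf (nat_lit 26)) <|
br (nat_lit 0x863143060001035f) (leaf (nat_lit 26)) nil) nil
def c119 : Cert := node (nat_lit 624) (nat_lit 0) [nat_lit 0x402c0, nat_lit 0x43040183] <|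
br (nat_lit 0x2000303ca) c118 <|
br (nat_lit 0x8600030da2) (node (nat_lit 240) (nat_lit 0) [nat_lit 0x402c0] <|
br (nat_lit 0x20002060c) (node (nat_lit 24) (nat_lit 0) [] <|
br (nat_lit 0x200010395) (leaf (nat_lit 50)) <|
br (nat_lit 0x8058000010cbc) (leaf (nat_lit 44)) nil) <|
br (nat_lit 0x8608030600010db0) (node (nat_lit 3744) (nat_lit 0) [] <|
br (nat_lit 0x200010eaf) (leaf (nat_lit 19)) <|
br (nat_lit 0x8058000010ea6) (leaf (nat_lit 47)) nil) nil) <|
br (nat_lit 0x208c000304f3) (node (nat_lit 240) (nat_lit 0) [nat_lit 0x402c0] <|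
br (nat_lit 0x2000207ac) (node (nat_lit 24) (nat_lit 0) [] <|
br (nat_lit 0x200010316) (leaf (nat_lit 19)) <|
br (nat_lit 0x80580000102c0) (leaf (nat_lit 51)) nil) <|
br (nat_lit 0x8608030600010776) (node (nat_lit 3744) (nat_lit 0) [] <|
br (nat_lit 0x200010eae) (leaf (nat_lit 17)) <|
br (nat_lit 0x8058000010ea5) (leaf (nat_lit 46)) nil) nil) nil
def c120 : Cert := node (nat_lit 1056) (nat_lit 0) [nat_lit 0x41006, nat_lit 0x1105045003] <|
br (nat_lit 0x20004009e) (node (nat_lit 24) (nat_lit 0) [] <|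
br (nat_lit 0x200010351) (leaf (nat_lit 26)) <|
br (nat_lit 0x8200c000102c4) (leaf (nat_lit 19)) nil) <|
br (nat_lit 0x86000409c2) (node (nat_lit 24) (nat_lit 0) [] <|
br (nat_lit 0x200010351) (leaf (nat_lit 19)) <|
br (nat_lit 0x8200c00010b5f) (leaf (nat_lit 26)) nil) <|
br (nat_lit 0x8030000040b3e) (node (nat_lit 24) (nat_lit 0) [] <|
br (nat_lit 0x2000108a7) (leaf (nat_lit 36)) <|
br (nat_lit 0x8200c00010a87) (leaf (nat_lit 51)) nil) <|
br (nat_lit 0x8608c00040567) (node (nat_lit 24) (nat_lit 0) [] <|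
br (nat_lit 0x2000108c0) (leaf (nat_lit 36)) <|
br (nat_lit 0x8200c000103e7) (leaf (nat_lit 51)) nil) <|
br (nat_lit 0x21803000004081e) (node (nat_lit 24) (nat_lit 0) [] <|
br (nat_lit 0x200010b92) (leaf (nat_lit 38)) <|
br (nat_lit 0x8200c00010a55) (leaf (nat_lit 48)) nil) <|
br (nat_lit 0x201600600010cf2) (node (nat_lit 3072) (nat_lit 0) [] <|
br (nat_lit 0x200010c15) (leaf (nat_lit 25)) <|
br (nat_lit 0x8200c00010c0b) (leaf (nat_lit 22)) nil) <|
br (nat_lit 0x231400c000402dc) (node (nat_lit 24) (nat_lit 0) [] <|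
br (nat_lit 0x200010061) (leaf (nat_lit 38)) <|
br (nat_lit 0x8200c00010a87) (leaf (nat_lit 48)) nil) <|
br (nat_lit 0x230050c00010003) (node (nat_lit 3072) (nat_lit 0) [] <|
br (nat_lit 0x200010c00) (leaf (nat_lit 10)) <|
br (nat_lit 0x8200c00010c03) (leaf (nat_lit 52)) nil) <|
br (nat_lit 0x8050c48400010e02) (node (nat_lit 3072) (nat_lit 0) [] <|
br (nat_lit 0x200010c09) (leaf (nat_lit 22)) <|
br (nat_lit 0x8200c00010c14) (leaf (nat_lit 25)) nil) nil
def c121 : Cert := node (nat_lit 1968) (nat_lit 0) [nat_lit 0x1046] <|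
br (nat_lit 0x200030952) (node (nat_lit 240) (nat_lit 0) [nat_lit 0x402c0] <|
br (nat_lit 0x200020a33) (node (nat_lit 24) (nat_lit 0) [] <|
br (nat_lit 0x200010cbe) (leaf (nat_lit 32)) <|
br (nat_lit 0x8058000010766) (leaf (nat_lit 34)) nil) <|
br (nat_lit 0x208c00010da5) (node (nat_lit 3744) (nat_lit 0) [] <|
br (nat_lit 0x200010eb6) (leaf (nat_lit 26)) <|
br (nat_lit 0x8058000010eb3) (leaf (nat_lit 26)) nil) nil) <|
br (nat_lit 0x8600030c4d) (node (nat_lit 168) (nat_lit 0) [nat_lit 0x40180] <|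
br (nat_lit 0x200010384) (node (nat_lit 3048) (nat_lit 0) [] <|
br (nat_lit 0x200010bf9) (leaf (nat_lit 46)) <|
br (nat_lit 0x8030000010bf2) (leaf (nat_lit 17)) nil) <|
br (nat_lit 0x208c00020278) (node (nat_lit 24) (nat_lit 0) [] <|
br (nat_lit 0x200010f16) (leaf (nat_lit 19)) <|
br (nat_lit 0x8030000010846) (leaf (nat_lit 51)) nil) nil) <|
br (nat_lit 0x8c50c000300af) (node (nat_lit 168) (nat_lit 0) [nat_lit 0x40180] <|
br (nat_lit 0x200020b40) (node (nat_lit 24) (nat_lit 0) [] <|
br (nat_lit 0x200010f6b) (leaf (nat_lit 44)) <|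
br (nat_lit 0x80300000102a4) (leaf (nat_lit 50)) nil) <|
br (nat_lit 0x208c000101a9) (node (nat_lit 3048) (nat_lit 0) [] <|
br (nat_lit 0x200010bf5) (leaf (nat_lit 19)) <|
br (nat_lit 0x8030000010bec) (leaf (nat_lit 47)) nil) nil) nil
def c122 : Cert := node (nat_lit 192) (nat_lit 0) [nat_lit 0x43040183] <|
br (nat_lit 0x200010d89) (node (nat_lit 3336) (nat_lit 0) [] <|
br (nat_lit 0x200010d10) (leaf (nat_lit 18)) <|
br (nat_lit 0x8608030600010d0a) (leaf (nat_lit 21)) nil) <|
br (nat_lit 0x21823060002094f) (node (nat_lit 24) (nat_lit 0) [] <|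
br (nat_lit 0x2000108ce) (leaf (nat_lit 38)) <|
br (nat_lit 0x8608030600010073) (leaf (nat_lit 36)) nil) nil
def c123 : Cert := node (nat_lit 240) (nat_lit 0) [nat_lit 0x4b080082] <|
br (nat_lit 0x200020efb) (node (nat_lit 24) (nat_lit 0) [] <|
br (nat_lit 0x2000105ce) (leaf (nat_lit 40)) <|
br (nat_lit 0x96100104000108e6) (leaf (nat_lit 37)) nil) <|
br (nat_lit 0x86080306000109fd) (node (nat_lit 3360) (nat_lit 0) [] <|
br (nat_lit 0x200010d33) (leaf (nat_lit 48)) <|
br (nat_lit 0x9610010400010d36) (leaf (nat_lit 48)) nil) nil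
def c124 : Cert := node (nat_lit 192) (nat_lit 0) [nat_lit 0x43040183] <|
br (nat_lit 0x200020591) (node (nat_lit 24) (nat_lit 0) [] <|
br (nat_lit 0x200010f64) (leaf (nat_lit 23)) <|
br (nat_lit 0x8608030600010546) (leaf (nat_lit 50)) nil) <|
br (nat_lit 0x2182306000104a8) (node (nat_lit 3336) (nat_lit 0) [] <|
br (nat_lit 0x200010d18) (leaf (nat_lit 38)) <|
br (nat_lit 0x8608030600010d14) (leaf (nat_lit 16)) nil) nil
def c125 : Cert := node (nat_lit 168) (nat_lit 0) [nat_lit 0x40286242] <|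
br (nat_lit 0x200010016) (node (nat_lit 3840) (nat_lit 0) [] <|
br (nat_lit 0x200010f0e) (leaf (nat_lit 16)) <|
br (nat_lit 0x8050c48400010f05) (leaf (nat_lit 38)) nil) <|
br (nat_lit 0x8058000020409) (node (nat_lit 24) (nat_lit 0) [] <|
br (nat_lit 0x200010cb7) (leaf (nat_lit 23)) <|
br (nat_lit 0x8050c48400010d21) (leaf (nat_lit 50)) nil) nil
def c126 : Cert := node (nat_lit 168) (nat_lit 0) [nat_lit 0x40286242] <|
br (nat_lit 0x200020eb9) (node (nat_lit 24) (nat_lit 0) [] <|
br (nat_lit 0x200010e71) (leaf (nat_lit 37)) <|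
br (nat_lit 0x8050c48400010a51) (leaf (nat_lit 40)) nil) <|
br (nat_lit 0x8c50c00010464) (node (nat_lit 3840) (nat_lit 0) [] <|
br (nat_lit 0x200010f13) (leaf (nat_lit 48)) <|
br (nat_lit 0x8050c48400010f16) (leaf (nat_lit 48)) nil) nil
def c127 : Cert := node (nat_lit 864) (nat_lit 0) [nat_lit 0x402c0, nat_lit 0x46286] <|
br (nat_lit 0x20003063c) c125 <|
br (nat_lit 0x8230600030d79) c126 <|
br (nat_lit 0x8200c000309b6) (node (nat_lit 240) (nat_lit 0) [nat_lit 0x402c0] <|
br (nat_lit 0x200010b1a) (node (nat_lit 3744) (nat_lit 0) [] <|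
br (nat_lit 0x200010eaa) (leaf (nat_lit 18)) <|
br (nat_lit 0x8058000010eb1) (leaf (nat_lit 21)) nil) <|
br (nat_lit 0x8c50c000201fd) (node (nat_lit 24) (nat_lit 0) [] <|
br (nat_lit 0x2000105db) (leaf (nat_lit 36)) <|
br (nat_lit 0x8058000010d21) (leaf (nat_lit 38)) nil) nil) nil
def c128 : Cert := node (nat_lit 120) (nat_lit 0) [nat_lit 0x43, nat_lit 0x46286] <|
br (nat_lit 0x2000304e6) (node (nat_lit 24) (nat_lit 0) [nat_lit 0x43] <|
br (nat_lit 0x200010390) (node (nat_lit 96) (nat_lit 0) [] <|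
br (nat_lit 0x200010060) (leaf (nat_lit 13)) <|
br (nat_lit 0x8600010063) (leaf (nat_lit 53)) nil) <|
br (nat_lit 0x8c50c00020b88) (node (nat_lit 96) (nat_lit 0) [] <|
br (nat_lit 0x200010d23) (leaf (nat_lit 26)) <|
br (nat_lit 0x8600010d20) (leaf (nat_lit 48)) nil) nil) <|
br (nat_lit 0x208c000301c5) (node (nat_lit 24) (nat_lit 0) [nat_lit 0x43] <|
br (nat_lit 0x200020555) (node (nat_lit 96) (nat_lit 0) [] <|
br (nat_lit 0x200010d35) (leaf (nat_lit 48)) <|
br (nat_lit 0x8600010d2b) (leaf (nat_lit 53)) nil) <|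
br (nat_lit 0x218c50c000103d8) (node (nat_lit 96) (nat_lit 0) [] <|
br (nat_lit 0x200010075) (leaf (nat_lit 48)) <|
br (nat_lit 0x860001006b) (leaf (nat_lit 26)) nil) nil) <|
br (nat_lit 0x8030000030a99) (node (nat_lit 216) (nat_lit 0) [nat_lit 0x46286] <|
br (nat_lit 0x200020504) (node (nat_lit 24) (nat_lit 0) [] <|
br (nat_lit 0x2000108ef) (leaf (nat_lit 26)) <|
br (nat_lit 0x8c50c000108d8) (leaf (nat_lit 13)) nil) <|
br (nat_lit 0x8600010754) (node (nat_lit 288) (nat_lit 0) [] <|
br (nat_lit 0x200010134) (leaf (nat_lit 48)) <|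
br (nat_lit 0x8c50c00010129) (leaf (nat_lit 26)) nil) nil) nil
def c129 : Cert := node (nat_lit 480) (nat_lit 0) [nat_lit 0x1046, nat_lit 0x43, nat_lit 0x45104] <|
br (nat_lit 0x20001026e) c116 <|
br (nat_lit 0x81001b0330) c117 <|
br (nat_lit 0x8500120834) c119 <|
br (nat_lit 0x2101001b0432) c120 <|
br (nat_lit 0x2481001209d8) c121 <|
br (nat_lit 0x250100120d68) (node (nat_lit 1632) (nat_lit 0) [nat_lit 0x10c1183] <|
br (nat_lit 0x20003021b) c122 <|
br (nat_lit 0x8600030d53) c123 <|
br (nat_lit 0x208c00030b16) c124 nil) <|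
br (nat_lit 0x9208100120dc7) c127 <|
br (nat_lit 0x9651300010007) c128 nil
def c130 : Cert := node (nat_lit 120) (nat_lit 0) [] <|
br (nat_lit 0x200010ec2) (node (nat_lit 144) (nat_lit 0) [] <|
br (nat_lit 0x200010079) (leaf (nat_lit 5)) <|
br (nat_lit 0x8c080000108c5) (leaf (nat_lit 6)) nil) <|
br (nat_lit 0x8050c48400010d9f) (node (nat_lit 144) (nat_lit 0) [] <|
br (nat_lit 0x200010e6a) (leaf (nat_lit 33)) <|
br (nat_lit 0x8c08000010b97) (leaf (nat_lit 39)) nil) <|
br (nat_lit 0x8401400c00010a8a) (node (nat_lit 144) (nat_lit 0) [] <|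
br (nat_lit 0x20001009b) (leaf (nat_lit 18)) <|
br (nat_lit 0x8c08000010a45) (leaf (nat_lit 40)) nil) <|
br (nat_lit 0x258050200400010d27) (node (nat_lit 144) (nat_lit 0) [] <|
br (nat_lit 0x200010702) (leaf (nat_lit 26)) <|
br (nat_lit 0x8c08000010f57) (leaf (nat_lit 48)) nil) nil
def c131 : Cert := node (nat_lit 1704) (nat_lit 0) [] <|
br (nat_lit 0x2000106a8) (node (nat_lit 3840) (nat_lit 0) [] <|
br (nat_lit 0x200010ab8) (node (nat_lit 3888) (nat_lit 0) [] <|
br (nat_lit 0x20001000e) (leaf (nat_lit 2)) <|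
br (nat_lit 0x8401400c00010005) (leaf (nat_lit 5)) nil) <|
br (nat_lit 0x8050c48400010ab2) (node (nat_lit 3888) (nat_lit 0) [] <|
br (nat_lit 0x20001000e) (leaf (nat_lit 5)) <|
br (nat_lit 0x8401400c00010005) (leaf (nat_lit 13)) nil) nil) <|
br (nat_lit 0x8c080000106ab) (node (nat_lit 3840) (nat_lit 0) [] <|
br (nat_lit 0x200010ab8) (node (nat_lit 3888) (nat_lit 0) [] <|
br (nat_lit 0x20001000e) (leaf (nat_lit 3)) <|
br (nat_lit 0x8401400c00010005) (leaf (nat_lit 41)) nil) <|
br (nat_lit 0x8050c48400010ab2) (node (nat_lit 3888) (nat_lit 0) [] <|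
br (nat_lit 0x20001000e) (leaf (nat_lit 41)) <|
br (nat_lit 0x8401400c00010005) (leaf (nat_lit 53)) nil) nil) nil
def c132 : Cert := node (nat_lit 120) (nat_lit 0) [] <|
br (nat_lit 0x200010819) (node (nat_lit 192) (nat_lit 0) [] <|
br (nat_lit 0x20001028f) (leaf (nat_lit 10)) <|
br (nat_lit 0x8c08000010cd7) (leaf (nat_lit 11)) nil) <|
br (nat_lit 0x8050c48400010d9f) (node (nat_lit 192) (nat_lit 0) [] <|
br (nat_lit 0x2000103c4) (leaf (nat_lit 34)) <|
br (nat_lit 0x8c08000010dce) (leaf (nat_lit 35)) nil) <|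
br (nat_lit 0x8401400c00010325) (node (nat_lit 192) (nat_lit 0) [] <|
br (nat_lit 0x20001028f) (leaf (nat_lit 16)) <|
br (nat_lit 0x8c08000010cd7) (leaf (nat_lit 23)) nil) <|
br (nat_lit 0x258050200400010832) (node (nat_lit 192) (nat_lit 0) [] <|
br (nat_lit 0x2000103c4) (leaf (nat_lit 17)) <|
br (nat_lit 0x8c08000010dce) (leaf (nat_lit 39)) nil) nil
def c133 : Cert := node (nat_lit 24) (nat_lit 0) [] <|
br (nat_lit 0x2000106c6) (leaf (nat_lit 37)) <|
br (nat_lit 0x8c0800001085b) (leaf (nat_lit 19)) <|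
br (nat_lit 0x8050c48400010698) (leaf (nat_lit 36)) <|
br (nat_lit 0x8401400c00010521) (leaf (nat_lit 34)) <|
br (nat_lit 0x210050008000010f1a) (leaf (nat_lit 38)) <|
br (nat_lit 0x258050200400010990) (leaf (nat_lit 23)) <|
br (nat_lit 0x248c182304000103bb) (leaf (nat_lit 23)) <|
br (nat_lit 0x9210c182080000108f7) (leaf (nat_lit 36)) nil
def c134 : Cert := node (nat_lit 24) (nat_lit 0) [] <|
br (nat_lit 0x2000106c4) (leaf (nat_lit 32)) <|
br (nat_lit 0x8c080000108ec) (leaf (nat_lit 39)) <|
br (nat_lit 0x8050c48400010697) (leaf (nat_lit 36)) <|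
br (nat_lit 0x8401400c00010869) (leaf (nat_lit 19)) <|
br (nat_lit 0x2100500080000109a1) (leaf (nat_lit 51)) <|
br (nat_lit 0x2580502004000103b8) (leaf (nat_lit 26)) <|
br (nat_lit 0x248c18230400010f1f) (leaf (nat_lit 37)) <|
br (nat_lit 0x9210c18208000010515) (leaf (nat_lit 50)) nil
def c135 : Cert := node (nat_lit 120) (nat_lit 0) [] <|
br (nat_lit 0x200010890) (node (nat_lit 216) (nat_lit 0) [] <|
br (nat_lit 0x2000106c4) (leaf (nat_lit 10)) <|
br (nat_lit 0x8c080000106ac) (leaf (nat_lit 11)) nil) <|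
br (nat_lit 0x8050c48400010d9f) (node (nat_lit 216) (nat_lit 0) [] <|
br (nat_lit 0x200010006) (leaf (nat_lit 24)) <|
br (nat_lit 0x8c080000103b2) (leaf (nat_lit 37)) nil) <|
br (nat_lit 0x8401400c00010c77) (node (nat_lit 216) (nat_lit 0) [] <|
br (nat_lit 0x200010f12) (leaf (nat_lit 16)) <|
br (nat_lit 0x8c08000010f2a) (leaf (nat_lit 23)) nil) <|
br (nat_lit 0x258050200400010a0d) (node (nat_lit 216) (nat_lit 0) [] <|
br (nat_lit 0x20001099f) (leaf (nat_lit 33)) <|
br (nat_lit 0x8c08000010abf) (leaf (nat_lit 21)) nil) nil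
def c136 : Cert := node (nat_lit 24) (nat_lit 0) [] <|
br (nat_lit 0x2000106c4) (leaf (nat_lit 33)) <|
br (nat_lit 0x8c0800001051e) (leaf (nat_lit 40)) <|
br (nat_lit 0x8050c48400010869) (leaf (nat_lit 34)) <|
br (nat_lit 0x8401400c00010697) (leaf (nat_lit 36)) <|
br (nat_lit 0x21005000800001099a) (leaf (nat_lit 38)) <|
br (nat_lit 0x2580502004000103b8) (leaf (nat_lit 50)) <|
br (nat_lit 0x248c18230400010f19) (leaf (nat_lit 51)) <|
br (nat_lit 0x9210c182080000108f5) (leaf (nat_lit 48)) nil
def c137 : Cert := node (nat_lit 24) (nat_lit 0) [] <|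
br (nat_lit 0x200010547) (leaf (nat_lit 34)) <|
br (nat_lit 0x8c080000100c1) (leaf (nat_lit 51)) <|
br (nat_lit 0x8050c4840001090a) (leaf (nat_lit 32)) <|
br (nat_lit 0x8401400c00010967) (leaf (nat_lit 50)) <|
br (nat_lit 0x210050008000010626) (leaf (nat_lit 48)) <|
br (nat_lit 0x2580502004000107ba) (leaf (nat_lit 19)) <|
br (nat_lit 0x248c18230400010b35) (leaf (nat_lit 39)) <|
br (nat_lit 0x9210c18208000010685) (leaf (nat_lit 51)) nil
def c138 : Cert := node (nat_lit 120) (nat_lit 0) [] <|
br (nat_lit 0x200010137) (node (nat_lit 216) (nat_lit 0) [] <|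
br (nat_lit 0x200010f02) (leaf (nat_lit 30)) <|
br (nat_lit 0x8c080000106d1) (leaf (nat_lit 41)) nil) <|
br (nat_lit 0x8050c48400010231) (node (nat_lit 216) (nat_lit 0) [] <|
br (nat_lit 0x2000109a3) (leaf (nat_lit 33)) <|
br (nat_lit 0x8c08000010016) (leaf (nat_lit 39)) nil) <|
br (nat_lit 0x8401400c00010f52) (node (nat_lit 216) (nat_lit 0) [] <|
br (nat_lit 0x2000103a9) (leaf (nat_lit 32)) <|
br (nat_lit 0x8c08000010ac6) (leaf (nat_lit 46)) nil) <|
br (nat_lit 0x258050200400010471) (node (nat_lit 216) (nat_lit 0) [] <|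
br (nat_lit 0x2000106b2) (leaf (nat_lit 26)) <|
br (nat_lit 0x8c08000010f20) (leaf (nat_lit 48)) nil) nil
def c139 : Cert := node (nat_lit 24) (nat_lit 0) [] <|
br (nat_lit 0x200010bbe) (leaf (nat_lit 36)) <|
br (nat_lit 0x8c08000010f03) (leaf (nat_lit 38)) <|
br (nat_lit 0x8050c484000106b0) (leaf (nat_lit 26)) <|
br (nat_lit 0x8401400c00010010) (leaf (nat_lit 33)) <|
br (nat_lit 0x210050008000010e8a) (leaf (nat_lit 40)) <|
br (nat_lit 0x258050200400010a98) (leaf (nat_lit 36)) <|
br (nat_lit 0x248c18230400010100) (leaf (nat_lit 50)) <|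
br (nat_lit 0x9210c18208000010abf) (leaf (nat_lit 37)) nil
def c140 : Cert := node (nat_lit 24) (nat_lit 0) [] <|
br (nat_lit 0x2000106c4) (leaf (nat_lit 44)) <|
br (nat_lit 0x8c08000010b77) (leaf (nat_lit 51)) <|
br (nat_lit 0x8050c484000107e4) (leaf (nat_lit 37)) <|
br (nat_lit 0x8401400c00010211) (leaf (nat_lit 51)) <|
br (nat_lit 0x21005000800001099a) (leaf (nat_lit 44)) <|
br (nat_lit 0x2580502004000103b8) (leaf (nat_lit 34)) <|
br (nat_lit 0x248c18230400010f1f) (leaf (nat_lit 19)) <|
br (nat_lit 0x9210c1820800001075a) (leaf (nat_lit 38)) nil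
def c141 : Cert := node (nat_lit 1704) (nat_lit 0) [] <|
br (nat_lit 0x2000106b0) (node (nat_lit 3840) (nat_lit 0) [] <|
br (nat_lit 0x200010f00) (node (nat_lit 3888) (nat_lit 0) [] <|
br (nat_lit 0x200010ab6) (leaf (nat_lit 7)) <|
br (nat_lit 0x8401400c00010abf) (leaf (nat_lit 8)) nil) <|
br (nat_lit 0x8050c48400010f03) (node (nat_lit 3888) (nat_lit 0) [] <|
br (nat_lit 0x200010ab6) (leaf (nat_lit 15)) <|
br (nat_lit 0x8401400c00010abf) (leaf (nat_lit 14)) nil) nil) <|
br (nat_lit 0x8c080000106aa) (node (nat_lit 3840) (nat_lit 0) [] <|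
br (nat_lit 0x200010f00) (node (nat_lit 3888) (nat_lit 0) [] <|
br (nat_lit 0x200010ab6) (leaf (nat_lit 12)) <|
br (nat_lit 0x8401400c00010abf) (leaf (nat_lit 11)) nil) <|
br (nat_lit 0x8050c48400010f03) (node (nat_lit 3888) (nat_lit 0) [] <|
br (nat_lit 0x200010ab6) (leaf (nat_lit 31)) <|
br (nat_lit 0x8401400c00010abf) (leaf (nat_lit 43)) nil) nil) nil
def c142 : Cert := node (nat_lit 1704) (nat_lit 0) [] <|
br (nat_lit 0x200010ac7) (node (nat_lit 3840) (nat_lit 0) [] <|
br (nat_lit 0x200010f0e) (node (nat_lit 3888) (nat_lit 0) [] <|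
br (nat_lit 0x200010016) (leaf (nat_lit 24)) <|
br (nat_lit 0x8401400c00010013) (leaf (nat_lit 23)) nil) <|
br (nat_lit 0x8050c48400010f05) (node (nat_lit 3888) (nat_lit 0) [] <|
br (nat_lit 0x200010016) (leaf (nat_lit 35)) <|
br (nat_lit 0x8401400c00010013) (leaf (nat_lit 44)) nil) nil) <|
br (nat_lit 0x8c08000010ac2) (node (nat_lit 3840) (nat_lit 0) [] <|
br (nat_lit 0x200010f0e) (node (nat_lit 3888) (nat_lit 0) [] <|
br (nat_lit 0x200010016) (leaf (nat_lit 23)) <|
br (nat_lit 0x8401400c00010013) (leaf (nat_lit 22)) nil) <|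
br (nat_lit 0x8050c48400010f05) (node (nat_lit 3888) (nat_lit 0) [] <|
br (nat_lit 0x200010016) (leaf (nat_lit 44)) <|
br (nat_lit 0x8401400c00010013) (leaf (nat_lit 25)) nil) nil) nil
def c143 : Cert := node (nat_lit 3840) (nat_lit 0) [nat_lit 0x12c5141] <|
br (nat_lit 0x200020001) (node (nat_lit 1704) (nat_lit 0) [] <|
br (nat_lit 0x2000106b7) (node (nat_lit 3888) (nat_lit 0) [] <|
br (nat_lit 0x200010f08) (leaf (nat_lit 7)) <|
br (nat_lit 0x8401400c00010f02) (leaf (nat_lit 8)) nil) <|
br (nat_lit 0x8c080000106ae) (node (nat_lit 3888) (nat_lit 0) [] <|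
br (nat_lit 0x200010f08) (leaf (nat_lit 12)) <|
br (nat_lit 0x8401400c00010f02) (leaf (nat_lit 11)) nil) nil) nil
def c144 : Cert := node (nat_lit 1704) (nat_lit 0) [nat_lit 0x46040] <|
br (nat_lit 0x200020002) (node (nat_lit 3840) (nat_lit 0) [] <|
br (nat_lit 0x200010f0b) (node (nat_lit 3888) (nat_lit 0) [] <|
br (nat_lit 0x2000106ba) (leaf (nat_lit 17)) <|
br (nat_lit 0x8401400c000106bf) (leaf (nat_lit 21)) nil) <|
br (nat_lit 0x8050c48400010f15) (node (nat_lit 3888) (nat_lit 0) [] <|
br (nat_lit 0x2000106ba) (leaf (nat_lit 46)) <|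
br (nat_lit 0x8401400c000106bf) (leaf (nat_lit 45)) nil) nil) nil
def c145 : Cert := node (nat_lit 120) (nat_lit 0) [] <|
br (nat_lit 0x200010703) (node (nat_lit 144) (nat_lit 0) [] <|
br (nat_lit 0x200010302) (leaf (nat_lit 15)) <|
br (nat_lit 0x8c080000104b1) (leaf (nat_lit 52)) nil) <|
br (nat_lit 0x8050c4840001009c) (node (nat_lit 144) (nat_lit 0) [] <|
br (nat_lit 0x2000105e2) (leaf (nat_lit 34)) <|
br (nat_lit 0x8c08000010e36) (leaf (nat_lit 35)) nil) <|
br (nat_lit 0x8401400c00010f52) (node (nat_lit 144) (nat_lit 0) [] <|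
br (nat_lit 0x200010d63) (leaf (nat_lit 44)) <|
br (nat_lit 0x8c08000010a2d) (leaf (nat_lit 47)) nil) <|
br (nat_lit 0x258050200400010a40) (node (nat_lit 144) (nat_lit 0) [] <|
br (nat_lit 0x200010ae9) (leaf (nat_lit 17)) <|
br (nat_lit 0x8c08000010cd8) (leaf (nat_lit 39)) nil) nil
def c146 : Cert := node (nat_lit 3840) (nat_lit 0) [nat_lit 0x1286105101] <|
br (nat_lit 0x200020f16) (node (nat_lit 1704) (nat_lit 0) [] <|
br (nat_lit 0x2000106b1) (node (nat_lit 3888) (nat_lit 0) [] <|
br (nat_lit 0x200010abc) (leaf (nat_lit 26)) <|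
br (nat_lit 0x8401400c00010ac0) (leaf (nat_lit 26)) nil) <|
br (nat_lit 0x8c080000106bc) (node (nat_lit 3888) (nat_lit 0) [] <|
br (nat_lit 0x200010abc) (leaf (nat_lit 48)) <|
br (nat_lit 0x8401400c00010ac0) (leaf (nat_lit 48)) nil) nil) nil
def c147 : Cert := node (nat_lit 1704) (nat_lit 0) [nat_lit 0x46040] <|
br (nat_lit 0x200020f00) (node (nat_lit 3840) (nat_lit 0) [] <|
br (nat_lit 0x2000106b0) (node (nat_lit 3888) (nat_lit 0) [] <|
br (nat_lit 0x20001000c) (leaf (nat_lit 35)) <|
br (nat_lit 0x8401400c00010010) (leaf (nat_lit 44)) nil) <|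
br (nat_lit 0x8050c484000106aa) (node (nat_lit 3888) (nat_lit 0) [] <|
br (nat_lit 0x20001000c) (leaf (nat_lit 44)) <|
br (nat_lit 0x8401400c00010010) (leaf (nat_lit 25)) nil) nil) nil
def c148 : Cert := node (nat_lit 1704) (nat_lit 0) [nat_lit 0x46040] <|
br (nat_lit 0x200020014) (node (nat_lit 3840) (nat_lit 0) [] <|
br (nat_lit 0x200010f0a) (node (nat_lit 3888) (nat_lit 0) [] <|
br (nat_lit 0x2000106af) (leaf (nat_lit 18)) <|
br (nat_lit 0x8401400c000106a9) (leaf (nat_lit 20)) nil) <|
br (nat_lit 0x8050c48400010f11) (node (nat_lit 3888) (nat_lit 0) [] <|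
br (nat_lit 0x2000106af) (leaf (nat_lit 21)) <|
br (nat_lit 0x8401400c000106a9) (leaf (nat_lit 17)) nil) nil) nil
def c149 : Cert := node (nat_lit 1704) (nat_lit 0) [nat_lit 0x46040] <|
br (nat_lit 0x200020f01) (node (nat_lit 3840) (nat_lit 0) [] <|
br (nat_lit 0x2000106ac) (node (nat_lit 3888) (nat_lit 0) [] <|
br (nat_lit 0x200010015) (leaf (nat_lit 23)) <|
br (nat_lit 0x8401400c0001000b) (leaf (nat_lit 24)) nil) <|
br (nat_lit 0x8050c484000106b5) (node (nat_lit 3888) (nat_lit 0) [] <|
br (nat_lit 0x200010015) (leaf (nat_lit 22)) <|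
br (nat_lit 0x8401400c0001000b) (leaf (nat_lit 23)) nil) nil) nil
def c150 : Cert := node (nat_lit 120) (nat_lit 0) [] <|
br (nat_lit 0x200010e7a) (node (nat_lit 192) (nat_lit 0) [] <|
br (nat_lit 0x200010c07) (leaf (nat_lit 15)) <|
br (nat_lit 0x8c08000010acd) (leaf (nat_lit 52)) nil) <|
br (nat_lit 0x8050c4840001020f) (node (nat_lit 192) (nat_lit 0) [] <|
br (nat_lit 0x200010590) (leaf (nat_lit 24)) <|
br (nat_lit 0x8c08000010cd7) (leaf (nat_lit 37)) nil) <|
br (nat_lit 0x8401400c00010832) (node (nat_lit 192) (nat_lit 0) [] <|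
br (nat_lit 0x200010c07) (leaf (nat_lit 44)) <|
br (nat_lit 0x8c08000010acd) (leaf (nat_lit 47)) nil) <|
br (nat_lit 0x258050200400010e0f) (node (nat_lit 192) (nat_lit 0) [] <|
br (nat_lit 0x200010590) (leaf (nat_lit 33)) <|
br (nat_lit 0x8c08000010cd7) (leaf (nat_lit 21)) nil) nil
def c151 : Cert := node (nat_lit 3840) (nat_lit 0) [nat_lit 0x40286242] <|
br (nat_lit 0x200020003) (node (nat_lit 1704) (nat_lit 0) [] <|
br (nat_lit 0x2000106b2) (node (nat_lit 3888) (nat_lit 0) [] <|
br (nat_lit 0x200010f04) (leaf (nat_lit 26)) <|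
br (nat_lit 0x8401400c00010f0d) (leaf (nat_lit 26)) nil) <|
br (nat_lit 0x8c080000106b9) (node (nat_lit 3888) (nat_lit 0) [] <|
br (nat_lit 0x200010f04) (leaf (nat_lit 48)) <|
br (nat_lit 0x8401400c00010f0d) (leaf (nat_lit 48)) nil) nil) nil
def c152 : Cert := node (nat_lit 3840) (nat_lit 0) [nat_lit 0x1145084002] <|
br (nat_lit 0x200020ab9) (node (nat_lit 1704) (nat_lit 0) [] <|
br (nat_lit 0x2000106bb) (node (nat_lit 3888) (nat_lit 0) [] <|
br (nat_lit 0x200010004) (leaf (nat_lit 50)) <|
br (nat_lit 0x8401400c0001000d) (leaf (nat_lit 50)) nil) <|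
br (nat_lit 0x8c080000106be) (node (nat_lit 3888) (nat_lit 0) [] <|
br (nat_lit 0x200010004) (leaf (nat_lit 50)) <|
br (nat_lit 0x8401400c0001000d) (leaf (nat_lit 50)) nil) nil) nil
def c153 : Cert := node (nat_lit 3840) (nat_lit 0) [nat_lit 0x12c5141] <|
br (nat_lit 0x200020007) (node (nat_lit 1704) (nat_lit 0) [] <|
br (nat_lit 0x2000106ae) (node (nat_lit 3888) (nat_lit 0) [] <|
br (nat_lit 0x200010f02) (leaf (nat_lit 31)) <|
br (nat_lit 0x8401400c00010f08) (leaf (nat_lit 43)) nil) <|
br (nat_lit 0x8c080000106b7) (node (nat_lit 3888) (nat_lit 0) [] <|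
br (nat_lit 0x200010f02) (leaf (nat_lit 15)) <|
br (nat_lit 0x8401400c00010f08) (leaf (nat_lit 14)) nil) nil) nil
def c154 : Cert := node (nat_lit 2736) (nat_lit 1) [nat_lit 0x1245041, nat_lit 0x1004085, nat_lit 0x12c5141] <|
br (nat_lit 0x200200867) c130 <|
br (nat_lit 0x8000020f0f) c131 <|
br (nat_lit 0x830020021f) c132 <|
br (nat_lit 0x850060021d) c133 <|
br (nat_lit 0x87006007e2) c134 <|
br (nat_lit 0x8d00200a71) c135 <|
br (nat_lit 0x9300600210) c136 <|
br (nat_lit 0x21010060043e) c137 <|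
br (nat_lit 0x2181002002ae) c138 <|
br (nat_lit 0x2005006001bb) c139 <|
br (nat_lit 0x248700600693) c140 <|
br (nat_lit 0x208c00020010) c141 <|
br (nat_lit 0x210c00080014) (node (nat_lit 1704) (nat_lit 0) [nat_lit 0x46040] <|
br (nat_lit 0x200020abd) (node (nat_lit 480) (nat_lit 0) [nat_lit 0x40286242] <|
br (nat_lit 0x200020e7c) (node (nat_lit 120) (nat_lit 0) [] <|
br (nat_lit 0x2000104b0) (leaf (nat_lit 40)) <|
br (nat_lit 0x8050c4840001009c) (leaf (nat_lit 32)) nil) nil) nil) <|
br (nat_lit 0x218c00080003) (node (nat_lit 1704) (nat_lit 0) [nat_lit 0x46040] <|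
br (nat_lit 0x200020f04) (node (nat_lit 3840) (nat_lit 0) [nat_lit 0x1145045041] <|
br (nat_lit 0x200020ab7) (node (nat_lit 120) (nat_lit 0) [] <|
br (nat_lit 0x200010af8) (leaf (nat_lit 34)) <|
br (nat_lit 0x8401400c00010952) (leaf (nat_lit 37)) nil) nil) nil) <|
br (nat_lit 0x248d000806bd) c142 <|
br (nat_lit 0x250c00080f09) (node (nat_lit 1704) (nat_lit 0) [nat_lit 0x46040] <|
br (nat_lit 0x200020017) (node (nat_lit 3840) (nat_lit 0) [nat_lit 0x10c0282001] <|
br (nat_lit 0x2000206b4) (node (nat_lit 120) (nat_lit 0) [] <|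
br (nat_lit 0x200010890) (leaf (nat_lit 34)) <|
br (nat_lit 0x8401400c00010137) (leaf (nat_lit 37)) nil) nil) nil) <|
br (nat_lit 0x258c00010ab0) c143 <|
br (nat_lit 0x8210000040ab5) c144 <|
br (nat_lit 0x86100000806ac) (node (nat_lit 1704) (nat_lit 0) [nat_lit 0x441062c2] <|
br (nat_lit 0x200020015) (node (nat_lit 504) (nat_lit 0) [nat_lit 0x40286242] <|
br (nat_lit 0x20002083a) (node (nat_lit 120) (nat_lit 0) [] <|
br (nat_lit 0x200010325) (leaf (nat_lit 37)) <|
br (nat_lit 0x8050c48400010e0f) (leaf (nat_lit 34)) nil) nil) nil) <|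
br (nat_lit 0x8c10100200510) c145 <|
br (nat_lit 0x9210000060006) c146 <|
br (nat_lit 0x9410000040ab6) c147 <|
br (nat_lit 0x9610000080f17) (node (nat_lit 1704) (nat_lit 0) [nat_lit 0x46040] <|
br (nat_lit 0x200020abb) (node (nat_lit 3840) (nat_lit 0) [nat_lit 0x1084042005] <|
br (nat_lit 0x200020011) (node (nat_lit 120) (nat_lit 0) [] <|
br (nat_lit 0x2000102dc) (leaf (nat_lit 37)) <|
br (nat_lit 0x8401400c000102b8) (leaf (nat_lit 34)) nil) nil) nil) <|
br (nat_lit 0x96180000806bf) (node (nat_lit 1704) (nat_lit 0) [nat_lit 0x40286242] <|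
br (nat_lit 0x200020f15) (node (nat_lit 3840) (nat_lit 0) [nat_lit 0x430460c1080] <|
br (nat_lit 0x200020002) (node (nat_lit 120) (nat_lit 0) [] <|
br (nat_lit 0x200010111) (leaf (nat_lit 32)) <|
br (nat_lit 0x8401400c000109f0) (leaf (nat_lit 40)) nil) nil) nil) <|
br (nat_lit 0x9650000040abd) c148 <|
br (nat_lit 0x8058400040aba) c149 <|
br (nat_lit 0x9200700200975) c150 <|
br (nat_lit 0x248c10200060ab1) c151 <|
br (nat_lit 0x218c18400060f10) c152 <|
br (nat_lit 0x251218c00010ab3) c153 nil
def c155 : Cert := node (nat_lit 360) (nat_lit 0) [nat_lit 0x43183] <|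
br (nat_lit 0x200020180) (node (nat_lit 288) (nat_lit 0) [] <|
br (nat_lit 0x200010120) (node (nat_lit 384) (nat_lit 0) [] <|
br (nat_lit 0x2000100d8) (leaf (nat_lit 12)) <|
br (nat_lit 0x86306000100db) (leaf (nat_lit 11)) nil) <|
br (nat_lit 0x8c50c00010123) (node (nat_lit 384) (nat_lit 0) [] <|
br (nat_lit 0x2000100d8) (leaf (nat_lit 31)) <|
br (nat_lit 0x86306000100db) (leaf (nat_lit 43)) nil) nil) nil
def c156 : Cert := node (nat_lit 360) (nat_lit 0) [nat_lit 0x12c02800c0] <|
br (nat_lit 0x200020c51) (node (nat_lit 288) (nat_lit 0) [] <|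
br (nat_lit 0x200010c3d) (node (nat_lit 24) (nat_lit 0) [] <|
br (nat_lit 0x200010c16) (leaf (nat_lit 21)) <|
br (nat_lit 0x863060001088e) (leaf (nat_lit 38)) nil) <|
br (nat_lit 0x8c50c00010c34) (node (nat_lit 24) (nat_lit 0) [] <|
br (nat_lit 0x2000109b3) (leaf (nat_lit 47)) <|
br (nat_lit 0x8630600010d07) (leaf (nat_lit 46)) nil) nil) nil
def c157 : Cert := node (nat_lit 288) (nat_lit 0) [] <|
br (nat_lit 0x20001033b) (node (nat_lit 360) (nat_lit 0) [] <|
br (nat_lit 0x20001032d) (node (nat_lit 24) (nat_lit 0) [] <|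
br (nat_lit 0x200010042) (leaf (nat_lit 21)) <|
br (nat_lit 0x8630600010195) (leaf (nat_lit 48)) nil) <|
br (nat_lit 0x8c48c00010323) (node (nat_lit 24) (nat_lit 0) [] <|
br (nat_lit 0x200010135) (leaf (nat_lit 12)) <|
br (nat_lit 0x863060001006b) (leaf (nat_lit 21)) nil) nil) <|
br (nat_lit 0x8c50c00010345) (node (nat_lit 360) (nat_lit 0) [] <|
br (nat_lit 0x20001032d) (node (nat_lit 24) (nat_lit 0) [] <|
br (nat_lit 0x2000100e3) (leaf (nat_lit 48)) <|
br (nat_lit 0x8630600010056) (leaf (nat_lit 46)) nil) <|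
br (nat_lit 0x8c48c00010323) (node (nat_lit 24) (nat_lit 0) [] <|
br (nat_lit 0x200010023) (leaf (nat_lit 21)) <|
br (nat_lit 0x863060001017d) (leaf (nat_lit 48)) nil) nil) nil
def c158 : Cert := node (nat_lit 288) (nat_lit 0) [] <|
br (nat_lit 0x20001034d) (node (nat_lit 360) (nat_lit 0) [] <|
br (nat_lit 0x20001033e) (node (nat_lit 24) (nat_lit 0) [] <|
br (nat_lit 0x200010045) (leaf (nat_lit 44)) <|
br (nat_lit 0x8630600010125) (leaf (nat_lit 17)) nil) <|
br (nat_lit 0x8c48c00010335) (node (nat_lit 24) (nat_lit 0) [] <|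
br (nat_lit 0x2000100e6) (leaf (nat_lit 17)) <|
br (nat_lit 0x8630600010026) (leaf (nat_lit 22)) nil) nil) <|
br (nat_lit 0x8c50c00010356) (node (nat_lit 360) (nat_lit 0) [] <|
br (nat_lit 0x20001033e) (node (nat_lit 24) (nat_lit 0) [] <|
br (nat_lit 0x200010185) (leaf (nat_lit 45)) <|
br (nat_lit 0x863060001006e) (leaf (nat_lit 44)) nil) <|
br (nat_lit 0x8c48c00010335) (node (nat_lit 24) (nat_lit 0) [] <|
br (nat_lit 0x20001005a) (leaf (nat_lit 44)) <|
br (nat_lit 0x863060001016d) (leaf (nat_lit 17)) nil) nil) nil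
def c159 : Cert := node (nat_lit 288) (nat_lit 0) [] <|
br (nat_lit 0x20001034b) (node (nat_lit 360) (nat_lit 0) [] <|
br (nat_lit 0x20001031b) (node (nat_lit 24) (nat_lit 0) [] <|
br (nat_lit 0x200010032) (leaf (nat_lit 31)) <|
br (nat_lit 0x8630600010168) (leaf (nat_lit 35)) nil) <|
br (nat_lit 0x8c48c00010318) (node (nat_lit 24) (nat_lit 0) [] <|
br (nat_lit 0x200010123) (leaf (nat_lit 35)) <|
br (nat_lit 0x863060001004e) (leaf (nat_lit 11)) nil) nil) <|
br (nat_lit 0x8c50c00010348) (node (nat_lit 360) (nat_lit 0) [] <|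
br (nat_lit 0x20001031b) (node (nat_lit 24) (nat_lit 0) [] <|
br (nat_lit 0x200010183) (leaf (nat_lit 49)) <|
br (nat_lit 0x863060001001b) (leaf (nat_lit 31)) nil) <|
br (nat_lit 0x8c48c00010318) (node (nat_lit 24) (nat_lit 0) [] <|
br (nat_lit 0x200010060) (leaf (nat_lit 31)) <|
br (nat_lit 0x86306000100db) (leaf (nat_lit 35)) nil) nil) nil
def c160 : Cert := node (nat_lit 288) (nat_lit 0) [] <|
br (nat_lit 0x200010057) (node (nat_lit 360) (nat_lit 0) [] <|
br (nat_lit 0x200010018) (node (nat_lit 24) (nat_lit 0) [] <|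
br (nat_lit 0x200010168) (leaf (nat_lit 11)) <|
br (nat_lit 0x8630600010333) (leaf (nat_lit 35)) nil) <|
br (nat_lit 0x8c48c0001001b) (node (nat_lit 24) (nat_lit 0) [] <|
br (nat_lit 0x200010348) (leaf (nat_lit 27)) <|
br (nat_lit 0x8630600010123) (leaf (nat_lit 11)) nil) nil) <|
br (nat_lit 0x8c50c0001004e) (node (nat_lit 360) (nat_lit 0) [] <|
br (nat_lit 0x200010018) (node (nat_lit 24) (nat_lit 0) [] <|
br (nat_lit 0x200010318) (leaf (nat_lit 35)) <|
br (nat_lit 0x8630600010183) (leaf (nat_lit 31)) nil) <|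
br (nat_lit 0x8c48c0001001b) (node (nat_lit 24) (nat_lit 0) [] <|
br (nat_lit 0x2000100d8) (leaf (nat_lit 11)) <|
br (nat_lit 0x86306000103c3) (leaf (nat_lit 35)) nil) nil) nil
def c161 : Cert := node (nat_lit 288) (nat_lit 0) [nat_lit 0x43183] <|
br (nat_lit 0x200020194) (node (nat_lit 360) (nat_lit 0) [] <|
br (nat_lit 0x2000100e1) (node (nat_lit 384) (nat_lit 0) [] <|
br (nat_lit 0x200010129) (leaf (nat_lit 35)) <|
br (nat_lit 0x8630600010134) (leaf (nat_lit 44)) nil) <|
br (nat_lit 0x8c48c000100ec) (node (nat_lit 384) (nat_lit 0) [] <|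
br (nat_lit 0x200010129) (leaf (nat_lit 44)) <|
br (nat_lit 0x8630600010134) (leaf (nat_lit 25)) nil) nil) nil
def c162 : Cert := node (nat_lit 288) (nat_lit 0) [] <|
br (nat_lit 0x20001033b) (node (nat_lit 360) (nat_lit 0) [] <|
br (nat_lit 0x20001032d) (node (nat_lit 24) (nat_lit 0) [] <|
br (nat_lit 0x200010173) (leaf (nat_lit 48)) <|
br (nat_lit 0x863060001002d) (leaf (nat_lit 46)) nil) <|
br (nat_lit 0x8c48c00010323) (node (nat_lit 24) (nat_lit 0) [] <|
br (nat_lit 0x20001004d) (leaf (nat_lit 21)) <|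
br (nat_lit 0x86306000100ed) (leaf (nat_lit 48)) nil) nil) <|
br (nat_lit 0x8c50c00010345) (node (nat_lit 360) (nat_lit 0) [] <|
br (nat_lit 0x20001032d) (node (nat_lit 24) (nat_lit 0) [] <|
br (nat_lit 0x200010075) (leaf (nat_lit 46)) <|
br (nat_lit 0x863060001012b) (leaf (nat_lit 43)) nil) <|
br (nat_lit 0x8c48c00010323) (node (nat_lit 24) (nat_lit 0) [] <|
br (nat_lit 0x20001018b) (leaf (nat_lit 48)) <|
br (nat_lit 0x8630600010047) (leaf (nat_lit 46)) nil) nil) nil
def c163 : Cert := node (nat_lit 360) (nat_lit 0) [nat_lit 0x46246] <|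
br (nat_lit 0x2000200ed) (node (nat_lit 288) (nat_lit 0) [] <|
br (nat_lit 0x20001012b) (node (nat_lit 384) (nat_lit 0) [] <|
br (nat_lit 0x200010173) (leaf (nat_lit 17)) <|
br (nat_lit 0x863060001017d) (leaf (nat_lit 21)) nil) <|
br (nat_lit 0x8c50c00010135) (node (nat_lit 384) (nat_lit 0) [] <|
br (nat_lit 0x200010173) (leaf (nat_lit 46)) <|
br (nat_lit 0x863060001017d) (leaf (nat_lit 45)) nil) nil) nil
def c164 : Cert := node (nat_lit 288) (nat_lit 0) [] <|
br (nat_lit 0x20001012e) (node (nat_lit 360) (nat_lit 0) [] <|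
br (nat_lit 0x20001016d) (node (nat_lit 384) (nat_lit 0) [] <|
br (nat_lit 0x200010185) (leaf (nat_lit 25)) <|
br (nat_lit 0x863060001018e) (leaf (nat_lit 22)) nil) <|
br (nat_lit 0x8c48c00010176) (node (nat_lit 384) (nat_lit 0) [] <|
br (nat_lit 0x200010185) (leaf (nat_lit 22)) <|
br (nat_lit 0x863060001018e) (leaf (nat_lit 27)) nil) nil) <|
br (nat_lit 0x8c50c00010125) (node (nat_lit 360) (nat_lit 0) [] <|
br (nat_lit 0x20001016d) (node (nat_lit 384) (nat_lit 0) [] <|
br (nat_lit 0x200010185) (leaf (nat_lit 28)) <|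
br (nat_lit 0x863060001018e) (leaf (nat_lit 25)) nil) <|
br (nat_lit 0x8c48c00010176) (node (nat_lit 384) (nat_lit 0) [] <|
br (nat_lit 0x200010185) (leaf (nat_lit 25)) <|
br (nat_lit 0x863060001018e) (leaf (nat_lit 22)) nil) nil) nil
def c165 : Cert := node (nat_lit 288) (nat_lit 0) [] <|
br (nat_lit 0x20001034d) (node (nat_lit 360) (nat_lit 0) [] <|
br (nat_lit 0x20001033e) (node (nat_lit 24) (nat_lit 0) [] <|
br (nat_lit 0x200010176) (leaf (nat_lit 45)) <|
br (nat_lit 0x863060001005f) (leaf (nat_lit 44)) nil) <|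
br (nat_lit 0x8c48c00010335) (node (nat_lit 24) (nat_lit 0) [] <|
br (nat_lit 0x200010065) (leaf (nat_lit 44)) <|
br (nat_lit 0x863060001018e) (leaf (nat_lit 17)) nil) nil) <|
br (nat_lit 0x8c50c00010356) (node (nat_lit 360) (nat_lit 0) [] <|
br (nat_lit 0x20001033e) (node (nat_lit 24) (nat_lit 0) [] <|
br (nat_lit 0x20001001d) (leaf (nat_lit 28)) <|
br (nat_lit 0x86306000100dd) (leaf (nat_lit 45)) nil) <|
br (nat_lit 0x8c48c00010335) (node (nat_lit 24) (nat_lit 0) [] <|
br (nat_lit 0x20001012e) (leaf (nat_lit 45)) <|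
br (nat_lit 0x863060001003b) (leaf (nat_lit 44)) nil) nil) nil
def c166 : Cert := node (nat_lit 288) (nat_lit 0) [] <|
br (nat_lit 0x20001035b) (node (nat_lit 360) (nat_lit 0) [] <|
br (nat_lit 0x20001032b) (node (nat_lit 24) (nat_lit 0) [] <|
br (nat_lit 0x200010039) (leaf (nat_lit 48)) <|
br (nat_lit 0x863060001017e) (leaf (nat_lit 25)) nil) <|
br (nat_lit 0x8c48c0001032e) (node (nat_lit 24) (nat_lit 0) [] <|
br (nat_lit 0x200010133) (leaf (nat_lit 25)) <|
br (nat_lit 0x8630600010058) (leaf (nat_lit 48)) nil) nil) <|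
br (nat_lit 0x8c50c0001035e) (node (nat_lit 360) (nat_lit 0) [] <|
br (nat_lit 0x20001032b) (node (nat_lit 24) (nat_lit 0) [] <|
br (nat_lit 0x200010193) (leaf (nat_lit 35)) <|
br (nat_lit 0x863060001002b) (leaf (nat_lit 48)) nil) <|
br (nat_lit 0x8c48c0001032e) (node (nat_lit 24) (nat_lit 0) [] <|
br (nat_lit 0x200010076) (leaf (nat_lit 48)) <|
br (nat_lit 0x86306000100eb) (leaf (nat_lit 25)) nil) nil) nil
def c167 : Cert := node (nat_lit 288) (nat_lit 0) [] <|
br (nat_lit 0x20001012e) (node (nat_lit 360) (nat_lit 0) [] <|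
br (nat_lit 0x20001016d) (node (nat_lit 384) (nat_lit 0) [] <|
br (nat_lit 0x200010185) (leaf (nat_lit 28)) <|
br (nat_lit 0x863060001018e) (leaf (nat_lit 25)) nil) <|
br (nat_lit 0x8c48c00010176) (node (nat_lit 384) (nat_lit 0) [] <|
br (nat_lit 0x200010185) (leaf (nat_lit 25)) <|
br (nat_lit 0x863060001018e) (leaf (nat_lit 22)) nil) nil) <|
br (nat_lit 0x8c50c00010125) (node (nat_lit 360) (nat_lit 0) [] <|
br (nat_lit 0x20001016d) (node (nat_lit 384) (nat_lit 0) [] <|
br (nat_lit 0x200010185) (leaf (nat_lit 49)) <|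
br (nat_lit 0x863060001018e) (leaf (nat_lit 28)) nil) <|
br (nat_lit 0x8c48c00010176) (node (nat_lit 384) (nat_lit 0) [] <|
br (nat_lit 0x200010185) (leaf (nat_lit 28)) <|
br (nat_lit 0x863060001018e) (leaf (nat_lit 25)) nil) nil) nil
def c168 : Cert := br (nat_lit 0x86304000400dd) c167 <|
br (nat_lit 0x2012180000600ea) (node (nat_lit 288) (nat_lit 0) [nat_lit 0x43183] <|
br (nat_lit 0x200020192) (node (nat_lit 360) (nat_lit 0) [nat_lit 0x46246] <|
br (nat_lit 0x200020137) (node (nat_lit 384) (nat_lit 0) [] <|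
br (nat_lit 0x20001017f) (leaf (nat_lit 48)) <|
br (nat_lit 0x863060001017a) (leaf (nat_lit 48)) nil) nil) nil) nil
def c169 : Cert := node (nat_lit 216) (nat_lit 1) [nat_lit 0x41181, nat_lit 0x42105] <|
br (nat_lit 0x200060168) c155 <|
br (nat_lit 0x8000900bf0) c156 <|
br (nat_lit 0x82002003d5) c157 <|
br (nat_lit 0x84002003c5) c158 <|
br (nat_lit 0x8600080333) c159 <|
br (nat_lit 0x8c00080032) c160 <|
br (nat_lit 0x208000600ac2) (node (nat_lit 48) (nat_lit 0) [nat_lit 0x1183086] <|
br (nat_lit 0x200030d15) (leaf (nat_lit 38)) <|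
br (nat_lit 0x8630600030d37) (leaf (nat_lit 48)) <|
br (nat_lit 0x8c48c00010e58) (leaf (nat_lit 11)) <|
br (nat_lit 0x231418c00010c95) (leaf (nat_lit 47)) nil) <|
br (nat_lit 0x2100001806b2) (node (nat_lit 288) (nat_lit 0) [nat_lit 0x100a0c2040] <|
br (nat_lit 0x200020f36) (node (nat_lit 360) (nat_lit 0) [nat_lit 0x118a0c6081] <|
br (nat_lit 0x200020f0b) (node (nat_lit 24) (nat_lit 0) [] <|
br (nat_lit 0x200010d11) (leaf (nat_lit 38)) <|
br (nat_lit 0x8630600010d63) (leaf (nat_lit 21)) nil) nil) nil) <|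
br (nat_lit 0x218000600f02) (node (nat_lit 48) (nat_lit 0) [nat_lit 0x1189046] <|
br (nat_lit 0x200030c9c) (leaf (nat_lit 47)) <|
br (nat_lit 0x8630600030d5e) (leaf (nat_lit 44)) <|
br (nat_lit 0x8c50c00010d29) (leaf (nat_lit 28)) <|
br (nat_lit 0x231218c00010d13) (leaf (nat_lit 38)) nil) <|
br (nat_lit 0x2480006006b0) (node (nat_lit 72) (nat_lit 0) [nat_lit 0x1009080] <|
br (nat_lit 0x200030e3c) (leaf (nat_lit 38)) <|
br (nat_lit 0x8630600010e6e) (leaf (nat_lit 22)) <|
br (nat_lit 0x8c48c00030d67) (leaf (nat_lit 44)) <|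
br (nat_lit 0x231448c00010d0d) (leaf (nat_lit 47)) nil) <|
br (nat_lit 0x20820018017c) c161 <|
br (nat_lit 0x21020012017e) (node (nat_lit 288) (nat_lit 0) [nat_lit 0x41182] <|
br (nat_lit 0x200020136) (node (nat_lit 360) (nat_lit 0) [nat_lit 0x43183] <|
br (nat_lit 0x200020196) (node (nat_lit 384) (nat_lit 0) [] <|
br (nat_lit 0x2000100ee) (leaf (nat_lit 48)) <|
br (nat_lit 0x86306000100eb) (leaf (nat_lit 48)) nil) nil) nil) <|
br (nat_lit 0x2182000400e3) (node (nat_lit 288) (nat_lit 0) [nat_lit 0x41105] <|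
br (nat_lit 0x20002017d) (node (nat_lit 360) (nat_lit 0) [nat_lit 0x43183] <|
br (nat_lit 0x20002018b) (node (nat_lit 384) (nat_lit 0) [] <|
br (nat_lit 0x200010135) (leaf (nat_lit 17)) <|
br (nat_lit 0x863060001012b) (leaf (nat_lit 21)) nil) nil) nil) <|
br (nat_lit 0x2303002003cb) c162 <|
br (nat_lit 0x248200180195) c163 <|
br (nat_lit 0x2184000400e6) c164 <|
br (nat_lit 0x2305002003ce) c165 <|
br (nat_lit 0x20060060088e) (node (nat_lit 48) (nat_lit 0) [nat_lit 0x1183086081] <|
br (nat_lit 0x200030b50) (leaf (nat_lit 47)) <|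
br (nat_lit 0x8630600030c43) (leaf (nat_lit 48)) <|
br (nat_lit 0x8c50c00010ee9) (leaf (nat_lit 31)) <|
br (nat_lit 0x231218c00010c15) (leaf (nat_lit 38)) nil) <|
br (nat_lit 0x2586000100db) (node (nat_lit 288) (nat_lit 0) [nat_lit 0x43183] <|
br (nat_lit 0x200020183) (node (nat_lit 360) (nat_lit 0) [nat_lit 0x46246] <|
br (nat_lit 0x200020123) (node (nat_lit 384) (nat_lit 0) [] <|
br (nat_lit 0x20001016b) (leaf (nat_lit 43)) <|
br (nat_lit 0x8630600010168) (leaf (nat_lit 31)) nil) nil) nil) <|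
br (nat_lit 0x2512000100d8) (node (nat_lit 288) (nat_lit 0) [nat_lit 0x43183] <|
br (nat_lit 0x200020180) (node (nat_lit 360) (nat_lit 0) [nat_lit 0x46246] <|
br (nat_lit 0x200020120) (node (nat_lit 384) (nat_lit 0) [] <|
br (nat_lit 0x200010168) (leaf (nat_lit 12)) <|
br (nat_lit 0x863060001016b) (leaf (nat_lit 11)) nil) nil) nil) <|
br (nat_lit 0x9618000180c4a) (node (nat_lit 288) (nat_lit 0) [nat_lit 0x1080080080] <|
br (nat_lit 0x200020eec) (node (nat_lit 360) (nat_lit 0) [nat_lit 0x12c02800c0] <|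
br (nat_lit 0x200020bfc) (node (nat_lit 24) (nat_lit 0) [] <|
br (nat_lit 0x200010e0b) (leaf (nat_lit 46)) <|
br (nat_lit 0x8630600010edf) (leaf (nat_lit 47)) nil) nil) nil) <|
br (nat_lit 0x8610300300343) c166 <|
br (nat_lit 0x86302000400ed) (node (nat_lit 288) (nat_lit 0) [nat_lit 0x41105] <|
br (nat_lit 0x20002017d) (node (nat_lit 360) (nat_lit 0) [nat_lit 0x43183] <|
br (nat_lit 0x20002018b) (node (nat_lit 384) (nat_lit 0) [] <|
br (nat_lit 0x200010135) (leaf (nat_lit 46)) <|
br (nat_lit 0x863060001012b) (leaf (nat_lit 45)) nil) nil) nil) c168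
def c170 : Cert := node (nat_lit 24) (nat_lit 0) [nat_lit 0x43, nat_lit 0x1005006, nat_lit 0x4b285104] <|
br (nat_lit 0x2000100d7) (node (nat_lit 96) (nat_lit 0) [] <|
br (nat_lit 0x200010060) (leaf (nat_lit 3)) <|
br (nat_lit 0x8600010063) (leaf (nat_lit 9)) nil) <|
br (nat_lit 0x230400080806) (node (nat_lit 96) (nat_lit 0) [] <|
br (nat_lit 0x20001034d) (leaf (nat_lit 11)) <|
br (nat_lit 0x8600010356) (leaf (nat_lit 6)) nil) <|
br (nat_lit 0x805000008050e) (node (nat_lit 96) (nat_lit 0) [] <|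
br (nat_lit 0x20001088b) (leaf (nat_lit 6)) <|
br (nat_lit 0x8600010888) (leaf (nat_lit 3)) nil) <|
br (nat_lit 0x258c10400080491) (node (nat_lit 96) (nat_lit 0) [] <|
br (nat_lit 0x200010131) (leaf (nat_lit 11)) <|
br (nat_lit 0x860001012a) (leaf (nat_lit 6)) nil) <|
br (nat_lit 0x8c5043040001011f) (node (nat_lit 96) (nat_lit 0) [] <|
br (nat_lit 0x20001006a) (leaf (nat_lit 8)) <|
br (nat_lit 0x8600010071) (leaf (nat_lit 11)) nil) <|
br (nat_lit 0x9631210c00010162) (node (nat_lit 96) (nat_lit 0) [] <|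
br (nat_lit 0x20001006e) (leaf (nat_lit 8)) <|
br (nat_lit 0x8600010065) (leaf (nat_lit 11)) nil) nil
def c171 : Cert := node (nat_lit 1008) (nat_lit 0) [nat_lit 0x40280, nat_lit 0x44040140, nat_lit 0x49146082] <|
br (nat_lit 0x200080c6a) (node (nat_lit 24) (nat_lit 0) [] <|
br (nat_lit 0x20001086e) (leaf (nat_lit 41)) <|
br (nat_lit 0x805000001050e) (leaf (nat_lit 40)) nil) <|
br (nat_lit 0x8600010ea5) (node (nat_lit 2184) (nat_lit 0) [] <|
br (nat_lit 0x20001088b) (leaf (nat_lit 42)) <|
br (nat_lit 0x8050000010888) (leaf (nat_lit 6)) nil) <|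
br (nat_lit 0x230400080201) (node (nat_lit 216) (nat_lit 0) [] <|
br (nat_lit 0x200010ae0) (leaf (nat_lit 37)) <|
br (nat_lit 0x8050000010504) (leaf (nat_lit 39)) nil) <|
br (nat_lit 0x8030200080aa5) (node (nat_lit 216) (nat_lit 0) [] <|
br (nat_lit 0x20001048b) (leaf (nat_lit 39)) <|
br (nat_lit 0x8050000010d7f) (leaf (nat_lit 37)) nil) <|
br (nat_lit 0x8c50430400010003) (node (nat_lit 2184) (nat_lit 0) [] <|
br (nat_lit 0x200010892) (leaf (nat_lit 24)) <|
br (nat_lit 0x8050000010899) (leaf (nat_lit 35)) nil) <|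
br (nat_lit 0x9631210c000109a8) (node (nat_lit 2184) (nat_lit 0) [] <|
br (nat_lit 0x200010896) (leaf (nat_lit 24)) <|
br (nat_lit 0x805000001088d) (leaf (nat_lit 35)) nil) nil
def c172 : Cert := node (nat_lit 504) (nat_lit 0) [nat_lit 0x12c5106082] <|
br (nat_lit 0x200010008) (node (nat_lit 840) (nat_lit 0) [nat_lit 0x4318a183] <|
br (nat_lit 0x20001035d) (leaf (nat_lit 47)) <|
br (nat_lit 0x8050030400020e6b) (leaf (nat_lit 19)) <|
br (nat_lit 0x8631430600010353) (leaf (nat_lit 19)) <|
br (nat_lit 0x231218210000020e6e) (leaf (nat_lit 33)) nil) <|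
br (nat_lit 0x860006024e) (node (nat_lit 24) (nat_lit 0) [nat_lit 0x44102085141] <|
br (nat_lit 0x2000100d0) (leaf (nat_lit 52)) <|
br (nat_lit 0x80500304000309fa) (leaf (nat_lit 51)) <|
br (nat_lit 0x231218210000010668) (leaf (nat_lit 34)) <|
br (nat_lit 0x248c01650200010ca7) (leaf (nat_lit 39)) nil) <|
br (nat_lit 0x8c50400010b15) (node (nat_lit 840) (nat_lit 0) [nat_lit 0x4318a183] <|
br (nat_lit 0x20001034f) (leaf (nat_lit 48)) <|
br (nat_lit 0x8050030400020c4e) (leaf (nat_lit 35)) <|
br (nat_lit 0x8631430600010349) (leaf (nat_lit 48)) <|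
br (nat_lit 0x231218210000020c57) (leaf (nat_lit 48)) nil) <|
br (nat_lit 0x200c48200010573) (node (nat_lit 840) (nat_lit 0) [nat_lit 0x4318a183] <|
br (nat_lit 0x200020c5a) (leaf (nat_lit 43)) <|
br (nat_lit 0x805003040001034a) (leaf (nat_lit 46)) <|
br (nat_lit 0x8410058400020e64) (leaf (nat_lit 46)) <|
br (nat_lit 0x231218210000010350) (leaf (nat_lit 17)) nil) nil
def c173 : Cert := node (nat_lit 168) (nat_lit 0) [nat_lit 0x43, nat_lit 0x40280] <|
br (nat_lit 0x2000100ad) (node (nat_lit 96) (nat_lit 0) [nat_lit 0x43] <|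
br (nat_lit 0x200020898) (leaf (nat_lit 46)) <|
br (nat_lit 0x8600020894) (leaf (nat_lit 43)) <|
br (nat_lit 0x218050000010070) (leaf (nat_lit 46)) <|
br (nat_lit 0x841005840001006c) (leaf (nat_lit 17)) nil) <|
br (nat_lit 0x230500060b04) (node (nat_lit 216) (nat_lit 0) [nat_lit 0x1082004002] <|
br (nat_lit 0x200010a56) (leaf (nat_lit 52)) <|
br (nat_lit 0x8600030d6f) (leaf (nat_lit 51)) <|
br (nat_lit 0x21805000001012c) (leaf (nat_lit 34)) <|
br (nat_lit 0x201400600010555) (leaf (nat_lit 39)) nil) <|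
br (nat_lit 0x96102081000101a2) (node (nat_lit 96) (nat_lit 0) [nat_lit 0x43] <|
br (nat_lit 0x200010074) (leaf (nat_lit 47)) <|
br (nat_lit 0x8600010069) (leaf (nat_lit 19)) <|
br (nat_lit 0x8050000020e61) (leaf (nat_lit 19)) <|
br (nat_lit 0x21805000002089c) (leaf (nat_lit 33)) nil) <|
br (nat_lit 0x9608010400010000) (node (nat_lit 96) (nat_lit 0) [nat_lit 0x43] <|
br (nat_lit 0x200010073) (leaf (nat_lit 48)) <|
br (nat_lit 0x8600010076) (leaf (nat_lit 48)) <|
br (nat_lit 0x8050000020e6e) (leaf (nat_lit 48)) <|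
br (nat_lit 0x21805000002089b) (leaf (nat_lit 35)) nil) nil
def c174 : Cert := node (nat_lit 1368) (nat_lit 0) [nat_lit 0x12c0100, nat_lit 0x44040140] <|
br (nat_lit 0x200080c22) (node (nat_lit 24) (nat_lit 0) [] <|
br (nat_lit 0x2000100c2) (leaf (nat_lit 44)) <|
br (nat_lit 0x8031230000010a6a) (leaf (nat_lit 47)) nil) <|
br (nat_lit 0x8600010f22) (node (nat_lit 2880) (nat_lit 0) [] <|
br (nat_lit 0x200010b4e) (leaf (nat_lit 15)) <|
br (nat_lit 0x8031230000010b45) (leaf (nat_lit 31)) nil) <|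
br (nat_lit 0x230400080142) (node (nat_lit 216) (nat_lit 0) [] <|
br (nat_lit 0x200010490) (leaf (nat_lit 44)) <|
br (nat_lit 0x8031230000010a69) (leaf (nat_lit 47)) nil) <|
br (nat_lit 0x805000008033d) (node (nat_lit 168) (nat_lit 0) [] <|
br (nat_lit 0x20001093a) (leaf (nat_lit 32)) <|
br (nat_lit 0x80312300000106e5) (leaf (nat_lit 46)) nil) <|
br (nat_lit 0x250c014000102d5) (node (nat_lit 2880) (nat_lit 0) [] <|
br (nat_lit 0x200010b40) (leaf (nat_lit 5)) <|
br (nat_lit 0x8031230000010b43) (leaf (nat_lit 41)) nil) <|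
br (nat_lit 0x9631210c000107d6) (node (nat_lit 2880) (nat_lit 0) [] <|
br (nat_lit 0x200010b4a) (leaf (nat_lit 15)) <|
br (nat_lit 0x8031230000010b51) (leaf (nat_lit 31)) nil) nil
def c175 : Cert := node (nat_lit 24) (nat_lit 0) [nat_lit 0x43, nat_lit 0x1005006, nat_lit 0x4b285104] <|
br (nat_lit 0x2000100d2) (node (nat_lit 96) (nat_lit 0) [] <|
br (nat_lit 0x200010060) (leaf (nat_lit 4)) <|
br (nat_lit 0x8600010063) (leaf (nat_lit 30)) nil) <|
br (nat_lit 0x230400080386) (node (nat_lit 96) (nat_lit 0) [] <|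
br (nat_lit 0x200010125) (leaf (nat_lit 45)) <|
br (nat_lit 0x860001012e) (leaf (nat_lit 28)) nil) <|
br (nat_lit 0x80500000808ce) (node (nat_lit 96) (nat_lit 0) [] <|
br (nat_lit 0x200010e5b) (leaf (nat_lit 30)) <|
br (nat_lit 0x8600010e58) (leaf (nat_lit 45)) nil) <|
br (nat_lit 0x258c104000806d1) (node (nat_lit 96) (nat_lit 0) [] <|
br (nat_lit 0x200010359) (leaf (nat_lit 45)) <|
br (nat_lit 0x8600010352) (leaf (nat_lit 28)) nil) <|
br (nat_lit 0x8c5043040001011a) (node (nat_lit 96) (nat_lit 0) [] <|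
br (nat_lit 0x20001006a) (leaf (nat_lit 28)) <|
br (nat_lit 0x8600010071) (leaf (nat_lit 49)) nil) <|
br (nat_lit 0x9631210c00010167) (node (nat_lit 96) (nat_lit 0) [] <|
br (nat_lit 0x20001006e) (leaf (nat_lit 28)) <|
br (nat_lit 0x8600010065) (leaf (nat_lit 49)) nil) nil
def c176 : Cert := node (nat_lit 1632) (nat_lit 0) [nat_lit 0x1101140] <|
br (nat_lit 0x200060cd8) (node (nat_lit 24) (nat_lit 0) [nat_lit 0x44085041] <|
br (nat_lit 0x2000103dd) (leaf (nat_lit 6)) <|
br (nat_lit 0x218230600010cb3) (leaf (nat_lit 43)) <|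
br (nat_lit 0x9610010400030e86) (leaf (nat_lit 39)) <|
br (nat_lit 0x218c5940820001092c) (leaf (nat_lit 17)) nil) <|
br (nat_lit 0x8600010663) (node (nat_lit 3336) (nat_lit 0) [nat_lit 0x1101140] <|
br (nat_lit 0x200020f03) (leaf (nat_lit 42)) <|
br (nat_lit 0x9610010400020d34) (leaf (nat_lit 43)) <|
br (nat_lit 0x8050c48400010d1d) (leaf (nat_lit 43)) <|
br (nat_lit 0x218c59408200010d13) (leaf (nat_lit 14)) nil) <|
br (nat_lit 0x8608c00010d71) (node (nat_lit 3336) (nat_lit 0) [nat_lit 0x1101140] <|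
br (nat_lit 0x200010d0b) (leaf (nat_lit 42)) <|
br (nat_lit 0x218230600020f09) (leaf (nat_lit 20)) <|
br (nat_lit 0x9610010400020f14) (leaf (nat_lit 6)) <|
br (nat_lit 0x8608030600010d08) (leaf (nat_lit 6)) nil) <|
br (nat_lit 0x86016300000109fb) (node (nat_lit 3336) (nat_lit 0) [nat_lit 0x1101140] <|
br (nat_lit 0x200020d23) (leaf (nat_lit 14)) <|
br (nat_lit 0x218230600010d11) (leaf (nat_lit 20)) <|
br (nat_lit 0x9610010400010d1c) (leaf (nat_lit 17)) <|
br (nat_lit 0x8050c48400020f15) (leaf (nat_lit 17)) nil) nil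
def c177 : Cert := node (nat_lit 1056) (nat_lit 0) [nat_lit 0x41006, nat_lit 0x44040140] <|
br (nat_lit 0x200060aa0) (node (nat_lit 24) (nat_lit 0) [] <|
br (nat_lit 0x200010d1e) (leaf (nat_lit 40)) <|
br (nat_lit 0x8200c00010844) (leaf (nat_lit 51)) nil) <|
br (nat_lit 0x86000207ce) (node (nat_lit 120) (nat_lit 0) [] <|
br (nat_lit 0x200010ed9) (leaf (nat_lit 41)) <|
br (nat_lit 0x8200c00010558) (leaf (nat_lit 39)) nil) <|
br (nat_lit 0x208c00060d58) (node (nat_lit 24) (nat_lit 0) [] <|
br (nat_lit 0x200010d24) (leaf (nat_lit 52)) <|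
br (nat_lit 0x8200c00010f76) (leaf (nat_lit 37)) nil) <|
br (nat_lit 0x8030000060367) (node (nat_lit 24) (nat_lit 0) [] <|
br (nat_lit 0x2000108ac) (leaf (nat_lit 51)) <|
br (nat_lit 0x8200c00010f0c) (leaf (nat_lit 19)) nil) <|
br (nat_lit 0x823060001025a) (node (nat_lit 3072) (nat_lit 0) [] <|
br (nat_lit 0x200010c03) (leaf (nat_lit 43)) <|
br (nat_lit 0x8200c00010c00) (leaf (nat_lit 11)) nil) <|
br (nat_lit 0x8c50c00010744) (node (nat_lit 3072) (nat_lit 0) [] <|
br (nat_lit 0x200010c09) (leaf (nat_lit 23)) <|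
br (nat_lit 0x8200c00010c14) (leaf (nat_lit 44)) nil) <|
br (nat_lit 0x218030000010425) (node (nat_lit 3072) (nat_lit 0) [] <|
br (nat_lit 0x200010c15) (leaf (nat_lit 46)) <|
br (nat_lit 0x8200c00010c0b) (leaf (nat_lit 17)) nil) <|
br (nat_lit 0x231400c00020d6c) (node (nat_lit 120) (nat_lit 0) [] <|
br (nat_lit 0x200010558) (leaf (nat_lit 34)) <|
br (nat_lit 0x8200c00010087) (leaf (nat_lit 15)) nil) <|
br (nat_lit 0x8631430600020892) (node (nat_lit 120) (nat_lit 0) [] <|
br (nat_lit 0x200010ed9) (leaf (nat_lit 23)) <|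
br (nat_lit 0x8200c00010dcf) (leaf (nat_lit 39)) nil) nil
def c178 : Cert := node (nat_lit 1080) (nat_lit 0) [nat_lit 0x1040286] <|
br (nat_lit 0x200030901) (node (nat_lit 120) (nat_lit 0) [nat_lit 0x46286] <|
br (nat_lit 0x20001093c) (node (nat_lit 288) (nat_lit 0) [] <|
br (nat_lit 0x200010125) (leaf (nat_lit 48)) <|
br (nat_lit 0x8c50c0001012e) (leaf (nat_lit 26)) nil) <|
br (nat_lit 0x8200c00020253) (node (nat_lit 24) (nat_lit 0) [] <|
br (nat_lit 0x200010a84) (leaf (nat_lit 51)) <|
br (nat_lit 0x8c50c00010306) (leaf (nat_lit 34)) nil) nil) <|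
br (nat_lit 0x86000307b1) (node (nat_lit 192) (nat_lit 0) [nat_lit 0x41006] <|
br (nat_lit 0x200020894) (node (nat_lit 24) (nat_lit 0) [] <|
br (nat_lit 0x2000103e2) (leaf (nat_lit 51)) <|
br (nat_lit 0x8200c00010bec) (leaf (nat_lit 46)) nil) <|
br (nat_lit 0x8c50c000109a2) (node (nat_lit 3072) (nat_lit 0) [] <|
br (nat_lit 0x200010c0c) (leaf (nat_lit 19)) <|
br (nat_lit 0x8200c00010c10) (leaf (nat_lit 47)) nil) nil) <|
br (nat_lit 0x80300000304aa) (node (nat_lit 192) (nat_lit 0) [nat_lit 0x41006] <|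
br (nat_lit 0x20001025d) (node (nat_lit 3072) (nat_lit 0) [] <|
br (nat_lit 0x200010c12) (leaf (nat_lit 48)) <|
br (nat_lit 0x8200c00010c17) (leaf (nat_lit 48)) nil) <|
br (nat_lit 0x8c50c00020ac2) (node (nat_lit 24) (nat_lit 0) [] <|
br (nat_lit 0x200010d0e) (leaf (nat_lit 50)) <|
br (nat_lit 0x8200c00010963) (leaf (nat_lit 38)) nil) nil) nil
def c179 : Cert := node (nat_lit 1368) (nat_lit 0) [nat_lit 0x402c0, nat_lit 0x44040140] <|
br (nat_lit 0x200060698) (node (nat_lit 24) (nat_lit 0) [] <|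
br (nat_lit 0x200010c09) (leaf (nat_lit 38)) <|
br (nat_lit 0x8058000010e79) (leaf (nat_lit 44)) nil) <|
br (nat_lit 0x8600060811) (node (nat_lit 24) (nat_lit 0) [] <|
br (nat_lit 0x200010c09) (leaf (nat_lit 48)) <|
br (nat_lit 0x80580000102a7) (leaf (nat_lit 50)) nil) <|
br (nat_lit 0x8200c000604ca) (node (nat_lit 24) (nat_lit 0) [] <|
br (nat_lit 0x200010b94) (leaf (nat_lit 36)) <|
br (nat_lit 0x80580000104ff) (leaf (nat_lit 51)) nil) <|
br (nat_lit 0x200c0060001089b) (node (nat_lit 3744) (nat_lit 0) [] <|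
br (nat_lit 0x200010eb5) (leaf (nat_lit 48)) <|
br (nat_lit 0x8058000010eab) (leaf (nat_lit 26)) nil) <|
br (nat_lit 0x20160060002028a) (node (nat_lit 120) (nat_lit 0) [] <|
br (nat_lit 0x20001062b) (leaf (nat_lit 47)) <|
br (nat_lit 0x8058000010c5b) (leaf (nat_lit 34)) nil) <|
br (nat_lit 0x208030600020435) (node (nat_lit 120) (nat_lit 0) [] <|
br (nat_lit 0x2000103f2) (leaf (nat_lit 37)) <|
br (nat_lit 0x8058000010c5b) (leaf (nat_lit 44)) nil) <|
br (nat_lit 0x208050c00010ee1) (node (nat_lit 3744) (nat_lit 0) [] <|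
br (nat_lit 0x200010ea0) (leaf (nat_lit 10)) <|
br (nat_lit 0x8058000010ea3) (leaf (nat_lit 52)) nil) <|
br (nat_lit 0x8050c4840002007b) (node (nat_lit 120) (nat_lit 0) [] <|
br (nat_lit 0x200010e9a) (leaf (nat_lit 40)) <|
br (nat_lit 0x805800001062b) (leaf (nat_lit 33)) nil) <|
br (nat_lit 0x8608030600010006) (node (nat_lit 3744) (nat_lit 0) [] <|
br (nat_lit 0x200010ea9) (leaf (nat_lit 21)) <|
br (nat_lit 0x8058000010eb4) (leaf (nat_lit 45)) nil) nil
def c180 : Cert := node (nat_lit 168) (nat_lit 0) [nat_lit 0x40286242] <|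
br (nat_lit 0x2000107d4) (node (nat_lit 3840) (nat_lit 0) [] <|
br (nat_lit 0x200010f0a) (leaf (nat_lit 23)) <|
br (nat_lit 0x8050c48400010f11) (leaf (nat_lit 44)) nil) <|
br (nat_lit 0x80580000200e4) (node (nat_lit 24) (nat_lit 0) [] <|
br (nat_lit 0x2000102ce) (leaf (nat_lit 36)) <|
br (nat_lit 0x8050c48400010926) (leaf (nat_lit 32)) nil) nil
def c181 : Cert := node (nat_lit 864) (nat_lit 0) [nat_lit 0x402c0, nat_lit 0x46286] <|
br (nat_lit 0x20003066c) c180 <|
br (nat_lit 0x860003088c) (node (nat_lit 240) (nat_lit 0) [nat_lit 0x402c0] <|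
br (nat_lit 0x2000205fb) (node (nat_lit 24) (nat_lit 0) [] <|
br (nat_lit 0x2000105b6) (leaf (nat_lit 39)) <|
br (nat_lit 0x8058000010073) (leaf (nat_lit 37)) nil) <|
br (nat_lit 0x8050c48400010dbd) (node (nat_lit 3744) (nat_lit 0) [] <|
br (nat_lit 0x200010ea2) (leaf (nat_lit 47)) <|
br (nat_lit 0x8058000010ea8) (leaf (nat_lit 19)) nil) nil) <|
br (nat_lit 0x201600600030d84) (node (nat_lit 120) (nat_lit 0) [nat_lit 0x46286] <|
br (nat_lit 0x2000206e1) (node (nat_lit 24) (nat_lit 0) [] <|
br (nat_lit 0x2000102ce) (leaf (nat_lit 51)) <|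
br (nat_lit 0x8c50c000108cc) (leaf (nat_lit 44)) nil) <|
br (nat_lit 0x8058000010cd3) (node (nat_lit 288) (nat_lit 0) [] <|
br (nat_lit 0x200010133) (leaf (nat_lit 50)) <|
br (nat_lit 0x8c50c00010136) (leaf (nat_lit 50)) nil) nil) nil
def c182 : Cert := node (nat_lit 1632) (nat_lit 0) [nat_lit 0x1101140] <|
br (nat_lit 0x20006031b) (node (nat_lit 24) (nat_lit 0) [nat_lit 0x44085041] <|
br (nat_lit 0x2000103e7) (leaf (nat_lit 47)) <|
br (nat_lit 0x218230600010348) (leaf (nat_lit 37)) <|
br (nat_lit 0x96100104000308f6) (leaf (nat_lit 48)) <|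
br (nat_lit 0x218c5940820001075b) (leaf (nat_lit 48)) nil) <|
br (nat_lit 0x8600010663) (node (nat_lit 3336) (nat_lit 0) [nat_lit 0x1101140] <|
br (nat_lit 0x200020f0e) (leaf (nat_lit 52)) <|
br (nat_lit 0x9610010400020d2c) (leaf (nat_lit 53)) <|
br (nat_lit 0x8050c48400010d09) (leaf (nat_lit 53)) <|
br (nat_lit 0x218c59408200010d0f) (leaf (nat_lit 53)) nil) <|
br (nat_lit 0x8608d00010266) (node (nat_lit 3336) (nat_lit 0) [nat_lit 0x1101140] <|
br (nat_lit 0x200010d15) (leaf (nat_lit 16)) <|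
br (nat_lit 0x218230600020f06) (leaf (nat_lit 39)) <|
br (nat_lit 0x9610010400020f0f) (leaf (nat_lit 38)) <|
br (nat_lit 0x8608030600010d0c) (leaf (nat_lit 38)) nil) <|
br (nat_lit 0x8601630000010b0c) (node (nat_lit 3336) (nat_lit 0) [nat_lit 0x1101140] <|
br (nat_lit 0x200020d28) (leaf (nat_lit 21)) <|
br (nat_lit 0x218230600010d19) (leaf (nat_lit 28)) <|
br (nat_lit 0x9610010400010d12) (leaf (nat_lit 25)) <|
br (nat_lit 0x8050c48400020f16) (leaf (nat_lit 25)) nil) nil
def c183 : Cert := node (nat_lit 1632) (nat_lit 0) [nat_lit 0x1101140] <|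
br (nat_lit 0x200060903) (node (nat_lit 24) (nat_lit 0) [nat_lit 0x44085041] <|
br (nat_lit 0x2000103ee) (leaf (nat_lit 32)) <|
br (nat_lit 0x2182306000105cc) (leaf (nat_lit 33)) <|
br (nat_lit 0x96100104000302be) (leaf (nat_lit 34)) <|
br (nat_lit 0x218c59408200010123) (leaf (nat_lit 35)) nil) <|
br (nat_lit 0x8600010663) (node (nat_lit 3336) (nat_lit 0) [nat_lit 0x1101140] <|
br (nat_lit 0x200020f0a) (leaf (nat_lit 30)) <|
br (nat_lit 0x9610010400020d33) (leaf (nat_lit 15)) <|
br (nat_lit 0x8050c48400010d10) (leaf (nat_lit 15)) <|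
br (nat_lit 0x218c59408200010d0a) (leaf (nat_lit 31)) nil) <|
br (nat_lit 0x8608d000107dd) (node (nat_lit 3336) (nat_lit 0) [nat_lit 0x1101140] <|
br (nat_lit 0x200010d14) (leaf (nat_lit 16)) <|
br (nat_lit 0x218230600020f01) (leaf (nat_lit 39)) <|
br (nat_lit 0x9610010400020f07) (leaf (nat_lit 38)) <|
br (nat_lit 0x8608030600010d18) (leaf (nat_lit 38)) nil) <|
br (nat_lit 0x8601630000010004) (node (nat_lit 3336) (nat_lit 0) [nat_lit 0x1101140] <|
br (nat_lit 0x200020d2f) (leaf (nat_lit 24)) <|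
br (nat_lit 0x218230600010d1f) (leaf (nat_lit 26)) <|
br (nat_lit 0x9610010400010d1a) (leaf (nat_lit 26)) <|
br (nat_lit 0x8050c48400020f0d) (leaf (nat_lit 26)) nil) nil
def c184 : Cert := node (nat_lit 1632) (nat_lit 0) [nat_lit 0x1101140] <|
br (nat_lit 0x200010dc8) (node (nat_lit 3336) (nat_lit 0) [nat_lit 0x1101140] <|
br (nat_lit 0x200020f00) (leaf (nat_lit 7)) <|
br (nat_lit 0x9610010400020d29) (leaf (nat_lit 18)) <|
br (nat_lit 0x8050c48400010d13) (leaf (nat_lit 18)) <|
br (nat_lit 0x218c59408200010d1d) (leaf (nat_lit 21)) nil) <|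
br (nat_lit 0x86000607b3) (node (nat_lit 24) (nat_lit 0) [nat_lit 0x44085041] <|
br (nat_lit 0x2000103e6) (leaf (nat_lit 15)) <|
br (nat_lit 0x218230600010cbd) (leaf (nat_lit 18)) <|
br (nat_lit 0x9610010400030e83) (leaf (nat_lit 19)) <|
br (nat_lit 0x218c59408200010921) (leaf (nat_lit 25)) nil) <|
br (nat_lit 0x208c00010b0c) (node (nat_lit 3336) (nat_lit 0) [nat_lit 0x1101140] <|
br (nat_lit 0x200010d08) (leaf (nat_lit 7)) <|
br (nat_lit 0x218230600020f14) (leaf (nat_lit 28)) <|
br (nat_lit 0x9610010400020f09) (leaf (nat_lit 15)) <|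
br (nat_lit 0x8608030600010d0b) (leaf (nat_lit 15)) nil) <|
br (nat_lit 0x2016300000107dd) (node (nat_lit 3336) (nat_lit 0) [nat_lit 0x1101140] <|
br (nat_lit 0x200020d20) (leaf (nat_lit 21)) <|
br (nat_lit 0x218230600010d1c) (leaf (nat_lit 28)) <|
br (nat_lit 0x9610010400010d11) (leaf (nat_lit 25)) <|
br (nat_lit 0x8050c48400020f0b) (leaf (nat_lit 25)) nil) nil
def c185 : Cert := node (nat_lit 0) (nat_lit 0) [nat_lit 0x44, nat_lit 0x41, nat_lit 0x45, nat_lit 0x40] <|
br (nat_lit 0x200010000) c12 <|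
br (nat_lit 0x8a00040009) c27 <|
br (nat_lit 0x8e00800097) (node (nat_lit 144) (nat_lit 0) [nat_lit 0x1105, nat_lit 0x40280, nat_lit 0x4b244] <|
br (nat_lit 0x200010001) c28 <|
br (nat_lit 0x81001b0e7f) c29 <|
br (nat_lit 0x8300240c26) c30 <|
br (nat_lit 0x2081002404a6) c31 <|
br (nat_lit 0x2083001b0a42) c32 <|
br (nat_lit 0x96513000102d0) c33 nil) <|
br (nat_lit 0x22890004000c) c48 <|
br (nat_lit 0x220900040011) c63 <|
br (nat_lit 0x238b02000094) c76 <|
br (nat_lit 0x2391020001ea) (node (nat_lit 480) (nat_lit 0) [nat_lit 0x1105, nat_lit 0x40180] <|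
br (nat_lit 0x200010264) c77 <|
br (nat_lit 0x81001b0f30) c78 <|
br (nat_lit 0x85001b06e4) c80 <|
br (nat_lit 0x2101001b04c2) c81 <|
br (nat_lit 0x2481001b0708) c84 <|
br (nat_lit 0x2083000909e2) c85 <|
br (nat_lit 0x258300090ce0) c86 <|
br (nat_lit 0x9651300010015) c87 nil) <|
br (nat_lit 0x8820b00060001) c94 <|
br (nat_lit 0x8820900010003) c107 <|
br (nat_lit 0x8e2090200009b) (node (nat_lit 144) (nat_lit 0) [nat_lit 0x1182, nat_lit 0x43, nat_lit 0x4b244] <|
br (nat_lit 0x2001b0023) c108 <|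
br (nat_lit 0x93001b024c) c109 <|
br (nat_lit 0x95000102e0) c110 <|
br (nat_lit 0x2081001b062b) c111 <|
br (nat_lit 0x248100090cb7) c112 <|
br (nat_lit 0x258100090e4f) c113 <|
br (nat_lit 0x2583001b0a16) c114 <|
br (nat_lit 0x259300010006) c115 nil) <|
br (nat_lit 0x8e40b030001e7) c129 <|
br (nat_lit 0x9000f03600f3a) c154 <|
br (nat_lit 0x220828900040002) c169 <|
br (nat_lit 0x238820900800091) (node (nat_lit 144) (nat_lit 0) [nat_lit 0x1105, nat_lit 0x40280, nat_lit 0x4b244] <|
br (nat_lit 0x200010007) c170 <|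
br (nat_lit 0x81001b0f6f) c171 <|
br (nat_lit 0x8300240206) c172 <|
br (nat_lit 0x20810024049d) c173 <|
br (nat_lit 0x2083001b0cfa) c174 <|
br (nat_lit 0x96513000102d3) c175 nil) <|
br (nat_lit 0x239020b020001e9) (node (nat_lit 480) (nat_lit 0) [nat_lit 0x1105, nat_lit 0x40180] <|
br (nat_lit 0x20001025c) c176 <|
br (nat_lit 0x81001b0df8) c177 <|
br (nat_lit 0x85001b0c84) c178 <|
br (nat_lit 0x2101001b056a) c179 <|
br (nat_lit 0x2481001b0360) c181 <|
br (nat_lit 0x2083000907d2) c182 <|
br (nat_lit 0x258300090d70) c183 <|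
br (nat_lit 0x9651300010005) c184 nil) nil
def ce : Cert := c185
def rt : List ((List ℤ × List (List ℤ)) × ℕ) := [(([-2], [[0], [1], [0], [0], [0]]), t1),
  (([-2], [[0], [0], [1], [0], [0]]), t2),
  (([-2], [[0], [0], [0], [1], [0]]), t3),
  (([-2], [[1], [1], [1], [1], [0]]), t4),
  (([-2], [[1], [0, 1], [0, 0, 1], [0, 0, 0, 1], [0]]), t5),
  (([-2], [[0], [2], [1, 1, 1, 1], [-1, 1, 1, 1], [2]]), t6)]
def z : Dat := ⟨sy, rt, t0, sl, v0, ls, Iv, sg, ce, cs, nat_lit 27371520, nat_lit 35, [nat_lit 1, nat_lit 0, nat_lit 0, nat_lit 0, nat_lit 0, nat_lit 0, nat_lit 1, nat_lit 0, nat_lit 1, nat_lit 0, nat_lit 1, nat_lit 0, nat_lit 3, nat_lit 0, nat_lit 4, nat_lit 0, nat_lit 5, nat_lit 0, nat_lit 10, nat_lit 0, nat_lit 14, nat_lit 0, nat_lit 19, nat_lit 0, nat_lit 33, nat_lit 0, nat_lit 45, nat_lit 0, nat_lit 62, nat_lit 0, nat_lit 97, nat_lit 0, nat_lit 135, nat_lit 0, nat_lit 183, nat_lit 0], [nat_lit 1, nat_lit 10, nat_lit 55, nat_lit 220, nat_lit 715, nat_lit 2002, nat_lit 5005, nat_lit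 11440, nat_lit 24310, nat_lit 48620, nat_lit 92378, nat_lit 167960, nat_lit 293930, nat_lit 497420, nat_lit 817190, nat_lit 1307504, nat_lit 2042975, nat_lit 3124550, nat_lit 4686825, nat_lit 6906900, nat_lit 10015005, nat_lit 14307150, nat_lit 20160075, nat_lit 28048800, nat_lit 38567100, nat_lit 52451256, nat_lit 70607460, nat_lit 94143280, nat_lit 124403620, nat_lit 163011640, nat_lit 211915132, nat_lit 273438880, nat_lit 350343565, nat_lit 445891810, nat_lit 563921995, nat_lit 708930508], nat_lit 66⟩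

theorem h0 : z.c0 = true := by decide +kernel
theorem h1 : z.y.ok = true := by decide +kernel
theorem r0 : sy.rok [-2] [[0], [1], [0], [0], [0]] t1 = true := by decide +kernel
theorem r1 : sy.rok [-2] [[0], [0], [1], [0], [0]] t2 = true := by decide +kernel
theorem r2 : sy.rok [-2] [[0], [0], [0], [1], [0]] t3 = true := by decide +kernel
theorem r3 : sy.rok [-2] [[1], [1], [1], [1], [0]] t4 = true := by decide +kernel
theorem r4 : sy.rok [-2] [[1], [0, 1], [0, 0, 1], [0, 0, 0, 1], [0]] t5 = true := by decide +kernel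
theorem r5 : sy.rok [-2] [[0], [2], [1, 1, 1, 1], [-1, 1, 1, 1], [2]] t6 = true := by decide +kernel
theorem hr : allL z.rt (fun e => z.y.rok e.1.1 e.1.2 e.2) = true :=
  allL_cons r0 (allL_cons r1 (allL_cons r2 (allL_cons r3 (allL_cons r4 (allL_cons r5 (Eq.refl true))))))
theorem h2 : z.c2 = true := by decide +kernel
theorem h3 : z.c3 = true := by decide +kernel
theorem h4 : z.c4 = true := by decide +kernel
theorem h5 : z.c5 = true := by decide +kernel
theorem h6 : z.c6 = true := by decide +kernel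
theorem h7 : z.c7 6 = true := by decide +kernel

end Pool.Agent.P.MP_97ea17_al.Ck.DU
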