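import Mathlib

/-!
Quaternionic reflection groups and their zero-fiber rings.
`V = Fin n → ℍ` is a right `ℍ`-vector space (a module over `ℍᵐᵒᵖ`), and `GL (Fin n) ℍ` acts on it
from the left by `Matrix.mulVec`.
-/

namespace Pool.Agent.P.MP_97ea17_al

open scoped Quaternion Matrix

/-- Complex coordinates `(z i, w i)` of `v`, where `v i = z i + j * w i`; they are linear for the
action of `ℂ ⊆ ℍ` by right multiplication. -/
def coord {n : ℕ} (v : Fin n → ℍ[ℝ]) (p : Fin n × Fin 2) : ℂ :=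
  if p.2 = 0 then ⟨(v p.1).re, (v p.1).imI⟩ else ⟨(v p.1).imJ, -(v p.1).imK⟩

/-- A quaternionic reflection: finite order, fixed space of `ℍ`-dimension `n - 1`. -/
def IsRefl {n : ℕ} (g : GL (Fin n) ℍ[ℝ]) : Prop :=
  IsOfFinOrder g ∧ Module.finrank ℍ[ℝ]ᵐᵒᵖ
    (LinearMap.ker (Matrix.mulVecBilin ℍ[ℝ] ℍ[ℝ]ᵐᵒᵖ (g.val - 1))) + 1 = n

/-- An irreducible quaternionic reflection group. -/
def IsIrredReflGroup {n : ℕ} (W : Subgroup (GL (Fin n) ℍ[ℝ])) : Prop :=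
  Finite W ∧ Subgroup.closure {g | g ∈ W ∧ IsRefl g} = W ∧
    ∀ U : Submodule ℍ[ℝ]ᵐᵒᵖ (Fin n → ℍ[ℝ]),
      (∀ g ∈ W, ∀ v ∈ U, g.val *ᵥ v ∈ U) → U = ⊥ ∨ U = ⊤

/-- The ideal generated by the homogeneous invariant polynomials of positive degree. -/
noncomputable def invIdeal {n : ℕ} (W : Subgroup (GL (Fin n) ℍ[ℝ])) : Ideal (MvPolynomial (Fin n × Fin 2) ℂ) :=
  Ideal.span {p | (∃ d, 0 < d ∧ p.IsHomogeneous d) ∧ ∀ g ∈ W, ∀ v,
    MvPolynomial.eval (coord (g.val *ᵥ v)) p = MvPolynomial.eval (coord v) p}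

/-- The bound `(g + 1) ^ n ≤ dim ℂ[V] / I` with `g = 2 N / n`. -/
def Bound {n : ℕ} (W : Subgroup (GL (Fin n) ℍ[ℝ])) : Prop :=
  (2 * (Nat.card {g // g ∈ W ∧ IsRefl g} : ℚ) / n + 1) ^ n ≤
    Module.finrank ℂ (MvPolynomial (Fin n × Fin 2) ℂ ⧸ invIdeal W)

end Pool.Agent.P.MP_97ea17_al
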