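import Pool.Agent.P.MP_97ea17_al.ChkB

/-! Groups acting on a numbered finite set: words, chains of subgroups. -/

namespace Pool.Agent.P.MP_97ea17_al.Ck

/-- The function `f` describes the action of `g` on the numbered points. -/
def Act {G X : Type} [Group G] [MulAction G X] (M : ℕ) (vec : ℕ → X) (f : ℕ → ℕ) (g : G) : Prop :=
  ∀ p < M, f p < M ∧ g • vec p = vec (f p)

/-- A numbered finite set of points with tables. -/
structure Env (G X : Type) [Group G] [MulAction G X] where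
  /-- number of points -/
  M : ℕ
  /-- number of units -/
  m : ℕ
  /-- points -/
  vec : ℕ → X
  /-- evaluation of tables -/
  ap : ℕ → ℕ → ℕ
  /-- construction of tables -/
  tb : (ℕ → ℕ) → ℕ
  /-- right multiplication on numbers -/
  rm : ℕ → ℕ → ℕ
  /-- right multiplication -/
  R : ℕ → X → X
  /-- base -/
  bs : List ℕ
  /-- identity table -/
  d : ℕ
  pos : 0 < M
  inj : ∀ p < M, ∀ q < M, vec p = vec q → p = q
  base : ∀ g : G, (∀ b ∈ bs, g • vec b = vec b) → g = 1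
  bsM : ∀ b ∈ bs, b < M
  tb_act : ∀ f (g : G), Act M vec f g → Act M vec (ap (tb f)) g
  d_act : Act M vec (ap d) (1 : G)
  R_comm : ∀ u (g : G) x, R u (g • x) = g • R u x
  rm_vec : ∀ p < M, ∀ u < m, rm p u < M ∧ vec (rm p u) = R u (vec p)

variable {G X : Type} [Group G] [MulAction G X] (E : Env G X)

theorem Env.uniq {f : ℕ → ℕ} {g h : G} (hg : Act E.M E.vec f g) (hh : Act E.M E.vec f h) :
    g = h := by
  have := E.base (h⁻¹ * g) fun b hb => by
    rw [mul_smul, (hg b (E.bsM b hb)).2, ← (hh b (E.bsM b hb)).2, inv_smul_smul]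
  exact (inv_mul_eq_one.1 this).symm

/-- The table `T` describes an element of `W`. -/
def Env.Good (W : Subgroup G) (T : ℕ) : Prop := ∃ g ∈ W, Act E.M E.vec (E.ap T) g

/-- The group generated by the elements described by a list of tables. -/
def Env.Sub (gs : List ℕ) : Subgroup G :=
  Subgroup.closure {g | ∃ T ∈ gs, Act E.M E.vec (E.ap T) g}

theorem Env.Sub_mono {A B : List ℕ} (h : A ⊆ B) : E.Sub A ≤ E.Sub B :=
  Subgroup.closure_mono fun _ ⟨T, hT, hg⟩ => ⟨T, h hT, hg⟩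

theorem Env.good_sub {W : Subgroup G} {gs : List ℕ} (h : ∀ T ∈ gs, E.Good W T) :
    ∀ T ∈ gs, E.Good (E.Sub gs) T := fun T hT =>
  let ⟨g, _, hg⟩ := h T hT
  ⟨g, Subgroup.subset_closure ⟨T, hT, hg⟩, hg⟩

theorem Env.word {W : Subgroup G} {w : List ℕ} (h : ∀ T ∈ w, E.Good W T) :
    ∃ g ∈ W, Act E.M E.vec (apW E.ap w) g := by
  induction w with
  | nil => exact ⟨1, W.one_mem, fun p hp => ⟨hp, one_smul _ _⟩⟩
  | cons T w ih =>
    obtain ⟨a, ha, ha'⟩ := h T List.mem_cons_self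
    obtain ⟨b, hb, hb'⟩ := ih fun T hT => h T (List.mem_cons_of_mem _ hT)
    refine ⟨b * a, W.mul_mem hb ha, fun p hp => ?_⟩
    obtain ⟨h1, h2⟩ := ha' p hp
    rw [apW_cons, mul_smul, h2]
    exact hb' _ h1

theorem Env.good_dec {W : Subgroup G} {gs : List ℕ} (h : ∀ T ∈ gs, E.Good W T) (f w : ℕ) :
    ∀ T ∈ dec E.d gs f w, E.Good W T := fun T hT => by
  rcases List.mem_cons.1 (dec_sub _ _ _ _ hT) with rfl | hT
  · exact ⟨1, W.one_mem, E.d_act⟩
  · exact h T hT

theorem Env.good_tb {W : Subgroup G} {w : List ℕ} (h : ∀ T ∈ w, E.Good W T) :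
    E.Good W (E.tb (apW E.ap w)) :=
  let ⟨g, hg, hg'⟩ := E.word h
  ⟨g, hg, E.tb_act _ _ hg'⟩

theorem Env.slp_spec {W : Subgroup G} {ws : List (ℕ × ℕ)} {gs : List ℕ}
    (h : slp E.ap E.tb E.d ws gs = true) (hg : ∀ T ∈ gs, E.Good W T) :
    ∀ T ∈ ws.map Prod.fst, E.Good W T := by
  induction ws generalizing gs with
  | nil => simp
  | cons x ws ih =>
    obtain ⟨h1, h2⟩ := (nd_iff _ _).1 h
    have h3 := dcd_spec h1
    rw [List.append_nil, Nat.beq_eq] at h3
    have h4 : E.Good W x.1 := h3 ▸ E.good_tb (E.good_dec hg _ _)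
    rw [List.map_cons, List.forall_mem_cons]
    exact ⟨h4, ih h2 (List.forall_mem_cons.2 ⟨h4, hg⟩)⟩

/-- The tuple `t` lists the images of the base under `g`. -/
def Env.Tup (g : G) (t : List ℕ) : Prop :=
  List.Forall₂ (fun b p => p < E.M ∧ g • E.vec b = E.vec p) E.bs t

theorem Env.tup_one : E.Tup (1 : G) E.bs :=
  List.forall₂_same.2 fun b hb => ⟨E.bsM b hb, one_smul _ _⟩

theorem Env.Tup.map {E : Env G X} {g a : G} {t : List ℕ} {f : ℕ → ℕ} (h : E.Tup g t)
    (ha : Act E.M E.vec f a) : E.Tup (a * g) (t.map f) := by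
  unfold Env.Tup
  rw [List.forall₂_map_right_iff]
  refine List.Forall₂.imp (fun b p hp => ?_) h
  rw [mul_smul, hp.2]
  exact ha p hp.1

theorem Env.Tup.eq_one {E : Env G X} {g : G} (h : E.Tup g E.bs) : g = 1 :=
  E.base g fun b hb => (List.forall₂_same.1 h b hb).2

/-- The coset number `p` of a level. -/
def Env.Cos (v : Lev) (H : Subgroup G) (p : ℕ) : Set G :=
  {g | ∃ a, Act E.M E.vec (apW E.ap (dec E.d v.gs 40
    (ent v.dw 128 340282366920938463463374607431768211456 p))) a ∧ a * g ∈ H}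

theorem Env.stage_spec {W H : Subgroup G} {v : Lev} (hv : ∀ T ∈ v.gs, E.Good W T)
    {k : List ℕ → Bool} (hk : ∀ g t, E.Tup g t → k t = true → g ∈ H) {g : G} {t : List ℕ}
    (ht : E.Tup g t) (h : stage E.ap E.d v t k = true) : ∃ p < v.sz, g ∈ E.Cos v H p := by
  obtain ⟨h1, h2⟩ := (nd_iff _ _).1 h
  have h3 := dcd_spec h2
  rw [List.append_nil, mapK_eq] at h3
  obtain ⟨a, -, ha⟩ := E.word (E.good_dec hv 40 _)
  exact ⟨_, Nat.blt_eq ▸ h1, a, ha, hk _ _ (ht.map ha) h3⟩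

theorem Env.cos_le {H : Subgroup G} {v : Lev} (hv : ∀ T ∈ v.gs, E.Good (E.Sub v.gs) T)
    (hH : H ≤ E.Sub v.gs) {p : ℕ} {g : G} (hg : g ∈ E.Cos v H p) : g ∈ E.Sub v.gs := by
  obtain ⟨a, ha, hag⟩ := hg
  obtain ⟨b, hb, hb'⟩ := E.word (E.good_dec hv 40 _)
  rw [E.uniq ha hb'] at hag
  exact (Subgroup.mul_mem_cancel_left _ hb).1 (hH hag)

theorem Env.cos_card (v : Lev) (H : Subgroup G) [Finite H] (p : ℕ) :
    (E.Cos v H p).Finite ∧ (E.Cos v H p).ncard ≤ Nat.card H := by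
  rcases (E.Cos v H p).eq_empty_or_nonempty with h | ⟨g, a, ha, -⟩
  · simp [h]
  · have h1 : E.Cos v H p ⊆ (a⁻¹ * ·) '' H := by
      rintro x ⟨b, hb, hx⟩
      exact ⟨b * x, hx, by simp [E.uniq ha hb]⟩
    have h2 : (H : Set G).Finite := Set.toFinite _
    exact ⟨(h2.image _).subset h1, (Set.ncard_le_ncard h1 (h2.image _)).trans
      (Set.ncard_image_le h2)⟩

theorem ncard_union_le {α : Type} (C : ℕ → Set α) (c : ℕ) (hC : ∀ p, (C p).ncard ≤ c) (s : ℕ) :
    (⋃ p < s, C p).ncard ≤ s * c := by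
  induction s with
  | zero => simp
  | succ s ih =>
    rw [Set.biUnion_lt_succ, add_mul, one_mul]
    exact (Set.ncard_union_le _ _).trans (Nat.add_le_add ih (hC s))

theorem Env.cover_spec {W H : Subgroup G} [Finite H] {v : Lev} {ls : List Lev} {S : List ℕ}
    (hv : ∀ T ∈ v.gs, E.Good W T)
    (hk : ∀ g t, E.Tup g t → sift E.ap E.d E.bs ls t = true → g ∈ H)
    (h : cover E.ap E.d E.bs S v ls = true) :
    Finite (E.Sub S) ∧ Nat.card (E.Sub S) ≤ v.sz * Nat.card H := by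
  obtain ⟨h1, h2⟩ := (nd_iff _ _).1 h
  set Ω := ⋃ p < v.sz, E.Cos v H p with hΩ
  have hfin : Ω.Finite := (Set.finite_lt_nat _).biUnion fun p _ => (E.cos_card v H p).1
  have hmem : ∀ {g}, g ∈ Ω ↔ ∃ p < v.sz, g ∈ E.Cos v H p := by simp [hΩ]
  have hs : ∀ s ∈ {g | ∃ T ∈ S, Act E.M E.vec (E.ap T) g}, Set.MapsTo (s * ·) Ω Ω := by
    rintro s ⟨T, hT, hs⟩ g hg
    obtain ⟨p, hp, a, ha, hag⟩ := hmem.1 hg
    have h3 := dcd_spec ((allN_iff _ _).1 h2 p hp)
    rw [List.append_nil, mapK_eq] at h3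
    obtain ⟨h4, h5⟩ := (nd_iff _ _).1 h3
    obtain ⟨u, -, hu⟩ := E.word (E.good_dec hv 40
      (ent v.uw 128 340282366920938463463374607431768211456 p))
    have h6 := dcd_spec h4
    rw [List.append_nil, mapK_eq] at h6
    have h7 := hk _ _ ((E.tup_one.map hu).map ha) h6
    have h8 := (allL_iff _ _).1 h5 T hT
    rw [mapK_eq] at h8
    obtain ⟨q, hq, b, hb, hb'⟩ := E.stage_spec hv hk ((E.tup_one.map hu).map hs) h8
    refine hmem.2 ⟨q, hq, b, hb, ?_⟩
    have := H.mul_mem hb' (H.mul_mem (H.inv_mem h7) hag)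
    simpa [mul_assoc] using this
  have hsub : (E.Sub S : Set G) ⊆ Ω := by
    intro g hg
    induction hg using Subgroup.closure_induction_left with
    | one => exact hmem.2 (E.stage_spec hv hk E.tup_one h1)
    | mul_left s hs' g _ ih => exact hs s hs' ih
    | inv_mul_cancel s hs' g _ ih =>
      have := (hfin.injOn_iff_bijOn_of_mapsTo (hs s hs')).1 (mul_right_injective s).injOn
      obtain ⟨x, hx, rfl⟩ := this.surjOn ih
      simpa using hx
  exact ⟨(hfin.subset hsub).to_subtype, (Set.ncard_le_ncard hsub hfin).trans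
    (ncard_union_le _ _ (fun p => (E.cos_card v H p).2) _)⟩

theorem Env.chain_spec {W : Subgroup G} {ls : List Lev} (hv : ∀ T ∈ topG ls, E.Good W T)
    (h : chain E.ap E.d E.bs ls = true) (c : ℕ) :
    (∀ g t, E.Tup g t → sift E.ap E.d E.bs ls t = true → g ∈ E.Sub (topG ls)) ∧
      Finite (E.Sub (topG ls)) ∧
      Nat.card (E.Sub (topG ls)) * c ≤ ls.foldr (fun v a => Nat.mul v.sz a) c := by
  induction ls with
  | nil =>
    have : E.Sub (topG []) = ⊥ := by simp [Env.Sub, topG]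
    rw [this]
    refine ⟨fun g t ht h => ?_, inferInstance, by simp⟩
    rw [(eqL_iff _ _).1 h] at ht
    exact ht.eq_one
  | cons v ls ih =>
    obtain ⟨h1, h2⟩ := (nd_iff _ _).1 h
    obtain ⟨h3, h4⟩ := (nd_iff _ _).1 h2
    have h5 := subL_iff h1
    obtain ⟨i1, i2, i3⟩ := ih (fun T hT => hv T (h5 hT)) h4
    obtain ⟨j1, j2⟩ := E.cover_spec (v := v) hv i1 h3
    refine ⟨fun g t ht h => ?_, j1, ?_⟩
    · obtain ⟨p, -, hp⟩ := E.stage_spec (v := v) hv i1 ht h
      exact E.cos_le (E.good_sub hv) (E.Sub_mono h5) hp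
    · refine (Nat.mul_le_mul_right c j2).trans ?_
      rw [mul_assoc]
      exact Nat.mul_le_mul_left _ i3

end Pool.Agent.P.MP_97ea17_al.Ck
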