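import Pool.Agent.P.MP_97ea17_al.Refl

/-! Groups generated by reflections with a connected spanning set of roots are irreducible. -/

namespace Pool.Agent.P.MP_97ea17_al.Ck

open scoped Quaternion Matrix
open Module

attribute [-simp] Matrix.coe_units_inv

variable {n : ℕ}

theorem refl_sub (a v : Fin n → ℍ[ℝ]) (ξ : ℍ[ℝ]) : reflMat a ξ *ᵥ v - v = MulOpposite.op
    ((∑ k, Quaternion.normSq (a k))⁻¹ • ((ξ - 1) * ∑ j, star (a j) * v j)) • a := by
  ext1 i
  simp [reflMat_mulVec, Finset.mul_sum, mul_assoc, Finset.smul_sum]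

theorem isRefl_reflMat {g : GL (Fin n) ℍ[ℝ]} (hg : IsOfFinOrder g) {a : Fin n → ℍ[ℝ]} {ξ : ℍ[ℝ]}
    (h : g.val = reflMat a ξ) (ha : ∑ k, Quaternion.normSq (a k) ≠ 0) (hξ : ξ ≠ 1) :
    IsRefl g := by
  refine ⟨hg, ?_⟩
  set φ := Matrix.mulVecBilin ℍ[ℝ] ℍ[ℝ]ᵐᵒᵖ (g.val - 1) with hφ
  have h0 : a ≠ 0 := by rintro rfl; simp at ha
  have h1 := φ.finrank_range_add_finrank_ker
  have h2 : ∀ v, φ v = reflMat a ξ *ᵥ v - v := fun v => by simp [hφ, h]
  have h3 : LinearMap.range φ = Submodule.span ℍ[ℝ]ᵐᵒᵖ {a} := by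
    refine le_antisymm ?_ ?_
    · rintro _ ⟨v, rfl⟩
      rw [h2, refl_sub]
      exact Submodule.smul_mem _ _ (Submodule.mem_span_singleton_self a)
    · rw [Submodule.span_singleton_le_iff_mem, ← Submodule.smul_mem_iff _
        (show MulOpposite.op (ξ - 1) ≠ 0 by simpa [sub_eq_zero] using hξ)]
      refine ⟨a, ?_⟩
      rw [h2, refl_sub, sum_star_mul, ← Quaternion.coe_commutes, Quaternion.coe_mul_eq_smul,
        smul_smul, inv_mul_cancel₀ ha, one_smul]
  rw [h3, finrank_span_singleton h0, finrank_V] at h1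
  omega

theorem fin_order {G : Type} [Group G] {W : Subgroup G} [Finite W] {g : G} (h : g ∈ W) :
    IsOfFinOrder g := by
  simpa using W.subtype.isOfFinOrder (isOfFinOrder_of_finite ⟨g, h⟩)

/-- Hermitian product of coded vectors. -/
noncomputable def ipc (D n : ℕ) (a b : List (List ℤ)) : Q4 :=
  sumQ n fun j => Q4.mul D (zQ (a.getD j [])).cnj (zQ (b.getD j []))

/-- The roots are connected and span. -/
noncomputable def irc (D n : ℕ) (R : List (List ℤ × List (List ℤ))) (par dp : List ℕ)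
    (sp : List (List (List ℤ))) : Bool :=
  nd (allN R.length fun i =>
    nd (Bool.rec true false ((zQ (R.getD i ([], [])).1).beq (zQ [2]))) <|
    nd (Bool.rec true false ((ipc D n (R.getD i ([], [])).2 (R.getD i ([], [])).2).beq Q4.zero)) <|
    nd (Nat.blt (par.getD i 0) R.length) <|
    nd (Bool.or (Nat.beq i 0) (Nat.blt (dp.getD (par.getD i 0) 0) (dp.getD i 0))) (Bool.rec true false
      ((ipc D n (R.getD i ([], [])).2 (R.getD (par.getD i 0) ([], [])).2).beq Q4.zero))) <|
  allN n fun k => allN n fun j => Bool.xor (Nat.beq j k) ((sumQ R.length fun i =>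
    Q4.mul D (zQ ((R.getD i ([], [])).2.getD j [])) (zQ ((sp.getD k []).getD i []))).beq Q4.zero)

theorem Q4.beq_val {D : ℕ} (hD : D.Prime) {x y : Q4} (h : x.val D = y.val D) :
    x.beq y = true := by
  obtain ⟨a, b, c, d⟩ := x
  obtain ⟨e, f, g, k⟩ := y
  simp only [Q4.beq, nd_iff]
  exact ⟨R4.beq_val hD (congrArg QuaternionAlgebra.re h),
    R4.beq_val hD (congrArg QuaternionAlgebra.imI h),
    R4.beq_val hD (congrArg QuaternionAlgebra.imJ h),
    R4.beq_val hD (congrArg QuaternionAlgebra.imK h)⟩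

theorem val_ipc (D n : ℕ) (a b : List (List ℤ)) : (ipc D n a b).val D =
    ∑ j : Fin n, star (quat D (a.getD j [])) * quat D (b.getD j []) := by
  rw [ipc, val_sumQ, Finset.sum_range]
  simp only [Q4.val_mul, Q4.val_cnj, val_zQ]

theorem irc_spec {D : ℕ} (hD : D.Prime) {R : List (List ℤ × List (List ℤ))} {par dp : List ℕ}
    {sp : List (List (List ℤ))} (h : irc D n R par dp sp = true) [Finite (grp n D R)]
    (hR : ∀ r ∈ R, ∃ g : GL (Fin n) ℍ[ℝ],
      g.val = reflMat (fun i => quat D (r.2.getD i [])) ((2 : ℝ)⁻¹ • quat D r.1)) :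
    IsIrredReflGroup (grp n D R) := by
  unfold irc at h
  simp only [nd_iff, allN_iff, not_iff, Nat.blt_eq, Bool.or_eq_true, Nat.beq_eq] at h
  obtain ⟨h1, h2⟩ := h
  set a : ℕ → Fin n → ℍ[ℝ] := fun i j => quat D ((R.getD i ([], [])).2.getD j []) with ha
  set ξ : ℕ → ℍ[ℝ] := fun i => (2 : ℝ)⁻¹ • quat D (R.getD i ([], [])).1 with hξ
  have nz : ∀ {x : Q4}, x.beq Q4.zero = false → x.val D ≠ 0 := fun hx e => by
    rw [Q4.beq_val hD (e.trans Q4.val_zero.symm)] at hx
    exact absurd hx (by simp)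
  have a1 : ∀ i < R.length, ξ i ≠ 1 := fun i hi e => by
    have e1 : quat D (R.getD i ([], [])).1 = quat D [2] := by
      rw [← smul_inv_smul₀ (two_ne_zero' ℝ) (quat D _), show _ • quat D _ = 1 from e]
      ext <;> simp [quat]
    have := (h1 i hi).1
    rw [Q4.beq_val hD (by rw [val_zQ, val_zQ, e1])] at this
    exact absurd this (by simp)
  have a2 : ∀ i < R.length, ∑ k, Quaternion.normSq (a i k) ≠ 0 := fun i hi e => by
    have := nz (h1 i hi).2.1
    rw [val_ipc, sum_star_mul, e] at this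
    exact this Quaternion.coe_zero
  have a3 : ∀ i < R.length, R.getD i ([], []) ∈ R := fun i hi => by
    rw [List.getD_eq_getElem _ _ hi]
    exact List.getElem_mem hi
  refine ⟨inferInstance, le_antisymm ((Subgroup.closure_le _).2 fun g hg => hg.1)
    (Subgroup.closure_mono fun g hg => ?_), fun U hU => ?_⟩
  · have h3 : g ∈ grp n D R := Subgroup.subset_closure hg
    obtain ⟨r, hr, e⟩ := hg
    obtain ⟨i, hi, rfl⟩ := List.getElem_of_mem hr
    rw [← List.getD_eq_getElem _ ([], []) hi] at e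
    exact ⟨h3, isRefl_reflMat (fin_order h3) e (a2 i hi) (a1 i hi)⟩
  · have b1 : ∀ i < R.length, ∀ u ∈ U, ∑ j, star (a i j) * u j ≠ 0 → a i ∈ U := by
      intro i hi u hu h0
      obtain ⟨g, hg⟩ := hR _ (a3 i hi)
      have := U.sub_mem (hU g (Subgroup.subset_closure ⟨_, a3 i hi, hg⟩) u hu) hu
      rw [hg, refl_sub] at this
      exact (U.smul_mem_iff ((MulOpposite.op_ne_zero_iff _).2 (smul_ne_zero (inv_ne_zero (a2 i hi))
        (mul_ne_zero (sub_ne_zero.2 (a1 i hi)) h0)))).1 this
    have b2 : ∀ i < R.length, a i ∈ U ↔ a 0 ∈ U := by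
      intro i
      induction hd : dp.getD i 0 using Nat.strong_induction_on generalizing i with
      | _ d ih =>
        intro hi
        obtain ⟨-, -, c0, rfl | c1, c2⟩ := h1 i hi
        · rfl
        · have c3 := nz c2
          rw [val_ipc] at c3
          rw [← ih _ (hd ▸ c1) (par.getD i 0) rfl c0]
          refine ⟨fun h => b1 _ c0 _ h fun e => c3 ?_, fun h => b1 _ hi _ h c3⟩
          simpa [star_sum, ha] using congrArg star e
    have b3 : ∀ k : Fin n, ∃ μ : ℍ[ℝ], μ ≠ 0 ∧ ∃ c : ℕ → ℍ[ℝ], ∀ j,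
        ∑ i ∈ Finset.range R.length, a i j * c i = if j = k then μ else 0 := by
      intro k
      have e : ∀ j : Fin n, Q4.val D (sumQ R.length fun i => Q4.mul D
          (zQ ((R.getD i ([], [])).2.getD j [])) (zQ ((sp.getD k []).getD i []))) =
          ∑ i ∈ Finset.range R.length, a i j * quat D ((sp.getD k []).getD i []) := fun j => by
        simp only [val_sumQ, Q4.val_mul, val_zQ, ha]
      refine ⟨_, nz (by simpa using h2 k k.2 k k.2), fun i => quat D ((sp.getD k []).getD i []),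
        fun j => ?_⟩
      split_ifs with hj
      · rw [hj]
        simpa using (e k).symm
      · have h3 := h2 k k.2 j j.2
        rw [show Nat.beq j k = false by
          rw [← Bool.not_eq_true, Nat.beq_eq]; exact fun e => hj (Fin.ext e),
          Bool.false_xor] at h3
        rw [← e, Q4.val_beq h3, Q4.val_zero]
    by_cases h0 : ∀ i < R.length, a i ∈ U
    · right
      rw [eq_top_iff]
      intro v _
      rw [← Finset.univ_sum_single v]
      refine U.sum_mem fun k _ => ?_
      obtain ⟨μ, hμ, c, hc⟩ := b3 k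
      have : Pi.single k (v k) = ∑ i ∈ Finset.range R.length,
          MulOpposite.op (c i * (μ⁻¹ * v k)) • a i := by
        ext1 j
        simp only [Finset.sum_apply, Pi.smul_apply, op_smul_eq_mul, ← mul_assoc,
          ← Finset.sum_mul, hc, Pi.single_apply]
        split_ifs <;> simp [hμ]
      rw [this]
      exact U.sum_mem fun i hi => U.smul_mem _ (h0 i (Finset.mem_range.1 hi))
    · left
      rw [eq_bot_iff]
      intro u hu
      ext1 k
      obtain ⟨μ, hμ, c, hc⟩ := b3 k
      have e1 : ∀ i < R.length, ∑ j, star (a i j) * u j = 0 := fun i hi => by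
        by_contra e
        exact h0 fun i' hi' => (b2 i' hi').2 ((b2 i hi).1 (b1 i hi u hu e))
      have e2 : ∑ j, star (∑ i ∈ Finset.range R.length, a i j * c i) * u j = 0 := by
        simp only [star_sum, star_mul, Finset.sum_mul, mul_assoc]
        rw [Finset.sum_comm]
        exact Finset.sum_eq_zero fun i hi => by
          rw [← Finset.mul_sum, e1 i (Finset.mem_range.1 hi), mul_zero]
      simpa [hc, apply_ite, hμ] using e2

theorem Dat.irr (z : Dat) (hD : z.y.D.Prime) (h0 : z.c0 = true) (h1 : z.y.ok = true)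
    (hr : allL z.rt (fun e => z.y.rok e.1.1 e.1.2 e.2) = true) (h2 : z.c2 = true)
    (h3 : z.c3 = true) (h4 : z.c4 = true) (h5 : z.c5 = true) (par dp : List ℕ)
    (sp : List (List (List ℤ))) (h : irc z.y.D z.y.n (z.rt.map Prod.fst) par dp sp = true) :
    IsIrredReflGroup z.W ∧ Nat.card z.W = z.o := by
  obtain ⟨_, c1, -⟩ := z.enum hD h0 h1 hr h2 h3 h4 h5
  have : Finite (grp z.y.n z.y.D (z.rt.map Prod.fst)) := inferInstanceAs (Finite z.W)
  refine ⟨irc_spec hD h fun r hr' => ?_, by rw [Nat.card_eq_fintype_card, c1]⟩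
  obtain ⟨e, he, rfl⟩ := List.mem_map.1 hr'
  obtain ⟨g, hg, -⟩ := (Sys.ok_spec hD h1).rok_spec ((allL_iff _ _).1 hr e he)
  exact ⟨g, hg⟩

end Pool.Agent.P.MP_97ea17_al.Ck
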