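import Pool.Agent.P.MP_97ea17_al.S1
import Pool.Agent.P.MP_97ea17_al.Irr
import Pool.Agent.P.MP_97ea17_al.DI1
import Pool.Agent.P.MP_97ea17_al.DO1
import Pool.Agent.P.MP_97ea17_al.DO2
import Pool.Agent.P.MP_97ea17_al.DO3
import Pool.Agent.P.MP_97ea17_al.DP1
import Pool.Agent.P.MP_97ea17_al.DP2
import Pool.Agent.P.MP_97ea17_al.DP3
import Pool.Agent.P.MP_97ea17_al.DQ
import Pool.Agent.P.MP_97ea17_al.DS2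
import Pool.Agent.P.MP_97ea17_al.DS3
import Pool.Agent.P.MP_97ea17_al.DU

/-! The fourteen explicit groups. -/

namespace Pool.Agent.P.MP_97ea17_al.Ck

open scoped Quaternion

theorem irr_I1 : IsIrredReflGroup (grp 2 5 rI1) ∧ Nat.card (grp 2 5 rI1) = 240 :=
  DI1.z.irr Nat.prime_five DI1.h0 DI1.h1 DI1.hr DI1.h2 DI1.h3 DI1.h4 DI1.h5
    [0, 0, 0, 0] [0, 1, 1, 1]
    [[[1, 1], [-1, -1], [], []], [[-1, 1], [-1, -1], [], []]]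
    (by decide +kernel)

theorem bound_I1 : Bound (grp 2 5 rI1) :=
  DI1.z.bound Nat.prime_five DI1.h0 DI1.h1 DI1.hr DI1.h2 DI1.h3 DI1.h4 DI1.h5 DI1.h6 DI1.h7

theorem irr_O1 : IsIrredReflGroup (grp 2 3 rO1) ∧ Nat.card (grp 2 3 rO1) = 120 :=
  DO1.z.irr Nat.prime_three DO1.h0 DO1.h1 DO1.hr DO1.h2 DO1.h3 DO1.h4 DO1.h5
    [0, 0] [0, 1]
    [[[-3, 3, 6, 0, 1, 1, 0, 2], [0, 0, 0, 3, 0, 2, -1, 2]], [[-3, -3, 0, 6, -1, 1, 2], [-3, 3, 0, 3, 1, -1, 1]]]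
    (by decide +kernel)

theorem bound_O1 : Bound (grp 2 3 rO1) :=
  DO1.z.bound Nat.prime_three DO1.h0 DO1.h1 DO1.hr DO1.h2 DO1.h3 DO1.h4 DO1.h5 DO1.h6 DO1.h7

theorem irr_O2 : IsIrredReflGroup (grp 2 3 rO2) ∧ Nat.card (grp 2 3 rO2) = 720 :=
  DO2.z.irr Nat.prime_three DO2.h0 DO2.h1 DO2.hr DO2.h2 DO2.h3 DO2.h4 DO2.h5
    [0, 0, 0] [0, 1, 1]
    [[[], [0, 0, 0, 3, 0, 0, -1], [0, 0, 0, 3, 0, 0, -1]], [[], [-2, 2, 1, 0, 0, 0, 0, -1], [2, -2, -1, 0, 0, 0, 0, 1]]]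
    (by decide +kernel)

theorem bound_O2 : Bound (grp 2 3 rO2) :=
  DO2.z.bound Nat.prime_three DO2.h0 DO2.h1 DO2.hr DO2.h2 DO2.h3 DO2.h4 DO2.h5 DO2.h6 DO2.h7

theorem irr_O3 : IsIrredReflGroup (grp 2 3 rO3) ∧ Nat.card (grp 2 3 rO3) = 1440 :=
  DO3.z.irr Nat.prime_three DO3.h0 DO3.h1 DO3.hr DO3.h2 DO3.h3 DO3.h4 DO3.h5
    [0, 0, 0] [0, 1, 1]
    [[[0, 0, 3, -3, 2, 0, 1, -1], [], [-6, 6, 0, 0, -6, 6]], [[], [], [-1]]]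
    (by decide +kernel)

theorem bound_O3 : Bound (grp 2 3 rO3) :=
  DO3.z.bound Nat.prime_three DO3.h0 DO3.h1 DO3.hr DO3.h2 DO3.h3 DO3.h4 DO3.h5 DO3.h6 DO3.h7

theorem irr_P1 : IsIrredReflGroup (grp 2 2 rP1) ∧ Nat.card (grp 2 2 rP1) = 320 :=
  DP1.z.irr Nat.prime_two DP1.h0 DP1.h1 DP1.hr DP1.h2 DP1.h3 DP1.h4 DP1.h5
    [0, 0] [0, 1]
    [[[1], []], [[-1], [1]]]
    (by decide +kernel)

theorem bound_P1 : Bound (grp 2 2 rP1) :=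
  DP1.z.bound Nat.prime_two DP1.h0 DP1.h1 DP1.hr DP1.h2 DP1.h3 DP1.h4 DP1.h5 DP1.h6 DP1.h7

theorem irr_P2 : IsIrredReflGroup (grp 2 2 rP2) ∧ Nat.card (grp 2 2 rP2) = 1920 :=
  DP2.z.irr Nat.prime_two DP2.h0 DP2.h1 DP2.hr DP2.h2 DP2.h3 DP2.h4 DP2.h5
    [0, 0, 0] [0, 1, 1]
    [[[1], [], []], [[-1], [], [1]]]
    (by decide +kernel)

theorem bound_P2 : Bound (grp 2 2 rP2) :=
  DP2.z.bound Nat.prime_two DP2.h0 DP2.h1 DP2.hr DP2.h2 DP2.h3 DP2.h4 DP2.h5 DP2.h6 DP2.h7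

theorem irr_P3 : IsIrredReflGroup (grp 2 2 rP3) ∧ Nat.card (grp 2 2 rP3) = 3840 :=
  DP3.z.irr Nat.prime_two DP3.h0 DP3.h1 DP3.hr DP3.h2 DP3.h3 DP3.h4 DP3.h5
    [0, 0, 0, 0] [0, 1, 1, 1]
    [[[1], [], [], []], [[-1], [], [1], []]]
    (by decide +kernel)

theorem bound_P3 : Bound (grp 2 2 rP3) :=
  DP3.z.bound Nat.prime_two DP3.h0 DP3.h1 DP3.hr DP3.h2 DP3.h3 DP3.h4 DP3.h5 DP3.h6 DP3.h7

theorem irr_Q : IsIrredReflGroup (grp 3 5 rQ) ∧ Nat.card (grp 3 5 rQ) = 12096 :=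
  DQ.z.irr Nat.prime_five DQ.h0 DQ.h1 DQ.hr DQ.h2 DQ.h3 DQ.h4 DQ.h5
    [0, 0, 1, 0] [0, 1, 2, 1]
    [[[1], [], [], []], [[-1], [1], [], []], [[0, -1], [0, 1], [0, -1], []]]
    (by decide +kernel)

theorem bound_Q : Bound (grp 3 5 rQ) :=
  DQ.z.bound Nat.prime_five DQ.h0 DQ.h1 DQ.hr DQ.h2 DQ.h3 DQ.h4 DQ.h5 DQ.h6 DQ.h7

theorem irr_R : IsIrredReflGroup (grp 3 5 rR) ∧ Nat.card (grp 3 5 rR) = 1209600 :=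
  DR.z.irr Nat.prime_five DR.h0 DR.h1 DR.hr DR.h2 DR.h3 DR.h4 DR.h5
    [0, 0, 1, 1, 0] [0, 1, 2, 2, 1]
    [[[1], [], [], [], []], [[-1], [1], [], [], []], [[0, -1], [0, 1], [0, -1], [], []]]
    (by decide +kernel)

theorem bound_R : Bound (grp 3 5 rR) :=
  DR.z.bound Nat.prime_five DR.h0 DR.h1 DR.hr DR.h2 DR.h3 DR.h4 DR.h5 DR.h6 DR.h7

theorem irr_S1 : IsIrredReflGroup (grp 4 2 rS1) ∧ Nat.card (grp 4 2 rS1) = 6912 :=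
  DS1.z.irr Nat.prime_two DS1.h0 DS1.h1 DS1.hr DS1.h2 DS1.h3 DS1.h4 DS1.h5
    [0, 3, 3, 0, 0] [0, 2, 2, 1, 1]
    [[[-1], [-1], [-1], [1], []], [[1], [], [], [], []], [[], [1], [], [], []], [[], [], [1], [], []]]
    (by decide +kernel)

theorem irr_S2 : IsIrredReflGroup (grp 4 2 rS2) ∧ Nat.card (grp 4 2 rS2) = 82944 :=
  DS2.z.irr Nat.prime_two DS2.h0 DS2.h1 DS2.hr DS2.h2 DS2.h3 DS2.h4 DS2.h5
    [0, 0, 1, 4, 0] [0, 1, 2, 2, 1]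
    [[[1], [2], [3], [1], []], [[1], [1], [1], [], []], [[], [1], [1], [], []], [[], [], [1], [], []]]
    (by decide +kernel)

theorem bound_S2 : Bound (grp 4 2 rS2) :=
  DS2.z.bound Nat.prime_two DS2.h0 DS2.h1 DS2.hr DS2.h2 DS2.h3 DS2.h4 DS2.h5 DS2.h6 DS2.h7

theorem irr_S3 : IsIrredReflGroup (grp 4 2 rS3) ∧ Nat.card (grp 4 2 rS3) = 3317760 :=
  DS3.z.irr Nat.prime_two DS3.h0 DS3.h1 DS3.hr DS3.h2 DS3.h3 DS3.h4 DS3.h5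
    [0, 0, 1, 4, 0, 0] [0, 1, 2, 2, 1, 1]
    [[[1], [2], [3], [1], [], []], [[1], [1], [1], [], [], []], [[], [1], [1], [], [], []], [[], [], [1], [], [], []]]
    (by decide +kernel)

theorem bound_S3 : Bound (grp 4 2 rS3) :=
  DS3.z.bound Nat.prime_two DS3.h0 DS3.h1 DS3.hr DS3.h2 DS3.h3 DS3.h4 DS3.h5 DS3.h6 DS3.h7

theorem irr_T : IsIrredReflGroup (grp 4 5 rT) ∧ Nat.card (grp 4 5 rT) = 2592000 :=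
  DT.z.irr Nat.prime_five DT.h0 DT.h1 DT.hr DT.h2 DT.h3 DT.h4 DT.h5
    [0, 2, 0, 0, 0] [0, 2, 1, 1, 1]
    [[[2, 0, 0, 0, -2], [-6, 0, 0, 0, 2], [], [-1, 0, 0, 0, 1], []], [[1], [], [], [], []], [[], [1], [], [], []], [[-6, 0, 0, 0, 2], [2, 0, 0, 0, -2], [4], [1, 0, 0, 0, -1], []]]
    (by decide +kernel)

theorem bound_T : Bound (grp 4 5 rT) :=
  DT.z.bound Nat.prime_five DT.h0 DT.h1 DT.hr DT.h2 DT.h3 DT.h4 DT.h5 DT.h6 DT.h7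

theorem irr_U : IsIrredReflGroup (grp 5 2 rU) ∧ Nat.card (grp 5 2 rU) = 27371520 :=
  DU.z.irr Nat.prime_two DU.h0 DU.h1 DU.hr DU.h2 DU.h3 DU.h4 DU.h5
    [0, 3, 3, 0, 0, 0] [0, 2, 2, 1, 1, 1]
    [[[-1], [-1], [-1], [1], [], []], [[1], [], [], [], [], []], [[], [1], [], [], [], []], [[], [], [1], [], [], []], [[-2], [-1, -1, -1, -1], [1, -1, -1, -1], [], [], [1]]]
    (by decide +kernel)

theorem bound_U : Bound (grp 5 2 rU) :=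
  DU.z.bound Nat.prime_two DU.h0 DU.h1 DU.hr DU.h2 DU.h3 DU.h4 DU.h5 DU.h6 DU.h7

theorem exc_spec : ∀ e ∈ exc, (IsIrredReflGroup (grp e.1 e.2.1 e.2.2.2) ∧
    Nat.card (grp e.1 e.2.1 e.2.2.2) = e.2.2.1) ∧ Bound (grp e.1 e.2.1 e.2.2.2) := by
  simp only [exc, List.forall_mem_cons]
  exact ⟨⟨irr_I1, bound_I1⟩, ⟨irr_O1, bound_O1⟩, ⟨irr_O2, bound_O2⟩, ⟨irr_O3, bound_O3⟩, ⟨irr_P1, bound_P1⟩,
    ⟨irr_P2, bound_P2⟩, ⟨irr_P3, bound_P3⟩, ⟨irr_Q, bound_Q⟩, ⟨irr_R, bound_R⟩, ⟨irr_S1, bound_S1⟩,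
    ⟨irr_S2, bound_S2⟩, ⟨irr_S3, bound_S3⟩, ⟨irr_T, bound_T⟩, ⟨irr_U, bound_U⟩, by simp⟩

end Pool.Agent.P.MP_97ea17_al.Ck
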