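import Pool.Agent.P.MP_97ea17_al.Rank2a

/-! Rank two: groups normalising a real rotation group and a real reflection. -/

namespace Pool.Agent.P.MP_97ea17_al

open MvPolynomial Module
open scoped Matrix Quaternion ComplexConjugate

attribute [-simp] Matrix.coe_units_inv

/-- Rotation by `z` times the scalar `q`. -/
def rq (z : ℂ) (q : ℍ[ℝ]) : Matrix (Fin 2) (Fin 2) ℍ[ℝ] :=
  !![z.re • q, -(z.im • q); z.im • q, z.re • q]

/-- The reflection `diag(1, -1)`. -/
noncomputable def sd : Matrix (Fin 2) (Fin 2) ℍ[ℝ] := !![1, 0; 0, -1]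

theorem rq_mul (z w : ℂ) (p q : ℍ[ℝ]) : rq z p * rq w q = rq (z * w) (p * q) := by
  ext i j : 1
  fin_cases i <;> fin_cases j <;> simp [rq, Matrix.mul_apply, smul_smul] <;> module

theorem rq_one : rq 1 1 = 1 := by
  ext i j : 1
  fin_cases i <;> fin_cases j <;> simp [rq]

theorem rq_neg (z : ℂ) (q : ℍ[ℝ]) : rq (-z) q = rq z (-q) := by
  ext i j : 1
  fin_cases i <;> fin_cases j <;> simp [rq]

theorem sd_rq (z : ℂ) (q : ℍ[ℝ]) : sd * rq z q = rq (conj z) q * sd := by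
  ext i j : 1
  fin_cases i <;> fin_cases j <;> simp [rq, sd, Matrix.mul_apply]

theorem sd_sd : sd * sd = 1 := by
  ext i j : 1
  fin_cases i <;> fin_cases j <;> simp [sd, Matrix.mul_apply]

theorem rq_inv {z : ℂ} {q : ℍ[ℝ]} (hz : ‖z‖ = 1) (hq : Quaternion.normSq q = 1) :
    rq z q * rq (conj z) (star q) = 1 := by
  rw [rq_mul, Complex.mul_conj, Quaternion.self_mul_star, hq, Complex.normSq_eq_norm_sq, hz]
  simpa using rq_one

theorem blk_smul (r : ℝ) (q : ℍ[ℝ]) : blk (r • q) = (r : ℂ) • blk q := by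
  ext a b
  fin_cases a <;> fin_cases b <;> simp [blk, Complex.ext_iff]

/-- First isotypic part of a covector. -/
noncomputable def ppB : (Fin 2 × Fin 2 → ℂ) →ₗ[ℂ] (Fin 2 → ℂ) := bl 0 - Complex.I • bl 1

/-- Second isotypic part of a covector. -/
noncomputable def pmB : (Fin 2 × Fin 2 → ℂ) →ₗ[ℂ] (Fin 2 → ℂ) := bl 0 + Complex.I • bl 1

theorem bl_vecMul (l : Fin 2 × Fin 2 → ℂ) (A : Matrix (Fin 2) (Fin 2) ℍ[ℝ]) (j : Fin 2) :
    bl j (l ᵥ* cm A) = bl 0 l ᵥ* blk (A 0 j) + bl 1 l ᵥ* blk (A 1 j) := by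
  ext b
  simp [bl_apply, Matrix.vecMul, dotProduct, Fintype.sum_prod_type, cm_apply]

theorem pp_rq (z : ℂ) (q : ℍ[ℝ]) (l : Fin 2 × Fin 2 → ℂ) :
    ppB (l ᵥ* cm (rq z q)) = z • (ppB l ᵥ* blk q) ∧
      pmB (l ᵥ* cm (rq z q)) = conj z • (pmB l ᵥ* blk q) := by
  have h1 : z = z.re + z.im * Complex.I := (Complex.re_add_im z).symm
  have h2 : conj z = z.re - z.im * Complex.I := by simp [Complex.ext_iff]
  simp only [ppB, pmB, LinearMap.sub_apply, LinearMap.add_apply, LinearMap.smul_apply, bl_vecMul,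
    rq, Matrix.of_apply, Matrix.cons_val', Matrix.cons_val_zero, Matrix.cons_val_one,
    Matrix.cons_val_fin_one, blk_smul, blk_neg, Matrix.vecMul_smul, Matrix.vecMul_neg,
    Matrix.sub_vecMul, Matrix.add_vecMul, Matrix.smul_vecMul]
  rw [h2]
  generalize (z.re : ℂ) = a at h1 ⊢
  generalize (z.im : ℂ) = b at h1 ⊢
  subst h1
  constructor <;> match_scalars <;> ring_nf <;> simp

theorem pp_sd (l : Fin 2 × Fin 2 → ℂ) :
    ppB (l ᵥ* cm sd) = pmB l ∧ pmB (l ᵥ* cm sd) = ppB l := by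
  simp [ppB, pmB, bl_vecMul, sd, blk_neg, blk_one, blk_zero, sub_eq_add_neg, Matrix.vecMul_neg]

/-- Action on the first isotypic part. -/
noncomputable def aB (A : Matrix (Fin 2) (Fin 2) ℍ[ℝ]) : Matrix (Fin 2) (Fin 2) ℂ :=
  blk (A 0 0) + Complex.I • blk (A 1 0)

theorem aB_rq (z : ℂ) (q : ℍ[ℝ]) : aB (rq z q) = z • blk q := by
  conv_rhs => rw [← Complex.re_add_im z]
  simp [aB, rq, blk_smul, add_smul, mul_smul, mul_comm (z.im : ℂ)]

theorem rq_eq_one {z : ℂ} {q : ℍ[ℝ]} (h : z • blk q = 1) : rq z q = 1 := by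
  rw [← aB_rq] at h
  have h0 := congrFun (congrFun h 0) 0
  have h1 := congrFun (congrFun h 1) 0
  have h2 := congrFun (congrFun h 0) 1
  have h3 := congrFun (congrFun h 1) 1
  simp [aB, rq, blk, Complex.ext_iff] at h0 h1 h2 h3
  obtain ⟨_, _⟩ := h0
  obtain ⟨_, _⟩ := h1
  obtain ⟨_, _⟩ := h2
  obtain ⟨_, _⟩ := h3
  have a : z.re • q = 1 := by ext <;> simp [-mul_eq_zero] <;> linarith
  have b : z.im • q = 0 := by ext <;> simp only [Quaternion.re_smul, Quaternion.imI_smul,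
    Quaternion.imJ_smul, Quaternion.imK_smul, smul_eq_mul, Quaternion.re_zero,
    Quaternion.imI_zero, Quaternion.imJ_zero, Quaternion.imK_zero] <;> linarith
  ext i j : 1
  fin_cases i <;> fin_cases j <;> simp [rq, a, b]

theorem fix_rq {z : ℂ} {q : ℍ[ℝ]} {v : Fin 2 → ℍ[ℝ]} (h : rq z q *ᵥ v = v) (h0 : v ≠ 0) :
    ∃ y ≠ 0, (z • blk q) *ᵥ y = y := by
  have key : ∀ v : Fin 2 → ℍ[ℝ], rq z q *ᵥ v = v →
      (z • blk q) *ᵥ cq (v 0 + v 1 * (Complex.I : ℍ[ℝ])) = cq (v 0 + v 1 * (Complex.I : ℍ[ℝ])) := by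
    intro v h
    rw [Matrix.smul_mulVec, ← cq_mul, ← cq_mul_coe]
    conv_rhs => rw [← h]
    congr 1
    ext <;> simp [rq, Matrix.mulVec, dotProduct] <;> ring
  by_cases h1 : v 0 + v 1 * (Complex.I : ℍ[ℝ]) = 0
  · refine ⟨_, fun h2 => h0 ?_, key (fun k => v k * ⟨0, 0, 1, 0⟩) ?_⟩
    · have h3 := cq_inj (h2.trans cq_zero.symm)
      simp [Quaternion.ext_iff] at h1 h3
      obtain ⟨_, _, _, _⟩ := h1
      obtain ⟨_, _, _, _⟩ := h3
      ext i : 1
      fin_cases i <;> ext <;> simp <;> linarith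
    · ext k : 1
      conv_rhs => rw [← h]
      simp [Matrix.mulVec, dotProduct, add_mul, mul_assoc]
  · exact ⟨_, fun h2 => h1 (cq_inj (h2.trans cq_zero.symm)), key v h⟩

theorem fix_conj {z : ℂ} {q : ℍ[ℝ]} {y : Fin 2 → ℂ} (h : (z • blk q) *ᵥ y = y) (h0 : y ≠ 0) :
    ∃ y ≠ 0, (conj z • blk q) *ᵥ y = y := by
  obtain ⟨x, rfl⟩ := cq_surj y
  rw [Matrix.smul_mulVec, ← cq_mul, ← cq_mul_coe] at h
  refine ⟨cq (x * ⟨0, 0, 1, 0⟩), fun h1 => h0 ?_, ?_⟩
  · rw [(mul_eq_zero.1 (cq_inj (h1.trans cq_zero.symm))).resolve_right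
      (by simp [Quaternion.ext_iff]), cq_zero]
  · rw [Matrix.smul_mulVec, ← cq_mul, ← cq_mul_coe]
    conv_rhs => rw [← cq_inj h]
    congr 1
    ext <;> simp <;> ring

theorem IsRefl.exists_fix {g : GL (Fin 2) ℍ[ℝ]} (hg : IsRefl g) : ∃ v ≠ 0, g.val *ᵥ v = v := by
  have h1 : LinearMap.ker (Matrix.mulVecBilin ℍ[ℝ] ℍ[ℝ]ᵐᵒᵖ (g.val - 1)) ≠ ⊥ := fun e => by
    have := hg.2
    rw [e, finrank_bot] at this
    omega
  obtain ⟨v, hv, h0⟩ := Submodule.exists_mem_ne_zero_of_ne_bot h1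
  exact ⟨v, h0, (mem_fix _ _).1 hv⟩

theorem even_card_of_invol {α : Type} [Finite α] (f : α → α) (hf : ∀ a, f (f a) = a)
    (hn : ∀ a, f a ≠ a) : Even (Nat.card α) := by
  classical
  have := Fintype.ofFinite α
  have h := Equiv.Perm.card_fixedPoints_modEq (α := α) (f := f) (p := 2) (n := 1) (funext hf)
  have : IsEmpty (Function.fixedPoints f) := ⟨fun a => hn a a.2⟩
  rw [Fintype.card_eq_zero (α := Function.fixedPoints f)] at h
  rw [Nat.card_eq_fintype_card, even_iff_two_dvd]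
  exact (Nat.modEq_zero_iff_dvd).1 h

theorem bound_rot (W : Subgroup (GL (Fin 2) ℍ[ℝ])) [Finite W] {s : GL (Fin 2) ℍ[ℝ]} (hs : s ∈ W)
    (hs' : s.val = sd) (hneg : -1 ∈ W)
    (hW : ∀ w ∈ W, ∃ (ε : Bool) (z : ℂ) (q : ℍ[ℝ]), ‖z‖ = 1 ∧ Quaternion.normSq q = 1 ∧
      w.val = rq z q * if ε then sd else 1) : Bound W := by
  let Z : Subgroup ℂˣ :=
    { carrier := {z | ∃ w : W, w.val.val = rq z 1}
      mul_mem' := by
        rintro a b ⟨g, hg⟩ ⟨h, hh⟩
        exact ⟨g * h, by simp [hg, hh, rq_mul]⟩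
      one_mem' := ⟨1, by simp [rq_one]⟩
      inv_mem' := by
        rintro a ⟨g, hg⟩
        exact ⟨g⁻¹, Units.inv_eq_of_mul_eq_one_right (by simp [hg, rq_mul, rq_one])⟩ }
  have hZf : Finite Z := by
    choose f hf using fun a : Z => a.2
    refine Finite.of_injective f fun a b e => Subtype.ext (Units.ext ?_)
    have h := congrArg aB ((hf a).symm.trans (e ▸ hf b))
    rw [aB_rq, aB_rq, blk_one] at h
    simpa using congrFun (congrFun h 0) 0
  obtain ⟨d, hd⟩ : ∃ d, d = Nat.card Z := ⟨_, rfl⟩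
  have hd0 : NeZero d := ⟨hd ▸ Nat.card_pos.ne'⟩
  have hZ : Z = rootsOfUnity d ℂ := Subgroup.eq_of_le_of_card_ge
    (fun z hz => by
      rw [mem_rootsOfUnity, hd]
      exact congrArg Subtype.val (pow_card_eq_one' (x := (⟨z, hz⟩ : Z))))
    (by rw [Complex.card_rootsOfUnity, hd])
  have hZ1 : ∀ z : ℂ, z ^ d = 1 ↔ ∃ w : W, w.val.val = rq z 1 := fun z => by
    constructor
    · intro h
      have : (rootsOfUnity.mkOfPowEq z h).1 ∈ Z := hZ.ge (rootsOfUnity.mkOfPowEq z h).2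
      exact this
    · rintro ⟨w, hw⟩
      have h0 : z ≠ 0 := by
        rintro rfl
        have := w.val.val_inv
        rw [hw] at this
        simpa [rq, Matrix.mul_apply] using congrFun (congrFun this 0) 0
      have : Units.mk0 z h0 ∈ rootsOfUnity d ℂ := hZ.le ⟨w, hw⟩
      exact (mem_rootsOfUnity' _ _).1 this
  have hde : Even d := (neg_one_pow_eq_one_iff_even (R := ℂ) (by norm_num)).1
    ((hZ1 _).2 ⟨⟨-1, hneg⟩, by
      ext i j : 1
      fin_cases i <;> fin_cases j <;> simp [rq]⟩)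
  let H : Subgroup W :=
    { carrier := {w | ∃ z q, ‖z‖ = 1 ∧ Quaternion.normSq q = 1 ∧ w.val.val = rq z q}
      mul_mem' := by
        rintro a b ⟨z, q, h1, h2, h3⟩ ⟨z', q', h4, h5, h6⟩
        exact ⟨z * z', q * q', by simp [h1, h4], by simp [h2, h5], by simp [h3, h6, rq_mul]⟩
      one_mem' := ⟨1, 1, by simp, by simp, by simp [rq_one]⟩
      inv_mem' := by
        rintro a ⟨z, q, h1, h2, h3⟩
        exact ⟨conj z, star q, by simp [h1], by simp [h2],
          Units.inv_eq_of_mul_eq_one_right (by rw [h3, rq_inv h1 h2])⟩ }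
  let a : H →* Matrix (Fin 2) (Fin 2) ℂ :=
    { toFun := fun h => aB h.val.val.val
      map_one' := by simp [← rq_one, aB_rq, blk_one]
      map_mul' := by
        rintro ⟨a, z, q, h1, h2, h3⟩ ⟨b, z', q', h4, h5, h6⟩
        simp [h3, h6, rq_mul, aB_rq, blk_mul, smul_smul, mul_comm] }
  have ha : ∀ (h : H) z q, h.val.val.val = rq z q → a h = z • blk q := fun h z q e => by
    change aB _ = _
    rw [e, aB_rq]
  have hai : Function.Injective a := (injective_iff_map_eq_one a).2 fun h e => by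
    obtain ⟨z, q, h1, h2, h3⟩ := h.2
    rw [ha h z q h3] at e
    exact Subtype.ext (Subtype.ext (Units.ext (h3.trans (rq_eq_one e))))
  obtain ⟨J, hJ0, hJ, hJs, hJu⟩ := jac a hai
  set e := Nat.card {h // h ≠ 1 ∧ ∃ y ≠ 0, a h *ᵥ y = y} with he
  set s' : W := ⟨s, hs⟩ with hs''
  have hss : ∀ (w : W) z q, w.val.val = rq z q → (s' * w * s').val.val = rq (conj z) q :=
    fun w z q h => by
      simp only [hs'', Subgroup.coe_mul, Units.val_mul, hs', h]
      rw [sd_rq, mul_assoc, sd_sd, mul_one]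
  have hee : Even e := by
    have h1 : ∀ h : H, s' * h * s' ∈ H := by
      rintro ⟨a, z, q, h1, h2, h3⟩
      exact ⟨conj z, q, by simp [h1], h2, hss _ _ _ h3⟩
    have h0 : s' * s' = 1 := Subtype.ext (Units.ext (by simp [hs'', hs', sd_sd]))
    have h2 : ∀ w : W, s' * (s' * w * s') * s' = w := fun w => by
      rw [← mul_assoc, ← mul_assoc, h0, one_mul, mul_assoc, h0, mul_one]
    refine even_card_of_invol (fun h => ⟨⟨_, h1 h.1⟩, fun e => h.2.1 (Subtype.ext ?_), ?_⟩)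
      (fun h => Subtype.ext (Subtype.ext (h2 _))) ?_
    · rw [← h2 h.1.1, show s' * h.1.1 * s' = 1 from congrArg Subtype.val e, mul_one, h0]
      rfl
    · obtain ⟨⟨w, z, q, h3, h4, h5⟩, -, y, h6, h7⟩ := h
      rw [ha _ _ _ h5] at h7
      rw [ha _ _ _ (hss _ _ _ h5)]
      exact fix_conj h7 h6
    · rintro ⟨⟨w, z, q, h3, h4, h5⟩, h8, y, h6, h7⟩ e
      have h9 := ((ha _ _ _ (hss _ _ _ h5)).symm.trans (congrArg (fun h => a h.1) e)).trans
        (ha _ _ _ h5)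
      rw [ha _ _ _ h5] at h7
      have h10 : blk q ≠ 0 := fun e => by simpa [e, h4] using blk_det q
      have h11 : (z.re : ℂ) = z := Complex.conj_eq_iff_re.1 (smul_left_injective ℂ h10 h9)
      obtain ⟨x, rfl⟩ := cq_surj y
      rw [← h11, ← blk_smul, ← cq_mul] at h7
      have h12 : z.re • q = 1 := mul_right_cancel₀ (fun e => h6 (by rw [e, cq_zero]))
        ((cq_inj h7).trans (one_mul x).symm)
      refine h8 (Subtype.ext (Subtype.ext (Units.ext (h5.trans (rq_eq_one ?_)))))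
      rw [← h11, ← blk_smul, h12, blk_one]
  let Dec : W → Bool → ℂ → Matrix (Fin 2) (Fin 2) ℂ → Prop := fun g ε z u =>
    ∃ q, ‖z‖ = 1 ∧ Quaternion.normSq q = 1 ∧ u = blk q ∧ g.val.val = rq z q * if ε then sd else 1
  have hH : ∀ (g : W) (ε : Bool) z q, g.val.val = rq z q * (if ε then sd else 1) →
      ∃ h : W, h.val.val = rq z q := fun g ε z q h => by
    cases ε
    · exact ⟨g, by simpa using h⟩
    · exact ⟨g * s', by simp [hs'', hs', h, mul_assoc, sd_sd]⟩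
  have key := caseB (cW W) ppB pmB
    (fun x y => ⟨pt ((2 : ℂ)⁻¹ • (x + y)) ((Complex.I / 2) • (x - y)), by
      simp only [ppB, pmB, LinearMap.sub_apply, LinearMap.add_apply, LinearMap.smul_apply,
        bl_pt0, bl_pt1]
      constructor <;> match_scalars <;> ring_nf <;> simp <;> ring⟩)
    d e (by have := hd0.1; obtain ⟨k, hk⟩ := hde; omega)
    (fun h => Nat.not_even_iff_odd.2 hee.add_one (hde.two_dvd.trans h |> even_iff_two_dvd.2)) Dec
    (fun g => by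
      obtain ⟨ε, z, q, h1, h2, h3⟩ := hW g.1 g.2
      exact ⟨ε, z, _, q, h1, h2, rfl, h3⟩)
    (by
      rintro g ε z _ ⟨q, h1, h2, rfl, h3⟩
      refine ⟨by simp [blk_det, h2], ?_⟩
      obtain ⟨h, hh⟩ := hH g ε z q h3
      have h4 : (h⁻¹).val.val = rq (conj z) (star q) :=
        Units.inv_eq_of_mul_eq_one_right (by rw [hh, rq_inv h1 h2])
      rw [pow_mul, hZ1]
      refine ⟨h * (s' * h⁻¹ * s'), ?_⟩
      rw [Subgroup.coe_mul, Units.val_mul, hss _ _ _ h4, hh, rq_mul, Quaternion.self_mul_star, h2]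
      simp [sq])
    (by
      rintro g z _ ⟨q, h1, h2, rfl, h3⟩ l
      simpa [cW_apply, h3, Complex.inv_eq_conj h1] using pp_rq z q l)
    (by
      rintro g z _ ⟨q, h1, h2, rfl, h3⟩ l
      simpa [cW_apply, h3, Complex.inv_eq_conj h1, ← Matrix.vecMul_vecMul, pp_sd]
        using pp_rq z q l)
    (fun z hz => by
      obtain ⟨w, hw⟩ := (hZ1 z).1 hz
      exact ⟨w * s', 1, Complex.norm_eq_one_of_pow_eq_one hz hd0.1, by simp, blk_one.symm,
        by simp [hs'', hs', hw]⟩)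
    J hJ0 hJ
    (by
      rintro g ε z _ ⟨q, h1, h2, rfl, h3⟩
      obtain ⟨h, hh⟩ := hH g ε z q h3
      rw [← ha ⟨h, z, q, h1, h2, hh⟩ z q hh]
      exact hJs _)
    (fun f c hf h => hJu f c hf fun ⟨g, z, q, h1, h2, h3⟩ χ => by
      rw [ha _ z q h3]
      exact h g z _ χ ⟨q, h1, h2, rfl, by simpa using h3⟩)
  have hN : {g | g ∈ W ∧ IsRefl g}.ncard ≤ d + e := by
    have h3 : {g | g ∈ W ∧ IsRefl g}.ncard ≤ ((fun z : ℂˣ => rq z 1 * sd) '' Z ∪
        (fun h : H => h.val.val.val) '' {h | h ≠ 1 ∧ ∃ y ≠ 0, a h *ᵥ y = y}).ncard := by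
      refine Set.ncard_le_ncard_of_injOn (fun g => g.val) ?_ (fun _ _ _ _ e => Units.ext e)
        (((Set.toFinite _).image _).union ((Set.toFinite _).image _))
      rintro g ⟨hg, hg'⟩
      obtain ⟨v, hv0, hv⟩ := hg'.exists_fix
      obtain ⟨ε, z, q, h1, h2, h3⟩ := hW g hg
      cases ε
      · rw [if_neg (by simp), mul_one] at h3
        refine Or.inr ⟨⟨⟨g, hg⟩, z, q, h1, h2, h3⟩,
          ⟨fun e => hg'.ne_one (congrArg (fun h => h.val.val) e), ?_⟩, rfl⟩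
        rw [ha _ _ _ h3]
        exact fix_rq (h3 ▸ hv) hv0
      · rw [if_pos rfl] at h3
        have h4 : (g.val * g.val) *ᵥ v = v := by rw [← Matrix.mulVec_mulVec, hv, hv]
        rw [h3, mul_assoc, ← mul_assoc sd, sd_rq, mul_assoc, sd_sd, mul_one, rq_mul,
          Complex.mul_conj, Complex.normSq_eq_norm_sq, h1] at h4
        obtain ⟨i, hi⟩ := Function.ne_iff.1 hv0
        have h5 : q * q = 1 := mul_right_cancel₀ hi (by
          have := congrFun h4 i
          fin_cases i <;> simpa [rq, Matrix.mulVec, dotProduct] using this)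
        obtain ⟨z', h6, h7⟩ : ∃ z' : ℂ, z' ≠ 0 ∧ rq z q = rq z' 1 := by
          have h0 : z ≠ 0 := by rintro rfl; simp at h1
          rcases mul_self_eq_one_iff.1 h5 with rfl | rfl
          exacts [⟨z, h0, rfl⟩, ⟨-z, neg_ne_zero.2 h0, (rq_neg z 1).symm⟩]
        rw [h7] at h3
        exact Or.inl ⟨Units.mk0 z' h6, hH ⟨g, hg⟩ true z' 1 h3, h3.symm⟩
    exact h3.trans ((Set.ncard_union_le _ _).trans (Nat.add_le_add
      ((Set.ncard_image_le (Set.toFinite _)).trans hd.ge) (Set.ncard_image_le (Set.toFinite _))))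
  unfold Bound
  rw [invIdeal_eq]
  have : (2 * (Nat.card {g // g ∈ W ∧ IsRefl g} : ℚ) / (2 : ℕ) + 1) =
    ({g | g ∈ W ∧ IsRefl g}.ncard + 1 : ℕ) := by
    push_cast
    change _ = (Nat.card {g // g ∈ W ∧ IsRefl g} : ℚ) + 1
    ring
  rw [this]
  exact_mod_cast (Nat.pow_le_pow_left (Nat.succ_le_succ hN) 2).trans key

end Pool.Agent.P.MP_97ea17_al
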