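import Pool.Agent.P.MP_97ea17_al.Defs
import Pool.Agent.P.MP_97ea17_al.Abs

/-! Complexification of quaternionic matrices, invariance under conjugation, shape of
reflections. -/

namespace Pool.Agent.P.MP_97ea17_al

open MvPolynomial Module
open scoped Matrix Quaternion ComplexConjugate

attribute [-simp] Matrix.coe_units_inv

/-- Complex coordinates of a quaternion. -/
def cq (q : ℍ[ℝ]) : Fin 2 → ℂ := ![⟨q.re, q.imI⟩, ⟨q.imJ, -q.imK⟩]

/-- Complex matrix of left multiplication by a quaternion. -/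
def blk (q : ℍ[ℝ]) : Matrix (Fin 2) (Fin 2) ℂ :=
  !![⟨q.re, q.imI⟩, ⟨-q.imJ, -q.imK⟩; ⟨q.imJ, -q.imK⟩, ⟨q.re, -q.imI⟩]

theorem coord_eq {n : ℕ} (v : Fin n → ℍ[ℝ]) (i : Fin n) (a : Fin 2) :
    coord v (i, a) = cq (v i) a := by
  fin_cases a <;> simp [coord, cq]

theorem cq_mul (q x : ℍ[ℝ]) : cq (q * x) = blk q *ᵥ cq x := by
  ext a
  fin_cases a <;>
    simp [cq, blk, Matrix.mulVec, dotProduct, Fin.sum_univ_two, Complex.ext_iff] <;>
    constructor <;> ring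

theorem cq_add (x y : ℍ[ℝ]) : cq (x + y) = cq x + cq y := by
  ext a
  fin_cases a <;> simp [cq, Complex.ext_iff, add_comm]

theorem cq_zero : cq 0 = 0 := by
  ext a
  fin_cases a <;> simp [cq, Complex.ext_iff]

theorem cq_neg (x : ℍ[ℝ]) : cq (-x) = -cq x := by
  ext a
  fin_cases a <;> simp [cq, Complex.ext_iff]

theorem cq_sum {ι : Type} (s : Finset ι) (f : ι → ℍ[ℝ]) :
    cq (∑ i ∈ s, f i) = ∑ i ∈ s, cq (f i) :=
  map_sum (AddMonoidHom.mk' cq cq_add) f s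

theorem cq_surj (x : Fin 2 → ℂ) : ∃ q, cq q = x :=
  ⟨⟨(x 0).re, (x 0).im, (x 1).re, -(x 1).im⟩, by ext a; fin_cases a <;> simp [cq]⟩

theorem cq_inj {x y : ℍ[ℝ]} (h : cq x = cq y) : x = y := by
  have h0 := congrFun h 0
  have h1 := congrFun h 1
  simp [cq, Complex.ext_iff] at h0 h1
  ext <;> tauto

theorem cq_mul_coe (x : ℍ[ℝ]) (z : ℂ) : cq (x * (z : ℍ[ℝ])) = z • cq x := by
  ext a
  fin_cases a <;> simp [cq, Complex.ext_iff] <;> constructor <;> ring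

theorem blk_mul (p q : ℍ[ℝ]) : blk (p * q) = blk p * blk q := by
  ext a b
  fin_cases a <;> fin_cases b <;>
    simp [blk, Matrix.mul_apply, Fin.sum_univ_two, Complex.ext_iff] <;> constructor <;> ring

theorem blk_one : blk 1 = 1 := by
  ext a b
  fin_cases a <;> fin_cases b <;> simp [blk, Complex.ext_iff]

theorem blk_neg (q : ℍ[ℝ]) : blk (-q) = -blk q := by
  ext a b
  fin_cases a <;> fin_cases b <;> simp [blk, Complex.ext_iff]

theorem blk_zero : blk 0 = 0 := by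
  ext a b
  fin_cases a <;> fin_cases b <;> simp [blk, Complex.ext_iff]

theorem blk_det (q : ℍ[ℝ]) : (blk q).det = (Quaternion.normSq q : ℝ) := by
  rw [Quaternion.normSq_def']
  simp only [blk, Matrix.det_fin_two_of, Complex.ext_iff, Complex.ofReal_re, Complex.ofReal_im]
  simp
  constructor <;> ring

theorem blk_trace (q : ℍ[ℝ]) : (blk q).trace = (2 * q.re : ℝ) := by
  simp [blk, Matrix.trace_fin_two, Complex.ext_iff]
  ring

variable {n : ℕ}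

theorem coord_surj (x : Fin n × Fin 2 → ℂ) : ∃ v, coord v = x := by
  choose v hv using fun i => cq_surj fun a => x (i, a)
  exact ⟨v, by ext ⟨i, a⟩; rw [coord_eq, hv]⟩

/-- Complexification, as a function. -/
def cmF (A : Matrix (Fin n) (Fin n) ℍ[ℝ]) : Matrix (Fin n × Fin 2) (Fin n × Fin 2) ℂ :=
  Matrix.of fun p q => blk (A p.1 q.1) p.2 q.2

theorem coord_mulVec' (A : Matrix (Fin n) (Fin n) ℍ[ℝ]) (v : Fin n → ℍ[ℝ]) :
    coord (A *ᵥ v) = cmF A *ᵥ coord v := by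
  ext ⟨i, a⟩
  rw [coord_eq]
  simp only [Matrix.mulVec, dotProduct, cq_sum, Finset.sum_apply, cq_mul, Fintype.sum_prod_type,
    coord_eq, cmF, Matrix.of_apply]

theorem ext_coord {M N : Matrix (Fin n × Fin 2) (Fin n × Fin 2) ℂ}
    (h : ∀ v, M *ᵥ coord v = N *ᵥ coord v) : M = N := by
  refine Matrix.ext_of_mulVec_single fun i => ?_
  obtain ⟨v, hv⟩ := coord_surj (Pi.single i 1)
  rw [← hv, h]

/-- Complexification. -/
def cm : Matrix (Fin n) (Fin n) ℍ[ℝ] →* Matrix (Fin n × Fin 2) (Fin n × Fin 2) ℂ where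
  toFun := cmF
  map_one' := ext_coord fun v => by rw [← coord_mulVec']; simp
  map_mul' A B := ext_coord fun v => by
    rw [← coord_mulVec', ← Matrix.mulVec_mulVec, ← Matrix.mulVec_mulVec, coord_mulVec',
      coord_mulVec']

theorem cm_apply (A : Matrix (Fin n) (Fin n) ℍ[ℝ]) (i j : Fin n) (a b : Fin 2) :
    cm A (i, a) (j, b) = blk (A i j) a b := rfl

theorem coord_mulVec (A : Matrix (Fin n) (Fin n) ℍ[ℝ]) (v : Fin n → ℍ[ℝ]) :
    coord (A *ᵥ v) = cm A *ᵥ coord v := coord_mulVec' A v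

theorem cm_neg (A : Matrix (Fin n) (Fin n) ℍ[ℝ]) : cm (-A) = -cm A := by
  ext ⟨i, a⟩ ⟨j, b⟩
  simp [cm_apply, blk_neg]

theorem cm_trace (A : Matrix (Fin n) (Fin n) ℍ[ℝ]) :
    (cm A).trace = (2 * ∑ i, (A i i).re : ℝ) := by
  have : ∀ i, ∑ a, blk (A i i) a a = (2 * (A i i).re : ℝ) := fun i => blk_trace _
  simp only [Matrix.trace, Matrix.diag, Fintype.sum_prod_type, cm_apply, this]
  push_cast
  rw [Finset.mul_sum]

/-- The complex representation of `W`. -/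
noncomputable def cW (W : Subgroup (GL (Fin n) ℍ[ℝ])) : W →* Matrix (Fin n × Fin 2) (Fin n × Fin 2) ℂ :=
  cm.comp ((Units.coeHom _).comp W.subtype)

theorem cW_apply (W : Subgroup (GL (Fin n) ℍ[ℝ])) (g : W) : cW W g = cm g.val.val := rfl

theorem inv_iff (A : Matrix (Fin n) (Fin n) ℍ[ℝ]) (p : MvPolynomial (Fin n × Fin 2) ℂ) :
    (∀ v, eval (coord (A *ᵥ v)) p = eval (coord v) p) ↔ sub (cm A) p = p := by
  constructor
  · intro h
    apply MvPolynomial.funext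
    intro x
    obtain ⟨v, rfl⟩ := coord_surj x
    rw [eval_sub', ← coord_mulVec, h]
  · intro h v
    rw [coord_mulVec, ← eval_sub', h]

theorem invIdeal_eq (W : Subgroup (GL (Fin n) ℍ[ℝ])) : invIdeal W = invI (cW W) := by
  unfold invIdeal invI
  congr 1
  ext p
  simp only [Set.mem_ofPred_eq, inv_iff, cW_apply, Subtype.forall]

/-- Conjugate subgroup. -/
noncomputable abbrev cj (g : GL (Fin n) ℍ[ℝ]) (W : Subgroup (GL (Fin n) ℍ[ℝ])) : Subgroup (GL (Fin n) ℍ[ℝ]) :=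
  W.map (MulAut.conj g).toMonoidHom

theorem mem_cj {g h : GL (Fin n) ℍ[ℝ]} {W : Subgroup (GL (Fin n) ℍ[ℝ])} :
    h ∈ cj g W ↔ g⁻¹ * h * g ∈ W := by
  rw [Subgroup.mem_map_equiv]
  simp

theorem mem_fix (A : Matrix (Fin n) (Fin n) ℍ[ℝ]) (v : Fin n → ℍ[ℝ]) :
    v ∈ LinearMap.ker (Matrix.mulVecBilin ℍ[ℝ] ℍ[ℝ]ᵐᵒᵖ (A - 1)) ↔ A *ᵥ v = v := by
  simp [sub_eq_zero]

/-- The `ℍ`-linear automorphism given by an invertible matrix. -/
noncomputable def glEquiv (g : GL (Fin n) ℍ[ℝ]) : (Fin n → ℍ[ℝ]) ≃ₗ[ℍ[ℝ]ᵐᵒᵖ] (Fin n → ℍ[ℝ]) :=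
  LinearEquiv.ofLinearMap (Matrix.mulVecBilin ℍ[ℝ] ℍ[ℝ]ᵐᵒᵖ g.val)
    (Matrix.mulVecBilin ℍ[ℝ] ℍ[ℝ]ᵐᵒᵖ (g⁻¹).val)
    (LinearMap.ext fun v => by simp [Matrix.mulVec_mulVec, ← Units.val_mul])
    (LinearMap.ext fun v => by simp [Matrix.mulVec_mulVec, ← Units.val_mul])

theorem IsRefl.conj {h : GL (Fin n) ℍ[ℝ]} (hh : IsRefl h) (g : GL (Fin n) ℍ[ℝ]) :
    IsRefl (g * h * g⁻¹) := by
  refine ⟨(MulAut.conj g).toMonoidHom.isOfFinOrder hh.1, ?_⟩
  refine Eq.trans ?_ hh.2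
  rw [← (glEquiv g).finrank_map_eq (LinearMap.ker (Matrix.mulVecBilin ℍ[ℝ] ℍ[ℝ]ᵐᵒᵖ (h.val - 1)))]
  suffices e : LinearMap.ker (Matrix.mulVecBilin ℍ[ℝ] ℍ[ℝ]ᵐᵒᵖ ((g * h * g⁻¹).val - 1)) =
      (LinearMap.ker (Matrix.mulVecBilin ℍ[ℝ] ℍ[ℝ]ᵐᵒᵖ (h.val - 1))).map
        (glEquiv g).toLinearMap by rw [e]
  ext v
  rw [Submodule.mem_map_equiv, mem_fix, mem_fix]
  change _ ↔ h.val *ᵥ ((g⁻¹).val *ᵥ v) = (g⁻¹).val *ᵥ v
  constructor
  · intro e
    conv_rhs => rw [← e]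
    simp [Matrix.mulVec_mulVec, ← Units.val_mul, ← mul_assoc]
  · intro e
    rw [Units.val_mul, Units.val_mul, ← Matrix.mulVec_mulVec, ← Matrix.mulVec_mulVec, e,
      Matrix.mulVec_mulVec, ← Units.val_mul]
    simp

theorem isRefl_conj_iff {h g : GL (Fin n) ℍ[ℝ]} : IsRefl (g * h * g⁻¹) ↔ IsRefl h :=
  ⟨fun e => by simpa [mul_assoc] using e.conj g⁻¹, fun e => e.conj g⟩

theorem bound_cj (g : GL (Fin n) ℍ[ℝ]) (W : Subgroup (GL (Fin n) ℍ[ℝ])) :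
    Bound (cj g W) ↔ Bound W := by
  have h1 : Nat.card {h // h ∈ cj g W ∧ IsRefl h} = Nat.card {h // h ∈ W ∧ IsRefl h} := by
    refine Nat.card_congr ((MulAut.conj g).toEquiv.subtypeEquiv fun h => ?_).symm
    simp [isRefl_conj_iff]
  let e : MvPolynomial (Fin n × Fin 2) ℂ ≃ₐ[ℂ] MvPolynomial (Fin n × Fin 2) ℂ :=
    AlgEquiv.ofAlgHom (sub (cm (g⁻¹).val)) (sub (cm g.val))
      (by ext i : 1; simp [← sub_mul, ← map_mul, ← Units.val_mul, sub_one])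
      (by ext i : 1; simp [← sub_mul, ← map_mul, ← Units.val_mul, sub_one])
  have h2 : invIdeal (cj g W) = (invIdeal W).map (e : _ →+* _) := by
    unfold invIdeal
    rw [Ideal.map_span]
    congr 1
    ext p
    simp only [Set.mem_ofPred_eq, inv_iff, Set.mem_image]
    constructor
    · rintro ⟨⟨d, hd, hp⟩, h⟩
      refine ⟨sub (cm g.val) p, ⟨⟨d, hd, sub_hom _ hp⟩, fun w hw => ?_⟩, e.apply_symm_apply p⟩
      conv_rhs => rw [← h (g * w * g⁻¹) (mem_cj.2 (by simpa [mul_assoc] using hw))]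
      rw [← sub_mul, ← sub_mul, ← map_mul, ← map_mul, ← Units.val_mul, ← Units.val_mul]
      simp
    · rintro ⟨q, ⟨⟨d, hd, hp⟩, h⟩, rfl⟩
      refine ⟨⟨d, hd, sub_hom _ hp⟩, fun w hw => ?_⟩
      change sub _ (sub _ q) = sub _ q
      conv_rhs => rw [← h _ (mem_cj.1 hw)]
      rw [← sub_mul, ← sub_mul, ← map_mul, ← map_mul, ← Units.val_mul, ← Units.val_mul]
      simp
  unfold Bound
  rw [h1, (Ideal.quotientEquivAlg _ _ e h2).toLinearEquiv.finrank_eq]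

theorem IsIrredReflGroup.cj {W : Subgroup (GL (Fin n) ℍ[ℝ])} (h : IsIrredReflGroup W)
    (g : GL (Fin n) ℍ[ℝ]) : IsIrredReflGroup (cj g W) := by
  obtain ⟨h1, h2, h3⟩ := h
  refine ⟨Finite.of_surjective _ ((MulAut.conj g).toMonoidHom.subgroupMap_surjective W), ?_,
    fun U hU => ?_⟩
  · conv_rhs => rw [← h2, MP_97ea17_al.cj, MonoidHom.map_closure]
    congr 1
    ext w
    constructor
    · rintro ⟨hw, hr⟩
      exact ⟨g⁻¹ * w * g, ⟨mem_cj.1 hw, by simpa using hr.conj g⁻¹⟩, by simp [mul_assoc]⟩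
    · rintro ⟨w, ⟨hw, hr⟩, rfl⟩
      exact ⟨Subgroup.mem_map_of_mem _ hw, hr.conj g⟩
  · have := h3 (U.comap (glEquiv g).toLinearMap) fun w hw v hv => by
      have h4 := hU (g * w * g⁻¹) (mem_cj.2 (by simpa [mul_assoc] using hw)) _ hv
      change g.val *ᵥ (w.val *ᵥ v) ∈ U
      change _ *ᵥ (g.val *ᵥ v) ∈ U at h4
      simpa [Matrix.mulVec_mulVec, ← Units.val_mul] using h4
    rcases this with h | h
    · left
      rw [← Submodule.map_comap_eq_of_surjective (glEquiv g).surjective U, h, Submodule.map_bot]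
    · right
      rw [← Submodule.map_comap_eq_of_surjective (glEquiv g).surjective U, h, Submodule.map_top,
        LinearEquiv.range]

instance : Module.Finite ℍ[ℝ]ᵐᵒᵖ ℍ[ℝ] :=
  Module.Finite.equiv (MulOpposite.opLinearEquiv ℍ[ℝ]ᵐᵒᵖ (M := ℍ[ℝ])).symm

theorem finrank_V : finrank ℍ[ℝ]ᵐᵒᵖ (Fin n → ℍ[ℝ]) = n := by
  rw [Module.finrank_pi_fintype]
  have : finrank ℍ[ℝ]ᵐᵒᵖ ℍ[ℝ] = 1 := by
    rw [← (MulOpposite.opLinearEquiv ℍ[ℝ]ᵐᵒᵖ (M := ℍ[ℝ])).symm.finrank_eq]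
    exact finrank_self _
  simp [this]

/-- A reflection differs from the identity by a matrix of rank one. -/
theorem IsRefl.rank_one {g : GL (Fin n) ℍ[ℝ]} (hg : IsRefl g) :
    ∃ a b : Fin n → ℍ[ℝ], a ≠ 0 ∧ b ≠ 0 ∧ ∀ i j, (g.val - 1) i j = a i * b j := by
  set φ := Matrix.mulVecBilin ℍ[ℝ] ℍ[ℝ]ᵐᵒᵖ (g.val - 1) with hφ
  have h1 := φ.finrank_range_add_finrank_ker
  have h2 := finrank_V (n := n)
  have h3 := hg.2
  rw [← hφ] at h3
  have h4 : finrank ℍ[ℝ]ᵐᵒᵖ (LinearMap.range φ) = 1 := by omega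
  obtain ⟨⟨a, ha⟩, ha0, h5⟩ := finrank_eq_one_iff'.1 h4
  have ha1 : a ≠ 0 := fun h => ha0 (Subtype.ext h)
  choose b hb using fun j => h5 ⟨φ (Pi.single j 1), LinearMap.mem_range_self _ _⟩
  have h6 : ∀ i j, (g.val - 1) i j = a i * (b j).unop := by
    intro i j
    have := congrFun (congrArg Subtype.val (hb j)) i
    simpa [hφ] using this.symm
  refine ⟨a, fun j => (b j).unop, ha1, fun h => ?_, h6⟩
  obtain ⟨v, hv⟩ := ha
  apply ha1
  rw [← hv]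
  have : g.val - 1 = 0 := by
    ext i j : 1
    rw [h6, show (b j).unop = 0 from congrFun h j]
    simp
  simp [hφ, this]

end Pool.Agent.P.MP_97ea17_al
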