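import Pool.Agent.P.MP_97ea17_al.CaseA3
import Pool.Agent.P.MP_97ea17_al.CaseB
import Pool.Agent.P.MP_97ea17_al.Link

/-! Rank two: the monomial case. -/

namespace Pool.Agent.P.MP_97ea17_al

open MvPolynomial Module
open scoped Matrix Quaternion

attribute [-simp] Matrix.coe_units_inv

theorem blk_inj {p q : ℍ[ℝ]} (h : blk p = blk q) : p = q := by
  have h0 := congrFun (congrFun h 0) 0
  have h1 := congrFun (congrFun h 1) 0
  simp [blk, Complex.ext_iff] at h0 h1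
  ext <;> tauto

theorem cm_inj {n : ℕ} {A B : Matrix (Fin n) (Fin n) ℍ[ℝ]} (h : cm A = cm B) : A = B := by
  ext i j : 1
  exact blk_inj (Matrix.ext fun a b => congrFun (congrFun h (i, a)) (j, b))

theorem cW_inj {n : ℕ} (W : Subgroup (GL (Fin n) ℍ[ℝ])) : Function.Injective (cW W) :=
  fun _ _ h => Subtype.ext (Units.ext (cm_inj h))

theorem IsRefl.ne_one {n : ℕ} {g : GL (Fin n) ℍ[ℝ]} (hg : IsRefl g) : g ≠ 1 := by
  rintro rfl
  obtain ⟨a, b, ha, hb, h⟩ := hg.rank_one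
  obtain ⟨i, hi⟩ := Function.ne_iff.1 ha
  obtain ⟨j, hj⟩ := Function.ne_iff.1 hb
  exact mul_ne_zero hi hj (by simpa using (h i j).symm)

theorem mon_mul (π ρ : Equiv.Perm (Fin 2)) (a b : Fin 2 → SL2) :
    mon π a * mon ρ b = mon (ρ * π) (a * b ∘ π) := by
  refine Matrix.ext_of_mulVec_single fun j => ?_
  rw [← Matrix.mulVec_mulVec, mon_pt, mon_pt (ρ * π), mon_mulVec, mon_mulVec]
  simp only [Matrix.mulVec_mulVec]
  rfl

theorem mon_one : mon 1 1 = 1 := by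
  ext ⟨i, a⟩ ⟨j, b⟩
  simp [mon, Matrix.one_apply, ite_and, eq_comm]

theorem mon_inj {π : Equiv.Perm (Fin 2)} {a b : Fin 2 → SL2} (h : mon π a = mon π b) : a = b := by
  ext i x y
  simpa [mon] using congrFun (congrFun h (i, x)) (π i, y)

/-- The unimodular matrix of a unit quaternion. -/
def slq (q : ℍ[ℝ]) (h : Quaternion.normSq q = 1) : SL2 := ⟨blk q, by rw [blk_det, h]; simp⟩

theorem cm_diag {A : Matrix (Fin 2) (Fin 2) ℍ[ℝ]} (h1 : A 0 1 = 0) (h2 : A 1 0 = 0)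
    (h3 : Quaternion.normSq (A 0 0) = 1) (h4 : Quaternion.normSq (A 1 1) = 1) :
    cm A = mon 1 ![slq _ h3, slq _ h4] := by
  ext ⟨i, a⟩ ⟨j, b⟩
  rw [cm_apply]
  fin_cases i <;> fin_cases j <;> simp [mon, slq, h1, h2, blk_zero]

theorem cm_anti {A : Matrix (Fin 2) (Fin 2) ℍ[ℝ]} (h1 : A 0 0 = 0) (h2 : A 1 1 = 0)
    (h3 : Quaternion.normSq (A 0 1) = 1) (h4 : Quaternion.normSq (A 1 0) = 1) :
    cm A = mon (Equiv.swap 0 1) ![slq _ h3, slq _ h4] := by
  ext ⟨i, a⟩ ⟨j, b⟩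
  rw [cm_apply]
  fin_cases i <;> fin_cases j <;> simp [mon, slq, h1, h2, blk_zero]

/-- Diagonal or antidiagonal, with unit entries. -/
def IsMon (A : Matrix (Fin 2) (Fin 2) ℍ[ℝ]) : Prop :=
  (A 0 1 = 0 ∧ A 1 0 = 0 ∧ Quaternion.normSq (A 0 0) = 1 ∧ Quaternion.normSq (A 1 1) = 1) ∨
  (A 0 0 = 0 ∧ A 1 1 = 0 ∧ Quaternion.normSq (A 0 1) = 1 ∧ Quaternion.normSq (A 1 0) = 1)

theorem anti_refl {g : GL (Fin 2) ℍ[ℝ]} (hg : IsRefl g) (h1 : g.val 0 0 = 0)
    (h2 : g.val 1 1 = 0) : g.val 0 1 * g.val 1 0 = 1 := by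
  obtain ⟨a, b, -, -, h⟩ := hg.rank_one
  have a1 := h 0 0
  have a2 := h 1 1
  have a3 := h 0 1
  have a4 := h 1 0
  simp only [Matrix.sub_apply, h1, h2, Matrix.one_apply_eq, zero_sub, Matrix.one_apply_ne h01,
    Matrix.one_apply_ne h01.symm, sub_zero] at a1 a2 a3 a4
  have a5 : b 1 * -a 1 = 1 := mul_eq_one_comm.1 (by rw [neg_mul, ← a2, neg_neg])
  rw [mul_neg, neg_eq_iff_eq_neg] at a5
  rw [a3, a4, mul_assoc, ← mul_assoc (b 1), a5, neg_one_mul, mul_neg, ← a1, neg_neg]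

theorem bound_mon (W : Subgroup (GL (Fin 2) ℍ[ℝ])) [Finite W] (hm : ∀ w ∈ W, IsMon w.val)
    {r τ : GL (Fin 2) ℍ[ℝ]} (hr : r ∈ W) (hr' : r.val = !![-1, 0; 0, 1]) (hτ : τ ∈ W)
    (hτ' : τ.val = !![0, 1; 1, 0]) : Bound W := by
  let D : Subgroup (Fin 2 → SL2) :=
    { carrier := {a | ∃ g : W, cW W g = mon 1 a}
      mul_mem' := by
        rintro a b ⟨g, hg⟩ ⟨h, hh⟩
        exact ⟨g * h, by rw [map_mul, hg, hh, mon_mul]; rfl⟩
      one_mem' := ⟨1, by rw [map_one, mon_one]⟩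
      inv_mem' := by
        rintro a ⟨g, hg⟩
        refine ⟨g⁻¹, left_inv_eq_right_inv (a := cW W g) (by rw [← map_mul]; simp) ?_⟩
        rw [hg, mon_mul]
        simpa using mon_one }
  have hDf : Finite D := by
    choose f hf using fun a : D => a.2
    exact Finite.of_injective f fun a b e => Subtype.ext (mon_inj (by rw [← hf, ← hf, e]))
  have hsw : cW W ⟨τ, hτ⟩ = mon (Equiv.swap 0 1) 1 := by
    rw [cW_apply, cm_anti (by simp [hτ']) (by simp [hτ']) (by simp [hτ']) (by simp [hτ'])]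
    congr 1
    ext i : 2
    fin_cases i <;> simp [slq, hτ', blk_one]
  have hanti : ∀ (g : W) a, cW W g = mon (Equiv.swap 0 1) a → a ∈ D := fun g a h =>
    ⟨g * ⟨τ, hτ⟩, by rw [map_mul, h, hsw, mon_mul]; simp⟩
  have hsw' : ∀ a ∈ D, a ∘ Equiv.swap 0 1 ∈ D := by
    rintro a ⟨g, hg⟩
    exact hanti (⟨τ, hτ⟩ * g) _ (by rw [map_mul, hg, hsw, mon_mul]; simp)
  have key := caseA (cW W) D hsw' ⟨⟨r, hr⟩, by
      rw [cW_apply, cm_diag (by simp [hr']) (by simp [hr']) (by simp [hr']) (by simp [hr'])]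
      congr 1
      ext i : 2
      fin_cases i <;> simp [slq, hr', blk_one, blk_neg]⟩
    (fun g => by
      rcases hm g.1 g.2 with ⟨a, b, c, d⟩ | ⟨a, b, c, d⟩
      · exact ⟨_, _, ⟨g, cm_diag a b c d⟩, cm_diag a b c d⟩
      · exact ⟨_, _, hanti g _ (cm_anti a b c d), cm_anti a b c d⟩)
    (fun π a ⟨g, hg⟩ => by
      rcases perm_two π with rfl | rfl
      · exact ⟨g, hg⟩
      · exact ⟨g * ⟨τ, hτ⟩, by rw [map_mul, hg, hsw, mon_mul]; simp⟩)
    (Nat.card {g // g ∈ W ∧ IsRefl g}) ?_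
  · unfold Bound
    rw [invIdeal_eq]
    have : (2 * (Nat.card {g // g ∈ W ∧ IsRefl g} : ℚ) / (2 : ℕ) + 1) =
      (Nat.card {g // g ∈ W ∧ IsRefl g} + 1 : ℕ) := by push_cast; ring
    rw [this]
    exact_mod_cast key
  set H : Set SL2 := {h | Pi.mulSingle 0 h ∈ D} with hH
  set L : Set SL2 := {l | ![l, l⁻¹] ∈ D} with hL
  have hHf : H.Finite := Finite.of_injective (fun h : H => (⟨_, h.2⟩ : D)) fun a b e =>
    Subtype.ext (Pi.mulSingle_injective (M := fun _ => SL2) 0 (congrArg Subtype.val e))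
  have hLf : L.Finite := Finite.of_injective (fun l : L => (⟨_, l.2⟩ : D)) fun a b e =>
    Subtype.ext (congrFun (congrArg Subtype.val e) 0)
  have h1 : (1 : SL2) ∈ H := by simp [hH]
  have h2 := Set.ncard_sdiff_singleton_add_one h1 hHf
  have h3 : {g | g ∈ W ∧ IsRefl g}.ncard ≤ ((fun h => mon 1 (Pi.mulSingle 0 h)) '' (H \ {1}) ∪
      (fun h => mon 1 (Pi.mulSingle 1 h)) '' (H \ {1}) ∪
      (fun l => mon (Equiv.swap 0 1) ![l, l⁻¹]) '' L).ncard := by
    refine Set.ncard_le_ncard_of_injOn (fun g => cm g.val) ?_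
      (fun _ _ _ _ e => Units.ext (cm_inj e))
      (((hHf.sdiff.image _).union (hHf.sdiff.image _)).union (hLf.image _))
    rintro g ⟨hg, hg'⟩
    have hne : ∀ i, cm g.val ≠ mon 1 (Pi.mulSingle i 1) := fun i e =>
      hg'.ne_one (Units.ext (cm_inj (by rw [e, Pi.mulSingle_one, mon_one]; simp)))
    rcases hm g hg with ⟨a1, a2, a3, a4⟩ | ⟨a1, a2, a3, a4⟩
    · left
      obtain ⟨a, b, -, -, h⟩ := hg'.rank_one
      have b1 := h 0 1
      have b2 := h 0 0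
      have b3 := h 1 1
      simp only [Matrix.sub_apply, a1, Matrix.one_apply_eq, Matrix.one_apply_ne h01,
        sub_zero] at b1 b2 b3
      have b4 := cm_diag a1 a2 a3 a4
      rcases mul_eq_zero.1 b1.symm with e | e
      · have b5 : ![slq _ a3, slq _ a4] = Pi.mulSingle 1 (slq _ a4) := by
          rw [e, zero_mul, sub_eq_zero] at b2
          ext i : 2
          fin_cases i <;> simp [slq, b2, blk_one]
        rw [b5] at b4
        refine Or.inr ⟨_, ⟨?_, fun e' => hne 1 (by rw [b4, show slq _ a4 = 1 from e'])⟩, b4.symm⟩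
        convert hsw' _ ⟨⟨g, hg⟩, b4⟩ using 1
        rw [hH, Set.mem_ofPred_eq]
        congr! 1
        ext1 i
        fin_cases i <;> simp
      · have b5 : ![slq _ a3, slq _ a4] = Pi.mulSingle 0 (slq _ a3) := by
          rw [e, mul_zero, sub_eq_zero] at b3
          ext i : 2
          fin_cases i <;> simp [slq, b3, blk_one]
        rw [b5] at b4
        exact Or.inl ⟨_, ⟨⟨⟨g, hg⟩, b4⟩,
          fun e' => hne 0 (by rw [b4, show slq _ a3 = 1 from e'])⟩, b4.symm⟩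
    · have b4 := cm_anti a1 a2 a3 a4
      have b5 : slq _ a4 = (slq _ a3)⁻¹ := eq_inv_of_mul_eq_one_right (Subtype.ext (by
        change blk _ * blk _ = 1
        rw [← blk_mul, anti_refl hg' a1 a2, blk_one]))
      rw [b5] at b4
      exact Or.inr ⟨_, hanti ⟨g, hg⟩ _ b4, b4.symm⟩
  have h4 := h3.trans ((Set.ncard_union_le _ _).trans (Nat.add_le_add
    ((Set.ncard_union_le _ _).trans (Nat.add_le_add (Set.ncard_image_le hHf.sdiff)
      (Set.ncard_image_le hHf.sdiff))) (Set.ncard_image_le hLf)))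
  change {g | g ∈ W ∧ IsRefl g}.ncard + 2 ≤ 2 * H.ncard + L.ncard
  omega

end Pool.Agent.P.MP_97ea17_al
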