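import Pool.Agent.P.MP_97ea17_al.Bin

/-! The tensor square of a rank-one module, with the action of monomial matrices. -/

namespace Pool.Agent.P.MP_97ea17_al

open MvPolynomial
open scoped Matrix

/-- Polynomials in two blocks of two variables. -/
abbrev P4 := MvPolynomial (Fin 2 × Fin 2) ℂ

/-- Unimodular matrices. -/
abbrev SL2 := Matrix.SpecialLinearGroup (Fin 2) ℂ

/-- Block monomial matrix. -/
def mon (π : Equiv.Perm (Fin 2)) (a : Fin 2 → SL2) : Matrix (Fin 2 × Fin 2) (Fin 2 × Fin 2) ℂ :=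
  Matrix.of fun p q => if q.1 = π p.1 then (a p.1).1 p.2 q.2 else 0

/-- A block of a vector. -/
def bl (i : Fin 2) : (Fin 2 × Fin 2 → ℂ) →ₗ[ℂ] (Fin 2 → ℂ) := LinearMap.funLeft ℂ ℂ fun α => (i, α)

theorem bl_apply (i : Fin 2) (x : Fin 2 × Fin 2 → ℂ) (α : Fin 2) : bl i x α = x (i, α) := rfl

theorem mon_mulVec (π : Equiv.Perm (Fin 2)) (a : Fin 2 → SL2) (x : Fin 2 × Fin 2 → ℂ)
    (i : Fin 2) : bl i (mon π a *ᵥ x) = (a i).1 *ᵥ bl (π i) x := by
  ext α
  simp [bl_apply, mon, Matrix.mulVec, dotProduct, Fintype.sum_prod_type]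

theorem vecMul_mon (π : Equiv.Perm (Fin 2)) (a : Fin 2 → SL2) (l : Fin 2 × Fin 2 → ℂ)
    (i : Fin 2) : bl (π i) (l ᵥ* mon π a) = bl i l ᵥ* (a i).1 := by
  ext α
  simp only [bl_apply, mon, Matrix.vecMul, dotProduct, Fintype.sum_prod_type, Matrix.of_apply,
    EmbeddingLike.apply_eq_iff_eq]
  rw [Finset.sum_eq_single i] <;> simp +contextual [eq_comm]

/-- Linear form on a block. -/
noncomputable abbrev mlb (i : Fin 2) (l : Fin 2 → ℂ) : P4 := ml (i, 0) (i, 1) l

/-- Bracket on a block. -/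
noncomputable abbrev dlb (i : Fin 2) (l : Fin 2 → ℂ) : Derivation ℂ P4 P4 := dl (i, 0) (i, 1) l

/-- Euler operator of a block. -/
noncomputable abbrev eub (i : Fin 2) : Derivation ℂ P4 P4 := eu (i, 0) (i, 1)

theorem hb01 (i : Fin 2) : ((i, 0) : Fin 2 × Fin 2) ≠ (i, 1) := by simp

theorem eval_mlb (i : Fin 2) (l : Fin 2 → ℂ) (x : Fin 2 × Fin 2 → ℂ) :
    eval x (mlb i l) = l ⬝ᵥ bl i x := by
  simp [mlb, ml, dotProduct, bl_apply, smul_eval]

theorem sub_mlb (π : Equiv.Perm (Fin 2)) (a : Fin 2 → SL2) (i : Fin 2) (l : Fin 2 → ℂ) :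
    sub (mon π a) (mlb i l) = mlb (π i) (l ᵥ* (a i).1) := by
  apply MvPolynomial.funext
  intro x
  rw [eval_sub', eval_mlb, eval_mlb, mon_mulVec, Matrix.dotProduct_mulVec]

theorem X_eq_mlb (i α : Fin 2) : (X (i, α) : P4) = mlb i (Pi.single α 1) := by
  fin_cases α <;> simp [ml]

theorem dlb_mlb (i j : Fin 2) (l l' : Fin 2 → ℂ) (f : P4) :
    dlb i l (mlb j l' * f) = mlb j l' * dlb i l f + if i = j then om l l' • f else 0 := by
  split_ifs with h
  · subst h; exact dl_mul_ml (hb01 i) l l' f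
  · rw [add_zero]
    exact dl_mul_ml' (by simp [Ne.symm h]) (by simp) (by simp) (by simp [Ne.symm h]) l l' f

theorem eub_mlb (i j : Fin 2) (l : Fin 2 → ℂ) (f : P4) :
    eub i (mlb j l * f) = mlb j l * eub i f + if i = j then mlb j l * f else 0 := by
  split_ifs with h
  · subst h; exact eu_mul_ml (hb01 i) l f
  · rw [add_zero]
    exact eu_mul_ml' (by simp [Ne.symm h]) (by simp) (by simp) (by simp [Ne.symm h]) l f

theorem eub_dlb (i j : Fin 2) (l : Fin 2 → ℂ) (f : P4) :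
    eub i (dlb j l f) = dlb j l (eub i f) - if i = j then dlb j l f else 0 := by
  split_ifs with h
  · subst h; exact eu_dl (hb01 i) l f
  · rw [sub_zero]
    exact eu_dl' (by simp [h]) (by simp) (by simp) (by simp [h]) l f

theorem om_vecMul (M : Matrix (Fin 2) (Fin 2) ℂ) (x y : Fin 2 → ℂ) :
    om (x ᵥ* M) (y ᵥ* M) = M.det * om x y := by
  simp [om, Matrix.vecMul, dotProduct, Matrix.det_fin_two]; ring

theorem sub_dlb (π : Equiv.Perm (Fin 2)) (a : Fin 2 → SL2) (i : Fin 2) (l : Fin 2 → ℂ) (f : P4) :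
    dlb (π i) (l ᵥ* (a i).1) (sub (mon π a) f) = sub (mon π a) (dlb i l f) := by
  refine der_sub _ _ _ (fun ⟨j, α⟩ => ?_) f
  rw [X_eq_mlb, sub_mlb, ← mul_one (mlb _ _), ← mul_one (mlb j _), dlb_mlb, dlb_mlb]
  by_cases h : i = j
  · subst h
    rw [if_pos rfl, if_pos rfl, om_vecMul]
    simp
  · simp [h]

theorem sub_eub (π : Equiv.Perm (Fin 2)) (a : Fin 2 → SL2) (i : Fin 2) (f : P4) :
    eub (π i) (sub (mon π a) f) = sub (mon π a) (eub i f) := by
  refine der_sub _ _ _ (fun ⟨j, α⟩ => ?_) f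
  rw [X_eq_mlb, sub_mlb, ← mul_one (mlb _ _), ← mul_one (mlb j _), eub_mlb, eub_mlb]
  by_cases h : i = j
  · subst h
    simp [sub_mlb]
  · simp [h]

/-- Flip of a tag. -/
def fl (i : Fin 2) (t : Fin 2 → Bool) : Fin 2 → Bool := Function.update t i (!t i)

theorem fl_self (i : Fin 2) (t : Fin 2 → Bool) : fl i t i = !t i := by simp [fl]

theorem fl_ne {i j : Fin 2} (h : j ≠ i) (t : Fin 2 → Bool) : fl i t j = t j := by simp [fl, h]

theorem fl_fl (i : Fin 2) (t : Fin 2 → Bool) : fl i (fl i t) = t := by simp [fl]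

theorem fl_comm (i j : Fin 2) (t : Fin 2 → Bool) : fl i (fl j t) = fl j (fl i t) := by
  revert i j t; decide

theorem fl_comp (π : Equiv.Perm (Fin 2)) (i : Fin 2) (t : Fin 2 → Bool) :
    fl (π i) t ∘ π = fl i (t ∘ π) := by
  revert π i t; decide

/-- The operator of a covector on one block. -/
noncomputable def xa (i : Fin 2) : (Fin 2 → ℂ) →ₗ[ℂ] Module.End ℂ ((Fin 2 → Bool) → P4) :=
  LinearMap.mk₂ ℂ (fun l f t => if t i then mlb i l * f (fl i t) else dlb i l (f (fl i t)))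
    (fun l l' f => by
      ext1 t
      simp only [ml_add, dl_add, Pi.add_apply, add_mul]
      split_ifs <;> rfl)
    (fun c l f => by
      ext1 t
      simp only [ml_smul, dl_smul, Pi.smul_apply, smul_mul_assoc]
      split_ifs <;> rfl)
    (fun l f g => by
      ext1 t
      simp only [map_add, Pi.add_apply, mul_add]
      split_ifs <;> rfl)
    (fun c l f => by
      ext1 t
      simp only [Derivation.map_smul, Pi.smul_apply, mul_smul_comm]
      split_ifs <;> rfl)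

theorem xa_apply (i : Fin 2) (l : Fin 2 → ℂ) (f : (Fin 2 → Bool) → P4) (t : Fin 2 → Bool) :
    xa i l f t = if t i then mlb i l * f (fl i t) else dlb i l (f (fl i t)) := rfl

/-- The finite-dimensional part. -/
noncomputable def LA (e : ℕ) : Submodule ℂ ((Fin 2 → Bool) → P4) where
  carrier := {f | ∀ t i, eub i (f t) = ((e : ℂ) + if t i then 1 else 0) • f t}
  add_mem' ha hb t i := by simp [ha t i, hb t i]
  zero_mem' t i := by simp
  smul_mem' c f hf t i := by simp [hf t i, smul_comm c]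

theorem xa_mem {e : ℕ} (j : Fin 2) (l : Fin 2 → ℂ) {f : (Fin 2 → Bool) → P4} (hf : f ∈ LA e) :
    xa j l f ∈ LA e := by
  intro t i
  rw [xa_apply]
  by_cases h : i = j
  · subst h
    cases h1 : t i <;> simp [-Derivation.leibniz, eub_mlb, eub_dlb, hf _ i, fl_self, h1, add_smul]
  · cases h1 : t j <;> simp [-Derivation.leibniz, eub_mlb, eub_dlb, hf _ i, fl_ne h, h]

theorem xa_comm {i j : Fin 2} (h : i ≠ j) (l l' : Fin 2 → ℂ) (f : (Fin 2 → Bool) → P4) :
    xa i l (xa j l' f) = xa j l' (xa i l f) := by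
  ext1 t
  simp only [xa_apply, fl_ne h, fl_ne h.symm, fl_comm i j]
  cases t i <;> cases t j <;> simp [-Derivation.leibniz, dlb_mlb, h, h.symm, mul_left_comm]
  exact dl_comm ..

theorem xa_brk {e : ℕ} (i : Fin 2) (l l' : Fin 2 → ℂ) {f : (Fin 2 → Bool) → P4} (hf : f ∈ LA e)
    (t : Fin 2 → Bool) : (xa i l (xa i l' f) - xa i l' (xa i l f)) t =
      (om l l' * if t i then -(e + 1 : ℂ) else e + 2) • f t := by
  have h1 := ml_dl_key (i, 0) (i, 1) l l' (f t)
  have h2 : eu (i, 0) (i, 1) (f t) = _ := hf t i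
  have h3 : om l' l = -om l l' := by simp [om]; ring
  rw [h2] at h1
  simp only [Pi.sub_apply, xa_apply, fl_self, fl_fl]
  cases h4 : t i <;> simp [-Derivation.leibniz, dlb_mlb, h1, h3, h4] <;> module

theorem xa_self (i : Fin 2) (l : Fin 2 → ℂ) (f : (Fin 2 → Bool) → P4) (t : Fin 2 → Bool) :
    xa i l (xa i l f) t = mlb i l * dlb i l (f t) := by
  simp only [xa_apply, fl_self, fl_fl]
  cases t i <;> simp [-Derivation.leibniz, dlb_mlb, om_self]

/-- Action of a monomial matrix. -/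
noncomputable def tA (π : Equiv.Perm (Fin 2)) (a : Fin 2 → SL2) :
    Module.End ℂ ((Fin 2 → Bool) → P4) :=
  LinearMap.pi fun t => (sub (mon π a)).toLinearMap ∘ₗ LinearMap.proj (t ∘ π)

theorem tA_apply (π : Equiv.Perm (Fin 2)) (a : Fin 2 → SL2) (f : (Fin 2 → Bool) → P4)
    (t : Fin 2 → Bool) : tA π a f t = sub (mon π a) (f (t ∘ π)) := rfl

theorem tA_xa (π : Equiv.Perm (Fin 2)) (a : Fin 2 → SL2) (i : Fin 2) (l : Fin 2 → ℂ)
    (f : (Fin 2 → Bool) → P4) :
    tA π a (xa i l f) = xa (π i) (l ᵥ* (a i).1) (tA π a f) := by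
  ext1 t
  simp only [tA_apply, xa_apply, fl_comp, Function.comp_apply]
  split_ifs
  · rw [map_mul, sub_mlb]
  · rw [sub_dlb]

/-- Scaling of one block. -/
theorem eval_scale {f : P4} {i : Fin 2} {d : ℕ} (h : eub i f = (d : ℂ) • f) (c : ℂ)
    (x : Fin 2 × Fin 2 → ℂ) :
    eval (fun p => if p.1 = i then c * x p else x p) f = c ^ d * eval x f := by
  rw [eval_eq', eval_eq', Finset.mul_sum]
  refine Finset.sum_congr rfl fun s hs => ?_
  have h1 : s (i, 0) + s (i, 1) = d := by exact_mod_cast deg_of_eu h hs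
  rw [← h1]
  fin_cases i <;> simp [Fintype.prod_prod_type, mul_pow] <;> ring

theorem mono4 (s : Fin 2 × Fin 2 →₀ ℕ) : (monomial s (1 : ℂ) : P4) =
    X (0, 0) ^ s (0, 0) * X (0, 1) ^ s (0, 1) * (X (1, 0) ^ s (1, 0) * X (1, 1) ^ s (1, 1)) := by
  rw [monomial_eq, Finsupp.prod_fintype _ _ (by simp), Fintype.prod_prod_type]
  simp

theorem all_monomials4 (N : Submodule ℂ P4)
    (hN : ∀ i l, ∀ f ∈ N, mlb i l * dlb i l f ∈ N) {f : P4} (hf : f ∈ N) (h0 : f ≠ 0)
    {e : Fin 2 → ℕ} (he : ∀ i, eub i f = (e i : ℂ) • f) (s : Fin 2 × Fin 2 →₀ ℕ)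
    (hs : ∀ i, s (i, 0) + s (i, 1) = e i) : monomial s (1 : ℂ) ∈ N := by
  have hE : ∀ i, ∀ f ∈ N, X (i, 0) * pderiv (i, 1) f ∈ N := fun i f hf => by
    simpa [ml, dl_apply] using hN i ![1, 0] f hf
  have hF : ∀ i, ∀ f ∈ N, X (i, 1) * pderiv (i, 0) f ∈ N := fun i f hf => by
    simpa [ml, dl_apply] using hN i ![0, 1] f hf
  have hdeg : ∀ s ∈ f.support, ∀ i, s (i, 0) + s (i, 1) = e i := fun s hs i => by
    exact_mod_cast deg_of_eu (he i) hs
  obtain ⟨u, hu, h1⟩ := exists_monomial N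
    (fun (i : Fin 2) f => X (i, 0) * pderiv (i, 0) f - X (i, 1) * pderiv (i, 1) f)
    (fun i s => (s (i, 0) : ℂ) - s (i, 1))
    (fun _ f s => by rw [coeff_sub, coeff_X_pderiv, coeff_X_pderiv]; ring)
    (fun i f hf => by rw [← EF_comm]; exact sub_mem (hE i _ (hF i _ hf)) (hF i _ (hE i _ hf)))
    _ f hf h0 le_rfl (fun s hs t ht h => by
      ext ⟨i, α⟩
      have h1 := hdeg s hs i
      have h2 := hdeg t ht i
      have h3 : (s (i, 0) : ℤ) - s (i, 1) = t (i, 0) - t (i, 1) := by exact_mod_cast h i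
      fin_cases α <;> simp <;> omega)
  rw [mono4] at h1 ⊢
  have h2 := conn (hb01 0) N (e 0) (by simp) (by simp) (fun a b _ h => ⟨hE _ _ h, hF _ _ h⟩)
    (hdeg u hu 0) h1 _ _ (hs 0)
  rw [mul_comm] at h2 ⊢
  exact conn (hb01 1) N (e 1) (by simp) (by simp) (fun a b _ h => ⟨hE _ _ h, hF _ _ h⟩)
    (hdeg u hu 1) h2 _ _ (hs 1)

end Pool.Agent.P.MP_97ea17_al
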