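import Pool.Agent.P.MP_97ea17_al.Bin

/-! An explicit `SL₂`-equivariant model of the finite-dimensional module of the rational Cherednik
algebra of a dihedral group. -/

namespace Pool.Agent.P.MP_97ea17_al

open MvPolynomial
open scoped Matrix

/-- Coefficient of the cross terms. -/
noncomputable def cA (d m : ℕ) (k : ℤ) : ℂ := if 0 < k ∧ (d : ℤ) ∣ k then m / (m - k) else 0

theorem cA_nonpos (d m : ℕ) {k : ℤ} (h : k ≤ 0) : cA d m k = 0 := if_neg (by omega)

theorem cA_of_not_dvd {d : ℕ} (m : ℕ) {k : ℤ} (h : ¬ (d : ℤ) ∣ k) : cA d m k = 0 :=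
  if_neg fun h' => h h'.2

theorem cA_mul {d m : ℕ} (hdm : ¬ d ∣ m) {k : ℤ} (h : 0 < k) :
    cA d m k * (m - k) = if (d : ℤ) ∣ k then (m : ℂ) else 0 := by
  unfold cA
  by_cases h1 : (d : ℤ) ∣ k
  · rw [if_pos ⟨h, h1⟩, if_pos h1, div_mul_cancel₀]
    intro h2
    have : (m : ℤ) = k := by exact_mod_cast sub_eq_zero.1 h2
    exact hdm (Int.natCast_dvd_natCast.1 (this ▸ h1))
  · simp [h1]

/-- Raising operator, as a function. -/
noncomputable def xpF (d m : ℕ) (l : Fin 2 → ℂ) (f : ℤ → P2) (k : ℤ) : P2 :=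
  (if 1 ≤ k then dl 0 1 l (f (k - 1)) else ml 0 1 l * f (k - 1)) +
    cA d m k • (ml 0 1 l * f (-k - 1)) - cA d m (1 - k) • (ml 0 1 l * f (1 - k))

/-- Raising operator. -/
noncomputable def xp (d m : ℕ) : (Fin 2 → ℂ) →ₗ[ℂ] Module.End ℂ (ℤ → P2) :=
  LinearMap.mk₂ ℂ (xpF d m)
    (fun l l' f => by
      ext1 k
      simp only [xpF, ml_add, dl_add, Pi.add_apply, add_mul, smul_add]
      split_ifs <;> abel)
    (fun c l f => by
      ext1 k
      simp only [xpF, ml_smul, dl_smul, Pi.smul_apply, smul_mul_assoc]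
      split_ifs <;> module)
    (fun l f g => by
      ext1 k
      simp only [xpF, map_add, Pi.add_apply, mul_add, smul_add]
      split_ifs <;> abel)
    (fun c l f => by
      ext1 k
      simp only [xpF, Derivation.map_smul, Pi.smul_apply, mul_smul_comm]
      split_ifs <;> module)

/-- Reversal of the index. -/
noncomputable def sw : Module.End ℂ (ℤ → P2) := LinearMap.funLeft ℂ P2 Neg.neg

theorem sw_apply (f : ℤ → P2) (k : ℤ) : sw f k = f (-k) := rfl

theorem sw_sw (f : ℤ → P2) : sw (sw f) = f := by ext1 k; simp [sw_apply]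

/-- Lowering operator. -/
noncomputable def xm (d m : ℕ) : (Fin 2 → ℂ) →ₗ[ℂ] Module.End ℂ (ℤ → P2) :=
  (LinearMap.mulLeftRight ℂ (sw, sw)) ∘ₗ xp d m

theorem xm_eq (d m : ℕ) (l : Fin 2 → ℂ) (f : ℤ → P2) : xm d m l f = sw (xp d m l (sw f)) := rfl

theorem xp_pos (d m : ℕ) (l : Fin 2 → ℂ) (f : ℤ → P2) {k : ℤ} (h : 1 ≤ k) :
    xp d m l f k = dl 0 1 l (f (k - 1)) + cA d m k • (ml 0 1 l * f (-k - 1)) := by
  change xpF d m l f k = _
  rw [xpF, if_pos h, cA_nonpos d m (show 1 - k ≤ 0 by omega), zero_smul, sub_zero]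

theorem xp_neg (d m : ℕ) (l : Fin 2 → ℂ) (f : ℤ → P2) {k : ℤ} (h : k ≤ 0) :
    xp d m l f k = ml 0 1 l * f (k - 1) - cA d m (1 - k) • (ml 0 1 l * f (1 - k)) := by
  change xpF d m l f k = _
  rw [xpF, if_neg (by omega), cA_nonpos d m h, zero_smul, add_zero]

theorem xm_neg (d m : ℕ) (l : Fin 2 → ℂ) (f : ℤ → P2) {k : ℤ} (h : k ≤ -1) :
    xm d m l f k = dl 0 1 l (f (k + 1)) + cA d m (-k) • (ml 0 1 l * f (1 - k)) := by
  rw [xm_eq, sw_apply, xp_pos _ _ _ _ (by omega), sw_apply, sw_apply]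
  congr 3 <;> [skip; congr 1] <;> ring

theorem xm_pos (d m : ℕ) (l : Fin 2 → ℂ) (f : ℤ → P2) {k : ℤ} (h : 0 ≤ k) :
    xm d m l f k = ml 0 1 l * f (k + 1) - cA d m (1 + k) • (ml 0 1 l * f (-1 - k)) := by
  rw [xm_eq, sw_apply, xp_neg _ _ _ _ (by omega), sw_apply, sw_apply]
  congr 3 <;> [skip; skip; congr 1] <;> ring

/-- The finite-dimensional part. -/
noncomputable def LB (m : ℕ) : Submodule ℂ (ℤ → P2) where
  carrier := {f | ∀ k, eu 0 1 (f k) = ((m : ℂ) - 1 - (|k| : ℤ)) • f k}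
  add_mem' ha hb k := by simp [ha k, hb k]
  zero_mem' k := by simp
  smul_mem' c f hf k := by simp [hf k, smul_comm c]

theorem sw_mem {m : ℕ} {f : ℤ → P2} (hf : f ∈ LB m) : sw f ∈ LB m := fun k => by
  rw [sw_apply, hf, abs_neg]

theorem LB_pos {m : ℕ} {f : ℤ → P2} (hf : f ∈ LB m) {k : ℤ} (h : 0 ≤ k) :
    eu 0 1 (f k) = ((m : ℂ) - 1 - k) • f k := by rw [hf, abs_of_nonneg h]

theorem LB_neg {m : ℕ} {f : ℤ → P2} (hf : f ∈ LB m) {k : ℤ} (h : k ≤ 0) :
    eu 0 1 (f k) = ((m : ℂ) - 1 + k) • f k := by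
  rw [hf, abs_of_nonpos h]; push_cast; ring_nf

theorem h01 : (0 : Fin 2) ≠ 1 := by decide

theorem xp_mem (d : ℕ) {m : ℕ} (l : Fin 2 → ℂ) {f : ℤ → P2} (hf : f ∈ LB m) :
    xp d m l f ∈ LB m := by
  intro k
  rcases le_or_gt 1 k with h | h
  · rw [xp_pos _ _ _ _ h, map_add, Derivation.map_smul, eu_dl h01, eu_mul_ml h01,
      LB_pos hf (by omega), LB_neg hf (by omega), abs_of_nonneg (by omega), Derivation.map_smul,
      mul_smul_comm]
    push_cast
    module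
  · rw [xp_neg _ _ _ _ (by omega), map_sub, Derivation.map_smul, eu_mul_ml h01, eu_mul_ml h01,
      LB_neg hf (by omega), LB_pos hf (by omega), abs_of_nonpos (by omega), mul_smul_comm,
      mul_smul_comm]
    push_cast
    module

theorem xm_mem (d : ℕ) {m : ℕ} (l : Fin 2 → ℂ) {f : ℤ → P2} (hf : f ∈ LB m) :
    xm d m l f ∈ LB m := sw_mem (xp_mem d l (sw_mem hf))

/-- Partial reversal. -/
noncomputable def sg (d : ℕ) (a : ℤ) (f : ℤ → P2) (k : ℤ) : P2 :=
  if (d : ℤ) ∣ k - a then f (-k) else 0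

theorem om_comm (l l' : Fin 2 → ℂ) : om l' l = -om l l' := by simp [om]; ring

theorem cA_P {d m : ℕ} (hdm : ¬ d ∣ m) {k : ℤ} (h : 0 < k) (g : P2) :
    C (cA d m k) * ((m : P2) - (k : P2)) * g = (m : P2) * if (d : ℤ) ∣ k then g else 0 := by
  have := congrArg (C : ℂ → P2) (cA_mul hdm h)
  simp only [map_mul, map_sub, map_natCast, map_intCast] at this
  rw [this]
  split_ifs <;> simp

theorem key_pos {m : ℕ} {f : ℤ → P2} (hf : f ∈ LB m) {k : ℤ} (h : 0 ≤ k) (l l' : Fin 2 → ℂ) :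
    ml 0 1 l * dl 0 1 l' (f k) =
      ml 0 1 l' * dl 0 1 l (f k) - C (om l l') * ((m : P2) - 1 - (k : P2)) * f k := by
  rw [ml_dl_key, LB_pos hf h]
  simp only [smul_eq_C_mul, map_sub, map_natCast, map_intCast, map_one, mul_assoc]

theorem key_neg {m : ℕ} {f : ℤ → P2} (hf : f ∈ LB m) {k : ℤ} (h : k ≤ 0) (l l' : Fin 2 → ℂ) :
    ml 0 1 l * dl 0 1 l' (f k) =
      ml 0 1 l' * dl 0 1 l (f k) - C (om l l') * ((m : P2) - 1 + (k : P2)) * f k := by
  rw [ml_dl_key, LB_neg hf h]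
  simp only [smul_eq_C_mul, map_sub, map_add, map_natCast, map_intCast, map_one, mul_assoc]

theorem comm_pp {d m : ℕ} (hd : 2 ≤ d) (hdm : ¬ d ∣ m) (l l' : Fin 2 → ℂ) {f : ℤ → P2}
    (hf : f ∈ LB m) :
    xp d m l (xp d m l' f) - xp d m l' (xp d m l f) = (m * om l l') • sg d 1 f := by
  ext1 k
  have h1 : cA d m 1 = 0 := cA_of_not_dvd m fun h => by
    have := Int.le_of_dvd one_pos h
    omega
  rw [Pi.sub_apply, Pi.smul_apply, sg]
  rcases lt_trichotomy k 1 with h | rfl | h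
  · have h2 := cA_P hdm (show 0 < 1 - k by omega) (f (-k))
    have h3 := key_pos hf (show 0 ≤ -k by omega) l l'
    simp only [xp_neg _ _ _ _ (show k ≤ 0 by omega), xp_neg _ _ _ _ (show k - 1 ≤ 0 by omega),
      xp_pos _ _ _ _ (show 1 ≤ 1 - k by omega), show 1 - k - 1 = -k by ring,
      dvd_sub_comm (b := k), smul_eq_C_mul, map_mul, map_natCast]
    push_cast at h2 h3
    linear_combination (C (om l l')) * h2 - C (cA d m (1 - k)) * h3
  · have h3 := key_neg hf (show (-1 : ℤ) ≤ 0 by omega) l l'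
    simp only [xp_pos _ _ _ _ (le_refl (1 : ℤ)), xp_neg _ _ _ _ (le_refl (0 : ℤ)), sub_self, h1,
      sub_zero, zero_smul, add_zero, zero_sub, dl_mul_ml h01, dvd_zero, if_true, om_comm l l',
      smul_eq_C_mul, map_mul, map_natCast, map_neg]
    push_cast at h3
    linear_combination -h3
  · have h2 := cA_P hdm (show 0 < k - 1 by omega) (f (-k))
    have h3 := key_neg hf (show -k ≤ 0 by omega) l l'
    have h4 := dl_comm 0 1 0 1 l l' (f (k - 1 - 1))
    simp only [xp_pos _ _ _ _ (show 1 ≤ k by omega), xp_pos _ _ _ _ (show 1 ≤ k - 1 by omega),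
      xp_neg _ _ _ _ (show -k - 1 ≤ 0 by omega), show -(k - 1) - 1 = -k by ring,
      map_add, Derivation.map_smul, dl_mul_ml h01, om_comm l l']
    simp only [smul_eq_C_mul, map_mul, map_natCast, map_neg]
    push_cast at h2 h3
    linear_combination (C (om l l')) * h2 - C (cA d m (k - 1)) * h3 + h4

theorem cA_cons {d : ℕ} (hd : 2 ≤ d) (m : ℕ) {k k' : ℤ} (h : k' = k + 1) :
    (C (cA d m k) : P2) * C (cA d m k') = 0 := by
  by_cases h1 : (d : ℤ) ∣ k
  · rw [cA_of_not_dvd m (k := k') fun h2 => by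
      have := Int.le_of_dvd one_pos ((dvd_add_right h1).1 (h ▸ h2))
      omega]
    simp
  · simp [cA_of_not_dvd m h1]

theorem comm_pm {d m : ℕ} (hd : 2 ≤ d) (hdm : ¬ d ∣ m) (l l' : Fin 2 → ℂ) {f : ℤ → P2}
    (hf : f ∈ LB m) :
    xp d m l (xm d m l' f) - xm d m l' (xp d m l f) =
      om l l' • f - (m * om l l') • sg d 0 f := by
  ext1 k
  rw [Pi.sub_apply, Pi.sub_apply, Pi.smul_apply, Pi.smul_apply, sg, sub_zero]
  rcases lt_trichotomy k 0 with h | rfl | h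
  · have h2 := cA_P hdm (show 0 < -k by omega) (f (-k))
    have h3 := key_pos hf (show 0 ≤ -k by omega) l l'
    have h5 := cA_cons hd m (show 2 - k = 1 - k + 1 by ring)
    have h6 := cA_cons hd m (show 1 - k = -k + 1 by ring)
    simp only [xp_neg _ _ _ _ (show k ≤ 0 by omega), xm_neg _ _ _ _ (show k ≤ -1 by omega),
      xm_neg _ _ _ _ (show k - 1 ≤ -1 by omega), xm_pos _ _ _ _ (show 0 ≤ 1 - k by omega),
      xp_neg _ _ _ _ (show k + 1 ≤ 0 by omega), xp_pos _ _ _ _ (show 1 ≤ 1 - k by omega),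
      show 1 - k - 1 = -k by ring, show k - 1 + 1 = k by ring, show k + 1 - 1 = k by ring,
      show 1 - (k + 1) = -k by ring, show -(k - 1) = 1 - k by ring,
      show 1 - (k - 1) = 2 - k by ring, show 1 - k + 1 = 2 - k by ring,
      show 1 + (1 - k) = 2 - k by ring, show -1 - (1 - k) = k - 2 by ring,
      show -(1 - k) - 1 = k - 2 by ring, map_sub, Derivation.map_smul,
      dl_mul_ml h01, om_comm l l', dvd_neg] at h2 ⊢
    simp only [smul_eq_C_mul, map_mul, map_natCast, map_neg]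
    push_cast at h2 h3
    linear_combination (-C (om l l')) * h2 + C (cA d m (-k)) * h3 +
      (ml 0 1 l * ml 0 1 l' * f (k - 2)) * (h5 - h6)
  · have h3 := key_pos hf (le_refl 0) l l'
    have h1 : cA d m 1 = 0 := cA_of_not_dvd m fun h => by
      have := Int.le_of_dvd one_pos h
      omega
    simp only [xp_neg _ _ _ _ (le_refl (0 : ℤ)), xm_pos _ _ _ _ (le_refl (0 : ℤ)),
      xm_neg _ _ _ _ (show (0 : ℤ) - 1 ≤ -1 by omega),
      xm_pos _ _ _ _ (show (0 : ℤ) ≤ 1 - 0 by omega),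
      xp_neg _ _ _ _ (show (-1 : ℤ) - 0 ≤ 0 by omega),
      xp_pos _ _ _ _ (show (1 : ℤ) ≤ 0 + 1 by omega), dvd_zero, if_true]
    simp only [smul_eq_C_mul, map_mul, map_natCast]
    push_cast at h3 ⊢
    rw [h1, neg_zero, map_zero]
    linear_combination h3
  · have h2 := cA_P hdm h (f (-k))
    have h3 := key_neg hf (show -k ≤ 0 by omega) l l'
    have h5 := cA_cons hd m (show k + 2 = k + 1 + 1 by ring)
    have h6 := cA_cons hd m (show k + 1 = k + 1 by ring)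
    simp only [xp_pos _ _ _ _ (show 1 ≤ k by omega), xm_pos _ _ _ _ (show 0 ≤ k by omega),
      xm_pos _ _ _ _ (show 0 ≤ k - 1 by omega), xm_neg _ _ _ _ (show -k - 1 ≤ -1 by omega),
      xp_neg _ _ _ _ (show -1 - k ≤ 0 by omega), xp_pos _ _ _ _ (show 1 ≤ k + 1 by omega),
      show k - 1 + 1 = k by ring, show k + 1 - 1 = k by ring, show 1 + (k - 1) = k by ring,
      show -1 - (k - 1) = -k by ring, show -k - 1 + 1 = -k by ring,
      show -(-k - 1) = k + 1 by ring, show 1 - (-k - 1) = k + 2 by ring,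
      show -(k + 1) - 1 = -k - 2 by ring, show 1 + k = k + 1 by ring,
      show -1 - k - 1 = -k - 2 by ring, show 1 - (-1 - k) = k + 2 by ring,
      map_sub, Derivation.map_smul, dl_mul_ml h01]
    simp only [smul_eq_C_mul, map_mul, map_natCast]
    push_cast at h2 h3
    linear_combination (-C (om l l')) * h2 + C (cA d m k) * h3 +
      (ml 0 1 l * ml 0 1 l' * f (k + 2)) * (h6 - h5)

theorem sw_sg (d : ℕ) (a : ℤ) (f : ℤ → P2) : sw (sg d a (sw f)) = sg d (-a) f := by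
  ext1 k
  simp only [sw_apply, sg, show -k - a = -(k - -a) by ring, dvd_neg, neg_neg]

theorem comm_mm {d m : ℕ} (hd : 2 ≤ d) (hdm : ¬ d ∣ m) (l l' : Fin 2 → ℂ) {f : ℤ → P2}
    (hf : f ∈ LB m) :
    xm d m l (xm d m l' f) - xm d m l' (xm d m l f) = (m * om l l') • sg d (-1) f := by
  simp only [xm_eq, sw_sw]
  rw [← map_sub, comm_pp hd hdm l l' (sw_mem hf), map_smul, sw_sg]

theorem xp_xm_self {d : ℕ} (hd : 2 ≤ d) (m : ℕ) (l : Fin 2 → ℂ) (f : ℤ → P2) :
    xp d m l (xm d m l f) = fun j => ml 0 1 l * dl 0 1 l (f j) := by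
  ext1 k
  rcases le_or_gt k 0 with h | h
  · have h5 := cA_cons hd m (show 2 - k = 1 - k + 1 by ring)
    simp only [xp_neg _ _ _ _ h, xm_neg _ _ _ _ (show k - 1 ≤ -1 by omega),
      xm_pos _ _ _ _ (show 0 ≤ 1 - k by omega), show k - 1 + 1 = k by ring,
      show -(k - 1) = 1 - k by ring, show 1 - (k - 1) = 2 - k by ring,
      show 1 - k + 1 = 2 - k by ring, show 1 + (1 - k) = 2 - k by ring, smul_eq_C_mul]
    linear_combination (ml 0 1 l * ml 0 1 l * f (-1 - (1 - k))) * h5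
  · have h6 := cA_cons hd m (show k + 1 = k + 1 by ring)
    simp only [xp_pos _ _ _ _ (show 1 ≤ k by omega), xm_pos _ _ _ _ (show 0 ≤ k - 1 by omega),
      xm_neg _ _ _ _ (show -k - 1 ≤ -1 by omega), show k - 1 + 1 = k by ring,
      show 1 + (k - 1) = k by ring, show -1 - (k - 1) = -k by ring, show -k - 1 + 1 = -k by ring,
      show -(-k - 1) = k + 1 by ring, map_sub, Derivation.map_smul, dl_mul_ml h01, om_self]
    simp only [smul_eq_C_mul, map_zero]
    linear_combination (ml 0 1 l * ml 0 1 l * f (1 - (-k - 1))) * h6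

/-- Action of a pair (scalar, unimodular matrix). -/
noncomputable def tB (z : ℂ) (u : Matrix (Fin 2) (Fin 2) ℂ) : Module.End ℂ (ℤ → P2) :=
  LinearMap.pi fun k => z ^ k • ((sub u).toLinearMap ∘ₗ LinearMap.proj k)

theorem tB_apply (z : ℂ) (u : Matrix (Fin 2) (Fin 2) ℂ) (f : ℤ → P2) (k : ℤ) :
    tB z u f k = z ^ k • sub u (f k) := rfl

theorem sub_ml (u : Matrix (Fin 2) (Fin 2) ℂ) (l : Fin 2 → ℂ) :
    sub u (ml 0 1 l) = ml 0 1 (l ᵥ* u) := by rw [ml_eq_lin, ml_eq_lin, sub_lin]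

theorem cA_zpow {d : ℕ} (m : ℕ) {z : ℂ} (hz : z ^ (2 * d) = 1) (h0 : z ≠ 0) (k : ℤ) :
    cA d m k * z ^ k = cA d m k * z ^ (-k) := by
  by_cases h : (d : ℤ) ∣ k
  · obtain ⟨j, rfl⟩ := h
    have : z ^ ((d : ℤ) * j) = z ^ (-((d : ℤ) * j)) * (z ^ (2 * d)) ^ j := by
      rw [← zpow_natCast, ← zpow_mul, ← zpow_add₀ h0]
      congr 1
      push_cast
      ring
    rw [this, hz, one_zpow, mul_one]
  · simp [cA_of_not_dvd m h]

theorem tB_xp {d : ℕ} (m : ℕ) {z : ℂ} (hz : z ^ (2 * d) = 1) (h0 : z ≠ 0)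
    {u : Matrix (Fin 2) (Fin 2) ℂ} (hu : u.det = 1) (l : Fin 2 → ℂ) (f : ℤ → P2) :
    tB z u (xp d m l f) = xp d m (z • (l ᵥ* u)) (tB z u f) := by
  ext1 k
  rw [map_smul, LinearMap.smul_apply, Pi.smul_apply]
  have e1 : z ^ k = z * z ^ (k - 1) := by rw [zpow_sub_one₀ h0]; field_simp
  rcases le_or_gt 1 k with h | h
  · have h1 := cA_zpow m hz h0 k
    have e2 : z ^ (-k) = z * z ^ (-k - 1) := by rw [zpow_sub_one₀ h0]; field_simp
    simp only [tB_apply, xp_pos _ _ _ _ h, map_add, map_smul, map_mul, sub_ml,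
      Derivation.map_smul, sub_dl u hu, mul_smul_comm, smul_add, smul_smul]
    rw [← e1, mul_comm (z ^ k), h1, e2, mul_left_comm]
  · have h1 := cA_zpow m hz h0 (1 - k)
    simp only [tB_apply, xp_neg _ _ _ _ (show k ≤ 0 by omega), map_sub, map_smul, map_mul, sub_ml,
      mul_smul_comm, smul_sub, smul_smul]
    rw [← e1, h1, neg_sub, mul_left_comm z, ← e1, mul_comm (z ^ k)]

theorem sw_tB (z : ℂ) (u : Matrix (Fin 2) (Fin 2) ℂ) (f : ℤ → P2) :
    sw (tB z u f) = tB z⁻¹ u (sw f) := by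
  ext1 k
  simp [sw_apply, tB_apply]

theorem tB_xm {d : ℕ} (m : ℕ) {z : ℂ} (hz : z ^ (2 * d) = 1) (h0 : z ≠ 0)
    {u : Matrix (Fin 2) (Fin 2) ℂ} (hu : u.det = 1) (l : Fin 2 → ℂ) (f : ℤ → P2) :
    tB z u (xm d m l f) = xm d m (z⁻¹ • (l ᵥ* u)) (tB z u f) := by
  rw [xm_eq, xm_eq, sw_tB, ← tB_xp m (by rw [inv_pow, hz, inv_one]) (inv_ne_zero h0) hu, sw_tB,
    inv_inv]

end Pool.Agent.P.MP_97ea17_al
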