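import Pool.Agent.P.MP_97ea17_al.Abs

/-! Traces on homogeneous polynomials (Newton form of Molien's formula). -/

namespace Pool.Agent.P.MP_97ea17_al

open MvPolynomial
open scoped Matrix

variable {σ : Type} [Fintype σ]

/-- Substitution restricted to degree `d`. -/
noncomputable def subH (M : Matrix σ σ ℂ) (d : ℕ) :
    homogeneousSubmodule σ ℂ d →ₗ[ℂ] homogeneousSubmodule σ ℂ d :=
  (sub M).toLinearMap.restrict fun _ hp => sub_hom M hp

/-- Trace of a substitution in degree `d`. -/
noncomputable def trH (M : Matrix σ σ ℂ) (d : ℕ) : ℂ := LinearMap.trace ℂ _ (subH M d)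

theorem pderiv_lin [DecidableEq σ] (l : σ → ℂ) (i : σ) : pderiv i (lin l) = C (l i) := by
  rw [lin_apply, map_sum, Finset.sum_eq_single i]
  · simp [smul_eq_C_mul]
  · intro j _ hj; simp [pderiv_X, hj]
  · simp

omit [Fintype σ] in
theorem exists_C {p : MvPolynomial σ ℂ} (hp : p.IsHomogeneous 0) : ∃ a, p = C a :=
  ⟨_, totalDegree_eq_zero_iff_eq_C.1 ((totalDegree_zero_iff_isHomogeneous σ).2 hp)⟩

/-- Multiplication by a linear form. -/
noncomputable def mulH (l : σ → ℂ) (d : ℕ) :
    homogeneousSubmodule σ ℂ d →ₗ[ℂ] homogeneousSubmodule σ ℂ (d + 1) :=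
  (LinearMap.mulLeft ℂ (lin l)).restrict fun p hp => by
    have := (lin_hom l).mul hp
    rwa [add_comm] at this

/-- Partial derivative. -/
noncomputable def derH (i : σ) (d : ℕ) :
    homogeneousSubmodule σ ℂ (d + 1) →ₗ[ℂ] homogeneousSubmodule σ ℂ d :=
  (pderiv i : Derivation ℂ (MvPolynomial σ ℂ) _).toLinearMap.restrict fun _ hp =>
    IsHomogeneous.pderiv hp

/-- Polarisation operator. -/
noncomputable def polH (A : Matrix σ σ ℂ) : (d : ℕ) →
    (homogeneousSubmodule σ ℂ d →ₗ[ℂ] homogeneousSubmodule σ ℂ d)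
  | 0 => 0
  | d + 1 => ∑ i, mulH (A i) d ∘ₗ derH i d

theorem polH_val (A : Matrix σ σ ℂ) (d : ℕ) (p : homogeneousSubmodule σ ℂ d) :
    (polH A d p : MvPolynomial σ ℂ) = ∑ i, lin (A i) * pderiv i p := by
  cases d with
  | zero =>
    obtain ⟨p, hp⟩ := p
    obtain ⟨a, rfl⟩ := exists_C hp
    simp [polH]
  | succ d => simp [polH, mulH, derH]

theorem trace_pol [DecidableEq σ] (M : Matrix σ σ ℂ) (d : ℕ) : ∀ A : Matrix σ σ ℂ,
    LinearMap.trace ℂ _ (subH M d ∘ₗ polH A d) =
      ∑ k ∈ Finset.range d, (A * M ^ (k + 1)).trace * trH M (d - 1 - k) := by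
  induction d with
  | zero => intro A; simp [polH]
  | succ d ih =>
    intro A
    have h1 : ∀ i, derH i d ∘ₗ (subH M (d + 1) ∘ₗ mulH (A i) d) =
        (A * M) i i • subH M d + (LinearMap.codRestrict _ ((LinearMap.mulLeft ℂ
          (lin ((A * M) i))) ∘ₗ (pderiv i : Derivation ℂ (MvPolynomial σ ℂ) _).toLinearMap ∘ₗ
          (homogeneousSubmodule σ ℂ d).subtype) (fun p => by
            cases d with
            | zero =>
              obtain ⟨p, hp⟩ := p
              obtain ⟨a, rfl⟩ := exists_C hp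
              simp
            | succ d => exact (mulH ((A * M) i) d (derH i d p)).2)) ∘ₗ subH M d := by
      intro i
      ext p : 2
      have : A i ᵥ* M = (A * M) i := by ext j; simp [Matrix.vecMul, Matrix.mul_apply, dotProduct]
      simp [derH, subH, mulH, sub_lin, this, pderiv_lin, smul_eq_C_mul]
      ring
    have h2 : subH M (d + 1) ∘ₗ polH A (d + 1) =
        ∑ i, (subH M (d + 1) ∘ₗ mulH (A i) d) ∘ₗ derH i d := by
      ext p : 1
      simp [polH]
    rw [h2, map_sum]
    simp_rw [LinearMap.trace_comp_comm' (derH _ d), h1, map_add, Finset.sum_add_distrib,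
      map_smul]
    rw [← map_sum, Finset.sum_range_succ', add_comm]
    congr 1
    · have h3 := ih (A * M)
      rw [LinearMap.trace_comp_comm'] at h3
      convert h3 using 2
      · ext p : 2
        rw [LinearMap.comp_apply, polH_val]
        simp
      · rw [pow_succ' M (_ + 1), Matrix.mul_assoc]
        congr 2
        omega
    · simp [Matrix.trace, Finset.sum_mul, trH]

theorem trH_newton [DecidableEq σ] (M : Matrix σ σ ℂ) (d : ℕ) :
    (d : ℂ) * trH M d = ∑ k ∈ Finset.range d, (M ^ (k + 1)).trace * trH M (d - 1 - k) := by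
  have h := trace_pol M d 1
  have h1 : polH (1 : Matrix σ σ ℂ) d = (d : ℂ) • LinearMap.id := by
    ext p : 2
    rw [polH_val]
    have h2 : ∀ i, lin ((1 : Matrix σ σ ℂ) i) = X i := fun i => by
      rw [← lin_single]; congr 1; ext j; simp [Matrix.one_apply, Pi.single_apply, eq_comm]
    simp only [h2]
    rw [IsHomogeneous.sum_X_mul_pderiv p.2]
    simp [Nat.cast_smul_eq_nsmul]
  rw [h1] at h
  simpa [LinearMap.comp_smul, trH] using h

theorem trH_zero (M : Matrix σ σ ℂ) : trH M 0 = 1 := by
  have h1 : subH M 0 = LinearMap.id := by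
    ext ⟨p, hp⟩ : 2
    obtain ⟨a, rfl⟩ := exists_C hp
    simp [subH, sub]
  rw [trH, h1, LinearMap.trace_id, homogeneousSubmodule_zero, Submodule.one_eq_span,
    finrank_span_singleton one_ne_zero]
  simp

theorem trH_one [DecidableEq σ] (d : ℕ) :
    trH (1 : Matrix σ σ ℂ) d = Module.finrank ℂ (homogeneousSubmodule σ ℂ d) := by
  have h1 : subH (1 : Matrix σ σ ℂ) d = LinearMap.id := by
    ext p : 2
    simp [subH, sub_one]
  rw [trH, h1, LinearMap.trace_id]

theorem trH_smul (c : ℂ) (M : Matrix σ σ ℂ) (d : ℕ) : trH (c • M) d = c ^ d * trH M d := by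
  have h1 : subH (c • M) d = c ^ d • subH M d := by
    ext p : 2
    simp [subH, sub_smul c M p.2]
  rw [trH, h1, map_smul, smul_eq_mul, trH]

theorem trH_mul_comm (M N : Matrix σ σ ℂ) (d : ℕ) : trH (M * N) d = trH (N * M) d := by
  have h1 : ∀ M N : Matrix σ σ ℂ, subH (M * N) d = subH N d ∘ₗ subH M d := fun M N => by
    ext p : 2
    simp [subH, sub_mul]
  rw [trH, trH, h1, h1, LinearMap.trace_comp_comm']

variable [DecidableEq σ] {G : Type} [Group G]

/-- Homogeneous invariants of degree `d`. -/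
noncomputable def invH (c : G →* Matrix σ σ ℂ) (d : ℕ) : Submodule ℂ (MvPolynomial σ ℂ) :=
  homogeneousSubmodule σ ℂ d ⊓ ⨅ g, LinearMap.ker ((sub (c g)).toLinearMap - LinearMap.id)

theorem mem_invH {c : G →* Matrix σ σ ℂ} {d : ℕ} {p : MvPolynomial σ ℂ} :
    p ∈ invH c d ↔ p.IsHomogeneous d ∧ ∀ g, sub (c g) p = p := by
  simp [invH, sub_eq_zero]

instance (c : G →* Matrix σ σ ℂ) (d : ℕ) : Module.Finite ℂ (invH c d) :=
  Submodule.finiteDimensional_of_le inf_le_left

theorem molien [Fintype G] (c : G →* Matrix σ σ ℂ) (d : ℕ) :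
    (Fintype.card G : ℂ) * Module.finrank ℂ (invH c d) = ∑ g, trH (c g) d := by
  have hG : (Fintype.card G : ℂ) ≠ 0 := by simp
  set P := (Fintype.card G : ℂ)⁻¹ • ∑ g, subH (c g) d with hP
  have hproj : LinearMap.IsProj ((invH c d).comap (homogeneousSubmodule σ ℂ d).subtype) P := by
    constructor
    · intro p
      rw [Submodule.mem_comap, mem_invH]
      refine ⟨(P p).2, fun h => ?_⟩
      simp only [hP, subH, LinearMap.smul_apply, LinearMap.sum_apply, Submodule.subtype_apply,
        LinearMap.coe_restrict_apply, map_smul, map_sum, AlgHom.toLinearMap_apply]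
      congr 1
      exact Fintype.sum_equiv (Equiv.mulRight h) _ _ fun g => by simp [sub_mul]
    · intro p hp
      rw [Submodule.mem_comap, mem_invH] at hp
      ext : 1
      have := hp.2
      simp only [Submodule.subtype_apply] at this
      simp [hP, subH, this, ← Nat.cast_smul_eq_nsmul ℂ, smul_smul]
  have hfree : Module.Free ℂ ((invH c d).comap (homogeneousSubmodule σ ℂ d).subtype) :=
    Module.Free.of_divisionRing ℂ ((invH c d).comap (homogeneousSubmodule σ ℂ d).subtype)
  have hfree' : Module.Free ℂ (LinearMap.ker P) := Module.Free.of_divisionRing ℂ (LinearMap.ker P)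
  have h1 := hproj.trace
  rw [(Submodule.comapSubtypeEquivOfLe (show invH c d ≤ _ from inf_le_left)).finrank_eq] at h1
  rw [← h1, hP, map_smul, map_sum, smul_eq_mul, ← mul_assoc, mul_inv_cancel₀ hG, one_mul]
  rfl

end Pool.Agent.P.MP_97ea17_al
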