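import Pool.Agent.P.MP_97ea17_al.Molien

/-! Counting lower bounds for the dimension of the zero-fiber ring. -/

namespace Pool.Agent.P.MP_97ea17_al

open MvPolynomial Module
open scoped Matrix

theorem finrank_mul_le' {A : Type} [CommRing A] [Algebra ℂ A] (M N : Submodule ℂ A)
    [Module.Finite ℂ M] [Module.Finite ℂ N] :
    Module.Finite ℂ ↥(M * N) ∧ finrank ℂ ↥(M * N) ≤ finrank ℂ M * finrank ℂ N := by
  rw [← Submodule.mulMap_range, ← Module.finrank_tensorProduct]
  exact ⟨inferInstance, LinearMap.finrank_range_le _⟩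

theorem finrank_sup_le' {V ι : Type} [AddCommGroup V] [Module ℂ V] (s : Finset ι)
    (f : ι → Submodule ℂ V) (hf : ∀ i, Module.Finite ℂ (f i)) :
    Module.Finite ℂ ↥(s.sup f) ∧ finrank ℂ ↥(s.sup f) ≤ ∑ i ∈ s, finrank ℂ (f i) := by
  classical
  induction s using Finset.induction_on with
  | empty => rw [Finset.sup_empty]; exact ⟨inferInstance, by simp [finrank_bot]⟩
  | insert a s ha ih =>
    obtain ⟨h1, h2⟩ := ih
    rw [Finset.sup_insert, Finset.sum_insert ha]
    have := Submodule.finrank_add_le_finrank_add_finrank (f a) (s.sup f)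
    exact ⟨inferInstance, by omega⟩

theorem exists_compl {V : Type} [AddCommGroup V] [Module ℂ V] {A B : Submodule ℂ V}
    [Module.Finite ℂ B] (h : A ≤ B) :
    ∃ D ≤ B, B ≤ D ⊔ A ∧ finrank ℂ D + finrank ℂ A = finrank ℂ B := by
  obtain ⟨D, hD⟩ := Submodule.exists_isCompl (A.comap B.subtype)
  have h1 := Submodule.finrank_add_eq_of_isCompl hD
  rw [(Submodule.comapSubtypeEquivOfLe h).finrank_eq] at h1
  refine ⟨D.map B.subtype, Submodule.map_subtype_le _ _, fun p hp => ?_, ?_⟩
  · have : (⟨p, hp⟩ : B) ∈ A.comap B.subtype ⊔ D := by rw [hD.sup_eq_top]; trivial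
    obtain ⟨a, ha, b, hb, hab⟩ := Submodule.mem_sup.1 this
    have hp' : p = b + a := by rw [add_comm]; exact (congrArg Subtype.val hab).symm
    rw [hp']
    exact add_mem (Submodule.mem_sup_left ⟨b, hb, rfl⟩) (Submodule.mem_sup_right ha)
  · rw [Submodule.finrank_map_subtype_eq]; omega

variable {σ : Type} [Fintype σ] [DecidableEq σ] {G : Type} [Group G]

/-- Degree `k` part of an ideal. -/
noncomputable def idH (J : Ideal (MvPolynomial σ ℂ)) (k : ℕ) : Submodule ℂ (MvPolynomial σ ℂ) :=
  homogeneousSubmodule σ ℂ k ⊓ J.restrictScalars ℂ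

instance (J : Ideal (MvPolynomial σ ℂ)) (k : ℕ) : Module.Finite ℂ (idH J k) :=
  Submodule.finiteDimensional_of_le inf_le_left

/-- Degree `k` part of the ideal generated by `J` and the spaces `Gn j`. -/
noncomputable def genH (J : Ideal (MvPolynomial σ ℂ)) (Gn : ℕ → Submodule ℂ (MvPolynomial σ ℂ))
    (k : ℕ) : Submodule ℂ (MvPolynomial σ ℂ) :=
  idH J k ⊔ (Finset.range k).sup fun i => Gn (k - i) * homogeneousSubmodule σ ℂ i

theorem gs_bound [Finite G] (c : G →* Matrix σ σ ℂ) (J : Ideal (MvPolynomial σ ℂ))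
    (Gn : ℕ → Submodule ℂ (MvPolynomial σ ℂ)) (hG : ∀ j, Gn j ≤ homogeneousSubmodule σ ℂ j)
    (K : ℕ) (hR : ∀ d, 0 < d → d < K → invH c d ≤ genH J Gn d) (h : ℕ → ℕ)
    (hh : ∀ k < K, h k + finrank ℂ (idH J k) = finrank ℂ (homogeneousSubmodule σ ℂ k)) :
    ∑ k ∈ Finset.range K, h k ≤ finrank ℂ (MvPolynomial σ ℂ ⧸ invI c) +
      ∑ k ∈ Finset.range K, ∑ i ∈ Finset.range k, finrank ℂ (Gn (k - i)) * h i := by
  classical
  have hGf : ∀ j, Module.Finite ℂ (Gn j) := fun j => Submodule.finiteDimensional_of_le (hG j)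
  choose D hD1 hD2 hD3 using fun k =>
    exists_compl (show idH J k ≤ homogeneousSubmodule σ ℂ k from inf_le_left)
  have hDf : ∀ j, Module.Finite ℂ (D j) := fun j => Submodule.finiteDimensional_of_le (hD1 j)
  set U : ℕ → Submodule ℂ (MvPolynomial σ ℂ) := fun k =>
    idH J k ⊔ (Finset.range k).sup fun i => Gn (k - i) * D i with hU
  have hVU : ∀ k, genH J Gn k ≤ U k := by
    intro k
    refine sup_le le_sup_left (Finset.sup_le fun i hi => ?_)
    refine (mul_le_mul_right (hD2 i) _).trans ?_
    rw [Submodule.mul_sup]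
    refine sup_le (le_sup_of_le_right (Finset.le_sup (f := fun i => Gn (k - i) * D i) hi))
      (le_sup_of_le_left (Submodule.mul_le.2 fun a ha b hb => ⟨?_, J.mul_mem_left _ hb.2⟩))
    have := IsHomogeneous.mul (hG _ ha) hb.1
    rwa [Nat.sub_add_cancel (Finset.mem_range.1 hi).le] at this
  have hmul : ∀ d e q, q.IsHomogeneous e → ∀ p ∈ genH J Gn d, q * p ∈ genH J Gn (d + e) := by
    intro d e q hq
    change genH J Gn d ≤ (genH J Gn (d + e)).comap (LinearMap.mulLeft ℂ q)
    refine sup_le (fun p hp => Submodule.mem_sup_left ⟨?_, J.mul_mem_left _ hp.2⟩)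
      (Finset.sup_le fun i hi => Submodule.mul_le.2 fun a ha b hb => Submodule.mem_sup_right ?_)
    · have := hq.mul hp.1
      rwa [add_comm] at this
    · have hi' := Finset.mem_range.1 hi
      refine Finset.le_sup (f := fun i => Gn (d + e - i) * homogeneousSubmodule σ ℂ i)
        (Finset.mem_range.2 (show i + e < d + e by omega)) ?_
      rw [LinearMap.mulLeft_apply, mul_left_comm, show d + e - (i + e) = d - i by omega,
        mul_comm q]
      exact Submodule.mul_mem_mul ha (IsHomogeneous.mul hb hq)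
  have hfin := fun k => finrank_sup_le' (Finset.range k) (fun i => Gn (k - i) * D i)
    fun i => (finrank_mul_le' _ _).1
  have hUf : ∀ k, Module.Finite ℂ (U k) := fun k => by
    have := (hfin k).1
    rw [hU]
    infer_instance
  have h1 := sum_le_finrank c K U fun k hk f hf => hVU k (homComp_mem_invI c k _
    (fun d e p q hd hde hp hinv hq => hde ▸ hmul d e q hq p
      (hR d hd (by omega) (mem_invH.2 ⟨hp, hinv⟩))) hf)
  have h2 : ∑ k ∈ Finset.range K, finrank ℂ (U k) ≤ ∑ k ∈ Finset.range K,
      (finrank ℂ (idH J k) + ∑ i ∈ Finset.range k, finrank ℂ (Gn (k - i)) * h i) := by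
    refine Finset.sum_le_sum fun k hk => ?_
    have := (hfin k).1
    refine (Submodule.finrank_add_le_finrank_add_finrank _ _).trans
      (Nat.add_le_add_left ((hfin k).2.trans (Finset.sum_le_sum fun i hi => ?_)) _)
    have h3 := hh i ((Finset.mem_range.1 hi).trans (Finset.mem_range.1 hk))
    have h4 := hD3 i
    rw [show h i = finrank ℂ (D i) by omega]
    exact (finrank_mul_le' _ _).2
  rw [← Finset.sum_congr rfl fun k hk => hh k (Finset.mem_range.1 hk),
    Finset.sum_add_distrib] at h1
  rw [Finset.sum_add_distrib] at h2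
  omega

omit [DecidableEq σ] [Fintype σ] in
theorem hom_of_mul {f q : MvPolynomial σ ℂ} {d k : ℕ} (hf : f.IsHomogeneous d)
    (hk : (f * q).IsHomogeneous k) :
    f * q = if d ≤ k then f * homogeneousComponent (k - d) q else 0 := by
  classical
  rw [← homogeneousComponent_eq_self hk]
  conv_lhs => rw [← sum_homogeneousComponent q, Finset.mul_sum, map_sum]
  have h1 : ∀ e, homogeneousComponent k (f * homogeneousComponent e q) =
      if k = d + e then f * homogeneousComponent e q else 0 := fun e =>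
    homogeneousComponent_of_mem (hf.mul (homogeneousComponent_isHomogeneous e q))
  simp only [h1]
  split_ifs with h
  · rw [Finset.sum_eq_single (k - d)]
    · rw [if_pos (by omega)]
    · intro e _ he; rw [if_neg (by omega)]
    · intro he
      rw [homogeneousComponent_eq_zero _ _ (by have := Finset.mem_range.not.1 he; omega)]
      simp
  · exact Finset.sum_eq_zero fun e _ => if_neg (by omega)

omit [DecidableEq σ] [Fintype σ] in
theorem finrank_idH_span {f : MvPolynomial σ ℂ} {d : ℕ} (hf : f.IsHomogeneous d) (h0 : f ≠ 0)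
    (k : ℕ) : finrank ℂ (idH (Ideal.span {f}) k) =
      if d ≤ k then finrank ℂ (homogeneousSubmodule σ ℂ (k - d)) else 0 := by
  have hinj : Function.Injective (LinearMap.mulLeft ℂ f) := mul_right_injective₀ h0
  split_ifs with h
  · rw [(Submodule.equivMapOfInjective _ hinj (homogeneousSubmodule σ ℂ (k - d))).finrank_eq]
    suffices h : idH (Ideal.span {f}) k =
        (homogeneousSubmodule σ ℂ (k - d)).map (LinearMap.mulLeft ℂ f) by rw [h]
    ext p
    constructor
    · rintro ⟨h1, h2⟩
      obtain ⟨q, rfl⟩ := Ideal.mem_span_singleton.1 h2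
      exact ⟨_, homogeneousComponent_isHomogeneous (k - d) q, by
        rw [hom_of_mul hf h1, if_pos h]; rfl⟩
    · rintro ⟨q, hq, rfl⟩
      refine ⟨?_, Ideal.mem_span_singleton.2 ⟨q, rfl⟩⟩
      have := hf.mul hq
      rwa [Nat.add_sub_cancel' h] at this
  · have : idH (Ideal.span {f}) k = ⊥ := by
      rw [eq_bot_iff]
      rintro p ⟨h1, h2⟩
      obtain ⟨q, rfl⟩ := Ideal.mem_span_singleton.1 h2
      rw [hom_of_mul hf h1, if_neg h]
      exact zero_mem _
    rw [this, finrank_bot]

/-- The bound obtained by dividing by one invariant of degree `d`. -/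
theorem naive_one [Finite G] (c : G →* Matrix σ σ ℂ) (K d : ℕ) (s r : ℕ → ℕ)
    (hs : ∀ k < K, s k = finrank ℂ (homogeneousSubmodule σ ℂ k))
    (hr : ∀ k < K, r k = finrank ℂ (invH c k)) (hdK : d < K) (hrd : r d ≠ 0) :
    ∑ k ∈ Finset.range K, (s k - if d ≤ k then s (k - d) else 0) ≤
      finrank ℂ (MvPolynomial σ ℂ ⧸ invI c) +
      ∑ k ∈ Finset.range K, ∑ i ∈ Finset.range k,
        (r (k - i) - if d ≤ k - i then r (k - i - d) else 0) *
          (s i - if d ≤ i then s (i - d) else 0) := by
  classical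
  obtain ⟨⟨f, hf⟩, hf0⟩ : ∃ f : invH c d, f ≠ 0 := by
    rw [hr d hdK] at hrd
    have := Module.nontrivial_of_finrank_pos (Nat.pos_of_ne_zero hrd)
    exact exists_ne 0
  have h0 : f ≠ 0 := fun h => hf0 (Subtype.ext h)
  have hinj : Function.Injective (LinearMap.mulLeft ℂ f) := mul_right_injective₀ h0
  obtain ⟨hf1, hf2⟩ := mem_invH.1 hf
  set B : ℕ → Submodule ℂ (MvPolynomial σ ℂ) := fun j =>
    if d ≤ j then (invH c (j - d)).map (LinearMap.mulLeft ℂ f) else ⊥ with hB
  have hBR : ∀ j, B j ≤ invH c j ⊓ idH (Ideal.span {f}) j := by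
    intro j
    simp only [hB]
    split_ifs with h
    · rintro _ ⟨q, hq, rfl⟩
      obtain ⟨hq1, hq2⟩ := mem_invH.1 hq
      have := hf1.mul hq1
      rw [Nat.add_sub_cancel' h] at this
      exact ⟨mem_invH.2 ⟨this, fun g => by simp [hf2, hq2]⟩, this,
        Ideal.mem_span_singleton.2 ⟨q, rfl⟩⟩
    · exact bot_le
  have hBd : ∀ j < K, finrank ℂ (B j) = if d ≤ j then r (j - d) else 0 := by
    intro j hj
    split_ifs with h
    · rw [show B j = (invH c (j - d)).map (LinearMap.mulLeft ℂ f) from if_pos h,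
        ← (Submodule.equivMapOfInjective _ hinj _).finrank_eq, hr _ (by omega)]
    · rw [show B j = ⊥ from if_neg h]
      exact finrank_bot _ _
  choose Gn hG1 hG2 hG3 using fun j => exists_compl ((hBR j).trans inf_le_left)
  have h1 := gs_bound c (Ideal.span {f}) Gn (fun j => (hG1 j).trans inf_le_left) K
    (fun j hj _ => (hG2 j).trans (sup_le (le_sup_of_le_right ?_)
      (le_sup_of_le_left ((hBR j).trans inf_le_right))))
    (fun k => s k - if d ≤ k then s (k - d) else 0) fun k hk => ?_
  · refine h1.trans (le_of_eq ?_)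
    congr 1
    refine Finset.sum_congr rfl fun k hk => Finset.sum_congr rfl fun i hi => ?_
    have hk' := Finset.mem_range.1 hk
    have h2 := hG3 (k - i)
    rw [hBd _ (by omega), ← hr _ (by omega)] at h2
    congr 1
    omega
  · refine le_trans ?_ (Finset.le_sup
      (f := fun i => Gn (j - i) * homogeneousSubmodule σ ℂ i) (Finset.mem_range.2 hj))
    simp [homogeneousSubmodule_zero]
  · have h2 := Submodule.finrank_mono
      (show idH (Ideal.span {f}) k ≤ homogeneousSubmodule σ ℂ k from inf_le_left)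
    rw [finrank_idH_span hf1 h0] at h2 ⊢
    rw [hs k hk]
    split_ifs at h2 ⊢ with h
    · rw [hs _ (by omega)]; omega
    · omega

end Pool.Agent.P.MP_97ea17_al
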