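import Pool.Agent.P.MP_97ea17_al.Refl
import Pool.Agent.P.MP_97ea17_al.Naive

/-! Molien series and the number of reflections from the distribution of traces. -/

namespace Pool.Agent.P.MP_97ea17_al.Ck

open scoped Quaternion Matrix
open Module MvPolynomial

attribute [-simp] Matrix.coe_units_inv

/-- Complete symmetric functions from power sums. -/
noncomputable def hs (p : ℕ → ℝ) : ℕ → ℝ
  | 0 => 1
  | d + 1 => (∑ k : Fin (d + 1), p k * hs p (d - k)) / (d + 1)

theorem trH_eq {σ : Type} [Fintype σ] [DecidableEq σ] {M : Matrix σ σ ℂ} {p : ℕ → ℝ}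
    (h : ∀ k, (M ^ (k + 1)).trace = p k) (d : ℕ) : trH M d = hs p d := by
  induction d using Nat.strong_induction_on with
  | _ d ih =>
    cases d with
    | zero => rw [trH_zero, hs, Complex.ofReal_one]
    | succ d =>
      have h1 := trH_newton M (d + 1)
      have h2 : ((d + 1 : ℕ) : ℂ) ≠ 0 := Nat.cast_ne_zero.2 d.succ_ne_zero
      rw [hs]
      push_cast at h1 h2 ⊢
      rw [eq_div_iff h2, mul_comm, h1, Finset.sum_range]
      exact Finset.sum_congr rfl fun k _ => by rw [h, ih _ (by omega)]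

theorem dn_succ {α : Type} (F : ℕ → α) (K : ℕ) : dn F (K + 1) = F K :: dn F K := rfl

theorem dn_map {α β : Type} (F : ℕ → α) (f : α → β) (K : ℕ) :
    (dn F K).map f = dn (fun d => f (F d)) K := by
  induction K with
  | zero => rfl
  | succ K ih => rw [dn_succ, dn_succ, List.map_cons, ih]

theorem dn_inj {α : Type} {F H : ℕ → α} {K : ℕ} (h : dn F K = dn H K) : ∀ d < K, F d = H d := by
  induction K with
  | zero => simp
  | succ K ih =>
    obtain ⟨h1, h2⟩ := List.cons.inj h
    exact Nat.forall_lt_succ_right.2 ⟨ih h2, h1⟩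

variable {D : ℕ}

theorem val_dot {G A : List R4} {F : ℕ → ℝ} {e : ℕ} (hG : G.map (R4.val D) = dn F e) :
    (dot D G A).val D =
      ∑ k ∈ Finset.range e, (A.map (R4.val D)).getD k 0 * F (e - 1 - k) := by
  induction e generalizing G A with
  | zero =>
    rw [List.map_eq_nil_iff.1 hG]
    simp [dot, R4.val]
  | succ e ih =>
    cases G with
    | nil => exact absurd hG (by simp [dn_succ])
    | cons g G =>
      obtain ⟨h1, h2⟩ := List.cons.inj hG
      cases A with
      | nil => simp [dot, R4.val]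
      | cons a A =>
        change ((R4.mul D a g).add (dot D G A)).val D = _
        rw [R4.val_add, R4.val_mul, ih h2, Finset.sum_range_succ', add_comm, h1]
        simp only [List.map_cons, List.getD_cons_succ, List.getD_cons_zero, Nat.add_sub_cancel,
          Nat.sub_zero, Nat.sub_sub, add_comm 1]

theorem newt_succ (A : List R4) (k : List R4 → Bool) (K d : ℕ) (G : List R4) :
    newt D A k (K + 1) d G = (dot D G A).frc fun z => (z.dv d).frc fun w =>
      nd ((w.sm d).beq z) (newt D A k K (d + 4) (w :: G)) := by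
  unfold newt
  simp only [frc_eq, Nat.add_eq]

theorem newt_spec {A : List R4} {p : ℕ → ℝ} {K : ℕ}
    (hA : ∀ j < K, (A.map (R4.val D)).getD j 0 = 4 * p j) {k : List R4 → Bool} {K' e : ℕ}
    {G : List R4} (hG : G.map (R4.val D) = dn (fun j => 2 * hs p j) (e + 1)) (he : e + K' ≤ K)
    (h : newt D A k K' (4 * (e + 1)) G = true) :
    ∃ G' : List R4, G'.map (R4.val D) = dn (fun j => 2 * hs p j) (e + K' + 1) ∧ k G' = true := by
  induction K' generalizing e G with
  | zero => exact ⟨G, hG, h⟩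
  | succ K' ih =>
    rw [newt_succ] at h
    obtain ⟨z, hz, h⟩ := R4.frc_spec h
    obtain ⟨w, -, h⟩ := R4.frc_spec h
    obtain ⟨h1, h2⟩ := (nd_iff _ _).1 h
    have h3 := R4.val_beq (D := D) h1
    rw [R4.val_sm, hz, val_dot hG, Finset.sum_range] at h3
    rw [show e + (K' + 1) = e + 1 + K' by omega]
    refine ih ?_ (by omega) h2
    rw [dn_succ, List.map_cons, hG, hs]
    congr 1
    have h4 : (e + 1 : ℝ) ≠ 0 := by positivity
    rw [Finset.sum_congr rfl fun (j : Fin (e + 1)) _ => by rw [hA j (by omega)]] at h3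
    simp only [Nat.add_sub_cancel, mul_mul_mul_comm (4 : ℝ) _ 2, ← Finset.mul_sum] at h3
    push_cast at h3
    field_simp
    linarith

theorem val_axp {G A : List R4} {F H : ℕ → ℝ} {K : ℕ} (c : ℕ) (hG : G.map (R4.val D) = dn F K)
    (hA : A.map (R4.val D) = dn H K) :
    (axp c G A).map (R4.val D) = dn (fun d => H d + c * F d) K := by
  induction K generalizing G A with
  | zero => rw [List.map_eq_nil_iff.1 hG]; rfl
  | succ K ih =>
    cases G with
    | nil => exact absurd hG (by simp [dn_succ])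
    | cons g G =>
      cases A with
      | nil => exact absurd hA (by simp [dn_succ])
      | cons a A =>
        obtain ⟨h1, h2⟩ := List.cons.inj hG
        obtain ⟨h3, h4⟩ := List.cons.inj hA
        change ((a.add (g.sm c)) :: axp c G A).map _ = _
        rw [List.map_cons, ih h2 h4, R4.val_add, R4.val_sm, h1, h3, dn_succ]

theorem eqR_spec {G A : List R4} (h : eqR G A = true) : G.map (R4.val D) = A.map (R4.val D) := by
  induction G generalizing A with
  | nil => cases A with
    | nil => rfl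
    | cons a A => exact absurd h (by simp [eqR])
  | cons g G ih => cases A with
    | nil => exact absurd h (by simp [eqR])
    | cons a A =>
      obtain ⟨h1, h2⟩ := (nd_iff _ _).1 h
      rw [List.map_cons, List.map_cons, ih h2, R4.val_beq h1]

/-- Power sums of a signature. -/
noncomputable def pv (D n : ℕ) (σ : List (ℕ × ℕ)) (k : ℕ) : ℝ := (psum n σ k).val D / 4

theorem molc_cons (n K : ℕ) (R : List R4) (c : ℕ) (cs : List ℕ) (σ : List (ℕ × ℕ))
    (sg : List (List (ℕ × ℕ))) (A : List R4) : molc D n K R (c :: cs) (σ :: sg) A =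
    frcR ((List.range K).map (psum n σ)) fun P =>
      newt D P (fun G => frcR (axp c G A) (molc D n K R cs sg)) K 4 [⟨2, 0, 0, 0⟩] := by
  unfold molc
  simp only

theorem molc_spec {n K : ℕ} {R : List R4} {cs : List ℕ} {sg : List (List (ℕ × ℕ))} {A : List R4}
    {H : ℕ → ℝ} (hA : A.map (R4.val D) = dn H (K + 1)) (h : molc D n K R cs sg A = true) :
    R.map (R4.val D) =
      dn (fun d => H d + 2 * wsum cs fun i => hs (pv D n (nth [] sg i)) d) (K + 1) := by
  induction cs generalizing sg A H with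
  | nil => simp only [← eqR_spec h, hA, wsum, mul_zero, add_zero]
  | cons c cs ih =>
    cases sg with
    | nil => exact absurd h (by simp [molc])
    | cons σ sg =>
      rw [molc_cons] at h
      obtain ⟨P, hP, h⟩ := frcR_spec h
      obtain ⟨G, hG, h⟩ := newt_spec (p := pv D n σ) (K := K) (e := 0) (fun j hj => by
        rw [hP, List.getD_eq_getElem _ _ (by simpa using hj)]
        simp [pv, mul_div_cancel₀]) (by simp [dn, hs, R4.val]) (by omega) h
      obtain ⟨A', hA', h⟩ := frcR_spec h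
      rw [zero_add] at hG
      rw [ih ((hA' D).trans (val_axp c hG hA)) h]
      congr 1
      ext d
      simp only [wsum, nsmul_eq_mul, nth_eq, List.getD_cons_succ, List.getD_cons_zero]
      ring

theorem molk_spec {n K o : ℕ} {rs cs : List ℕ} {sg : List (List (ℕ × ℕ))}
    (h : molk D n K o rs cs sg = true) :
    ∀ d ≤ K, (o : ℝ) * nth 0 rs d = wsum cs fun i => hs (pv D n (nth [] sg i)) d := by
  intro d hd
  have h1 := molc_spec (H := fun _ => 0) (by rw [dn_map]; simp [R4.val]) h
  rw [dn_map] at h1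
  have h2 := dn_inj h1 d (by omega)
  simp only [R4.val, Nat.mul_eq] at h2
  push_cast at h2
  linarith

theorem HasSig.trH {n : ℕ} {g : GL (Fin n) ℍ[ℝ]} {σ : List (ℕ × ℕ)} (h : HasSig D g σ) (d : ℕ) :
    trH (cm g.val) d = hs (pv D n σ) d := by
  refine trH_eq (fun k => ?_) d
  rw [← map_pow, ← Units.val_pow_eq_pow_val, pv, Complex.ofReal_div, ← h.2 k]
  simp

theorem re_mul_comm (a b : ℍ[ℝ]) : (a * b).re = (b * a).re := by
  simp only [Quaternion.re_mul]
  ring

theorem refl_trace {n : ℕ} {g : GL (Fin n) ℍ[ℝ]} (hg : IsRefl g) : g ≠ 1 ∧ ∃ t : ℝ,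
    ∑ i, (g.val i i).re = n + t ∧ ∑ i, ((g ^ 2).val i i).re = n + 4 * t + 2 * t ^ 2 := by
  obtain ⟨a, b, ha, hb, h⟩ := hg.rank_one
  obtain ⟨i0, hi0⟩ := Function.ne_iff.1 ha
  obtain ⟨j0, hj0⟩ := Function.ne_iff.1 hb
  set l := ∑ i, b i * a i with hl
  have h1 : ∀ i j, g.val i j = (1 : Matrix _ _ ℍ[ℝ]) i j + a i * b j := fun i j => by
    rw [← h, Matrix.sub_apply, add_sub_cancel]
  have h2 : g.val *ᵥ a = fun i => a i * (1 + l) := by
    ext1 i
    have := congrFun (Matrix.one_mulVec a) i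
    simp only [Matrix.mulVec, dotProduct, h1, add_mul, Finset.sum_add_distrib, mul_add, hl,
      Finset.mul_sum, mul_assoc, mul_one] at this ⊢
    rw [this]
  have h3 : ∀ k, (g ^ k).val *ᵥ a = fun i => a i * (1 + l) ^ k := by
    intro k
    induction k with
    | zero => simp
    | succ k ih =>
      rw [pow_succ', Units.val_mul, ← Matrix.mulVec_mulVec, ih, mulVec_right, h2]
      simp only [mul_assoc, pow_succ']
  obtain ⟨o, ho, h4⟩ := isOfFinOrder_iff_pow_eq_one.1 hg.1
  have h5 := congrFun (h3 o) i0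
  rw [h4, Units.val_one, Matrix.one_mulVec] at h5
  have h6 : (1 + l) ^ o = 1 := mul_left_cancel₀ hi0 (h5.symm.trans (mul_one _).symm)
  have h7 := congrArg Quaternion.normSq h6
  rw [map_pow, map_one, pow_eq_one_iff_of_nonneg Quaternion.normSq_nonneg ho.ne',
    Quaternion.normSq_def'] at h7
  have h8 : ∀ x : ℍ[ℝ], ∑ i, (a i * x * b i).re = (x * l).re := fun x => by
    rw [hl, Finset.mul_sum]
    rw [show (∑ i, x * (b i * a i)).re = ∑ i, (x * (b i * a i)).re from
      map_sum (AddMonoidHom.mk' (fun q : ℍ[ℝ] => q.re) Quaternion.re_add) _ _]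
    exact Finset.sum_congr rfl fun i _ => by rw [mul_assoc, re_mul_comm, mul_assoc]
  have h9 : ∀ i, (g ^ 2).val i i = 1 + a i * (2 + l) * b i := by
    intro i
    have e1 : g.val = 1 + Matrix.of fun i j => a i * b j := Matrix.ext h1
    rw [pow_two, Units.val_mul, e1, add_mul, mul_add, mul_add, one_mul, one_mul, mul_one]
    simp only [Matrix.add_apply, Matrix.mul_apply, Matrix.of_apply, Matrix.one_apply_eq, hl,
      mul_add, add_mul, Finset.mul_sum, Finset.sum_mul, mul_assoc, two_mul]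
    abel
  refine ⟨fun e => ?_, l.re, ?_, ?_⟩
  · have := h i0 j0
    rw [e, Units.val_one, sub_self] at this
    exact mul_ne_zero hi0 hj0 this.symm
  · have := h8 1
    simp only [mul_one, one_mul] at this
    simp [h1, Finset.sum_add_distrib, ← this]
  · simp only [h9, Quaternion.re_add, Finset.sum_add_distrib, h8, add_mul, two_mul l]
    simp at h7 ⊢
    linarith

theorem HasSig.flg (hD : D.Prime) {n : ℕ} {g : GL (Fin n) ℍ[ℝ]} {σ : List (ℕ × ℕ)}
    (h : HasSig D g σ) (hg : IsRefl g) : flg D n σ = 1 := by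
  obtain ⟨h1, t, h2, h3⟩ := refl_trace hg
  have h4 : Nat.beq σ.length 1 = false := by
    rw [← Bool.not_eq_true, Nat.beq_eq]
    intro e
    exact h1 (by simpa [e] using h.1)
  have h5 := h.2 0
  have h6 := h.2 1
  rw [cm_trace] at h5 h6
  rw [zero_add, pow_one, h2] at h5
  rw [one_add_one_eq_two, h3] at h6
  norm_cast at h5 h6
  rw [Ck.flg, h4, R4.beq_val hD]
  rw [R4.val_mul, R4.val_add, R4.val_add, R4.val_sm, ← h5, ← h6]
  simp only [R4.val, Nat.mul_eq]
  push_cast
  ring

theorem Dat.mol (z : Dat) (hD : z.y.D.Prime) (h0 : z.c0 = true) (h1 : z.y.ok = true)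
    (hr : allL z.rt (fun e => z.y.rok e.1.1 e.1.2 e.2) = true) (h2 : z.c2 = true)
    (h3 : z.c3 = true) (h4 : z.c4 = true) (h5 : z.c5 = true) (h6 : z.c6 = true) :
    Finite z.W ∧ (∀ k < z.K + 1, nth 0 z.rs k = finrank ℂ (invH (cW z.W) k)) ∧
      (∀ k < z.K + 1, nth 0 z.ss k = finrank ℂ (homogeneousSubmodule (Fin z.y.n × Fin 2) ℂ k)) ∧
      ((z.g + 1) ^ z.y.n ≤ finrank ℂ (MvPolynomial (Fin z.y.n × Fin 2) ℂ ⧸ invI (cW z.W)) →
        Bound z.W) := by
  classical
  obtain ⟨_, c1, ι, c2, c3⟩ := z.enum hD h0 h1 hr h2 h3 h4 h5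
  unfold Dat.c0 at h0
  simp only [nd_iff, Nat.blt_eq, Nat.ble_eq, Nat.mul_eq] at h0
  obtain ⟨-, -, -, -, -, -, -, a8, hn, a9⟩ := h0
  refine ⟨inferInstance, fun k hk => ?_, fun k hk => ?_, fun h => ?_⟩
  · have e1 := molien (cW z.W) k
    have e2 := molk_spec h6 k (by omega)
    rw [← c3] at e2
    simp only [cW_apply, fun g => (c2 g).trH k] at e1
    rw [← Complex.ofReal_sum, ← e2, c1] at e1
    have : (z.o : ℂ) ≠ 0 := by rw [← c1]; simp
    push_cast at e1
    exact_mod_cast (mul_left_cancel₀ this e1).symm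
  · have e2 := molk_spec a9 k (by omega)
    have e3 : HasSig z.y.D (1 : GL (Fin z.y.n) ℍ[ℝ]) [(136 * z.y.n, 128 * z.y.n)] := by
      refine ⟨one_pow _, fun j => ?_⟩
      have : Nat.mod j 1 = 0 := Nat.mod_one j
      simp [psum, this, nth_eq, R4.val]
      ring
    have e4 := e3.trH k
    rw [Units.val_one, map_one, trH_one] at e4
    simp only [wsum, Nat.cast_one, one_mul, one_smul, add_zero] at e2
    exact_mod_cast (congrArg Complex.ofReal e2).trans e4.symm
  · have e1 : Nat.card {g // g ∈ z.W ∧ IsRefl g} ≤ ∑ g, flg z.y.D z.y.n (nth [] z.sg (ι g)) := by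
      rw [Nat.card_congr (Equiv.subtypeSubtypeEquivSubtypeInter (· ∈ z.W) IsRefl).symm,
        Nat.card_eq_fintype_card, Fintype.card_subtype, Finset.card_filter]
      refine Finset.sum_le_sum fun g _ => ?_
      split_ifs with hg
      · exact ((c2 g).flg hD hg).ge
      · exact Nat.zero_le _
    rw [c3 ℕ fun i => flg z.y.D z.y.n (nth [] z.sg i), ← wsN_eq] at e1
    unfold Bound
    rw [invIdeal_eq]
    refine le_trans (pow_le_pow_left₀ (by positivity) (b := (z.g : ℚ) + 1) ?_ _)
      (by exact_mod_cast h)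
    have e2 : (2 * Nat.card {g // g ∈ z.W ∧ IsRefl g} : ℚ) ≤ z.g * z.y.n := by
      exact_mod_cast (Nat.mul_le_mul_left 2 e1).trans (a8.trans_eq (mul_comm _ _))
    rw [add_le_add_iff_right, div_le_iff₀ (by exact_mod_cast hn)]
    exact e2

theorem dlt_eq (d : ℕ) (l : List ℕ) (k : ℕ) :
    dlt d l k = nth 0 l k - if d ≤ k then nth 0 l (k - d) else 0 := by
  unfold dlt
  split_ifs with h
  · rw [Nat.ble_eq_true_of_le h]; rfl
  · rw [show Nat.ble d k = false by rw [← Bool.not_eq_true, Nat.ble_eq]; exact h]; rfl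

theorem Dat.bound (z : Dat) (hD : z.y.D.Prime) (h0 : z.c0 = true) (h1 : z.y.ok = true)
    (hr : allL z.rt (fun e => z.y.rok e.1.1 e.1.2 e.2) = true) (h2 : z.c2 = true)
    (h3 : z.c3 = true) (h4 : z.c4 = true) (h5 : z.c5 = true) (h6 : z.c6 = true) {d : ℕ}
    (h7 : z.c7 d = true) : Bound z.W := by
  obtain ⟨c1, c2, c3, c4⟩ := z.mol hD h0 h1 hr h2 h3 h4 h5 h6
  unfold Dat.c7 at h7
  simp only [nd_iff, Nat.blt_eq, Nat.ble_eq, Nat.mul_eq, Nat.add_eq, Nat.pow_eq, Nat.sub_eq,
    sumN_eq, Nat.succ_eq_add_one, dlt_eq] at h7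
  obtain ⟨a1, a2, a3⟩ := h7
  have := naive_one (cW z.W) (z.K + 1) d _ _ c3 c2 (by omega) a2.ne'
  exact c4 (by omega)

end Pool.Agent.P.MP_97ea17_al.Ck
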