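import Pool.Agent.P.MP_97ea17_al.Rank2b

/-! Rank two groups with a normal subgroup generated by two reflections of order two. -/

namespace Pool.Agent.P.MP_97ea17_al

open MvPolynomial Module
open scoped Matrix Quaternion ComplexConjugate

attribute [-simp] Matrix.coe_units_inv

/-- The standing hypotheses. -/
structure Hyp (W : Subgroup (GL (Fin 2) ℍ[ℝ])) (s t : GL (Fin 2) ℍ[ℝ]) : Prop where
  irr : IsIrredReflGroup W
  neg : -1 ∈ W
  hs : s ∈ W
  ht : t ∈ W
  rs : IsRefl s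
  rt : IsRefl t
  ss : s * s = 1
  tt : t * t = 1
  ne : s ≠ t
  nm : ∀ w ∈ W, ∀ x ∈ Subgroup.closure {s, t}, w * x * w⁻¹ ∈ Subgroup.closure {s, t}

variable {W : Subgroup (GL (Fin 2) ℍ[ℝ])} {s t : GL (Fin 2) ℍ[ℝ]}

theorem Hyp.cj (h : Hyp W s t) (g : GL (Fin 2) ℍ[ℝ]) :
    Hyp (cj g W) (g * s * g⁻¹) (g * t * g⁻¹) where
  irr := h.irr.cj g
  neg := mem_cj.2 (by simpa using h.neg)
  hs := mem_cj.2 (by simpa [mul_assoc] using h.hs)
  ht := mem_cj.2 (by simpa [mul_assoc] using h.ht)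
  rs := h.rs.conj g
  rt := h.rt.conj g
  ss := by rw [conj_mul, h.ss]; simp
  tt := by rw [conj_mul, h.tt]; simp
  ne := by simpa using h.ne
  nm := by
    have e : Subgroup.closure {g * s * g⁻¹, g * t * g⁻¹} =
        MP_97ea17_al.cj g (Subgroup.closure {s, t}) := by
      rw [MP_97ea17_al.cj, MonoidHom.map_closure, Set.image_pair]; rfl
    intro w hw x hx
    rw [e, mem_cj] at hx ⊢
    simpa [mul_assoc] using h.nm _ (mem_cj.1 hw) _ hx

theorem ent {a b : GL (Fin 2) ℍ[ℝ]} (h : a = b) (i j : Fin 2) : a.val i j = b.val i j := by rw [h]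

/-- An invertible diagonal matrix. -/
noncomputable def dg (u v : ℍ[ℝ]) (hu : u ≠ 0) (hv : v ≠ 0) : GL (Fin 2) ℍ[ℝ] :=
  ⟨!![u, 0; 0, v], !![u⁻¹, 0; 0, v⁻¹],
    by ext i j : 1; fin_cases i <;> fin_cases j <;> simp [Matrix.mul_apply, hu, hv],
    by ext i j : 1; fin_cases i <;> fin_cases j <;> simp [Matrix.mul_apply, hu, hv]⟩

theorem dg_conj {u v : ℍ[ℝ]} (hu : u ≠ 0) (hv : v ≠ 0) (x : GL (Fin 2) ℍ[ℝ]) :
    (dg u v hu hv * x * (dg u v hu hv)⁻¹).val = !![u * x.val 0 0 * u⁻¹, u * x.val 0 1 * v⁻¹;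
      v * x.val 1 0 * u⁻¹, v * x.val 1 1 * v⁻¹] := by
  ext i j : 1
  fin_cases i <;> fin_cases j <;> simp [dg, Matrix.mul_apply, Matrix.vecMul, dotProduct]

theorem dg_sd {u v : ℍ[ℝ]} (hu : u ≠ 0) (hv : v ≠ 0) (hs : s.val = sd) :
    (dg u v hu hv * s * (dg u v hu hv)⁻¹).val = sd := by
  rw [dg_conj, hs]
  simp [sd, hu, hv]

theorem exists_sd (hs : IsRefl s) (h2 : s * s = 1) : ∃ g : GL (Fin 2) ℍ[ℝ],
    (g * s * g⁻¹).val = sd := by
  obtain ⟨a, b, ha, -, h⟩ := hs.rank_one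
  obtain ⟨E, hE⟩ : ∃ E : GL (Fin 2) ℍ[ℝ], E.val 0 0 * a 0 + E.val 0 1 * a 1 = 0 := by
    by_cases h1 : a 1 = 0
    · exact ⟨⟨!![0, 1; 1, 0], !![0, 1; 1, 0], by simp [← Matrix.one_fin_two],
        by simp [← Matrix.one_fin_two]⟩, by simp [h1]⟩
    · exact ⟨⟨!![1, -(a 0 * (a 1)⁻¹); 0, 1], !![1, a 0 * (a 1)⁻¹; 0, 1],
        by simp [← Matrix.one_fin_two], by simp [← Matrix.one_fin_two]⟩, by simp [h1]⟩
  have h3 : ∀ j, (E.val * (s.val - 1) * (E⁻¹).val) 0 j = 0 := fun j => by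
    simp only [Matrix.mul_apply, Fin.sum_univ_two, h, ← mul_assoc, ← add_mul, hE, zero_mul,
      add_zero]
  have h4 : E.val * (s.val - 1) * (E⁻¹).val = (E * s * E⁻¹).val - 1 := by
    rw [mul_sub, _root_.sub_mul, mul_one, Units.mul_inv]; rfl
  have h5 : E * s * E⁻¹ * (E * s * E⁻¹) = 1 := by rw [conj_mul, h2]; simp
  have h6 := (hs.conj E).ne_one
  suffices ∃ F : GL (Fin 2) ℍ[ℝ], (F * (E * s * E⁻¹) * F⁻¹).val = sd by
    obtain ⟨F, hF⟩ := this
    exact ⟨F * E, by simpa [mul_assoc] using hF⟩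
  rw [h4] at h3
  generalize E * s * E⁻¹ = x at h3 h5 h6
  have a1 : x.val 0 0 = 1 := by simpa [sub_eq_zero] using h3 0
  have a2 : x.val 0 1 = 0 := by simpa [sub_eq_zero] using h3 1
  have a3 := ent h5 1 1
  have a4 := ent h5 1 0
  simp [Matrix.mul_apply, a1, a2] at a3 a4
  rcases mul_self_eq_one_iff.1 a3 with e | e
  · refine absurd (Units.ext ?_) h6
    rw [e, one_mul, ← two_smul ℝ, smul_eq_zero, or_iff_right two_ne_zero] at a4
    rw [Matrix.eta_fin_two x.val, a1, a2, e, a4, Units.val_one, Matrix.one_fin_two]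
  · refine ⟨⟨!![1, 0; -((1 / 2 : ℝ) • x.val 1 0), 1], !![1, 0; (1 / 2 : ℝ) • x.val 1 0, 1],
      by simp [← Matrix.one_fin_two], by simp [← Matrix.one_fin_two]⟩, ?_⟩
    ext i j : 1
    fin_cases i <;> fin_cases j <;>
      simp [Matrix.mul_apply, Matrix.vecMul, dotProduct, a1, a2, e, sd]
    module

/-- All elements are unitary. -/
def Unit2 (W : Subgroup (GL (Fin 2) ℍ[ℝ])) : Prop := ∀ w ∈ W, w.valᴴ * w.val = 1

theorem exists_unit [Finite W] (hs : s ∈ W) (hs' : s.val = sd) :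
    ∃ g : GL (Fin 2) ℍ[ℝ], (g * s * g⁻¹).val = sd ∧ Unit2 (cj g W) := by
  classical
  have := Fintype.ofFinite W
  set B := ∑ w : W, w.val.valᴴ * w.val.val with hB
  have h1 : ∀ g ∈ W, g.valᴴ * B * g.val = B := fun g hg => by
    rw [hB, Finset.mul_sum, Finset.sum_mul]
    exact Fintype.sum_equiv (Equiv.mulRight ⟨g, hg⟩) _ _ fun w => by simp [mul_assoc]
  have h2 : ∀ i, ∃ r : ℝ, 0 < r ∧ B i i = r * r := fun i => by
    have h3 : 0 < ∑ w : W, ∑ k, Quaternion.normSq (w.val.val k i) :=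
      Finset.sum_pos' (fun w _ => Finset.sum_nonneg fun k _ => Quaternion.normSq_nonneg)
        ⟨1, Finset.mem_univ _, by fin_cases i <;> simp⟩
    refine ⟨_, Real.sqrt_pos.2 h3, ?_⟩
    rw [← Quaternion.coe_mul, Real.mul_self_sqrt h3.le, ← Quaternion.algebraMap_def]
    simp [hB, Matrix.sum_apply, Matrix.mul_apply, Quaternion.star_mul_self,
      Quaternion.algebraMap_def]
  choose r hr0 hr using h2
  have h3 := h1 s hs
  have h4 := congrFun (congrFun h3 0) 1
  have h5 := congrFun (congrFun h3 1) 0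
  simp [hs', sd, Matrix.mul_apply, neg_eq_iff_add_eq_zero,
    ← two_smul ℝ] at h4 h5
  have h6 : ∀ i, (r i : ℍ[ℝ]) ≠ 0 := fun i e => (hr0 i).ne' (Quaternion.coe_injective e)
  refine ⟨dg _ _ (h6 0) (h6 1), dg_sd _ _ hs', fun w hw => ?_⟩
  set g := dg _ _ (h6 0) (h6 1) with hg
  have h7 : g.valᴴ * g.val = B := by
    ext i j : 1
    fin_cases i <;> fin_cases j <;> simp [hg, dg, Matrix.mul_apply, h4, h5, hr]
  have h8 := h1 _ (mem_cj.1 hw)
  have h9 : g.val * (g⁻¹ * w * g).val = w.val * g.val := by simp [← mul_assoc]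
  rw [← h7, ← mul_assoc, ← Matrix.conjTranspose_mul, mul_assoc, h9,
    Matrix.conjTranspose_mul] at h8
  have h10 := congrArg (fun X => (g⁻¹).valᴴ * X * (g⁻¹).val) h8
  simp only [← mul_assoc, ← Matrix.conjTranspose_mul, Units.mul_inv, Matrix.conjTranspose_one,
    one_mul] at h10
  simpa [mul_assoc] using h10

theorem Unit2.inv (hW : Unit2 W) {w : GL (Fin 2) ℍ[ℝ]} (hw : w ∈ W) : (w⁻¹).val = w.valᴴ :=
  Units.inv_eq_of_mul_eq_one_left (hW w hw)

theorem Unit2.dg (hW : Unit2 W) {u v : ℍ[ℝ]} (hu : u ≠ 0) (hv : v ≠ 0)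
    (h1 : Quaternion.normSq u = 1) (h2 : Quaternion.normSq v = 1) :
    Unit2 (cj (dg u v hu hv) W) := by
  intro w hw
  set g := MP_97ea17_al.dg u v hu hv with hg
  have h3 : (g⁻¹).val = g.valᴴ := Units.inv_eq_of_mul_eq_one_left (by
    ext i j : 1
    fin_cases i <;> fin_cases j <;>
      simp [hg, MP_97ea17_al.dg, Matrix.mul_apply, Quaternion.star_mul_self, h1, h2])
  have h4 : w = g * (g⁻¹ * w * g) * g⁻¹ := by simp [mul_assoc]
  have h5 := hW.inv (mem_cj.1 hw)
  generalize g⁻¹ * w * g = x at h4 h5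
  rw [h4, Units.val_mul, Units.val_mul, Matrix.conjTranspose_mul, Matrix.conjTranspose_mul, ← h5,
    ← h3, h3, Matrix.conjTranspose_conjTranspose, ← h3]
  rw [← Units.val_mul, ← Units.val_mul, ← Units.val_mul, ← Units.val_mul, ← Units.val_mul]
  simp [mul_assoc]

theorem Unit2.col (hW : Unit2 W) {w : GL (Fin 2) ℍ[ℝ]} (hw : w ∈ W) (i : Fin 2) :
    Quaternion.normSq (w.val 0 i) + Quaternion.normSq (w.val 1 i) = 1 := by
  have := congrFun (congrFun (hW w hw) i) i
  simp only [Matrix.mul_apply, Fin.sum_univ_two, Matrix.conjTranspose_apply,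
    Quaternion.star_mul_self, Matrix.one_apply_eq, ← Quaternion.coe_add] at this
  exact Quaternion.coe_injective this

theorem isMon_of (h : Hyp W s t) (hW : Unit2 W) (hs : s.val = sd) (h1 : t.val 0 1 = 0)
    (h2 : t.val 1 0 = 0) {w : GL (Fin 2) ℍ[ℝ]} (hw : w ∈ W) : IsMon w.val := by
  have h3 : ∀ x ∈ Subgroup.closure {s, t}, x.val 0 1 = 0 ∧ x.val 1 0 = 0 := by
    intro x hx
    have hle : Subgroup.closure {s, t} ≤ W := by
      simp [Subgroup.closure_le, Set.insert_subset_iff, h.hs, h.ht]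
    induction hx using Subgroup.closure_induction with
    | mem x hx => rcases hx with rfl | rfl <;> simp [hs, sd, h1, h2]
    | one => simp
    | mul x y _ _ a b => simp [Matrix.mul_apply, a, b]
    | inv x hx a => simp [hW.inv (hle hx), a]
  obtain ⟨a1, a2⟩ := h3 _ (h.nm w hw s (Subgroup.subset_closure (by simp)))
  have a3 : w * s * w⁻¹ * (w * s * w⁻¹) = 1 := by rw [conj_mul, h.ss]; simp
  have a4 : w * s * w⁻¹ * w = w * s := by simp
  generalize w * s * w⁻¹ = x at a1 a2 a3 a4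
  have b1 := ent a3 0 0
  have b2 := ent a4 0 0
  have b3 := ent a4 0 1
  have b4 := congrFun (congrFun (hW w hw) 0) 1
  have b5 := hW.col hw 0
  have b6 := hW.col hw 1
  simp [Matrix.mul_apply, a1, a2, hs, sd] at b1 b2 b3 b4
  rcases mul_self_eq_one_iff.1 b1 with e | e
  · rw [e, one_mul, eq_neg_iff_add_eq_zero, ← two_smul ℝ, smul_eq_zero,
      or_iff_right two_ne_zero] at b3
    have : w.val 1 1 ≠ 0 := fun e => by simp [e, b3] at b6
    have : w.val 1 0 = 0 := by simpa [b3, this] using b4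
    exact Or.inl (by simp_all)
  · rw [e, neg_one_mul, neg_eq_iff_add_eq_zero, ← two_smul ℝ, smul_eq_zero,
      or_iff_right two_ne_zero] at b2
    have : w.val 1 0 ≠ 0 := fun e => by simp [e, b2] at b5
    have : w.val 1 1 = 0 := by simpa [b2, this] using b4
    exact Or.inr (by simp_all)

theorem bound_A (h : Hyp W s t) (hW : Unit2 W) (hs : s.val = sd) (h1 : t.val 0 1 = 0)
    (h2 : t.val 1 0 = 0) : Bound W := by
  obtain ⟨τ, hτ, hr, a1, a2, a3, -⟩ : ∃ τ ∈ W, IsRefl τ ∧ τ.val 0 0 = 0 ∧ τ.val 1 1 = 0 ∧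
      Quaternion.normSq (τ.val 0 1) = 1 ∧ Quaternion.normSq (τ.val 1 0) = 1 := by
    by_contra hc
    have h3 : ∀ x ∈ W, x.val 1 0 = 0 ∧ x.val 0 1 = 0 := by
      intro x hx
      rw [← h.irr.2.1] at hx
      induction hx using Subgroup.closure_induction with
      | mem x hx =>
        rcases isMon_of h hW hs h1 h2 hx.1 with e | e
        · exact ⟨e.2.1, e.1⟩
        · exact absurd ⟨x, hx.1, hx.2, e⟩ hc
      | one => simp
      | mul x y _ _ a b => simp [Matrix.mul_apply, a, b]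
      | inv x hx a => simp [hW.inv (h.irr.2.1 ▸ hx), a]
    rcases h.irr.2.2 (LinearMap.ker (LinearMap.proj 1)) (fun g hg v hv => by
      simp only [LinearMap.mem_ker, LinearMap.proj_apply] at hv ⊢
      simp [Matrix.mulVec, dotProduct, h3 g hg, hv]) with e | e
    · have : (Pi.single 0 1 : Fin 2 → ℍ[ℝ]) ∈ (⊥ : Submodule ℍ[ℝ]ᵐᵒᵖ _) := e ▸ (by simp)
      simp at this
    · have : (Pi.single 1 1 : Fin 2 → ℍ[ℝ]) ∈ LinearMap.ker
        (LinearMap.proj (R := ℍ[ℝ]ᵐᵒᵖ) (φ := fun _ => ℍ[ℝ]) 1) := e ▸ trivial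
      simp at this
  have a4 : τ.val 0 1 ≠ 0 := fun e => by simp [e] at a3
  have a5 := anti_refl hr a1 a2
  set g := dg _ _ one_ne_zero a4 with hg
  have h' := h.cj g
  have := h'.irr.1
  rw [← bound_cj g]
  refine bound_mon _ (fun w => isMon_of h' (hW.dg _ _ (by simp) a3) (dg_sd _ _ hs)
    (by rw [dg_conj]; simp [h1]) (by rw [dg_conj]; simp [h2])) (r := -1 * (g * s * g⁻¹))
    (mul_mem h'.neg h'.hs) ?_ (τ := g * τ * g⁻¹) (mem_cj.2 (by simpa [mul_assoc] using hτ)) ?_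
  · rw [Units.val_mul, dg_sd _ _ hs]
    simp [sd]
  · rw [dg_conj]
    simp [a1, a2, a4, a5]

theorem bound_B (h : Hyp W s t) (hW : Unit2 W) (hs : s.val = sd) {α β : ℝ} (hβ : β ≠ 0)
    (ht : t.val = !![(α : ℍ[ℝ]), β; β, -α]) : Bound W := by
  have := h.irr.1
  have h3 : ∀ x ∈ Subgroup.closure {s, t}, ∀ i j, ∃ r : ℝ, x.val i j = r := by
    intro x hx
    have hle : Subgroup.closure {s, t} ≤ W := by
      simp [Subgroup.closure_le, Set.insert_subset_iff, h.hs, h.ht]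
    induction hx using Subgroup.closure_induction with
    | mem x hx =>
      intro i j
      rcases hx with rfl | rfl
      · exact ⟨!![1, 0; 0, -1] i j, by fin_cases i <;> fin_cases j <;> simp [hs, sd]⟩
      · exact ⟨!![α, β; β, -α] i j, by fin_cases i <;> fin_cases j <;> simp [ht]⟩
    | one => exact fun i j => ⟨!![1, 0; 0, 1] i j, by fin_cases i <;> fin_cases j <;> simp⟩
    | mul x y _ _ a b =>
      choose a ha using a
      choose b hb using b
      exact fun i j => ⟨a i 0 * b 0 j + a i 1 * b 1 j, by simp [Matrix.mul_apply, ha, hb]⟩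
    | inv x hx a =>
      choose a ha using a
      exact fun i j => ⟨a j i, by simp [hW.inv (hle hx), ha]⟩
  refine bound_rot W h.hs hs h.neg fun w hw => ?_
  set J : Matrix (Fin 2) (Fin 2) ℍ[ℝ] := !![0, -1; 1, 0] with hJ
  have hw1 := hW w hw
  have hw2 : w.val * w.valᴴ = 1 := by rw [← hW.inv hw]; simp
  choose S hS using h3 _ (h.nm w hw s (Subgroup.subset_closure (by simp)))
  choose T hT using h3 _ (h.nm w hw (t * s) (mul_mem (Subgroup.subset_closure (by simp))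
    (Subgroup.subset_closure (by simp))))
  simp only [Units.val_mul, hW.inv hw, hs] at hS hT
  have b1 : J = β⁻¹ • (t.val * sd - α • 1) := by
    ext i j : 1
    fin_cases i <;> fin_cases j <;> simp [hJ, ht, sd, Quaternion.ext_iff, hβ]
  obtain ⟨K, hK⟩ : ∃ K : Fin 2 → Fin 2 → ℝ, ∀ i j, (w.val * J * w.valᴴ) i j = K i j := by
    refine ⟨fun i j => β⁻¹ * (T i j - α * (1 : Matrix (Fin 2) (Fin 2) ℝ) i j), fun i j => ?_⟩
    rw [b1, Matrix.mul_smul, Matrix.smul_mul, mul_sub, _root_.sub_mul, Matrix.mul_smul, Matrix.smul_mul,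
      mul_one, hw2, Matrix.smul_apply, Matrix.sub_apply, hT]
    fin_cases i <;> fin_cases j <;> simp [← Quaternion.coe_mul_eq_smul]
  have cj2 : ∀ X Y, w.val * X * w.valᴴ * (w.val * Y * w.valᴴ) = w.val * (X * Y) * w.valᴴ :=
    fun X Y => by
      rw [mul_assoc, mul_assoc w.val Y, ← mul_assoc w.valᴴ, hw1, one_mul]; simp only [mul_assoc]
  have c1 : (w.val * sd * w.valᴴ)ᴴ = w.val * sd * w.valᴴ := by
    have : sdᴴ = sd := by ext i j : 1; fin_cases i <;> fin_cases j <;> simp [sd]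
    simp [this, mul_assoc]
  have c2 : (w.val * J * w.valᴴ)ᴴ = -(w.val * J * w.valᴴ) := by
    have : Jᴴ = -J := by ext i j : 1; fin_cases i <;> fin_cases j <;> simp [hJ]
    simp [this, mul_assoc]
  have c3 := cj2 sd sd
  have c4 := cj2 J J
  have c5 : w.val * sd * w.valᴴ * (w.val * J * w.valᴴ) =
      -(w.val * J * w.valᴴ * (w.val * sd * w.valᴴ)) := by
    rw [cj2, cj2, show sd * J = -(J * sd) by simp [hJ, sd]]
    simp
  have c6 : w.val * sd * w.valᴴ * w.val = w.val * sd := by rw [mul_assoc, hw1, mul_one]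
  have c7 : w.val * J * w.valᴴ * w.val = w.val * J := by rw [mul_assoc, hw1, mul_one]
  rw [sd_sd, mul_one, hw2] at c3
  rw [show J * J = -1 by simp [hJ, Matrix.one_fin_two], mul_neg, mul_one, neg_mul, hw2] at c4
  generalize w.val * sd * w.valᴴ = S' at hS c1 c3 c5 c6
  generalize w.val * J * w.valᴴ = K' at hK c2 c4 c5 c7
  have d1 := congrFun (congrFun c1 0) 1
  have d2 := congrFun (congrFun c2 0) 0
  have d3 := congrFun (congrFun c2 0) 1
  have d4 := congrFun (congrFun c2 1) 1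
  have d5 := congrFun (congrFun c3 0) 0
  have d6 := congrFun (congrFun c4 0) 0
  have d7 := congrFun (congrFun c5 0) 1
  simp only [Matrix.conjTranspose_apply, hS, hK, Quaternion.star_coe, Matrix.neg_apply,
    Matrix.mul_apply, Fin.sum_univ_two, Matrix.one_apply_eq] at d1 d2 d3 d4 d5 d6 d7
  simp [Quaternion.ext_iff] at d1 d2 d3 d4 d5 d6 d7
  have e1 : K 0 0 = 0 := by linarith
  have e2 : K 1 1 = 0 := by linarith
  have e3 : K 0 1 = -K 1 0 := by linarith
  have e4 : K 1 0 * K 1 0 = 1 := by rw [e1, e3] at d6; linarith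
  have e5 : S 1 1 = -S 0 0 := by
    rw [e1, e2, e3] at d7
    linear_combination (S 1 1 + S 0 0) * -e4 - K 1 0 * d7
  obtain ⟨z, hz⟩ := IsAlgClosed.exists_pow_nat_eq (⟨S 0 0, S 0 1⟩ : ℂ) two_pos
  have f1 : z.re * z.re - z.im * z.im = S 0 0 := by simpa [sq] using congrArg Complex.re hz
  have f2 : z.re * z.im + z.im * z.re = S 0 1 := by simpa [sq] using congrArg Complex.im hz
  have f3 : z.re * z.re + z.im * z.im = 1 := by
    have : (z.re * z.re + z.im * z.im) ^ 2 = 1 := by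
      rw [d1] at d5
      linear_combination d5 + (S 0 0 + (z.re * z.re - z.im * z.im)) * f1 +
        (S 0 1 + (z.re * z.im + z.im * z.re)) * f2
    exact (pow_eq_one_iff_of_nonneg (by nlinarith) two_ne_zero).1 this
  have g1 := congrFun (congrFun c6 0) 0
  have g2 := congrFun (congrFun c6 1) 0
  have g3 := congrFun (congrFun c7 0) 0
  have g4 := congrFun (congrFun c7 1) 0
  simp [Matrix.mul_apply, hS, hK, sd, hJ, e1, e2, e3, e5, d1, ← f1, ← f2,
    Quaternion.coe_mul_eq_smul, -Quaternion.coe_sub, -Quaternion.coe_add,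
    -Quaternion.coe_mul] at g1 g2 g3 g4
  have g5 : z.im • w.val 0 0 = z.re • w.val 1 0 := by
    linear_combination (norm := module) (-z.im / 2) • g1 + (z.re / 2) • g2 +
      f3 • ((z.re / 2) • w.val 1 0 - (z.im / 2) • w.val 0 0)
  set q := z.re • w.val 0 0 + z.im • w.val 1 0 with hq
  have g6 : w.val 0 0 = z.re • q := by
    linear_combination (norm := module) z.re • hq + z.im • g5 - f3 • w.val 0 0
  have g7 : w.val 1 0 = z.im • q := by
    linear_combination (norm := module) z.im • hq - z.re • g5 - f3 • w.val 1 0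
  have g8 : Quaternion.normSq q = 1 := by
    have := hW.col hw 0
    rw [g6, g7, Quaternion.normSq_smul, Quaternion.normSq_smul] at this
    linear_combination this - Quaternion.normSq q * f3
  have g9 : ‖z‖ = 1 := by rw [Complex.norm_def, Complex.normSq_apply, f3, Real.sqrt_one]
  clear_value q
  rcases mul_self_eq_one_iff.1 e4 with e | e
  · refine ⟨false, z, q, g9, g8, ?_⟩
    rw [Matrix.eta_fin_two w.val, ← g3, ← g4, g6, g7]
    simp [rq, e]
  · refine ⟨true, z, q, g9, g8, ?_⟩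
    rw [Matrix.eta_fin_two w.val, ← g3, ← g4, g6, g7]
    simp [rq, e, sd]

theorem Hyp.bound (h : Hyp W s t) : Bound W := by
  obtain ⟨g, hg⟩ := exists_sd h.rs h.ss
  have h1 := h.cj g
  have := h1.irr.1
  obtain ⟨g', hs, hW⟩ := exists_unit h1.hs hg
  have h2 := h1.cj g'
  rw [← bound_cj g, ← bound_cj g']
  generalize MP_97ea17_al.cj g' (MP_97ea17_al.cj g W) = W at h2 hW
  generalize g' * (g * s * g⁻¹) * g'⁻¹ = s at h2 hs
  generalize g' * (g * t * g⁻¹) * g'⁻¹ = t at h2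
  have a1 : t.valᴴ = t.val := by rw [← hW.inv h2.ht, inv_eq_of_mul_eq_one_left h2.tt]
  have a2 := congrFun (congrFun a1 0) 0
  have a3 := congrFun (congrFun a1 1) 0
  have a4 := congrFun (congrFun a1 1) 1
  simp only [Matrix.conjTranspose_apply, Quaternion.star_eq_self] at a2 a3 a4
  by_cases hb : t.val 0 1 = 0
  · exact bound_A h2 hW hs hb (by rw [← a3, hb, star_zero])
  have a5 := ent h2.tt 0 1
  simp only [Units.val_mul, Matrix.mul_apply, Fin.sum_univ_two, Units.val_one,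
    Matrix.one_apply_ne h01] at a5
  rw [a4, ← Quaternion.coe_commutes, ← add_mul, mul_eq_zero, or_iff_left hb, ← a4] at a5
  have b0 : ‖t.val 0 1‖ ≠ 0 := norm_ne_zero_iff.2 hb
  have b1 : ‖t.val 0 1‖⁻¹ • t.val 0 1 ≠ 0 := smul_ne_zero (inv_ne_zero b0) hb
  rw [← bound_cj (dg _ _ one_ne_zero b1)]
  refine bound_B (h2.cj _) (hW.dg _ _ (by simp) (by
    rw [Quaternion.normSq_smul, Quaternion.normSq_eq_norm_mul_self]; field_simp))
    (dg_sd _ _ hs) b0 (α := (t.val 0 0).re) ?_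
  have b2 : ‖t.val 0 1‖⁻¹ • t.val 0 1 * star (t.val 0 1) = (‖t.val 0 1‖ : ℝ) := by
    rw [smul_mul_assoc, Quaternion.self_mul_star, Quaternion.normSq_eq_norm_mul_self,
      Quaternion.smul_coe, inv_mul_cancel_left₀ b0]
  have b3 : t.val 0 1 * (‖t.val 0 1‖⁻¹ • t.val 0 1)⁻¹ = (‖t.val 0 1‖ : ℝ) := by
    rw [smul_inv₀, inv_inv, mul_smul_comm, mul_inv_cancel₀ hb, ← Quaternion.coe_one,
      Quaternion.smul_coe, mul_one]
  rw [dg_conj, ← a3, b2, one_mul (t.val 0 1), b3, ← a2, eq_neg_of_add_eq_zero_right a5, a2,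
    ← Quaternion.coe_neg, ← Quaternion.coe_commutes (-_), mul_assoc _ (_ • _), mul_inv_cancel₀ b1]
  simp

end Pool.Agent.P.MP_97ea17_al
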