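import Pool.Agent.P.MP_97ea17_al.SysS

/-! Reflections and traces of powers. -/

namespace Pool.Agent.P.MP_97ea17_al.Ck

open scoped Quaternion Matrix

attribute [-simp] Matrix.coe_units_inv

theorem sum_star_mul {n : ℕ} (a : Fin n → ℍ[ℝ]) :
    ∑ k, star (a k) * a k = ((∑ k, Quaternion.normSq (a k) : ℝ) : ℍ[ℝ]) := by
  simp only [Quaternion.star_mul_self]
  exact (map_sum (algebraMap ℝ ℍ[ℝ]) _ _).symm

theorem reflMat_mul {n : ℕ} {a : Fin n → ℍ[ℝ]} (ha : ∑ k, Quaternion.normSq (a k) ≠ 0)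
    (ξ η : ℍ[ℝ]) : reflMat a ξ * reflMat a η = reflMat a (ξ * η) := by
  unfold reflMat
  rw [_root_.sub_mul, mul_sub, mul_sub, one_mul, one_mul, mul_one, sub_sub, sub_right_inj]
  refine Matrix.ext fun i j => ?_
  have h : ∑ k, a i * (1 - ξ) * star (a k) * (a k * (1 - η) * star (a j)) =
      (∑ k, Quaternion.normSq (a k)) • (a i * (1 - ξ) * ((1 - η) * star (a j))) := by
    rw [← Quaternion.coe_mul_eq_smul, Quaternion.coe_commutes, mul_assoc (a i * (1 - ξ)),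
      ← Quaternion.coe_commutes, ← sum_star_mul, Finset.sum_mul, Finset.mul_sum]
    simp only [mul_assoc]
  simp only [Matrix.add_apply, Matrix.sub_apply, Matrix.mul_apply, Matrix.of_apply,
    smul_mul_smul_comm, ← Finset.smul_sum, h, smul_smul, inv_mul_cancel_right₀ ha, ← smul_sub,
    ← smul_add]
  congr 1
  noncomm_ring

theorem reflMat_one {n : ℕ} (a : Fin n → ℍ[ℝ]) : reflMat a 1 = 1 := by
  refine Matrix.ext fun i j => ?_
  simp [reflMat]

theorem reflMat_mulVec {n : ℕ} (a v : Fin n → ℍ[ℝ]) (ξ : ℍ[ℝ]) (i : Fin n) :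
    (reflMat a ξ *ᵥ v) i = v i + (∑ k, Quaternion.normSq (a k))⁻¹ •
      (a i * ∑ j, (ξ - 1) * star (a j) * v j) := by
  rw [reflMat, Matrix.sub_mulVec, Matrix.one_mulVec, Pi.sub_apply, sub_eq_add_neg]
  simp only [Matrix.mulVec, dotProduct, Matrix.of_apply, smul_mul_assoc, ← Finset.smul_sum,
    Finset.mul_sum, ← smul_neg, ← Finset.sum_neg_distrib]
  congr 3
  ext1 j
  noncomm_ring

variable {y : Sys}

theorem Sys.OK.rok_spec (h : y.OK) {x : List ℤ} {a : List (List ℤ)} {T : ℕ}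
    (H : y.rok x a T = true) : ∃ g : GL (Fin y.n) ℍ[ℝ],
      g.val = reflMat (fun i => quat y.D (a.getD i [])) ((2 : ℝ)⁻¹ • quat y.D x) ∧
      Act (X := Vec y.n) (y.L * y.m) y.vec (y.ap T) g := by
  unfold Sys.rok at H
  obtain ⟨A, hA, H1⟩ := frcQ_spec H
  obtain ⟨B, hB, H2⟩ := frcQ_spec H1
  obtain ⟨N, hN, H3⟩ := R4.frc_spec H2
  simp only [nd_iff, allN_iff, frc_eq, Nat.blt_eq, not_iff] at H3
  obtain ⟨h1, h2, h3⟩ := H3
  clear H H1 H2
  set α : Fin y.n → ℍ[ℝ] := fun i => quat y.D (a.getD i []) with hα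
  set ξ : ℍ[ℝ] := (2 : ℝ)⁻¹ • quat y.D x with hξ
  have a1 : ∀ i : Fin y.n, (nth Q4.zero A i).val y.D = α i := fun i => by
    rw [val_nth, hA]
    simp [val_zQ, hα]
  have a0 : A.length = y.n := by simpa using congrArg List.length (hA 0)
  have a2 : ∀ i : Fin y.n, (nth Q4.zero B i).val y.D = (2 : ℝ) • ((ξ - 1) * star (α i)) := by
    intro i
    have : (i : ℕ) < A.length := by rw [a0]; exact i.2
    rw [val_nth, hB, ← a1, nth_eq, List.map_map, List.getD_eq_getElem _ _ (by simpa using this),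
      List.getD_eq_getElem _ _ this, List.getElem_map, Function.comp_apply, Q4.val_mul,
      Q4.val_add, Q4.val_cnj, val_zQ, val_zQ, ← smul_mul_assoc]
    congr 1
    rw [hξ, smul_sub, smul_smul]
    ext <;> simp [quat]
    ring
  have a3 : N.val y.D = ∑ k, Quaternion.normSq (α k) := by
    rw [hN]
    change (Q4.val y.D (sumQ y.n _)).re = _
    rw [val_sumQ, Finset.sum_range]
    simp only [Q4.val_mul, Q4.val_cnj, a1, sum_star_mul, Quaternion.re_coe]
  have a4 : ∑ k, Quaternion.normSq (α k) ≠ 0 := by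
    intro e
    rw [R4.beq_val h.prime (y := ⟨0, 0, 0, 0⟩) (by rw [a3, e]; simp [R4.val])] at h1
    exact absurd h1 (by simp)
  have a5 : ξ ≠ 0 := by
    intro e
    have e1 : (Q4.val y.D (Q4.mul y.D (zQ x).cnj (zQ x))).re = _ := R4.val_beq h2
    have e2 : quat y.D x = 0 := (smul_eq_zero.1 e).resolve_left (by norm_num)
    rw [Q4.val_mul, val_zQ, e2] at e1
    simp [R4.val] at e1
  refine ⟨⟨reflMat α ξ, reflMat α ξ⁻¹, by rw [reflMat_mul a4, mul_inv_cancel₀ a5, reflMat_one],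
    by rw [reflMat_mul a4, inv_mul_cancel₀ a5, reflMat_one]⟩, rfl, h.act fun l hl => ?_⟩
  obtain ⟨k1, k2⟩ := h3 l hl
  obtain ⟨κ, hκ, k3⟩ := Q4.frc_spec k2
  refine ⟨k1, funext fun i => ?_⟩
  have k4 := Q4.val_beq (D := y.D) ((allN_iff _ _).1 k3 i i.2)
  have k5 : ∀ j, (dQ (y.code j)).val y.D = (8 : ℝ) • y.E j := fun j => by
    simp [Sys.E, smul_smul]
  rw [Q4.val_add, Q4.val_rm, Q4.val_rm, Q4.val_mul, hκ, val_sumQ, Finset.sum_range, a1,
    R4.val_sm, a3] at k4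
  simp only [Q4.val_mul, a2, k5, (h.cd_spec k1 i).2, ← h.vec_line, smul_mul_assoc,
    ← Finset.smul_sum, mul_smul_comm, smul_smul] at k4
  clear k2 k3 h3
  rw [reflMat_mulVec]
  refine smul_right_injective _ (mul_ne_zero (mul_ne_zero two_ne_zero a4)
    (show (8 : ℝ) ≠ 0 by norm_num)) ?_
  push_cast at k4
  simp only [k4, smul_add, smul_smul]
  congr 2
  field_simp

theorem trs_spec {tr : ℕ → ℕ → ℕ} {t : List ℕ} {i a b : ℕ} {c : ℕ × ℕ}
    (h : trs tr t i a b c = true) :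
    c.1 = a + ∑ k ∈ Finset.range t.length, tr (i + k) (t.getD k 0) % 256 ∧
      c.2 = b + ∑ k ∈ Finset.range t.length, tr (i + k) (t.getD k 0) / 256 := by
  induction t generalizing i a b with
  | nil =>
    obtain ⟨h1, h2⟩ := (nd_iff _ _).1 h
    rw [Nat.beq_eq] at h1 h2
    simp [h1, h2]
  | cons p t ih =>
    obtain ⟨h1, h2⟩ := ih (i := i + 1) (a := a + tr i p % 256) (b := b + tr i p / 256) h
    simp only [List.length_cons, Finset.sum_range_succ', List.getD_cons_succ, List.getD_cons_zero,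
      add_zero, h1, h2, add_right_comm i 1, add_assoc i]
    omega

/-- Orders and traces of powers. -/
def HasSig (D : ℕ) {n : ℕ} (g : GL (Fin n) ℍ[ℝ]) (σ : List (ℕ × ℕ)) : Prop :=
  g ^ σ.length = 1 ∧ ∀ k, 4 * (cm (g ^ (k + 1)).val).trace = ((psum n σ k).val D : ℝ)

theorem HasSig.conj {D n : ℕ} {g : GL (Fin n) ℍ[ℝ]} {σ : List (ℕ × ℕ)} (h : HasSig D g σ)
    (k : GL (Fin n) ℍ[ℝ]) : HasSig D (k * g * k⁻¹) σ := by
  refine ⟨by rw [conj_pow, h.1]; simp, fun j => ?_⟩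
  rw [← h.2 j, conj_pow, Units.val_mul, map_mul, Matrix.trace_mul_comm, ← map_mul,
    ← Units.val_mul, inv_mul_cancel_left]

theorem Sys.OK.trace_spec (h : y.OK) (hn : 0 < y.n) {d : ℕ} (hd : d = mkT y.m y.L fun p => p)
    {g : GL (Fin y.n) ℍ[ℝ]} {t : List ℕ} (ht : (h.env hn d hd).Tup g t) {c : ℕ × ℕ}
    (H : trs y.tr t (nat_lit 0) (nat_lit 0) (nat_lit 0) c = true) :
    4 * (cm g.val).trace = (R4.val y.D ⟨c.1, 128 * y.n, c.2, 128 * y.n⟩ : ℝ) := by
  obtain ⟨h1, h2⟩ := trs_spec H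
  have t1 : t.length = y.n := by
    rw [← ht.length_eq]
    simp [Sys.OK.env, Sys.bs]
  have t2 : ∀ i : Fin y.n, 8 * (g.val i i).re = ((y.tr i (t.getD i 0) % 256 : ℕ) - 128 +
      ((y.tr i (t.getD i 0) / 256 : ℕ) - 128) * √y.D : ℝ) := by
    intro i
    have hi : (i : ℕ) < t.length := by rw [t1]; exact i.2
    obtain ⟨e1, e2⟩ := List.Forall₂.get ht (i := i) (by rw [ht.length_eq]; exact hi) hi
    have e3 : g.val *ᵥ y.vec (i * y.m) = y.vec (t.getD i 0) := by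
      rw [List.getD_eq_getElem _ _ hi]
      simp only [Sys.OK.env, Sys.bs, List.get_eq_getElem, List.getElem_map,
        List.getElem_range] at e2
      exact e2
    rw [List.get_eq_getElem, ← List.getD_eq_getElem _ 0 hi] at e1
    have e4 := congrFun e3 i
    rw [h.vec_basis, ← (h.cd_spec e1 i).2] at e4
    simp only [Matrix.mulVec_single_one, Matrix.col_apply] at e4
    rw [e4, Sys.E, Quaternion.re_smul, smul_eq_mul, mul_inv_cancel_left₀ (by norm_num), Sys.tr]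
    generalize y.code _ = z
    have e5 : Nat.mod z (nat_lit 65536) % 256 = z % 256 := by
      change z % 65536 % 256 = _
      omega
    have e6 : Nat.mod z (nat_lit 65536) / 256 = z >>> 8 % 256 := by
      change z % 65536 / 256 = _
      omega
    rw [e5, e6]
    simp only [Q4.val, dQ, dR, R4.val]
    norm_cast
  rw [cm_trace]
  norm_cast
  rw [← mul_assoc, show (4 * 2 : ℝ) = 8 by norm_num, Finset.mul_sum]
  simp only [t2, R4.val, h1, h2, t1, Finset.sum_range, Finset.sum_add_distrib,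
    Finset.sum_sub_distrib, ← Finset.sum_mul]
  simp [mul_comm]

theorem Sys.OK.sigc_spec (h : y.OK) (hn : 0 < y.n) {d : ℕ} (hd : d = mkT y.m y.L fun p => p)
    {g : GL (Fin y.n) ℍ[ℝ]} {f : ℕ → ℕ} (hf : Act (X := Vec y.n) (y.L * y.m) y.vec f g)
    {σ : List (ℕ × ℕ)} {t : List ℕ} {j : ℕ} (ht : (h.env hn d hd).Tup (g ^ j) t)
    (H : sigc y.tr f y.bs σ t = true) : g ^ (j + σ.length) = 1 ∧ ∀ k < σ.length,
      4 * (cm (g ^ (j + k + 1)).val).trace = (R4.val y.D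
        ⟨(nth (0, 0) σ k).1, 128 * y.n, (nth (0, 0) σ k).2, 128 * y.n⟩ : ℝ) := by
  induction σ generalizing t j with
  | nil =>
    rw [(eqL_iff _ _).1 H] at ht
    exact ⟨ht.eq_one, by simp⟩
  | cons c σ ih =>
    change mapK f t (fun t' => nd (trs y.tr t' (nat_lit 0) (nat_lit 0) (nat_lit 0) c)
      (sigc y.tr f y.bs σ t')) = true at H
    rw [mapK_eq, nd_iff] at H
    have h1 := ht.map hf
    rw [← pow_succ'] at h1
    obtain ⟨i1, i2⟩ := ih h1 H.2
    refine ⟨by rw [← i1, List.length_cons]; congr 1; omega, fun k hk => ?_⟩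
    cases k with
    | zero => exact h.trace_spec hn hd h1 H.1
    | succ k =>
      rw [show j + (k + 1) = j + 1 + k by omega]
      exact i2 k (by simpa using hk)

theorem Sys.OK.lfc_spec (h : y.OK) (hn : 0 < y.n) {g : GL (Fin y.n) ℍ[ℝ]} {f : ℕ → ℕ}
    (hf : Act (X := Vec y.n) (y.L * y.m) y.vec f g) {σ : List (ℕ × ℕ)}
    (H : lfc y.tr f y.bs σ = true) : HasSig y.D g σ := by
  cases σ with
  | nil => exact absurd H (by simp [lfc])
  | cons c σ =>
    obtain ⟨h1, h2⟩ := h.sigc_spec hn rfl hf (j := 0) (σ := c :: σ)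
      (by rw [pow_zero]; exact (h.env hn _ rfl).tup_one) H
    simp only [zero_add] at h1 h2
    refine ⟨h1, fun k => ?_⟩
    rw [pow_succ, pow_eq_pow_mod k h1, ← pow_succ]
    exact h2 _ (Nat.mod_lt _ (by simp))

/-- The group described by the data. -/
noncomputable def Dat.W (z : Dat) : Subgroup (GL (Fin z.y.n) ℍ[ℝ]) :=
  grp z.y.n z.y.D (z.rt.map Prod.fst)

theorem Dat.enum (z : Dat) (hD : z.y.D.Prime) (h0 : z.c0 = true) (h1 : z.y.ok = true)
    (hr : allL z.rt (fun e => z.y.rok e.1.1 e.1.2 e.2) = true) (h2 : z.c2 = true)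
    (h3 : z.c3 = true) (h4 : z.c4 = true) (h5 : z.c5 = true) :
    ∃ _ : Fintype z.W, Fintype.card z.W = z.o ∧ ∃ ι : z.W → ℕ,
      (∀ g : z.W, HasSig z.y.D g.val (nth [] z.sg (ι g))) ∧
      ∀ (β : Type) [AddCommMonoid β] (ψ : ℕ → β), ∑ g, ψ (ι g) = wsum z.cs ψ := by
  have h := Sys.ok_spec hD h1
  unfold Dat.c0 at h0
  simp only [nd_iff, Nat.beq_eq, Nat.blt_eq] at h0
  obtain ⟨a1, a2, a3, a4, a5, a6, a7, -, hn, -⟩ := h0
  set E := h.env hn z.t0 a1 with hE
  have hr' := fun e he => h.rok_spec ((allL_iff _ _).1 hr e he)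
  have b1 : E.Sub z.og = z.W := by
    unfold Env.Sub Dat.W grp
    congr 1
    ext g
    constructor
    · rintro ⟨T, hT, hg⟩
      obtain ⟨e, he, rfl⟩ := List.mem_map.1 (List.mem_reverse.1 hT)
      obtain ⟨g', g1, g2⟩ := hr' e he
      exact ⟨e.1, List.mem_map_of_mem he, by rw [E.uniq hg g2, g1]⟩
    · rintro ⟨r, hr, hg⟩
      obtain ⟨e, he, rfl⟩ := List.mem_map.1 hr
      obtain ⟨g', g1, g2⟩ := hr' e he
      exact ⟨e.2, List.mem_reverse.2 (List.mem_map_of_mem he),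
        by rw [Units.ext (hg.trans g1.symm)]; exact g2⟩
  have b2 : ∀ T ∈ z.og, E.Good z.W T := by
    rw [← b1]
    refine E.good_sub (W := ⊤) fun T hT => ?_
    obtain ⟨e, he, rfl⟩ := List.mem_map.1 (List.mem_reverse.1 hT)
    obtain ⟨g', -, g2⟩ := hr' e he
    exact ⟨g', trivial, g2⟩
  have b3 : ∀ T ∈ z.v0.gs, E.Good z.W T := fun T hT =>
    (List.mem_append.1 (subL_iff a2 hT)).elim (E.slp_spec h2 b2 T) (b2 T)
  obtain ⟨c1, c2, c3⟩ := E.chain_spec (fun T hT => b3 T (subL_iff a3 hT)) h3 z.v0.sz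
  obtain ⟨c4, c5⟩ := E.cover_spec b3 c1 h4
  rw [b1] at c4 c5
  obtain ⟨l, l1, l2, l3⟩ := E.chk_spec (P := fun g i => HasSig z.y.D g (nth [] z.sg i))
    (fun g i k hg => hg.conj k) b3 (fun f g i hf H => h.lfc_spec hn hf H) z.ce (by simp) (by simp)
    E.pos (by simp) h5
  let := Fintype.ofFinite z.W
  exact ⟨this, enumerate (P := fun g i => HasSig z.y.D g (nth [] z.sg i)) l1
    (fun z hz => ⟨(l2 z hz).1, (l2 z hz).2.2.1⟩) (l3.trans a7)
    (by rw [← a4]; exact c5.trans ((mul_comm _ _).trans_le c3)) a5 (wsN_eq _ _ ▸ a6)⟩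

end Pool.Agent.P.MP_97ea17_al.Ck
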