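import Pool.Agent.P.MP_97ea17_al.Rank2
import Pool.Agent.P.MP_97ea17_al.Exc

/-! The bound for the irreducible quaternionic reflection groups that are neither complex nor
imprimitive of rank at least three. -/

namespace Pool.Agent.P.MP_97ea17_al.Remaining

open Pool.Agent.P.MP_97ea17_al
open scoped Quaternion

theorem result :
    (∀ e ∈ exc, IsIrredReflGroup (grp e.1 e.2.1 e.2.2.2) ∧
      Nat.card (grp e.1 e.2.1 e.2.2.2) = e.2.2.1) ∧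
    ∀ (n : ℕ) (W : Subgroup (GL (Fin n) ℍ[ℝ])), IsIrredReflGroup W →
      ((n = 2 ∧ -1 ∈ W ∧ ∃ s ∈ W, ∃ t ∈ W, IsRefl s ∧ IsRefl t ∧ s * s = 1 ∧ t * t = 1 ∧ s ≠ t ∧
          ∀ w ∈ W, ∀ x ∈ Subgroup.closure {s, t}, w * x * w⁻¹ ∈ Subgroup.closure {s, t}) ∨
        ∃ e ∈ exc, e.1 = n ∧ ∃ g : GL (Fin n) ℍ[ℝ],
          ∀ w, w ∈ W ↔ g⁻¹ * w * g ∈ grp n e.2.1 e.2.2.2) →
      Bound W := by
  refine ⟨fun e he => (Ck.exc_spec e he).1, fun n W hW h => ?_⟩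
  rcases h with ⟨rfl, h0, s, hs, t, ht, h1, h2, h3, h4, h5, h6⟩ | ⟨e, he, rfl, g, hg⟩
  · exact Hyp.bound ⟨hW, h0, hs, ht, h1, h2, h3, h4, h5, h6⟩
  · rw [show W = cj g (grp e.1 e.2.1 e.2.2.2) from Subgroup.ext fun w => (hg w).trans mem_cj.symm,
      bound_cj]
    exact (Ck.exc_spec e he).2

end Pool.Agent.P.MP_97ea17_al.Remaining
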