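import Pool.Agent.P.MP_97ea17_al.Naive

/-! The counting bound obtained from two coprime invariants of degree four. -/

namespace Pool.Agent.P.MP_97ea17_al

open MvPolynomial Module
open scoped Matrix

variable {σ : Type} [Fintype σ] [DecidableEq σ] {G : Type} [Group G]

/-- Invariants of degree `k` divisible by `f`. -/
noncomputable def dvH (c : G →* Matrix σ σ ℂ) (f : MvPolynomial σ ℂ) (k : ℕ) :
    Submodule ℂ (MvPolynomial σ ℂ) := invH c k ⊓ (Ideal.span {f}).restrictScalars ℂ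

theorem mem_dvH {c : G →* Matrix σ σ ℂ} {f p : MvPolynomial σ ℂ} {k : ℕ} :
    p ∈ dvH c f k ↔ p ∈ invH c k ∧ f ∣ p := by
  simp [dvH, Ideal.mem_span_singleton]

instance (c : G →* Matrix σ σ ℂ) (f : MvPolynomial σ ℂ) (k : ℕ) : Module.Finite ℂ (dvH c f k) :=
  Submodule.finiteDimensional_of_le inf_le_left

theorem finrank_dvH {c : G →* Matrix σ σ ℂ} {f : MvPolynomial σ ℂ} {d : ℕ} (hf : f ∈ invH c d)
    (h0 : f ≠ 0) (k : ℕ) :
    finrank ℂ (dvH c f k) = if d ≤ k then finrank ℂ (invH c (k - d)) else 0 := by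
  have hinj : Function.Injective (LinearMap.mulLeft ℂ f) := mul_right_injective₀ h0
  obtain ⟨hf1, hf2⟩ := mem_invH.1 hf
  split_ifs with h
  · rw [(Submodule.equivMapOfInjective _ hinj (invH c (k - d))).finrank_eq]
    suffices h : dvH c f k = (invH c (k - d)).map (LinearMap.mulLeft ℂ f) by rw [h]
    ext p
    rw [mem_dvH, mem_invH]
    constructor
    · rintro ⟨⟨h1, h2⟩, q, rfl⟩
      have h3 := hom_of_mul hf1 h1
      rw [if_pos h] at h3
      refine ⟨_, mem_invH.2 ⟨homogeneousComponent_isHomogeneous (k - d) q, fun g => ?_⟩, h3.symm⟩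
      have h4 := h2 g
      rw [h3, map_mul, hf2] at h4
      exact mul_left_cancel₀ h0 h4
    · rintro ⟨q, hq, rfl⟩
      obtain ⟨hq1, hq2⟩ := mem_invH.1 hq
      have := hf1.mul hq1
      rw [Nat.add_sub_cancel' h] at this
      exact ⟨⟨this, fun g => by simp [hf2, hq2]⟩, q, rfl⟩
  · have : dvH c f k = ⊥ := by
      rw [eq_bot_iff]
      intro p hp
      obtain ⟨h1, q, rfl⟩ := mem_dvH.1 hp
      rw [hom_of_mul hf1 (mem_invH.1 h1).1, if_neg h]
      exact zero_mem _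
    rw [this, finrank_bot]

theorem finrank_two {c : G →* Matrix σ σ ℂ} {f₁ f₂ : MvPolynomial σ ℂ} (h1 : f₁ ∈ invH c 4)
    (h2 : f₂ ∈ invH c 4) (n1 : f₁ ≠ 0) (n2 : f₂ ≠ 0) (hc : IsRelPrime f₁ f₂) (k : ℕ) :
    finrank ℂ ↥(dvH c f₁ k ⊔ dvH c f₂ k) + (if 8 ≤ k then finrank ℂ (invH c (k - 8)) else 0) =
      2 * if 4 ≤ k then finrank ℂ (invH c (k - 4)) else 0 := by
  have h3 : f₁ * f₂ ∈ invH c 8 := mem_invH.2 ⟨(mem_invH.1 h1).1.mul (mem_invH.1 h2).1,
    fun g => by rw [map_mul, (mem_invH.1 h1).2, (mem_invH.1 h2).2]⟩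
  have h4 : dvH c f₁ k ⊓ dvH c f₂ k = dvH c (f₁ * f₂) k := by
    ext p
    simp only [Submodule.mem_inf, mem_dvH]
    exact ⟨fun h => ⟨h.1.1, hc.mul_dvd h.1.2 h.2.2⟩, fun h =>
      ⟨⟨h.1, dvd_of_mul_right_dvd h.2⟩, h.1, dvd_of_mul_left_dvd h.2⟩⟩
  have h5 := Submodule.finrank_sup_add_finrank_inf_eq (dvH c f₁ k) (dvH c f₂ k)
  rw [h4, finrank_dvH h3 (mul_ne_zero n1 n2), finrank_dvH h1 n1, finrank_dvH h2 n2] at h5
  omega

theorem invH_one (k : ℕ) : invH (1 : G →* Matrix σ σ ℂ) k = homogeneousSubmodule σ ℂ k := by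
  ext p
  simp [mem_invH, sub_one]

omit [DecidableEq σ] [Fintype σ] in
theorem dvd_homComp {f : MvPolynomial σ ℂ} {d : ℕ} (hf : f.IsHomogeneous d)
    (q : MvPolynomial σ ℂ) (k : ℕ) : f ∣ homogeneousComponent k (q * f) := by
  classical
  rw [← sum_homogeneousComponent q, Finset.sum_mul, map_sum]
  refine Finset.dvd_sum fun e _ => ?_
  rw [homogeneousComponent_of_mem ((homogeneousComponent_isHomogeneous e q).mul hf)]
  split_ifs
  · exact dvd_mul_left _ _
  · exact dvd_zero _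

/-- Second difference with steps four. -/
def dtwo (s : ℕ → ℕ) (k : ℕ) : ℕ :=
  s k + (if 8 ≤ k then s (k - 8) else 0) - 2 * if 4 ≤ k then s (k - 4) else 0

theorem naive_two [Finite G] (c : G →* Matrix σ σ ℂ) (K : ℕ) (s r : ℕ → ℕ)
    (hs : ∀ k < K, s k = finrank ℂ (homogeneousSubmodule σ ℂ k))
    (hr : ∀ k < K, r k = finrank ℂ (invH c k)) {f₁ f₂ f₃ : MvPolynomial σ ℂ}
    (h1 : f₁ ∈ invH c 4) (h2 : f₂ ∈ invH c 4) (h3 : f₃ ∈ invH c 4) (n1 : f₁ ≠ 0) (n2 : f₂ ≠ 0)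
    (hc : IsRelPrime f₁ f₂) (n3 : f₃ * f₃ ∉ Ideal.span {f₁, f₂}) :
    ∑ k ∈ Finset.range K, dtwo s k ≤ finrank ℂ (MvPolynomial σ ℂ ⧸ invI c) +
      ∑ k ∈ Finset.range K, ∑ i ∈ Finset.range k,
        (dtwo r (k - i) - if k - i = 8 then 1 else 0) * dtwo s i := by
  classical
  set J : Ideal (MvPolynomial σ ℂ) := Ideal.span {f₁, f₂} with hJ
  have j1 : ∀ p, f₁ ∣ p → p ∈ J := fun p hp =>
    Ideal.mem_of_dvd J hp (Ideal.subset_span (by simp))
  have j2 : ∀ p, f₂ ∣ p → p ∈ J := fun p hp =>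
    Ideal.mem_of_dvd J hp (Ideal.subset_span (by simp))
  have b0 : ∀ (c : G →* Matrix σ σ ℂ) j, dvH c f₁ j ⊔ dvH c f₂ j ≤ invH c j ⊓ idH J j :=
    fun c j => sup_le
      (fun p hp => ⟨hp.1, (mem_invH.1 hp.1).1, j1 p (mem_dvH.1 hp).2⟩)
      (fun p hp => ⟨hp.1, (mem_invH.1 hp.1).1, j2 p (mem_dvH.1 hp).2⟩)
  have h33 : f₃ * f₃ ∈ invH c 8 := mem_invH.2 ⟨(mem_invH.1 h3).1.mul (mem_invH.1 h3).1,
    fun g => by rw [map_mul, (mem_invH.1 h3).2]⟩
  set B : ℕ → Submodule ℂ (MvPolynomial σ ℂ) := fun j =>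
    (dvH c f₁ j ⊔ dvH c f₂ j) ⊔ if j = 8 then Submodule.span ℂ {f₃ * f₃} else ⊥ with hB
  have b1 : ∀ j, B j ≤ invH c j := fun j => sup_le ((b0 c j).trans inf_le_left) (by
    split_ifs with h
    · rw [h, Submodule.span_singleton_le_iff_mem]
      exact h33
    · exact bot_le)
  have b2 : ∀ j, finrank ℂ ↥(dvH c f₁ j ⊔ dvH c f₂ j) + (if j = 8 then 1 else 0) ≤
      finrank ℂ (B j) := by
    intro j
    have : Module.Finite ℂ (B j) := Submodule.finiteDimensional_of_le (b1 j)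
    split_ifs with h
    · refine Submodule.finrank_lt_finrank_of_lt (lt_of_le_of_ne le_sup_left fun e => n3 ?_)
      have : f₃ * f₃ ∈ B j :=
        Submodule.mem_sup_right (by rw [if_pos h]; exact Submodule.mem_span_singleton_self _)
      rw [← e] at this
      exact (b0 c j this).2.2
    · exact Submodule.finrank_mono le_sup_left
  choose Gn hG1 hG2 hG3 using fun j => exists_compl (b1 j)
  have g0 : ∀ j, 0 < j → Gn j ≤ genH J Gn j := fun j hj => le_sup_of_le_right (le_trans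
    (by simp [homogeneousSubmodule_zero]) (Finset.le_sup
      (f := fun i => Gn (j - i) * homogeneousSubmodule σ ℂ i) (Finset.mem_range.2 hj)))
  have h4 := gs_bound c J Gn (fun j => (hG1 j).trans inf_le_left) K
    (fun j hj _ => (hG2 j).trans (sup_le (g0 j hj) (sup_le
      (le_sup_of_le_left ((b0 c j).trans inf_le_right)) ?_))) (dtwo s) fun k hk => ?_
  · refine h4.trans (Nat.add_le_add_left (Finset.sum_le_sum fun k hk =>
      Finset.sum_le_sum fun i _ => Nat.mul_le_mul_right _ ?_) _)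
    have hk' := Finset.mem_range.1 hk
    have e1 := hG3 (k - i)
    have e2 := b2 (k - i)
    have e3 := finrank_two h1 h2 n1 n2 hc (k - i)
    rw [dtwo, hr _ (by omega), hr _ (by omega), hr _ (by omega)]
    omega
  · split_ifs with h
    · subst h
      rw [Submodule.span_singleton_le_iff_mem]
      obtain ⟨a, ha, b, hb, e⟩ := Submodule.mem_sup.1 (hG2 4 h3)
      nth_rewrite 1 [← e]
      rw [add_mul]
      refine add_mem (Submodule.mem_sup_right (Finset.le_sup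
        (f := fun i => Gn (8 - i) * homogeneousSubmodule σ ℂ i) (b := 4) (by simp)
        (Submodule.mul_mem_mul ha (mem_invH.1 h3).1))) (Submodule.mem_sup_left ?_)
      have hb' : b ∈ invH c 4 ⊓ idH J 4 := b0 c 4 (by simpa [hB] using hb)
      exact ⟨IsHomogeneous.mul hb'.2.1 (mem_invH.1 h3).1, J.mul_mem_right _ hb'.2.2⟩
    · exact bot_le
  · have i1 : f₁ ∈ invH (1 : G →* Matrix σ σ ℂ) 4 := by rw [invH_one]; exact (mem_invH.1 h1).1
    have i2 : f₂ ∈ invH (1 : G →* Matrix σ σ ℂ) 4 := by rw [invH_one]; exact (mem_invH.1 h2).1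
    have e1 := finrank_two i1 i2 n1 n2 hc k
    have e2 : dvH (1 : G →* Matrix σ σ ℂ) f₁ k ⊔ dvH (1 : G →* Matrix σ σ ℂ) f₂ k = idH J k := by
      refine le_antisymm ((b0 1 k).trans inf_le_right) fun p hp => ?_
      obtain ⟨a, b, e⟩ := Ideal.mem_span_pair.1 hp.2
      rw [← homogeneousComponent_eq_self hp.1, ← e, map_add]
      refine Submodule.add_mem_sup (mem_dvH.2 ⟨?_, dvd_homComp (mem_invH.1 h1).1 _ _⟩)
        (mem_dvH.2 ⟨?_, dvd_homComp (mem_invH.1 h2).1 _ _⟩) <;>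
      · rw [invH_one]
        exact homogeneousComponent_isHomogeneous _ _
    have e3 := Submodule.finrank_mono
      (show idH J k ≤ homogeneousSubmodule σ ℂ k from inf_le_left)
    rw [e2, invH_one, invH_one] at e1
    rw [dtwo, hs _ hk, hs _ (by omega), hs _ (by omega)]
    omega

omit [DecidableEq σ] [Fintype σ] in
theorem relPrime_of_line {f₁ f₂ : MvPolynomial σ ℂ} (l : σ → Polynomial ℂ)
    (hl : ∀ i, (l i).natDegree ≤ 1) (hd : f₁.totalDegree ≤ (aeval l f₁).natDegree)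
    (hc : IsCoprime (aeval l f₁) (aeval l f₂)) (h0 : aeval l f₁ ≠ 0) : IsRelPrime f₁ f₂ := by
  rintro d ⟨e, rfl⟩ h2
  have h1 := hc.isUnit_of_dvd' (map_dvd (aeval l) (dvd_mul_right d e)) (map_dvd (aeval l) h2)
  have d0 : d ≠ 0 := by rintro rfl; simp at h0
  have e0 : e ≠ 0 := by rintro rfl; simp at h0
  rw [map_mul] at hd h0
  rw [totalDegree_mul_of_isDomain d0 e0, Polynomial.natDegree_mul (left_ne_zero_of_mul h0)
    (right_ne_zero_of_mul h0), Polynomial.natDegree_eq_zero_of_isUnit h1] at hd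
  have h3 := aeval_natDegree_le e le_rfl l hl
  obtain h4 := totalDegree_eq_zero_iff_eq_C.1 (show d.totalDegree = 0 by omega)
  rw [h4] at d0 ⊢
  exact (IsUnit.mk0 _ fun h => d0 (by rw [h, map_zero])).map C

end Pool.Agent.P.MP_97ea17_al
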