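import Pool.Agent.P.MP_97ea17_al.Num
import Pool.Agent.P.MP_97ea17_al.Two
import Pool.Agent.P.MP_97ea17_al.DS1

/-! The group of order 6912 in rank four: three explicit quartic invariants. -/

namespace Pool.Agent.P.MP_97ea17_al.Ck

open scoped Quaternion Matrix
open Module MvPolynomial Complex

attribute [-simp] Matrix.coe_units_inv

section
variable {R : Type} [CommRing R]

/-- The three quartics. -/
def qF (x : Fin 4 × Fin 2 → R) : Fin 3 → R :=
  let P := fun i => x (i, 0) ^ 2 + x (i, 1) ^ 2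
  let M := fun i => x (i, 0) ^ 2 - x (i, 1) ^ 2
  let Q := fun i => 2 * (x (i, 0) * x (i, 1))
  ![Q 0 * Q 1 + Q 2 * Q 3 - P 0 * P 2 - P 1 * P 3 + M 0 * M 3 + M 1 * M 2,
    P 0 * P 1 + P 2 * P 3 - M 0 * M 2 - M 1 * M 3 - Q 0 * Q 3 - Q 1 * Q 2,
    M 0 * M 1 + M 2 * M 3 + Q 0 * Q 2 + Q 1 * Q 3 - P 0 * P 3 - P 1 * P 2]

theorem map_qF {S F : Type} [CommRing S] [FunLike F R S] [RingHomClass F R S] (φ : F)
    (x : Fin 4 × Fin 2 → R) (k : Fin 3) : φ (qF x k) = qF (fun p => φ (x p)) k := by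
  fin_cases k <;> simp [qF, map_ofNat]

end

theorem qF_hom (k : Fin 3) : (qF (X : _ → MvPolynomial (Fin 4 × Fin 2) ℂ) k).IsHomogeneous 4 := by
  have h := fun p => isHomogeneous_X ℂ (σ := Fin 4 × Fin 2) p
  have P := fun i : Fin 4 => ((h (i, 0)).pow 2).add ((h (i, 1)).pow 2)
  have M := fun i : Fin 4 => ((h (i, 0)).pow 2).sub ((h (i, 1)).pow 2)
  have Q : ∀ i : Fin 4, (2 * (X (i, 0) * X (i, 1)) :
      MvPolynomial (Fin 4 × Fin 2) ℂ).IsHomogeneous 2 := fun i => by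
    rw [two_mul]
    exact ((h _).mul (h _)).add ((h _).mul (h _))
  fin_cases k
  · exact ((((((Q 0).mul (Q 1)).add ((Q 2).mul (Q 3))).sub ((P 0).mul (P 2))).sub
      ((P 1).mul (P 3))).add ((M 0).mul (M 3))).add ((M 1).mul (M 2))
  · exact ((((((P 0).mul (P 1)).add ((P 2).mul (P 3))).sub ((M 0).mul (M 2))).sub
      ((M 1).mul (M 3))).sub ((Q 0).mul (Q 3))).sub ((Q 1).mul (Q 2))
  · exact ((((((M 0).mul (M 1)).add ((M 2).mul (M 3))).add ((Q 0).mul (Q 2))).add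
      ((Q 1).mul (Q 3))).sub ((P 0).mul (P 3))).sub ((P 1).mul (P 2))

theorem qF_sign {x y : Fin 4 × Fin 2 → ℂ} (j : Fin 4)
    (h : ∀ i a, y (i, a) = if i = j then -x (i, a) else x (i, a)) : qF y = qF x := by
  fin_cases j <;> simp [qF, h]

theorem qF_half {x y : Fin 4 × Fin 2 → ℂ}
    (h : ∀ i a, y (i, a) = x (i, a) - (x (0, a) + x (1, a) + x (2, a) + x (3, a)) / 2) :
    qF y = qF x := by
  ext k
  fin_cases k <;> simp only [qF, h] <;> simp <;> ring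

theorem qF_tw {x y : Fin 4 × Fin 2 → ℂ} {s t : ℂ}
    (hs : s = (x (0, 0) - I * x (1, 0) + x (2, 1) + I * x (3, 1)) / 2)
    (ht : t = (x (0, 1) + I * x (1, 1) - x (2, 0) + I * x (3, 0)) / 2)
    (h : y (0, 0) = x (0, 0) - s ∧ y (0, 1) = x (0, 1) - t ∧ y (1, 0) = x (1, 0) - I * s ∧
      y (1, 1) = x (1, 1) + I * t ∧ y (2, 0) = x (2, 0) + t ∧ y (2, 1) = x (2, 1) - s ∧
      y (3, 0) = x (3, 0) + I * t ∧ y (3, 1) = x (3, 1) + I * s) : qF y = qF x := by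
  have key : ∀ z : ℂ, ∃ w, z = I * w := fun z => ⟨-I * z, by
    rw [← mul_assoc, mul_neg, I_mul_I, neg_neg, one_mul]⟩
  obtain ⟨a, ha⟩ := key (x (1, 0))
  obtain ⟨b, hb⟩ := key (x (1, 1))
  obtain ⟨c, hc⟩ := key (x (3, 0))
  obtain ⟨d, hd⟩ := key (x (3, 1))
  have e : ∀ z : ℂ, I * (I * z) = -z := fun z => by rw [← mul_assoc, I_mul_I, neg_one_mul]
  have e' : ∀ z w : ℂ, I * z * (I * w) = -(z * w) := fun z w => by
    rw [mul_mul_mul_comm, I_mul_I, neg_one_mul]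
  obtain ⟨h1, h2, h3, h4, h5, h6, h7, h8⟩ := h
  simp only [ha, hb, hc, hd, e, ← mul_sub, ← mul_add] at hs ht h3 h4 h7 h8
  ext k
  fin_cases k <;>
    simp only [qF, h1, h2, h3, h4, h5, h6, h7, h8, ha, hb, hc, hd, mul_pow, I_sq, e'] <;>
    simp [hs, ht] <;> ring

theorem cq_smul (r : ℝ) (x : ℍ[ℝ]) : cq (r • x) = (r : ℂ) • cq x := by
  ext a
  fin_cases a <;> simp [cq, Complex.ext_iff]

theorem coord_refl (a v : Fin 4 → ℍ[ℝ]) (i : Fin 4) (b : Fin 2) :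
    coord (reflMat a ((2 : ℝ)⁻¹ • quat 2 [-2]) *ᵥ v) (i, b) = coord v (i, b) -
      2 * ((∑ k, Quaternion.normSq (a k) : ℝ) : ℂ)⁻¹ *
        (blk (a i) *ᵥ ∑ j, blk (star (a j)) *ᵥ fun c => coord v (j, c)) b := by
  have hx : (2 : ℝ)⁻¹ • quat 2 [-2] - 1 = (-2 : ℝ) • (1 : ℍ[ℝ]) := by
    ext <;> simp [quat]
    norm_num
  simp only [coord_eq, reflMat_mulVec, hx, smul_mul_assoc, one_mul, ← Finset.smul_sum,
    mul_smul_comm, cq_add, cq_smul, cq_mul, cq_sum, Pi.add_apply, Pi.smul_apply, smul_eq_mul]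
  push_cast
  ring

theorem quat_vals : quat 2 [0] = 0 ∧ quat 2 [1] = 1 ∧
    blk (quat 2 [0, 1]) = !![I, 0; 0, -I] ∧ blk (star (quat 2 [0, 1])) = !![-I, 0; 0, I] ∧
    blk (quat 2 [0, 0, 1]) = !![0, -1; 1, 0] ∧ blk (star (quat 2 [0, 0, 1])) = !![0, 1; -1, 0] ∧
    blk (quat 2 [0, 0, 0, 1]) = !![0, -I; -I, 0] ∧
    blk (star (quat 2 [0, 0, 0, 1])) = !![0, I; I, 0] ∧
    Quaternion.normSq (quat 2 [0, 1]) = 1 ∧ Quaternion.normSq (quat 2 [0, 0, 1]) = 1 ∧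
    Quaternion.normSq (quat 2 [0, 0, 0, 1]) = 1 := by
  refine ⟨by ext <;> simp [quat], by ext <;> simp [quat], ?_, ?_, ?_, ?_, ?_, ?_,
    by simp [quat, Quaternion.normSq_def'], by simp [quat, Quaternion.normSq_def'],
    by simp [quat, Quaternion.normSq_def']⟩ <;>
  · ext a b
    fin_cases a <;> fin_cases b <;> simp [blk, quat, Complex.ext_iff]

theorem qF_inv (k : Fin 3) : qF X k ∈ invH (cW (grp 4 2 rS1)) 4 := by
  refine mem_invH.2 ⟨qF_hom k, fun ⟨g, hg⟩ => ?_⟩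
  rw [cW_apply]
  induction hg using Subgroup.closure_induction with
  | one => simp [sub_one]
  | mul g h _ _ ih ih' => rw [Units.val_mul, map_mul, MP_97ea17_al.sub_mul, ih, ih']
  | inv g _ ih =>
    nth_rewrite 1 [← ih]
    rw [← MP_97ea17_al.sub_mul, ← map_mul, ← Units.val_mul]
    simp [sub_one]
  | mem g hg =>
    obtain ⟨r, hr, hg⟩ := hg
    refine (inv_iff _ _).1 fun v => ?_
    simp only [map_qF, eval_X, hg]
    refine congrFun ?_ k
    simp only [rS1, List.mem_cons, List.not_mem_nil, or_false] at hr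
    rcases hr with rfl | rfl | rfl | rfl | rfl
    · refine qF_sign 1 fun i a => ?_
      rw [coord_refl]
      fin_cases i <;> fin_cases a <;> simp [Fin.sum_univ_four, quat_vals, blk_one, blk_zero] <;>
        ring
    · refine qF_sign 2 fun i a => ?_
      rw [coord_refl]
      fin_cases i <;> fin_cases a <;> simp [Fin.sum_univ_four, quat_vals, blk_one, blk_zero] <;>
        ring
    · refine qF_sign 3 fun i a => ?_
      rw [coord_refl]
      fin_cases i <;> fin_cases a <;> simp [Fin.sum_univ_four, quat_vals, blk_one, blk_zero] <;>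
        ring
    · refine qF_half fun i a => ?_
      rw [coord_refl]
      fin_cases i <;> fin_cases a <;> simp [Fin.sum_univ_four, quat_vals, blk_one] <;> ring
    · refine qF_tw rfl rfl ?_
      simp only [coord_refl]
      refine ⟨?_, ?_, ?_, ?_, ?_, ?_, ?_, ?_⟩ <;>
        simp [Fin.sum_univ_four, quat_vals, blk_one, Matrix.vecHead, Matrix.vecTail] <;> ring

theorem bound_S1 : Bound (grp 4 2 rS1) := by
  obtain ⟨c1, c2, c3, c4⟩ := DS1.z.mol Nat.prime_two DS1.h0 DS1.h1 DS1.hr DS1.h2 DS1.h3 DS1.h4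
    DS1.h5 DS1.h6
  set T : Polynomial ℂ := Polynomial.X with hT
  let l : Fin 4 × Fin 2 → Polynomial ℂ := fun p => ![![T, T + 1], ![T, T + 1], 0, 0] p.1 p.2
  have e1 : aeval l (qF (X : _ → MvPolynomial _ ℂ) 0) = 4 * (T * (T + 1)) ^ 2 := by
    simp [qF, l]
    ring
  have e2 : aeval l (qF (X : _ → MvPolynomial _ ℂ) 1) = (2 * (T * (T + 1)) + 1) ^ 2 := by
    simp [qF, l]
    ring
  have e3 : (aeval l (qF (X : _ → MvPolynomial _ ℂ) 0)).natDegree = 4 := by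
    rw [e1, hT]
    compute_degree!
  have e4 : aeval l (qF (X : _ → MvPolynomial _ ℂ) 0) ≠ 0 := fun h => by simp [h] at e3
  have e0 : (T + 1).natDegree ≤ 1 := by rw [hT]; compute_degree
  have e5 : IsRelPrime (qF (X : _ → MvPolynomial _ ℂ) 0) (qF X 1) := relPrime_of_line l
    (fun ⟨i, a⟩ => by fin_cases i <;> fin_cases a <;> simp [l, hT, hT ▸ e0])
    ((qF_hom 0).totalDegree_le.trans e3.ge)
    ⟨3 + 4 * (T * (T + 1)), 1 - 4 * (T * (T + 1)), by rw [e1, e2]; ring⟩ e4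
  have e6 : ∀ k, qF (X : _ → MvPolynomial _ ℂ) k ≠ 0 := fun k h => by
    have := congrArg (eval fun p => ![![2, 1], ![2, 1], 0, 0] p.1 p.2) h
    fin_cases k <;> simp [qF] at this <;> norm_num at this
  have e7 : qF (X : _ → MvPolynomial _ ℂ) 2 * qF X 2 ∉ Ideal.span {qF X 0, qF X 1} := by
    intro h
    obtain ⟨a, b, e⟩ := Ideal.mem_span_pair.1 h
    have := congrArg (eval fun p => ![![1, 0], ![1, I], 0, 0] p.1 p.2) e
    simp [qF] at this
  have := naive_two (cW DS1.z.W) 16 _ _ c3 c2 (qF_inv 0) (qF_inv 1) (qF_inv 2) (e6 0) (e6 1) e5 e7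
  have e8 : (DS1.z.g + 1) ^ DS1.z.y.n + ∑ k ∈ Finset.range 16, ∑ i ∈ Finset.range k,
      (dtwo (nth 0 DS1.z.rs) (k - i) - if k - i = 8 then 1 else 0) * dtwo (nth 0 DS1.z.ss) i ≤
      ∑ k ∈ Finset.range 16, dtwo (nth 0 DS1.z.ss) k := by decide +kernel
  exact c4 (by omega)

end Pool.Agent.P.MP_97ea17_al.Ck
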