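import Pool.Agent.P.MP_97ea17_al.Arith
import Pool.Agent.P.MP_97ea17_al.CertS
import Pool.Agent.P.MP_97ea17_al.Link

/-! The finite systems of quaternionic vectors. -/

namespace Pool.Agent.P.MP_97ea17_al.Ck

open scoped Quaternion Matrix

attribute [-simp] Matrix.coe_units_inv

/-- Coordinate number `j`. -/
noncomputable def Sys.E (y : Sys) (j : ℕ) : ℍ[ℝ] := (8 : ℝ)⁻¹ • (dQ (y.code j)).val y.D

/-- The verified properties of a system. -/
structure Sys.OK (y : Sys) : Prop where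
  prime : y.D.Prime
  mpos : 0 < y.m
  Sgt : 1 < y.S
  nL : y.n ≤ y.L
  LM : y.L * y.m ≤ 65536
  E0 : y.E 0 = 0
  U0 : y.E y.m = 1
  mu0 : ∀ b < y.m, y.mu 0 b = b
  muU : ∀ a < y.m, ∀ b < y.m, y.mu a b < y.m ∧
    y.E (y.m + y.mu a b) = y.E (y.m + a) * y.E (y.m + b)
  Es : ∀ s < y.S, ∀ b < y.m, y.E (s * y.m + b) = y.E (s * y.m) * y.E (y.m + b)
  inj1 : ∀ j < y.S * y.m, ∀ j' < y.S * y.m, y.m - 1 ≤ j → y.m - 1 ≤ j' →
    y.code j = y.code j' → j = j'
  basis : ∀ i < y.n, ∀ k < y.n, y.cix i k = if i = k then y.m else 0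
  can : ∀ l < y.L, y.can l = true
  cix : ∀ l < y.L, ∀ i < y.n, y.cix l i < y.S * y.m
  inj2 : ∀ l < y.L, ∀ l' < y.L, y.lc l = y.lc l' → l = l'

theorem Sys.E_mul (y : Sys) {a b c : ℕ}
    (h : ((dQ (y.code c)).sm 8).beq (Q4.mul y.D (dQ (y.code a)) (dQ (y.code b))) = true) :
    y.E c = y.E a * y.E b := by
  have := Q4.val_beq (D := y.D) h
  rw [Q4.val_sm, Q4.val_mul] at this
  simp only [Sys.E, smul_mul_smul_comm, ← this, smul_smul]
  norm_num

theorem val_one (D : ℕ) : (8 : ℝ)⁻¹ • (dQ 0x8080808080808088).val D = 1 := by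
  rw [Q4.val_beq (y := zQ [8]) (by decide +kernel), val_zQ]
  ext <;> simp [quat]

theorem val_nought (D : ℕ) : (8 : ℝ)⁻¹ • (dQ 0x8080808080808080).val D = 0 := by
  rw [Q4.val_beq (y := Q4.zero) (by decide +kernel), Q4.val_zero, smul_zero]

theorem Sys.ok_spec {y : Sys} (hD : y.D.Prime) (h : y.ok = true) : y.OK := by
  unfold Sys.ok at h
  simp only [nd_iff, allN_iff, allL_iff, frc_eq, Nat.blt_eq, Nat.ble_eq, Nat.beq_eq, Nat.add_eq,
    Nat.mul_eq, Nat.pred_eq_sub_one] at h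
  obtain ⟨h1, h2, h3, h4, h5, h6, h7, h8, h9, h10, h11, h12, h13, h14⟩ := h
  have e1 : y.E y.m = 1 := by
    rw [Sys.E, h6, val_one]
  have hg : ∀ i, ∀ b < y.m, y.mu (nth 0 y.ug i) b < y.m ∧ y.E (y.m + y.mu (nth 0 y.ug i) b) =
      y.E (y.m + nth 0 y.ug i) * y.E (y.m + b) := by
    intro i b hb
    rcases List.mem_cons.1 (nth_mem 0 y.ug i) with e | e
    · rw [e, h7 b hb, add_zero, e1, one_mul]
      exact ⟨hb, rfl⟩
    · exact ⟨((h8 _ e).2 b hb).1, y.E_mul ((h8 _ e).2 b hb).2⟩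
  refine ⟨hD, h1, h2, h3, h4, ?_, e1, h7, fun a => ?_, fun s hs b hb => y.E_mul (h10 s hs b hb),
    fun j hj j' hj' a a' e => ?_, fun i hi k hk => ?_, fun l hl => (h13 l hl).1,
    fun l hl => (h13 l hl).2, fun l hl l' hl' e => (dis_spec h14).2 l hl l' hl' (by rw [e])⟩
  · rw [Sys.E, h5, val_nought]
  · induction a using Nat.strong_induction_on with
    | _ a ih =>
      intro ha b hb
      cases a with
      | zero => rw [h7 b hb, add_zero, e1, one_mul]; exact ⟨hb, rfl⟩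
      | succ a =>
        obtain ⟨k1, k2, k3⟩ := h9 a (by omega)
        obtain ⟨i1, i2⟩ := ih _ (Nat.lt_succ_of_le k1) (by omega) b hb
        obtain ⟨i3, i4⟩ := hg _ _ i1
        rw [k3 b hb]
        refine ⟨i3, ?_⟩
        rw [i4, i2, ← k2, (hg _ _ (by omega)).2, mul_assoc]
  · have e2 : (y.S - 1) * y.m + y.m = y.S * y.m := by
      rw [← Nat.succ_mul]; congr 1; omega
    have := (dis_spec h11).2 (j - (y.m - 1)) (by omega) (j' - (y.m - 1)) (by omega)
      (by simp only [Nat.sub_add_cancel a, Nat.sub_add_cancel a', e])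
    omega
  · rw [h12 i hi k hk]
    split_ifs with e
    · rw [e, Nat.beq_refl]
    · rw [show Nat.beq i k = false by rw [← Bool.not_eq_true, Nat.beq_eq]; exact e]

theorem rmu_eq (y : Sys) (j w : ℕ) : rmu y.m y.Mt j w = j - j % y.m + y.mu (j % y.m) w := rfl

variable {y : Sys}

theorem Sys.OK.rmu_div (h : y.OK) (j : ℕ) {w : ℕ} (hw : w < y.m) :
    rmu y.m y.Mt j w / y.m = j / y.m ∧ rmu y.m y.Mt j w % y.m = y.mu (j % y.m) w := by
  have h1 := (h.muU _ (Nat.mod_lt j h.mpos) w hw).1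
  have h2 : j - j % y.m = y.m * (j / y.m) := by have := Nat.div_add_mod j y.m; omega
  rw [rmu_eq, h2, Nat.mul_add_div h.mpos, Nat.mul_add_mod, Nat.div_eq_of_lt h1,
    Nat.mod_eq_of_lt h1]
  exact ⟨rfl, rfl⟩

theorem Sys.OK.rmu_lt (h : y.OK) {j w N : ℕ} (hj : j < N * y.m) (hw : w < y.m) :
    rmu y.m y.Mt j w < N * y.m := by
  rw [← Nat.div_lt_iff_lt_mul h.mpos] at hj ⊢
  rwa [(h.rmu_div j hw).1]

theorem Sys.OK.E_eq (h : y.OK) {j : ℕ} (hj : j < y.S * y.m) :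
    y.E j = y.E (j / y.m * y.m) * y.E (y.m + j % y.m) := by
  rw [← h.Es _ ((Nat.div_lt_iff_lt_mul h.mpos).2 hj) _ (Nat.mod_lt j h.mpos), Nat.div_add_mod']

theorem Sys.OK.E_rmu (h : y.OK) {j w : ℕ} (hj : j < y.S * y.m) (hw : w < y.m) :
    y.E (rmu y.m y.Mt j w) = y.E j * y.E (y.m + w) := by
  rw [h.E_eq (h.rmu_lt hj hw), (h.rmu_div j hw).1, (h.rmu_div j hw).2,
    (h.muU _ (Nat.mod_lt j h.mpos) w hw).2, h.E_eq hj, mul_assoc]

theorem Sys.OK.E_max (h : y.OK) (j : ℕ) : y.E (max j (y.m - 1)) = y.E j := by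
  have h1 := h.mpos
  have key : ∀ b < y.m, y.E b = 0 := fun b hb => by
    have := h.Es 0 (by have := h.Sgt; omega) b hb
    simpa [h.E0] using this
  rcases le_total j (y.m - 1) with e | e
  · rw [max_eq_right e, key _ (by omega), key _ (by omega)]
  · rw [max_eq_left e]

theorem Sys.OK.E_inj (h : y.OK) {j j' : ℕ} (hj : j < y.S * y.m) (hj' : j' < y.S * y.m)
    (e : y.E j = y.E j') : max j (y.m - 1) = max j' (y.m - 1) := by
  have h1 : y.m - 1 < y.S * y.m := by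
    have := Nat.mul_le_mul_right y.m h.Sgt.le
    have := h.mpos
    omega
  rw [← h.E_max j, ← h.E_max j'] at e
  refine h.inj1 _ (max_lt hj h1) _ (max_lt hj' h1) (le_max_right _ _) (le_max_right _ _)
    (dQ_inj h.prime (Nat.mod_lt _ (by norm_num)) (Nat.mod_lt _ (by norm_num)) ?_)
  exact smul_right_injective _ (by norm_num) e

theorem Sys.OK.U_ne (h : y.OK) {w : ℕ} (hw : w < y.m) : y.E (y.m + w) ≠ 0 := by
  intro e
  have h1 := Nat.mul_le_mul_right y.m (show 2 ≤ y.S from h.Sgt)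
  have := h.E_inj (j := y.m + w) (j' := 0) (by omega) (by omega) (e.trans h.E0.symm)
  omega

/-- The point number `p`. -/
noncomputable def Sys.vec (y : Sys) (p : ℕ) : Fin y.n → ℍ[ℝ] :=
  fun i => y.E (y.cix (p / y.m) i) * y.E (y.m + p % y.m)

theorem Sys.OK.cd_spec (h : y.OK) {p : ℕ} (hp : p < y.L * y.m) (i : Fin y.n) :
    y.cd i p < y.S * y.m ∧ y.E (y.cd i p) = y.vec p i :=
  have h1 := h.cix _ ((Nat.div_lt_iff_lt_mul h.mpos).2 hp) i i.2
  ⟨h.rmu_lt h1 (Nat.mod_lt p h.mpos), h.E_rmu h1 (Nat.mod_lt p h.mpos)⟩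

theorem Sys.OK.vec_rmu (h : y.OK) (p : ℕ) {w : ℕ} (hw : w < y.m) :
    y.vec (rmu y.m y.Mt p w) = fun i => y.vec p i * y.E (y.m + w) := by
  ext1 i
  simp only [Sys.vec, (h.rmu_div p hw).1, (h.rmu_div p hw).2,
    (h.muU _ (Nat.mod_lt p h.mpos) w hw).2, mul_assoc]

theorem Sys.OK.vec_line (h : y.OK) (l : ℕ) (i : Fin y.n) :
    y.vec (l * y.m) i = y.E (y.cix l i) := by
  simp [Sys.vec, Nat.mul_div_cancel _ h.mpos, h.U0]

theorem Sys.OK.vec_basis (h : y.OK) (i : Fin y.n) : y.vec (i * y.m) = Pi.single i 1 := by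
  ext1 k
  rw [h.vec_line, h.basis _ i.2 _ k.2, Pi.single_apply]
  by_cases e : k = i
  · simp [e, h.U0]
  · rw [if_neg e, if_neg fun e' => e (Fin.ext e').symm, h.E0]

theorem Sys.OK.unit_eq (h : y.OK) {l l' u u' : ℕ} (hu : u < y.m) (hu' : u' < y.m) (k : ℕ)
    (e : ∀ i < k, max (rmu y.m y.Mt (y.cix l i) u) (y.m - 1) =
      max (rmu y.m y.Mt (y.cix l' i) u') (y.m - 1))
    (c : Nat.rec (motive := fun _ => Bool) false (fun i ih =>
      Bool.rec (Nat.beq (Nat.mod (y.cix l i) y.m) 0) ih (Nat.blt (y.cix l i) y.m)) k = true)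
    (c' : Nat.rec (motive := fun _ => Bool) false (fun i ih =>
      Bool.rec (Nat.beq (Nat.mod (y.cix l' i) y.m) 0) ih (Nat.blt (y.cix l' i) y.m)) k = true) :
    u = u' := by
  induction k with
  | zero => exact absurd c (by simp)
  | succ k ih =>
    have e1 := e k (by omega)
    have a : ∀ j w, w < y.m → (rmu y.m y.Mt j w < y.m ↔ j < y.m) := fun j w hw => by
      rw [← Nat.div_eq_zero_iff_lt h.mpos, (h.rmu_div j hw).1, Nat.div_eq_zero_iff_lt h.mpos]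
    have a1 := a (y.cix l k) u hu
    have a2 := a (y.cix l' k) u' hu'
    have hm := h.mpos
    have nb : ∀ j, ¬ j < y.m → Nat.blt j y.m = false := fun j hj => by
      rw [← Bool.not_eq_true, Nat.blt_eq]; exact hj
    by_cases b : y.cix l k < y.m
    · have b' : y.cix l' k < y.m := by omega
      simp only [Nat.blt_eq.symm ▸ b, Nat.blt_eq.symm ▸ b'] at c c'
      exact ih (fun i hi => e i (by omega)) c c'
    · have b' : ¬ y.cix l' k < y.m := by omega
      simp only [nb _ b, nb _ b', Nat.beq_eq] at c c'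
      have e2 : rmu y.m y.Mt (y.cix l k) u = rmu y.m y.Mt (y.cix l' k) u' := by omega
      have e3 := congrArg (· % y.m) e2
      simp only [(h.rmu_div _ hu).2, (h.rmu_div _ hu').2] at e3
      change _ % _ = 0 at c c'
      rwa [c, c', h.mu0 _ hu, h.mu0 _ hu'] at e3

theorem Sys.OK.vec_inj (h : y.OK) {p q : ℕ} (hp : p < y.L * y.m) (hq : q < y.L * y.m)
    (e : y.vec p = y.vec q) : p = q := by
  have hp' := (Nat.div_lt_iff_lt_mul h.mpos).2 hp
  have hq' := (Nat.div_lt_iff_lt_mul h.mpos).2 hq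
  have h1 : p % y.m = q % y.m := h.unit_eq (Nat.mod_lt p h.mpos) (Nat.mod_lt q h.mpos) y.n
    (fun i hi => h.E_inj (h.cd_spec hp ⟨i, hi⟩).1 (h.cd_spec hq ⟨i, hi⟩).1
      ((h.cd_spec hp ⟨i, hi⟩).2.trans ((congrFun e _).trans (h.cd_spec hq ⟨i, hi⟩).2.symm)))
    (h.can _ hp') (h.can _ hq')
  have h2 : ∀ i < y.n, max (y.cix (p / y.m) i) (y.m - 1) = max (y.cix (q / y.m) i) (y.m - 1) := by
    intro i hi
    have := congrFun e ⟨i, hi⟩
    simp only [Sys.vec, h1] at this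
    exact h.E_inj (h.cix _ hp' i hi) (h.cix _ hq' i hi)
      (mul_right_cancel₀ (h.U_ne (Nat.mod_lt q h.mpos)) this)
  have h3 : y.lc (p / y.m) = y.lc (q / y.m) := by
    unfold Sys.lc
    generalize y.n = k at h2
    induction k with
    | zero => rfl
    | succ k ih =>
      simp only [Nat.pred_eq_sub_one] at ih ⊢
      rw [ih fun i hi => h2 i (by omega), h2 k (by omega)]
  rw [← Nat.div_add_mod p y.m, ← Nat.div_add_mod q y.m, h1, h.inj2 _ hp' _ hq' h3]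

/-- Column vectors. -/
def Vec (n : ℕ) : Type := Fin n → ℍ[ℝ]

noncomputable instance (n : ℕ) : MulAction (GL (Fin n) ℍ[ℝ]) (Vec n) where
  smul g v := Matrix.mulVec g.val v
  one_smul v := Matrix.one_mulVec v
  mul_smul g h v := (Matrix.mulVec_mulVec v g.val h.val).symm

theorem smul_vec {n : ℕ} (g : GL (Fin n) ℍ[ℝ]) (v : Vec n) :
    g • v = Matrix.mulVec g.val v := rfl

theorem mulVec_right {n : ℕ} (A : Matrix (Fin n) (Fin n) ℍ[ℝ]) (v : Fin n → ℍ[ℝ]) (u : ℍ[ℝ]) :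
    (A *ᵥ fun i => v i * u) = fun i => (A *ᵥ v) i * u := by
  ext1 i
  simp only [Matrix.mulVec, dotProduct, Finset.sum_mul, mul_assoc]

theorem Sys.OK.act (h : y.OK) {T : ℕ} {g : GL (Fin y.n) ℍ[ℝ]}
    (hT : ∀ l < y.L, ent T 16 65536 l < y.L * y.m ∧
      g.val *ᵥ y.vec (l * y.m) = y.vec (ent T 16 65536 l)) :
    Act (X := Vec y.n) (y.L * y.m) y.vec (y.ap T) g := by
  intro p hp
  obtain ⟨h1, h2⟩ := hT _ ((Nat.div_lt_iff_lt_mul h.mpos).2 hp)
  have h3 := Nat.mod_lt p h.mpos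
  refine ⟨h.rmu_lt h1 h3, ?_⟩
  rw [smul_vec, Sys.ap, app_eq, h.vec_rmu _ h3, ← h2, ← mulVec_right]
  congr 1
  ext1 i
  rw [h.vec_line]
  rfl

theorem Sys.OK.tb_act (h : y.OK) (f : ℕ → ℕ) (g : GL (Fin y.n) ℍ[ℝ])
    (hf : Act (X := Vec y.n) (y.L * y.m) y.vec f g) :
    Act (X := Vec y.n) (y.L * y.m) y.vec (y.ap (mkT y.m y.L f)) g := by
  have h1 : ∀ l < y.L, l * y.m < y.L * y.m := fun l hl => Nat.mul_lt_mul_of_pos_right hl h.mpos
  refine h.act fun l hl => ?_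
  rw [ent_mkT _ _ _ (fun l hl => (hf _ (h1 l hl)).1.trans_le h.LM) l hl]
  exact hf _ (h1 l hl)

/-- The environment of a system. -/
noncomputable def Sys.OK.env (h : y.OK) (hn : 0 < y.n) (d : ℕ)
    (hd : d = mkT y.m y.L fun p => p) : Env (GL (Fin y.n) ℍ[ℝ]) (Vec y.n) where
  M := y.L * y.m
  m := y.m
  vec := y.vec
  ap := y.ap
  tb := mkT y.m y.L
  rm := rmu y.m y.Mt
  R u v := fun i => v i * y.E (y.m + u)
  bs := y.bs
  d := d
  pos := Nat.mul_pos (hn.trans_le h.nL) h.mpos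
  inj _ hp _ hq := h.vec_inj hp hq
  base g hg := by
    ext i j : 2
    have := hg (j * y.m) (List.mem_map.2 ⟨j, List.mem_range.2 j.2, rfl⟩)
    rw [smul_vec, h.vec_basis] at this
    simpa [Matrix.one_apply, Pi.single_apply] using congrFun this i
  bsM b hb := by
    obtain ⟨i, hi, rfl⟩ := List.mem_map.1 hb
    exact Nat.mul_lt_mul_of_pos_right ((List.mem_range.1 hi).trans_le h.nL) h.mpos
  tb_act := h.tb_act
  d_act := hd ▸ h.tb_act _ _ fun p hp => ⟨hp, one_smul _ _⟩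
  R_comm u g x := (mulVec_right _ _ _).symm
  rm_vec p hp u hu := ⟨h.rmu_lt hp hu, h.vec_rmu p hu⟩

end Pool.Agent.P.MP_97ea17_al.Ck
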